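import Mathlib

/-! Irreducibility of `c ∏ ℓ_k - 1` for a line arrangement. -/

namespace Pool.Agent.Helper11

open Polynomial

section

variable {ι : Type*} (a b p : ι → ℚ)

/-- the linear form of the `k`-th line, in `ℚ[X][Y]` -/
noncomputable def lin (k : ι) : ℚ[X][X] := C (C (a k) * X + C (p k)) + C (C (b k)) * X

/-- evaluation at a point -/
noncomputable def evp {L : Type*} [CommRing L] [Algebra ℚ L] (x y : L) : ℚ[X][X] →+* L :=
  eval₂RingHom (aeval x : ℚ[X] →ₐ[ℚ] L).toRingHom y

variable {L : Type*} [CommRing L] [Algebra ℚ L] (x y : L)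

@[simp] lemma evp_C (q : ℚ[X]) : evp x y (C q) = aeval x q := by
  unfold evp
  rw [coe_eval₂RingHom, eval₂_C]
  rfl

@[simp] lemma evp_X : evp x y (X : ℚ[X][X]) = y := by
  unfold evp
  rw [coe_eval₂RingHom, eval₂_X]

lemma evp_lin (k : ι) : evp x y (lin a b p k) =
    algebraMap ℚ L (a k) * x + algebraMap ℚ L (b k) * y + algebraMap ℚ L (p k) := by
  unfold lin
  simp only [map_add, map_mul, evp_C, evp_X, aeval_C, aeval_X]
  ring

/-- homomorphisms out of `ℚ[X][Y]` are determined by the values at the variables -/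
lemma hom_ext {S : Type*} [CommRing S] {f g : ℚ[X][X] →+* S} (h1 : f (C X) = g (C X))
    (h2 : f X = g X) : f = g := by
  refine Polynomial.ringHom_ext' ?_ h2
  refine Polynomial.ringHom_ext' ?_ h1
  exact RingHom.ext_rat _ _

/-- coordinates of the point with parameter `T` on the `k`-th line -/
noncomputable def xk (k : ι) : ℚ[X] := C (-(p k * a k) / (a k ^ 2 + b k ^ 2)) - C (b k) * X

/-- second coordinate -/
noncomputable def yk (k : ι) : ℚ[X] := C (-(p k * b k) / (a k ^ 2 + b k ^ 2)) + C (a k) * X

/-- restriction to the `k`-th line -/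
noncomputable def res (k : ι) : ℚ[X][X] →+* ℚ[X] := evp (xk a b p k) (yk a b p k)

variable {a b p}

/-- the norm of the normal vector is nonzero -/
lemma nrm_ne {k : ι} (h : a k ≠ 0 ∨ b k ≠ 0) : a k ^ 2 + b k ^ 2 ≠ 0 := by
  intro h0
  have h1 : a k = 0 := by nlinarith [sq_nonneg (a k), sq_nonneg (b k)]
  have h2 : b k = 0 := by nlinarith [sq_nonneg (a k), sq_nonneg (b k)]
  rcases h with h | h
  · exact h h1
  · exact h h2

lemma res_lin (k l : ι) : res a b p k (lin a b p l) =
    C (a k * b l - a l * b k) * X + C (a l * (-(p k * a k) / (a k ^ 2 + b k ^ 2)) +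
      b l * (-(p k * b k) / (a k ^ 2 + b k ^ 2)) + p l) := by
  unfold res
  rw [evp_lin]
  unfold xk yk
  simp only [algebraMap_eq, C_add, C_mul, C_sub]
  ring

/-- the kernel of the restriction -/
lemma dvd_of_res {k : ι} (h : a k ≠ 0 ∨ b k ≠ 0) {G : ℚ[X][X]} (hG : res a b p k G = 0) :
    lin a b p k ∣ G := by
  have hn := nrm_ne h
  set n := a k ^ 2 + b k ^ 2 with hndef
  -- section
  let s : ℚ[X][X] := C (C (-(b k) / n) * X) + C (C (a k / n)) * X
  let σ : ℚ[X] →+* ℚ[X][X] := (aeval s : ℚ[X] →ₐ[ℚ] ℚ[X][X]).toRingHom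
  let π : ℚ[X][X] →+* (ℚ[X][X] ⧸ Ideal.span {lin a b p k}) := Ideal.Quotient.mk _
  have hσC : ∀ q : ℚ, σ (C q) = C (C q) := by
    intro q
    show aeval s (C q) = _
    rw [aeval_C]
    rfl
  have hσX : σ X = s := by
    show aeval s X = _
    rw [aeval_X]
  have key : π = (π.comp σ).comp (res a b p k) := by
    refine hom_ext (S := ℚ[X][X] ⧸ Ideal.span {lin a b p k}) ?_ ?_
    · rw [RingHom.comp_apply, RingHom.comp_apply]
      have e1 : res a b p k (C X) = xk a b p k := by
        unfold res
        rw [evp_C, aeval_X]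
      rw [e1, ← sub_eq_zero, ← map_sub]
      have e2 : (C X : ℚ[X][X]) - σ (xk a b p k) = lin a b p k * C (C (a k / n)) := by
        unfold xk
        rw [map_sub, map_mul, hσC, hσC, hσX]
        have e3 : (C X : ℚ[X][X]) = C (C (n / n) * X) := by
          rw [div_self hn, C_1, one_mul]
        have e4 : (n / n : ℚ) = a k * (a k / n) + b k * (b k / n) := by
          rw [hndef]
          field_simp
        have e5 : (-(p k * a k) / (a k ^ 2 + b k ^ 2) : ℚ) = - (p k * (a k / n)) := by
          rw [hndef]
          ring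
        have e6 : (-(b k) / n : ℚ) = -(b k / n) := by ring
        rw [e3, e4, e5]
        simp only [s, lin, e6]
        simp only [C_add, C_mul, C_neg]
        ring
      rw [e2]
      exact Ideal.Quotient.eq_zero_iff_mem.2 (Ideal.mul_mem_right _ _ (Ideal.mem_span_singleton_self _))
    · rw [RingHom.comp_apply, RingHom.comp_apply]
      have e1 : res a b p k X = yk a b p k := by
        unfold res
        rw [evp_X]
      rw [e1, ← sub_eq_zero, ← map_sub]
      have e2 : (X : ℚ[X][X]) - σ (yk a b p k) = lin a b p k * C (C (b k / n)) := by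
        unfold yk
        rw [map_add, map_mul, hσC, hσC, hσX]
        have e3 : (X : ℚ[X][X]) = C (C (n / n)) * X := by
          rw [div_self hn, C_1, C_1, one_mul]
        have e4 : (n / n : ℚ) = a k * (a k / n) + b k * (b k / n) := by
          rw [hndef]
          field_simp
        have e5 : (-(p k * b k) / (a k ^ 2 + b k ^ 2) : ℚ) = - (p k * (b k / n)) := by
          rw [hndef]
          ring
        have e6 : (-(b k) / n : ℚ) = -(b k / n) := by ring
        conv_lhs => rw [e3, e4, e5]
        simp only [s, lin, e6]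
        simp only [C_add, C_mul, C_neg]
        ring
      rw [e2]
      exact Ideal.Quotient.eq_zero_iff_mem.2 (Ideal.mul_mem_right _ _ (Ideal.mem_span_singleton_self _))
  have h2 : π G = 0 := by
    rw [key, RingHom.comp_apply, hG, map_zero]
  rwa [Ideal.Quotient.eq_zero_iff_mem, Ideal.mem_span_singleton] at h2

lemma res_lin_ne {k l : ι} (hk : a k ≠ 0 ∨ b k ≠ 0)
    (hd : ¬ (a k * b l = a l * b k ∧ a k * p l = a l * p k ∧ b k * p l = b l * p k)) :
    res a b p k (lin a b p l) ≠ 0 := by
  intro h0
  rw [res_lin] at h0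
  have hn := nrm_ne hk
  have h1 := congrArg (fun q => coeff q 1) h0
  have h2 := congrArg (fun q => coeff q 0) h0
  simp only [coeff_add, coeff_C_mul, coeff_X_one, mul_one, coeff_C_succ, add_zero,
    coeff_zero] at h1
  simp only [coeff_add, coeff_C_mul, coeff_X_zero, mul_zero, coeff_C_zero, zero_add,
    coeff_zero] at h2
  apply hd
  have h3 : a k * b l = a l * b k := by linarith
  have h4 : -(p k * (a l * a k + b l * b k)) + (a k ^ 2 + b k ^ 2) * p l = 0 := by
    have h5 : (a k ^ 2 + b k ^ 2) * (a l * (-(p k * a k) / (a k ^ 2 + b k ^ 2)) +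
      b l * (-(p k * b k) / (a k ^ 2 + b k ^ 2)) + p l) =
      -(p k * (a l * a k + b l * b k)) + (a k ^ 2 + b k ^ 2) * p l := by
      field_simp
      ring
    rw [← h5, h2, mul_zero]
  refine ⟨h3, ?_, ?_⟩
  · apply mul_left_cancel₀ hn
    linear_combination (a k) * h4 + (p k * b k) * h3
  · apply mul_left_cancel₀ hn
    linear_combination (b k) * h4 - (p k * a k) * h3

/-- evaluation at a point of the line factors through the restriction -/
lemma evp_of_res {k : ι} (hk : a k ≠ 0 ∨ b k ≠ 0) {x y : ℚ}
    (hxy : a k * x + b k * y + p k = 0) {G : ℚ[X][X]} {g : ℚ} (hG : res a b p k G = C g) :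
    evp x y G = g := by
  have hn := nrm_ne hk
  set n := a k ^ 2 + b k ^ 2 with hndef
  set t : ℚ := (a k * y - b k * x) / n with ht
  have key : evp x y = (evalRingHom t).comp (res a b p k) := by
    refine hom_ext ?_ ?_
    · rw [RingHom.comp_apply]
      unfold res
      rw [evp_C, evp_C, aeval_X, aeval_X]
      unfold xk
      simp only [coe_evalRingHom, eval_sub, eval_C, eval_mul, eval_X]
      rw [ht, ← hndef]
      field_simp
      rw [hndef]
      linear_combination (a k) * hxy
    · rw [RingHom.comp_apply]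
      unfold res
      rw [evp_X, evp_X]
      unfold yk
      simp only [coe_evalRingHom, eval_add, eval_C, eval_mul, eval_X]
      rw [ht, ← hndef]
      field_simp
      rw [hndef]
      linear_combination (b k) * hxy
  rw [key, RingHom.comp_apply, hG]
  simp

end

end Pool.Agent.Helper11
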