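import Mathlib

/-! The Bloch-Wigner function: a primitive of the Steinberg regulator form on `ℂ \ {0,1}`. -/

namespace Pool.Agent.Helper11

open Complex

/-- The regulator form of the Steinberg symbol `{z, 1 - z}`, evaluated on the tangent vector `z'`. -/
noncomputable def eta (z z' : ℂ) : ℝ :=
  Real.log ‖z‖ * (-z' / (1 - z)).im - Real.log ‖1 - z‖ * (z' / z).im

lemma hasDerivAt_re {f : ℝ → ℂ} {f' : ℂ} {t : ℝ} (hf : HasDerivAt f f' t) :
    HasDerivAt (fun s => (f s).re) f'.re t :=
  (Complex.reCLM.hasFDerivAt.comp_hasDerivAt t hf)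

lemma hasDerivAt_im {f : ℝ → ℂ} {f' : ℂ} {t : ℝ} (hf : HasDerivAt f f' t) :
    HasDerivAt (fun s => (f s).im) f'.im t :=
  (Complex.imCLM.hasFDerivAt.comp_hasDerivAt t hf)

lemma hasDerivAt_log_norm {f : ℝ → ℂ} {f' : ℂ} {t : ℝ} (hf : HasDerivAt f f' t) (h0 : f t ≠ 0) :
    HasDerivAt (fun s => Real.log ‖f s‖) ((f' / f t).re) t := by
  have h1 : HasDerivAt (fun s => f s / f t) (f' / f t) t := hf.div_const _
  have h2 : HasDerivAt (fun s => Complex.log (f s / f t)) (f' / f t) t := by
    have := h1.clog_real (by rw [div_self h0]; exact Complex.one_mem_slitPlane)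
    simpa [div_self h0] using this
  have h3 : HasDerivAt (fun s => (Complex.log (f s / f t)).re) ((f' / f t).re) t :=
    hasDerivAt_re h2
  have h4 : HasDerivAt (fun s => Real.log ‖f t‖ + (Complex.log (f s / f t)).re)
      ((f' / f t).re) t := h3.const_add _
  refine h4.congr_of_eventuallyEq ?_
  have h5 : ∀ᶠ s in nhds t, f s ≠ 0 := hf.continuousAt.eventually_ne h0
  filter_upwards [h5] with s hs
  rw [Complex.log_re, norm_div, Real.log_div (norm_ne_zero_iff.2 hs) (norm_ne_zero_iff.2 h0)]
  ring

/-- local primitive on the half plane `re z < 1` -/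
lemma exists_primitive_half : ∃ D : ℂ → ℝ, ∀ (f : ℝ → ℂ) (f' : ℂ) (t : ℝ), HasDerivAt f f' t →
    f t ≠ 0 → (f t).re < 1 → HasDerivAt (fun s => D (f s)) (eta (f t) f') t := by
  set U : Set ℂ := {z | z.re < 1} with hU
  have hconv : Convex ℝ U := convex_halfSpace_re_lt 1
  have hopen : IsOpen U := isOpen_lt Complex.continuous_re continuous_const
  set φ : ℂ → ℂ := dslope (fun z => -Complex.log (1 - z)) 0 with hφ
  have hslit : ∀ z ∈ U, 1 - z ∈ Complex.slitPlane := by
    intro z hz
    left
    simp only [Complex.sub_re, Complex.one_re]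
    have : z.re < 1 := hz
    linarith
  have hd : DifferentiableOn ℂ (fun z => -Complex.log (1 - z)) U := by
    intro z hz
    have : DifferentiableAt ℂ (fun z => -Complex.log (1 - z)) z := by
      refine (DifferentiableAt.clog ?_ (hslit z hz)).neg
      fun_prop
    exact this.differentiableWithinAt
  have h0U : U ∈ nhds (0 : ℂ) := hopen.mem_nhds (by simp [hU])
  have hφd : DifferentiableOn ℂ φ U := (Complex.differentiableOn_dslope h0U).2 hd
  obtain ⟨L, hL⟩ := hconv.exists_forall_hasDerivWithinAt hφd
  have hL' : ∀ a ∈ U, HasDerivAt L (φ a) a := fun a ha => (hL a ha).hasDerivAt (hopen.mem_nhds ha)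
  refine ⟨fun z => (L z).im + (Complex.log (1 - z)).im * Real.log ‖z‖, ?_⟩
  intro f f' t hf h0 h1
  have hφval : φ (f t) = -Complex.log (1 - f t) / f t := by
    rw [hφ, dslope_of_ne _ h0, slope_def_field]
    simp
  have hLd : HasDerivAt (fun s => L (f s)) (φ (f t) * f') t := by
    exact (hL' (f t) h1).comp t hf
  have hlog : HasDerivAt (fun s => Complex.log (1 - f s)) (-f' / (1 - f t)) t := by
    have h2 : HasDerivAt (fun s => 1 - f s) (-f') t := by
      simpa using hf.const_sub 1
    exact h2.clog_real (hslit _ h1)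
  have hln := hasDerivAt_log_norm hf h0
  have htot := (hasDerivAt_im hLd).add ((hasDerivAt_im hlog).mul hln)
  refine HasDerivAt.congr_deriv htot ?_
  rw [hφval]
  unfold eta
  have e1 : -Complex.log (1 - f t) / f t * f' = -(Complex.log (1 - f t) * (f' / f t)) := by
    ring
  rw [e1]
  simp only [Complex.neg_im, Complex.mul_im]
  have e2 : Real.log ‖1 - f t‖ = (Complex.log (1 - f t)).re := by
    rw [Complex.log_re]
  rw [e2]
  ring

lemma eta_one_sub (z z' : ℂ) : eta (1 - z) (-z') = - eta z z' := by
  unfold eta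
  simp only [sub_sub_cancel, neg_neg]
  ring

/-- The Bloch-Wigner function: a function on `ℂ` which is a primitive of `eta` along all
differentiable paths in `ℂ \ {0, 1}`. -/
theorem exists_blochWigner : ∃ D : ℂ → ℝ, ∀ (f : ℝ → ℂ) (f' : ℂ) (t : ℝ), HasDerivAt f f' t →
    f t ≠ 0 → f t ≠ 1 → HasDerivAt (fun s => D (f s)) (eta (f t) f') t := by
  obtain ⟨D1, hD1⟩ := exists_primitive_half
  -- the symmetry on the strip
  have hstrip : ∀ z : ℂ, 0 < z.re → z.re < 1 → D1 z + D1 (1 - z) = 2 * D1 (1 / 2) := by
    intro z hz0 hz1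
    set p : ℝ → ℂ := fun s => 1 / 2 + (s : ℂ) * (z - 1 / 2) with hp
    have hpd : ∀ s, HasDerivAt p (z - 1 / 2) s := by
      intro s
      have h1 : HasDerivAt (fun s : ℝ => (s : ℂ)) 1 s := by
        exact Complex.ofRealCLM.hasDerivAt
      have h2 : HasDerivAt p (1 * (z - 1 / 2)) s := (h1.mul_const (z - 1 / 2)).const_add (1 / 2 : ℂ)
      rwa [one_mul] at h2
    have hpre : ∀ s, (p s).re = 1 / 2 + s * (z.re - 1 / 2) := by
      intro s
      simp [hp]
    have hder : ∀ s ∈ Set.Icc (0 : ℝ) 1,
        HasDerivAt (fun s => D1 (p s) + D1 (1 - p s)) 0 s := by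
      intro s hs
      have hre0 : 0 < (p s).re := by
        rw [hpre]
        nlinarith [hs.1, hs.2]
      have hre1 : (p s).re < 1 := by
        rw [hpre]
        nlinarith [hs.1, hs.2]
      have hne0 : p s ≠ 0 := by
        intro h
        rw [h] at hre0
        simp at hre0
      have hne1 : 1 - p s ≠ 0 := by
        intro h
        have : p s = 1 := by
          linear_combination -h
        rw [this] at hre1
        simp at hre1
      have hA := hD1 p _ s (hpd s) hne0 hre1
      have hB := hD1 (fun s => 1 - p s) _ s ((hpd s).const_sub 1) hne1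
        (by simp only [Complex.sub_re, Complex.one_re]; linarith)
      have hC := hA.add hB
      refine HasDerivAt.congr_deriv hC ?_
      rw [eta_one_sub]
      ring
    have hconst := constant_of_has_deriv_right_zero
      (f := fun s => D1 (p s) + D1 (1 - p s)) (a := 0) (b := 1)
      (fun s hs => (hder s hs).continuousAt.continuousWithinAt)
      (fun s hs => (hder s ⟨hs.1, hs.2.le⟩).hasDerivWithinAt) 1 ⟨zero_le_one, le_refl _⟩
    have e1 : p 1 = z := by simp [hp]
    have e0 : p 0 = 1 / 2 := by simp [hp]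
    simp only [e1, e0] at hconst
    rw [hconst]
    norm_num
    ring
  classical
  refine ⟨fun z => if z.re < 1 then D1 z else 2 * D1 (1 / 2) - D1 (1 - z), ?_⟩
  intro f f' t hf h0 h1
  have hcont : ContinuousAt (fun s => (f s).re) t := (hasDerivAt_re hf).continuousAt
  by_cases hre : (f t).re < 1
  · refine (hD1 f f' t hf h0 hre).congr_of_eventuallyEq ?_
    filter_upwards [hcont.eventually_lt continuousAt_const hre] with s hs
    rw [if_pos hs]
  · have hre0 : 0 < (f t).re := by
      push Not at hre
      linarith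
    have hne1 : 1 - f t ≠ 0 := by
      intro h
      apply h1
      linear_combination -h
    have hA := hD1 (fun s => 1 - f s) _ t (hf.const_sub 1) hne1
      (by simp only [Complex.sub_re, Complex.one_re]; linarith)
    have hB := hA.const_sub (2 * D1 (1 / 2))
    have hC : HasDerivAt (fun s => 2 * D1 (1 / 2) - D1 (1 - f s)) (eta (f t) f') t := by
      refine HasDerivAt.congr_deriv hB ?_
      rw [eta_one_sub]
      ring
    refine hC.congr_of_eventuallyEq ?_
    filter_upwards [continuousAt_const.eventually_lt hcont hre0] with s hs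
    split_ifs with h
    · have := hstrip (f s) hs h
      linarith
    · rfl

end Pool.Agent.Helper11
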