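import Mathlib

/-! Definitions used in the statements: rational `K₂` of a field (Matsumoto's presentation),
its integral part, loops, and the regulator integral. -/

namespace Pool.Agent.Helper11

open TensorProduct

/-- The `ℚ`-span of the Steinberg elements `u ⊗ v`, `u + v = 1`, in `ℚ ⊗ Fˣ ⊗ Fˣ`. -/
def steinberg (F : Type*) [Field F] :
    Submodule ℚ (ℚ ⊗[ℤ] (Additive Fˣ ⊗[ℤ] Additive Fˣ)) :=
  Submodule.span ℚ {z | ∃ u v : Fˣ, (u : F) + (v : F) = 1 ∧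
    z = 1 ⊗ₜ[ℤ] (Additive.ofMul u ⊗ₜ[ℤ] Additive.ofMul v)}

/-- `K₂(F) ⊗ ℚ`. -/
abbrev K2Q (F : Type*) [Field F] : Type _ :=
  (ℚ ⊗[ℤ] (Additive Fˣ ⊗[ℤ] Additive Fˣ)) ⧸ steinberg F

/-- The symbol `{u, v}` in `K₂(F) ⊗ ℚ`. -/
def sym {F : Type*} [Field F] (u v : Fˣ) : K2Q F :=
  (steinberg F).mkQ (1 ⊗ₜ[ℤ] (Additive.ofMul u ⊗ₜ[ℤ] Additive.ofMul v))

/-- The elements of `K₂(F) ⊗ ℚ` which, for every discrete valuation ring `O` of `F`, are
combinations of symbols of units of `O`. -/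
def integralPart (F : Type*) [Field F] : Submodule ℚ (K2Q F) :=
  ⨅ (O : ValuationSubring F) (_ : IsDiscreteValuationRing O),
    Submodule.span ℚ {z | ∃ u v : Fˣ, u ∈ O.unitGroup ∧ v ∈ O.unitGroup ∧ z = sym u v}

/-- The ring of continuously differentiable functions `ℝ → ℂ` of period `2π`. -/
def LoopRing : Subring (ℝ → ℂ) where
  carrier := {f | ContDiff ℝ 1 f ∧ Function.Periodic f (2 * Real.pi)}
  mul_mem' := fun ha hb => ⟨ha.1.mul hb.1, ha.2.mul hb.2⟩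
  one_mem' := ⟨contDiff_const, fun _ => rfl⟩
  add_mem' := fun ha hb => ⟨ha.1.add hb.1, ha.2.add hb.2⟩
  zero_mem' := ⟨contDiff_const, fun _ => rfl⟩
  neg_mem' := fun ha => ⟨ha.1.neg, fun x => congrArg Neg.neg (ha.2 x)⟩

/-- The integral of `log |φ| d arg ψ - log |ψ| d arg φ` over a period. -/
noncomputable def regInt (φ ψ : ℝ → ℂ) : ℝ :=
  ∫ t in (0 : ℝ)..(2 * Real.pi),
    (Real.log ‖φ t‖ * (deriv ψ t / ψ t).im - Real.log ‖ψ t‖ * (deriv φ t / φ t).im)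

end Pool.Agent.Helper11
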