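import Mathlib
import Pool.Agent.Helper11.Defs

/-! Rational `K₂` of a field (Matsumoto's presentation) and its integral part. -/

namespace Pool.Agent.Helper11

open TensorProduct

section basic

variable {F : Type*} [Field F]

lemma sym_mul_left (u₁ u₂ v : Fˣ) : sym (u₁ * u₂) v = sym u₁ v + sym u₂ v := by
  unfold sym
  rw [ofMul_mul, TensorProduct.add_tmul, TensorProduct.tmul_add, map_add]

lemma sym_mul_right (u v₁ v₂ : Fˣ) : sym u (v₁ * v₂) = sym u v₁ + sym u v₂ := by
  unfold sym
  rw [ofMul_mul, TensorProduct.tmul_add, TensorProduct.tmul_add, map_add]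

lemma sym_steinberg (u v : Fˣ) (h : (u : F) + v = 1) : sym u v = 0 := by
  unfold sym
  rw [Submodule.mkQ_apply, Submodule.Quotient.mk_eq_zero]
  exact Submodule.subset_span ⟨u, v, h, rfl⟩

/-- universal property: bilinear maps killing Steinberg elements -/
theorem exists_lift {V : Type*} [AddCommGroup V] [Module ℚ V] (B : Fˣ → Fˣ → V)
    (h1 : ∀ u₁ u₂ v, B (u₁ * u₂) v = B u₁ v + B u₂ v)
    (h2 : ∀ u v₁ v₂, B u (v₁ * v₂) = B u v₁ + B u v₂)
    (h3 : ∀ u v : Fˣ, (u : F) + v = 1 → B u v = 0) :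
    ∃ R : K2Q F →ₗ[ℚ] V, ∀ u v, R (sym u v) = B u v := by
  have h10 : ∀ v, B 1 v = 0 := by
    intro v
    have := h1 1 1 v
    simpa using this
  have h20 : ∀ u, B u 1 = 0 := by
    intro u
    have := h2 u 1 1
    simpa using this
  let b : Additive Fˣ →+ Additive Fˣ →+ V :=
    { toFun := fun u =>
        { toFun := fun v => B u.toMul v.toMul
          map_zero' := h20 _
          map_add' := fun v₁ v₂ => h2 _ _ _ }
      map_zero' := by
        ext v
        exact h10 _
      map_add' := fun u₁ u₂ => by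
        ext v
        exact h1 _ _ _ }
  let b2 : (Additive Fˣ ⊗[ℤ] Additive Fˣ) →+ V :=
    TensorProduct.liftAddHom b (by
      intro r u v
      simp)
  let b3 : (ℚ ⊗[ℤ] (Additive Fˣ ⊗[ℤ] Additive Fˣ)) →ₗ[ℚ] V :=
    TensorProduct.AlgebraTensorModule.lift
      { toFun := fun q => q • b2.toIntLinearMap
        map_add' := fun a b => add_smul _ _ _
        map_smul' := fun a b => by
          ext x
          simp [mul_smul] }
  have hb3 : ∀ u v : Fˣ, b3 (1 ⊗ₜ[ℤ] (Additive.ofMul u ⊗ₜ[ℤ] Additive.ofMul v)) = B u v := by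
    intro u v
    simp [b3, b2, b]
  refine ⟨(steinberg F).liftQ b3 ?_, ?_⟩
  · unfold steinberg
    rw [Submodule.span_le]
    rintro _ ⟨u, v, huv, rfl⟩
    rw [SetLike.mem_coe, LinearMap.mem_ker, hb3]
    exact h3 u v huv
  · intro u v
    unfold sym
    rw [Submodule.mkQ_apply, Submodule.liftQ_apply, hb3]

end basic

end Pool.Agent.Helper11
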