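import Mathlib
import Pool.Agent.Helper11.Defs
import Pool.Agent.Helper11.BW
import Pool.Agent.Helper11.K2

/-! The regulator functional on loops. -/

namespace Pool.Agent.Helper11

open Complex Real

/-- A loop which avoids `0`. -/
structure IsLoop (φ : ℝ → ℂ) : Prop where
  cd : ContDiff ℝ 1 φ
  per : Function.Periodic φ (2 * Real.pi)
  ne : ∀ t, φ t ≠ 0

namespace IsLoop

variable {φ ψ φ₁ φ₂ ψ₁ ψ₂ : ℝ → ℂ}

lemma diffAt (h : IsLoop φ) (t : ℝ) : DifferentiableAt ℝ φ t :=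
  (h.cd.differentiable (by norm_num)) t

lemma hasDeriv (h : IsLoop φ) (t : ℝ) : HasDerivAt φ (deriv φ t) t := (h.diffAt t).hasDerivAt

lemma cont (h : IsLoop φ) : Continuous φ := h.cd.continuous

lemma cont_deriv (h : IsLoop φ) : Continuous (deriv φ) := h.cd.continuous_deriv (by norm_num)

lemma cont_dlog (h : IsLoop φ) : Continuous (fun t => deriv φ t / φ t) :=
  h.cont_deriv.div h.cont h.ne

lemma cont_log (h : IsLoop φ) : Continuous (fun t => Real.log ‖φ t‖) :=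
  (h.cont.norm).log (fun t => norm_ne_zero_iff.2 (h.ne t))

lemma cont_integrand (h : IsLoop φ) (h' : IsLoop ψ) :
    Continuous (fun t => (Real.log ‖φ t‖ * (deriv ψ t / ψ t).im -
      Real.log ‖ψ t‖ * (deriv φ t / φ t).im)) := by
  have a1 := h.cont_log
  have a2 := h'.cont_log
  have a3 := Complex.continuous_im.comp h.cont_dlog
  have a4 := Complex.continuous_im.comp h'.cont_dlog
  exact (a1.mul a4).sub (a2.mul a3)

lemma intg (h : IsLoop φ) (h' : IsLoop ψ) (a b : ℝ) :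
    IntervalIntegrable (fun t => (Real.log ‖φ t‖ * (deriv ψ t / ψ t).im -
      Real.log ‖ψ t‖ * (deriv φ t / φ t).im)) MeasureTheory.volume a b :=
  (h.cont_integrand h').intervalIntegrable a b

lemma mul (h₁ : IsLoop φ₁) (h₂ : IsLoop φ₂) : IsLoop (φ₁ * φ₂) :=
  ⟨h₁.cd.mul h₂.cd, h₁.per.mul h₂.per, fun t => mul_ne_zero (h₁.ne t) (h₂.ne t)⟩

lemma inv (h₁ : IsLoop φ₁) : IsLoop (φ₁⁻¹) :=
  ⟨h₁.cd.inv h₁.ne, fun t => by simp only [Pi.inv_apply, h₁.per t], fun t => inv_ne_zero (h₁.ne t)⟩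

lemma const {c : ℂ} (hc : c ≠ 0) : IsLoop (fun _ => c) :=
  ⟨contDiff_const, fun _ => rfl, fun _ => hc⟩

lemma dlog_mul (h₁ : IsLoop φ₁) (h₂ : IsLoop φ₂) (t : ℝ) :
    deriv (φ₁ * φ₂) t / (φ₁ * φ₂) t = deriv φ₁ t / φ₁ t + deriv φ₂ t / φ₂ t := by
  have := ((h₁.hasDeriv t).mul (h₂.hasDeriv t)).deriv
  rw [this]
  have a := h₁.ne t
  have b := h₂.ne t
  simp only [Pi.mul_apply]
  field_simp

end IsLoop

variable {φ ψ φ₁ φ₂ ψ₁ ψ₂ : ℝ → ℂ}

lemma regInt_mul_left (h₁ : IsLoop φ₁) (h₂ : IsLoop φ₂) (h : IsLoop ψ) :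
    regInt (φ₁ * φ₂) ψ = regInt φ₁ ψ + regInt φ₂ ψ := by
  unfold regInt
  rw [← intervalIntegral.integral_add (h₁.intg h _ _) (h₂.intg h _ _)]
  refine intervalIntegral.integral_congr fun t _ => ?_
  have a := h₁.ne t
  have b := h₂.ne t
  rw [h₁.dlog_mul h₂, Pi.mul_apply, norm_mul, Real.log_mul (norm_ne_zero_iff.2 a)
    (norm_ne_zero_iff.2 b), Complex.add_im]
  ring

lemma regInt_antisymm (φ ψ : ℝ → ℂ) : regInt φ ψ = - regInt ψ φ := by
  unfold regInt
  rw [← intervalIntegral.integral_neg]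
  refine intervalIntegral.integral_congr fun t _ => ?_
  ring

lemma regInt_mul_right (h₁ : IsLoop ψ₁) (h₂ : IsLoop ψ₂) (h : IsLoop φ) :
    regInt φ (ψ₁ * ψ₂) = regInt φ ψ₁ + regInt φ ψ₂ := by
  rw [regInt_antisymm, regInt_mul_left h₁ h₂ h, regInt_antisymm ψ₁, regInt_antisymm ψ₂]
  ring

lemma regInt_self (φ : ℝ → ℂ) : regInt φ φ = 0 := by
  have := regInt_antisymm φ φ
  linarith

lemma regInt_steinberg (h₁ : IsLoop φ) (h₂ : IsLoop ψ) (h : φ + ψ = 1) : regInt φ ψ = 0 := by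
  obtain ⟨D, hD⟩ := exists_blochWigner
  have hψ : ∀ t, ψ t = 1 - φ t := by
    intro t
    have := congrFun h t
    simp only [Pi.add_apply, Pi.one_apply] at this
    linear_combination this
  have hψd : ∀ t, deriv ψ t = - deriv φ t := by
    intro t
    have : ψ = fun t => 1 - φ t := funext hψ
    rw [this, deriv_const_sub]
  have hne1 : ∀ t, φ t ≠ 1 := by
    intro t ht
    apply h₂.ne t
    rw [hψ, ht, sub_self]
  unfold regInt
  have key : ∀ t ∈ Set.uIcc (0 : ℝ) (2 * Real.pi), HasDerivAt (fun s => D (φ s))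
      (Real.log ‖φ t‖ * (deriv ψ t / ψ t).im - Real.log ‖ψ t‖ * (deriv φ t / φ t).im) t := by
    intro t _
    have := hD φ _ t (h₁.hasDeriv t) (h₁.ne t) (hne1 t)
    rw [hψ, hψd]
    exact this
  rw [intervalIntegral.integral_eq_sub_of_hasDerivAt key (h₁.intg h₂ _ _)]
  have := h₁.per 0
  simp only [zero_add] at this
  rw [this, sub_self]

/-- evaluation of a unit of a field along a ring homomorphism to the loop ring is a loop -/
lemma isLoop_of_hom {K : Type*} [Field K] (γ : K →+* LoopRing) (u : Kˣ) :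
    IsLoop (γ (u : K) : ℝ → ℂ) := by
  refine ⟨(γ (u : K)).2.1, (γ (u : K)).2.2, fun t ht => ?_⟩
  have h1 : γ (u : K) * γ ((u⁻¹ : Kˣ) : K) = 1 := by
    rw [← map_mul, Units.mul_inv, map_one]
  have h2 := congrFun (congrArg Subtype.val h1) t
  simp only [Subring.coe_mul, Pi.mul_apply, ht, zero_mul, Subring.coe_one, Pi.one_apply] at h2
  exact zero_ne_one h2

theorem exists_reg {K : Type*} [Field K] (γ : K →+* LoopRing) :
    ∃ R : K2Q K →ₗ[ℚ] ℝ, ∀ u v : Kˣ,
      R (sym u v) = regInt (γ (u : K) : ℝ → ℂ) (γ (v : K) : ℝ → ℂ) := by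
  refine exists_lift _ ?_ ?_ ?_
  · intro u₁ u₂ v
    rw [← regInt_mul_left (isLoop_of_hom γ u₁) (isLoop_of_hom γ u₂) (isLoop_of_hom γ v),
      Units.val_mul, map_mul, Subring.coe_mul]
  · intro u v₁ v₂
    rw [← regInt_mul_right (isLoop_of_hom γ v₁) (isLoop_of_hom γ v₂) (isLoop_of_hom γ u),
      Units.val_mul, map_mul, Subring.coe_mul]
  · intro u v h
    refine regInt_steinberg (isLoop_of_hom γ u) (isLoop_of_hom γ v) ?_
    rw [← Subring.coe_add, ← map_add, h, map_one, Subring.coe_one]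

end Pool.Agent.Helper11
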