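import Mathlib
import Pool.Agent.Helper11.Loop
import Pool.Agent.Helper11.Irr

/-! Ring homomorphisms from the function field of a plane curve to the loop ring. -/

namespace Pool.Agent.Helper11

open Polynomial

section lift

variable {L : Type*} [Field L] [Algebra ℚ L] {P : ℚ[X][X]} {ξ η : L}

lemma dvd_of_evp (hirr : Irreducible P) (hdeg : P.natDegree ≠ 0) (hξ : Transcendental ℚ ξ)
    (hP : evp ξ η P = 0) {q : ℚ[X][X]} (hq : evp ξ η q = 0) : P ∣ q := by
  -- the embedding of `ℚ(X)` in `L`
  let φ : ℚ[X] →+* L := (aeval ξ : ℚ[X] →ₐ[ℚ] L).toRingHom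
  have hφ : Function.Injective φ := transcendental_iff_injective.1 hξ
  let ψ : FractionRing ℚ[X] →+* L := IsFractionRing.lift hφ
  have hψ : ψ.comp (algebraMap ℚ[X] (FractionRing ℚ[X])) = φ := by
    refine RingHom.ext fun x => ?_
    exact IsFractionRing.lift_algebraMap hφ _
  have hev : ∀ r : ℚ[X][X], eval₂ ψ η (r.map (algebraMap ℚ[X] (FractionRing ℚ[X]))) =
      evp ξ η r := by
    intro r
    rw [eval₂_map, hψ]
    rfl
  have hprim : P.IsPrimitive := hirr.isPrimitive hdeg
  have hirr' : Irreducible (P.map (algebraMap ℚ[X] (FractionRing ℚ[X]))) :=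
    (hprim.irreducible_iff_irreducible_map_fraction_map).1 hirr
  have hdvd : P.map (algebraMap ℚ[X] (FractionRing ℚ[X])) ∣
      q.map (algebraMap ℚ[X] (FractionRing ℚ[X])) := by
    by_contra hnd
    have hco : IsCoprime (P.map (algebraMap ℚ[X] (FractionRing ℚ[X])))
        (q.map (algebraMap ℚ[X] (FractionRing ℚ[X]))) := (hirr'.coprime_iff_not_dvd).2 hnd
    obtain ⟨u, v, huv⟩ := hco
    have h1 := congrArg (eval₂ ψ η) huv
    rw [eval₂_add, eval₂_mul, eval₂_mul, hev, hev, hP, hq, mul_zero, mul_zero, add_zero,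
      eval₂_one] at h1
    exact zero_ne_one h1
  exact (IsPrimitive.dvd_iff_fraction_map_dvd_fraction_map (FractionRing ℚ[X]) hprim).2 hdvd

/-- evaluation on `ℚ[X][Y] / P` -/
noncomputable def evq (hP : evp ξ η P = 0) : AdjoinRoot P →+* L :=
  AdjoinRoot.lift (aeval ξ : ℚ[X] →ₐ[ℚ] L).toRingHom η hP

lemma evq_mk (hP : evp ξ η P = 0) (g : ℚ[X][X]) :
    evq hP (AdjoinRoot.mk _ g) = evp ξ η g :=
  AdjoinRoot.lift_mk _ _

lemma evq_injective (hirr : Irreducible P) (hdeg : P.natDegree ≠ 0) (hξ : Transcendental ℚ ξ)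
    (hP : evp ξ η P = 0) : Function.Injective (evq hP) := by
  rw [injective_iff_map_eq_zero]
  intro z hz
  obtain ⟨q, rfl⟩ := AdjoinRoot.mk_surjective z
  rw [evq_mk] at hz
  rw [AdjoinRoot.mk_eq_zero]
  exact dvd_of_evp hirr hdeg hξ hP hz

end lift

section frac

variable {K : Type*} [Field K] [CharZero K] {x y : K} {P : ℚ[X][X]}

/-- Main existence result: loops on a plane curve `P = 0` over `ℚ` with transcendental first
coordinate give homomorphisms from the function field to the loop ring. -/
theorem exists_hom2 (hirr : Irreducible P) (hdeg : P.natDegree ≠ 0) (hx : Transcendental ℚ x)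
    (h : evp x y P = 0) (hK : IntermediateField.adjoin ℚ {x, y} = ⊤)
    {ξ η : ℝ → ℂ} (hξ : ξ ∈ LoopRing) (hη : η ∈ LoopRing) (hξt : ∀ t, Transcendental ℚ (ξ t))
    (hP : ∀ t, evp (ξ t) (η t) P = 0) :
    ∃ γ : K →+* LoopRing, (γ x : ℝ → ℂ) = ξ ∧ (γ y : ℝ → ℂ) = η := by
  have hinj := evq_injective hirr hdeg hx h
  have : IsDomain (AdjoinRoot P) := hinj.isDomain _
  let _ : Algebra (AdjoinRoot P) K := (evq h).toAlgebra
  have halg : ∀ s, algebraMap (AdjoinRoot P) K s = evq h s := fun s => rfl
  have : FaithfulSMul (AdjoinRoot P) K := by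
    rw [faithfulSMul_iff_algebraMap_injective]
    exact hinj
  have hrange : ∀ z ∈ Algebra.adjoin ℚ {x, y}, ∃ s, evq h s = z := by
    intro z hz
    induction hz using Algebra.adjoin_induction with
    | mem z hz =>
      rcases hz with rfl | hz
      · refine ⟨AdjoinRoot.mk _ (C X), ?_⟩
        rw [evq_mk, evp_C, aeval_X]
      · rw [Set.mem_singleton_iff] at hz
        subst hz
        refine ⟨AdjoinRoot.mk _ X, ?_⟩
        rw [evq_mk, evp_X]
    | algebraMap q =>
      refine ⟨AdjoinRoot.mk _ (C (C q)), ?_⟩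
      rw [evq_mk, evp_C, aeval_C]
    | add a b _ _ ha hb =>
      obtain ⟨s, rfl⟩ := ha
      obtain ⟨s', rfl⟩ := hb
      exact ⟨s + s', map_add _ _ _⟩
    | mul a b _ _ ha hb =>
      obtain ⟨s, rfl⟩ := ha
      obtain ⟨s', rfl⟩ := hb
      exact ⟨s * s', map_mul _ _ _⟩
  have hsurj : ∀ z : K, ∃ a b : AdjoinRoot P, z = evq h a / evq h b := by
    intro z
    have hz : z ∈ IntermediateField.adjoin ℚ {x, y} := by
      rw [hK]
      trivial
    obtain ⟨r, hr, s, hs, rfl⟩ := IntermediateField.mem_adjoin_iff_div.1 hz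
    obtain ⟨a, rfl⟩ := hrange r hr
    obtain ⟨b, rfl⟩ := hrange s hs
    exact ⟨a, b, rfl⟩
  have : IsFractionRing (AdjoinRoot P) K := by
    refine IsFractionRing.of_field _ _ fun z => ?_
    obtain ⟨a, b, rfl⟩ := hsurj z
    exact ⟨a, b, rfl⟩
  -- the embedding at each `t`
  let γt : ℝ → (K →+* ℂ) := fun t =>
    IsFractionRing.lift (evq_injective hirr hdeg (hξt t) (hP t))
  have hγt : ∀ t s, γt t (evq h s) = evq (hP t) s := by
    intro t s
    exact IsFractionRing.lift_algebraMap (evq_injective hirr hdeg (hξt t) (hP t)) s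
  -- smoothness of the evaluation of elements of `S`
  have hS : ∀ s, (fun t => evq (hP t) s) ∈ LoopRing := by
    intro s
    obtain ⟨q, rfl⟩ := AdjoinRoot.mk_surjective s
    have e : (fun t => evq (hP t) (AdjoinRoot.mk P q)) =
        fun t => evp (ξ t) (η t) q := by
      funext t
      exact evq_mk _ _
    rw [e]
    have hpoly : ∀ p : ℚ[X], (fun t => aeval (ξ t) p) ∈ LoopRing := by
      intro p
      constructor
      · have h1 : ContDiff ℂ 1 (fun z : ℂ => aeval z p) := Polynomial.contDiff_aeval p 1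
        exact (h1.restrict_scalars ℝ).comp hξ.1
      · intro t
        have := hξ.2 t
        simp only [this]
    clear e
    induction q using Polynomial.induction_on' with
    | add p q hp hq =>
      have : (fun t => evp (ξ t) (η t) (p + q)) =
          (fun t => evp (ξ t) (η t) p) + (fun t => evp (ξ t) (η t) q) := by
        funext t
        simp only [map_add, Pi.add_apply]
      rw [this]
      exact LoopRing.add_mem hp hq
    | monomial n p =>
      have : (fun t => evp (ξ t) (η t) (monomial n p)) =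
          (fun t => aeval (ξ t) p) * η ^ n := by
        funext t
        rw [← C_mul_X_pow_eq_monomial, map_mul, map_pow, evp_C, evp_X]
        rfl
      rw [this]
      exact LoopRing.mul_mem (hpoly p) (LoopRing.pow_mem hη n)
  -- smoothness in general
  have hsm : ∀ z : K, (fun t => γt t z) ∈ LoopRing := by
    intro z
    obtain ⟨a, b, rfl⟩ := hsurj z
    by_cases hb : evq h b = 0
    · rw [hb, div_zero]
      simp only [map_zero]
      exact LoopRing.zero_mem
    · have hb' : ∀ t, evq (hP t) b ≠ 0 := by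
        intro t h0
        apply hb
        rw [← hγt t] at h0
        exact (map_eq_zero (γt t)).1 h0
      have e : (fun t => γt t (evq h a / evq h b)) =
          (fun t => evq (hP t) a) * (fun t => evq (hP t) b)⁻¹ := by
        funext t
        simp only [Pi.mul_apply, Pi.inv_apply]
        rw [map_div₀, hγt, hγt, div_eq_mul_inv]
      rw [e]
      refine LoopRing.mul_mem (hS a) ⟨(hS b).1.inv hb', fun t => ?_⟩
      exact congrArg (·⁻¹) ((hS b).2 t)
  refine ⟨{ toFun := fun z => ⟨fun t => γt t z, hsm z⟩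
            map_one' := ?_, map_mul' := ?_, map_zero' := ?_, map_add' := ?_ }, ?_, ?_⟩
  · ext t
    simp
  · intro a b
    ext t
    simp
  · ext t
    simp
  · intro a b
    ext t
    simp
  · funext t
    show γt t x = ξ t
    have e1 : x = evq h (AdjoinRoot.mk _ (C X)) := by
      rw [evq_mk, evp_C, aeval_X]
    rw [e1, hγt, evq_mk, evp_C, aeval_X]
  · funext t
    show γt t y = η t
    have e1 : y = evq h (AdjoinRoot.mk _ X) := by
      rw [evq_mk, evp_X]
    rw [e1, hγt, evq_mk, evp_X]

end frac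

end Pool.Agent.Helper11
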