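import Mathlib
import Pool.Agent.Helper11.K2

/-! Symbols which are unramified at a discrete valuation. -/

namespace Pool.Agent.Helper11

variable {F : Type*} [Field F]

lemma sym_one_left (v : Fˣ) : sym 1 v = 0 := by
  have := sym_mul_left 1 1 v
  simpa using this

lemma sym_one_right (u : Fˣ) : sym u 1 = 0 := by
  have := sym_mul_right u 1 1
  simpa using this

lemma sym_inv_left (u v : Fˣ) : sym u⁻¹ v = - sym u v := by
  have := sym_mul_left u u⁻¹ v
  rw [mul_inv_cancel, sym_one_left] at this
  exact (neg_eq_of_add_eq_zero_right this.symm).symm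

lemma sym_inv_right (u v : Fˣ) : sym u v⁻¹ = - sym u v := by
  have := sym_mul_right u v v⁻¹
  rw [mul_inv_cancel, sym_one_right] at this
  exact (neg_eq_of_add_eq_zero_right this.symm).symm

lemma sym_pow_right (u v : Fˣ) (n : ℕ) : sym u (v ^ n) = (n : ℚ) • sym u v := by
  induction n with
  | zero => simp [sym_one_right]
  | succ n ih => rw [pow_succ, sym_mul_right, ih, Nat.cast_succ, add_smul, one_smul]

lemma sym_pow_left (u v : Fˣ) (n : ℕ) : sym (u ^ n) v = (n : ℚ) • sym u v := by
  induction n with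
  | zero => simp [sym_one_left]
  | succ n ih => rw [pow_succ, sym_mul_left, ih, Nat.cast_succ, add_smul, one_smul]

lemma sym_neg_self (u : Fˣ) : sym u (-u) = 0 := by
  by_cases hu : (u : F) = 1
  · have : u = 1 := Units.ext hu
    rw [this, sym_one_left]
  · have h1 : (1 : F) - u ≠ 0 := sub_ne_zero.2 (Ne.symm hu)
    have hu0 : (u : F) ≠ 0 := u.ne_zero
    have h2 : (1 : F) - (u : F)⁻¹ ≠ 0 := by
      intro h
      apply hu
      have h3 : (u : F)⁻¹ = 1 := (sub_eq_zero.1 h).symm
      exact inv_eq_one.1 h3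
    have e : -u = Units.mk0 _ h1 * (Units.mk0 _ h2)⁻¹ := by
      ext
      push_cast
      simp only [Units.val_mk0]
      field_simp
      ring
    have s1 : sym u (Units.mk0 _ h1) = 0 := sym_steinberg _ _ (by simp)
    have s2 : sym u⁻¹ (Units.mk0 _ h2) = 0 := sym_steinberg _ _ (by simp)
    rw [sym_inv_left] at s2
    rw [e, sym_mul_right, s1, sym_inv_right, zero_add]
    exact s2

lemma sym_neg_one_right (u : Fˣ) : sym u (-1) = 0 := by
  have h := sym_pow_right u (-1) 2
  rw [neg_one_sq, sym_one_right] at h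
  have h2 : ((2 : ℕ) : ℚ) ≠ 0 := by norm_num
  exact (smul_eq_zero.1 h.symm).resolve_left h2

lemma sym_self (u : Fˣ) : sym u u = 0 := by
  have h : u = -u * -1 := by ext; simp
  have h2 : sym u u = sym u (-u * -1) := by rw [← h]
  rw [h2, sym_mul_right, sym_neg_self, sym_neg_one_right, add_zero]

lemma sym_antisymm (u v : Fˣ) : sym u v = - sym v u := by
  have h := sym_self (u * v)
  rw [sym_mul_left, sym_mul_right, sym_mul_right, sym_self, sym_self, zero_add, add_zero] at h
  exact eq_neg_of_add_eq_zero_left h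

/-- the subspace spanned by symbols of units of `O` -/
def unr (O : ValuationSubring F) : Submodule ℚ (K2Q F) :=
  Submodule.span ℚ {z | ∃ u v : Fˣ, u ∈ O.unitGroup ∧ v ∈ O.unitGroup ∧ z = sym u v}

lemma mem_integralPart {z : K2Q F} :
    z ∈ integralPart F ↔ ∀ O : ValuationSubring F, IsDiscreteValuationRing O → z ∈ unr O := by
  unfold integralPart unr
  simp only [Submodule.mem_iInf]

section dvr

variable (O : ValuationSubring F)

lemma sym_mem_unr {u v : Fˣ} (hu : O.valuation u = 1) (hv : O.valuation v = 1) :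
    sym u v ∈ unr O :=
  Submodule.subset_span ⟨u, v, (O.mem_unitGroup_iff u).2 hu, (O.mem_unitGroup_iff v).2 hv, rfl⟩

variable [IsDiscreteValuationRing O]

lemma sym_unif_mem {ϖ : O} (hϖ : Irreducible ϖ) {p y : Fˣ} (hp : (p : F) = ϖ)
    (hy : O.valuation ((y : F) - 1) < 1) : sym p y ∈ unr O := by
  have hϖm : ϖ ∈ IsLocalRing.maximalIdeal O := by
    rw [hϖ.maximalIdeal_eq]
    exact Ideal.mem_span_singleton_self _
  have hϖ1 : O.valuation (ϖ : F) < 1 := (O.valuation_lt_one_iff ϖ).1 hϖm
  have hϖ0 : (ϖ : F) ≠ 0 := by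
    rw [← hp]
    exact p.ne_zero
  have hvy : O.valuation (y : F) = 1 := by
    have := O.valuation.map_one_add_of_lt hy
    rwa [add_sub_cancel] at this
  -- t = 1 - y
  have ht : O.valuation (1 - (y : F)) < 1 := by rwa [Valuation.map_sub_swap]
  have htO : (1 - (y : F)) ∈ O := (O.valuation_le_one_iff _).1 ht.le
  have htm : (⟨1 - (y : F), htO⟩ : O) ∈ IsLocalRing.maximalIdeal O :=
    (O.valuation_lt_one_iff _).2 ht
  rw [hϖ.maximalIdeal_eq, Ideal.mem_span_singleton'] at htm
  obtain ⟨s, hs⟩ := htm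
  have hs' : (s : F) * ϖ = 1 - y := by
    have := congrArg (Subtype.val) hs
    simpa using this
  -- the basic case
  have basic : ∀ (s y : Fˣ), O.valuation (s : F) = 1 → (s : F) * ϖ = 1 - y →
      O.valuation (y : F) = 1 → sym p y ∈ unr O := by
    intro s y hs h hy
    have h1 : sym (s * p) y = 0 := sym_steinberg _ _ (by
      rw [Units.val_mul, hp, h]
      ring)
    rw [sym_mul_left] at h1
    have h2 : sym p y = - sym s y := eq_neg_of_add_eq_zero_right h1
    rw [h2]
    exact (unr O).neg_mem (sym_mem_unr O hs hy)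
  by_cases hs1 : O.valuation (s : F) = 1
  · have hs0 : (s : F) ≠ 0 := by
      intro h
      rw [h, map_zero] at hs1
      exact zero_ne_one hs1
    exact basic (Units.mk0 _ hs0) y (by simpa using hs1) (by simpa using hs') hvy
  · have hs2 : O.valuation (s : F) < 1 :=
      lt_of_le_of_ne ((O.valuation_le_one_iff _).2 s.2) hs1
    -- 1 - ϖ
    have hw : O.valuation (1 - (ϖ : F)) = 1 := by
      have := O.valuation.map_one_sub_of_lt hϖ1
      exact this
    have hw0 : (1 - (ϖ : F)) ≠ 0 := by
      intro h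
      rw [h, map_zero] at hw
      exact zero_ne_one hw
    set q : Fˣ := Units.mk0 _ hw0 with hq
    have hpq : sym p q = 0 := sym_steinberg _ _ (by rw [hp, hq]; simp)
    set y' : Fˣ := y * q⁻¹ with hy'
    have hyy : y = q * y' := by
      rw [hy', mul_comm y, mul_inv_cancel_left]
    have hvq : O.valuation (q : F) = 1 := by rw [hq]; simpa using hw
    have hvy' : O.valuation (y' : F) = 1 := by
      rw [hy', Units.val_mul, map_mul, hvy, Units.val_inv_eq_inv_val, map_inv₀, hvq]
      simp
    -- s' = (s - 1) / (1 - ϖ)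
    have hv1 : O.valuation ((s : F) - 1) = 1 := by
      rw [Valuation.map_sub_swap]
      exact O.valuation.map_one_sub_of_lt hs2
    have hs10 : ((s : F) - 1) ≠ 0 := by
      intro h
      rw [h, map_zero] at hv1
      exact zero_ne_one hv1
    set s' : Fˣ := Units.mk0 _ hs10 * q⁻¹ with hs'def
    have hvs' : O.valuation (s' : F) = 1 := by
      rw [hs'def, Units.val_mul, map_mul, Units.val_inv_eq_inv_val, map_inv₀, hvq]
      simpa using hv1
    have hs'e : (s' : F) * ϖ = 1 - y' := by
      have hy2 : (y : F) = 1 - (s : F) * ϖ := by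
        rw [hs']
        ring
      rw [hs'def, hy', Units.val_mul, Units.val_mul, Units.val_inv_eq_inv_val, hq,
        Units.val_mk0, Units.val_mk0, hy2]
      field_simp
      ring
    rw [hyy, sym_mul_right, hpq, zero_add]
    exact basic s' y' hvs' hs'e hvy'

/-- If `y ≡ 1` then `{z, y}` is unramified, for every `z`. -/
theorem sym_mem_of_sub_one_right {z y : Fˣ} (hy : O.valuation ((y : F) - 1) < 1) :
    sym z y ∈ unr O := by
  obtain ⟨ϖ, hϖ⟩ := IsDiscreteValuationRing.exists_irreducible O
  have hϖ0 : (ϖ : F) ≠ 0 := by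
    intro h
    exact hϖ.ne_zero (Subtype.ext h)
  have hvy : O.valuation (y : F) = 1 := by
    have := O.valuation.map_one_add_of_lt hy
    rwa [add_sub_cancel] at this
  set p : Fˣ := Units.mk0 _ hϖ0 with hp
  have key : ∀ z : Fˣ, (z : F) ∈ O → sym z y ∈ unr O := by
    intro z hz
    have hz0 : (⟨z, hz⟩ : O) ≠ 0 := by
      intro h
      exact z.ne_zero (congrArg Subtype.val h)
    obtain ⟨n, u, hu⟩ := IsDiscreteValuationRing.eq_unit_mul_pow_irreducible hz0 hϖ
    have hvu : O.valuation ((u : O) : F) = 1 := (O.valuation_eq_one_iff _).1 u.isUnit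
    have hu0 : ((u : O) : F) ≠ 0 := by
      intro h
      rw [h, map_zero] at hvu
      exact zero_ne_one hvu
    have hzu : z = Units.mk0 _ hu0 * p ^ n := by
      ext
      have := congrArg Subtype.val hu
      rw [Units.val_mul, Units.val_pow_eq_pow_val, hp, Units.val_mk0, Units.val_mk0]
      simpa using this
    rw [hzu, sym_mul_left, sym_pow_left]
    refine (unr O).add_mem (sym_mem_unr O (by simpa using hvu) hvy) ?_
    exact (unr O).smul_mem _ (sym_unif_mem O hϖ (by simp [hp]) hy)
  rcases O.mem_or_inv_mem (z : F) with h | h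
  · exact key z h
  · have h2 := key z⁻¹ (by simpa using h)
    rw [sym_inv_left] at h2
    simpa using (unr O).neg_mem h2

theorem sym_mem_of_sub_one_left {z y : Fˣ} (hy : O.valuation ((y : F) - 1) < 1) :
    sym y z ∈ unr O := by
  rw [sym_antisymm]
  exact (unr O).neg_mem (sym_mem_of_sub_one_right O hy)

end dvr

section hyper

/-! ### the symbols `{(x - b)/(x - b'), w}` on `w + 1/w = c ∏ (x - a_i) + s` -/

variable {ι : Type*} [Fintype ι] [DecidableEq ι] (a : ι → ℤ) (c s : ℤ)

lemma int_mem (O : ValuationSubring F) (n : ℤ) : (n : F) ∈ O := by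
  exact intCast_mem O n

lemma val_int_le (O : ValuationSubring F) (n : ℤ) : O.valuation (n : F) ≤ 1 :=
  (O.valuation_le_one_iff _).2 (int_mem O n)

/-- `w² - s w + 1 ∈ 𝔪` implies `w¹² ≡ 1`. -/
lemma pow_twelve (O : ValuationSubring F) {s : ℤ} (hs : |s| ≤ 2) {w : F}
    (hw : O.valuation w = 1) (h : O.valuation (w ^ 2 - s * w + 1) < 1) :
    O.valuation (w ^ 12 - 1) < 1 := by
  have hwO : w ∈ O := (O.valuation_le_one_iff _).1 hw.le
  have key : ∀ q : F, q ∈ O → w ^ 12 - 1 = (w ^ 2 - s * w + 1) * q →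
      O.valuation (w ^ 12 - 1) < 1 := by
    intro q hq he
    rw [he, map_mul]
    exact mul_lt_one_of_nonneg_of_lt_one_left zero_le h ((O.valuation_le_one_iff _).2 hq)
  have hs' := abs_le.1 hs
  have : s = -2 ∨ s = -1 ∨ s = 0 ∨ s = 1 ∨ s = 2 := by omega
  rcases this with rfl | rfl | rfl | rfl | rfl
  · have h1 : w ^ 2 - ((-2 : ℤ) : F) * w + 1 = (w + 1) ^ 2 := by
      push_cast
      ring
    rw [h1, map_pow] at h
    have h2 : O.valuation (w + 1) < 1 := by
      by_contra hcon
      push Not at hcon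
      exact absurd h (not_lt.2 (one_le_pow_of_one_le' hcon 2))
    have h3 : w ^ 12 - 1 = (w + 1) *
        ((w - 1) * (1 + w ^ 2 + w ^ 4 + w ^ 6 + w ^ 8 + w ^ 10)) := by ring
    rw [h3, map_mul]
    refine mul_lt_one_of_nonneg_of_lt_one_left zero_le h2 ((O.valuation_le_one_iff _).2 ?_)
    have o1 : (1 : F) ∈ O := O.one_mem
    exact O.mul_mem _ _ (O.sub_mem hwO o1) (O.add_mem _ _ (O.add_mem _ _ (O.add_mem _ _
      (O.add_mem _ _ (O.add_mem _ _ o1 (O.pow_mem hwO 2)) (O.pow_mem hwO 4)) (O.pow_mem hwO 6))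
      (O.pow_mem hwO 8)) (O.pow_mem hwO 10))
  · refine key ((w - 1) * (w + 1) * (w ^ 2 - w + 1) * (w ^ 6 + 1)) ?_ ?_
    · have o1 : (1 : F) ∈ O := O.one_mem
      exact O.mul_mem _ _ (O.mul_mem _ _ (O.mul_mem _ _ (O.sub_mem hwO o1)
        (O.add_mem _ _ hwO o1)) (O.add_mem _ _ (O.sub_mem (O.pow_mem hwO 2) hwO) o1))
        (O.add_mem _ _ (O.pow_mem hwO 6) o1)
    · push_cast
      ring
  · refine key ((w ^ 2 - 1) * (w ^ 8 + w ^ 4 + 1)) ?_ ?_
    · have o1 : (1 : F) ∈ O := O.one_mem
      exact O.mul_mem _ _ (O.sub_mem (O.pow_mem hwO 2) o1)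
        (O.add_mem _ _ (O.add_mem _ _ (O.pow_mem hwO 8) (O.pow_mem hwO 4)) o1)
    · push_cast
      ring
  · refine key ((w - 1) * (w + 1) * (w ^ 2 + w + 1) * (w ^ 6 + 1)) ?_ ?_
    · have o1 : (1 : F) ∈ O := O.one_mem
      exact O.mul_mem _ _ (O.mul_mem _ _ (O.mul_mem _ _ (O.sub_mem hwO o1)
        (O.add_mem _ _ hwO o1)) (O.add_mem _ _ (O.add_mem _ _ (O.pow_mem hwO 2) hwO) o1))
        (O.add_mem _ _ (O.pow_mem hwO 6) o1)
    · push_cast
      ring
  · have h1 : w ^ 2 - ((2 : ℤ) : F) * w + 1 = (w - 1) ^ 2 := by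
      push_cast
      ring
    rw [h1, map_pow] at h
    have h2 : O.valuation (w - 1) < 1 := by
      by_contra hcon
      push Not at hcon
      exact absurd h (not_lt.2 (one_le_pow_of_one_le' hcon 2))
    have h3 : w ^ 12 - 1 = (w - 1) *
        ((w + 1) * (1 + w ^ 2 + w ^ 4 + w ^ 6 + w ^ 8 + w ^ 10)) := by ring
    rw [h3, map_mul]
    refine mul_lt_one_of_nonneg_of_lt_one_left zero_le h2 ((O.valuation_le_one_iff _).2 ?_)
    have o1 : (1 : F) ∈ O := O.one_mem
    exact O.mul_mem _ _ (O.add_mem _ _ hwO o1) (O.add_mem _ _ (O.add_mem _ _ (O.add_mem _ _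
      (O.add_mem _ _ (O.add_mem _ _ o1 (O.pow_mem hwO 2)) (O.pow_mem hwO 4)) (O.pow_mem hwO 6))
      (O.pow_mem hwO 8)) (O.pow_mem hwO 10))

/-- The symbol `{(x - a_k)/(x - a_l), w}` is integral. -/
theorem sym_integral {x w : F} (hs : |s| ≤ 2) (hw0 : w ≠ 0)
    (hw : w + w⁻¹ = c * ∏ i, (x - a i) + s) (k l : ι) {h W : Fˣ}
    (hk : x - a k ≠ 0) (hl : x - a l ≠ 0)
    (hh : (h : F) = (x - a k) / (x - a l)) (hW : (W : F) = w) :
    sym h W ∈ integralPart F := by
  rw [mem_integralPart]
  intro O hO
  have hkl : O.valuation ((h : F) - 1) < 1 ∨ x ∈ O := by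
    rcases O.mem_or_inv_mem x with hx | hx
    · exact Or.inr hx
    by_cases hxO : x ∈ O
    · exact Or.inr hxO
    left
    have hx1 : 1 < O.valuation x := by
      rw [← O.valuation_le_one_iff, not_le] at hxO
      exact hxO
    have e : (h : F) - 1 = ((a l : F) - a k) / (x - a l) := by
      rw [hh]
      field_simp
      ring
    have hv : O.valuation (x - a l) = O.valuation x :=
      O.valuation.map_sub_eq_of_lt_left ((val_int_le O (a l)).trans_lt hx1)
    rw [e, map_div₀, hv]
    have h2 : O.valuation ((a l : F) - a k) ≤ 1 := by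
      have := val_int_le O (a l - a k)
      push_cast at this
      exact this
    exact (div_lt_one₀ (zero_lt_one.trans hx1)).2 (h2.trans_lt hx1)
  rcases hkl with h1 | hx
  · exact sym_mem_of_sub_one_left O h1
  · -- `x ∈ O`, hence `w` is a unit
    have hf : (c * ∏ i, (x - a i) + s : F) ∈ O := by
      refine O.add_mem _ _ (O.mul_mem _ _ (int_mem O c) ?_) (int_mem O s)
      exact prod_mem fun i _ => O.sub_mem hx (int_mem O (a i))
    have hwv : O.valuation w = 1 := by
      rw [← hw, ← O.valuation_le_one_iff] at hf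
      rcases lt_trichotomy (O.valuation w) 1 with hlt | heq | hgt
      · exfalso
        have h3 : 1 < O.valuation w⁻¹ := by
          rw [map_inv₀]
          exact (one_lt_inv₀ ((Valuation.pos_iff _).2 hw0)).2 hlt
        have h4 : O.valuation (w + w⁻¹) = O.valuation w⁻¹ :=
          O.valuation.map_add_eq_of_lt_right (hlt.trans h3)
        rw [h4] at hf
        exact absurd h3 (not_lt.2 hf)
      · exact heq
      · exfalso
        have h3 : O.valuation w⁻¹ < 1 := by
          rw [map_inv₀]
          exact inv_lt_one_of_one_lt₀ hgt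
        have h4 : O.valuation (w + w⁻¹) = O.valuation w :=
          O.valuation.map_add_eq_of_lt_left (h3.trans hgt)
        rw [h4] at hf
        exact absurd hgt (not_lt.2 hf)
    by_cases hh1 : O.valuation (h : F) = 1
    · exact sym_mem_unr O hh1 (by rw [hW]; exact hwv)
    · -- some factor is a nonunit
      have hlt : O.valuation (∏ i, (x - a i)) < 1 := by
        have hle : ∀ i, O.valuation (x - a i) ≤ 1 := fun i =>
          (O.valuation_le_one_iff _).2 (O.sub_mem hx (int_mem O (a i)))
        have h5 : O.valuation (x - a k) < 1 ∨ O.valuation (x - a l) < 1 := by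
          by_contra hcon
          push Not at hcon
          apply hh1
          rw [hh, map_div₀, le_antisymm (hle k) hcon.1, le_antisymm (hle l) hcon.2, div_one]
        have h6 : ∀ m, O.valuation (x - a m) < 1 → O.valuation (∏ i, (x - a i)) < 1 := by
          intro m hm
          rw [← Finset.mul_prod_erase _ _ (Finset.mem_univ m), map_mul]
          refine mul_lt_one_of_nonneg_of_lt_one_left zero_le hm ?_
          rw [map_prod]
          exact Finset.prod_le_one' fun i _ => hle i
        exact h5.elim (h6 k) (h6 l)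
      have h7 : O.valuation (w ^ 2 - s * w + 1) < 1 := by
        have e : w ^ 2 - s * w + 1 = w * (c * ∏ i, (x - a i)) := by
          have : (c * ∏ i, (x - a i) : F) = w + w⁻¹ - s := by
            rw [hw]
            ring
          rw [this]
          field_simp
          ring
        rw [e, map_mul, map_mul, hwv, one_mul, mul_comm]
        exact mul_lt_one_of_nonneg_of_lt_one_left zero_le hlt (val_int_le O c)
      have h8 := pow_twelve O hs hwv h7
      have h9 : sym h (W ^ 12) ∈ unr O := by
        refine sym_mem_of_sub_one_right O ?_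
        rw [Units.val_pow_eq_pow_val, hW]
        exact h8
      rw [sym_pow_right] at h9
      have h10 := (unr O).smul_mem ((12 : ℚ)⁻¹) h9
      rw [smul_smul] at h10
      norm_num at h10
      exact h10

end hyper

end Pool.Agent.Helper11
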