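import Mathlib

/-! Definitions used in the statement: rational Milnor K-theory, its unramified part, smooth
functions on a torus and the regulator integral over a torus. -/

namespace Pool.Agent.Helper11

/-- The relations of the Milnor `K`-group of degree `d` in the free `ℚ`-vector space on
`d`-tuples of units: additivity in every entry, and the Steinberg relation. -/
noncomputable def milnorRel (R : Type*) [CommRing R] (d : ℕ) : Submodule ℚ ((Fin d → Rˣ) →₀ ℚ) :=
  Submodule.span ℚ
    ({z | ∃ (f : Fin d → Rˣ) (i : Fin d) (u v : Rˣ),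
        z = Finsupp.single (Function.update f i (u * v)) 1 -
          Finsupp.single (Function.update f i u) 1 - Finsupp.single (Function.update f i v) 1} ∪
      {z | ∃ (f : Fin d → Rˣ) (i j : Fin d), i ≠ j ∧ (f i : R) + f j = 1 ∧
        z = Finsupp.single f 1})

/-- `K_d^M(R) ⊗ ℚ`. -/
def KMQ (R : Type*) [CommRing R] (d : ℕ) : Type _ := ((Fin d → Rˣ) →₀ ℚ) ⧸ milnorRel R d

noncomputable instance (R : Type*) [CommRing R] (d : ℕ) : AddCommGroup (KMQ R d) :=
  inferInstanceAs (AddCommGroup (((Fin d → Rˣ) →₀ ℚ) ⧸ milnorRel R d))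

noncomputable instance (R : Type*) [CommRing R] (d : ℕ) : Module ℚ (KMQ R d) :=
  inferInstanceAs (Module ℚ (((Fin d → Rˣ) →₀ ℚ) ⧸ milnorRel R d))

/-- The symbol `{f_0, ..., f_{d-1}}` in `K_d^M(R) ⊗ ℚ`. -/
noncomputable def symM {R : Type*} [CommRing R] {d : ℕ} (f : Fin d → Rˣ) : KMQ R d :=
  (milnorRel R d).mkQ (Finsupp.single f 1)

/-- The map induced on the free vector spaces on tuples of units. -/
noncomputable def tupleMap {R S : Type*} [CommRing R] [CommRing S] (φ : R →+* S) (d : ℕ) :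
    ((Fin d → Rˣ) →₀ ℚ) →ₗ[ℚ] ((Fin d → Sˣ) →₀ ℚ) :=
  Finsupp.lmapDomain ℚ ℚ (fun f i => Units.map (φ : R →* S) (f i))

lemma milnorRel_le_comap {R S : Type*} [CommRing R] [CommRing S] (φ : R →+* S) (d : ℕ) :
    milnorRel R d ≤ (milnorRel S d).comap (tupleMap φ d) := by
  rw [milnorRel, Submodule.span_le]
  rintro _ (⟨f, i, u, v, rfl⟩ | ⟨f, i, j, hij, h, rfl⟩)
  · have key : ∀ w : Rˣ, (fun k => Units.map (φ : R →* S) (Function.update f i w k)) =
        Function.update (fun k => Units.map (φ : R →* S) (f k)) i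
          (Units.map (φ : R →* S) w) := by
      intro w
      funext k
      by_cases hk : k = i
      · subst hk
        simp
      · simp [hk]
    refine Submodule.subset_span (Or.inl ⟨fun k => Units.map (φ : R →* S) (f k), i,
      Units.map (φ : R →* S) u, Units.map (φ : R →* S) v, ?_⟩)
    simp only [tupleMap, map_sub, Finsupp.lmapDomain_apply, Finsupp.mapDomain_single, key,
      map_mul]
  · refine Submodule.subset_span (Or.inr ⟨fun k => Units.map (φ : R →* S) (f k), i, j, hij,
      ?_, ?_⟩)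
    · have := congrArg φ h
      simpa using this
    · simp only [tupleMap, Finsupp.lmapDomain_apply, Finsupp.mapDomain_single]

/-- The map `K_d^M(R) ⊗ ℚ → K_d^M(S) ⊗ ℚ` induced by a ring homomorphism. -/
noncomputable def KMQ.map {R S : Type*} [CommRing R] [CommRing S] (φ : R →+* S) (d : ℕ) :
    KMQ R d →ₗ[ℚ] KMQ S d :=
  (milnorRel R d).mapQ (milnorRel S d) (tupleMap φ d) (milnorRel_le_comap φ d)

/-- The elements of `K_d^M(K) ⊗ ℚ` which are combinations of symbols of units of `O`. -/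
noncomputable def unrM {K : Type*} [Field K] (O : ValuationSubring K) (d : ℕ) :
    Submodule ℚ (KMQ K d) :=
  Submodule.span ℚ {z | ∃ f : Fin d → Kˣ, (∀ i, f i ∈ O.unitGroup) ∧ z = symM f}

/-- The elements of `K_d^M(A) ⊗ ℚ` which are unramified everywhere: for every homomorphism from
`A` to a field `K` and every discrete valuation ring `O` of `K`, the image in `K_d^M(K) ⊗ ℚ` is a
combination of symbols of units of `O`. -/
def Unramified {A : Type} [CommRing A] {d : ℕ} (z : KMQ A d) : Prop :=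
  ∀ (K : Type) [Field K] (φ : A →+* K) (O : ValuationSubring K),
    IsDiscreteValuationRing O → KMQ.map φ d z ∈ unrM O d

/-- The ring of twice continuously differentiable complex functions on the torus `(ℝ/2πℤ)ⁿ`. -/
def TorusRing (n : ℕ) : Subring ((Fin n → ℝ) → ℂ) where
  carrier := {f | ContDiff ℝ 2 f ∧ ∀ (m : Fin n) (θ : Fin n → ℝ),
    f (θ + Pi.single m (2 * Real.pi)) = f θ}
  mul_mem' := fun ha hb => ⟨ha.1.mul hb.1, fun m θ => congrArg₂ (· * ·) (ha.2 m θ) (hb.2 m θ)⟩
  one_mem' := ⟨contDiff_const, fun _ _ => rfl⟩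
  add_mem' := fun ha hb => ⟨ha.1.add hb.1, fun m θ => congrArg₂ (· + ·) (ha.2 m θ) (hb.2 m θ)⟩
  zero_mem' := ⟨contDiff_const, fun _ _ => rfl⟩
  neg_mem' := fun ha => ⟨ha.1.neg, fun m θ => congrArg Neg.neg (ha.2 m θ)⟩

/-- The differential of `t log |f| + i arg f` at the point `(t, θ) = (x 0, (x 1, ..., x n))`. -/
noncomputable def regRow {n : ℕ} (f : (Fin n → ℝ) → ℂ) (x : Fin (n + 1) → ℝ) :
    Fin (n + 1) → ℂ :=
  Fin.cons (Real.log ‖f (Fin.tail x)‖ : ℂ) fun m =>
    ⟨x 0 * (fderiv ℝ f (Fin.tail x) (Pi.single m 1) / f (Fin.tail x)).re,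
      (fderiv ℝ f (Fin.tail x) (Pi.single m 1) / f (Fin.tail x)).im⟩

/-- The upper corner of the box `[0,1] × [0,2π]ⁿ`. -/
noncomputable def topB (n : ℕ) : Fin (n + 1) → ℝ := Fin.cons 1 (fun _ => 2 * Real.pi)

/-- The regulator of the symbol `{f_0, ..., f_n}` over the torus: the integral over
`[0,1] × (ℝ/2πℤ)ⁿ` of the real part of `i^{-n} dg_0 ∧ ... ∧ dg_n`, `g_j = t log |f_j| + i arg f_j`. -/
noncomputable def regTorus {n : ℕ} (f : Fin (n + 1) → (Fin n → ℝ) → ℂ) : ℝ :=
  ∫ x in Set.Icc (0 : Fin (n + 1) → ℝ) (topB n),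
    ((-Complex.I) ^ n * Matrix.det (Matrix.of fun j => regRow (f j) x)).re

/-- `R` is the regulator over a torus: the linear functional attached to a homomorphism from `A`
to the ring of functions on the torus. -/
def IsTorusRegulator {A : Type} [CommRing A] {n : ℕ} (R : KMQ A (n + 1) →ₗ[ℚ] ℝ) : Prop :=
  ∃ γ : A →+* TorusRing n, ∀ f : Fin (n + 1) → Aˣ,
    R (symM f) = regTorus fun j => ((γ (f j : A) : TorusRing n) : (Fin n → ℝ) → ℂ)

end Pool.Agent.Helper11
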