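import Mathlib
import Pool.Agent.Helper11.KDefs

/-! Basic properties of rational Milnor K-theory. -/

namespace Pool.Agent.Helper11

variable {R S : Type*} [CommRing R] [CommRing S] {d : ℕ}

/-- the universal property -/
lemma KMQ.exists_lift {V : Type*} [AddCommGroup V] [Module ℚ V] (B : (Fin d → Rˣ) → V)
    (h1 : ∀ f i u v, B (Function.update f i (u * v)) =
      B (Function.update f i u) + B (Function.update f i v))
    (h2 : ∀ (f : Fin d → Rˣ) i j, i ≠ j → (f i : R) + f j = 1 → B f = 0) :
    ∃ T : KMQ R d →ₗ[ℚ] V, ∀ f, T (symM f) = B f := by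
  let L : ((Fin d → Rˣ) →₀ ℚ) →ₗ[ℚ] V := Finsupp.linearCombination ℚ B
  have hL : ∀ f, L (Finsupp.single f 1) = B f := by
    intro f
    simp [L]
  have hker : milnorRel R d ≤ LinearMap.ker L := by
    rw [milnorRel, Submodule.span_le]
    rintro _ (⟨f, i, u, v, rfl⟩ | ⟨f, i, j, hij, h, rfl⟩)
    · rw [SetLike.mem_coe, LinearMap.mem_ker, map_sub, map_sub, hL, hL, hL, h1]
      abel
    · rw [SetLike.mem_coe, LinearMap.mem_ker, hL]
      exact h2 f i j hij h
  refine ⟨(milnorRel R d).liftQ L hker, fun f => ?_⟩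
  change (milnorRel R d).liftQ L hker ((milnorRel R d).mkQ (Finsupp.single f 1)) = _
  rw [Submodule.mkQ_apply, Submodule.liftQ_apply, hL]

lemma symM_update_mul (f : Fin d → Rˣ) (i : Fin d) (u v : Rˣ) :
    symM (Function.update f i (u * v)) =
      symM (Function.update f i u) + symM (Function.update f i v) := by
  have h : (milnorRel R d).mkQ (Finsupp.single (Function.update f i (u * v)) 1 -
      Finsupp.single (Function.update f i u) 1 - Finsupp.single (Function.update f i v) 1) = 0 := by
    rw [Submodule.mkQ_apply, Submodule.Quotient.mk_eq_zero]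
    exact Submodule.subset_span (Or.inl ⟨f, i, u, v, rfl⟩)
  rw [map_sub, map_sub, sub_sub, sub_eq_zero] at h
  exact h

lemma symM_steinberg (f : Fin d → Rˣ) {i j : Fin d} (hij : i ≠ j) (h : (f i : R) + f j = 1) :
    symM f = 0 := by
  change (milnorRel R d).mkQ (Finsupp.single f 1) = 0
  rw [Submodule.mkQ_apply, Submodule.Quotient.mk_eq_zero]
  exact Submodule.subset_span (Or.inr ⟨f, i, j, hij, h, rfl⟩)

lemma KMQ.map_symM (φ : R →+* S) (f : Fin d → Rˣ) :
    KMQ.map φ d (symM f) = symM fun i => Units.map (φ : R →* S) (f i) := by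
  change (milnorRel R d).mapQ (milnorRel S d) (tupleMap φ d) (milnorRel_le_comap φ d)
    ((milnorRel R d).mkQ (Finsupp.single f 1)) = (milnorRel S d).mkQ (Finsupp.single _ 1)
  rw [Submodule.mkQ_apply, Submodule.mapQ_apply, tupleMap, Finsupp.lmapDomain_apply,
    Finsupp.mapDomain_single]
  rfl

end Pool.Agent.Helper11
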