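import Mathlib
import Pool.Agent.Helper11.KApi
import Pool.Agent.Helper11.Unram

/-! Symbols in Milnor K-theory of a field with an entry congruent to `1` are unramified. -/

namespace Pool.Agent.Helper11

section basic

variable {R : Type*} [CommRing R] {d : ℕ}

lemma symM_update_one (f : Fin d → Rˣ) (i : Fin d) : symM (Function.update f i 1) = 0 := by
  have h := symM_update_mul f i 1 1
  rw [mul_one] at h
  exact (left_eq_add.1 h)

lemma symM_update_inv (f : Fin d → Rˣ) (i : Fin d) (u : Rˣ) :
    symM (Function.update f i u⁻¹) = - symM (Function.update f i u) := by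
  have h := symM_update_mul f i u u⁻¹
  rw [mul_inv_cancel, symM_update_one] at h
  exact (neg_eq_of_add_eq_zero_right h.symm).symm

lemma symM_update_pow (f : Fin d → Rˣ) (i : Fin d) (u : Rˣ) (k : ℕ) :
    symM (Function.update f i (u ^ k)) = (k : ℚ) • symM (Function.update f i u) := by
  induction k with
  | zero => simp [symM_update_one]
  | succ k ih => rw [pow_succ, symM_update_mul, ih, Nat.cast_succ, add_smul, one_smul]

end basic

section field

variable {F : Type*} [Field F] {d : ℕ}

/-- the map from `K₂` in two of the entries -/
lemma exists_transfer (f : Fin d → Fˣ) {i j : Fin d} (hij : i ≠ j) :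
    ∃ T : K2Q F →ₗ[ℚ] KMQ F d,
      ∀ u v, T (sym u v) = symM (Function.update (Function.update f i u) j v) := by
  refine exists_lift (fun u v => symM (Function.update (Function.update f i u) j v)) ?_ ?_ ?_
  · intro u₁ u₂ v
    simp only [Function.update_comm hij]
    exact symM_update_mul _ _ _ _
  · intro u v₁ v₂
    exact symM_update_mul _ _ _ _
  · intro u v h
    refine symM_steinberg _ hij ?_
    simpa [hij] using h

lemma symM_pair_self (f : Fin d → Fˣ) {i j : Fin d} (hij : i ≠ j) (h : f i = f j) :
    symM f = 0 := by
  obtain ⟨T, hT⟩ := exists_transfer f hij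
  have h1 := hT (f i) (f j)
  rw [Function.update_eq_self, Function.update_eq_self, h, sym_self, map_zero] at h1
  exact h1.symm

lemma symM_transfer_mem (O : ValuationSubring F) (f : Fin d → Fˣ) {i j : Fin d} (hij : i ≠ j)
    (hf : ∀ k, k ≠ i → k ≠ j → f k ∈ O.unitGroup) (h : sym (f i) (f j) ∈ unr O) :
    symM f ∈ unrM O d := by
  obtain ⟨T, hT⟩ := exists_transfer f hij
  have h1 := hT (f i) (f j)
  rw [Function.update_eq_self, Function.update_eq_self] at h1
  rw [← h1]
  have h2 : unr O ≤ (unrM O d).comap T := by
    unfold unr
    rw [Submodule.span_le]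
    rintro _ ⟨u, v, hu, hv, rfl⟩
    rw [SetLike.mem_coe, Submodule.mem_comap, hT]
    refine Submodule.subset_span ⟨_, fun k => ?_, rfl⟩
    by_cases hkj : k = j
    · subst hkj
      simpa using hv
    · rw [Function.update_of_ne hkj]
      by_cases hki : k = i
      · subst hki
        simpa using hu
      · rw [Function.update_of_ne hki]
        exact hf k hki hkj
  exact h2 h

variable (O : ValuationSubring F)

lemma unit_of_sub_one {y : Fˣ} (hy : O.valuation ((y : F) - 1) < 1) : y ∈ O.unitGroup := by
  rw [O.mem_unitGroup_iff]
  have := O.valuation.map_one_add_of_lt hy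
  rwa [add_sub_cancel] at this

/-- A symbol with an entry `≡ 1` is unramified. -/
theorem symM_mem_of_sub_one [IsDiscreteValuationRing O] (f : Fin d → Fˣ) (j : Fin d)
    (hj : O.valuation ((f j : F) - 1) < 1) : symM f ∈ unrM O d := by
  classical
  obtain ⟨ϖ, hϖ⟩ := IsDiscreteValuationRing.exists_irreducible O
  have hϖ0 : (ϖ : F) ≠ 0 := fun h => hϖ.ne_zero (Subtype.ext h)
  set p : Fˣ := Units.mk0 _ hϖ0 with hp
  -- normalised symbols
  have claimA : ∀ g : Fin d → Fˣ, O.valuation ((g j : F) - 1) < 1 →
      (∀ i, i ≠ j → g i ∈ O.unitGroup ∨ g i = p) → symM g ∈ unrM O d := by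
    intro g hgj hg
    by_cases h2 : ∃ i, i ≠ j ∧ g i ∉ O.unitGroup
    · obtain ⟨i, hij, hi⟩ := h2
      have hip : g i = p := (hg i hij).resolve_left hi
      by_cases h3 : ∃ k, k ≠ j ∧ k ≠ i ∧ g k ∉ O.unitGroup
      · obtain ⟨k, hkj, hki, hk⟩ := h3
        have hkp : g k = p := (hg k hkj).resolve_left hk
        rw [symM_pair_self g hki (hkp.trans hip.symm)]
        exact Submodule.zero_mem _
      · push Not at h3
        exact symM_transfer_mem O g hij (fun k hki hkj => h3 k hkj hki)
          (sym_mem_of_sub_one_right O hgj)
    · push Not at h2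
      refine Submodule.subset_span ⟨g, fun i => ?_, rfl⟩
      by_cases hij : i = j
      · subst hij
        exact unit_of_sub_one O hgj
      · exact h2 i hij
  -- induction on the number of entries not normalised
  have claimB : ∀ s : Finset (Fin d), ∀ g : Fin d → Fˣ, O.valuation ((g j : F) - 1) < 1 →
      (∀ i, i ∉ s → i ≠ j → g i ∈ O.unitGroup ∨ g i = p) → symM g ∈ unrM O d := by
    intro s
    induction s using Finset.induction_on with
    | empty =>
      intro g hgj hg
      exact claimA g hgj fun i hij => hg i (Finset.notMem_empty _) hij
    | insert i s his ih =>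
      intro g hgj hg
      by_cases hij : i = j
      · refine ih g hgj fun k hk hkj => hg k ?_ hkj
        rw [Finset.mem_insert, not_or]
        exact ⟨fun h => hkj (h.trans hij), hk⟩
      · have hupd : ∀ w : Fˣ, w ∈ O.unitGroup ∨ w = p →
            symM (Function.update g i w) ∈ unrM O d := by
          intro w hw
          refine ih _ ?_ fun k hk hkj => ?_
          · rw [Function.update_of_ne (Ne.symm hij)]
            exact hgj
          · by_cases hki : k = i
            · subst hki
              rw [Function.update_self]
              exact hw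
            · rw [Function.update_of_ne hki]
              refine hg k ?_ hkj
              rw [Finset.mem_insert, not_or]
              exact ⟨hki, hk⟩
        have key : ∀ z : Fˣ, (z : F) ∈ O → symM (Function.update g i z) ∈ unrM O d := by
          intro z hz
          have hz0 : (⟨z, hz⟩ : O) ≠ 0 := fun h => z.ne_zero (congrArg Subtype.val h)
          obtain ⟨k, u, hu⟩ := IsDiscreteValuationRing.eq_unit_mul_pow_irreducible hz0 hϖ
          have hvu : O.valuation ((u : O) : F) = 1 := (O.valuation_eq_one_iff _).1 u.isUnit
          have hu0 : ((u : O) : F) ≠ 0 := by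
            intro h
            rw [h, map_zero] at hvu
            exact zero_ne_one hvu
          have hzu : z = Units.mk0 _ hu0 * p ^ k := by
            ext
            have := congrArg Subtype.val hu
            rw [Units.val_mul, Units.val_pow_eq_pow_val, hp, Units.val_mk0, Units.val_mk0]
            simpa using this
          rw [hzu, symM_update_mul, symM_update_pow]
          refine Submodule.add_mem _ (hupd _ (Or.inl ?_))
            (Submodule.smul_mem _ _ (hupd _ (Or.inr rfl)))
          rw [O.mem_unitGroup_iff]
          simpa using hvu
        have hg' : Function.update g i (g i) = g := Function.update_eq_self _ _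
        rcases O.mem_or_inv_mem (g i : F) with h | h
        · have := key (g i) h
          rwa [hg'] at this
        · have h2 := key (g i)⁻¹ (by simpa using h)
          rw [symM_update_inv, hg'] at h2
          simpa using Submodule.neg_mem _ h2
  exact claimB Finset.univ f hj fun i hi => absurd (Finset.mem_univ i) hi

end field

end Pool.Agent.Helper11
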