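import Mathlib
import Pool.Agent.Helper11.KMUnr

/-! Symbols of integers vanish in rational `K₂` of any field. -/

namespace Pool.Agent.Helper11

variable {F : Type*} [Field F]

section charZero

variable [CharZero F]

/-- a nonzero natural number as a unit -/
noncomputable def natU (F : Type*) [Field F] [CharZero F] (a : ℕ) (ha : a ≠ 0) : Fˣ :=
  Units.mk0 (a : F) (Nat.cast_ne_zero.2 ha)

lemma natU_mul {a b : ℕ} (ha : a ≠ 0) (hb : b ≠ 0) (hab : a * b ≠ 0) :
    natU F (a * b) hab = natU F a ha * natU F b hb := by
  ext
  simp [natU]

lemma sym_natU_aux (m : ℕ) : ∀ a b : ℕ, ∀ (ha : a ≠ 0) (hb : b ≠ 0), a ≤ m → b ≤ m →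
    sym (natU F a ha) (natU F b hb) = 0 := by
  induction m with
  | zero =>
    intro a b ha _ h _
    exact absurd (Nat.le_zero.1 h) ha
  | succ m ih =>
    -- it suffices to treat the symbols `{m + 1, b}`
    have hm : m + 1 ≠ 0 := Nat.succ_ne_zero m
    have key : ∀ b : ℕ, ∀ hb : b ≠ 0, b ≤ m → sym (natU F (m + 1) hm) (natU F b hb) = 0 := by
      by_cases hp : (m + 1).Prime
      · -- the homomorphism `b ↦ {p, b}` on residue classes
        have step : ∀ x y s : ℕ, ∀ (hx : x ≠ 0) (hy : y ≠ 0) (hs : s ≠ 0), x ≤ m → y ≤ m →
            s ≤ m → x * y % (m + 1) = s →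
            sym (natU F (m + 1) hm) (natU F s hs) = sym (natU F (m + 1) hm) (natU F x hx) +
              sym (natU F (m + 1) hm) (natU F y hy) := by
          intro x y s hx hy hs hxm hym hsm hmod
          have hxy : x * y ≠ 0 := Nat.mul_ne_zero hx hy
          have hdiv := Nat.div_add_mod (x * y) (m + 1)
          rw [hmod] at hdiv
          set q := x * y / (m + 1) with hq
          by_cases hq0 : q = 0
          · have e : s = x * y := by
              rw [hq0, mul_zero, zero_add] at hdiv
              exact hdiv
            subst e
            rw [natU_mul hx hy, sym_mul_right]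
          · have hqm : q ≤ m := by
              by_contra hcon
              push Not at hcon
              have h1 : (m + 1) * (m + 1) ≤ (m + 1) * q := Nat.mul_le_mul_left _ hcon
              have h2 : x * y ≤ m * m := Nat.mul_le_mul hxm hym
              nlinarith
            -- Steinberg relation
            set X := natU F x hx with hX
            set Y := natU F y hy with hY
            set P := natU F (m + 1) hm with hP
            set Q := natU F q hq0 with hQ
            set S := natU F s hs with hS
            have hst : sym (Q * P * (X * Y)⁻¹) (S * (X * Y)⁻¹) = 0 := by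
              refine sym_steinberg _ _ ?_
              have hx' : (x : F) ≠ 0 := Nat.cast_ne_zero.2 hx
              have hy' : (y : F) ≠ 0 := Nat.cast_ne_zero.2 hy
              have h1 : ((m + 1 : ℕ) : F) * (q : F) + (s : F) = (x : F) * (y : F) := by
                exact_mod_cast congrArg (fun k : ℕ => (k : F)) hdiv
              have h2 : ((Q * P * (X * Y)⁻¹ : Fˣ) : F) =
                  (q : F) * ((m + 1 : ℕ) : F) * ((x : F) * (y : F))⁻¹ := by
                simp [hQ, hP, hX, hY, natU]
              have h3 : ((S * (X * Y)⁻¹ : Fˣ) : F) = (s : F) * ((x : F) * (y : F))⁻¹ := by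
                simp [hS, hX, hY, natU]
              rw [h2, h3, ← add_mul]
              have h4 : (q : F) * ((m + 1 : ℕ) : F) + (s : F) = (x : F) * (y : F) := by
                rw [← h1]
                ring
              rw [h4]
              exact mul_inv_cancel₀ (mul_ne_zero hx' hy')
            have z1 : sym Q S = 0 := ih q s hq0 hs hqm hsm
            have z2 : sym Q X = 0 := ih q x hq0 hx hqm hxm
            have z3 : sym Q Y = 0 := ih q y hq0 hy hqm hym
            have z4 : sym X S = 0 := ih x s hx hs hxm hsm
            have z5 : sym Y S = 0 := ih y s hy hs hym hsm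
            simp only [sym_mul_left, sym_mul_right, sym_inv_left, sym_inv_right, mul_inv] at hst
            rw [z1, z2, z3, z4, z5] at hst
            have a1 := sym_antisymm X Y
            have a2 := sym_self X
            have a3 := sym_self Y
            rw [a1, a2, a3] at hst
            have : sym P S - sym P X - sym P Y = 0 := by
              rw [← hst]
              abel
            rw [sub_sub, sub_eq_zero] at this
            exact this
        -- powers
        intro b hb hbm
        have hres : ∀ k : ℕ, b ^ k % (m + 1) ≠ 0 := by
          intro k h0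
          have h1 : (m + 1) ∣ b ^ k := Nat.dvd_of_mod_eq_zero h0
          have h2 := hp.dvd_of_dvd_pow h1
          exact absurd (Nat.le_of_dvd (Nat.pos_of_ne_zero hb) h2) (by omega)
        have hpow : ∀ k : ℕ, sym (natU F (m + 1) hm) (natU F (b ^ k % (m + 1)) (hres k)) =
            (k : ℚ) • sym (natU F (m + 1) hm) (natU F b hb) := by
          intro k
          induction k with
          | zero =>
            have hm1 : 1 ≤ m := le_trans (Nat.one_le_iff_ne_zero.2 hb) hbm
            have e : b ^ 0 % (m + 1) = 1 := by
              rw [pow_zero]
              exact Nat.mod_eq_of_lt (by omega)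
            have e2 : natU F (b ^ 0 % (m + 1)) (hres 0) = 1 := by
              ext
              simp only [natU, Units.val_mk0, e, Nat.cast_one, Units.val_one]
            rw [e2, sym_one_right]
            simp
          | succ k ihk =>
            have h1 := step (b ^ k % (m + 1)) b (b ^ (k + 1) % (m + 1)) (hres k) hb (hres (k + 1))
              (Nat.lt_succ_iff.1 (Nat.mod_lt _ (Nat.succ_pos m))) hbm
              (Nat.lt_succ_iff.1 (Nat.mod_lt _ (Nat.succ_pos m)))
              (by rw [pow_succ, Nat.mod_mul_mod])
            rw [h1, ihk]
            push_cast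
            rw [add_smul, one_smul]
        have h1 := hpow m
        have hcop : Nat.Coprime b (m + 1) := by
          rw [Nat.coprime_comm]
          refine (Nat.Prime.coprime_iff_not_dvd hp).2 fun h => ?_
          exact absurd (Nat.le_of_dvd (Nat.pos_of_ne_zero hb) h) (by omega)
        have hfer : b ^ m % (m + 1) = 1 := by
          have h2 := Nat.ModEq.pow_totient hcop
          rw [Nat.totient_prime hp, Nat.add_sub_cancel] at h2
          have h3 : 1 % (m + 1) = 1 := Nat.mod_eq_of_lt (by
            have := Nat.one_le_iff_ne_zero.2 hb
            omega)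
          have h4 : b ^ m % (m + 1) = 1 % (m + 1) := h2
          rw [h4, h3]
        have e2 : natU F (b ^ m % (m + 1)) (hres m) = 1 := by
          ext
          simp only [natU, Units.val_mk0, hfer, Nat.cast_one, Units.val_one]
        rw [e2, sym_one_right] at h1
        have hm0 : ((m : ℕ) : ℚ) ≠ 0 := by
          have := Nat.one_le_iff_ne_zero.2 hb
          exact_mod_cast (by omega : m ≠ 0)
        exact (smul_eq_zero.1 h1.symm).resolve_left hm0
      · -- composite or one
        intro b hb hbm
        have hm1 : 1 ≤ m := le_trans (Nat.one_le_iff_ne_zero.2 hb) hbm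
        obtain ⟨x, hxd, hx1, hxm⟩ := (Nat.not_prime_iff_exists_dvd_lt (by omega)).1 hp
        obtain ⟨y, hy⟩ := hxd
        have hx0 : x ≠ 0 := by omega
        have hy0 : y ≠ 0 := by
          intro h
          rw [h, mul_zero] at hy
          omega
        have hym : y ≤ m := by
          by_contra hcon
          push Not at hcon
          have h1 : 2 * (m + 1) ≤ x * y := Nat.mul_le_mul hx1 hcon
          omega
        have e : natU F (m + 1) hm = natU F x hx0 * natU F y hy0 := by
          ext
          simp only [natU, Units.val_mk0, Units.val_mul]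
          rw [hy]
          push_cast
          ring
        rw [e, sym_mul_left, ih x b hx0 hb (by omega) hbm, ih y b hy0 hb hym hbm, add_zero]
    intro a b ha hb ham hbm
    rcases Nat.lt_or_ge a (m + 1) with h1 | h1
    · rcases Nat.lt_or_ge b (m + 1) with h2 | h2
      · exact ih a b ha hb (by omega) (by omega)
      · obtain rfl : b = m + 1 := le_antisymm hbm h2
        rw [sym_antisymm, key a ha (by omega), neg_zero]
    · obtain rfl : a = m + 1 := le_antisymm ham h1
      rcases Nat.lt_or_ge b (m + 1) with h2 | h2
      · exact key b hb (by omega)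
      · obtain rfl : b = m + 1 := le_antisymm hbm h2
        exact sym_self _

end charZero

/-- Symbols of integers vanish in `K₂(F) ⊗ ℚ`. -/
theorem sym_int_int {u v : Fˣ} {a b : ℤ} (hu : (u : F) = a) (hv : (v : F) = b) :
    sym u v = 0 := by
  obtain ⟨p, hp⟩ := CharP.exists F
  rcases Nat.eq_zero_or_pos p with h0 | hpos
  · subst h0
    haveI : CharZero F := CharP.charP_to_charZero F
    have ha : a ≠ 0 := by
      rintro rfl
      exact u.ne_zero (by simpa using hu)
    have hb : b ≠ 0 := by
      rintro rfl
      exact v.ne_zero (by simpa using hv)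
    have ha' : a.natAbs ≠ 0 := Int.natAbs_ne_zero.2 ha
    have hb' : b.natAbs ≠ 0 := Int.natAbs_ne_zero.2 hb
    have key : ∀ (w : Fˣ) (k : ℤ) (hk : k.natAbs ≠ 0), (w : F) = k →
        w = natU F k.natAbs hk ∨ w = -1 * natU F k.natAbs hk := by
      intro w k hk hw
      rcases Int.natAbs_eq k with h | h
      · left
        ext
        rw [hw]
        simp only [natU, Units.val_mk0]
        conv_lhs => rw [h]
        rw [Int.cast_natCast]
      · right
        ext
        rw [hw, Units.val_mul, Units.val_neg, Units.val_one]
        simp only [natU, Units.val_mk0]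
        conv_lhs => rw [h]
        rw [Int.cast_neg, Int.cast_natCast, neg_one_mul]
    have h1 : sym (natU F a.natAbs ha') (natU F b.natAbs hb') = 0 :=
      sym_natU_aux (max a.natAbs b.natAbs) _ _ ha' hb' (le_max_left _ _) (le_max_right _ _)
    have h2 : ∀ w : Fˣ, sym (-1) w = 0 := fun w => by
      rw [sym_antisymm, sym_neg_one_right, neg_zero]
    rcases key u a ha' hu with h | h <;> rcases key v b hb' hv with h' | h' <;> rw [h, h']
    · exact h1
    · rw [sym_mul_right, sym_neg_one_right, h1, add_zero]
    · rw [sym_mul_left, h2, h1, add_zero]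
    · rw [sym_mul_left, h2, sym_mul_right, sym_neg_one_right, h1, add_zero, add_zero]
  · haveI : NeZero p := ⟨hpos.ne'⟩
    haveI hprime : Fact p.Prime := ⟨CharP.char_prime_of_ne_zero F hpos.ne'⟩
    have h1 : u ^ (p - 1) = 1 := by
      ext
      rw [Units.val_pow_eq_pow_val, hu, Units.val_one]
      have ha : (a : ZMod p) ≠ 0 := by
        intro h
        have h2 : ZMod.castHom (dvd_refl p) F (a : ZMod p) = (a : F) := by
          rw [map_intCast]
        rw [h, map_zero] at h2
        exact u.ne_zero (by rw [hu, ← h2])
      have h3 := ZMod.pow_card_sub_one_eq_one ha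
      have h4 := congrArg (ZMod.castHom (dvd_refl p) F) h3
      rw [map_pow, map_intCast, map_one] at h4
      exact h4
    have h2 := sym_pow_left u v (p - 1)
    rw [h1, sym_one_left] at h2
    have h3 : ((p - 1 : ℕ) : ℚ) ≠ 0 := by
      have := hprime.out.two_le
      exact_mod_cast (by omega : p - 1 ≠ 0)
    exact (smul_eq_zero.1 h2.symm).resolve_left h3

end Pool.Agent.Helper11
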