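import Mathlib
import Pool.Agent.Helper11.K2Const

/-! Generalised Steinberg relations, and symbols whose entries have sum `≡ 1`. -/

namespace Pool.Agent.Helper11

variable {F : Type*} [Field F] {d : ℕ}

lemma symM_update_div {R : Type*} [CommRing R] (f : Fin d → Rˣ) (i : Fin d) (u v : Rˣ) :
    symM (Function.update f i (u / v)) =
      symM (Function.update f i u) - symM (Function.update f i v) := by
  rw [div_eq_mul_inv, symM_update_mul, symM_update_inv, sub_eq_add_neg]

/-- two entries `u, -u` -/
lemma symM_pair_neg (f : Fin d → Fˣ) {i j : Fin d} (hij : i ≠ j) (h : f i = - f j) :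
    symM f = 0 := by
  obtain ⟨T, hT⟩ := exists_transfer f hij
  have h1 := hT (f i) (f j)
  rw [Function.update_eq_self, Function.update_eq_self] at h1
  have h2 : f j = - f i := by rw [h, neg_neg]
  rw [h2, sym_neg_self, map_zero] at h1
  exact h1.symm

/-- two integer entries -/
lemma symM_int_int (f : Fin d → Fˣ) {i j : Fin d} (hij : i ≠ j) {a b : ℤ}
    (hi : (f i : F) = a) (hj : (f j : F) = b) : symM f = 0 := by
  obtain ⟨T, hT⟩ := exists_transfer f hij
  have h1 := hT (f i) (f j)
  rw [Function.update_eq_self, Function.update_eq_self, sym_int_int hi hj, map_zero] at h1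
  exact h1.symm

/-- exchanging two entries changes the sign -/
lemma symM_swap (f : Fin d → Fˣ) {i j : Fin d} (hij : i ≠ j) (u v : Fˣ) :
    symM (Function.update (Function.update f i u) j v) =
      - symM (Function.update (Function.update f i v) j u) := by
  obtain ⟨T, hT⟩ := exists_transfer f hij
  rw [← hT, ← hT, sym_antisymm, map_neg]

/-- replacing the entries `(x, y)` by `(x / y, s)` -/
lemma symM_pair_sum (f : Fin d → Fˣ) {i j : Fin d} (hij : i ≠ j) (x y s : Fˣ)
    (hs : (x : F) + y = s) :
    symM (Function.update (Function.update f i x) j y) =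
      symM (Function.update (Function.update f i (x / y)) j s) := by
  obtain ⟨T, hT⟩ := exists_transfer f hij
  rw [← hT, ← hT]
  congr 1
  have h1 : sym (x / s) (y / s) = 0 := by
    refine sym_steinberg _ _ ?_
    rw [Units.val_div_eq_div_val, Units.val_div_eq_div_val, ← add_div, hs]
    exact div_self s.ne_zero
  simp only [div_eq_mul_inv, sym_mul_left, sym_mul_right, sym_inv_left, sym_inv_right] at h1 ⊢
  rw [sym_self s] at h1
  have h2 := sym_antisymm s y
  rw [h2] at h1
  have h3 : sym x y - (sym x s - sym y s) = 0 := by
    rw [← h1]
    abel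
  rw [sub_eq_zero] at h3
  rw [h3]
  abel

/-- The generalised Steinberg relation. -/
theorem symM_steinberg_sum (k : ℕ) : ∀ (f : Fin d → Fˣ) (X : Finset (Fin d)), X.card = k →
    ∑ m ∈ X, (f m : F) = 1 → symM f = 0 := by
  induction k with
  | zero =>
    intro f X hX h
    rw [Finset.card_eq_zero] at hX
    subst hX
    simp at h
  | succ k ih =>
    intro f X hX h
    obtain ⟨i, hi⟩ : X.Nonempty := by
      rw [← Finset.card_pos, hX]
      exact Nat.succ_pos k
    by_cases hone : X.erase i = ∅
    · have hXi : X = {i} := by
        rw [← Finset.insert_erase hi, hone]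
        rfl
      rw [hXi, Finset.sum_singleton] at h
      have h1 : f i = 1 := Units.ext h
      have h2 := symM_update_one f i
      rwa [← h1, Function.update_eq_self] at h2
    · obtain ⟨j, hj⟩ := Finset.nonempty_iff_ne_empty.2 hone
      have hij : i ≠ j := (Finset.ne_of_mem_erase hj).symm
      have hjX : j ∈ X := Finset.mem_of_mem_erase hj
      by_cases hs : (f i : F) + f j = 0
      · refine symM_pair_neg f hij ?_
        ext
        rw [Units.val_neg]
        exact eq_neg_of_add_eq_zero_left hs
      · set s : Fˣ := Units.mk0 _ hs with hsdef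
        have h1 := symM_pair_sum f hij (f i) (f j) s rfl
        rw [Function.update_eq_self, Function.update_eq_self] at h1
        rw [h1]
        refine ih _ (X.erase i) ?_ ?_
        · rw [Finset.card_erase_of_mem hi, hX]
          rfl
        · rw [← Finset.add_sum_erase _ _ hj, Function.update_self]
          rw [← Finset.add_sum_erase _ _ hi, ← Finset.add_sum_erase _ _ hj, ← add_assoc] at h
          rw [← h]
          congr 1
          refine Finset.sum_congr rfl fun m hm => ?_
          have hm1 : m ≠ j := Finset.ne_of_mem_erase hm
          have hm2 : m ≠ i := Finset.ne_of_mem_erase (Finset.mem_of_mem_erase hm)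
          rw [Function.update_of_ne hm1, Function.update_of_ne hm2]

variable (O : ValuationSubring F) [IsDiscreteValuationRing O]

/-- the case of integral entries -/
lemma symM_mem_of_sum_integral (f : Fin d → Fˣ) (X : Finset (Fin d))
    (h1 : ∀ m ∈ X, O.valuation (f m : F) ≤ 1)
    (h2 : O.valuation (1 - ∑ m ∈ X, (f m : F)) < 1) : symM f ∈ unrM O d := by
  set η : F := 1 - ∑ m ∈ X, (f m : F) with hη
  -- there is an entry which is a unit
  have hex : ∃ j ∈ X, O.valuation (f j : F) = 1 := by
    by_contra hcon
    push Not at hcon
    have h3 : O.valuation (∑ m ∈ X, (f m : F)) < 1 :=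
      O.valuation.map_sum_lt one_ne_zero fun m hm => lt_of_le_of_ne (h1 m hm) (hcon m hm)
    have h4 : O.valuation (η + ∑ m ∈ X, (f m : F)) < 1 :=
      lt_of_le_of_lt (O.valuation.map_add _ _) (max_lt h2 h3)
    rw [hη, sub_add_cancel, map_one] at h4
    exact lt_irrefl _ h4
  obtain ⟨j, hj, hjv⟩ := hex
  have hg : O.valuation ((f j : F) + η) = 1 := by
    have h3 := O.valuation.map_add_eq_of_lt_left (x := (f j : F)) (y := η) (by rw [hjv]; exact h2)
    rw [h3, hjv]
  have hg0 : (f j : F) + η ≠ 0 := by
    intro h0
    rw [h0, map_zero] at hg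
    exact zero_ne_one hg
  set g : Fˣ := Units.mk0 _ hg0 with hgdef
  have e : f = Function.update f j (g * (f j / g)) := by
    rw [mul_div_cancel]
    exact (Function.update_eq_self _ _).symm
  rw [e, symM_update_mul]
  refine Submodule.add_mem _ ?_ ?_
  · have h3 : symM (Function.update f j g) = 0 := by
      refine symM_steinberg_sum X.card _ X rfl ?_
      rw [← Finset.add_sum_erase _ _ hj, Function.update_self]
      have h4 : ∑ m ∈ X.erase j, ((Function.update f j g m : Fˣ) : F) =
          ∑ m ∈ X.erase j, (f m : F) := by
        refine Finset.sum_congr rfl fun m hm => ?_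
        rw [Function.update_of_ne (Finset.ne_of_mem_erase hm)]
      rw [h4]
      have h5 := Finset.add_sum_erase X (fun m => (f m : F)) hj
      rw [hgdef, Units.val_mk0, hη, ← h5]
      ring
    rw [h3]
    exact Submodule.zero_mem _
  · refine symM_mem_of_sub_one O _ j ?_
    rw [Function.update_self, Units.val_div_eq_div_val]
    have h3 : (f j : F) / (g : F) - 1 = - (η / (g : F)) := by
      have : (g : F) ≠ 0 := g.ne_zero
      field_simp
      rw [hgdef, Units.val_mk0]
      ring
    have h4 : O.valuation (g : F) = 1 := hg
    rw [h3, Valuation.map_neg, map_div₀, h4, div_one]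
    exact h2

/-- the reciprocal change of entries -/
lemma symM_reciprocal (f : Fin d → Fˣ) (b : Fin d) (Y : Finset (Fin d)) (hb : b ∉ Y) :
    symM (fun m => if m = b then (f b)⁻¹ else if m ∈ Y then f m / (- f b) else f m) =
      - symM f := by
  induction Y using Finset.induction_on with
  | empty =>
    have h1 : (fun m => if m = b then (f b)⁻¹ else if m ∈ (∅ : Finset (Fin d)) then
        f m / (- f b) else f m) = Function.update f b (f b)⁻¹ := by
      funext m
      by_cases hm : m = b
      · subst hm
        simp
      · simp [hm]
    rw [h1, symM_update_inv, Function.update_eq_self]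
  | insert y Y hy ih =>
    have hby : y ≠ b := by
      rintro rfl
      exact hb (Finset.mem_insert_self _ _)
    have hbY : b ∉ Y := fun h => hb (Finset.mem_insert_of_mem h)
    rw [← ih hbY]
    set g : Fin d → Fˣ := fun m => if m = b then (f b)⁻¹ else if m ∈ Y then f m / (- f b)
      else f m with hg
    have h1 : (fun m => if m = b then (f b)⁻¹ else if m ∈ insert y Y then
        f m / (- f b) else f m) = Function.update g y (f y / (- f b)) := by
      funext m
      by_cases hm : m = y
      · subst hm
        simp [hby]
      · rw [Function.update_of_ne hm, hg]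
        simp [hm]
    have h2 : Function.update g y (f y) = g := by
      conv_rhs => rw [← Function.update_eq_self y g]
      congr 1
      rw [hg]
      simp [hby, hy]
    rw [h1, symM_update_div, h2]
    have h3 : symM (Function.update g y (- f b)) = 0 := by
      have h4 : symM (Function.update (Function.update g b (f b)) y (- f b)) = 0 := by
        refine symM_pair_neg _ hby ?_
        rw [Function.update_self, Function.update_of_ne hby.symm, Function.update_self]
      have h5 : Function.update g y (- f b) =
          Function.update (Function.update g y (- f b)) b (f b)⁻¹ := by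
        have h6 : g b = (f b)⁻¹ := by
          rw [hg]
          simp
        rw [Function.update_comm hby]
        rw [← h6, Function.update_eq_self]
      rw [h5, symM_update_inv, Function.update_comm hby, h4, neg_zero]
    rw [h3, sub_zero]

/-- A symbol in which the sum of some of the entries is `≡ 1` is unramified. -/
theorem symM_mem_of_sum (f : Fin d → Fˣ) (X : Finset (Fin d))
    (h2 : O.valuation (1 - ∑ m ∈ X, (f m : F)) < 1) : symM f ∈ unrM O d := by
  by_cases hint : ∀ m ∈ X, O.valuation (f m : F) ≤ 1
  · exact symM_mem_of_sum_integral O f X hint h2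
  push Not at hint
  obtain ⟨m0, hm0, hm0v⟩ := hint
  obtain ⟨b, hb, hbmax⟩ := Finset.exists_max_image X (fun m => O.valuation (f m : F)) ⟨m0, hm0⟩
  have hbv : 1 < O.valuation (f b : F) := lt_of_lt_of_le hm0v (hbmax m0 hm0)
  have hrec := symM_reciprocal f b (X.erase b) (Finset.notMem_erase b X)
  set g : Fin d → Fˣ := fun m => if m = b then (f b)⁻¹ else if m ∈ X.erase b then f m / (- f b)
      else f m with hg
  have hgb : g b = (f b)⁻¹ := by
    rw [hg]
    simp
  have hgm : ∀ m ∈ X.erase b, g m = f m / (- f b) := by
    intro m hm
    rw [hg]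
    simp only
    rw [if_neg (Finset.ne_of_mem_erase hm), if_pos hm]
  have hfb : (f b : F) ≠ 0 := (f b).ne_zero
  have hmem : symM g ∈ unrM O d := by
    refine symM_mem_of_sum_integral O g X ?_ ?_
    · intro m hm
      by_cases hmb : m = b
      · subst hmb
        rw [hgb, Units.val_inv_eq_inv_val, map_inv₀]
        exact inv_le_one_of_one_le₀ hbv.le
      · rw [hgm m (Finset.mem_erase.2 ⟨hmb, hm⟩), Units.val_div_eq_div_val, map_div₀,
          Units.val_neg, Valuation.map_neg]
        exact div_le_one_of_le₀ (hbmax m hm) zero_le
    · have h3 : ∑ m ∈ X, (g m : F) = (f b : F)⁻¹ - (∑ m ∈ X.erase b, (f m : F)) / f b := by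
        rw [← Finset.add_sum_erase _ _ hb, hgb, Units.val_inv_eq_inv_val, Finset.sum_div,
          sub_eq_add_neg, ← Finset.sum_neg_distrib]
        congr 1
        refine Finset.sum_congr rfl fun m hm => ?_
        rw [hgm m hm, Units.val_div_eq_div_val, Units.val_neg, div_neg]
      have h4 := Finset.add_sum_erase X (fun m => (f m : F)) hb
      have h5 : 1 - ∑ m ∈ X, (g m : F) = - ((1 - ∑ m ∈ X, (f m : F)) / f b) := by
        rw [h3, ← h4]
        field_simp
        ring
      rw [h5, Valuation.map_neg, map_div₀]
      exact (div_lt_one₀ (zero_lt_one.trans hbv)).2 (h2.trans hbv)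
  rw [hrec] at hmem
  simpa using Submodule.neg_mem _ hmem

end Pool.Agent.Helper11
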