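import Mathlib
import Pool.Agent.Helper11.KCirc

/-! The identity between two expressions of the symbol attached to a cycle. -/

namespace Pool.Agent.Helper11

section slice

variable {ι : Type*} [Fintype ι] [DecidableEq ι] {d : ℕ}

/-- reindexing of a double sum over tuples and values of one coordinate -/
lemma sum_update {V : Type*} [AddCommMonoid V] (l : Fin d) (g : (Fin d → ι) → V) :
    ∑ J : Fin d → ι, ∑ i : ι, g (Function.update J l i) = Fintype.card ι • ∑ J, g J := by
  have h1 : ∑ J : Fin d → ι, ∑ i : ι, g (Function.update J l i) =
      ∑ p : (Fin d → ι) × ι, g (Function.update p.1 l p.2) := by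
    rw [Fintype.sum_prod_type]
  let e : (Fin d → ι) × ι ≃ (Fin d → ι) × ι :=
    { toFun := fun p => (Function.update p.1 l p.2, p.1 l)
      invFun := fun p => (Function.update p.1 l p.2, p.1 l)
      left_inv := fun p => by simp
      right_inv := fun p => by simp }
  have h2 : ∑ p : (Fin d → ι) × ι, g (Function.update p.1 l p.2) =
      ∑ p : (Fin d → ι) × ι, g p.1 := Equiv.sum_comp e (fun p => g p.1)
  rw [h1, h2, Fintype.sum_prod_type]
  simp only [Finset.sum_const, Finset.card_univ, Finset.smul_sum]

/-- A sum against a function which does not depend on one of the coordinates vanishes. -/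
lemma slice_zero {k : Type*} [Field k] [CharZero k] {V : Type*} [AddCommGroup V] [Module k V]
    {z : (Fin d → ι) → k} (l : Fin d)
    (hz : ∀ J, ∑ i, z (Function.update J l i) = 0) (Φ : (Fin d → ι) → V)
    (hΦ : ∀ J i j, z (Function.update J l i) ≠ 0 → z (Function.update J l j) ≠ 0 →
      Φ (Function.update J l i) = Φ (Function.update J l j)) :
    ∑ J, z J • Φ J = 0 := by
  have h1 := sum_update l (fun J => z J • Φ J)
  have h2 : ∀ J, ∑ i, z (Function.update J l i) • Φ (Function.update J l i) = 0 := by
    intro J
    by_cases h : ∃ j, z (Function.update J l j) ≠ 0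
    · obtain ⟨j, hj⟩ := h
      have h3 : ∑ i, z (Function.update J l i) • Φ (Function.update J l i) =
          ∑ i, z (Function.update J l i) • Φ (Function.update J l j) := by
        refine Finset.sum_congr rfl fun i _ => ?_
        by_cases hi : z (Function.update J l i) = 0
        · rw [hi, zero_smul, zero_smul]
        · rw [hΦ J i j hi hj]
      rw [h3, ← Finset.sum_smul, hz, zero_smul]
    · push Not at h
      refine Finset.sum_eq_zero fun i _ => ?_
      rw [h i, zero_smul]
  rw [Finset.sum_eq_zero fun J _ => h2 J] at h1
  by_cases hc : Fintype.card ι = 0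
  · -- no indices
    have hι : IsEmpty ι := Fintype.card_eq_zero_iff.1 hc
    refine Finset.sum_eq_zero fun J _ => ?_
    exact (hι.false (J l)).elim
  · have h3 : (Fintype.card ι : k) • ∑ J, z J • Φ J = 0 := by
      rw [Nat.cast_smul_eq_nsmul]
      exact h1.symm
    exact (smul_eq_zero.1 h3).resolve_left (Nat.cast_ne_zero.2 hc)

end slice

section const

variable {K : Type*} [Field K] {d : ℕ}

/-- `u` is a quotient of two integers -/
def IsC (u : Kˣ) : Prop := ∃ (v w : Kˣ) (a b : ℤ), (v : K) = a ∧ (w : K) = b ∧ u = v / w

lemma IsC.of_int {u : Kˣ} {a : ℤ} (h : (u : K) = a) : IsC u :=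
  ⟨u, 1, a, 1, h, by simp, by simp⟩

lemma IsC.one : IsC (1 : Kˣ) := IsC.of_int (a := 1) (by simp)

lemma IsC.mul {u u' : Kˣ} (h : IsC u) (h' : IsC u') : IsC (u * u') := by
  obtain ⟨v, w, a, b, hv, hw, rfl⟩ := h
  obtain ⟨v', w', a', b', hv', hw', rfl⟩ := h'
  exact ⟨v * v', w * w', a * a', b * b', by push_cast; rw [hv, hv'], by push_cast; rw [hw, hw'],
    by rw [div_mul_div_comm]⟩

lemma IsC.inv {u : Kˣ} (h : IsC u) : IsC u⁻¹ := by
  obtain ⟨v, w, a, b, hv, hw, rfl⟩ := h
  exact ⟨w, v, b, a, hw, hv, by rw [inv_div]⟩

lemma IsC.div {u u' : Kˣ} (h : IsC u) (h' : IsC u') : IsC (u / u') := by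
  rw [div_eq_mul_inv]
  exact h.mul h'.inv

lemma symM_isC (f : Fin d → Kˣ) {i j : Fin d} (hij : i ≠ j) (hi : IsC (f i)) (hj : IsC (f j)) :
    symM f = 0 := by
  obtain ⟨v, w, a, b, hv, hw, hvw⟩ := hi
  obtain ⟨v', w', a', b', hv', hw', hvw'⟩ := hj
  obtain ⟨T, hT⟩ := exists_transfer f hij
  have h1 := hT (f i) (f j)
  rw [Function.update_eq_self, Function.update_eq_self, hvw, hvw'] at h1
  rw [← h1]
  simp only [div_eq_mul_inv, sym_mul_left, sym_mul_right, sym_inv_left, sym_inv_right,
    sym_int_int hv hv', sym_int_int hv hw', sym_int_int hw hv', sym_int_int hw hw', neg_zero,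
    add_zero, map_zero]

/-- multiplying an entry by a constant when another entry is a constant -/
lemma symM_update_mulC (f : Fin d → Kˣ) {i j : Fin d} (hij : i ≠ j) (hi : IsC (f i))
    {u v : Kˣ} (hv : IsC v) :
    symM (Function.update f j (u * v)) = symM (Function.update f j u) := by
  rw [symM_update_mul, symM_isC (Function.update f j v) hij
    (by rwa [Function.update_of_ne hij]) (by rwa [Function.update_self]), add_zero]

lemma symM_congrC {f g : Fin d → Kˣ} (i : Fin d) (hi : IsC (f i)) (hfg : f i = g i)
    (h : ∀ j, j ≠ i → IsC (f j / g j)) : symM f = symM g := by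
  have key : ∀ Y : Finset (Fin d), i ∉ Y →
      symM (fun m => if m ∈ Y then f m else g m) = symM g := by
    intro Y
    induction Y using Finset.induction_on with
    | empty =>
      intro _
      simp
    | insert y Y hy ih =>
      intro hiY
      have hyi : y ≠ i := by
        rintro rfl
        exact hiY (Finset.mem_insert_self _ _)
      have hiY' : i ∉ Y := fun h => hiY (Finset.mem_insert_of_mem h)
      rw [← ih hiY']
      set F : Fin d → Kˣ := fun m => if m ∈ Y then f m else g m with hF
      have h1 : (fun m => if m ∈ insert y Y then f m else g m) =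
          Function.update F y (g y * (f y / g y)) := by
        funext m
        by_cases hm : m = y
        · subst hm
          simp
        · rw [Function.update_of_ne hm, hF]
          simp [hm]
      have h2 : F i = f i := by
        rw [hF]
        simp [hiY', hfg]
      rw [h1, symM_update_mulC F hyi.symm (by rw [h2]; exact hi) (h y hyi)]
      congr 1
      have h3 : F y = g y := by
        rw [hF]
        simp [hy]
      rw [← h3, Function.update_eq_self]
  rw [← key (Finset.univ.erase i) (Finset.notMem_erase i _)]
  congr 1
  funext m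
  by_cases hm : m = i
  · subst hm
    simp [hfg]
  · simp [hm]

/-- dividing some of the entries by the same constant -/
lemma symM_divC (h : Fin d → Kˣ) {κ : Kˣ} (hκ : IsC κ) (Y : Finset (Fin d)) :
    symM (fun m => if m ∈ Y then h m / κ else h m) =
      symM h - ∑ l ∈ Y, symM (Function.update h l κ) := by
  induction Y using Finset.induction_on with
  | empty => simp
  | insert y Y hy ih =>
    set F : Fin d → Kˣ := fun m => if m ∈ Y then h m / κ else h m with hF
    have h1 : (fun m => if m ∈ insert y Y then h m / κ else h m) =
        Function.update F y (h y / κ) := by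
      funext m
      by_cases hm : m = y
      · subst hm
        simp
      · rw [Function.update_of_ne hm, hF]
        simp [hm]
    have h2 : F y = h y := by
      rw [hF]
      simp [hy]
    rw [h1, symM_update_div, ← h2, Function.update_eq_self, ih, Finset.sum_insert hy]
    have h3 : symM (Function.update F y κ) = symM (Function.update h y κ) := by
      refine symM_congrC y (by rwa [Function.update_self]) (by simp) fun j hj => ?_
      rw [Function.update_of_ne hj, Function.update_of_ne hj, hF]
      simp only
      split_ifs
      · rw [div_right_comm, div_self', one_div]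
        exact hκ.inv
      · rw [div_self']
        exact IsC.one
    rw [h3]
    abel

end const

end Pool.Agent.Helper11
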