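import Mathlib
import Pool.Agent.Helper11.HCyc

/-! The identity between two expressions of the symbol attached to a cycle, continued. -/

namespace Pool.Agent.Helper11

variable {K : Type*} [Field K] {d : ℕ}

section pairs

variable (f g : Fin d → Kˣ)

/-- the tuple with the entries in `Y` divided by `g` -/
noncomputable def mixed (Y : Finset (Fin d)) : Fin d → Kˣ := fun k => if k ∈ Y then f k / g k else f k

lemma mixed_empty : mixed f g ∅ = f := by
  funext k
  simp [mixed]

lemma mixed_insert {Y : Finset (Fin d)} (y : Fin d) :
    mixed f g (insert y Y) = Function.update (mixed f g Y) y (f y / g y) := by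
  funext m
  by_cases hm : m = y
  · subst hm
    simp [mixed]
  · rw [Function.update_of_ne hm]
    simp [mixed, hm]

lemma mixed_of_notMem {Y : Finset (Fin d)} {y : Fin d} (hy : y ∉ Y) : mixed f g Y y = f y := by
  simp [mixed, hy]

variable {f g} {X : Finset (Fin d)}
  (htri : ∀ F : Fin d → Kˣ, ∀ y ∈ X, ∀ m ∈ X, ∀ k ∈ X, y ≠ m → y ≠ k → m ≠ k →
    F y = g y → F m = g m → F k = g k → symM F = 0)

include htri

lemma mixed_two {Y : Finset (Fin d)} (hY : Y ⊆ X) {y m : Fin d} (hy : y ∈ X) (hm : m ∈ X)
    (hyY : y ∉ Y) (hmY : m ∉ Y) (hym : y ≠ m) :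
    symM (Function.update (Function.update (mixed f g Y) y (g y)) m (g m)) =
      symM (Function.update (Function.update f y (g y)) m (g m)) := by
  induction Y using Finset.induction_on with
  | empty => rw [mixed_empty]
  | insert k Y hk ih =>
    have hky : k ≠ y := by
      rintro rfl
      exact hyY (Finset.mem_insert_self _ _)
    have hkm : k ≠ m := by
      rintro rfl
      exact hmY (Finset.mem_insert_self _ _)
    rw [← ih ((Finset.subset_insert _ _).trans hY) (fun h => hyY (Finset.mem_insert_of_mem h))
      (fun h => hmY (Finset.mem_insert_of_mem h)), mixed_insert, Function.update_comm hky,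
      Function.update_comm hkm, symM_update_div]
    have h1 : symM (Function.update (Function.update (Function.update (mixed f g Y) y (g y))
        m (g m)) k (g k)) = 0 := by
      refine htri _ y hy m hm k (hY (Finset.mem_insert_self _ _)) hym hky.symm hkm.symm ?_ ?_ ?_
      · rw [Function.update_of_ne hky.symm, Function.update_of_ne hym, Function.update_self]
      · rw [Function.update_of_ne hkm.symm, Function.update_self]
      · rw [Function.update_self]
    rw [h1, sub_zero]
    have h2 : (Function.update (Function.update (mixed f g Y) y (g y)) m (g m)) k = f k := by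
      rw [Function.update_of_ne hkm, Function.update_of_ne hky, mixed_of_notMem _ _ hk]
    rw [← h2, Function.update_eq_self]

lemma mixed_one {Y : Finset (Fin d)} (hY : Y ⊆ X) {y : Fin d} (hy : y ∈ X) (hyY : y ∉ Y) :
    symM (Function.update (mixed f g Y) y (g y)) = symM (Function.update f y (g y)) -
      ∑ m ∈ Y, symM (Function.update (Function.update f y (g y)) m (g m)) := by
  induction Y using Finset.induction_on with
  | empty => rw [mixed_empty, Finset.sum_empty, sub_zero]
  | insert k Y hk ih =>
    have hky : k ≠ y := by
      rintro rfl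
      exact hyY (Finset.mem_insert_self _ _)
    have hyY' : y ∉ Y := fun h => hyY (Finset.mem_insert_of_mem h)
    have hYX : Y ⊆ X := (Finset.subset_insert _ _).trans hY
    rw [mixed_insert, Function.update_comm hky, symM_update_div, Finset.sum_insert hk]
    have h2 : (Function.update (mixed f g Y) y (g y)) k = f k := by
      rw [Function.update_of_ne hky, mixed_of_notMem _ _ hk]
    rw [← h2, Function.update_eq_self, ih hYX hyY',
      mixed_two htri hYX hy (hY (Finset.mem_insert_self _ _)) hyY' hk hky.symm]
    abel

lemma expand_pairs {P : Fin d → Fin d → KMQ K d}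
    (hP : ∀ m ∈ X, ∀ l ∈ X, m ≠ l →
      symM (Function.update (Function.update f m (g m)) l (g l)) = P m l + P l m)
    {Y : Finset (Fin d)} (hY : Y ⊆ X) :
    symM (mixed f g Y) = symM f - ∑ m ∈ Y, symM (Function.update f m (g m)) +
      ∑ m ∈ Y, ∑ l ∈ Y.erase m, P m l := by
  induction Y using Finset.induction_on with
  | empty => simp [mixed_empty]
  | insert y Y hy ih =>
    have hYX : Y ⊆ X := (Finset.subset_insert _ _).trans hY
    have hyX : y ∈ X := hY (Finset.mem_insert_self _ _)
    rw [mixed_insert, symM_update_div, ← mixed_of_notMem f g hy, Function.update_eq_self,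
      mixed_one htri hYX hyX hy, ih hYX, Finset.sum_insert hy, Finset.sum_insert hy,
      Finset.erase_insert hy]
    have h1 : ∑ m ∈ Y, ∑ l ∈ (insert y Y).erase m, P m l =
        ∑ m ∈ Y, P m y + ∑ m ∈ Y, ∑ l ∈ Y.erase m, P m l := by
      rw [← Finset.sum_add_distrib]
      refine Finset.sum_congr rfl fun m hm => ?_
      have hmy : m ≠ y := by
        rintro rfl
        exact hy hm
      rw [Finset.erase_insert_of_ne hmy.symm, Finset.sum_insert]
      exact fun h => hy (Finset.mem_of_mem_erase h)
    have h2 : ∑ m ∈ Y, symM (Function.update (Function.update f y (g y)) m (g m)) =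
        ∑ m ∈ Y, P y m + ∑ m ∈ Y, P m y := by
      rw [← Finset.sum_add_distrib]
      refine Finset.sum_congr rfl fun m hm => ?_
      exact hP y hyX m (hYX hm) (by
        rintro rfl
        exact hy hm)
    rw [h1, h2]
    abel

end pairs

section circuit

lemma sym_isC {a b : Kˣ} (ha : IsC a) (hb : IsC b) : sym a b = 0 := by
  obtain ⟨v, w, x, y, hv, hw, rfl⟩ := ha
  obtain ⟨v', w', x', y', hv', hw', rfl⟩ := hb
  simp only [div_eq_mul_inv, sym_mul_left, sym_mul_right, sym_inv_left, sym_inv_right,
    sym_int_int hv hv', sym_int_int hv hw', sym_int_int hw hv', sym_int_int hw hw', neg_zero,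
    add_zero]

lemma sym_ratio (e : Kˣ) {a b : Kˣ} (ha : IsC a) (hb : IsC b) :
    sym (e / a) (e / b) = sym e (a / b) := by
  simp only [div_eq_mul_inv, sym_mul_left, sym_mul_right, sym_inv_left, sym_inv_right,
    sym_isC ha hb, sym_self]
  rw [sym_antisymm a e]
  abel

/-- three entries `e / a`, `e / b`, `e / c` -/
lemma symM_triple (F : Fin d → Kˣ) {y m k : Fin d} (hym : y ≠ m) (hyk : y ≠ k) (hmk : m ≠ k)
    {e a b c : Kˣ} (ha : IsC a) (hb : IsC b) (hc : IsC c) (hy : F y = e / a) (hm : F m = e / b)
    (hk : F k = e / c) : symM F = 0 := by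
  obtain ⟨T, hT⟩ := exists_transfer F hym
  have h1 := hT (F y) (F m)
  rw [Function.update_eq_self, Function.update_eq_self, hy, hm, sym_ratio e ha hb, hT] at h1
  rw [← h1]
  have h2 : symM (Function.update (Function.update F y e) m (a / b)) =
      symM (Function.update (Function.update (Function.update F y e) m (a / b)) k e) := by
    refine symM_congrC m (by rw [Function.update_self]; exact ha.div hb) ?_ fun j hj => ?_
    · rw [Function.update_of_ne hmk, Function.update_self]
    · by_cases hjk : j = k
      · subst hjk
        rw [Function.update_self, Function.update_of_ne hj, Function.update_of_ne hyk.symm, hk,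
          div_right_comm, div_self', one_div]
        exact hc.inv
      · rw [Function.update_of_ne hjk, div_self']
        exact IsC.one
  rw [h2]
  refine symM_pair_self _ hyk ?_
  rw [Function.update_of_ne hyk, Function.update_of_ne hym, Function.update_self,
    Function.update_self]

variable {ι : Type*} (D : (Fin d → ι) → ℤ) (δ : (Fin d → ι) → Kˣ) (ℓ : ι → Kˣ) (e : ι)

/-- the symbol with `L_e` in position `m` and `w` in position `l` -/
noncomputable def Gs (J : Fin d → ι) (m l : Fin d) (w : Kˣ) : KMQ K d :=
  symM (Function.update (Function.update (fun k => ℓ (J k)) m (ℓ e)) l w)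

variable {D δ ℓ e}

lemma Gs_swap (J : Fin d → ι) {m l : Fin d} (hml : m ≠ l) (w : Kˣ) :
    Gs ℓ e J m l w = - Gs ℓ e J l m w := by
  unfold Gs
  rw [symM_swap _ hml, Function.update_comm hml]

lemma Gs_mul (J : Fin d → ι) (m l : Fin d) (w w' : Kˣ) :
    Gs ℓ e J m l (w * w') = Gs ℓ e J m l w + Gs ℓ e J m l w' := by
  unfold Gs
  rw [symM_update_mul]

lemma Gs_div (J : Fin d → ι) (m l : Fin d) (w w' : Kˣ) :
    Gs ℓ e J m l (w / w') = Gs ℓ e J m l w - Gs ℓ e J m l w' := by
  unfold Gs
  rw [symM_update_div]

variable (hδ : ∀ J, IsC (δ J))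

include hδ

/-- the expansion of one term -/
lemma term_expand (J : Fin d → ι) (X : Finset (Fin d)) :
    symM (mixed (fun k => ℓ (J k) / δ J) (fun m => ℓ e / δ (Function.update J m e)) X) =
      symM (fun k => ℓ (J k) / δ J) -
      ∑ m ∈ X, (symM (Function.update (fun k => ℓ (J k)) m (ℓ e / δ (Function.update J m e))) -
        ∑ l ∈ Finset.univ.erase m, Gs ℓ e J m l (δ J)) +
      ∑ m ∈ X, ∑ l ∈ X.erase m, Gs ℓ e J m l (δ (Function.update J m e)) := by
  set f : Fin d → Kˣ := fun k => ℓ (J k) / δ J with hf
  set g : Fin d → Kˣ := fun m => ℓ e / δ (Function.update J m e) with hg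
  have htri : ∀ F : Fin d → Kˣ, ∀ y ∈ X, ∀ m ∈ X, ∀ k ∈ X, y ≠ m → y ≠ k → m ≠ k →
      F y = g y → F m = g m → F k = g k → symM F = 0 := by
    intro F y _ m _ k _ hym hyk hmk h1 h2 h3
    exact symM_triple F hym hyk hmk (hδ _) (hδ _) (hδ _) h1 h2 h3
  have hP : ∀ m ∈ X, ∀ l ∈ X, m ≠ l →
      symM (Function.update (Function.update f m (g m)) l (g l)) =
        Gs ℓ e J m l (δ (Function.update J m e)) + Gs ℓ e J l m (δ (Function.update J l e)) := by
    intro m _ l _ hml
    obtain ⟨T, hT⟩ := exists_transfer f hml
    rw [← hT, hg]
    simp only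
    rw [sym_ratio _ (hδ _) (hδ _), hT, Gs_swap J hml.symm, ← sub_eq_add_neg, ← Gs_div]
    unfold Gs
    refine symM_congrC l (by rw [Function.update_self]; exact (hδ _).div (hδ _))
      (by simp) fun j hj => ?_
    rw [Function.update_of_ne hj, Function.update_of_ne hj]
    by_cases hjm : j = m
    · subst hjm
      rw [Function.update_self, Function.update_self, div_self']
      exact IsC.one
    · rw [Function.update_of_ne hjm, Function.update_of_ne hjm, hf]
      simp only
      rw [div_right_comm, div_self', one_div]
      exact (hδ J).inv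
  rw [expand_pairs htri hP (Finset.Subset.refl X)]
  congr 2
  refine Finset.sum_congr rfl fun m _ => ?_
  have h1 := symM_divC (Function.update (fun k => ℓ (J k)) m (g m)) (hδ J) (Finset.univ.erase m)
  have h2 : (fun k => if k ∈ Finset.univ.erase m then
      Function.update (fun k => ℓ (J k)) m (g m) k / δ J else
      Function.update (fun k => ℓ (J k)) m (g m) k) = Function.update f m (g m) := by
    funext k
    by_cases hk : k = m
    · subst hk
      simp
    · simp [hk, hf]
  rw [h2] at h1
  rw [h1]
  congr 1
  refine Finset.sum_congr rfl fun l hl => ?_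
  have hlm : l ≠ m := Finset.ne_of_mem_erase hl
  unfold Gs
  refine symM_congrC l (by rw [Function.update_self]; exact hδ J) (by simp) fun j hj => ?_
  rw [Function.update_of_ne hj, Function.update_of_ne hj]
  by_cases hjm : j = m
  · subst hjm
    rw [Function.update_self, Function.update_self, hg]
    simp only
    rw [div_right_comm, div_self', one_div]
    exact (hδ _).inv
  · rw [Function.update_of_ne hjm, Function.update_of_ne hjm, div_self']
    exact IsC.one

variable [Fintype ι] [DecidableEq ι] (hδD : ∀ J, D J ≠ 0 → (δ J : K) = D J)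
  (hD : ∀ (J : Fin d → ι) (l m : Fin d) (i e : ι), m ≠ l → D (Function.update J l e) = 0 →
    D J * D (Function.update (Function.update J l i) m e) =
      D (Function.update J l i) * D (Function.update J m e))
  {z : (Fin d → ι) → ℚ} (hz0 : ∀ J, D J = 0 → z J = 0)
  (hz : ∀ J m, ∑ k, z (Function.update J m k) = 0)

include hδD hD hz0 hz

/-- The identity. -/
theorem cycle_identity :
    ∑ J, z J • symM (fun k => ℓ (J k) / δ J) =
      ∑ J, z J • symM (mixed (fun k => ℓ (J k) / δ J)
        (fun m => ℓ e / δ (Function.update J m e))
        (Finset.univ.filter fun m => D (Function.update J m e) ≠ 0)) := by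
  set X : (Fin d → ι) → Finset (Fin d) := fun J =>
    Finset.univ.filter fun m => D (Function.update J m e) ≠ 0 with hX
  have hmem : ∀ J m, m ∈ X J ↔ D (Function.update J m e) ≠ 0 := by
    intro J m
    simp [hX]
  -- the terms of first kind vanish
  have hA : ∑ J, z J • ∑ m ∈ X J,
      symM (Function.update (fun k => ℓ (J k)) m (ℓ e / δ (Function.update J m e))) = 0 := by
    have h1 : ∀ J, z J • ∑ m ∈ X J,
        symM (Function.update (fun k => ℓ (J k)) m (ℓ e / δ (Function.update J m e))) =
        ∑ m, z J • (if D (Function.update J m e) ≠ 0 then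
          symM (Function.update (fun k => ℓ (J k)) m (ℓ e / δ (Function.update J m e)))
          else 0) := by
      intro J
      rw [← Finset.smul_sum, Finset.sum_filter]
    rw [Finset.sum_congr rfl fun J _ => h1 J, Finset.sum_comm]
    refine Finset.sum_eq_zero fun m _ => ?_
    refine slice_zero m (fun J => hz J m) _ fun J i j _ _ => ?_
    simp only [Function.update_idem]
    have h2 : ∀ i, Function.update (fun k => ℓ (Function.update J m i k)) m
        (ℓ e / δ (Function.update J m e)) =
        Function.update (fun k => ℓ (J k)) m (ℓ e / δ (Function.update J m e)) := by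
      intro i
      funext k
      by_cases hk : k = m
      · subst hk
        simp
      · simp [hk]
    rw [h2, h2]
  -- the terms of the third kind
  have hB : ∀ m l : Fin d, l ≠ m → ∑ J, z J • (if D (Function.update J m e) ≠ 0 then
      Gs ℓ e J m l (δ (Function.update J m e)) else 0) = 0 := by
    intro m l hlm
    refine slice_zero m (fun J => hz J m) _ fun J i j _ _ => ?_
    simp only [Function.update_idem]
    have h2 : ∀ i, Gs ℓ e (Function.update J m i) m l (δ (Function.update J m e)) =
        Gs ℓ e J m l (δ (Function.update J m e)) := by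
      intro i
      unfold Gs
      congr 1
      funext k
      by_cases hk : k = l
      · subst hk
        simp
      · rw [Function.update_of_ne hk, Function.update_of_ne hk]
        by_cases hkm : k = m
        · subst hkm
          simp
        · simp [hkm]
    rw [h2, h2]
  -- the mixed terms
  have hC : ∀ m l : Fin d, l ≠ m → ∑ J, z J • (if D (Function.update J m e) ≠ 0 ∧
      D (Function.update J l e) = 0 then
      Gs ℓ e J m l (δ (Function.update J m e) / δ J) else 0) = 0 := by
    intro m l hlm
    refine slice_zero l (fun J => hz J l) _ fun J i j hi hj => ?_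
    have hDi : D (Function.update J l i) ≠ 0 := fun h => hi (hz0 _ h)
    have hDj : D (Function.update J l j) ≠ 0 := fun h => hj (hz0 _ h)
    simp only [Function.update_idem]
    by_cases hl : D (Function.update J l e) = 0
    · have h3 := hD (Function.update J l i) l m j e hlm.symm (by rwa [Function.update_idem])
      rw [Function.update_idem] at h3
      -- equivalence of the conditions
      have h4 : D (Function.update (Function.update J l i) m e) ≠ 0 ↔
          D (Function.update (Function.update J l j) m e) ≠ 0 := by
        constructor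
        · intro h5 h6
          rw [h6, mul_zero] at h3
          exact (mul_ne_zero hDj h5) h3.symm
        · intro h5 h6
          rw [h6, mul_zero] at h3
          exact (mul_ne_zero hDi h5) h3
      by_cases h5 : D (Function.update (Function.update J l i) m e) ≠ 0
      · have h6 := h4.1 h5
        rw [if_pos ⟨h5, hl⟩, if_pos ⟨h6, hl⟩]
        have h7 : δ (Function.update (Function.update J l i) m e) / δ (Function.update J l i) =
            δ (Function.update (Function.update J l j) m e) / δ (Function.update J l j) := by
          rw [div_eq_div_iff_mul_eq_mul]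
          ext
          rw [Units.val_mul, Units.val_mul, hδD _ h5, hδD _ h6, hδD _ hDi, hδD _ hDj]
          have h8 := congrArg (fun k : ℤ => (k : K)) h3
          simp only [Int.cast_mul] at h8
          rw [mul_comm ((D (Function.update (Function.update J l i) m e) : ℤ) : K),
            mul_comm ((D (Function.update (Function.update J l j) m e) : ℤ) : K)]
          exact h8.symm
        rw [h7]
        unfold Gs
        congr 1
        funext k
        by_cases hk : k = l
        · subst hk
          simp
        · rw [Function.update_of_ne hk, Function.update_of_ne hk]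
          by_cases hkm : k = m
          · subst hkm
            simp
          · simp [hkm, hk]
      · have h6 : ¬ D (Function.update (Function.update J l j) m e) ≠ 0 := fun h => h5 (h4.2 h)
        rw [if_neg (fun h => h5 h.1), if_neg (fun h => h6 h.1)]
    · rw [if_neg (fun h => hl h.2), if_neg (fun h => hl h.2)]
  -- assembling
  have hterm : ∀ J, z J • symM (mixed (fun k => ℓ (J k) / δ J)
        (fun m => ℓ e / δ (Function.update J m e)) (X J)) =
      z J • symM (fun k => ℓ (J k) / δ J) -
      z J • ∑ m ∈ X J,
        symM (Function.update (fun k => ℓ (J k)) m (ℓ e / δ (Function.update J m e))) +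
      (z J • ∑ m ∈ X J, ∑ l ∈ Finset.univ.erase m, Gs ℓ e J m l (δ J) +
      z J • ∑ m ∈ X J, ∑ l ∈ (X J).erase m, Gs ℓ e J m l (δ (Function.update J m e))) := by
    intro J
    rw [term_expand hδ J (X J), ← smul_sub, ← smul_add, ← smul_add, Finset.sum_sub_distrib]
    congr 1
    abel
  rw [Finset.sum_congr rfl fun J _ => hterm J, Finset.sum_add_distrib, Finset.sum_sub_distrib, hA,
    sub_zero, left_eq_add]
  -- the remaining sum
  have h1 : ∀ J, z J • ∑ m ∈ X J, ∑ l ∈ Finset.univ.erase m, Gs ℓ e J m l (δ J) +
      z J • ∑ m ∈ X J, ∑ l ∈ (X J).erase m, Gs ℓ e J m l (δ (Function.update J m e)) =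
      ∑ m, ∑ l ∈ Finset.univ.erase m, z J • ((if D (Function.update J m e) ≠ 0 then
        Gs ℓ e J m l (δ (Function.update J m e)) else 0) -
        (if D (Function.update J m e) ≠ 0 ∧ D (Function.update J l e) = 0 then
          Gs ℓ e J m l (δ (Function.update J m e) / δ J) else 0)) := by
    intro J
    -- the antisymmetric part vanishes
    have hanti : ∑ m ∈ X J, ∑ l ∈ (X J).erase m, Gs ℓ e J m l (δ J) = 0 := by
      have h2 : ∑ m ∈ X J, ∑ l ∈ (X J).erase m, Gs ℓ e J m l (δ J) =
          ∑ m ∈ X J, ∑ l ∈ X J, if m ≠ l then Gs ℓ e J m l (δ J) else 0 := by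
        refine Finset.sum_congr rfl fun m _ => ?_
        rw [← Finset.sum_filter]
        refine Finset.sum_congr ?_ fun _ _ => rfl
        ext l
        simp only [Finset.mem_erase, Finset.mem_filter]
        constructor
        · rintro ⟨a, b⟩
          exact ⟨b, a.symm⟩
        · rintro ⟨a, b⟩
          exact ⟨b.symm, a⟩
      have h3 : ∑ m ∈ X J, ∑ l ∈ X J, (if m ≠ l then Gs ℓ e J m l (δ J) else 0) =
          - ∑ m ∈ X J, ∑ l ∈ X J, (if m ≠ l then Gs ℓ e J m l (δ J) else 0) := by
        conv_lhs => rw [Finset.sum_comm]
        rw [← Finset.sum_neg_distrib]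
        refine Finset.sum_congr rfl fun m _ => ?_
        rw [← Finset.sum_neg_distrib]
        refine Finset.sum_congr rfl fun l _ => ?_
        by_cases hml : m = l
        · subst hml
          simp
        · rw [if_pos (Ne.symm hml), if_pos hml, Gs_swap J (Ne.symm hml)]
      rw [h2]
      have h4 : (2 : ℚ) • (∑ m ∈ X J, ∑ l ∈ X J, (if m ≠ l then Gs ℓ e J m l (δ J) else 0)) =
          0 := by
        rw [two_smul]
        nth_rewrite 2 [h3]
        exact add_neg_cancel _
      exact (smul_eq_zero.1 h4).resolve_left (by norm_num)
    have hsplit : ∀ (m : Fin d) (w : Fin d → Kˣ), ∑ l ∈ Finset.univ.erase m, Gs ℓ e J m l (w m) =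
        ∑ l ∈ (X J).erase m, Gs ℓ e J m l (w m) +
        ∑ l ∈ Finset.univ.erase m, if D (Function.update J l e) = 0 then
          Gs ℓ e J m l (w m) else 0 := by
      intro m w
      rw [← Finset.sum_filter, ← Finset.sum_filter_add_sum_filter_not (Finset.univ.erase m)
        (fun l => D (Function.update J l e) ≠ 0)]
      congr 1
      · refine Finset.sum_congr ?_ fun _ _ => rfl
        ext l
        simp only [Finset.mem_erase, Finset.mem_filter, hmem, Finset.mem_univ, and_true]
      · refine Finset.sum_congr ?_ fun _ _ => rfl
        ext l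
        simp only [Finset.mem_erase, Finset.mem_filter, Finset.mem_univ, and_true, not_not]
    have h5 : ∑ m ∈ X J, ∑ l ∈ Finset.univ.erase m, Gs ℓ e J m l (δ J) =
        ∑ m ∈ X J, ∑ l ∈ Finset.univ.erase m, if D (Function.update J l e) = 0 then
          Gs ℓ e J m l (δ J) else 0 := by
      rw [Finset.sum_congr rfl fun m _ => hsplit m (fun _ => δ J), Finset.sum_add_distrib, hanti,
        zero_add]
    have h6 : ∑ m ∈ X J, ∑ l ∈ (X J).erase m, Gs ℓ e J m l (δ (Function.update J m e)) =
        ∑ m ∈ X J, ∑ l ∈ Finset.univ.erase m, Gs ℓ e J m l (δ (Function.update J m e)) -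
        ∑ m ∈ X J, ∑ l ∈ Finset.univ.erase m, if D (Function.update J l e) = 0 then
          Gs ℓ e J m l (δ (Function.update J m e)) else 0 := by
      rw [eq_sub_iff_add_eq, ← Finset.sum_add_distrib]
      refine Finset.sum_congr rfl fun m _ => ?_
      exact (hsplit m (fun m => δ (Function.update J m e))).symm
    rw [h5, h6, ← smul_add]
    have h7 : ∑ m ∈ X J, ∑ l ∈ Finset.univ.erase m, (if D (Function.update J l e) = 0 then
          Gs ℓ e J m l (δ J) else 0) +
        (∑ m ∈ X J, ∑ l ∈ Finset.univ.erase m, Gs ℓ e J m l (δ (Function.update J m e)) -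
        ∑ m ∈ X J, ∑ l ∈ Finset.univ.erase m, if D (Function.update J l e) = 0 then
          Gs ℓ e J m l (δ (Function.update J m e)) else 0) =
        ∑ m ∈ X J, ∑ l ∈ Finset.univ.erase m, (Gs ℓ e J m l (δ (Function.update J m e)) -
          if D (Function.update J l e) = 0 then
            Gs ℓ e J m l (δ (Function.update J m e) / δ J) else 0) := by
      rw [← Finset.sum_sub_distrib, ← Finset.sum_add_distrib]
      refine Finset.sum_congr rfl fun m _ => ?_
      rw [← Finset.sum_sub_distrib, ← Finset.sum_add_distrib]
      refine Finset.sum_congr rfl fun l _ => ?_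
      by_cases h8 : D (Function.update J l e) = 0
      · rw [if_pos h8, if_pos h8, if_pos h8, Gs_div]
        abel
      · rw [if_neg h8, if_neg h8, if_neg h8]
        abel
    rw [h7, hX]
    simp only
    rw [Finset.sum_filter, Finset.smul_sum]
    refine Finset.sum_congr rfl fun m _ => ?_
    by_cases h9 : D (Function.update J m e) ≠ 0
    · rw [if_pos h9, Finset.smul_sum]
      refine Finset.sum_congr rfl fun l _ => ?_
      rw [if_pos h9]
      by_cases h8 : D (Function.update J l e) = 0
      · rw [if_pos h8, if_pos ⟨h9, h8⟩]
      · rw [if_neg h8, if_neg (fun h => h8 h.2)]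
    · rw [if_neg h9, smul_zero]
      symm
      refine Finset.sum_eq_zero fun l _ => ?_
      rw [if_neg h9, if_neg (fun h => h9 h.1), sub_zero, smul_zero]
  rw [Finset.sum_congr rfl fun J _ => h1 J, Finset.sum_comm]
  refine Finset.sum_eq_zero fun m _ => ?_
  rw [Finset.sum_comm]
  refine Finset.sum_eq_zero fun l hl => ?_
  have hlm : l ≠ m := Finset.ne_of_mem_erase hl
  simp only [smul_sub]
  rw [Finset.sum_sub_distrib, hB m l hlm, hC m l hlm, sub_zero]

end circuit

end Pool.Agent.Helper11
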