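import Mathlib
import Pool.Agent.Helper11.KDefs

/-! Arrangements of hyperplanes `α i · x + β i` and the affine variety `c ∏ᵢ (α i · x + β i) = 1`. -/

namespace Pool.Agent.Helper11

/-- The determinant of the linear parts of the forms `J 0, ..., J n`. -/
def hypDet {n N : ℕ} (α : Fin N → Fin (n + 1) → ℤ) (J : Fin (n + 1) → Fin N) : ℤ :=
  Matrix.det (Matrix.of fun m => α (J m))

/-- `hypDet α J` times the value of the form `k` at the common zero of `J 0, ..., J n`. -/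
def hypVal {n N : ℕ} (α : Fin N → Fin (n + 1) → ℤ) (β : Fin N → ℤ) (J : Fin (n + 1) → Fin N)
    (k : Fin N) : ℤ :=
  hypDet α J * β k - ∑ m, hypDet α (Function.update J m k) * β (J m)

/-- The alternating functions on `(n+1)`-tuples which are supported on the bases and whose sum
over each coordinate vanishes. -/
def hypCycles {n N : ℕ} (α : Fin N → Fin (n + 1) → ℤ) :
    Submodule ℚ ((Fin (n + 1) → Fin N) → ℚ) where
  carrier := {z | (∀ J i j, i ≠ j → z (J ∘ Equiv.swap i j) = - z J) ∧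
    (∀ J, hypDet α J = 0 → z J = 0) ∧ ∀ J m, ∑ k, z (Function.update J m k) = 0}
  add_mem' := by
    rintro z w ⟨h1, h2, h3⟩ ⟨k1, k2, k3⟩
    refine ⟨fun J i j hij => ?_, fun J hJ => ?_, fun J m => ?_⟩
    · rw [Pi.add_apply, Pi.add_apply, h1 J i j hij, k1 J i j hij]
      ring
    · rw [Pi.add_apply, h2 J hJ, k2 J hJ, add_zero]
    · simp only [Pi.add_apply]
      rw [Finset.sum_add_distrib, h3, k3, add_zero]
  zero_mem' := ⟨fun _ _ _ _ => by simp, fun _ _ => rfl, fun _ _ => by simp⟩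
  smul_mem' := by
    rintro q z ⟨h1, h2, h3⟩
    refine ⟨fun J i j hij => ?_, fun J hJ => ?_, fun J m => ?_⟩
    · rw [Pi.smul_apply, Pi.smul_apply, h1 J i j hij, smul_neg]
    · rw [Pi.smul_apply, h2 J hJ, smul_zero]
    · simp only [Pi.smul_apply]
      rw [← Finset.smul_sum, h3, smul_zero]

/-- The polynomial `α i · x + β i`. -/
noncomputable def hypLin {n N : ℕ} (α : Fin N → Fin (n + 1) → ℤ) (β : Fin N → ℤ) (i : Fin N) :
    MvPolynomial (Fin (n + 1)) ℤ :=
  ∑ m, MvPolynomial.C (α i m) * MvPolynomial.X m + MvPolynomial.C (β i)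

/-- The polynomial `c ∏ᵢ (α i · x + β i) - 1`. -/
noncomputable def hypPoly {n N : ℕ} (α : Fin N → Fin (n + 1) → ℤ) (β : Fin N → ℤ) (c : ℤ) :
    MvPolynomial (Fin (n + 1)) ℤ :=
  MvPolynomial.C c * ∏ i, hypLin α β i - 1

/-- The ring `ℤ[x₀, ..., xₙ] / (c ∏ᵢ (α i · x + β i) - 1)`. -/
def HypRing {n N : ℕ} (α : Fin N → Fin (n + 1) → ℤ) (β : Fin N → ℤ) (c : ℤ) : Type :=
  MvPolynomial (Fin (n + 1)) ℤ ⧸ Ideal.span {hypPoly α β c}

noncomputable instance {n N : ℕ} (α : Fin N → Fin (n + 1) → ℤ) (β : Fin N → ℤ) (c : ℤ) :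
    CommRing (HypRing α β c) :=
  inferInstanceAs (CommRing (MvPolynomial (Fin (n + 1)) ℤ ⧸ Ideal.span {hypPoly α β c}))

/-- The function `α i · x + β i`. -/
noncomputable def hypForm {n N : ℕ} (α : Fin N → Fin (n + 1) → ℤ) (β : Fin N → ℤ) (c : ℤ)
    (i : Fin N) : HypRing α β c :=
  Ideal.Quotient.mk (Ideal.span {hypPoly α β c}) (hypLin α β i)

/-- The class `∑ z(J) {L_{J 0} / D_J, ..., L_{J n} / D_J}` in `K_{n+1}^M(R) ⊗ ℚ`. -/
noncomputable def cycleClass {R : Type} [CommRing R] {n N : ℕ} (L : Fin N → Rˣ)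
    (D : (Fin (n + 1) → Fin N) → Rˣ) (z : (Fin (n + 1) → Fin N) → ℚ) : KMQ R (n + 1) :=
  ∑ J, z J • symM fun m => L (J m) / D J

end Pool.Agent.Helper11
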