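import Mathlib
import Pool.Agent.Helper11.HDefs
import Pool.Agent.Helper11.HCyc2

/-! Linear algebra of arrangements and unramifiedness of the symbols attached to cycles. -/

namespace Pool.Agent.Helper11

open Finset

section lin

variable {n N : ℕ} (α : Fin N → Fin (n + 1) → ℤ) (β : Fin N → ℤ)

lemma hypDet_update (J : Fin (n + 1) → Fin N) (m : Fin (n + 1)) (k : Fin N) :
    hypDet α (Function.update J m k) =
      (Matrix.updateRow (Matrix.of fun m => α (J m)) m (α k)).det := by
  unfold hypDet
  congr 1
  ext i j
  by_cases hi : i = m
  · subst hi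
    simp
  · simp [hi]

/-- Cramer's rule for the linear parts. -/
lemma hyp_cramer (J : Fin (n + 1) → Fin N) (k : Fin N) (p : Fin (n + 1)) :
    hypDet α J * α k p = ∑ m, hypDet α (Function.update J m k) * α (J m) p := by
  have h1 := Matrix.mulVec_cramer (Matrix.of fun m => α (J m)).transpose (α k)
  have h2 := congrFun h1 p
  rw [Matrix.det_transpose] at h2
  rw [Pi.smul_apply, smul_eq_mul] at h2
  have h3 : hypDet α J = (Matrix.of fun m => α (J m)).det := rfl
  rw [h3, ← h2, Matrix.mulVec, dotProduct]
  refine Finset.sum_congr rfl fun m _ => ?_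
  rw [Matrix.cramer_transpose_apply, Matrix.transpose_apply, Matrix.of_apply, mul_comm]
  congr 1
  exact (hypDet_update α J m k).symm

/-- the same for the affine forms in a ring -/
lemma hyp_affine {S : Type*} [CommRing S] (x : Fin (n + 1) → S) (J : Fin (n + 1) → Fin N)
    (k : Fin N) :
    (hypDet α J : S) * (∑ p, (α k p : S) * x p + β k) =
      ∑ m, (hypDet α (Function.update J m k) : S) * (∑ p, (α (J m) p : S) * x p + β (J m)) +
        hypVal α β J k := by
  have h1 : ∀ p, (hypDet α J : S) * (α k p : S) =
      ∑ m, (hypDet α (Function.update J m k) : S) * (α (J m) p : S) := by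
    intro p
    have := congrArg (fun t : ℤ => (t : S)) (hyp_cramer α J k p)
    push_cast at this
    exact this
  have h2 : (hypVal α β J k : S) = (hypDet α J : S) * (β k : S) -
      ∑ m, (hypDet α (Function.update J m k) : S) * (β (J m) : S) := by
    unfold hypVal
    push_cast
    rfl
  rw [h2]
  simp only [mul_add, Finset.sum_add_distrib, Finset.mul_sum]
  have h3 : ∑ p, (hypDet α J : S) * ((α k p : S) * x p) =
      ∑ m, ∑ p, (hypDet α (Function.update J m k) : S) * ((α (J m) p : S) * x p) := by
    rw [Finset.sum_comm]
    refine Finset.sum_congr rfl fun p _ => ?_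
    rw [← mul_assoc, h1 p, Finset.sum_mul]
    refine Finset.sum_congr rfl fun m _ => ?_
    ring
  rw [h3]
  ring

lemma hypDet_comp_swap (J : Fin (n + 1) → Fin N) {i j : Fin (n + 1)} (hij : i ≠ j) :
    hypDet α (J ∘ Equiv.swap i j) = - hypDet α J := by
  unfold hypDet
  have h := Matrix.det_permute (Equiv.swap i j) (Matrix.of fun m => α (J m))
  rw [Equiv.Perm.sign_swap hij] at h
  have e : (Matrix.of fun m => α ((J ∘ Equiv.swap i j) m)) =
      (Matrix.of fun m => α (J m)).submatrix (Equiv.swap i j) id := rfl
  rw [e, h]
  simp

lemma hypDet_eq_zero {J : Fin (n + 1) → Fin N} {i j : Fin (n + 1)} (hij : i ≠ j)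
    (h : J i = J j) : hypDet α J = 0 := by
  unfold hypDet
  refine Matrix.det_zero_of_row_eq hij ?_
  funext p
  simp [h]

lemma hypDet_injective {J : Fin (n + 1) → Fin N} (h : hypDet α J ≠ 0) : Function.Injective J := by
  intro i j hij
  by_contra hne
  exact h (hypDet_eq_zero α hne hij)

/-- If `e` has no component along `J l` then its component along `J m` does not depend on `J l`. -/
lemma hyp_plucker (J : Fin (n + 1) → Fin N) (l m : Fin (n + 1)) (i e : Fin N) (hml : m ≠ l)
    (h : hypDet α (Function.update J l e) = 0) :
    hypDet α J * hypDet α (Function.update (Function.update J l i) m e) =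
      hypDet α (Function.update J l i) * hypDet α (Function.update J m e) := by
  set M : Matrix (Fin (n + 1)) (Fin (n + 1)) ℤ := Matrix.of fun m => α (Function.update J l i m)
    with hM
  have h1 : (hypDet α J) • α e = ∑ p, hypDet α (Function.update J p e) • α (J p) := by
    funext q
    rw [Pi.smul_apply, smul_eq_mul, hyp_cramer α J e q, Finset.sum_apply]
    rfl
  have h2 : hypDet α J * hypDet α (Function.update (Function.update J l i) m e) =
      (M.updateRow m (hypDet α J • α e)).det := by
    rw [hypDet_update, Matrix.det_updateRow_smul]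
  rw [h2, h1]
  have h3 : (M.updateRow m (∑ p, hypDet α (Function.update J p e) • α (J p))).det =
      ∑ p, hypDet α (Function.update J p e) * (M.updateRow m (α (J p))).det := by
    let L : (Fin (n + 1) → ℤ) →ₗ[ℤ] ℤ :=
      { toFun := fun v => (M.updateRow m v).det
        map_add' := fun u v => Matrix.det_updateRow_add M m u v
        map_smul' := fun c v => Matrix.det_updateRow_smul M m c v }
    have h5 : (M.updateRow m (∑ p, hypDet α (Function.update J p e) • α (J p))).det =
        L (∑ p, hypDet α (Function.update J p e) • α (J p)) := rfl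
    rw [h5, map_sum]
    refine Finset.sum_congr rfl fun p _ => ?_
    rw [map_smul, smul_eq_mul]
    rfl
  rw [h3, Finset.sum_eq_single m]
  · have h6 : M.updateRow m (α (J m)) = M := by
      have h7 : α (J m) = M m := by
        rw [hM]
        funext q
        simp [hml]
      rw [h7, Matrix.updateRow_eq_self]
    rw [h6, mul_comm]
    rfl
  · intro p _ hpm
    by_cases hpl : p = l
    · subst hpl
      rw [h, zero_mul]
    · have h6 : (M.updateRow m (α (J p))).det = 0 := by
        refine Matrix.det_zero_of_row_eq (i := m) (j := p) (Ne.symm hpm) ?_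
        funext q
        rw [Matrix.updateRow_self, Matrix.updateRow_ne hpm, hM]
        simp [hpl]
      rw [h6, mul_zero]
  · intro h'
    exact absurd (Finset.mem_univ m) h'

end lin

end Pool.Agent.Helper11
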