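import Mathlib
import Pool.Agent.Helper11.HLin

/-! Linear algebra of the graph of non-parallel pairs of lines. -/

namespace Pool.Agent.Helper11

open Finset

variable {N : ℕ} {α : Fin N → Fin 2 → ℤ}

lemma dt_eq (i j : Fin N) : hypDet α ![i, j] = α i 0 * α j 1 - α i 1 * α j 0 := by
  unfold hypDet
  rw [Matrix.det_fin_two]
  rfl

lemma dt_swap (i j : Fin N) : hypDet α ![i, j] = - hypDet α ![j, i] := by
  rw [dt_eq, dt_eq]
  ring

lemma dt_self (i : Fin N) : hypDet α ![i, i] = 0 := by
  rw [dt_eq]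
  ring

lemma dt_ne_symm {i j : Fin N} (h : hypDet α ![i, j] ≠ 0) : hypDet α ![j, i] ≠ 0 := by
  rw [dt_swap]
  exact neg_ne_zero.2 h

variable (hrk : ∀ i, ∃ j, hypDet α ![i, j] ≠ 0)

include hrk in
lemma dt_trans {i j k : Fin N} (h1 : hypDet α ![i, j] = 0) (h2 : hypDet α ![j, k] = 0) :
    hypDet α ![i, k] = 0 := by
  obtain ⟨l, hl⟩ := hrk j
  rw [dt_eq] at h1 h2 hl ⊢
  have h3 : α j 0 ≠ 0 ∨ α j 1 ≠ 0 := by
    by_contra hcon
    push Not at hcon
    apply hl
    rw [hcon.1, hcon.2]
    ring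
  rcases h3 with h3 | h3
  · apply mul_left_cancel₀ h3
    linear_combination (α i 0) * h2 + (α k 0) * h1
  · apply mul_left_cancel₀ h3
    linear_combination (α i 1) * h2 + (α k 1) * h1

section kernel

variable {F : Type*} [Field F] [LinearOrder F] [IsStrictOrderedRing F]

/-- the Laplacian of the graph of non-parallel pairs -/
def lap (α : Fin N → Fin 2 → ℤ) (F : Type*) [Field F] : (Fin N → F) →ₗ[F] (Fin N → F) where
  toFun x i := ∑ j ∈ univ.filter (fun j => hypDet α ![i, j] ≠ 0), (x i - x j)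
  map_add' x y := by
    funext i
    simp only [Pi.add_apply]
    rw [← Finset.sum_add_distrib]
    refine Finset.sum_congr rfl fun j _ => ?_
    ring
  map_smul' r x := by
    funext i
    simp only [Pi.smul_apply, smul_eq_mul, RingHom.id_apply]
    rw [Finset.mul_sum]
    refine Finset.sum_congr rfl fun j _ => ?_
    ring

lemma lap_apply (x : Fin N → F) (i : Fin N) :
    lap α F x i = ∑ j ∈ univ.filter (fun j => hypDet α ![i, j] ≠ 0), (x i - x j) := rfl

lemma lap_energy (x : Fin N → F) :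
    2 * ∑ i, x i * lap α F x i =
      ∑ i, ∑ j ∈ univ.filter (fun j => hypDet α ![i, j] ≠ 0), (x i - x j) ^ 2 := by
  have h1 : ∑ i, x i * lap α F x i =
      ∑ i, ∑ j, if hypDet α ![i, j] ≠ 0 then x i * (x i - x j) else 0 := by
    refine Finset.sum_congr rfl fun i _ => ?_
    rw [lap_apply, Finset.mul_sum, Finset.sum_filter]
  have h2 : ∑ i, x i * lap α F x i =
      ∑ i, ∑ j, if hypDet α ![i, j] ≠ 0 then x j * (x j - x i) else 0 := by
    rw [h1, Finset.sum_comm]
    refine Finset.sum_congr rfl fun i _ => Finset.sum_congr rfl fun j _ => ?_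
    by_cases h : hypDet α ![i, j] ≠ 0
    · rw [if_pos h, if_pos (dt_ne_symm h)]
    · rw [if_neg h, if_neg fun h' => h (dt_ne_symm h')]
  rw [two_mul]
  nth_rewrite 1 [h1]
  rw [h2, ← Finset.sum_add_distrib]
  refine Finset.sum_congr rfl fun i _ => ?_
  rw [← Finset.sum_add_distrib, Finset.sum_filter]
  refine Finset.sum_congr rfl fun j _ => ?_
  split_ifs
  · ring
  · ring

include hrk in
lemma lap_kernel {x : Fin N → F} (h : lap α F x = 0) (i j : Fin N) : x i = x j := by
  have h1 := lap_energy (α := α) x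
  rw [h] at h1
  simp only [Pi.zero_apply, mul_zero, Finset.sum_const_zero] at h1
  have h2 : ∀ i j, hypDet α ![i, j] ≠ 0 → x i = x j := by
    intro i j hij
    have h3 := (Finset.sum_eq_zero_iff_of_nonneg fun i _ =>
      Finset.sum_nonneg fun j _ => sq_nonneg _).1 h1.symm i (mem_univ i)
    have h4 := (Finset.sum_eq_zero_iff_of_nonneg fun j _ => sq_nonneg _).1 h3 j
      (by rw [mem_filter]; exact ⟨mem_univ _, hij⟩)
    exact sub_eq_zero.1 (pow_eq_zero_iff two_ne_zero |>.1 h4)
  by_cases hij : hypDet α ![i, j] ≠ 0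
  · exact h2 i j hij
  · obtain ⟨k, hk⟩ := hrk i
    have hjk : hypDet α ![j, k] ≠ 0 := by
      intro h0
      exact hk (dt_trans hrk (not_not.1 hij) h0)
    rw [h2 i k hk, h2 j k hjk]

lemma sum_lap (x : Fin N → F) : ∑ i, lap α F x i = 0 := by
  have h1 : ∑ i, lap α F x i = ∑ i, ∑ j, if hypDet α ![i, j] ≠ 0 then (x i - x j) else 0 := by
    refine Finset.sum_congr rfl fun i _ => ?_
    rw [lap_apply, Finset.sum_filter]
  have h2 : ∑ i, lap α F x i = - ∑ i, lap α F x i := by
    nth_rewrite 1 [h1]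
    rw [Finset.sum_comm, h1, ← Finset.sum_neg_distrib]
    refine Finset.sum_congr rfl fun i _ => ?_
    rw [← Finset.sum_neg_distrib]
    refine Finset.sum_congr rfl fun j _ => ?_
    by_cases h : hypDet α ![i, j] ≠ 0
    · rw [if_pos h, if_pos (dt_ne_symm h)]
      ring
    · rw [if_neg h, if_neg fun h' => h (dt_ne_symm h'), neg_zero]
  linarith

include hrk in
/-- solving the Laplace equation -/
theorem lap_solve (hN : 0 < N) {s : Fin N → F} (hs : ∑ i, s i = 0) : ∃ x, lap α F x = s := by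
  classical
  let Z : Submodule F (Fin N → F) := LinearMap.ker (∑ i, LinearMap.proj i : (Fin N → F) →ₗ[F] F)
  have hZ : ∀ x : Fin N → F, x ∈ Z ↔ ∑ i, x i = 0 := by
    intro x
    rw [LinearMap.mem_ker, LinearMap.sum_apply]
    rfl
  let T : Z →ₗ[F] Z := (lap α F).restrict fun x _ => (hZ _).2 (sum_lap x)
  have hinj : Function.Injective T := by
    rw [← LinearMap.ker_eq_bot, LinearMap.ker_eq_bot']
    intro x hx
    have h1 : lap α F x = 0 := congrArg Subtype.val hx
    have h2 := lap_kernel hrk h1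
    have h3 := (hZ x).1 x.2
    have h4 : ∀ i, (x : Fin N → F) i = (x : Fin N → F) ⟨0, hN⟩ := fun i => h2 _ _
    rw [Finset.sum_congr rfl fun i _ => h4 i, Finset.sum_const, Finset.card_univ,
      Fintype.card_fin, nsmul_eq_mul] at h3
    have h5 : (N : F) ≠ 0 := by
      exact_mod_cast hN.ne'
    apply Subtype.ext
    funext i
    rw [h4 i]
    exact (mul_eq_zero.1 h3).resolve_left h5
  obtain ⟨x, hx⟩ := (LinearMap.injective_iff_surjective.1 hinj) ⟨s, (hZ s).2 hs⟩
  exact ⟨x, congrArg Subtype.val hx⟩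

end kernel

end Pool.Agent.Helper11
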