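import Mathlib
import Pool.Agent.Helper11.CGraph

/-! The dimension of the space of cycles of a line arrangement. -/

namespace Pool.Agent.Helper11

open Finset

variable {N : ℕ} (α : Fin N → Fin 2 → ℤ)

/-- the edges of the graph of non-parallel pairs -/
abbrev CEdge : Type := {e : Fin N × Fin N // e.1 < e.2 ∧ hypDet α ![e.1, e.2] ≠ 0}

/-- the antisymmetric function attached to a function on the edges -/
noncomputable def eFun (f : CEdge α → ℚ) (i j : Fin N) : ℚ :=
  if h : i < j ∧ hypDet α ![i, j] ≠ 0 then f ⟨(i, j), h⟩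
  else if h : j < i ∧ hypDet α ![j, i] ≠ 0 then - f ⟨(j, i), h⟩ else 0

variable {α}

lemma eFun_anti (f : CEdge α → ℚ) (i j : Fin N) : eFun α f i j = - eFun α f j i := by
  unfold eFun
  by_cases h1 : i < j ∧ hypDet α ![i, j] ≠ 0
  · have h2 : ¬ (j < i ∧ hypDet α ![j, i] ≠ 0) := fun h => absurd h1.1 (not_lt.2 h.1.le)
    rw [dif_pos h1, dif_neg h2, dif_pos h1, neg_neg]
  · by_cases h2 : j < i ∧ hypDet α ![j, i] ≠ 0
    · rw [dif_neg h1, dif_pos h2, dif_pos h2]
    · rw [dif_neg h1, dif_neg h2, dif_neg h2, dif_neg h1, neg_zero]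

lemma eFun_par (f : CEdge α → ℚ) {i j : Fin N} (h : hypDet α ![i, j] = 0) :
    eFun α f i j = 0 := by
  unfold eFun
  have h1 : ¬ (i < j ∧ hypDet α ![i, j] ≠ 0) := fun h' => h'.2 h
  have h2 : ¬ (j < i ∧ hypDet α ![j, i] ≠ 0) := fun h' => by
    apply h'.2
    rw [dt_swap, h, neg_zero]
  rw [dif_neg h1, dif_neg h2]

lemma eFun_edge (f : CEdge α → ℚ) (e : CEdge α) : eFun α f e.1.1 e.1.2 = f e := by
  unfold eFun
  rw [dif_pos e.2]

/-- a function is recovered from its values on the edges -/
lemma eFun_of_anti {g : Fin N → Fin N → ℚ} (hg : ∀ i j, g i j = - g j i)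
    (h0 : ∀ i j, hypDet α ![i, j] = 0 → g i j = 0) (i j : Fin N) :
    eFun α (fun e => g e.1.1 e.1.2) i j = g i j := by
  unfold eFun
  by_cases h1 : i < j ∧ hypDet α ![i, j] ≠ 0
  · rw [dif_pos h1]
  · rw [dif_neg h1]
    by_cases h2 : j < i ∧ hypDet α ![j, i] ≠ 0
    · rw [dif_pos h2]
      simp only
      rw [hg i j]
    · rw [dif_neg h2]
      by_cases h3 : hypDet α ![i, j] = 0
      · rw [h0 i j h3]
      · have h4 : i = j := by
          by_contra hne
          rcases lt_or_gt_of_ne hne with h5 | h5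
          · exact h1 ⟨h5, h3⟩
          · exact h2 ⟨h5, dt_ne_symm h3⟩
        subst h4
        exact absurd (dt_self i) h3

/-- the row sums -/
noncomputable def rs (α : Fin N → Fin 2 → ℤ) : (CEdge α → ℚ) →ₗ[ℚ] (Fin N → ℚ) where
  toFun f i := ∑ k, eFun α f i k
  map_add' f g := by
    funext i
    simp only [Pi.add_apply]
    rw [← Finset.sum_add_distrib]
    refine Finset.sum_congr rfl fun k _ => ?_
    unfold eFun
    split_ifs
    · rfl
    · simp only [Pi.add_apply]
      ring
    · ring
  map_smul' r f := by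
    funext i
    simp only [Pi.smul_apply, smul_eq_mul, RingHom.id_apply]
    rw [Finset.mul_sum]
    refine Finset.sum_congr rfl fun k _ => ?_
    unfold eFun
    split_ifs
    · rfl
    · simp only [Pi.smul_apply, smul_eq_mul]
      ring
    · ring

lemma rs_apply (f : CEdge α → ℚ) (i : Fin N) : rs α f i = ∑ k, eFun α f i k := rfl

lemma sum_rs (f : CEdge α → ℚ) : ∑ i, rs α f i = 0 := by
  have h1 : ∑ i, rs α f i = - ∑ i, rs α f i := by
    simp only [rs_apply]
    nth_rewrite 1 [Finset.sum_comm]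
    rw [← Finset.sum_neg_distrib]
    refine Finset.sum_congr rfl fun i _ => ?_
    rw [← Finset.sum_neg_distrib]
    exact Finset.sum_congr rfl fun j _ => eFun_anti f j i
  linarith

section

variable (hrk : ∀ i, ∃ j, hypDet α ![i, j] ≠ 0) (hN : 0 < N)

include hrk hN in
lemma rs_surj {s : Fin N → ℚ} (hs : ∑ i, s i = 0) : ∃ f, rs α f = s := by
  obtain ⟨x, hx⟩ := lap_solve hrk hN hs
  refine ⟨fun e => (if hypDet α ![e.1.1, e.1.2] ≠ 0 then x e.1.1 - x e.1.2 else 0), ?_⟩
  funext i
  rw [rs_apply, ← hx, lap_apply, Finset.sum_filter]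
  refine Finset.sum_congr rfl fun k _ => ?_
  refine eFun_of_anti (g := fun i j => if hypDet α ![i, j] ≠ 0 then x i - x j else 0) ?_ ?_ i k
  · intro i j
    by_cases h : hypDet α ![i, j] ≠ 0
    · rw [if_pos h, if_pos (dt_ne_symm h)]
      ring
    · rw [if_neg h, if_neg fun h' => h (dt_ne_symm h'), neg_zero]
  · intro i j h
    simp [h]

include hN in
lemma finrank_sumZero :
    Module.finrank ℚ (LinearMap.ker (∑ i, LinearMap.proj i : (Fin N → ℚ) →ₗ[ℚ] ℚ)) + 1 = N := by
  set σ : (Fin N → ℚ) →ₗ[ℚ] ℚ := ∑ i, LinearMap.proj i with hσ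
  have h1 := σ.finrank_range_add_finrank_ker
  have h2 : LinearMap.range σ = ⊤ := by
    rw [LinearMap.range_eq_top]
    intro q
    refine ⟨Pi.single ⟨0, hN⟩ q, ?_⟩
    rw [hσ, LinearMap.sum_apply]
    simp [Finset.sum_pi_single']
  rw [h2, finrank_top, Module.finrank_self, Module.finrank_fin_fun] at h1
  omega

include hrk hN in
/-- the dimension of the space of cycles -/
theorem finrank_ker_rs : Module.finrank ℚ (LinearMap.ker (rs α)) + N =
    Fintype.card (CEdge α) + 1 := by
  have h1 := (rs α).finrank_range_add_finrank_ker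
  have h2 : LinearMap.range (rs α) =
      LinearMap.ker (∑ i, LinearMap.proj i : (Fin N → ℚ) →ₗ[ℚ] ℚ) := by
    ext s
    rw [LinearMap.mem_range, LinearMap.mem_ker, LinearMap.sum_apply]
    constructor
    · rintro ⟨f, rfl⟩
      exact sum_rs f
    · intro hs
      exact rs_surj hrk hN hs
  have h3 := finrank_sumZero hN
  rw [h2, Module.finrank_fintype_fun_eq_card] at h1
  omega

/-- the values of an element of `hypCycles` -/
lemma cyc_anti {z : (Fin 2 → Fin N) → ℚ} (hz : z ∈ hypCycles (n := 1) α) (i j : Fin N) :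
    z ![i, j] = - z ![j, i] := by
  have h1 := hz.1 ![j, i] 0 1 (by decide)
  have h2 : (![j, i] : Fin 2 → Fin N) ∘ Equiv.swap 0 1 = ![i, j] := by
    funext m
    fin_cases m <;> simp
  rw [h2] at h1
  exact h1

lemma cyc_sum {z : (Fin 2 → Fin N) → ℚ} (hz : z ∈ hypCycles (n := 1) α) (i : Fin N) :
    ∑ k, z ![i, k] = 0 := by
  have h1 := hz.2.2 ![i, i] 1
  have h2 : ∀ k, Function.update (![i, i] : Fin 2 → Fin N) 1 k = ![i, k] := by
    intro k
    funext m
    fin_cases m <;> simp
  simp only [h2] at h1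
  exact h1

lemma pair_eta (J : Fin 2 → Fin N) : ![J 0, J 1] = J := by
  funext m
  fin_cases m <;> rfl

/-- restriction to the edges -/
noncomputable def toEdge (α : Fin N → Fin 2 → ℤ) : hypCycles (n := 1) α →ₗ[ℚ] (CEdge α → ℚ) where
  toFun z e := (z : (Fin 2 → Fin N) → ℚ) ![e.1.1, e.1.2]
  map_add' _ _ := rfl
  map_smul' _ _ := rfl

lemma eFun_toEdge (z : hypCycles (n := 1) α) (i j : Fin N) :
    eFun α (toEdge α z) i j = (z : (Fin 2 → Fin N) → ℚ) ![i, j] :=
  eFun_of_anti (g := fun i j => (z : (Fin 2 → Fin N) → ℚ) ![i, j])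
    (fun i j => cyc_anti z.2 i j) (fun i j h => z.2.2.1 _ h) i j

lemma toEdge_injective : Function.Injective (toEdge α) := by
  intro z w h
  apply Subtype.ext
  funext J
  rw [← pair_eta J, ← eFun_toEdge, ← eFun_toEdge, h]

lemma range_toEdge : LinearMap.range (toEdge α) = LinearMap.ker (rs α) := by
  ext f
  rw [LinearMap.mem_range, LinearMap.mem_ker]
  constructor
  · rintro ⟨z, rfl⟩
    funext i
    rw [rs_apply]
    simp only [eFun_toEdge]
    exact cyc_sum z.2 i
  · intro hf
    refine ⟨⟨fun J => eFun α f (J 0) (J 1), ?_, ?_, ?_⟩, ?_⟩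
    · intro J i j hij
      have : (J ∘ Equiv.swap i j) 0 = J 1 ∧ (J ∘ Equiv.swap i j) 1 = J 0 := by
        fin_cases i <;> fin_cases j
        · exact absurd rfl hij
        · simp
        · simp [Equiv.swap_comm]
        · exact absurd rfl hij
      simp only [this.1, this.2]
      exact eFun_anti f _ _
    · intro J hJ
      rw [← pair_eta J] at hJ
      exact eFun_par f hJ
    · intro J m
      have h1 : ∀ i, ∑ k, eFun α f i k = 0 := fun i => congrFun hf i
      fin_cases m
      · simp only [Fin.zero_eta, Fin.isValue, Function.update_self, ne_eq, one_ne_zero,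
          not_false_eq_true, Function.update_of_ne]
        have h2 : ∑ k, eFun α f k (J 1) = - ∑ k, eFun α f (J 1) k := by
          rw [← Finset.sum_neg_distrib]
          exact Finset.sum_congr rfl fun k _ => eFun_anti f _ _
        rw [h2, h1, neg_zero]
      · simp only [Fin.mk_one, Fin.isValue, Function.update_self, ne_eq, zero_ne_one,
          not_false_eq_true, Function.update_of_ne]
        exact h1 _
    · funext e
      exact eFun_edge f e

include hrk hN in
/-- the dimension of the space of cycles -/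
theorem finrank_hypCycles : Module.finrank ℚ (hypCycles (n := 1) α) + N =
    Fintype.card (CEdge α) + 1 := by
  rw [← finrank_ker_rs hrk hN, ← range_toEdge, LinearMap.finrank_range_of_inj toEdge_injective]

end

end Pool.Agent.Helper11
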