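import Mathlib

/-! Hensel's lemma for the branches at infinity. -/

namespace Pool.Agent.Helper11

open Polynomial

lemma isUnit_ps {w : PowerSeries ℚ} (h : PowerSeries.constantCoeff w ≠ 0) : IsUnit w :=
  PowerSeries.isUnit_iff_constantCoeff.2 (isUnit_iff_ne_zero.2 h)

theorem exists_hensel_root {ι : Type*} (s : Finset ι) (M K : ι → PowerSeries ℚ)
    (hM : ∀ j ∈ s, PowerSeries.constantCoeff (M j) ≠ 0) {c : ℚ} (hc : c ≠ 0) :
    ∃ v : PowerSeries ℚ, IsUnit v ∧
      PowerSeries.C c * v * ∏ j ∈ s, (M j + PowerSeries.X * K j * v) = 1 := by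
  set f : (PowerSeries ℚ)[X] := X ^ (s.card + 1) - C (PowerSeries.C c) *
    ∏ j ∈ s, (C (M j) * X + C (PowerSeries.X * K j)) with hf
  set κ : ℚ := c * ∏ j ∈ s, PowerSeries.constantCoeff (M j) with hκ
  have hκ0 : κ ≠ 0 := mul_ne_zero hc (Finset.prod_ne_zero_iff.2 hM)
  have hdeg : (C (PowerSeries.C c) *
      ∏ j ∈ s, (C (M j) * X + C (PowerSeries.X * K j)) : (PowerSeries ℚ)[X]).natDegree ≤ s.card := by
    refine (natDegree_C_mul_le _ _).trans ((natDegree_prod_le _ _).trans ?_)
    calc ∑ j ∈ s, (C (M j) * X + C (PowerSeries.X * K j) : (PowerSeries ℚ)[X]).natDegree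
        ≤ ∑ j ∈ s, 1 := Finset.sum_le_sum fun j _ => natDegree_linear_le
      _ = s.card := by simp
  have hmonic : f.Monic := by
    rw [hf, sub_eq_add_neg]
    refine monic_X_pow_add ?_
    rw [degree_neg]
    refine lt_of_le_of_lt degree_le_natDegree ?_
    exact_mod_cast Nat.lt_succ_of_le hdeg
  -- the reduction
  have hred : f.map (PowerSeries.constantCoeff : PowerSeries ℚ →+* ℚ) = X ^ (s.card + 1) - C κ * X ^ s.card := by
    rw [hf]
    simp only [Polynomial.map_sub, Polynomial.map_pow, Polynomial.map_mul, Polynomial.map_prod,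
      Polynomial.map_add, map_C, map_X, PowerSeries.constantCoeff_C, map_mul,
      PowerSeries.constantCoeff_X, zero_mul, C_0, add_zero, Finset.prod_mul_distrib,
      Finset.prod_const]
    rw [hκ, C_mul, ← map_prod C]
    ring
  have hev : ∀ g : (PowerSeries ℚ)[X], PowerSeries.constantCoeff (g.eval (PowerSeries.C κ)) =
      (g.map (PowerSeries.constantCoeff : PowerSeries ℚ →+* ℚ)).eval κ := by
    intro g
    have h := eval₂_at_apply (p := g) (PowerSeries.constantCoeff : PowerSeries ℚ →+* ℚ)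
      (PowerSeries.C κ)
    rw [PowerSeries.constantCoeff_C] at h
    rw [eval_map, h]
  have h0 : f.eval (PowerSeries.C κ) ∈ Ideal.span {(PowerSeries.X : PowerSeries ℚ)} := by
    rw [Ideal.mem_span_singleton, PowerSeries.X_dvd_iff, hev, hred]
    simp
    ring
  have h1 : IsUnit (Ideal.Quotient.mk (Ideal.span {(PowerSeries.X : PowerSeries ℚ)})
      (f.derivative.eval (PowerSeries.C κ))) := by
    refine IsUnit.map _ (isUnit_ps ?_)
    rw [hev, ← derivative_map, hred]
    have h2 : (derivative (X ^ (s.card + 1) - C κ * X ^ s.card : ℚ[X])).eval κ = κ ^ s.card := by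
      rcases Nat.eq_zero_or_pos s.card with h3 | h3
      · rw [h3]
        simp
      · obtain ⟨m, hm⟩ := Nat.exists_eq_succ_of_ne_zero h3.ne'
        rw [hm]
        simp only [derivative_sub, derivative_X_pow, derivative_C_mul, eval_sub, eval_mul,
          eval_C, eval_pow, eval_X, Nat.succ_eq_add_one, Nat.add_sub_cancel]
        push_cast
        ring
    rw [h2]
    exact pow_ne_zero _ hκ0
  obtain ⟨w, hw, hwκ⟩ := HenselianRing.is_henselian f hmonic (PowerSeries.C κ) h0 h1
  have hwc : PowerSeries.constantCoeff w ≠ 0 := by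
    rw [Ideal.mem_span_singleton, PowerSeries.X_dvd_iff, map_sub, PowerSeries.constantCoeff_C,
      sub_eq_zero] at hwκ
    rw [hwκ]
    exact hκ0
  obtain ⟨W, hW⟩ := isUnit_ps hwc
  refine ⟨((W⁻¹ : (PowerSeries ℚ)ˣ) : PowerSeries ℚ), Units.isUnit _, ?_⟩
  have hvw : ((W⁻¹ : (PowerSeries ℚ)ˣ) : PowerSeries ℚ) * w = 1 := by
    rw [← hW]
    exact W.inv_mul
  set v : PowerSeries ℚ := ((W⁻¹ : (PowerSeries ℚ)ˣ) : PowerSeries ℚ) with hv
  have h2 : w ^ (s.card + 1) = PowerSeries.C c * ∏ j ∈ s, (M j * w + PowerSeries.X * K j) := by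
    have := hw
    rw [IsRoot.def, hf, eval_sub, sub_eq_zero] at this
    simpa [eval_prod] using this
  have h3 : ∀ j, M j + PowerSeries.X * K j * v = v * (M j * w + PowerSeries.X * K j) := by
    intro j
    linear_combination (-(M j)) * hvw
  calc PowerSeries.C c * v * ∏ j ∈ s, (M j + PowerSeries.X * K j * v)
      = PowerSeries.C c * v * ∏ j ∈ s, (v * (M j * w + PowerSeries.X * K j)) := by
        rw [Finset.prod_congr rfl fun j _ => h3 j]
    _ = v ^ (s.card + 1) * (PowerSeries.C c * ∏ j ∈ s, (M j * w + PowerSeries.X * K j)) := by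
        rw [Finset.prod_mul_distrib, Finset.prod_const]
        ring
    _ = (v * w) ^ (s.card + 1) := by rw [← h2, mul_pow]
    _ = 1 := by rw [hvw, one_pow]

end Pool.Agent.Helper11
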