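import Mathlib
import Pool.Agent.Helper11.KApi

/-! The tame symbol on the field of Laurent series over `ℚ`. -/

namespace Pool.Agent.Helper11

open HahnSeries

/-- the order of a unit of the field of Laurent series -/
noncomputable def lord (f : (LaurentSeries ℚ)ˣ) : ℤ := (f : LaurentSeries ℚ).order

/-- the logarithm of the leading coefficient -/
noncomputable def llog (f : (LaurentSeries ℚ)ˣ) : ℝ :=
  Real.log |(((f : LaurentSeries ℚ).leadingCoeff : ℚ) : ℝ)|

lemma lord_mul (f g : (LaurentSeries ℚ)ˣ) : lord (f * g) = lord f + lord g := by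
  unfold lord
  rw [Units.val_mul]
  exact HahnSeries.order_mul f.ne_zero g.ne_zero

lemma llog_mul (f g : (LaurentSeries ℚ)ˣ) : llog (f * g) = llog f + llog g := by
  unfold llog
  rw [Units.val_mul, HahnSeries.leadingCoeff_mul]
  push_cast
  rw [abs_mul, Real.log_mul]
  · exact abs_ne_zero.2 (Rat.cast_ne_zero.2 (HahnSeries.leadingCoeff_ne_zero.2 f.ne_zero))
  · exact abs_ne_zero.2 (Rat.cast_ne_zero.2 (HahnSeries.leadingCoeff_ne_zero.2 g.ne_zero))

lemma lord_eq_orderTop (f : (LaurentSeries ℚ)ˣ) :
    ((lord f : ℤ) : WithTop ℤ) = (f : LaurentSeries ℚ).orderTop :=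
  HahnSeries.order_eq_orderTop_of_ne_zero f.ne_zero

/-- the complement of a series of positive order -/
lemma one_sub_pos {f g : (LaurentSeries ℚ)ˣ} (h : (f : LaurentSeries ℚ) + g = 1)
    (hf : 0 < lord f) : lord g = 0 ∧ llog g = 0 := by
  have h1 : (g : LaurentSeries ℚ) = 1 - f := by rw [← h]; ring
  have hlt : (1 : LaurentSeries ℚ).orderTop < (f : LaurentSeries ℚ).orderTop := by
    rw [HahnSeries.orderTop_one, ← lord_eq_orderTop]
    exact_mod_cast hf
  have h2 := HahnSeries.orderTop_sub hlt
  have h3 := HahnSeries.leadingCoeff_sub hlt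
  constructor
  · have h4 := lord_eq_orderTop g
    rw [h1, h2, HahnSeries.orderTop_one] at h4
    exact_mod_cast h4
  · unfold llog
    rw [h1, h3, HahnSeries.leadingCoeff_one]
    simp

lemma one_sub_neg {f g : (LaurentSeries ℚ)ˣ} (h : (f : LaurentSeries ℚ) + g = 1)
    (hf : lord f < 0) : lord g = lord f ∧ llog g = llog f := by
  have h1 : (g : LaurentSeries ℚ) = -(f - 1) := by rw [← h]; ring
  have hlt : (f : LaurentSeries ℚ).orderTop < (1 : LaurentSeries ℚ).orderTop := by
    rw [HahnSeries.orderTop_one, ← lord_eq_orderTop]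
    exact_mod_cast hf
  have h2 := HahnSeries.orderTop_sub hlt
  have h3 := HahnSeries.leadingCoeff_sub hlt
  constructor
  · have h4 := lord_eq_orderTop g
    rw [h1, HahnSeries.orderTop_neg, h2, ← lord_eq_orderTop] at h4
    exact_mod_cast h4
  · unfold llog
    rw [h1, HahnSeries.leadingCoeff_neg, h3]
    push_cast
    rw [abs_neg]

lemma tame_steinberg {f g : (LaurentSeries ℚ)ˣ} (h : (f : LaurentSeries ℚ) + g = 1) :
    llog f * lord g - llog g * lord f = 0 := by
  rcases lt_trichotomy (lord f) 0 with h1 | h1 | h1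
  · obtain ⟨h2, h3⟩ := one_sub_neg h h1
    rw [h2, h3, sub_self]
  · rcases lt_trichotomy (lord g) 0 with h2 | h2 | h2
    · obtain ⟨h3, h4⟩ := one_sub_neg (by rw [add_comm]; exact h) h2
      rw [h3, h4, sub_self]
    · rw [h1, h2]
      simp
    · obtain ⟨h3, h4⟩ := one_sub_pos (by rw [add_comm]; exact h) h2
      rw [h3, h4]
      simp
  · obtain ⟨h2, h3⟩ := one_sub_pos h h1
    rw [h2, h3]
    simp

/-- the ring of power series as a valuation subring -/
noncomputable def psO : ValuationSubring (LaurentSeries ℚ) where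
  toSubring := (HahnSeries.ofPowerSeries ℤ ℚ).range
  mem_or_inv_mem' := by
    intro x
    by_cases hx : x = 0
    · left
      rw [hx]
      exact (HahnSeries.ofPowerSeries ℤ ℚ).range.zero_mem
    have key : ∀ y : LaurentSeries ℚ, 0 ≤ y.order →
        y ∈ (HahnSeries.ofPowerSeries ℤ ℚ).range := by
      intro y hy
      obtain ⟨n, hn⟩ := Int.eq_ofNat_of_zero_le hy
      have h1 := LaurentSeries.X_order_mul_powerSeriesPart (f := y) (n := n) hn.symm
      exact ⟨_, h1⟩
    rcases le_or_gt 0 x.order with h | h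
    · exact Or.inl (key x h)
    · right
      refine key _ ?_
      have h2 := HahnSeries.order_mul hx (inv_ne_zero hx)
      rw [mul_inv_cancel₀ hx, HahnSeries.order_one] at h2
      omega

lemma mem_psO {x : LaurentSeries ℚ} : x ∈ psO ↔ ∃ y : PowerSeries ℚ, (y : LaurentSeries ℚ) = x :=
  Iff.rfl

noncomputable def psEquiv : PowerSeries ℚ ≃+* psO :=
  RingEquiv.ofBijective ((HahnSeries.ofPowerSeries ℤ ℚ).rangeRestrict) (by
    refine ⟨?_, ?_⟩
    · intro x y h
      exact HahnSeries.ofPowerSeries_injective (congrArg Subtype.val h)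
    · exact (HahnSeries.ofPowerSeries ℤ ℚ).rangeRestrict_surjective)

instance : IsDiscreteValuationRing psO :=
  IsDiscreteValuationRing.RingEquivClass.isDiscreteValuationRing psEquiv

/-- a power series has nonnegative order -/
lemma order_coe_nonneg (y : PowerSeries ℚ) : 0 ≤ (y : LaurentSeries ℚ).order := by
  by_cases hy : (y : LaurentSeries ℚ) = 0
  · rw [hy, HahnSeries.order_zero]
  rw [HahnSeries.le_order_iff_forall hy]
  intro j hj
  have h1 := PowerSeries.coeff_coe (f := y) j
  rw [h1, if_pos hj]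

lemma lord_of_mem {f : (LaurentSeries ℚ)ˣ} (hf : f ∈ psO.unitGroup) : lord f = 0 := by
  have h1 : ∃ y : PowerSeries ℚ, (y : LaurentSeries ℚ) = f := by
    rw [← mem_psO]
    exact psO.mem_of_valuation_le_one _ hf.le
  have h2 : ∃ y : PowerSeries ℚ, (y : LaurentSeries ℚ) = ((f⁻¹ : (LaurentSeries ℚ)ˣ) : LaurentSeries ℚ) := by
    rw [← mem_psO]
    exact psO.mem_of_valuation_le_one _ (psO.unitGroup.inv_mem hf).le
  obtain ⟨y, hy⟩ := h1
  obtain ⟨y', hy'⟩ := h2
  have h3 := order_coe_nonneg y
  have h4 := order_coe_nonneg y'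
  rw [hy] at h3
  rw [hy'] at h4
  have h5 := lord_mul f f⁻¹
  rw [mul_inv_cancel] at h5
  have h6 : lord 1 = 0 := by
    unfold lord
    rw [Units.val_one, HahnSeries.order_one]
  rw [h6] at h5
  unfold lord at *
  omega

/-- The tame symbol of Laurent series, composed with the logarithm of the absolute value. -/
theorem exists_tame : ∃ τ : KMQ (LaurentSeries ℚ) 2 →ₗ[ℚ] ℝ,
    (∀ f, τ (symM f) = llog (f 0) * lord (f 1) - llog (f 1) * lord (f 0)) ∧
    ∀ w ∈ unrM psO 2, τ w = 0 := by
  obtain ⟨τ, hτ⟩ := KMQ.exists_lift (R := LaurentSeries ℚ) (d := 2) (V := ℝ)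
    (fun f => llog (f 0) * lord (f 1) - llog (f 1) * lord (f 0)) (by
      intro f i u v
      fin_cases i
      · simp only [Fin.zero_eta, Fin.isValue, Function.update_self, ne_eq, one_ne_zero,
          not_false_eq_true, Function.update_of_ne, llog_mul, lord_mul]
        push_cast
        ring
      · simp only [Fin.mk_one, Fin.isValue, Function.update_self, ne_eq, zero_ne_one,
          not_false_eq_true, Function.update_of_ne, llog_mul, lord_mul]
        push_cast
        ring) (by
      intro f i j hij h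
      fin_cases i <;> fin_cases j
      · exact absurd rfl hij
      · exact tame_steinberg h
      · have := tame_steinberg (f := f 0) (g := f 1) (by rw [add_comm]; exact h)
        exact this
      · exact absurd rfl hij)
  refine ⟨τ, hτ, ?_⟩
  intro w hw
  have hle : unrM psO 2 ≤ LinearMap.ker τ := by
    rw [unrM, Submodule.span_le]
    rintro _ ⟨f, hf, rfl⟩
    rw [SetLike.mem_coe, LinearMap.mem_ker, hτ, lord_of_mem (hf 0), lord_of_mem (hf 1)]
    simp
  exact hle hw

end Pool.Agent.Helper11
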