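import Mathlib
import Pool.Agent.Helper11.CHensel
import Pool.Agent.Helper11.CTame

/-! The branches at infinity of the curve `c ∏ (a_k x + b_k y + p_k) = 1`. -/

namespace Pool.Agent.Helper11

open HahnSeries

/-- the variable `t⁻¹` of the field of Laurent series -/
noncomputable abbrev tinv : LaurentSeries ℚ := HahnSeries.single (-1 : ℤ) (1 : ℚ)

lemma tinv_mul_X : tinv * ((PowerSeries.X : PowerSeries ℚ) : LaurentSeries ℚ) = 1 := by
  rw [PowerSeries.coe_X, HahnSeries.single_mul_single]
  simp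

lemma algMap_eq (q : ℚ) :
    algebraMap ℚ (LaurentSeries ℚ) q = ((PowerSeries.C q : PowerSeries ℚ) : LaurentSeries ℚ) := by
  have h : algebraMap ℚ (LaurentSeries ℚ) =
      (HahnSeries.ofPowerSeries ℤ ℚ).comp (PowerSeries.C : ℚ →+* PowerSeries ℚ) :=
    RingHom.ext_rat _ _
  rw [h]
  rfl

/-- units of the power series ring have order zero -/
lemma order_unit_ps {v : PowerSeries ℚ} (hv : IsUnit v) : (v : LaurentSeries ℚ).order = 0 := by
  obtain ⟨w, rfl⟩ := hv
  have h1 := order_coe_nonneg (w : PowerSeries ℚ)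
  have h2 := order_coe_nonneg ((w⁻¹ : (PowerSeries ℚ)ˣ) : PowerSeries ℚ)
  have h3 : ((w : PowerSeries ℚ) : LaurentSeries ℚ) *
      (((w⁻¹ : (PowerSeries ℚ)ˣ) : PowerSeries ℚ) : LaurentSeries ℚ) = 1 := by
    rw [← PowerSeries.coe_mul, Units.mul_inv, PowerSeries.coe_one]
  have h4 := HahnSeries.order_mul (left_ne_zero_of_mul_eq_one h3) (right_ne_zero_of_mul_eq_one h3)
  rw [h3, HahnSeries.order_one] at h4
  omega

lemma coe_unit_ne {v : PowerSeries ℚ} (hv : IsUnit v) : (v : LaurentSeries ℚ) ≠ 0 := by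
  intro h
  have h2 : v = 0 := HahnSeries.ofPowerSeries_injective (by rw [h, map_zero])
  rw [h2] at hv
  exact not_isUnit_zero hv

variable {ι : Type*} [Fintype ι] [DecidableEq ι]

theorem exists_cusp {a b p : ι → ℚ} {c : ℚ} (hc : c ≠ 0) (hb : ∀ k, b k ≠ 0) (i : ι)
    (hd : ∀ j, j ≠ i → a j * b i - a i * b j ≠ 0 ∨ p j * b i - p i * b j ≠ 0)
    (hn : ∃ j, a j * b i - a i * b j ≠ 0) :
    ∃ (y : LaurentSeries ℚ) (L : ι → LaurentSeries ℚ),
      (∀ k, L k = algebraMap ℚ _ (a k) * tinv + algebraMap ℚ _ (b k) * y +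
        algebraMap ℚ _ (p k)) ∧
      algebraMap ℚ _ c * ∏ k, L k = 1 ∧
      (∀ j, a j * b i - a i * b j ≠ 0 → (L j).order = -1) ∧
      (∀ j, j ≠ i → a j * b i - a i * b j = 0 → (L j).order = 0) ∧
      (L i).order = (Finset.univ.filter fun j => a j * b i - a i * b j ≠ 0).card := by
  set S := Finset.univ.filter fun j => a j * b i - a i * b j ≠ 0 with hS
  have hSn : 1 ≤ S.card := by
    obtain ⟨j, hj⟩ := hn
    exact Finset.card_pos.2 ⟨j, by rw [hS, Finset.mem_filter]; exact ⟨Finset.mem_univ _, hj⟩⟩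
  obtain ⟨n, hn'⟩ := Nat.exists_eq_add_of_le' hSn
  set A : ι → ℚ := fun j => a j - b j * a i / b i with hA
  set E : ι → ℚ := fun j => p j - b j * p i / b i with hE
  set B : ι → ℚ := fun j => b j / b i with hB
  have hA0 : ∀ j, A j ≠ 0 ↔ a j * b i - a i * b j ≠ 0 := by
    intro j
    have h1 : A j * b i = a j * b i - a i * b j := by
      rw [hA]
      have := hb i
      field_simp
    rw [← h1]
    exact ⟨fun h => mul_ne_zero h (hb i), fun h => left_ne_zero_of_mul h⟩
  have hE0 : ∀ j, p j * b i - p i * b j ≠ 0 → E j ≠ 0 := by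
    intro j
    have h1 : E j * b i = p j * b i - p i * b j := by
      rw [hE]
      have := hb i
      field_simp
    rw [← h1]
    exact fun h => left_ne_zero_of_mul h
  let M : ι → PowerSeries ℚ := fun j => if A j ≠ 0 then
    PowerSeries.C (A j) + PowerSeries.X * PowerSeries.C (E j) else PowerSeries.C (E j)
  let K : ι → PowerSeries ℚ := fun j => if A j ≠ 0 then
    PowerSeries.X ^ (n + 1) * PowerSeries.C (B j) else PowerSeries.X ^ n * PowerSeries.C (B j)
  have hM : ∀ j ∈ Finset.univ.erase i, PowerSeries.constantCoeff (M j) ≠ 0 := by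
    intro j hj
    have hji := Finset.ne_of_mem_erase hj
    by_cases h : A j ≠ 0
    · simp only [M, if_pos h]
      simpa using h
    · simp only [M, if_neg h]
      have h1 := (hd j hji).resolve_left (fun h2 => h ((hA0 j).2 h2))
      simpa using hE0 j h1
  obtain ⟨v, hv, hveq⟩ := exists_hensel_root (Finset.univ.erase i) M K hM hc
  set u : PowerSeries ℚ := PowerSeries.X ^ (n + 1) * v with hu
  set y : LaurentSeries ℚ := algebraMap ℚ _ (-(a i) / b i) * tinv + algebraMap ℚ _ (-(p i) / b i) +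
    algebraMap ℚ _ (1 / b i) * (u : LaurentSeries ℚ) with hy
  have hL : ∀ j, algebraMap ℚ (LaurentSeries ℚ) (a j) * tinv + algebraMap ℚ _ (b j) * y +
      algebraMap ℚ _ (p j) = algebraMap ℚ _ (A j) * tinv + algebraMap ℚ _ (E j) +
        algebraMap ℚ _ (B j) * (u : LaurentSeries ℚ) := by
    intro j
    rw [hy]
    have e1 : algebraMap ℚ (LaurentSeries ℚ) (b j) * algebraMap ℚ _ (-(a i) / b i) =
        algebraMap ℚ _ (A j) - algebraMap ℚ _ (a j) := by
      rw [← map_mul, ← map_sub]
      congr 1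
      rw [hA]
      ring
    have e2 : algebraMap ℚ (LaurentSeries ℚ) (b j) * algebraMap ℚ _ (-(p i) / b i) =
        algebraMap ℚ _ (E j) - algebraMap ℚ _ (p j) := by
      rw [← map_mul, ← map_sub]
      congr 1
      rw [hE]
      ring
    have e3 : algebraMap ℚ (LaurentSeries ℚ) (b j) * algebraMap ℚ _ (1 / b i) =
        algebraMap ℚ _ (B j) := by
      rw [← map_mul]
      congr 1
      rw [hB]
      ring
    linear_combination tinv * e1 + e2 + (u : LaurentSeries ℚ) * e3
  -- the values of the forms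
  have hLS : ∀ j, A j ≠ 0 → algebraMap ℚ (LaurentSeries ℚ) (A j) * tinv + algebraMap ℚ _ (E j) +
      algebraMap ℚ _ (B j) * (u : LaurentSeries ℚ) =
        tinv * ((M j + PowerSeries.X * K j * v : PowerSeries ℚ) : LaurentSeries ℚ) := by
    intro j hj
    simp only [M, K, if_pos hj, hu]
    simp only [algMap_eq, PowerSeries.coe_add, PowerSeries.coe_mul]
    linear_combination (-(((PowerSeries.C (E j) : PowerSeries ℚ) : LaurentSeries ℚ)) -
      ((PowerSeries.X ^ (n + 1) : PowerSeries ℚ) : LaurentSeries ℚ) *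
        ((PowerSeries.C (B j) : PowerSeries ℚ) : LaurentSeries ℚ) *
          (v : LaurentSeries ℚ)) * tinv_mul_X
  have hLT : ∀ j, ¬ A j ≠ 0 → algebraMap ℚ (LaurentSeries ℚ) (A j) * tinv +
      algebraMap ℚ _ (E j) + algebraMap ℚ _ (B j) * (u : LaurentSeries ℚ) =
        ((M j + PowerSeries.X * K j * v : PowerSeries ℚ) : LaurentSeries ℚ) := by
    intro j hj
    simp only [M, K, if_neg hj, hu]
    have hj0 : A j = 0 := not_not.1 hj
    rw [hj0, map_zero, zero_mul, zero_add, algMap_eq, algMap_eq, pow_succ]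
    simp only [PowerSeries.coe_add, PowerSeries.coe_mul]
    ring
  have hunit : ∀ j, j ≠ i → IsUnit (M j + PowerSeries.X * K j * v) := by
    intro j hj
    refine isUnit_ps ?_
    have := hM j (Finset.mem_erase.2 ⟨hj, Finset.mem_univ _⟩)
    simpa using this
  have hAi : A i = 0 := by
    rw [hA]
    have := hb i
    field_simp
    ring
  have hEi : E i = 0 := by
    rw [hE]
    have := hb i
    field_simp
    ring
  have hBi : B i = 1 := div_self (hb i)
  have hLi : algebraMap ℚ (LaurentSeries ℚ) (A i) * tinv +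
      algebraMap ℚ _ (E i) + algebraMap ℚ _ (B i) * (u : LaurentSeries ℚ) = (u : LaurentSeries ℚ) := by
    rw [hAi, hEi, hBi, map_zero, map_one]
    ring
  refine ⟨y, fun j => algebraMap ℚ _ (A j) * tinv + algebraMap ℚ _ (E j) +
    algebraMap ℚ _ (B j) * (u : LaurentSeries ℚ), fun k => (hL k).symm, ?_, ?_, ?_, ?_⟩
  · -- the equation
    have hprod : ∏ k, (algebraMap ℚ (LaurentSeries ℚ) (A k) * tinv + algebraMap ℚ _ (E k) +
        algebraMap ℚ _ (B k) * (u : LaurentSeries ℚ)) =
        (u : LaurentSeries ℚ) * (tinv ^ S.card *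
          ((∏ j ∈ Finset.univ.erase i, (M j + PowerSeries.X * K j * v) : PowerSeries ℚ) :
            LaurentSeries ℚ)) := by
      rw [← Finset.mul_prod_erase Finset.univ _ (Finset.mem_univ i), hLi]
      congr 1
      have h1 : ∀ j ∈ Finset.univ.erase i, algebraMap ℚ (LaurentSeries ℚ) (A j) * tinv +
          algebraMap ℚ _ (E j) + algebraMap ℚ _ (B j) * (u : LaurentSeries ℚ) =
          (if A j ≠ 0 then tinv else 1) *
            ((M j + PowerSeries.X * K j * v : PowerSeries ℚ) : LaurentSeries ℚ) := by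
        intro j hj
        by_cases h : A j ≠ 0
        · rw [if_pos h, hLS j h]
        · rw [if_neg h, hLT j h, one_mul]
      rw [Finset.prod_congr rfl h1, Finset.prod_mul_distrib, Finset.prod_ite, Finset.prod_const,
        Finset.prod_const_one, mul_one]
      have h2 : (Finset.univ.erase i).filter (fun j => A j ≠ 0) = S := by
        ext j
        rw [Finset.mem_filter, Finset.mem_erase, hS, Finset.mem_filter]
        constructor
        · rintro ⟨⟨_, h3⟩, h4⟩
          exact ⟨h3, (hA0 j).1 h4⟩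
        · rintro ⟨h3, h4⟩
          refine ⟨⟨?_, h3⟩, (hA0 j).2 h4⟩
          rintro rfl
          exact (hA0 j).2 h4 hAi
      rw [h2, map_prod]
    rw [hprod, hn', hu, algMap_eq]
    have h3 : (tinv : LaurentSeries ℚ) ^ (n + 1) *
        ((PowerSeries.X ^ (n + 1) : PowerSeries ℚ) : LaurentSeries ℚ) = 1 := by
      rw [map_pow, ← mul_pow, tinv_mul_X, one_pow]
    have h4 := congrArg (fun z : PowerSeries ℚ => (z : LaurentSeries ℚ)) hveq
    simp only [PowerSeries.coe_mul, PowerSeries.coe_one] at h4 h3 ⊢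
    linear_combination h4 + (((PowerSeries.C c : PowerSeries ℚ) : LaurentSeries ℚ) *
      (v : LaurentSeries ℚ) * ((∏ j ∈ Finset.univ.erase i,
        (M j + PowerSeries.X * K j * v) : PowerSeries ℚ) : LaurentSeries ℚ)) * h3
  · intro j hj
    have h1 := (hA0 j).2 hj
    have hji : j ≠ i := by
      rintro rfl
      exact h1 hAi
    simp only
    rw [hLS j h1, HahnSeries.order_mul (by simp [tinv]) (coe_unit_ne (hunit j hji)),
      order_unit_ps (hunit j hji), add_zero]
    exact HahnSeries.order_single one_ne_zero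
  · intro j hji hj
    have h1 : ¬ A j ≠ 0 := fun h => (hA0 j).1 h hj
    simp only
    rw [hLT j h1, order_unit_ps (hunit j hji)]
  · simp only
    rw [hLi, hu, PowerSeries.coe_mul, HahnSeries.order_mul ?_ (coe_unit_ne hv), order_unit_ps hv,
      add_zero, HahnSeries.ofPowerSeries_X_pow, HahnSeries.order_single one_ne_zero, hn']
    · rw [HahnSeries.ofPowerSeries_X_pow]
      simp

end Pool.Agent.Helper11
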