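import Mathlib
import Pool.Agent.Helper11.HDefs

/-! The rational coordinate ring of the variety `c ∏ᵢ (α i · x + β i) = 1`, and the integral part
of the Milnor K-group of a field. -/

namespace Pool.Agent.Helper11

/-- The ring `ℚ[x₀, ..., xₙ] / (c ∏ᵢ (α i · x + β i) - 1)`. -/
def HypRingQ {n N : ℕ} (α : Fin N → Fin (n + 1) → ℤ) (β : Fin N → ℤ) (c : ℤ) : Type :=
  MvPolynomial (Fin (n + 1)) ℚ ⧸
    Ideal.span {MvPolynomial.map (Int.castRingHom ℚ) (hypPoly α β c)}

noncomputable instance {n N : ℕ} (α : Fin N → Fin (n + 1) → ℤ) (β : Fin N → ℤ) (c : ℤ) :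
    CommRing (HypRingQ α β c) :=
  inferInstanceAs (CommRing (MvPolynomial (Fin (n + 1)) ℚ ⧸
    Ideal.span {MvPolynomial.map (Int.castRingHom ℚ) (hypPoly α β c)}))

/-- The elements of `K_d^M(K) ⊗ ℚ` which for every discrete valuation ring `O` of the field `K`
are combinations of symbols of units of `O`. -/
noncomputable def integralM (K : Type*) [Field K] (d : ℕ) : Submodule ℚ (KMQ K d) :=
  ⨅ (O : ValuationSubring K) (_ : IsDiscreteValuationRing O), unrM O d

/-- The elements of `K_d^M(K) ⊗ ℚ` which are combinations of symbols of units of `A` and which are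
integral: the intersection of the image of `K_d^M(A) ⊗ ℚ` with `integralM K d`. -/
noncomputable def unitPart (A K : Type*) [CommRing A] [Field K] [Algebra A K] (d : ℕ) :
    Submodule ℚ (KMQ K d) :=
  LinearMap.range (KMQ.map (algebraMap A K) d) ⊓ integralM K d

end Pool.Agent.Helper11
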