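import Mathlib
import Pool.Agent.Helper11.Irr

/-! Irreducibility of `c ∏ ℓ_k - 1` for a line arrangement. -/

namespace Pool.Agent.Helper11

open Polynomial

section

variable {ι : Type*} {a b p : ι → ℚ}

lemma prod_dvd_of_res [DecidableEq ι] (hk : ∀ k, a k ≠ 0 ∨ b k ≠ 0)
    (hd : ∀ k l, k ≠ l →
      ¬ (a k * b l = a l * b k ∧ a k * p l = a l * p k ∧ b k * p l = b l * p k))
    (s : Finset ι) {G : ℚ[X][X]} (hG : ∀ k ∈ s, res a b p k G = 0) :
    ∏ k ∈ s, lin a b p k ∣ G := by
  induction s using Finset.induction_on with
  | empty => simp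
  | insert k s hks ih =>
    obtain ⟨Q, hQ⟩ := ih fun l hl => hG l (Finset.mem_insert_of_mem hl)
    have h1 := hG k (Finset.mem_insert_self _ _)
    rw [hQ, map_mul, map_prod, mul_eq_zero] at h1
    have h2 : ∏ l ∈ s, res a b p k (lin a b p l) ≠ 0 := by
      rw [Finset.prod_ne_zero_iff]
      intro l hl
      refine res_lin_ne (hk k) (hd k l ?_)
      rintro rfl
      exact hks hl
    obtain ⟨R, hR⟩ := dvd_of_res (hk k) (h1.resolve_left h2)
    refine ⟨R, ?_⟩
    rw [Finset.prod_insert hks, hQ, hR]
    ring

lemma lin_ne_zero {k : ι} (hk : a k ≠ 0 ∨ b k ≠ 0) : lin a b p k ≠ 0 := by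
  intro h
  unfold lin at h
  have h1 := congrArg (fun q => coeff (coeff q 1) 0) h
  have h2 := congrArg (fun q => coeff (coeff q 0) 1) h
  simp at h1 h2
  rcases hk with h3 | h3
  · exact h3 h2
  · exact h3 h1

lemma natDegree_lin {k : ι} (hb : b k ≠ 0) : (lin a b p k).natDegree = 1 := by
  unfold lin
  rw [add_comm]
  exact natDegree_linear (by simpa using hb)

theorem irr_arr [Fintype ι] [DecidableEq ι] (hk : ∀ k, a k ≠ 0 ∨ b k ≠ 0)
    (hd : ∀ k l, k ≠ l →
      ¬ (a k * b l = a l * b k ∧ a k * p l = a l * p k ∧ b k * p l = b l * p k))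
    {i j : ι} (hij : a i * b j - a j * b i ≠ 0) (hbj : b j ≠ 0) {c : ℚ} (hc : c ≠ 0) :
    Irreducible (C (C c) * ∏ k, lin a b p k - 1) ∧
      (C (C c) * ∏ k, lin a b p k - 1).natDegree ≠ 0 := by
  set P : ℚ[X][X] := ∏ k, lin a b p k with hP
  have hP0 : P ≠ 0 := by
    rw [hP, Finset.prod_ne_zero_iff]
    exact fun k _ => lin_ne_zero (hk k)
  have hPdeg : 1 ≤ P.natDegree := by
    rw [hP, natDegree_prod _ _ fun k _ => lin_ne_zero (hk k), ← natDegree_lin (a := a) (p := p) hbj]
    exact Finset.single_le_sum (f := fun k => (lin a b p k).natDegree)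
      (fun k _ => Nat.zero_le _) (Finset.mem_univ j)
  have hCC : (C (C c) : ℚ[X][X]) ≠ 0 := by simpa using hc
  have hTdeg : (C (C c) * P).natDegree = P.natDegree :=
    natDegree_C_mul (by simpa using hc)
  have hdeg : (C (C c) * P - 1).natDegree = P.natDegree := by
    rw [natDegree_sub_eq_left_of_natDegree_lt, hTdeg]
    rw [hTdeg, natDegree_one]
    omega
  have hresP : ∀ k, res a b p k P = 0 := by
    intro k
    rw [hP, map_prod]
    refine Finset.prod_eq_zero (Finset.mem_univ k) ?_
    rw [res_lin]
    have hn := nrm_ne (hk k)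
    have e : a k * (-(p k * a k) / (a k ^ 2 + b k ^ 2)) +
        b k * (-(p k * b k) / (a k ^ 2 + b k ^ 2)) + p k = 0 := by
      field_simp
      ring
    rw [e, mul_comm (a k) (b k), sub_self]
    simp
  refine ⟨⟨?_, ?_⟩, by omega⟩
  · intro hu
    have := natDegree_eq_zero_of_isUnit hu
    omega
  · intro G H hGH
    -- the restrictions are constants
    have hres : ∀ k, ∃ g h : ℚ, res a b p k G = C g ∧ res a b p k H = C h ∧ g * h = -1 := by
      intro k
      have h1 : res a b p k G * res a b p k H = -1 := by
        rw [← map_mul, ← hGH, map_sub, map_mul, hresP, mul_zero, map_one, zero_sub]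
      have hu1 : IsUnit (res a b p k G) := by
        refine IsUnit.of_mul_eq_one (-(res a b p k H)) ?_
        rw [mul_neg, h1, neg_neg]
      have hu2 : IsUnit (res a b p k H) := by
        refine IsUnit.of_mul_eq_one (-(res a b p k G)) ?_
        rw [mul_neg, mul_comm, h1, neg_neg]
      obtain ⟨g, _, hg⟩ := Polynomial.isUnit_iff.1 hu1
      obtain ⟨h, _, hh⟩ := Polynomial.isUnit_iff.1 hu2
      refine ⟨g, h, hg.symm, hh.symm, ?_⟩
      have : (C (g * h) : ℚ[X]) = C (-1) := by
        rw [C_mul, hg, hh, h1]
        simp
      exact C_injective this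
    choose g h hg hh hgh using hres
    -- common points
    have hpt : ∀ k l, a k * b l - a l * b k ≠ 0 → g k = g l ∧ h k = h l := by
      intro k l hkl
      have hx : a k * ((b k * p l - b l * p k) / (a k * b l - a l * b k)) +
          b k * ((a l * p k - a k * p l) / (a k * b l - a l * b k)) + p k = 0 := by
        rw [mul_div_assoc', mul_div_assoc', ← add_div, div_add' _ _ _ hkl, div_eq_zero_iff]
        left
        ring
      have hy : a l * ((b k * p l - b l * p k) / (a k * b l - a l * b k)) +
          b l * ((a l * p k - a k * p l) / (a k * b l - a l * b k)) + p l = 0 := by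
        rw [mul_div_assoc', mul_div_assoc', ← add_div, div_add' _ _ _ hkl, div_eq_zero_iff]
        left
        ring
      constructor
      · rw [← evp_of_res (hk k) hx (hg k), ← evp_of_res (hk l) hy (hg l)]
      · rw [← evp_of_res (hk k) hx (hh k), ← evp_of_res (hk l) hy (hh l)]
    have hall : ∀ k, g k = g i ∧ h k = h i := by
      intro k
      by_cases h1 : a k * b i - a i * b k = 0
      · have h2 : a k * b j - a j * b k ≠ 0 := by
          intro h2
          rcases hk k with h3 | h3
          · apply hij
            apply mul_left_cancel₀ h3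
            linear_combination (a i) * h2 - (a j) * h1
          · apply hij
            apply mul_left_cancel₀ h3
            linear_combination (b i) * h2 - (b j) * h1
        have h3 := hpt k j h2
        have h4 := hpt i j hij
        exact ⟨h3.1.trans h4.1.symm, h3.2.trans h4.2.symm⟩
      · exact hpt k i h1
    -- subtract the constants
    obtain ⟨G', hG'⟩ : P ∣ G - C (C (g i)) := by
      refine prod_dvd_of_res hk hd _ fun k _ => ?_
      have : res a b p k (C (C (g i))) = C (g i) := by
        unfold res
        rw [evp_C, aeval_C]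
        rfl
      rw [map_sub, hg, this, (hall k).1, sub_self]
    obtain ⟨H', hH'⟩ : P ∣ H - C (C (h i)) := by
      refine prod_dvd_of_res hk hd _ fun k _ => ?_
      have : res a b p k (C (C (h i))) = C (h i) := by
        unfold res
        rw [evp_C, aeval_C]
        rfl
      rw [map_sub, hh, this, (hall k).2, sub_self]
    have hG2 : G = C (C (g i)) + P * G' := by
      rw [← hG']
      ring
    have hH2 : H = C (C (h i)) + P * H' := by
      rw [← hH']
      ring
    have hkey : C (C c) = C (C (g i)) * H' + C (C (h i)) * G' + P * (G' * H') := by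
      apply mul_left_cancel₀ hP0
      have e1 : (C (C (g i)) : ℚ[X][X]) * C (C (h i)) = -1 := by
        rw [← C_mul, ← C_mul, hgh]
        simp
      have e2 : C (C c) * P - 1 = (C (C (g i)) + P * G') * (C (C (h i)) + P * H') := by
        rw [← hG2, ← hH2]
        exact hGH
      linear_combination e2 + e1
    have hgi : g i ≠ 0 := by
      intro h0
      have := hgh i
      rw [h0, zero_mul] at this
      norm_num at this
    have hhi : h i ≠ 0 := by
      intro h0
      have := hgh i
      rw [h0, mul_zero] at this
      norm_num at this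
    by_cases hG0 : G' = 0
    · left
      rw [hG2, hG0, mul_zero, add_zero]
      exact (isUnit_C.2 (isUnit_C.2 (isUnit_iff_ne_zero.2 hgi)))
    · by_cases hH0 : H' = 0
      · right
        rw [hH2, hH0, mul_zero, add_zero]
        exact (isUnit_C.2 (isUnit_C.2 (isUnit_iff_ne_zero.2 hhi)))
      · exfalso
        have d1 : (P * (G' * H')).natDegree = P.natDegree + (G'.natDegree + H'.natDegree) := by
          rw [natDegree_mul hP0 (mul_ne_zero hG0 hH0), natDegree_mul hG0 hH0]
        have d2 : (C (C (g i)) * H' + C (C (h i)) * G').natDegree ≤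
            G'.natDegree + H'.natDegree := by
          refine (natDegree_add_le _ _).trans (max_le ?_ ?_)
          · exact (natDegree_C_mul_le _ _).trans (by omega)
          · exact (natDegree_C_mul_le _ _).trans (by omega)
        have d3 := congrArg natDegree hkey
        rw [natDegree_C, natDegree_add_eq_right_of_natDegree_lt (by omega), d1] at d3
        omega

end

end Pool.Agent.Helper11
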