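import Mathlib
import Pool.Agent.Helper11.CDefs
import Pool.Agent.Helper11.CGraph
import Pool.Agent.Helper11.CCusp
import Pool.Agent.Helper11.Irr2
import Pool.Agent.Helper11.Hom2

/-! The ring `ℚ[x, y] / (c ∏ L_i - 1)`: it is a domain, and its evaluations. -/

namespace Pool.Agent.Helper11

open Polynomial

variable {N : ℕ} {α : Fin N → Fin 2 → ℤ} {β : Fin N → ℤ} {c : ℤ}

/-- the quotient map -/
noncomputable def qmk (α : Fin N → Fin 2 → ℤ) (β : Fin N → ℤ) (c : ℤ) :
    MvPolynomial (Fin 2) ℚ →+* HypRingQ (n := 1) α β c :=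
  Ideal.Quotient.mk _

/-- the curve -/
noncomputable def crvP (α : Fin N → Fin 2 → ℤ) (β : Fin N → ℤ) (c : ℤ) :
    MvPolynomial (Fin 2) ℚ :=
  MvPolynomial.map (Int.castRingHom ℚ) (hypPoly (n := 1) α β c)

lemma qmk_surjective : Function.Surjective (qmk α β c) := Ideal.Quotient.mk_surjective

lemma qmk_eq_zero {f : MvPolynomial (Fin 2) ℚ} : qmk α β c f = 0 ↔ crvP α β c ∣ f := by
  unfold qmk
  exact Ideal.Quotient.eq_zero_iff_mem.trans Ideal.mem_span_singleton

/-- the form `i` -/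
noncomputable def lf (α : Fin N → Fin 2 → ℤ) (β : Fin N → ℤ) (i : Fin N) :
    MvPolynomial (Fin 2) ℚ :=
  MvPolynomial.C (α i 0 : ℚ) * MvPolynomial.X 0 + MvPolynomial.C (α i 1 : ℚ) * MvPolynomial.X 1 +
    MvPolynomial.C (β i : ℚ)

lemma map_hypLin (i : Fin N) :
    MvPolynomial.map (Int.castRingHom ℚ) (hypLin (n := 1) α β i) = lf α β i := by
  unfold hypLin lf
  simp only [map_add, map_sum, map_mul, MvPolynomial.map_C, MvPolynomial.map_X,
    Int.coe_castRingHom]
  congr 1
  exact Fin.sum_univ_two _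

lemma crvP_eq : crvP α β c = MvPolynomial.C (c : ℚ) * ∏ i, lf α β i - 1 := by
  unfold crvP hypPoly
  simp only [map_sub, map_mul, map_prod, map_one, MvPolynomial.map_C, map_hypLin,
    Int.coe_castRingHom]

section eval

variable {S : Type*} [CommRing S] [Algebra ℚ S]

/-- evaluation at a point -/
noncomputable def evm (s : Fin 2 → S) : MvPolynomial (Fin 2) ℚ →+* S :=
  MvPolynomial.eval₂Hom (algebraMap ℚ S) s

lemma evm_C (s : Fin 2 → S) (q : ℚ) : evm s (MvPolynomial.C q) = algebraMap ℚ S q := by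
  unfold evm
  rw [MvPolynomial.eval₂Hom_C]

lemma evm_X (s : Fin 2 → S) (m : Fin 2) : evm s (MvPolynomial.X m) = s m := by
  unfold evm
  rw [MvPolynomial.eval₂Hom_X']

lemma evm_lf (s : Fin 2 → S) (i : Fin N) : evm s (lf α β i) =
    (α i 0 : S) * s 0 + (α i 1 : S) * s 1 + β i := by
  unfold lf
  simp only [map_add, map_mul, evm_C, evm_X, map_intCast]

/-- homomorphisms from the ring of the curve -/
theorem exists_crvHom (s : Fin 2 → S)
    (hs : (c : S) * ∏ i, ((α i 0 : S) * s 0 + (α i 1 : S) * s 1 + β i) = 1) :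
    ∃ φ : HypRingQ (n := 1) α β c →+* S, ∀ f, φ (qmk α β c f) = evm s f := by
  refine ⟨Ideal.Quotient.lift _ (evm s) ?_, fun f => ?_⟩
  · intro x hx
    obtain ⟨y, rfl⟩ := Ideal.mem_span_singleton'.1 hx
    have h1 : evm s (crvP α β c) = 0 := by
      rw [crvP_eq]
      simp only [map_sub, map_mul, map_prod, map_one, evm_C, evm_lf, map_intCast]
      rw [hs, sub_self]
    rw [map_mul]
    have h2 : evm s (MvPolynomial.map (Int.castRingHom ℚ) (hypPoly (n := 1) α β c)) = 0 := h1
    rw [h2, mul_zero]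
  · exact Ideal.Quotient.lift_mk _ _ _

end eval

/-- the change of coordinates -/
noncomputable def theta (κ : ℚ) : MvPolynomial (Fin 2) ℚ →+* ℚ[X][X] :=
  MvPolynomial.eval₂Hom ((C : ℚ[X] →+* ℚ[X][X]).comp C) ![C X + C (C κ) * X, X]

/-- the inverse change of coordinates -/
noncomputable def theta' (κ : ℚ) : ℚ[X][X] →+* MvPolynomial (Fin 2) ℚ :=
  evp (MvPolynomial.X 0 - MvPolynomial.C κ * MvPolynomial.X 1) (MvPolynomial.X 1)

lemma theta_C (κ q : ℚ) : theta κ (MvPolynomial.C q) = C (C q) := by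
  unfold theta
  rw [MvPolynomial.eval₂Hom_C]
  rfl

lemma theta_X0 (κ : ℚ) : theta κ (MvPolynomial.X 0) = C X + C (C κ) * X := by
  unfold theta
  rw [MvPolynomial.eval₂Hom_X']
  rfl

lemma theta_X1 (κ : ℚ) : theta κ (MvPolynomial.X 1) = X := by
  unfold theta
  rw [MvPolynomial.eval₂Hom_X']
  rfl

lemma theta'_theta (κ : ℚ) (f : MvPolynomial (Fin 2) ℚ) : theta' κ (theta κ f) = f := by
  have h : (theta' κ).comp (theta κ) = RingHom.id _ := by
    refine MvPolynomial.ringHom_ext (fun q => ?_) (fun m => ?_)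
    · rw [RingHom.comp_apply, theta_C, RingHom.id_apply]
      unfold theta'
      rw [evp_C, aeval_C]
      rfl
    · rw [RingHom.comp_apply, RingHom.id_apply]
      fin_cases m
      · simp only [Fin.zero_eta]
        rw [theta_X0]
        unfold theta'
        rw [map_add, map_mul, evp_C, evp_C, aeval_X, aeval_C, evp_X]
        have : (algebraMap ℚ (MvPolynomial (Fin 2) ℚ)) κ = MvPolynomial.C κ := rfl
        rw [this]
        ring
      · simp only [Fin.mk_one]
        rw [theta_X1]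
        unfold theta'
        rw [evp_X]
  exact RingHom.congr_fun h f

lemma theta_theta' (κ : ℚ) (f : ℚ[X][X]) : theta κ (theta' κ f) = f := by
  have h : (theta κ).comp (theta' κ) = RingHom.id _ := by
    refine hom_ext ?_ ?_
    · rw [RingHom.comp_apply, RingHom.id_apply]
      unfold theta'
      rw [evp_C, aeval_X, map_sub, map_mul, theta_C, theta_X0, theta_X1]
      ring
    · rw [RingHom.comp_apply, RingHom.id_apply]
      unfold theta'
      rw [evp_X, theta_X1]
  exact RingHom.congr_fun h f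

/-- the change of coordinates as an isomorphism -/
noncomputable def thetaE (κ : ℚ) : MvPolynomial (Fin 2) ℚ ≃+* ℚ[X][X] :=
  { theta κ with
    invFun := theta' κ
    left_inv := theta'_theta κ
    right_inv := theta_theta' κ }

lemma thetaE_apply (κ : ℚ) (f : MvPolynomial (Fin 2) ℚ) : thetaE κ f = theta κ f := rfl

/-- the coefficients in the new coordinates -/
def na (α : Fin N → Fin 2 → ℤ) (k : Fin N) : ℚ := α k 0

def nb (α : Fin N → Fin 2 → ℤ) (κ : ℚ) (k : Fin N) : ℚ := κ * α k 0 + α k 1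

def np (β : Fin N → ℤ) (k : Fin N) : ℚ := β k

lemma theta_lf (κ : ℚ) (i : Fin N) : theta κ (lf α β i) = lin (na α) (nb α κ) (np β) i := by
  unfold lf lin na nb np
  simp only [map_add, map_mul, theta_C, theta_X0, theta_X1]
  ring

/-- the curve in the new coordinates -/
noncomputable def newP (α : Fin N → Fin 2 → ℤ) (β : Fin N → ℤ) (c : ℤ) (κ : ℚ) : ℚ[X][X] :=
  C (C (c : ℚ)) * ∏ k, lin (na α) (nb α κ) (np β) k - 1

lemma theta_crvP (κ : ℚ) : theta κ (crvP α β c) = newP α β c κ := by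
  rw [crvP_eq]
  unfold newP
  simp only [map_sub, map_mul, map_prod, map_one, theta_C, theta_lf]

lemma nab (κ : ℚ) (i j : Fin N) :
    na α i * nb α κ j - na α j * nb α κ i = hypDet α ![i, j] := by
  rw [dt_eq]
  unfold na nb
  push_cast
  ring

variable (hrk : ∀ i, ∃ j, hypDet α ![i, j] ≠ 0)
  (hgp : ∀ (J : Fin 2 → Fin N) k, hypDet α J ≠ 0 → (∀ m, J m ≠ k) → hypVal α β J k ≠ 0)

include hrk in
/-- good coordinates -/
lemma exists_kappa : ∃ κ : ℚ, ∀ k, nb α κ k ≠ 0 := by
  have hfin : (⋃ k : Fin N, {m : ℕ | nb α (m : ℚ) k = 0}).Finite := by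
    refine Set.finite_iUnion fun k => Set.Subsingleton.finite ?_
    intro m hm m' hm'
    simp only [Set.mem_ofPred_eq, nb] at hm hm'
    by_cases h0 : (α k 0 : ℚ) = 0
    · exfalso
      obtain ⟨j, hj⟩ := hrk k
      rw [h0, mul_zero, zero_add] at hm
      apply hj
      rw [dt_eq]
      have e1 : α k 0 = 0 := by exact_mod_cast h0
      have e2 : α k 1 = 0 := by exact_mod_cast hm
      rw [e1, e2]
      ring
    · have h1 : ((m : ℚ) - m') * (α k 0 : ℚ) = 0 := by linear_combination hm - hm'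
      have h2 := (mul_eq_zero.1 h1).resolve_right h0
      exact_mod_cast sub_eq_zero.1 h2
  obtain ⟨m, hm⟩ := hfin.exists_notMem
  refine ⟨m, fun k hk => hm ?_⟩
  rw [Set.mem_iUnion]
  exact ⟨k, hk⟩

lemma hypVal_pair (i k j : Fin N) : hypVal α β ![i, k] j =
    hypDet α ![i, k] * β j - (hypDet α ![j, k] * β i + hypDet α ![i, j] * β k) := by
  unfold hypVal
  rw [Fin.sum_univ_two]
  have h1 : Function.update (![i, k] : Fin 2 → Fin N) 0 j = ![j, k] := by
    funext m
    fin_cases m <;> simp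
  have h2 : Function.update (![i, k] : Fin 2 → Fin N) 1 j = ![i, j] := by
    funext m
    fin_cases m <;> simp
  rw [h1, h2]
  rfl

include hrk hgp in
/-- parallel lines are distinct -/
lemma par_ne {κ : ℚ} (hκ : ∀ k, nb α κ k ≠ 0) {i j : Fin N} (hij : j ≠ i)
    (hp : hypDet α ![i, j] = 0) : np β j * nb α κ i - np β i * nb α κ j ≠ 0 := by
  intro h0
  obtain ⟨k, hk⟩ := hrk i
  have hjk : j ≠ k := by
    rintro rfl
    exact hk hp
  have h1 := hgp ![i, k] j hk (by
    intro m
    fin_cases m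
    · exact hij.symm
    · exact hjk.symm)
  rw [hypVal_pair, hp, zero_mul, add_zero] at h1
  have h2 := nab (α := α) κ i k
  have h3 := nab (α := α) κ j k
  have h4 := nab (α := α) κ i j
  rw [hp, Int.cast_zero] at h4
  have h5 : ((hypDet α ![i, k] * β j - hypDet α ![j, k] * β i : ℤ) : ℚ) = 0 := by
    push_cast
    rw [← h2, ← h3]
    apply mul_left_cancel₀ (hκ i)
    unfold np at h0
    linear_combination (na α i * nb α κ k - na α k * nb α κ i) * h0 +
      (β i : ℚ) * nb α κ k * h4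
  exact h1 (by exact_mod_cast h5)

include hrk hgp in
lemma newP_irr (hN : 0 < N) (hc : c ≠ 0) {κ : ℚ} (hκ : ∀ k, nb α κ k ≠ 0) :
    Irreducible (newP α β c κ) ∧ (newP α β c κ).natDegree ≠ 0 := by
  obtain ⟨j, hj⟩ := hrk ⟨0, hN⟩
  refine irr_arr (i := ⟨0, hN⟩) (j := j) (fun k => Or.inr (hκ k)) ?_ ?_ (hκ j)
    (Int.cast_ne_zero.2 hc)
  · rintro k l hkl ⟨h1, h2, h3⟩
    have h4 : hypDet α ![k, l] = 0 := by
      have := nab (α := α) κ k l
      rw [h1, sub_self] at this
      exact_mod_cast this.symm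
    refine par_ne hrk hgp hκ (Ne.symm hkl) h4 ?_
    linear_combination h3
  · rw [nab]
    exact_mod_cast hj

include hrk hgp in
/-- The ring of the curve is a domain. -/
theorem isDomain_hypRingQ (hN : 0 < N) (hc : c ≠ 0) : IsDomain (HypRingQ (n := 1) α β c) := by
  obtain ⟨κ, hκ⟩ := exists_kappa hrk
  have h1 := (newP_irr hrk hgp hN hc hκ).1
  have h2 : Irreducible (crvP α β c) := by
    rw [← MulEquiv.irreducible_iff (thetaE κ)]
    exact (theta_crvP (α := α) (β := β) (c := c) κ) ▸ h1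
  have h3 : (Ideal.span {crvP α β c}).IsPrime := by
    rw [Ideal.span_singleton_prime h2.ne_zero]
    exact h2.prime
  exact Ideal.Quotient.isDomain (Ideal.span {crvP α β c})

/-- evaluation in the new coordinates -/
lemma evm_eq_evp {L : Type*} [CommRing L] [Algebra ℚ L] (κ : ℚ) (s : Fin 2 → L)
    (f : MvPolynomial (Fin 2) ℚ) :
    evm s f = evp (s 0 - algebraMap ℚ L κ * s 1) (s 1) (theta κ f) := by
  have h : evm s = (evp (s 0 - algebraMap ℚ L κ * s 1) (s 1)).comp (theta κ) := by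
    refine MvPolynomial.ringHom_ext (fun q => ?_) (fun m => ?_)
    · rw [RingHom.comp_apply, theta_C, evm_C, evp_C, aeval_C]
    · rw [RingHom.comp_apply, evm_X]
      fin_cases m
      · simp only [Fin.zero_eta]
        rw [theta_X0, map_add, map_mul, evp_C, evp_C, aeval_X, aeval_C, evp_X]
        ring
      · simp only [Fin.mk_one]
        rw [theta_X1, evp_X]
  exact RingHom.congr_fun h f

include hrk hgp in
/-- Injectivity of evaluations at non-algebraic points. -/
theorem crvHom_injective (hN : 0 < N) (hc : c ≠ 0) {κ : ℚ} (hκ : ∀ k, nb α κ k ≠ 0)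
    {L : Type*} [Field L] [Algebra ℚ L] {s : Fin 2 → L}
    {φ : HypRingQ (n := 1) α β c →+* L} (hφ : ∀ f, φ (qmk α β c f) = evm s f)
    (hs : Transcendental ℚ (s 0 - algebraMap ℚ L κ * s 1)) : Function.Injective φ := by
  rw [injective_iff_map_eq_zero]
  intro z hz
  obtain ⟨f, rfl⟩ := qmk_surjective z
  rw [hφ, evm_eq_evp κ] at hz
  have h1 := newP_irr hrk hgp hN hc hκ
  have h2 : evp (s 0 - algebraMap ℚ L κ * s 1) (s 1) (newP α β c κ) = 0 := by
    rw [← theta_crvP, ← evm_eq_evp, ← hφ, (qmk_eq_zero).2 dvd_rfl, map_zero]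
  have h3 := dvd_of_evp h1.1 h1.2 hs h2 hz
  rw [qmk_eq_zero]
  rw [← theta_crvP] at h3
  have h4 := map_dvd (theta' κ) h3
  rwa [theta'_theta, theta'_theta] at h4

end Pool.Agent.Helper11
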