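import Mathlib
import Pool.Agent.Helper11.CRing
import Pool.Agent.Helper11.CConst

/-! The units of the ring `ℚ[x, y] / (c ∏ L_i - 1)`. -/

namespace Pool.Agent.Helper11

open Polynomial

variable {N : ℕ} {α : Fin N → Fin 2 → ℤ} {β : Fin N → ℤ} {c : ℤ}

lemma transcendental_tinv : Transcendental ℚ tinv := by
  rw [transcendental_iff]
  intro p hp
  have h1 : (aeval tinv p : LaurentSeries ℚ) = ((0 : PowerSeries ℚ) : LaurentSeries ℚ) := by
    rw [hp, PowerSeries.coe_zero]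
  have h2 := Cst.poly_const p 0 h1
  rw [h2, aeval_C] at hp
  rw [h2]
  have h3 : p.coeff 0 = 0 := by
    have h4 : Function.Injective (algebraMap ℚ (LaurentSeries ℚ)) := (algebraMap ℚ _).injective
    exact h4 (by rw [hp, map_zero])
  rw [h3, C_0]

lemma exists_ps_of_order {x : LaurentSeries ℚ} (hx : 0 ≤ x.order) :
    ∃ h : PowerSeries ℚ, x = (h : LaurentSeries ℚ) := by
  obtain ⟨n, hn⟩ := Int.eq_ofNat_of_zero_le hx
  exact ⟨_, (LaurentSeries.X_order_mul_powerSeriesPart (f := x) (n := n) hn.symm).symm⟩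

/-- the data of the cusps -/
structure Cusps (α : Fin N → Fin 2 → ℤ) (β : Fin N → ℤ) (c : ℤ) where
  κ : ℚ
  hκ : ∀ k, nb α κ k ≠ 0
  y : Fin N → LaurentSeries ℚ
  φ : Fin N → (HypRingQ (n := 1) α β c →+* LaurentSeries ℚ)
  hφ : ∀ i f, φ i (qmk α β c f) = evm (![tinv + algebraMap ℚ _ κ * y i, y i]) f
  h1 : ∀ i j, hypDet α ![i, j] ≠ 0 → (φ i (qmk α β c (lf α β j))).order = -1
  h2 : ∀ i j, j ≠ i → hypDet α ![i, j] = 0 → (φ i (qmk α β c (lf α β j))).order = 0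
  h3 : ∀ i, (φ i (qmk α β c (lf α β i))).order =
    (Finset.univ.filter fun j => hypDet α ![i, j] ≠ 0).card

variable (hrk : ∀ i, ∃ j, hypDet α ![i, j] ≠ 0)
  (hgp : ∀ (J : Fin 2 → Fin N) k, hypDet α J ≠ 0 → (∀ m, J m ≠ k) → hypVal α β J k ≠ 0)

include hrk hgp in
theorem exists_cusps (hc : c ≠ 0) : Nonempty (Cusps α β c) := by
  obtain ⟨κ, hκ⟩ := exists_kappa hrk
  have hab : ∀ i j, na α j * nb α κ i - na α i * nb α κ j ≠ 0 ↔ hypDet α ![i, j] ≠ 0 := by
    intro i j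
    have h1 : na α j * nb α κ i - na α i * nb α κ j = -((hypDet α ![i, j] : ℤ) : ℚ) := by
      rw [← nab]
      ring
    rw [h1, neg_ne_zero, Int.cast_ne_zero]
  have key : ∀ i : Fin N, ∃ (y : LaurentSeries ℚ)
      (φ : HypRingQ (n := 1) α β c →+* LaurentSeries ℚ),
      (∀ f, φ (qmk α β c f) = evm (![tinv + algebraMap ℚ _ κ * y, y]) f) ∧
      (∀ j, hypDet α ![i, j] ≠ 0 → (φ (qmk α β c (lf α β j))).order = -1) ∧
      (∀ j, j ≠ i → hypDet α ![i, j] = 0 → (φ (qmk α β c (lf α β j))).order = 0) ∧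
      (φ (qmk α β c (lf α β i))).order =
        (Finset.univ.filter fun j => hypDet α ![i, j] ≠ 0).card := by
    intro i
    obtain ⟨y, L, hL, hrel, e1, e2, e3⟩ := exists_cusp (a := na α) (b := nb α κ) (p := np β)
      (c := (c : ℚ)) (Int.cast_ne_zero.2 hc) hκ i (by
        intro j hj
        by_cases h : hypDet α ![i, j] = 0
        · exact Or.inr (par_ne hrk hgp hκ hj h)
        · exact Or.inl ((hab i j).2 h)) (by
        obtain ⟨j, hj⟩ := hrk i
        exact ⟨j, (hab i j).2 hj⟩)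
    have hform : ∀ k, ((α k 0 : LaurentSeries ℚ) * (tinv + algebraMap ℚ _ κ * y) +
        (α k 1 : LaurentSeries ℚ) * y + β k) = L k := by
      intro k
      rw [hL]
      unfold na nb np
      simp only [map_add, map_mul, map_intCast]
      ring
    obtain ⟨φ, hφ⟩ := exists_crvHom (α := α) (β := β) (c := c) (S := LaurentSeries ℚ)
      ![tinv + algebraMap ℚ _ κ * y, y] (by
        simp only [Matrix.cons_val_zero, Matrix.cons_val_one]
        rw [Finset.prod_congr rfl fun k _ => hform k, ← hrel, map_intCast])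
    have hφL : ∀ k, φ (qmk α β c (lf α β k)) = L k := by
      intro k
      rw [hφ, evm_lf]
      exact hform k
    refine ⟨y, φ, hφ, ?_, ?_, ?_⟩
    · intro j hj
      rw [hφL]
      exact e1 j ((hab i j).2 hj)
    · intro j hji hj
      rw [hφL]
      refine e2 j hji ?_
      by_contra h
      exact (hab i j).1 h hj
    · rw [hφL, e3]
      congr 2
      ext j
      simp only [Finset.mem_filter, Finset.mem_univ, true_and]
      exact hab i j
  choose y φ hφ k1 k2 k3 using key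
  exact ⟨⟨κ, hκ, y, φ, hφ, k1, k2, k3⟩⟩

variable {hrk hgp}

lemma Cusps.y_injective (Φ : Cusps α β c)
    (hrk : ∀ i, ∃ j, hypDet α ![i, j] ≠ 0) : Function.Injective Φ.y := by
  intro i j hij
  by_contra hne
  have h1 : Φ.φ i (qmk α β c (lf α β i)) = Φ.φ j (qmk α β c (lf α β i)) := by
    rw [Φ.hφ, Φ.hφ, hij]
  have h2 := Φ.h3 i
  have h3 : 0 < (Finset.univ.filter fun j => hypDet α ![i, j] ≠ 0).card := by
    obtain ⟨k, hk⟩ := hrk i
    exact Finset.card_pos.2 ⟨k, by rw [Finset.mem_filter]; exact ⟨Finset.mem_univ _, hk⟩⟩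
  rw [h1] at h2
  by_cases h : hypDet α ![j, i] = 0
  · rw [Φ.h2 j i hne h] at h2
    omega
  · rw [Φ.h1 j i h] at h2
    omega

lemma Cusps.phi_injective (Φ : Cusps α β c)
    (hrk : ∀ i, ∃ j, hypDet α ![i, j] ≠ 0)
    (hgp : ∀ (J : Fin 2 → Fin N) k, hypDet α J ≠ 0 → (∀ m, J m ≠ k) → hypVal α β J k ≠ 0)
    (hN : 0 < N) (hc : c ≠ 0) (i : Fin N) : Function.Injective (Φ.φ i) := by
  refine crvHom_injective hrk hgp hN hc Φ.hκ (Φ.hφ i) ?_
  have h : (![tinv + algebraMap ℚ _ Φ.κ * Φ.y i, Φ.y i] : Fin 2 → LaurentSeries ℚ) 0 -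
      algebraMap ℚ (LaurentSeries ℚ) Φ.κ *
        (![tinv + algebraMap ℚ _ Φ.κ * Φ.y i, Φ.y i] : Fin 2 → LaurentSeries ℚ) 1 = tinv := by
    simp only [Matrix.cons_val_zero, Matrix.cons_val_one]
    ring
  rw [h]
  exact transcendental_tinv

lemma newP_lead (hc : c ≠ 0) {κ : ℚ} (hκ : ∀ k, nb α κ k ≠ 0) (hN : 0 < N) :
    (newP α β c κ).natDegree = N ∧ ∃ k : ℚ, k ≠ 0 ∧ (newP α β c κ).leadingCoeff = C k := by
  have hl : ∀ k, (lin (na α) (nb α κ) (np β) k).natDegree = 1 := fun k => natDegree_lin (hκ k)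
  have hlc : ∀ k, (lin (na α) (nb α κ) (np β) k).leadingCoeff = C (nb α κ k) := by
    intro k
    rw [leadingCoeff, hl]
    unfold lin
    rw [coeff_add, coeff_C_succ, zero_add, coeff_C_mul, coeff_X_one, mul_one]
  have hne : ∀ k, lin (na α) (nb α κ) (np β) k ≠ 0 := fun k => lin_ne_zero (Or.inr (hκ k))
  have hcc : (C (C (c : ℚ)) : ℚ[X][X]) ≠ 0 := by
    simpa using hc
  have hQ : (C (C (c : ℚ)) * ∏ k, lin (na α) (nb α κ) (np β) k).natDegree = N := by
    rw [natDegree_C_mul (by simpa using hc), natDegree_prod _ _ fun k _ => hne k]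
    simp [hl]
  have hQl : (C (C (c : ℚ)) * ∏ k, lin (na α) (nb α κ) (np β) k).leadingCoeff =
      C (c * ∏ k, nb α κ k) := by
    rw [leadingCoeff_mul, leadingCoeff_C, leadingCoeff_prod]
    simp only [hlc]
    rw [← map_prod, ← C_mul]
  have hlt : (1 : ℚ[X][X]).natDegree <
      (C (C (c : ℚ)) * ∏ k, lin (na α) (nb α κ) (np β) k).natDegree := by
    rw [natDegree_one, hQ]
    exact hN
  unfold newP
  refine ⟨by rw [natDegree_sub_eq_left_of_natDegree_lt hlt, hQ], c * ∏ k, nb α κ k, ?_, ?_⟩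
  · exact mul_ne_zero (Int.cast_ne_zero.2 hc) (Finset.prod_ne_zero_iff.2 fun k _ => hκ k)
  · rw [leadingCoeff_sub_of_degree_lt (degree_lt_degree hlt), hQl]

/-- Functions regular at all the cusps are constant. -/
theorem const_of_regular (Φ : Cusps α β c)
    (hrk : ∀ i, ∃ j, hypDet α ![i, j] ≠ 0)
    (hgp : ∀ (J : Fin 2 → Fin N) k, hypDet α J ≠ 0 → (∀ m, J m ≠ k) → hypVal α β J k ≠ 0)
    (hN : 0 < N) (hc : c ≠ 0) {f : HypRingQ (n := 1) α β c}
    (hf : ∀ i, 0 ≤ (Φ.φ i f).order) : ∃ q : ℚ, f = qmk α β c (MvPolynomial.C q) := by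
  obtain ⟨g, rfl⟩ := qmk_surjective f
  have hev : ∀ i h, Φ.φ i (qmk α β c h) = evp tinv (Φ.y i) (theta Φ.κ h) := by
    intro i h
    rw [Φ.hφ, evm_eq_evp Φ.κ]
    have e : (![tinv + algebraMap ℚ _ Φ.κ * Φ.y i, Φ.y i] : Fin 2 → LaurentSeries ℚ) 0 -
        algebraMap ℚ (LaurentSeries ℚ) Φ.κ *
          (![tinv + algebraMap ℚ _ Φ.κ * Φ.y i, Φ.y i] : Fin 2 → LaurentSeries ℚ) 1 = tinv := by
      simp only [Matrix.cons_val_zero, Matrix.cons_val_one]
      ring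
    rw [e]
    rfl
  obtain ⟨hdeg, hlead⟩ := newP_lead (β := β) hc Φ.hκ hN
  have key := Cst.const_of_branches (newP α β c Φ.κ) hdeg hlead Φ.y (Φ.y_injective hrk) (by
    intro i
    have h1 : evp tinv (Φ.y i) (newP α β c Φ.κ) = 0 := by
      rw [← theta_crvP, ← hev, (qmk_eq_zero).2 dvd_rfl, map_zero]
    exact h1) (theta Φ.κ g) (by
    intro i
    obtain ⟨h, hh⟩ := exists_ps_of_order (hf i)
    refine ⟨h, ?_⟩
    rw [← hh, hev]
    rfl)
  obtain ⟨q, hq⟩ := key ⟨0, hN⟩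
  refine ⟨q, Φ.phi_injective hrk hgp hN hc ⟨0, hN⟩ ?_⟩
  have h1 : Φ.φ ⟨0, hN⟩ (qmk α β c g) = algebraMap ℚ (LaurentSeries ℚ) q := by
    rw [hev]
    exact hq
  rw [h1, Φ.hφ, evm_C]

end Pool.Agent.Helper11
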