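import Mathlib
import Pool.Agent.Helper11.CUnits

/-! Discrete valuation rings of a field embedded in the field of Laurent series. -/

namespace Pool.Agent.Helper11

lemma mem_psO_iff {x : LaurentSeries ℚ} : x ∈ psO ↔ 0 ≤ x.order := by
  rw [mem_psO]
  constructor
  · rintro ⟨y, rfl⟩
    exact order_coe_nonneg y
  · intro h
    obtain ⟨y, hy⟩ := exists_ps_of_order h
    exact ⟨y, hy.symm⟩

variable {K : Type*} [Field K] (ψ : K →+* LaurentSeries ℚ)

lemma mem_comap_psO {x : K} : x ∈ psO.comap ψ ↔ 0 ≤ (ψ x).order := by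
  rw [ValuationSubring.mem_comap, mem_psO_iff]

lemma o_mul {x y : K} (hx : x ≠ 0) (hy : y ≠ 0) :
    (ψ (x * y)).order = (ψ x).order + (ψ y).order := by
  rw [map_mul]
  exact HahnSeries.order_mul ((map_ne_zero ψ).2 hx) ((map_ne_zero ψ).2 hy)

lemma o_one : (ψ 1).order = 0 := by
  rw [map_one, HahnSeries.order_one]

lemma o_inv {x : K} (hx : x ≠ 0) : (ψ x⁻¹).order = - (ψ x).order := by
  have h := o_mul ψ hx (inv_ne_zero hx)
  rw [mul_inv_cancel₀ hx, o_one] at h
  omega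

lemma o_pow {x : K} (hx : x ≠ 0) (k : ℕ) : (ψ (x ^ k)).order = k * (ψ x).order := by
  induction k with
  | zero => rw [pow_zero, o_one]; simp
  | succ k ih =>
    rw [pow_succ, o_mul ψ (pow_ne_zero _ hx) hx, ih]
    push_cast
    ring

theorem isDVR_comap {x₀ : K} (h0 : (ψ x₀).order ≠ 0) :
    IsDiscreteValuationRing (psO.comap ψ) := by
  classical
  have hx₀ : x₀ ≠ 0 := by
    rintro rfl
    rw [map_zero, HahnSeries.order_zero] at h0
    exact h0 rfl
  have hex : ∃ m : ℕ, 0 < m ∧ ∃ x : K, x ≠ 0 ∧ (ψ x).order = m := by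
    rcases lt_or_gt_of_ne h0 with h | h
    · refine ⟨(ψ x₀).order.natAbs, Int.natAbs_pos.2 h0, x₀⁻¹, inv_ne_zero hx₀, ?_⟩
      rw [o_inv ψ hx₀]
      omega
    · refine ⟨(ψ x₀).order.natAbs, Int.natAbs_pos.2 h0, x₀, hx₀, ?_⟩
      omega
  set d := Nat.find hex with hd
  obtain ⟨hd0, π, hπ0, hπ⟩ := Nat.find_spec hex
  rw [← hd] at hπ hd0
  have hmin : ∀ x : K, x ≠ 0 → 0 < (ψ x).order → (d : ℤ) ≤ (ψ x).order := by
    intro x hx hpos
    by_contra hlt
    push Not at hlt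
    have h1 : (ψ x).order.natAbs < d := by omega
    exact Nat.find_min hex h1 ⟨by omega, x, hx, by omega⟩
  have hdiv : ∀ x : K, x ≠ 0 → 0 ≤ (ψ x).order → ∃ k : ℕ, (ψ x).order = k * d := by
    intro x hx hnn
    set q : ℕ := ((ψ x).order / d).toNat with hq
    have hq' : (q : ℤ) = (ψ x).order / d := by
      rw [hq]
      exact Int.toNat_of_nonneg (Int.ediv_nonneg hnn (by omega))
    refine ⟨q, ?_⟩
    have h1 : (ψ (x * (π ^ q)⁻¹)).order = (ψ x).order % d := by
      rw [o_mul ψ hx (inv_ne_zero (pow_ne_zero _ hπ0)), o_inv ψ (pow_ne_zero _ hπ0),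
        o_pow ψ hπ0, hπ, hq', Int.emod_def]
      ring
    have h2 : (ψ x).order % d = 0 := by
      by_contra hne
      have h3 : 0 ≤ (ψ x).order % d := Int.emod_nonneg _ (by omega)
      have h4 : (ψ x).order % d < d := Int.emod_lt_of_pos _ (by omega)
      have h5 := hmin (x * (π ^ q)⁻¹) (mul_ne_zero hx (inv_ne_zero (pow_ne_zero _ hπ0)))
        (by rw [h1]; omega)
      rw [h1] at h5
      omega
    have h6 := Int.emod_add_mul_ediv (ψ x).order d
    rw [h2, ← hq'] at h6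
    linarith
  -- units
  have hunit : ∀ x : psO.comap ψ, (x : K) ≠ 0 → (ψ x).order = 0 → IsUnit x := by
    intro x hx h
    have h1 : (x : K)⁻¹ ∈ psO.comap ψ := by
      rw [mem_comap_psO, o_inv ψ hx, h]
      simp
    refine IsUnit.of_mul_eq_one ⟨(x : K)⁻¹, h1⟩ ?_
    apply Subtype.ext
    exact mul_inv_cancel₀ hx
  have hunit' : ∀ x : psO.comap ψ, IsUnit x → (ψ x).order = 0 := by
    intro x hx
    obtain ⟨u, rfl⟩ := hx
    have h1 := (mem_comap_psO ψ).1 (u : psO.comap ψ).2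
    have h2 := (mem_comap_psO ψ).1 ((u⁻¹ : (psO.comap ψ)ˣ) : psO.comap ψ).2
    have h3 : ((u : psO.comap ψ) : K) * (((u⁻¹ : (psO.comap ψ)ˣ) : psO.comap ψ) : K) = 1 := by
      have := congrArg Subtype.val (Units.mul_inv u)
      exact this
    have h4 := o_mul ψ (left_ne_zero_of_mul_eq_one h3) (right_ne_zero_of_mul_eq_one h3)
    rw [h3, o_one] at h4
    omega
  refine IsDiscreteValuationRing.ofHasUnitMulPowIrreducibleFactorization ?_
  have hπm : π ∈ psO.comap ψ := by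
    rw [mem_comap_psO, hπ]
    omega
  refine ⟨⟨π, hπm⟩, ⟨?_, ?_⟩, ?_⟩
  · intro h
    have := hunit' _ h
    simp only at this
    omega
  · intro a b hab
    have hab' : π = (a : K) * b := congrArg Subtype.val hab
    have ha : (a : K) ≠ 0 := by
      intro h
      rw [h, zero_mul] at hab'
      exact hπ0 hab'
    have hb : (b : K) ≠ 0 := by
      intro h
      rw [h, mul_zero] at hab'
      exact hπ0 hab'
    have h1 := o_mul ψ ha hb
    rw [← hab', hπ] at h1
    have h2 := (mem_comap_psO ψ).1 a.2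
    have h3 := (mem_comap_psO ψ).1 b.2
    by_cases h4 : (ψ (a : K)).order = 0
    · exact Or.inl (hunit a ha h4)
    · right
      refine hunit b hb ?_
      have h5 := hmin a ha (by omega)
      omega
  · intro x hx
    have hx' : (x : K) ≠ 0 := fun h => hx (Subtype.ext h)
    obtain ⟨k, hk⟩ := hdiv x hx' ((mem_comap_psO ψ).1 x.2)
    refine ⟨k, ?_⟩
    have h1 : (ψ ((x : K) * (π ^ k)⁻¹)).order = 0 := by
      rw [o_mul ψ hx' (inv_ne_zero (pow_ne_zero _ hπ0)), o_inv ψ (pow_ne_zero _ hπ0),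
        o_pow ψ hπ0, hπ, hk]
      ring
    have h2 : (x : K) * (π ^ k)⁻¹ ∈ psO.comap ψ := by
      rw [mem_comap_psO, h1]
    obtain ⟨u, hu⟩ := hunit ⟨_, h2⟩ (mul_ne_zero hx' (inv_ne_zero (pow_ne_zero _ hπ0))) h1
    refine ⟨u, ?_⟩
    apply Subtype.ext
    rw [hu]
    change π ^ k * ((x : K) * (π ^ k)⁻¹) = x
    rw [mul_comm, mul_assoc, inv_mul_cancel₀ (pow_ne_zero _ hπ0), mul_one]

end Pool.Agent.Helper11
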