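import Mathlib
import Pool.Agent.Helper11.CUnits

/-! The units of the ring `ℚ[x, y] / (c ∏ L_i - 1)`: up to powers, they are products of constants
and of the forms `L_i`. -/

namespace Pool.Agent.Helper11

variable {N : ℕ} {α : Fin N → Fin 2 → ℤ} {β : Fin N → ℤ} {c : ℤ}

/-- the order as a homomorphism -/
noncomputable def lordHom : (LaurentSeries ℚ)ˣ →* Multiplicative ℤ where
  toFun f := Multiplicative.ofAdd (lord f)
  map_one' := by
    unfold lord
    rw [Units.val_one, HahnSeries.order_one]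
    rfl
  map_mul' f g := by
    rw [lord_mul]
    rfl

/-- the order at a cusp -/
noncomputable def Cusps.v (Φ : Cusps α β c) (i : Fin N) :
    (HypRingQ (n := 1) α β c)ˣ →* Multiplicative ℤ :=
  lordHom.comp (Units.map (Φ.φ i : HypRingQ (n := 1) α β c →* LaurentSeries ℚ))

lemma Cusps.v_apply (Φ : Cusps α β c) (i : Fin N) (f : (HypRingQ (n := 1) α β c)ˣ) :
    (Φ.v i f).toAdd = (Φ.φ i (f : HypRingQ (n := 1) α β c)).order := rfl

lemma crv_rel : (c : HypRingQ (n := 1) α β c) * ∏ i, qmk α β c (lf α β i) = 1 := by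
  have h : qmk α β c (crvP α β c) = 0 := (qmk_eq_zero).2 dvd_rfl
  rw [crvP_eq, map_sub, map_one, map_mul, map_prod, sub_eq_zero] at h
  have h2 : qmk α β c (MvPolynomial.C (c : ℚ)) = (c : HypRingQ (n := 1) α β c) := by
    have h3 : (MvPolynomial.C (c : ℚ) : MvPolynomial (Fin 2) ℚ) = (c : MvPolynomial (Fin 2) ℚ) :=
      map_intCast _ c
    rw [h3, map_intCast]
  rw [← h2]
  exact h

lemma lf_isUnit (i : Fin N) : IsUnit (qmk α β c (lf α β i)) := by
  refine isUnit_of_dvd_one ?_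
  rw [← crv_rel (α := α) (β := β) (c := c)]
  exact Dvd.dvd.mul_left (Finset.dvd_prod_of_mem _ (Finset.mem_univ i)) _

/-- the unit `L_i` -/
noncomputable def crvU (α : Fin N → Fin 2 → ℤ) (β : Fin N → ℤ) (c : ℤ) (i : Fin N) :
    (HypRingQ (n := 1) α β c)ˣ := (lf_isUnit i).unit

lemma crvU_val (i : Fin N) : (crvU α β c i : HypRingQ (n := 1) α β c) = qmk α β c (lf α β i) := rfl

/-- constants as units -/
noncomputable def cstA (α : Fin N → Fin 2 → ℤ) (β : Fin N → ℤ) (c : ℤ) :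
    ℚˣ →* (HypRingQ (n := 1) α β c)ˣ :=
  Units.map ((qmk α β c).comp MvPolynomial.C : ℚ →* HypRingQ (n := 1) α β c)

lemma cstA_val (q : ℚˣ) : (cstA α β c q : HypRingQ (n := 1) α β c) =
    qmk α β c (MvPolynomial.C (q : ℚ)) := rfl

variable (hrk : ∀ i, ∃ j, hypDet α ![i, j] ≠ 0)
  (hgp : ∀ (J : Fin 2 → Fin N) k, hypDet α J ≠ 0 → (∀ m, J m ≠ k) → hypVal α β J k ≠ 0)

/-- the orders of a product of forms -/
lemma v_prod (Φ : Cusps α β c) (i : Fin N) (e : Fin N → ℤ) :
    (((Φ.v i (∏ j, crvU α β c j ^ e j)).toAdd : ℤ) : ℚ) = lap α ℚ (fun j => (e j : ℚ)) i := by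
  classical
  rw [map_prod, toAdd_prod]
  have h1 : ∀ j, (Φ.v i (crvU α β c j ^ e j)).toAdd =
      e j * (Φ.φ i (qmk α β c (lf α β j))).order := by
    intro j
    rw [map_zpow, toAdd_zpow, Φ.v_apply, crvU_val, smul_eq_mul]
  simp only [h1]
  rw [lap_apply, Finset.sum_sub_distrib, Finset.sum_const, nsmul_eq_mul,
    ← Finset.add_sum_erase Finset.univ _ (Finset.mem_univ i), Φ.h3]
  have h2 : ∀ j ∈ Finset.univ.erase i, e j * (Φ.φ i (qmk α β c (lf α β j))).order =
      if hypDet α ![i, j] ≠ 0 then - e j else 0 := by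
    intro j hj
    by_cases h : hypDet α ![i, j] = 0
    · rw [Φ.h2 i j (Finset.ne_of_mem_erase hj) h, mul_zero, if_neg (not_not.2 h)]
    · rw [Φ.h1 i j h, if_pos h]
      ring
  rw [Finset.sum_congr rfl h2, ← Finset.sum_filter]
  have h3 : (Finset.univ.erase i).filter (fun j => hypDet α ![i, j] ≠ 0) =
      Finset.univ.filter (fun j => hypDet α ![i, j] ≠ 0) := by
    ext j
    simp only [Finset.mem_filter, Finset.mem_erase, Finset.mem_univ, true_and, and_true]
    constructor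
    · exact fun h => h.2
    · intro h
      refine ⟨?_, h⟩
      rintro rfl
      exact h (dt_self _)
  rw [h3, Finset.sum_neg_distrib]
  push_cast
  ring

include hrk hgp in
/-- A unit all whose orders at the cusps agree is constant. -/
lemma const_of_equal_orders (Φ : Cusps α β c) (hN : 0 < N) (hc : c ≠ 0)
    {g : (HypRingQ (n := 1) α β c)ˣ} {k : ℤ} (hg : ∀ i, (Φ.v i g).toAdd = k) :
    ∃ q : ℚˣ, g = cstA α β c q := by
  have : IsDomain (HypRingQ (n := 1) α β c) := isDomain_hypRingQ hrk hgp hN hc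
  have key : ∀ g : (HypRingQ (n := 1) α β c)ˣ, (∀ i, 0 ≤ (Φ.v i g).toAdd) →
      ∃ q : ℚˣ, g = cstA α β c q := by
    intro g hg
    obtain ⟨q, hq⟩ := const_of_regular Φ hrk hgp hN hc (f := (g : HypRingQ (n := 1) α β c)) hg
    have hq0 : q ≠ 0 := by
      rintro rfl
      rw [map_zero, map_zero] at hq
      exact g.ne_zero hq
    refine ⟨Units.mk0 q hq0, Units.ext ?_⟩
    rw [hq, cstA_val]
    rfl
  rcases le_or_gt 0 k with hk | hk
  · exact key g fun i => by rw [hg i]; exact hk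
  · obtain ⟨q, hq⟩ := key g⁻¹ fun i => by
      rw [map_inv, toAdd_inv, hg i]
      omega
    refine ⟨q⁻¹, ?_⟩
    rw [map_inv, ← hq, inv_inv]

include hrk hgp in
/-- **The units of the curve.** -/
theorem units_of_curve (hN : 0 < N) (hc : c ≠ 0) (f : (HypRingQ (n := 1) α β c)ˣ) :
    ∃ M : ℕ, M ≠ 0 ∧ ∃ (q : ℚˣ) (e : Fin N → ℤ),
      f ^ M = cstA α β c q * ∏ i, crvU α β c i ^ e i := by
  obtain ⟨Φ⟩ := exists_cusps hrk hgp hc
  set v : Fin N → ℚ := fun i => ((Φ.v i f).toAdd : ℚ) with hv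
  set a : ℚ := (∑ i, v i) / N with ha
  have hN' : (N : ℚ) ≠ 0 := by exact_mod_cast hN.ne'
  have hs : ∑ i, (v i - a) = 0 := by
    rw [Finset.sum_sub_distrib, Finset.sum_const, Finset.card_univ, Fintype.card_fin,
      nsmul_eq_mul, ha]
    field_simp
    ring
  obtain ⟨x, hx⟩ := lap_solve hrk hN hs
  -- common denominator
  set M : ℕ := N * ∏ i, (x i).den with hM
  have hM0 : M ≠ 0 := Nat.mul_ne_zero hN.ne' (Finset.prod_ne_zero_iff.2 fun i _ => (x i).den_nz)
  have hex : ∀ i, ∃ e : ℤ, (M : ℚ) * x i = e := by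
    intro i
    refine ⟨N * (∏ j ∈ Finset.univ.erase i, ((x j).den : ℤ)) * (x i).num, ?_⟩
    have h1 : (∏ j, (x j).den) = (x i).den * ∏ j ∈ Finset.univ.erase i, (x j).den :=
      (Finset.mul_prod_erase _ _ (Finset.mem_univ i)).symm
    rw [hM, h1]
    have h2 : ((x i).den : ℚ) * x i = (x i).num := by
      rw [mul_comm]
      exact Rat.mul_den_eq_num (x i)
    push_cast
    linear_combination (N : ℚ) * (∏ j ∈ Finset.univ.erase i, ((x j).den : ℚ)) * h2
  choose e he using hex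
  have hak : ∃ k : ℤ, (M : ℚ) * a = k := by
    refine ⟨(∏ i, ((x i).den : ℤ)) * ∑ i, (Φ.v i f).toAdd, ?_⟩
    rw [hM, ha]
    push_cast
    field_simp
    rw [hv]
  obtain ⟨k, hk⟩ := hak
  refine ⟨M, hM0, ?_⟩
  obtain ⟨q, hq⟩ := const_of_equal_orders hrk hgp Φ hN hc
    (g := f ^ M / ∏ j, crvU α β c j ^ e j) (k := k) (by
      intro i
      have h1 : ((((Φ.v i (f ^ M / ∏ j, crvU α β c j ^ e j)).toAdd : ℤ)) : ℚ) = k := by
        rw [map_div, toAdd_div, map_pow, toAdd_pow, nsmul_eq_mul]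
        push_cast
        rw [v_prod]
        have h2 : (fun j => (e j : ℚ)) = (M : ℚ) • x := by
          funext j
          rw [Pi.smul_apply, smul_eq_mul, he]
        rw [h2, map_smul, Pi.smul_apply, hx, smul_eq_mul, ← hk]
        simp only [hv]
        ring
      exact_mod_cast h1)
  exact ⟨q, e, by rw [← hq, div_mul_cancel]⟩

end Pool.Agent.Helper11
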