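import Mathlib
import Pool.Agent.Helper11.CUnits2
import Pool.Agent.Helper11.CDvr
import Pool.Agent.Helper11.KCirc

/-! The classes `∑ {q_i, L_i}` which are integral vanish. -/

namespace Pool.Agent.Helper11

variable {N : ℕ} {α : Fin N → Fin 2 → ℤ} {β : Fin N → ℤ} {c : ℤ}

/-- a rational constant as a unit of `K` -/
noncomputable def cst (K : Type*) [Field K] [CharZero K] (q : ℚˣ) : Kˣ :=
  Units.map (algebraMap ℚ K : ℚ →* K) q

/-- combinations of orders of forms -/
lemma sum_orders {F : Type*} [Field F] [LinearOrder F] [IsStrictOrderedRing F] (Φ : Cusps α β c) (i : Fin N) (x : Fin N → F) :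
    ∑ j, x j * ((Φ.φ i (qmk α β c (lf α β j))).order : F) = lap α F x i := by
  classical
  rw [lap_apply, Finset.sum_sub_distrib, Finset.sum_const, nsmul_eq_mul,
    ← Finset.add_sum_erase Finset.univ _ (Finset.mem_univ i), Φ.h3]
  have h2 : ∀ j ∈ Finset.univ.erase i, x j * ((Φ.φ i (qmk α β c (lf α β j))).order : F) =
      if hypDet α ![i, j] ≠ 0 then - x j else 0 := by
    intro j hj
    by_cases h : hypDet α ![i, j] = 0
    · rw [Φ.h2 i j (Finset.ne_of_mem_erase hj) h, Int.cast_zero, mul_zero, if_neg (not_not.2 h)]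
    · rw [Φ.h1 i j h, if_pos h]
      push_cast
      ring
  rw [Finset.sum_congr rfl h2, ← Finset.sum_filter]
  have h3 : (Finset.univ.erase i).filter (fun j => hypDet α ![i, j] ≠ 0) =
      Finset.univ.filter (fun j => hypDet α ![i, j] ≠ 0) := by
    ext j
    simp only [Finset.mem_filter, Finset.mem_erase, Finset.mem_univ, true_and, and_true]
    constructor
    · exact fun h => h.2
    · intro h
      refine ⟨?_, h⟩
      rintro rfl
      exact h (dt_self _)
  rw [h3, Finset.sum_neg_distrib]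
  push_cast
  ring

section field

variable {K : Type*} [Field K] [CharZero K]

/-- constants: symbols vanish -/
lemma symM_cst_cst (f : Fin 2 → Kˣ) {q r : ℚˣ} (h0 : f 0 = cst K q) (h1 : f 1 = cst K r) :
    symM f = 0 := by
  -- clear denominators
  have key : ∀ (a b : ℤ) (u v : Kˣ), (u : K) = a → (v : K) = b → symM ![u, v] = 0 := by
    intro a b u v hu hv
    exact symM_int_int ![u, v] (i := 0) (j := 1) (by decide) hu hv
  have hfrac : ∀ q : ℚˣ, ∃ u v : Kˣ, (∃ a : ℤ, (u : K) = a) ∧ (∃ b : ℤ, (v : K) = b) ∧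
      cst K q = u / v := by
    intro q
    have hn : ((q : ℚ).num : K) ≠ 0 := Int.cast_ne_zero.2 (Rat.num_ne_zero.2 q.ne_zero)
    have hd : (((q : ℚ).den : ℤ) : K) ≠ 0 := Int.cast_ne_zero.2 (by exact_mod_cast (q : ℚ).den_nz)
    refine ⟨Units.mk0 _ hn, Units.mk0 _ hd, ⟨_, rfl⟩, ⟨_, rfl⟩, Units.ext ?_⟩
    rw [Units.val_div_eq_div_val]
    change algebraMap ℚ K (q : ℚ) = _
    rw [eq_ratCast, Units.val_mk0, Units.val_mk0]
    conv_lhs => rw [← Rat.num_div_den (q : ℚ)]
    push_cast
    rfl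
  obtain ⟨u, v, ⟨a, hu⟩, ⟨b, hv⟩, huv⟩ := hfrac q
  obtain ⟨u', v', ⟨a', hu'⟩, ⟨b', hv'⟩, huv'⟩ := hfrac r
  have hf : f = Function.update (Function.update ![u, u'] 0 (u / v)) 1 (u' / v') := by
    funext m
    fin_cases m
    · simp [h0, huv]
    · simp [h1, huv']
  have e1 : ∀ x y : Kˣ, Function.update (Function.update ![u, u'] 0 x) 1 y = ![x, y] := by
    intro x y
    funext m
    fin_cases m <;> simp
  have e2 : ∀ x y z : Kˣ, Function.update (![x, y] : Fin 2 → Kˣ) 0 z = ![z, y] := by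
    intro x y z
    funext m
    fin_cases m <;> simp
  rw [hf, symM_update_div, e1, e1]
  have e3 : ∀ y, symM ![u / v, y] = symM ![u, y] - symM ![v, y] := by
    intro y
    have := symM_update_div (![u, y] : Fin 2 → Kˣ) 0 u v
    rwa [e2, e2, e2] at this
  rw [e3, e3, key a a' u u' hu hu', key b a' v u' hv hu', key a b' u v' hu hv',
    key b b' v v' hv hv']
  simp

/-- symbols with a root of unity vanish -/
lemma symM_sq_one (u v : Kˣ) (hu : u ^ 2 = 1) : symM ![u, v] = 0 := by
  have h1 := symM_update_pow (![u, v] : Fin 2 → Kˣ) 0 u 2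
  have e2 : ∀ z : Kˣ, Function.update (![u, v] : Fin 2 → Kˣ) 0 z = ![z, v] := by
    intro z
    funext m
    fin_cases m <;> simp
  have h2 := symM_update_one (![u, v] : Fin 2 → Kˣ) 0
  rw [e2] at h2
  rw [hu, e2, e2, h2] at h1
  have h3 : ((2 : ℕ) : ℚ) • symM ![u, v] = 0 := h1.symm
  exact (smul_eq_zero.1 h3).resolve_left (by norm_num)

lemma update_pair_zero {R : Type*} (x y z : R) : Function.update (![x, y] : Fin 2 → R) 0 z =
    ![z, y] := by
  funext m
  fin_cases m <;> simp

lemma update_pair_one {R : Type*} (x y z : R) : Function.update (![x, y] : Fin 2 → R) 1 z =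
    ![x, z] := by
  funext m
  fin_cases m <;> simp

omit [CharZero K] in
lemma symM_mul_left (u u' v : Kˣ) : symM ![u * u', v] = symM ![u, v] + symM ![u', v] := by
  have := symM_update_mul (![u, v] : Fin 2 → Kˣ) 0 u u'
  rwa [update_pair_zero, update_pair_zero, update_pair_zero] at this

omit [CharZero K] in
lemma symM_mul_right (u v v' : Kˣ) : symM ![u, v * v'] = symM ![u, v] + symM ![u, v'] := by
  have := symM_update_mul (![u, v] : Fin 2 → Kˣ) 1 v v'
  rwa [update_pair_one, update_pair_one, update_pair_one] at this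

omit [CharZero K] in
lemma symM_one_right (u : Kˣ) : symM ![u, 1] = 0 := by
  have := symM_update_one (![u, u] : Fin 2 → Kˣ) 1
  rwa [update_pair_one] at this

omit [CharZero K] in
lemma symM_prod_right {ι : Type*} (s : Finset ι) (u : Kˣ) (v : ι → Kˣ) :
    symM ![u, ∏ j ∈ s, v j] = ∑ j ∈ s, symM ![u, v j] := by
  classical
  induction s using Finset.induction_on with
  | empty => simp [symM_one_right]
  | insert a s ha ih => rw [Finset.prod_insert ha, Finset.sum_insert ha, symM_mul_right, ih]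

end field

/-- units of a valuation subring -/
lemma mem_of_unitGroup {K : Type*} [Field K] {O : ValuationSubring K} {u : Kˣ}
    (hu : u ∈ O.unitGroup) : (u : K) ∈ O ∧ ((u⁻¹ : Kˣ) : K) ∈ O :=
  ⟨O.mem_of_valuation_le_one _ hu.le, O.mem_of_valuation_le_one _ (O.unitGroup.inv_mem hu).le⟩

/-- the forms as units of the function field -/
noncomputable def LK (α : Fin N → Fin 2 → ℤ) (β : Fin N → ℤ) (c : ℤ) (K : Type*) [Field K]
    [Algebra (HypRingQ (n := 1) α β c) K] (i : Fin N) : Kˣ :=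
  Units.map (algebraMap (HypRingQ (n := 1) α β c) K : HypRingQ (n := 1) α β c →* K)
    (crvU α β c i)

theorem cst_part_zero (hrk : ∀ i, ∃ j, hypDet α ![i, j] ≠ 0)
    (hgp : ∀ (J : Fin 2 → Fin N) k, hypDet α J ≠ 0 → (∀ m, J m ≠ k) → hypVal α β J k ≠ 0)
    (hN : 0 < N) (hc : c ≠ 0) {K : Type*} [Field K] [CharZero K]
    [Algebra (HypRingQ (n := 1) α β c) K]
    [IsFractionRing (HypRingQ (n := 1) α β c) K] (q : Fin N → ℚˣ)
    (h : ∑ i, symM ![cst K (q i), LK α β c K i] ∈ integralM K 2) :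
    ∑ i, symM ![cst K (q i), LK α β c K i] = 0 := by
  obtain ⟨Φ⟩ := exists_cusps hrk hgp hc
  obtain ⟨τ, hτ, -⟩ := exists_tame
  set x : Fin N → ℝ := fun j => Real.log |((q j : ℚ) : ℝ)| with hx
  have hlap : lap α ℝ x = 0 := by
    funext i
    let ψ : K →+* LaurentSeries ℚ := IsFractionRing.lift (Φ.phi_injective hrk hgp hN hc i)
    have hψ : ∀ a, ψ (algebraMap (HypRingQ (n := 1) α β c) K a) = Φ.φ i a := fun a =>
      IsFractionRing.lift_algebraMap (Φ.phi_injective hrk hgp hN hc i) a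
    have hψL : ∀ j, ψ (LK α β c K j : K) = Φ.φ i (qmk α β c (lf α β j)) := fun j => hψ _
    have hdvr : IsDiscreteValuationRing (psO.comap ψ) := by
      refine isDVR_comap ψ (x₀ := (LK α β c K i : K)) ?_
      rw [hψL, Φ.h3]
      obtain ⟨k, hk⟩ := hrk i
      have h3 : 0 < (Finset.univ.filter fun j => hypDet α ![i, j] ≠ 0).card :=
        Finset.card_pos.2 ⟨k, by rw [Finset.mem_filter]; exact ⟨Finset.mem_univ _, hk⟩⟩
      omega
    have h1 : ∑ i, symM ![cst K (q i), LK α β c K i] ∈ unrM (psO.comap ψ) 2 := by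
      have h2 := (Submodule.mem_iInf _).1 h (psO.comap ψ)
      exact (Submodule.mem_iInf _).1 h2 hdvr
    have h0 : unrM (psO.comap ψ) 2 ≤ LinearMap.ker (τ.comp (KMQ.map ψ 2)) := by
      rw [unrM, Submodule.span_le]
      rintro _ ⟨f, hf, rfl⟩
      rw [SetLike.mem_coe, LinearMap.mem_ker, LinearMap.comp_apply, KMQ.map_symM, hτ]
      have h2 : ∀ m, lord (Units.map (ψ : K →* LaurentSeries ℚ) (f m)) = 0 := by
        intro m
        obtain ⟨h3, h4⟩ := mem_of_unitGroup (hf m)
        have h5 := (mem_comap_psO ψ).1 h3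
        have h6 := (mem_comap_psO ψ).1 h4
        have h7 := o_inv ψ (f m).ne_zero
        rw [Units.val_inv_eq_inv_val] at h6
        change (ψ (f m : K)).order = 0
        omega
      rw [h2, h2]
      simp
    have h2 := h0 h1
    rw [LinearMap.mem_ker, map_sum] at h2
    have h3 : ∀ j, (τ.comp (KMQ.map ψ 2)) (symM ![cst K (q j), LK α β c K j]) =
        x j * ((Φ.φ i (qmk α β c (lf α β j))).order : ℝ) := by
      intro j
      rw [LinearMap.comp_apply, KMQ.map_symM, hτ]
      have e1 : ψ (cst K (q j) : K) = HahnSeries.C (q j : ℚ) := by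
        have e2 : (ψ.comp (algebraMap ℚ K)) = (HahnSeries.C : ℚ →+* LaurentSeries ℚ) :=
          RingHom.ext_rat _ _
        exact RingHom.congr_fun e2 _
      have e3 : lord (Units.map (ψ : K →* LaurentSeries ℚ) (cst K (q j))) = 0 := by
        change (ψ (cst K (q j) : K)).order = 0
        rw [e1, HahnSeries.order_C]
      have e4 : llog (Units.map (ψ : K →* LaurentSeries ℚ) (cst K (q j))) = x j := by
        change Real.log |(((ψ (cst K (q j) : K)).leadingCoeff : ℚ) : ℝ)| = _
        rw [e1]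
        have e5 : (HahnSeries.C (q j : ℚ) : LaurentSeries ℚ).leadingCoeff = (q j : ℚ) :=
          HahnSeries.leadingCoeff_of_single
        rw [e5]
      have e6 : lord (Units.map (ψ : K →* LaurentSeries ℚ) (LK α β c K j)) =
          (Φ.φ i (qmk α β c (lf α β j))).order := by
        change (ψ (LK α β c K j : K)).order = _
        rw [hψL]
      simp only [Matrix.cons_val_zero, Matrix.cons_val_one]
      rw [e3, e4, e6]
      simp
    rw [Finset.sum_congr rfl fun j _ => h3 j, sum_orders] at h2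
    exact h2
  have hall := lap_kernel hrk hlap
  set q₀ := q ⟨0, hN⟩ with hq₀
  have hsq : ∀ j, (cst K (q j / q₀)) ^ 2 = 1 := by
    intro j
    have h1 : Real.log |((q j : ℚ) : ℝ)| = Real.log |((q₀ : ℚ) : ℝ)| := hall j ⟨0, hN⟩
    have hne : ∀ r : ℚˣ, 0 < |((r : ℚ) : ℝ)| := fun r =>
      abs_pos.2 (Rat.cast_ne_zero.2 r.ne_zero)
    have h2 : |((q j : ℚ) : ℝ)| = |((q₀ : ℚ) : ℝ)| :=
      Real.log_injOn_pos (hne _) (hne _) h1
    have h3 : |(q j : ℚ)| = |(q₀ : ℚ)| := by exact_mod_cast h2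
    have h4 : (q j / q₀) ^ 2 = 1 := by
      apply Units.ext
      push_cast
      rw [div_pow, ← sq_abs, h3, sq_abs, div_self (pow_ne_zero _ q₀.ne_zero)]
    unfold cst
    rw [← map_pow, h4, map_one]
  have h1 : ∀ j, symM ![cst K (q j), LK α β c K j] = symM ![cst K q₀, LK α β c K j] := by
    intro j
    have h2 : cst K (q j) = cst K (q j / q₀) * cst K q₀ := by
      unfold cst
      rw [← map_mul, div_mul_cancel]
    rw [h2, symM_mul_left, symM_sq_one _ _ (hsq j), zero_add]
  rw [Finset.sum_congr rfl fun j _ => h1 j, ← symM_prod_right]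
  have hcQ : (c : ℚ) ≠ 0 := Int.cast_ne_zero.2 hc
  refine symM_cst_cst (q := q₀) (r := (Units.mk0 (c : ℚ) hcQ)⁻¹) _ rfl ?_
  simp only [Matrix.cons_val_one]
  unfold cst
  rw [map_inv, eq_inv_iff_mul_eq_one]
  apply Units.ext
  have h2 := congrArg (algebraMap (HypRingQ (n := 1) α β c) K)
    (crv_rel (α := α) (β := β) (c := c))
  rw [map_mul, map_prod, map_one, map_intCast, mul_comm] at h2
  change ((∏ j, LK α β c K j : Kˣ) : K) *
    ((Units.map (algebraMap ℚ K : ℚ →* K) (Units.mk0 (c : ℚ) hcQ) : Kˣ) : K) = 1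
  rw [Units.coe_prod]
  have h3 : ((Units.map (algebraMap ℚ K : ℚ →* K) (Units.mk0 (c : ℚ) hcQ) : Kˣ) : K) = c := by
    change algebraMap ℚ K (c : ℚ) = c
    rw [map_intCast]
  rw [h3]
  exact h2

end Pool.Agent.Helper11
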