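import Mathlib
import Pool.Agent.Helper11.HLin

/-! Unramifiedness of the symbols attached to cycles of an arrangement. -/

namespace Pool.Agent.Helper11

open Finset

section ring

variable {n N : ℕ} {α : Fin N → Fin (n + 1) → ℤ} {β : Fin N → ℤ} {c : ℤ}

lemma hyp_rel : (c : HypRing α β c) * ∏ i, hypForm α β c i = 1 := by
  set q : MvPolynomial (Fin (n + 1)) ℤ →+* HypRing α β c :=
    Ideal.Quotient.mk (Ideal.span {hypPoly α β c}) with hq
  have h : q (hypPoly α β c) = 0 :=
    Ideal.Quotient.eq_zero_iff_mem.2 (Ideal.mem_span_singleton_self _)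
  have hC : ∀ k : ℤ, q (MvPolynomial.C k) = (k : HypRing α β c) := by
    intro k
    have h2 := map_intCast (MvPolynomial.C : ℤ →+* MvPolynomial (Fin (n + 1)) ℤ) k
    rw [Int.cast_id] at h2
    rw [h2, map_intCast]
  unfold hypPoly at h
  rw [map_sub, map_one, map_mul, map_prod, sub_eq_zero, hC] at h
  exact h

lemma hypForm_isUnit (i : Fin N) : IsUnit (hypForm α β c i) := by
  refine isUnit_of_dvd_one ?_
  rw [← hyp_rel (α := α) (β := β) (c := c)]
  exact Dvd.dvd.mul_left (Finset.dvd_prod_of_mem _ (Finset.mem_univ i)) _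

/-- the unit `L_i` -/
noncomputable def hypU (α : Fin N → Fin (n + 1) → ℤ) (β : Fin N → ℤ) (c : ℤ) (i : Fin N) :
    (HypRing α β c)ˣ := (hypForm_isUnit i).unit

lemma hypU_val (i : Fin N) : (hypU α β c i : HypRing α β c) = hypForm α β c i := rfl

variable {Δ : ℤ} (hΔ : ∀ J, hypDet α J ≠ 0 → hypDet α J ∣ Δ) (hΔc : Δ ^ (N + 1) ∣ c)

include hΔ hΔc in
lemma hypDet_isUnit {J : Fin (n + 1) → Fin N} (hJ : hypDet α J ≠ 0) :
    IsUnit (hypDet α J : HypRing α β c) := by
  refine isUnit_of_dvd_one ?_
  rw [← hyp_rel (α := α) (β := β) (c := c)]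
  refine Dvd.dvd.mul_right ?_ _
  have h1 : hypDet α J ∣ c := ((hΔ J hJ).trans (dvd_pow_self Δ (Nat.succ_ne_zero N))).trans hΔc
  obtain ⟨k, hk⟩ := h1
  refine ⟨(k : HypRing α β c), ?_⟩
  have h2 := congrArg (fun t : ℤ => (t : HypRing α β c)) hk
  simp only [Int.cast_mul] at h2
  exact h2

include hΔ hΔc in
lemma exists_hypD : ∃ D : (Fin (n + 1) → Fin N) → (HypRing α β c)ˣ,
    ∀ J, (hypDet α J ≠ 0 → (D J : HypRing α β c) = hypDet α J) ∧
      ∃ k : ℤ, (D J : HypRing α β c) = k := by
  classical
  refine ⟨fun J => if h : hypDet α J ≠ 0 then (hypDet_isUnit hΔ hΔc h).unit else 1, fun J => ?_⟩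
  dsimp only
  by_cases h : hypDet α J ≠ 0
  · rw [dif_pos h]
    exact ⟨fun _ => rfl, hypDet α J, rfl⟩
  · rw [dif_neg h]
    exact ⟨fun h' => absurd h' h, 1, by simp⟩

/-- homomorphisms from the ring -/
lemma exists_hypHom {S : Type*} [CommRing S] (s : Fin (n + 1) → S)
    (hs : (c : S) * ∏ i, (∑ m, (α i m : S) * s m + β i) = 1) :
    ∃ φ : HypRing α β c →+* S, ∀ i, φ (hypForm α β c i) = ∑ m, (α i m : S) * s m + β i := by
  set ev : MvPolynomial (Fin (n + 1)) ℤ →+* S := MvPolynomial.eval₂Hom (Int.castRingHom S) s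
    with hev
  have hform : ∀ i, ev (hypLin α β i) = ∑ m, (α i m : S) * s m + β i := by
    intro i
    unfold hypLin
    rw [hev, map_add, map_sum]
    simp only [map_mul, MvPolynomial.eval₂Hom_X', MvPolynomial.eval₂Hom_C, Int.coe_castRingHom]
  have hker : ∀ x : MvPolynomial (Fin (n + 1)) ℤ, x ∈ Ideal.span {hypPoly α β c} →
      ev x = 0 := by
    intro x hx
    obtain ⟨y, rfl⟩ := Ideal.mem_span_singleton'.1 hx
    unfold hypPoly
    rw [map_mul, map_sub, map_one, map_mul, map_prod, Finset.prod_congr rfl fun i _ => hform i]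
    have h1 : ev (MvPolynomial.C c) = (c : S) := by
      rw [hev]
      simp
    rw [h1, hs, sub_self, mul_zero]
  refine ⟨Ideal.Quotient.lift (Ideal.span {hypPoly α β c}) ev hker, ?_⟩
  intro i
  change Ideal.Quotient.lift (Ideal.span {hypPoly α β c}) ev hker
      (Ideal.Quotient.mk (Ideal.span {hypPoly α β c}) _) = _
  rw [Ideal.Quotient.lift_mk]
  exact hform i

include hΔ hΔc in
/-- The symbols attached to cycles are unramified everywhere. -/
theorem hyp_unramified {D : (Fin (n + 1) → Fin N) → (HypRing α β c)ˣ}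
    (hD : ∀ J, (hypDet α J ≠ 0 → (D J : HypRing α β c) = hypDet α J) ∧
      ∃ k : ℤ, (D J : HypRing α β c) = k) {z : (Fin (n + 1) → Fin N) → ℚ}
    (hz0 : ∀ J, hypDet α J = 0 → z J = 0)
    (hz : ∀ J m, ∑ k, z (Function.update J m k) = 0) :
    Unramified (∑ J, z J • symM fun m => hypU α β c (J m) / D J) := by
  intro K _ φ O hO
  rw [map_sum]
  simp only [map_smul, KMQ.map_symM]
  set ℓ : Fin N → Kˣ := fun i => Units.map (φ : HypRing α β c →* K) (hypU α β c i) with hℓ
  set δ : (Fin (n + 1) → Fin N) → Kˣ := fun J => Units.map (φ : HypRing α β c →* K) (D J)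
    with hδ
  have hfun : ∀ J : Fin (n + 1) → Fin N, (fun m => Units.map (φ : HypRing α β c →* K)
      (hypU α β c (J m) / D J)) = fun m => ℓ (J m) / δ J := by
    intro J
    funext m
    rw [map_div]
  simp only [hfun]
  -- the values of the forms
  set q : MvPolynomial (Fin (n + 1)) ℤ →+* HypRing α β c :=
    Ideal.Quotient.mk (Ideal.span {hypPoly α β c}) with hq
  set x : Fin (n + 1) → K := fun p => φ (q (MvPolynomial.X p)) with hx
  have hℓv : ∀ i, (ℓ i : K) = ∑ p, (α i p : K) * x p + β i := by
    intro i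
    have hC : ∀ k : ℤ, q (MvPolynomial.C k) = (k : HypRing α β c) := by
      intro k
      have h2 := map_intCast (MvPolynomial.C : ℤ →+* MvPolynomial (Fin (n + 1)) ℤ) k
      rw [Int.cast_id] at h2
      rw [h2, map_intCast]
    have h3 : (ℓ i : K) = φ (q (∑ m, MvPolynomial.C (α i m) * MvPolynomial.X m +
      MvPolynomial.C (β i))) := rfl
    rw [h3, map_add, map_sum, hC, map_add, map_sum, map_intCast]
    simp only [map_mul, hC, map_intCast]
    rfl
  have hrel : (c : K) * ∏ i, (ℓ i : K) = 1 := by
    have h1 := congrArg φ (hyp_rel (α := α) (β := β) (c := c))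
    rw [map_mul, map_one, map_prod, map_intCast] at h1
    exact h1
  have hδD : ∀ J, hypDet α J ≠ 0 → (δ J : K) = (hypDet α J : ℤ) := by
    intro J hJ
    have h1 : (δ J : K) = φ (D J : HypRing α β c) := rfl
    rw [h1, (hD J).1 hJ, map_intCast]
  have hδC : ∀ J, IsC (δ J) := by
    intro J
    obtain ⟨k, hk⟩ := (hD J).2
    refine IsC.of_int (a := k) ?_
    have h1 : (δ J : K) = φ (D J : HypRing α β c) := rfl
    rw [h1, hk, map_intCast]
  obtain ⟨c', hc'⟩ := hΔc
  by_cases hall : ∀ i, O.valuation ((Δ : K) * ℓ i) ≤ 1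
  · -- all entries are units
    have hprod : ((Δ * c' : ℤ) : K) * ∏ i, ((Δ : K) * ℓ i) = 1 := by
      rw [Finset.prod_mul_distrib, Finset.prod_const, Finset.card_univ, Fintype.card_fin, ← hrel,
        hc']
      push_cast
      ring
    have hone : ∀ i, O.valuation ((Δ : K) * ℓ i) = 1 := by
      intro i
      by_contra hcon
      have hlt : O.valuation ((Δ : K) * ℓ i) < 1 := lt_of_le_of_ne (hall i) hcon
      have h1 : O.valuation (∏ i, ((Δ : K) * ℓ i)) < 1 := by
        rw [← Finset.mul_prod_erase _ _ (Finset.mem_univ i), map_mul]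
        refine mul_lt_one_of_nonneg_of_lt_one_left zero_le hlt ?_
        rw [map_prod]
        exact Finset.prod_le_one' fun k _ => hall k
      have h3 := congrArg O.valuation hprod
      rw [map_mul, map_one, mul_comm] at h3
      have h4 : O.valuation (∏ i, ((Δ : K) * ℓ i)) * O.valuation ((Δ * c' : ℤ) : K) < 1 :=
        mul_lt_one_of_nonneg_of_lt_one_left zero_le h1 (val_int_le O _)
      rw [h3] at h4
      exact lt_irrefl _ h4
    have hΔ1 : O.valuation (Δ : K) = 1 := by
      have h3 := congrArg O.valuation hprod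
      rw [map_mul, map_one, map_prod, Finset.prod_congr rfl fun i _ => hone i,
        Finset.prod_const_one, mul_one, Int.cast_mul, map_mul] at h3
      refine le_antisymm (val_int_le O Δ) ?_
      calc (1 : O.ValueGroup) = O.valuation (Δ : K) * O.valuation (c' : K) := h3.symm
        _ ≤ O.valuation (Δ : K) * 1 := mul_le_mul_right (val_int_le O c') _
        _ = _ := mul_one _
    have hℓ1 : ∀ i, O.valuation (ℓ i : K) = 1 := by
      intro i
      have h3 := hone i
      rw [map_mul, hΔ1, one_mul] at h3
      exact h3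
    refine Submodule.sum_mem _ fun J _ => ?_
    by_cases hJ : hypDet α J = 0
    · rw [hz0 J hJ, zero_smul]
      exact Submodule.zero_mem _
    · refine Submodule.smul_mem _ _ (Submodule.subset_span ⟨_, fun m => ?_, rfl⟩)
      rw [O.mem_unitGroup_iff, Units.val_div_eq_div_val, map_div₀, hℓ1, hδD J hJ]
      have h4 : O.valuation ((hypDet α J : ℤ) : K) = 1 := by
        obtain ⟨k, hk⟩ := hΔ J hJ
        refine le_antisymm (val_int_le O _) ?_
        calc (1 : O.ValueGroup) = O.valuation (Δ : K) := hΔ1.symm
          _ = O.valuation ((hypDet α J : ℤ) : K) * O.valuation (k : K) := by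
            rw [← map_mul]
            congr 1
            conv_lhs => rw [hk]
            push_cast
            rfl
          _ ≤ O.valuation ((hypDet α J : ℤ) : K) * 1 := mul_le_mul_right (val_int_le O k) _
          _ = _ := mul_one _
      rw [h4, div_one]
  · push Not at hall
    obtain ⟨e, he⟩ := hall
    rw [cycle_identity (D := hypDet α) (e := e) hδC hδD
      (fun J l m i e hml h => hyp_plucker α J l m i e hml h) hz0 hz]
    refine Submodule.sum_mem _ fun J _ => ?_
    by_cases hJ : hypDet α J = 0
    · rw [hz0 J hJ, zero_smul]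
      exact Submodule.zero_mem _
    · refine Submodule.smul_mem _ _ ?_
      refine symM_mem_of_sum O _ (Finset.univ.filter fun m =>
        hypDet α (Function.update J m e) ≠ 0) ?_
      have hDne : ((hypDet α J : ℤ) : K) ≠ 0 := by
        rw [← hδD J hJ]
        exact (δ J).ne_zero
      have hene : (ℓ e : K) ≠ 0 := (ℓ e).ne_zero
      have hsum : ∑ m ∈ Finset.univ.filter (fun m => hypDet α (Function.update J m e) ≠ 0),
          (mixed (fun k => ℓ (J k) / δ J) (fun m => ℓ e / δ (Function.update J m e))
            (Finset.univ.filter fun m => hypDet α (Function.update J m e) ≠ 0) m : K) =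
          (∑ m, ((hypDet α (Function.update J m e) : ℤ) : K) * ℓ (J m)) /
            (((hypDet α J : ℤ) : K) * ℓ e) := by
        rw [Finset.sum_div, Finset.sum_filter]
        refine Finset.sum_congr rfl fun m _ => ?_
        by_cases hm : hypDet α (Function.update J m e) ≠ 0
        · rw [if_pos hm]
          have h5 : mixed (fun k => ℓ (J k) / δ J) (fun m => ℓ e / δ (Function.update J m e))
              (Finset.univ.filter fun m => hypDet α (Function.update J m e) ≠ 0) m =
              ℓ (J m) / δ J / (ℓ e / δ (Function.update J m e)) := by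
            unfold mixed
            rw [if_pos (by simpa using hm)]
          rw [h5, Units.val_div_eq_div_val, Units.val_div_eq_div_val, Units.val_div_eq_div_val,
            hδD J hJ, hδD _ hm]
          have hm' : ((hypDet α (Function.update J m e) : ℤ) : K) ≠ 0 := by
            rw [← hδD _ hm]
            exact (δ _).ne_zero
          field_simp
        · rw [if_neg hm]
          push Not at hm
          rw [hm, Int.cast_zero, zero_mul, zero_div]
      rw [hsum]
      have haff := hyp_affine α β x J e
      have h6 : (1 : K) - (∑ m, ((hypDet α (Function.update J m e) : ℤ) : K) * ℓ (J m)) /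
            (((hypDet α J : ℤ) : K) * ℓ e) =
          (hypVal α β J e : K) / (((hypDet α J : ℤ) : K) * ℓ e) := by
        have h7 : ∑ m, ((hypDet α (Function.update J m e) : ℤ) : K) * (ℓ (J m) : K) =
            ((hypDet α J : ℤ) : K) * ℓ e - (hypVal α β J e : K) := by
          rw [hℓv e, haff]
          simp only [hℓv]
          ring
        rw [h7]
        field_simp
        ring
      rw [h6, map_div₀]
      have h8 : 1 < O.valuation (((hypDet α J : ℤ) : K) * ℓ e) := by
        refine lt_of_lt_of_le he ?_
        obtain ⟨k, hk⟩ := hΔ J hJ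
        have h9 : (Δ : K) = ((hypDet α J : ℤ) : K) * (k : K) := by
          conv_lhs => rw [hk]
          push_cast
          rfl
        rw [h9, mul_right_comm, map_mul]
        calc O.valuation (((hypDet α J : ℤ) : K) * ℓ e) * O.valuation (k : K)
            ≤ O.valuation (((hypDet α J : ℤ) : K) * ℓ e) * 1 :=
              mul_le_mul_right (val_int_le O k) _
          _ = _ := mul_one _
      exact (div_lt_one₀ (zero_lt_one.trans h8)).2 ((val_int_le O _).trans_lt h8)

end ring

end Pool.Agent.Helper11
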