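import Mathlib
import Pool.Agent.Helper11.Unram

/-! Order functions and symbols modulo unramified symbols. -/

namespace Pool.Agent.Helper11

variable {F : Type*} [Field F]

/-- `ord` is the order function of `O` with uniformizer `p`. -/
structure IsOrd (O : ValuationSubring F) (p : Fˣ) (ord : Fˣ → ℤ) : Prop where
  lt : O.valuation (p : F) < 1
  eq : ∀ f : Fˣ, O.valuation (f : F) = O.valuation (p : F) ^ ord f

theorem exists_ord (O : ValuationSubring F) [IsDiscreteValuationRing O] :
    ∃ p ord, IsOrd O p ord := by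
  obtain ⟨ϖ, hϖ⟩ := IsDiscreteValuationRing.exists_irreducible O
  have hϖ0 : (ϖ : F) ≠ 0 := by
    intro h
    exact hϖ.ne_zero (Subtype.ext h)
  have hϖm : ϖ ∈ IsLocalRing.maximalIdeal O := by
    rw [hϖ.maximalIdeal_eq]
    exact Ideal.mem_span_singleton_self _
  have hϖ1 : O.valuation (ϖ : F) < 1 := (O.valuation_lt_one_iff ϖ).1 hϖm
  set p : Fˣ := Units.mk0 _ hϖ0 with hp
  have key : ∀ z : Fˣ, (z : F) ∈ O → ∃ n : ℤ, O.valuation (z : F) = O.valuation (p : F) ^ n := by
    intro z hz
    have hz0 : (⟨z, hz⟩ : O) ≠ 0 := by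
      intro h
      exact z.ne_zero (congrArg Subtype.val h)
    obtain ⟨n, u, hu⟩ := IsDiscreteValuationRing.eq_unit_mul_pow_irreducible hz0 hϖ
    have hvu : O.valuation ((u : O) : F) = 1 := (O.valuation_eq_one_iff _).1 u.isUnit
    refine ⟨n, ?_⟩
    have := congrArg Subtype.val hu
    have h2 : (z : F) = ((u : O) : F) * (ϖ : F) ^ n := by simpa using this
    rw [h2, map_mul, hvu, one_mul, map_pow, zpow_natCast, hp, Units.val_mk0]
  have key2 : ∀ z : Fˣ, ∃ n : ℤ, O.valuation (z : F) = O.valuation (p : F) ^ n := by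
    intro z
    rcases O.mem_or_inv_mem (z : F) with h | h
    · exact key z h
    · obtain ⟨n, hn⟩ := key z⁻¹ (by simpa using h)
      refine ⟨-n, ?_⟩
      rw [Units.val_inv_eq_inv_val, map_inv₀] at hn
      rw [zpow_neg, ← hn, inv_inv]
  choose ord hord using key2
  exact ⟨p, ord, hϖ1, hord⟩

namespace IsOrd

variable {O : ValuationSubring F} {p : Fˣ} {ord : Fˣ → ℤ} (H : IsOrd O p ord)

lemma pos : 0 < O.valuation (p : F) := (Valuation.pos_iff _).2 p.ne_zero

include H

lemma le_iff (f g : Fˣ) : O.valuation (f : F) ≤ O.valuation (g : F) ↔ ord g ≤ ord f := by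
  rw [H.eq f, H.eq g]
  exact zpow_le_zpow_iff_right_of_lt_one₀ (IsOrd.pos (p := p)) H.lt

lemma lt_iff (f g : Fˣ) : O.valuation (f : F) < O.valuation (g : F) ↔ ord g < ord f := by
  rw [H.eq f, H.eq g]
  exact zpow_lt_zpow_iff_right_of_lt_one₀ (IsOrd.pos (p := p)) H.lt

lemma zpow_inj {a b : ℤ} (h : O.valuation (p : F) ^ a = O.valuation (p : F) ^ b) : a = b :=
  zpow_right_injective₀ (IsOrd.pos (p := p)) H.lt.ne h

lemma mul (f g : Fˣ) : ord (f * g) = ord f + ord g := by
  apply H.zpow_inj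
  rw [← H.eq, Units.val_mul, map_mul, H.eq f, H.eq g, zpow_add₀ (IsOrd.pos (p := p)).ne']

lemma one : ord 1 = 0 := by
  have := H.mul 1 1
  rw [mul_one] at this
  omega

lemma inv (f : Fˣ) : ord f⁻¹ = -ord f := by
  have := H.mul f f⁻¹
  rw [mul_inv_cancel, H.one] at this
  omega

lemma div (f g : Fˣ) : ord (f / g) = ord f - ord g := by
  rw [div_eq_mul_inv, H.mul, H.inv]
  ring

lemma le_one_iff (f : Fˣ) : O.valuation (f : F) ≤ 1 ↔ 0 ≤ ord f := by
  have := H.le_iff f 1
  rw [H.one, Units.val_one, map_one] at this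
  exact this

lemma lt_one_iff (f : Fˣ) : O.valuation (f : F) < 1 ↔ 0 < ord f := by
  have := H.lt_iff f 1
  rw [H.one, Units.val_one, map_one] at this
  exact this

lemma eq_one_iff (f : Fˣ) : O.valuation (f : F) = 1 ↔ ord f = 0 := by
  constructor
  · intro h
    have h1 := (H.le_one_iff f).1 h.le
    have h2 : ¬ 0 < ord f := fun h2 => by
      have := (H.lt_one_iff f).2 h2
      rw [h] at this
      exact lt_irrefl _ this
    omega
  · intro h
    rw [H.eq, h, zpow_zero]

lemma uniformizer : ord p = 1 := by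
  apply H.zpow_inj
  rw [← H.eq, zpow_one]

lemma eq_iff (f g : Fˣ) : O.valuation (f : F) = O.valuation (g : F) ↔ ord f = ord g := by
  rw [le_antisymm_iff, H.le_iff, H.le_iff]
  omega

lemma zpow (f : Fˣ) (n : ℤ) : ord (f ^ n) = n * ord f := by
  apply H.zpow_inj
  rw [← H.eq, Units.val_zpow_eq_zpow_val, map_zpow₀, H.eq f, ← zpow_mul, mul_comm]

lemma pow (f : Fˣ) (n : ℕ) : ord (f ^ n) = n * ord f := by
  have := H.zpow f n
  rwa [zpow_natCast] at this

lemma prod {ι : Type*} (s : Finset ι) (f : ι → Fˣ) : ord (∏ i ∈ s, f i) = ∑ i ∈ s, ord (f i) := by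
  classical
  induction s using Finset.induction_on with
  | empty => simpa using H.one
  | insert a s ha ih => rw [Finset.prod_insert ha, Finset.sum_insert ha, H.mul, ih]

end IsOrd

/-- the quotient of `K₂ ⊗ ℚ` by unramified symbols -/
abbrev RQ (O : ValuationSubring F) : Type _ := K2Q F ⧸ unr O

/-- class of a symbol modulo unramified symbols -/
def cls (O : ValuationSubring F) (f g : Fˣ) : RQ O := (unr O).mkQ (sym f g)

section cls

variable (O : ValuationSubring F)

lemma cls_mul_left (f g k : Fˣ) : cls O (f * g) k = cls O f k + cls O g k := by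
  unfold cls
  rw [sym_mul_left, map_add]

lemma cls_mul_right (f g k : Fˣ) : cls O k (f * g) = cls O k f + cls O k g := by
  unfold cls
  rw [sym_mul_right, map_add]

lemma cls_inv_right (f g : Fˣ) : cls O f g⁻¹ = - cls O f g := by
  unfold cls
  rw [sym_inv_right, map_neg]

lemma cls_inv_left (f g : Fˣ) : cls O f⁻¹ g = - cls O f g := by
  unfold cls
  rw [sym_inv_left, map_neg]

lemma cls_div_right (f g k : Fˣ) : cls O k (f / g) = cls O k f - cls O k g := by
  rw [div_eq_mul_inv, cls_mul_right, cls_inv_right, sub_eq_add_neg]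

lemma cls_div_left (f g k : Fˣ) : cls O (f / g) k = cls O f k - cls O g k := by
  rw [div_eq_mul_inv, cls_mul_left, cls_inv_left, sub_eq_add_neg]

lemma cls_antisymm (f g : Fˣ) : cls O f g = - cls O g f := by
  unfold cls
  rw [sym_antisymm, map_neg]

lemma cls_self (f : Fˣ) : cls O f f = 0 := by
  unfold cls
  rw [sym_self, map_zero]

lemma cls_pow_right (f g : Fˣ) (n : ℕ) : cls O f (g ^ n) = (n : ℚ) • cls O f g := by
  unfold cls
  rw [sym_pow_right, map_smul]

lemma cls_zpow_right (f g : Fˣ) (n : ℤ) : cls O f (g ^ n) = (n : ℚ) • cls O f g := by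
  obtain ⟨m, rfl | rfl⟩ := n.eq_nat_or_neg
  · rw [zpow_natCast, cls_pow_right]
    simp
  · rw [zpow_neg, zpow_natCast, cls_inv_right, cls_pow_right]
    simp

lemma cls_zpow_left (f g : Fˣ) (n : ℤ) : cls O (f ^ n) g = (n : ℚ) • cls O f g := by
  rw [cls_antisymm, cls_zpow_right, cls_antisymm O g f, smul_neg, neg_neg]

lemma cls_neg_right (f g : Fˣ) : cls O f (-g) = cls O f g := by
  have : -g = -1 * g := by simp
  rw [this, cls_mul_right]
  unfold cls
  rw [sym_neg_one_right, map_zero, zero_add]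

lemma cls_eq_zero {f g : Fˣ} (h : sym f g ∈ unr O) : cls O f g = 0 := by
  unfold cls
  rw [Submodule.mkQ_apply, Submodule.Quotient.mk_eq_zero]
  exact h

lemma cls_unit {f g : Fˣ} (hf : O.valuation (f : F) = 1) (hg : O.valuation (g : F) = 1) :
    cls O f g = 0 := cls_eq_zero O (sym_mem_unr O hf hg)

variable {O} {p : Fˣ} {ord : Fˣ → ℤ} (H : IsOrd O p ord)
include H

/-- the basic formula -/
lemma cls_eq (f g : Fˣ) : cls O f g = (ord f : ℚ) • cls O p g - (ord g : ℚ) • cls O p f := by
  obtain ⟨u, hu⟩ : ∃ u : Fˣ, f = p ^ ord f * u := ⟨(p ^ ord f)⁻¹ * f, by simp⟩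
  obtain ⟨v, hv⟩ : ∃ v : Fˣ, g = p ^ ord g * v := ⟨(p ^ ord g)⁻¹ * g, by simp⟩
  have hou : ord u = 0 := by
    have := H.mul (p ^ ord f) u
    rw [← hu, H.zpow, H.uniformizer] at this
    omega
  have hov : ord v = 0 := by
    have := H.mul (p ^ ord g) v
    rw [← hv, H.zpow, H.uniformizer] at this
    omega
  have huv : cls O u v = 0 := cls_unit O ((H.eq_one_iff u).2 hou) ((H.eq_one_iff v).2 hov)
  have e1 : cls O p f = cls O p u := by
    conv_lhs => rw [hu]
    rw [cls_mul_right, cls_zpow_right, cls_self, smul_zero, zero_add]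
  have e2 : cls O p g = cls O p v := by
    conv_lhs => rw [hv]
    rw [cls_mul_right, cls_zpow_right, cls_self, smul_zero, zero_add]
  have e3 : cls O f g = cls O (p ^ ord f * u) (p ^ ord g * v) := by rw [← hu, ← hv]
  rw [e3, e1, e2, cls_mul_left, cls_mul_right, cls_mul_right, huv, cls_zpow_left, cls_zpow_right,
    cls_self, cls_zpow_left, cls_zpow_right, cls_antisymm O u p]
  simp only [smul_zero, smul_neg]
  abel

omit H in
lemma cls_congr [IsDiscreteValuationRing O] {f g k : Fˣ}
    (h : O.valuation ((f : F) - g) < O.valuation (g : F)) : cls O k f = cls O k g := by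
  have h1 : O.valuation (((f / g : Fˣ) : F) - 1) < 1 := by
    have e : ((f / g : Fˣ) : F) - 1 = ((f : F) - g) / g := by
      rw [Units.val_div_eq_div_val]
      have := g.ne_zero
      field_simp
    rw [e, map_div₀]
    exact (div_lt_one₀ ((Valuation.pos_iff _).2 g.ne_zero)).2 h
  have h2 := cls_eq_zero O (sym_mem_of_sub_one_right O (z := k) h1)
  rw [cls_div_right] at h2
  exact sub_eq_zero.1 h2

omit H in
lemma cls_torsion [IsDiscreteValuationRing O] {f k : Fˣ} {N : ℕ} (hN : N ≠ 0)
    (h : O.valuation ((f : F) ^ N - 1) < 1) : cls O k f = 0 := by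
  have h2 := cls_eq_zero O (sym_mem_of_sub_one_right O (z := k) (y := f ^ N) (by
    rw [Units.val_pow_eq_pow_val]
    exact h))
  rw [cls_pow_right] at h2
  have h3 : (N : ℚ) ≠ 0 := by exact_mod_cast hN
  exact (smul_eq_zero.1 h2).resolve_left h3

end cls

/-- integers which are units are torsion modulo the maximal ideal, in residue characteristic
`p > 0` -/
lemma exists_pow_int (O : ValuationSubring F) {d k : ℤ} (hd0 : d ≠ 0)
    (hd : O.valuation (d : F) < 1) (hk : O.valuation (k : F) = 1) :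
    ∃ N : ℕ, N ≠ 0 ∧ O.valuation ((k : F) ^ N - 1) < 1 := by
  have : NeZero d.natAbs := ⟨Int.natAbs_ne_zero.2 hd0⟩
  obtain ⟨a, b, hab, h⟩ := Finite.exists_ne_map_eq_of_infinite
    (fun n : ℕ => ((k : ZMod d.natAbs)) ^ n)
  have main : ∀ a b : ℕ, a < b → ((k : ZMod d.natAbs)) ^ a = ((k : ZMod d.natAbs)) ^ b →
      ∃ N : ℕ, N ≠ 0 ∧ O.valuation ((k : F) ^ N - 1) < 1 := by
    intro a b hab h
    refine ⟨b - a, by omega, ?_⟩
    have h1 : ((k ^ b - k ^ a : ℤ) : ZMod d.natAbs) = 0 := by
      push_cast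
      rw [h, sub_self]
    rw [ZMod.intCast_zmod_eq_zero_iff_dvd] at h1
    have h2 : d ∣ k ^ b - k ^ a := Int.natAbs_dvd.1 h1
    obtain ⟨q, hq⟩ := h2
    have h3 : (k : F) ^ a * ((k : F) ^ (b - a) - 1) = d * q := by
      have e : (k : F) ^ a * (k : F) ^ (b - a) = (k : F) ^ b := by
        rw [← pow_add]
        congr 1
        omega
      rw [mul_sub, e, mul_one]
      have h6 := congrArg (Int.cast : ℤ → F) hq
      push_cast at h6
      exact h6
    have h4 := congrArg O.valuation h3
    rw [map_mul, map_mul, map_pow, hk, one_pow, one_mul] at h4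
    rw [h4]
    exact mul_lt_one_of_nonneg_of_lt_one_left zero_le hd (val_int_le O q)
  rcases lt_or_gt_of_ne hab with h5 | h5
  · exact main a b h5 h
  · exact main b a h5 h.symm

end Pool.Agent.Helper11
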