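import Mathlib

/-! Linear algebra, transcendence and squarefreeness lemmas. -/

namespace Pool.Agent.Helper11

theorem eq_zero_of_dominant {ι : Type*} [Fintype ι] [DecidableEq ι] (M : ι → ι → ℝ)
    (L : ℝ) (hrow : ∀ j, ∑ i, M j i = -L)
    (hdom : ∀ j, (∑ i ∈ Finset.univ.erase j, 2 * max (-M j i) 0 < L) ∨
      (0 ≤ L ∧ ∀ i, i ≠ j → 0 < M j i))
    (N : ι → ℝ) (hsum : ∑ i, N i = 0) (h : ∀ j, ∑ i, N i * M j i = 0) : N = 0 := by
  by_contra hN
  obtain ⟨i₀, hi₀⟩ := Function.ne_iff.1 hN
  have : Nonempty ι := ⟨i₀⟩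
  obtain ⟨j, hj⟩ := Finite.exists_max (fun i => |N i|)
  have hNj : N j ≠ 0 := by
    intro h0
    have := hj i₀
    rw [h0, abs_zero] at this
    exact hi₀ (abs_nonpos_iff.1 this)
  set ν : ι → ℝ := fun i => N i / N j with hν
  have hν1 : ∀ i, |ν i| ≤ 1 := by
    intro i
    rw [hν, abs_div, div_le_one (abs_pos.2 hNj)]
    exact hj i
  have hνj : ν j = 1 := div_self hNj
  have hsν : ∑ i, ν i * M j i = 0 := by
    have e : ∑ i, ν i * M j i = (∑ i, N i * M j i) / N j := by
      rw [Finset.sum_div]
      exact Finset.sum_congr rfl fun i _ => by rw [hν]; ring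
    rw [e, h j, zero_div]
  have hs1 : ∑ i, (1 - ν i) * M j i = -L := by
    have e : ∑ i, (1 - ν i) * M j i = ∑ i, M j i - ∑ i, ν i * M j i := by
      rw [← Finset.sum_sub_distrib]
      exact Finset.sum_congr rfl fun i _ => by ring
    rw [e, hsν, hrow, sub_zero]
  have hs2 : ∑ i ∈ Finset.univ.erase j, (1 - ν i) * M j i = -L := by
    rw [← Finset.add_sum_erase _ _ (Finset.mem_univ j), hνj, sub_self, zero_mul, zero_add] at hs1
    exact hs1
  have hb : ∀ i, 0 ≤ 1 - ν i ∧ 1 - ν i ≤ 2 := fun i => by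
    have := abs_le.1 (hν1 i)
    constructor <;> linarith
  rcases hdom j with hd | ⟨hL, hpos⟩
  · have : ∑ i ∈ Finset.univ.erase j, -(2 * max (-M j i) 0) ≤
        ∑ i ∈ Finset.univ.erase j, (1 - ν i) * M j i := by
      refine Finset.sum_le_sum fun i _ => ?_
      have h1 := le_max_left (-M j i) 0
      have h2 := le_max_right (-M j i) 0
      nlinarith [hb i]
    rw [Finset.sum_neg_distrib, hs2] at this
    linarith
  · have hnn : ∀ i ∈ Finset.univ.erase j, 0 ≤ (1 - ν i) * M j i := fun i hi =>
      mul_nonneg (hb i).1 (hpos i (Finset.ne_of_mem_erase hi)).le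
    have hz : ∑ i ∈ Finset.univ.erase j, (1 - ν i) * M j i = 0 := by
      have := Finset.sum_nonneg hnn
      linarith
    have hall : ∀ i, ν i = 1 := by
      intro i
      by_cases hij : i = j
      · rw [hij, hνj]
      · have h1 := (Finset.sum_eq_zero_iff_of_nonneg hnn).1 hz i
          (Finset.mem_erase.2 ⟨hij, Finset.mem_univ i⟩)
        rcases mul_eq_zero.1 h1 with h2 | h2
        · linarith
        · exact absurd h2 (hpos i hij).ne'
    have hNi : ∀ i, N i = N j := by
      intro i
      have := hall i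
      rw [hν] at this
      field_simp at this
      exact this
    have : ∑ i, N i = (Fintype.card ι : ℝ) * N j := by
      rw [Finset.sum_congr rfl fun i _ => hNi i]
      simp
    rw [hsum] at this
    have hc : (Fintype.card ι : ℝ) ≠ 0 := by
      have := Fintype.card_pos (α := ι)
      positivity
    exact mul_ne_zero hc hNj this.symm

/-- transcendental numbers exist in every interval -/
lemma exists_transcendental {u v : ℝ} (h : u < v) : ∃ r, u < r ∧ r < v ∧ Transcendental ℚ r := by
  have h1 : {x : ℝ | IsAlgebraic ℚ x}.Countable := Algebraic.countable ℚ ℝ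
  obtain ⟨r, hr1, hr2⟩ := (h1.dense_compl ℝ).exists_between h
  exact ⟨r, hr2.1, hr2.2, hr1⟩

/-- points on a circle of transcendental radius with rational centre are transcendental -/
lemma transcendental_circle {a : ℤ} {r : ℝ} (hr : Transcendental ℚ r) (t : ℝ) :
    Transcendental ℚ (circleMap (a : ℂ) r t) := by
  intro hz
  apply hr
  have h1 : IsAlgebraic ℚ (circleMap (a : ℂ) r t - a) :=
    hz.sub (isAlgebraic_intCast a)
  have h2 : IsAlgebraic ℚ ((starRingEnd ℂ) (circleMap (a : ℂ) r t - a)) := by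
    exact IsAlgebraic.algHom ((Complex.conjAe.restrictScalars ℚ).toAlgHom) h1
  have h3 := h1.mul h2
  rw [Complex.mul_conj, circleMap_sub_center, Complex.normSq_eq_norm_sq, norm_circleMap_zero,
    sq_abs] at h3
  have h4 : IsAlgebraic ℚ ((r ^ 2 : ℝ)) := by
    have : ((r ^ 2 : ℝ) : ℂ) = algebraMap ℝ ℂ (r ^ 2) := rfl
    rw [this] at h3
    exact (isAlgebraic_algebraMap_iff (algebraMap ℝ ℂ).injective).1 h3
  exact h4.of_pow (by norm_num)

open Polynomial in
lemma squarefree_of_many_roots (P : ℚ[X]) (hP : P ≠ 0) (S : Finset ℝ)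
    (hS : ∀ e ∈ S, aeval e P = 0) (hcard : P.natDegree ≤ S.card) : Squarefree P := by
  classical
  intro q hq
  obtain ⟨r, hr⟩ := hq
  have hq0 : q ≠ 0 := by
    rintro rfl
    apply hP
    rw [hr]
    ring
  have hr0 : r ≠ 0 := by
    rintro rfl
    apply hP
    rw [hr]
    ring
  have hdeg : P.natDegree = q.natDegree + q.natDegree + r.natDegree := by
    rw [hr, natDegree_mul (mul_ne_zero hq0 hq0) hr0, natDegree_mul hq0 hq0]
  have hsub : S ⊆ (q.aroots ℝ).toFinset ∪ (r.aroots ℝ).toFinset := by
    intro e he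
    have h1 := hS e he
    rw [hr, map_mul, map_mul] at h1
    rw [Finset.mem_union, Multiset.mem_toFinset, Multiset.mem_toFinset, mem_aroots, mem_aroots]
    rcases mul_eq_zero.1 h1 with h2 | h2
    · exact Or.inl ⟨hq0, by simpa using h2⟩
    · exact Or.inr ⟨hr0, h2⟩
  have hc1 : S.card ≤ q.natDegree + r.natDegree := by
    refine (Finset.card_le_card hsub).trans ((Finset.card_union_le _ _).trans ?_)
    refine Nat.add_le_add ?_ ?_
    · refine (Multiset.toFinset_card_le _).trans ?_
      rw [aroots_def]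
      exact (card_roots' _).trans (natDegree_map_le)
    · refine (Multiset.toFinset_card_le _).trans ?_
      rw [aroots_def]
      exact (card_roots' _).trans (natDegree_map_le)
  have : q.natDegree = 0 := by omega
  rw [natDegree_eq_zero] at this
  obtain ⟨x, rfl⟩ := this
  rw [isUnit_C]
  exact isUnit_iff_ne_zero.2 (by rintro rfl; exact hq0 (by simp))

end Pool.Agent.Helper11
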