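import Mathlib
import Pool.Agent.Helper11.CUnits2
import Pool.Agent.Helper11.KDefs
import Pool.Agent.Helper11.LinAlg

/-! Homomorphisms from the function field of a line arrangement curve to the ring of functions
on the circle. -/

namespace Pool.Agent.Helper11

open Polynomial

section frac

variable {n : ℕ}

/-- constants in the ring of functions on the torus -/
noncomputable def ratTorus (n : ℕ) : ℚ →+* TorusRing n where
  toFun q := ⟨fun _ => (q : ℂ), contDiff_const, fun _ _ => rfl⟩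
  map_one' := by
    apply Subtype.ext
    funext θ
    simp
  map_mul' a b := by
    apply Subtype.ext
    funext θ
    simp
  map_zero' := by
    apply Subtype.ext
    funext θ
    simp
  map_add' a b := by
    apply Subtype.ext
    funext θ
    simp

noncomputable instance : Algebra ℚ (TorusRing n) := (ratTorus n).toAlgebra

/-- evaluation at a point of the torus -/
def evAt (θ : Fin n → ℝ) : TorusRing n →+* ℂ :=
  (Pi.evalRingHom (fun _ : Fin n → ℝ => ℂ) θ).comp (TorusRing n).subtype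

lemma evAt_apply (θ : Fin n → ℝ) (f : TorusRing n) : evAt θ f = (f : (Fin n → ℝ) → ℂ) θ := rfl

lemma isUnit_torus {f : TorusRing n} (hf : ∀ θ, (f : (Fin n → ℝ) → ℂ) θ ≠ 0) : IsUnit f := by
  let g : TorusRing n := ⟨fun θ => ((f : (Fin n → ℝ) → ℂ) θ)⁻¹, f.2.1.inv hf, fun m θ => by
    have := f.2.2 m θ
    simp only
    rw [this]⟩
  refine IsUnit.of_mul_eq_one g ?_
  apply Subtype.ext
  funext θ
  rw [Subring.coe_mul, Pi.mul_apply]
  exact mul_inv_cancel₀ (hf θ)

/-- extension to the fraction field -/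
theorem exists_fracHom {A : Type*} [CommRing A] {K : Type*} [Field K] [Algebra A K]
    [IsFractionRing A K] (γ : A →+* TorusRing n)
    (hγ : ∀ θ, Function.Injective ((evAt θ).comp γ)) :
    ∃ γ' : K →+* TorusRing n, ∀ a, γ' (algebraMap A K a) = γ a := by
  have hnt : Nontrivial A := ((evAt (0 : Fin n → ℝ)).comp γ).domain_nontrivial
  have hu : ∀ y : nonZeroDivisors A, IsUnit (γ y) := by
    intro y
    refine isUnit_torus fun θ h0 => ?_
    have h1 : (evAt θ).comp γ (y : A) = (evAt θ).comp γ 0 := by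
      rw [map_zero]
      exact h0
    exact nonZeroDivisors.ne_zero y.2 (hγ θ h1)
  exact ⟨IsLocalization.lift hu, fun a => IsLocalization.lift_eq hu a⟩

end frac

variable {N : ℕ} {α : Fin N → Fin 2 → ℤ} {β : Fin N → ℤ} {c : ℤ}

/-- complex numbers of transcendental absolute value are transcendental -/
lemma not_alg_of_norm {z : ℂ} {r : ℝ} (hr : Transcendental ℚ r) (hz : ‖z‖ = r) :
    ¬ IsAlgebraic ℚ z := by
  intro h
  apply hr
  have h1 : IsAlgebraic ℚ ((starRingEnd ℂ) z) := by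
    have h2 := h.algHom (Complex.conjAe.toAlgHom.restrictScalars ℚ)
    exact h2
  have h3 : IsAlgebraic ℚ (((r ^ 2 : ℝ)) : ℂ) := by
    have h4 := h.mul h1
    rw [Complex.mul_conj, Complex.normSq_eq_norm_sq, hz] at h4
    exact h4
  have h5 : IsAlgebraic ℚ (r ^ 2 : ℝ) := by
    have h6 : IsAlgebraic ℚ (algebraMap ℝ ℂ (r ^ 2 : ℝ)) := h3
    exact (isAlgebraic_algebraMap_iff (algebraMap ℝ ℂ).injective).1 h6
  exact IsAlgebraic.of_pow (by norm_num : 0 < 2) h5

/-- at a point of the curve where a form is transcendental, the first new coordinate is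
transcendental -/
lemma transc_coord (hc : c ≠ 0) (hN : 0 < N) {κ : ℚ} (hκ : ∀ k, nb α κ k ≠ 0) {s : Fin 2 → ℂ}
    (hs : evm s (crvP α β c) = 0) {i : Fin N} (hi : ¬ IsAlgebraic ℚ (evm s (lf α β i))) :
    Transcendental ℚ (s 0 - algebraMap ℚ ℂ κ * s 1) := by
  intro halg
  apply hi
  set ξ : ℂ := s 0 - algebraMap ℚ ℂ κ * s 1 with hξ
  let A := algebraicClosure ℚ ℂ
  have hξA : ξ ∈ A := mem_algebraicClosure_iff.2 halg
  let ψ : ℚ[X] →+* A := (aeval (⟨ξ, hξA⟩ : A) : ℚ[X] →ₐ[ℚ] A).toRingHom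
  obtain ⟨hdeg, k, hk, hlead⟩ := newP_lead (α := α) (β := β) hc hκ hN
  let q : A[X] := (newP α β c κ).map ψ
  have hcomp : (algebraMap A ℂ).comp ψ = (aeval ξ : ℚ[X] →ₐ[ℚ] ℂ).toRingHom := by
    refine Polynomial.ringHom_ext' (RingHom.ext_rat _ _) ?_
    rw [RingHom.comp_apply]
    have h1 : ψ X = ⟨ξ, hξA⟩ := aeval_X _
    have h2 : (aeval ξ : ℚ[X] →ₐ[ℚ] ℂ).toRingHom X = ξ := aeval_X _
    rw [h1, h2]
    rfl
  have hqev : aeval (s 1) q = 0 := by
    have h1 : aeval (s 1) q = evp ξ (s 1) (newP α β c κ) := by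
      rw [aeval_def]
      simp only [q]
      rw [eval₂_map, hcomp]
      rfl
    rw [h1, ← theta_crvP, ← evm_eq_evp, hs]
  have hq0 : q ≠ 0 := by
    intro h0
    have h1 : q.coeff N = ψ (C k) := by
      simp only [q]
      rw [coeff_map, ← hlead, leadingCoeff, hdeg]
    rw [h0, coeff_zero] at h1
    have h2 : ψ (C k) = algebraMap ℚ A k := aeval_C _ _
    rw [h2] at h1
    exact hk ((algebraMap ℚ A).injective (by rw [← h1, map_zero]))
  have hηalg : IsAlgebraic A (s 1) := ⟨q, hq0, hqev⟩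
  have : Algebra.IsAlgebraic ℚ A := algebraicClosure.isAlgebraic ℚ ℂ
  have hη : IsAlgebraic ℚ (s 1) := hηalg.restrictScalars ℚ
  have h0 : IsAlgebraic ℚ (s 0) := by
    have h1 : s 0 = ξ + algebraMap ℚ ℂ κ * s 1 := by
      rw [hξ]
      ring
    rw [h1]
    exact halg.add ((isAlgebraic_algebraMap κ).mul hη)
  rw [evm_lf]
  exact (((isAlgebraic_intCast _).mul h0).add ((isAlgebraic_intCast _).mul hη)).add
    (isAlgebraic_intCast _)

/-- loops of transcendental radius give homomorphisms from the function field -/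
theorem exists_loopK (hrk : ∀ i, ∃ j, hypDet α ![i, j] ≠ 0)
    (hgp : ∀ (J : Fin 2 → Fin N) k, hypDet α J ≠ 0 → (∀ m, J m ≠ k) → hypVal α β J k ≠ 0)
    (hN : 0 < N) (hc : c ≠ 0) {K : Type*} [Field K] [Algebra (HypRingQ (n := 1) α β c) K]
    [IsFractionRing (HypRingQ (n := 1) α β c) K] {s : Fin 2 → TorusRing 1}
    (hs : (c : TorusRing 1) * ∏ i, ((α i 0 : TorusRing 1) * s 0 + (α i 1 : TorusRing 1) * s 1 +
      (β i : TorusRing 1)) = 1) {i : Fin N} {r : ℝ} (hr : Transcendental ℚ r)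
    (hform : ∀ θ, ‖(((α i 0 : TorusRing 1) * s 0 + (α i 1 : TorusRing 1) * s 1 +
      (β i : TorusRing 1) : TorusRing 1) : (Fin 1 → ℝ) → ℂ) θ‖ = r) :
    ∃ γ : K →+* TorusRing 1, ∀ f, γ (algebraMap (HypRingQ (n := 1) α β c) K (qmk α β c f)) =
      evm s f := by
  obtain ⟨κ, hκ⟩ := exists_kappa hrk
  obtain ⟨φ, hφ⟩ := exists_crvHom (α := α) (β := β) (c := c) s hs
  have hinj : ∀ θ, Function.Injective ((evAt θ).comp φ) := by
    intro θ
    have hcomp : (evAt θ).comp (evm s) = evm (fun m => evAt θ (s m)) := by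
      refine MvPolynomial.ringHom_ext (fun q => ?_) (fun m => ?_)
      · rw [RingHom.comp_apply, evm_C, evm_C]
        exact RingHom.congr_fun (RingHom.ext_rat ((evAt θ).comp (algebraMap ℚ (TorusRing 1)))
          (algebraMap ℚ ℂ)) q
      · rw [RingHom.comp_apply, evm_X, evm_X]
    have hev : ∀ f, ((evAt θ).comp φ) (qmk α β c f) = evm (fun m => evAt θ (s m)) f := by
      intro f
      rw [RingHom.comp_apply, hφ, ← hcomp]
      rfl
    refine crvHom_injective hrk hgp hN hc hκ hev ?_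
    refine transc_coord (i := i) (β := β) (s := fun m => evAt θ (s m)) hc hN hκ ?_ ?_
    · rw [← hev, (qmk_eq_zero).2 dvd_rfl, map_zero]
    · have h1 : evm (fun m => evAt θ (s m)) (lf α β i) = evAt θ ((α i 0 : TorusRing 1) * s 0 +
          (α i 1 : TorusRing 1) * s 1 + (β i : TorusRing 1)) := by
        rw [evm_lf]
        simp only [map_add, map_mul, map_intCast]
      rw [h1]
      exact not_alg_of_norm hr (hform θ)
  obtain ⟨γ, hγ⟩ := exists_fracHom (K := K) φ hinj
  exact ⟨γ, fun f => by rw [hγ, hφ]⟩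

end Pool.Agent.Helper11
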