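import Mathlib

/-! Inverse branches of `A(x) = ∏ (x - a_i)` (distinct integers `a_i`) near a root, with bounds
independent of the degree. -/

namespace Pool.Agent.Helper11

open Topology

/-- the weight `1/(|d| - 1/7)` -/
noncomputable def wt (d : ℤ) : ℝ := (|(d : ℝ)| - 1 / 7)⁻¹

lemma abs_cast_ge {d : ℤ} (hd : d ≠ 0) : 1 ≤ |(d : ℝ)| := by
  have : (1 : ℤ) ≤ |d| := Int.one_le_abs hd
  exact_mod_cast this

lemma wt_pos {d : ℤ} (hd : d ≠ 0) : 0 < wt d := by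
  have := abs_cast_ge hd
  unfold wt
  exact inv_pos.2 (by linarith)

lemma wt_one {d : ℤ} (hd : |d| = 1) : wt d = 7 / 6 := by
  have : |(d : ℝ)| = 1 := by exact_mod_cast hd
  unfold wt
  rw [this]
  norm_num

lemma wt_two {d : ℤ} (hd : 2 ≤ |d|) : wt d ≤ 7 / 13 := by
  have h1 : (2 : ℝ) ≤ |(d : ℝ)| := by exact_mod_cast hd
  unfold wt
  calc (|(d : ℝ)| - 1 / 7)⁻¹ ≤ (2 - 1 / 7 : ℝ)⁻¹ := inv_anti₀ (by norm_num) (by linarith)
    _ = 7 / 13 := by norm_num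

lemma wt_bound_big (T : Finset ℤ) (hT : ∀ d ∈ T, 2 ≤ |d|) : ∀ (s p : ℝ), 0 ≤ s → 0 ≤ p →
    p ≤ 49 / 36 → s * p ≤ 343 / 108 →
    p * ∏ d ∈ T, wt d ≤ 49 / 36 ∧ (s + ∑ d ∈ T, wt d) * (p * ∏ d ∈ T, wt d) ≤ 343 / 108 := by
  classical
  induction T using Finset.induction_on with
  | empty =>
    intro s p _ _ h1 h2
    simp only [Finset.prod_empty, Finset.sum_empty, mul_one, add_zero]
    exact ⟨h1, h2⟩
  | insert d T hd ih =>
    intro s p hs hp h1 h2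
    have hd2 := hT d (Finset.mem_insert_self _ _)
    have hu := wt_two hd2
    have hd0 : d ≠ 0 := by
      rintro rfl
      norm_num at hd2
    have hu0 := wt_pos hd0
    have key := ih (fun e he => hT e (Finset.mem_insert_of_mem he)) (s + wt d) (p * wt d)
      (by positivity) (by positivity) (by nlinarith) (by
        have e1 : (s + wt d) * (p * wt d) = wt d * (s * p) + wt d ^ 2 * p := by ring
        rw [e1]
        have e2 : wt d * (s * p) ≤ 7 / 13 * (343 / 108) := by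
          have : 0 ≤ s * p := by positivity
          nlinarith
        have e3 : wt d ^ 2 * p ≤ (7 / 13) ^ 2 * (49 / 36) := by
          have : wt d ^ 2 ≤ (7 / 13) ^ 2 := by nlinarith
          nlinarith [sq_nonneg (wt d)]
        norm_num at e2 e3 ⊢
        linarith)
    rw [Finset.prod_insert hd, Finset.sum_insert hd]
    have e1 : p * (wt d * ∏ d ∈ T, wt d) = p * wt d * ∏ d ∈ T, wt d := by ring
    have e2 : s + (wt d + ∑ d ∈ T, wt d) = s + wt d + ∑ d ∈ T, wt d := by ring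
    rw [e1, e2]
    exact key

lemma wt_bound (S : Finset ℤ) (hS : (0 : ℤ) ∉ S) :
    ∏ d ∈ S, wt d ≤ 49 / 36 ∧ (∑ d ∈ S, wt d) * ∏ d ∈ S, wt d ≤ 343 / 108 := by
  classical
  set S1 := S.filter (fun d => |d| = 1) with hS1
  set S2 := S.filter (fun d => ¬ |d| = 1) with hS2
  have hsub : S1 ⊆ {1, -1} := by
    intro d hd
    have := (Finset.mem_filter.1 hd).2
    rcases abs_eq (zero_le_one) |>.1 this with h | h <;> simp [h]
  have hcard : S1.card ≤ 2 := (Finset.card_le_card hsub).trans (by decide)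
  have hp1 : ∏ d ∈ S1, wt d = (7 / 6) ^ S1.card := by
    rw [Finset.prod_congr rfl (fun d hd => wt_one (Finset.mem_filter.1 hd).2),
      Finset.prod_const]
  have hs1 : ∑ d ∈ S1, wt d = S1.card * (7 / 6) := by
    rw [Finset.sum_congr rfl (fun d hd => wt_one (Finset.mem_filter.1 hd).2),
      Finset.sum_const, nsmul_eq_mul]
  have hT : ∀ d ∈ S2, 2 ≤ |d| := by
    intro d hd
    have h1 := Finset.mem_filter.1 hd
    have h0 : d ≠ 0 := fun h => hS (h ▸ h1.1)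
    have h2 : 1 ≤ |d| := Int.one_le_abs h0
    have h3 := h1.2
    omega
  have hprod : ∏ d ∈ S, wt d = (∏ d ∈ S1, wt d) * ∏ d ∈ S2, wt d :=
    (Finset.prod_filter_mul_prod_filter_not S _ _).symm
  have hsum : ∑ d ∈ S, wt d = (∑ d ∈ S1, wt d) + ∑ d ∈ S2, wt d :=
    (Finset.sum_filter_add_sum_filter_not S _ _).symm
  rw [hprod, hsum, hp1, hs1]
  refine wt_bound_big S2 hT _ _ (by positivity) (by positivity) ?_ ?_
  · interval_cases S1.card <;> norm_num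
  · interval_cases S1.card <;> norm_num

section branch

variable {ι : Type*} (E : Finset ι) (d : ι → ℤ)

/-- the function `∏ (y + d_i)⁻¹` -/
noncomputable def Hq (y : ℂ) : ℂ := ∏ i ∈ E, (y + (d i : ℂ))⁻¹

/-- standing assumption: the `d_i` are distinct and nonzero -/
structure Dist : Prop where
  ne : ∀ i ∈ E, d i ≠ 0
  inj : Set.InjOn d E

variable {E d}

lemma Dist.bound (h : Dist E d) : ∏ i ∈ E, wt (d i) ≤ 49 / 36 ∧
    (∑ i ∈ E, wt (d i)) * ∏ i ∈ E, wt (d i) ≤ 343 / 108 := by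
  classical
  have h1 := wt_bound (E.image d) (by
    intro h0
    obtain ⟨i, hi, hi0⟩ := Finset.mem_image.1 h0
    exact h.ne i hi hi0)
  rw [Finset.prod_image h.inj, Finset.sum_image h.inj] at h1
  exact h1

lemma norm_add_ge {k : ℤ} {y : ℂ} (hy : ‖y‖ ≤ 1 / 7) : |(k : ℝ)| - 1 / 7 ≤ ‖y + (k : ℂ)‖ := by
  have h1 := norm_sub_norm_le (k : ℂ) (-y)
  rw [sub_neg_eq_add, norm_neg, add_comm (k : ℂ) y, Complex.norm_intCast] at h1
  linarith

lemma add_ne {k : ℤ} (hk : k ≠ 0) {y : ℂ} (hy : ‖y‖ ≤ 1 / 7) : y + (k : ℂ) ≠ 0 := by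
  have h1 := norm_add_ge (k := k) hy
  have h2 := abs_cast_ge hk
  rw [← norm_pos_iff]
  linarith

lemma norm_inv_le {k : ℤ} (hk : k ≠ 0) {y : ℂ} (hy : ‖y‖ ≤ 1 / 7) : ‖(y + (k : ℂ))⁻¹‖ ≤ wt k := by
  rw [norm_inv]
  unfold wt
  have h2 := abs_cast_ge hk
  exact inv_anti₀ (by linarith) (norm_add_ge hy)

lemma Dist.norm_H_le (h : Dist E d) {y : ℂ} (hy : ‖y‖ ≤ 1 / 7) :
    ‖Hq E d y‖ ≤ ∏ i ∈ E, wt (d i) := by
  unfold Hq
  rw [norm_prod]
  exact Finset.prod_le_prod (fun _ _ => norm_nonneg _) fun i hi => norm_inv_le (h.ne i hi) hy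

lemma Dist.mono (h : Dist E d) {F : Finset ι} (hF : F ⊆ E) : Dist F d :=
  ⟨fun i hi => h.ne i (hF hi), h.inj.mono (by exact_mod_cast hF)⟩

lemma Dist.H_lip (h : Dist E d) {y y' : ℂ} (hy : ‖y‖ ≤ 1 / 7) (hy' : ‖y'‖ ≤ 1 / 7) :
    ‖Hq E d y - Hq E d y'‖ ≤ (∑ i ∈ E, wt (d i)) * (∏ i ∈ E, wt (d i)) * ‖y - y'‖ := by
  classical
  induction E using Finset.induction_on with
  | empty => simp [Hq]
  | insert i s his ih =>
    have hs : Dist s d := h.mono (Finset.subset_insert _ _)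
    have hi0 : d i ≠ 0 := h.ne i (Finset.mem_insert_self _ _)
    have hw := wt_pos hi0
    have ih' := ih hs
    have e : ∀ y, Hq (insert i s) d y = (y + (d i : ℂ))⁻¹ * Hq s d y := by
      intro y
      unfold Hq
      rw [Finset.prod_insert his]
    have e2 : (y + (d i : ℂ))⁻¹ * Hq s d y - (y' + (d i : ℂ))⁻¹ * Hq s d y' =
        ((y + (d i : ℂ))⁻¹ - (y' + (d i : ℂ))⁻¹) * Hq s d y +
        (y' + (d i : ℂ))⁻¹ * (Hq s d y - Hq s d y') := by ring
    have e3 : (y + (d i : ℂ))⁻¹ - (y' + (d i : ℂ))⁻¹ =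
        (y + (d i : ℂ))⁻¹ * (y' + (d i : ℂ))⁻¹ * (y' - y) := by
      have a1 := add_ne hi0 hy
      have a2 := add_ne hi0 hy'
      field_simp
      ring
    have hsum : 0 ≤ ∑ i ∈ s, wt (d i) := Finset.sum_nonneg fun k hk => (wt_pos (hs.ne k hk)).le
    have hprod : 0 ≤ ∏ i ∈ s, wt (d i) := Finset.prod_nonneg fun k hk => (wt_pos (hs.ne k hk)).le
    rw [e, e, e2, e3, Finset.sum_insert his, Finset.prod_insert his]
    have hn : 0 ≤ ‖y - y'‖ := norm_nonneg _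
    calc ‖(y + (d i : ℂ))⁻¹ * (y' + (d i : ℂ))⁻¹ * (y' - y) * Hq s d y +
        (y' + (d i : ℂ))⁻¹ * (Hq s d y - Hq s d y')‖
        ≤ ‖(y + (d i : ℂ))⁻¹‖ * ‖(y' + (d i : ℂ))⁻¹‖ * ‖y - y'‖ * ‖Hq s d y‖ +
          ‖(y' + (d i : ℂ))⁻¹‖ * ‖Hq s d y - Hq s d y'‖ := by
          refine (norm_add_le _ _).trans ?_
          rw [norm_mul, norm_mul, norm_mul, norm_mul, norm_sub_rev y' y]
      _ ≤ wt (d i) * wt (d i) * ‖y - y'‖ * (∏ i ∈ s, wt (d i)) +
          wt (d i) * ((∑ i ∈ s, wt (d i)) * (∏ i ∈ s, wt (d i)) * ‖y - y'‖) := by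
          refine add_le_add (mul_le_mul (mul_le_mul_of_nonneg_right (mul_le_mul
            (norm_inv_le hi0 hy) (norm_inv_le hi0 hy') (norm_nonneg _) hw.le) hn)
            (hs.norm_H_le hy) (norm_nonneg _) (by positivity)) (mul_le_mul
            (norm_inv_le hi0 hy') ih' (norm_nonneg _) hw.le)
      _ = _ := by ring

/-- the logarithmic derivative of `∏ (y + d_i)` -/
noncomputable def Lq (E : Finset ι) (d : ι → ℤ) (y : ℂ) : ℂ := ∑ i ∈ E, (y + (d i : ℂ))⁻¹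

lemma Dist.norm_L_le (h : Dist E d) {y : ℂ} (hy : ‖y‖ ≤ 1 / 7) :
    ‖Lq E d y‖ ≤ ∑ i ∈ E, wt (d i) := by
  unfold Lq
  exact (norm_sum_le _ _).trans (Finset.sum_le_sum fun i hi => norm_inv_le (h.ne i hi) hy)

lemma Dist.prod_ne (h : Dist E d) {y : ℂ} (hy : ‖y‖ ≤ 1 / 7) : ∏ i ∈ E, (y + (d i : ℂ)) ≠ 0 :=
  Finset.prod_ne_zero_iff.2 fun i hi => add_ne (h.ne i hi) hy

lemma Dist.hasDerivAt_prod (h : Dist E d) {y : ℂ} (hy : ‖y‖ ≤ 1 / 7) :
    HasDerivAt (fun y => ∏ i ∈ E, (y + (d i : ℂ))) ((∏ i ∈ E, (y + (d i : ℂ))) * Lq E d y) y := by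
  classical
  induction E using Finset.induction_on with
  | empty => simpa [Lq] using hasDerivAt_const y (1 : ℂ)
  | insert i s his ih =>
    have hs : Dist s d := h.mono (Finset.subset_insert _ _)
    have hi0 : d i ≠ 0 := h.ne i (Finset.mem_insert_self _ _)
    have ih' := ih hs
    have h1 : HasDerivAt (fun y : ℂ => y + (d i : ℂ)) 1 y := (hasDerivAt_id y).add_const _
    have h2 := h1.mul ih'
    have e : (fun y : ℂ => ∏ k ∈ insert i s, (y + (d k : ℂ))) =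
        (fun y : ℂ => y + (d i : ℂ)) * fun y => ∏ k ∈ s, (y + (d k : ℂ)) := by
      funext y
      rw [Pi.mul_apply, Finset.prod_insert his]
    rw [e]
    refine h2.congr_deriv ?_
    have a1 := add_ne hi0 hy
    simp only [Lq]
    rw [Finset.prod_insert his, Finset.sum_insert his]
    field_simp

lemma Hq_eq (y : ℂ) : Hq E d y = (∏ i ∈ E, (y + (d i : ℂ)))⁻¹ := by
  unfold Hq
  rw [Finset.prod_inv_distrib]

/-- The inverse branch `φ` of `y ∏ (y + d_i)` near `0`. -/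
theorem Dist.exists_phi (h : Dist E d) : ∃ φ : ℂ → ℂ,
    (∀ z, ‖z‖ < 13 / 125 → ‖φ z‖ ≤ 1 / 7 ∧ φ z = z * Hq E d (φ z)) ∧
    (∀ z, ‖z‖ < 13 / 125 → ‖φ z * Lq E d (φ z)‖ ≤ 1 / 3) ∧
    (∀ z, ‖z‖ < 13 / 125 →
      HasDerivAt φ (Hq E d (φ z) / (1 + φ z * Lq E d (φ z))) z) := by
  classical
  set P : ℝ := ∏ i ∈ E, wt (d i) with hP
  set S : ℝ := ∑ i ∈ E, wt (d i) with hS
  obtain ⟨hb1, hb2⟩ := h.bound
  have hP0 : 0 ≤ P := Finset.prod_nonneg fun k hk => (wt_pos (h.ne k hk)).le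
  have hS0 : 0 ≤ S := Finset.sum_nonneg fun k hk => (wt_pos (h.ne k hk)).le
  set Φ : ℂ → ℂ → ℂ := fun z y => z * Hq E d y with hΦ
  have hmaps : ∀ z, ‖z‖ < 13 / 125 →
      Set.MapsTo (Φ z) (Metric.closedBall 0 (1 / 7)) (Metric.closedBall 0 (1 / 7)) := by
    intro z hz y hy
    rw [mem_closedBall_zero_iff] at hy ⊢
    simp only [hΦ]
    rw [norm_mul]
    calc ‖z‖ * ‖Hq E d y‖ ≤ 13 / 125 * (49 / 36) :=
          mul_le_mul hz.le ((h.norm_H_le hy).trans hb1) (norm_nonneg _) (by norm_num)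
      _ ≤ 1 / 7 := by norm_num
  have hlip : ∀ z, ‖z‖ < 13 / 125 → ∀ y y', ‖y‖ ≤ 1 / 7 → ‖y'‖ ≤ 1 / 7 →
      ‖Φ z y - Φ z y'‖ ≤ 1 / 3 * ‖y - y'‖ := by
    intro z hz y y' hy hy'
    simp only [hΦ]
    rw [← mul_sub, norm_mul]
    have h1 : S * P * ‖y - y'‖ ≤ 343 / 108 * ‖y - y'‖ :=
      mul_le_mul_of_nonneg_right hb2 (norm_nonneg _)
    calc ‖z‖ * ‖Hq E d y - Hq E d y'‖ ≤ 13 / 125 * (343 / 108 * ‖y - y'‖) :=
          mul_le_mul hz.le ((h.H_lip hy hy').trans h1) (norm_nonneg _) (by norm_num)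
      _ ≤ 1 / 3 * ‖y - y'‖ := by
          have := norm_nonneg (y - y')
          nlinarith
  have hfix : ∀ z, ∃ y, ‖z‖ < 13 / 125 → ‖y‖ ≤ 1 / 7 ∧ Φ z y = y := by
    intro z
    by_cases hz : ‖z‖ < 13 / 125
    · have hcomplete : IsComplete (Metric.closedBall (0 : ℂ) (1 / 7)) :=
        Metric.isClosed_closedBall.isComplete
      have hcontr : ContractingWith (1 / 3 : NNReal) ((hmaps z hz).restrict (Φ z) _ _) := by
        refine ⟨by
          rw [← NNReal.coe_lt_coe]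
          norm_num, LipschitzWith.of_dist_le_mul ?_⟩
        rintro ⟨y, hy⟩ ⟨y', hy'⟩
        rw [mem_closedBall_zero_iff] at hy hy'
        rw [Subtype.dist_eq, Subtype.dist_eq, dist_eq_norm, dist_eq_norm]
        simpa using hlip z hz y y' hy hy'
      obtain ⟨y, hy, hy2, -⟩ := ContractingWith.exists_fixedPoint' hcomplete (hmaps z hz) hcontr
        (Metric.mem_closedBall_self (by norm_num)) (edist_ne_top _ _)
      exact ⟨y, fun _ => ⟨by rwa [mem_closedBall_zero_iff] at hy, hy2⟩⟩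
    · exact ⟨0, fun hz' => absurd hz' hz⟩
  choose φ hφ using hfix
  -- Lipschitz
  have hLip : ∀ z z', ‖z‖ < 13 / 125 → ‖z'‖ < 13 / 125 → ‖φ z - φ z'‖ ≤ 3 * ‖z - z'‖ := by
    intro z z' hz hz'
    obtain ⟨a1, a2⟩ := hφ z hz
    obtain ⟨b1, b2⟩ := hφ z' hz'
    have e1 : φ z - φ z' = (z - z') * Hq E d (φ z') + (Φ z (φ z) - Φ z (φ z')) := by
      rw [a2]
      conv_lhs => rw [← b2]
      simp only [hΦ]
      ring
    have h1 := hlip z hz _ _ a1 b1
    have h2 : ‖(z - z') * Hq E d (φ z')‖ ≤ ‖z - z'‖ * (49 / 36) := by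
      rw [norm_mul]
      exact mul_le_mul_of_nonneg_left ((h.norm_H_le b1).trans hb1) (norm_nonneg _)
    have h3 : ‖φ z - φ z'‖ ≤ ‖z - z'‖ * (49 / 36) + 1 / 3 * ‖φ z - φ z'‖ := by
      conv_lhs => rw [e1]
      exact (norm_add_le _ _).trans (add_le_add h2 h1)
    have := norm_nonneg (z - z')
    linarith
  have hopen : IsOpen {z : ℂ | ‖z‖ < 13 / 125} := isOpen_lt continuous_norm continuous_const
  have hcont : ∀ z, ‖z‖ < 13 / 125 → ContinuousAt φ z := by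
    intro z hz
    rw [Metric.continuousAt_iff]
    intro ε hε
    obtain ⟨δ, hδ, hball⟩ := Metric.isOpen_iff.1 hopen z hz
    refine ⟨min δ (ε / 3), by positivity, fun w hw => ?_⟩
    have hw1 : w ∈ Metric.ball z δ := lt_of_lt_of_le hw (min_le_left _ _)
    have hw2 : dist w z < ε / 3 := lt_of_lt_of_le hw (min_le_right _ _)
    have h1 := hLip w z (hball hw1) hz
    rw [dist_eq_norm] at hw2 ⊢
    linarith
  have hPL : ∀ z, ‖z‖ < 13 / 125 → ‖φ z * Lq E d (φ z)‖ ≤ 1 / 3 := by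
    intro z hz
    obtain ⟨a1, a2⟩ := hφ z hz
    have h1 : ‖φ z‖ ≤ 13 / 125 * P := by
      rw [← a2]
      simp only [hΦ]
      rw [norm_mul]
      exact mul_le_mul hz.le (h.norm_H_le a1) (norm_nonneg _) (by norm_num)
    rw [norm_mul]
    calc ‖φ z‖ * ‖Lq E d (φ z)‖ ≤ 13 / 125 * P * S :=
          mul_le_mul h1 (h.norm_L_le a1) (norm_nonneg _) (by positivity)
      _ = 13 / 125 * (S * P) := by ring
      _ ≤ 13 / 125 * (343 / 108) := mul_le_mul_of_nonneg_left hb2 (by norm_num)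
      _ ≤ 1 / 3 := by norm_num
  refine ⟨φ, fun z hz => ⟨(hφ z hz).1, (hφ z hz).2.symm⟩, hPL, fun z hz => ?_⟩
  obtain ⟨a1, a2⟩ := hφ z hz
  have hne : 1 + φ z * Lq E d (φ z) ≠ 0 := by
    intro h0
    have h1 := hPL z hz
    have h2 : φ z * Lq E d (φ z) = -1 := by linear_combination h0
    rw [h2, norm_neg, norm_one] at h1
    norm_num at h1
  have hpne := h.prod_ne a1
  have hA : HasDerivAt (fun y : ℂ => y * ∏ i ∈ E, (y + (d i : ℂ)))
      ((∏ i ∈ E, (φ z + (d i : ℂ))) * (1 + φ z * Lq E d (φ z))) (φ z) := by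
    have h1 := (hasDerivAt_id (φ z)).mul (h.hasDerivAt_prod a1)
    refine HasDerivAt.congr_deriv h1 ?_
    simp only [id]
    ring
  have hAφ : ∀ᶠ w in 𝓝 z, (fun y : ℂ => y * ∏ i ∈ E, (y + (d i : ℂ))) (φ w) = w := by
    filter_upwards [hopen.mem_nhds hz] with w hw
    obtain ⟨b1, b2⟩ := hφ w hw
    simp only [hΦ, Hq_eq] at b2
    have hq := h.prod_ne b1
    generalize hQ : ∏ i ∈ E, (φ w + (d i : ℂ)) = Q at *
    rw [← b2]
    field_simp
  have h2 := HasDerivAt.of_local_left_inverse (hcont z hz) hA (mul_ne_zero hpne hne) hAφ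
  refine HasDerivAt.congr_deriv h2 ?_
  rw [Hq_eq]
  field_simp

end branch

end Pool.Agent.Helper11
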