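import Mathlib
import Pool.Agent.Helper11.BranchC

/-! The data attached to a root of `A(x) = ∏ (x - a_i)`. -/

namespace Pool.Agent.Helper11

open Topology Metric

/-- The inverse branch `X` of `A` near the root `a_j`, the harmonic corrections `F`, `G` and their
bounds. -/
structure BranchData {ι : Type*} [Fintype ι] [DecidableEq ι] (a : ι → ℤ) (j : ι) where
  X : ℂ → ℂ
  F : ι → ℂ → ℂ
  G : ι → ℂ → ℂ
  s : ι → ℝ
  s' : ι → ℝ
  diffX : DifferentiableOn ℂ X (ball 0 (13 / 125))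
  diffF : ∀ i, DifferentiableOn ℂ (F i) (ball 0 (13 / 125))
  diffG : ∀ i, DifferentiableOn ℂ (G i) (ball 0 (13 / 125))
  F0 : ∀ i, F i 0 = 0
  G0 : ∀ i, G i 0 = 0
  ne : ∀ z ∈ ball (0 : ℂ) (13 / 125), z ≠ 0 → ∀ i, X z - (a i : ℂ) ≠ 0
  prod : ∀ z ∈ ball (0 : ℂ) (13 / 125), ∏ i, (X z - (a i : ℂ)) = z
  logX : ∀ z ∈ ball (0 : ℂ) (13 / 125), z ≠ 0 → ∀ i, Real.log ‖X z - (a i : ℂ)‖ =
    (if i = j then Real.log ‖z‖ - ∑ k ∈ Finset.univ.erase j, Real.log |((a j - a k : ℤ) : ℝ)|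
      else Real.log |((a j - a i : ℤ) : ℝ)|) + (F i z).re
  derX : ∀ z ∈ ball (0 : ℂ) (13 / 125), z ≠ 0 → ∀ i, z * deriv X z / (X z - (a i : ℂ)) =
    (if i = j then 1 else 0) + G i z
  hF : ∀ z ∈ ball (0 : ℂ) (13 / 125), ∀ i, ‖F i z‖ ≤ s i
  hG : ∀ z ∈ ball (0 : ℂ) (13 / 125), ∀ i, ‖G i z‖ ≤ s' i
  s0 : ∀ i, 0 ≤ s i
  s0' : ∀ i, 0 ≤ s' i
  sum_s : ∑ i, s i ≤ 7 / 9
  sum_s' : ∑ i, s' i ≤ 1

lemma norm_log_le {w : ℂ} (hw : ‖w‖ ≤ 1 / 7) : ‖Complex.log (1 + w)‖ ≤ 7 / 6 * ‖w‖ := by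
  have h1 := Complex.norm_log_one_add_le (z := w) (by linarith)
  have h2 : (1 - ‖w‖)⁻¹ ≤ 7 / 6 := by
    calc (1 - ‖w‖)⁻¹ ≤ (6 / 7 : ℝ)⁻¹ := inv_anti₀ (by norm_num) (by linarith)
      _ = 7 / 6 := by norm_num
  have h3 : ‖w‖ ^ 2 * (1 - ‖w‖)⁻¹ / 2 ≤ 1 / 12 * ‖w‖ := by
    have h4 : ‖w‖ ^ 2 ≤ 1 / 7 * ‖w‖ := by nlinarith [norm_nonneg w]
    have h5 : 0 ≤ (1 - ‖w‖)⁻¹ := inv_nonneg.2 (by linarith)
    have h6 : ‖w‖ ^ 2 * (1 - ‖w‖)⁻¹ ≤ 1 / 7 * ‖w‖ * (7 / 6) :=
      mul_le_mul h4 h2 h5 (by positivity)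
    linarith
  have := norm_nonneg w
  linarith

theorem exists_branchData {ι : Type*} [Fintype ι] [DecidableEq ι] {a : ι → ℤ}
    (ha : Function.Injective a) (j : ι) : Nonempty (BranchData a j) := by
  set E : Finset ι := Finset.univ.erase j with hE
  set d : ι → ℤ := fun i => a j - a i with hd
  have hjE : j ∉ E := Finset.notMem_erase j _
  have hEj : ∀ {i}, i ∈ E ↔ i ≠ j := by
    intro i
    rw [hE, Finset.mem_erase]
    exact ⟨fun h => h.1, fun h => ⟨h, Finset.mem_univ _⟩⟩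
  have h : Dist E d := by
    refine ⟨fun i hi h0 => ?_, ?_⟩
    · have : a i = a j := by
        rw [hd] at h0
        simp only at h0
        omega
      exact (hEj.1 hi) (ha this)
    · intro i _ k _ hik
      apply ha
      simp only [hd] at hik
      omega
  obtain ⟨φ, hφ1, hφ2, hφ3⟩ := h.exists_phi
  obtain ⟨hb1, hb2⟩ := h.bound
  set P : ℝ := ∏ i ∈ E, wt (d i) with hP
  set S : ℝ := ∑ i ∈ E, wt (d i) with hS
  have hP0 : 0 ≤ P := Finset.prod_nonneg fun k hk => (wt_pos (h.ne k hk)).le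
  have hS0 : 0 ≤ S := Finset.sum_nonneg fun k hk => (wt_pos (h.ne k hk)).le
  have hPS : 13 / 125 * (P * S) ≤ 1 / 3 := by
    rw [mul_comm P S]
    calc 13 / 125 * (S * P) ≤ 13 / 125 * (343 / 108) := mul_le_mul_of_nonneg_left hb2 (by norm_num)
      _ ≤ 1 / 3 := by norm_num
  set U : Set ℂ := ball 0 (13 / 125) with hU
  have hUo : IsOpen U := isOpen_ball
  have hmem : ∀ {z : ℂ}, z ∈ U ↔ ‖z‖ < 13 / 125 := by
    intro z
    rw [hU, mem_ball_zero_iff]
  have hφd : DifferentiableOn ℂ φ U := fun z hz =>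
    (hφ3 z (hmem.1 hz)).differentiableAt.differentiableWithinAt
  have hφn : ∀ z ∈ U, ‖φ z‖ ≤ 13 / 125 * P := by
    intro z hz
    obtain ⟨a1, a2⟩ := hφ1 z (hmem.1 hz)
    rw [a2, norm_mul]
    exact mul_le_mul (hmem.1 hz).le (h.norm_H_le a1) (norm_nonneg _) (by norm_num)
  have hφ0 : φ 0 = 0 := by
    have := (hφ1 0 (by simp)).2
    simpa using this
  have hLd : DifferentiableOn ℂ (fun z => Lq E d (φ z)) U := by
    unfold Lq
    refine DifferentiableOn.fun_sum fun k hk => ?_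
    exact (hφd.add_const _).inv fun z hz => add_ne (h.ne k hk) (hφ1 z (hmem.1 hz)).1
  have h1L : ∀ z ∈ U, 2 / 3 ≤ ‖1 + φ z * Lq E d (φ z)‖ := by
    intro z hz
    have h1 := hφ2 z (hmem.1 hz)
    have h2 := norm_sub_norm_le (1 : ℂ) (-(φ z * Lq E d (φ z)))
    rw [sub_neg_eq_add, norm_neg, norm_one] at h2
    linarith
  have h1Lne : ∀ z ∈ U, 1 + φ z * Lq E d (φ z) ≠ 0 := by
    intro z hz
    rw [← norm_pos_iff]
    have := h1L z hz
    linarith
  -- the functions
  set f : ι → ℂ → ℂ := fun i z => Complex.log (1 + φ z / (d i : ℂ)) with hf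
  set g : ι → ℂ → ℂ := fun i z => φ z / ((1 + φ z * Lq E d (φ z)) * (φ z + (d i : ℂ))) with hg
  have hdne : ∀ i ∈ E, ((d i : ℤ) : ℂ) ≠ 0 := fun i hi => Int.cast_ne_zero.2 (h.ne i hi)
  have hwle : ∀ i ∈ E, ∀ z ∈ U, ‖φ z / (d i : ℂ)‖ ≤ 1 / 7 := by
    intro i hi z hz
    rw [norm_div, Complex.norm_intCast]
    have h1 := abs_cast_ge (h.ne i hi)
    exact (div_le_self (norm_nonneg _) h1).trans (hφ1 z (hmem.1 hz)).1
  have hslit : ∀ i ∈ E, ∀ z ∈ U, 1 + φ z / (d i : ℂ) ∈ Complex.slitPlane := by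
    intro i hi z hz
    left
    have h1 := hwle i hi z hz
    have h2 := Complex.abs_re_le_norm (φ z / (d i : ℂ))
    have h3 := neg_abs_le (φ z / (d i : ℂ)).re
    simp only [Complex.add_re, Complex.one_re]
    linarith
  have hfd : ∀ i ∈ E, DifferentiableOn ℂ (f i) U := by
    intro i hi
    exact ((hφd.div_const _).const_add 1).clog (hslit i hi)
  have hgd : ∀ i ∈ E, DifferentiableOn ℂ (g i) U := by
    intro i hi
    refine hφd.div (((hφd.mul hLd).const_add 1).mul (hφd.add_const _)) fun z hz => ?_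
    exact mul_ne_zero (h1Lne z hz) (add_ne (h.ne i hi) (hφ1 z (hmem.1 hz)).1)
  have hinvle : ∀ i ∈ E, |((d i : ℤ) : ℝ)|⁻¹ ≤ wt (d i) := by
    intro i hi
    have h1 := abs_cast_ge (h.ne i hi)
    unfold wt
    exact inv_anti₀ (by linarith) (by linarith)
  have hfn : ∀ i ∈ E, ∀ z ∈ U, ‖f i z‖ ≤ 7 / 6 * (13 / 125 * P * wt (d i)) := by
    intro i hi z hz
    refine (norm_log_le (hwle i hi z hz)).trans (mul_le_mul_of_nonneg_left ?_ (by norm_num))
    rw [norm_div, Complex.norm_intCast, div_eq_mul_inv]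
    exact mul_le_mul (hφn z hz) (hinvle i hi) (by positivity) (by positivity)
  have hgn : ∀ i ∈ E, ∀ z ∈ U, ‖g i z‖ ≤ 3 / 2 * (13 / 125 * P * wt (d i)) := by
    intro i hi z hz
    simp only [hg]
    have e : φ z / ((1 + φ z * Lq E d (φ z)) * (φ z + (d i : ℂ))) =
        (1 + φ z * Lq E d (φ z))⁻¹ * (φ z * (φ z + (d i : ℂ))⁻¹) := by
      have a1 := h1Lne z hz
      have a2 := add_ne (h.ne i hi) (hφ1 z (hmem.1 hz)).1
      field_simp
    rw [e, norm_mul, norm_mul, norm_inv]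
    refine mul_le_mul ?_ (mul_le_mul (hφn z hz) (norm_inv_le (h.ne i hi) (hφ1 z (hmem.1 hz)).1)
      (norm_nonneg _) (by positivity)) (by positivity) (by norm_num)
    calc ‖1 + φ z * Lq E d (φ z)‖⁻¹ ≤ (2 / 3 : ℝ)⁻¹ := inv_anti₀ (by norm_num) (h1L z hz)
      _ = 3 / 2 := by norm_num
  have hf0 : ∀ i, f i 0 = 0 := by
    intro i
    simp [hf, hφ0]
  have hg0 : ∀ i, g i 0 = 0 := by
    intro i
    simp [hg, hφ0]
  have hXa : ∀ z i, (a j : ℂ) + φ z - (a i : ℂ) = φ z + (d i : ℂ) := by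
    intro z i
    simp only [hd]
    push_cast
    ring
  have hXj : ∀ z, (a j : ℂ) + φ z - (a j : ℂ) = φ z := fun z => by ring
  have hφne : ∀ z ∈ U, z ≠ 0 → φ z ≠ 0 := by
    intro z hz hz0
    obtain ⟨a1, a2⟩ := hφ1 z (hmem.1 hz)
    rw [a2]
    refine mul_ne_zero hz0 ?_
    rw [Hq_eq]
    exact inv_ne_zero (h.prod_ne a1)
  have hprod : ∀ z ∈ U, φ z * ∏ i ∈ E, (φ z + (d i : ℂ)) = z := by
    intro z hz
    obtain ⟨a1, a2⟩ := hφ1 z (hmem.1 hz)
    have h1 := h.prod_ne a1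
    rw [Hq_eq] at a2
    calc φ z * ∏ i ∈ E, (φ z + (d i : ℂ)) =
        (z * (∏ i ∈ E, (φ z + (d i : ℂ)))⁻¹) * ∏ i ∈ E, (φ z + (d i : ℂ)) := by rw [← a2]
      _ = z := by
        field_simp
  have hlogi : ∀ i ∈ E, ∀ z ∈ U, Real.log ‖φ z + (d i : ℂ)‖ =
      Real.log |((d i : ℤ) : ℝ)| + (f i z).re := by
    intro i hi z hz
    have e : φ z + (d i : ℂ) = (d i : ℂ) * (1 + φ z / (d i : ℂ)) := by
      have := hdne i hi
      field_simp
      ring
    have h1 : (1 + φ z / (d i : ℂ)) ≠ 0 := Complex.slitPlane_ne_zero (hslit i hi z hz)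
    simp only [hf]
    rw [e, norm_mul, Complex.norm_intCast, Complex.log_re, Real.log_mul
      (by have := abs_cast_ge (h.ne i hi); positivity) (norm_ne_zero_iff.2 h1)]
  have hsplit : ∀ (F : ι → ℝ), ∑ i, F i = F j + ∑ i ∈ E, F i := fun F =>
    (Finset.add_sum_erase _ _ (Finset.mem_univ j)).symm
  refine ⟨{
    X := fun z => (a j : ℂ) + φ z
    F := fun i => if i = j then fun z => -∑ k ∈ E, f k z else f i
    G := fun i => if i = j then fun z => -∑ k ∈ E, g k z else g i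
    s := fun i => if i = j then ∑ k ∈ E, 7 / 6 * (13 / 125 * P * wt (d k))
      else 7 / 6 * (13 / 125 * P * |wt (d i)|)
    s' := fun i => if i = j then ∑ k ∈ E, 3 / 2 * (13 / 125 * P * wt (d k))
      else 3 / 2 * (13 / 125 * P * |wt (d i)|)
    diffX := hφd.const_add _
    diffF := ?_
    diffG := ?_
    F0 := ?_
    G0 := ?_
    ne := ?_
    prod := ?_
    logX := ?_
    derX := ?_
    hF := ?_
    hG := ?_
    s0 := ?_
    s0' := ?_
    sum_s := ?_
    sum_s' := ?_ }⟩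
  · intro i
    by_cases hi : i = j
    · simp only [if_pos hi]
      exact (DifferentiableOn.fun_sum fun k hk => hfd k hk).neg
    · simp only [if_neg hi]
      exact hfd i (hEj.2 hi)
  · intro i
    by_cases hi : i = j
    · simp only [if_pos hi]
      exact (DifferentiableOn.fun_sum fun k hk => hgd k hk).neg
    · simp only [if_neg hi]
      exact hgd i (hEj.2 hi)
  · intro i
    by_cases hi : i = j
    · simp only [if_pos hi, hf0, Finset.sum_const_zero, neg_zero]
    · simp only [if_neg hi, hf0]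
  · intro i
    by_cases hi : i = j
    · simp only [if_pos hi, hg0, Finset.sum_const_zero, neg_zero]
    · simp only [if_neg hi, hg0]
  · intro z hz hz0 i
    by_cases hi : i = j
    · subst hi
      rw [hXj]
      exact hφne z hz hz0
    · rw [hXa]
      exact add_ne (h.ne i (hEj.2 hi)) (hφ1 z (hmem.1 hz)).1
  · intro z hz
    rw [← Finset.mul_prod_erase _ _ (Finset.mem_univ j), hXj]
    simp only [hXa]
    exact hprod z hz
  · intro z hz hz0 i
    by_cases hi : i = j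
    · subst hi
      simp only [↓reduceIte]
      rw [hXj]
      have h1 : Real.log ‖z‖ = Real.log ‖φ z‖ + ∑ k ∈ E, Real.log ‖φ z + (d k : ℂ)‖ := by
        conv_lhs => rw [← hprod z hz]
        rw [norm_mul, norm_prod, Real.log_mul (norm_ne_zero_iff.2 (hφne z hz hz0))
          (Finset.prod_ne_zero_iff.2 fun k hk => norm_ne_zero_iff.2
            (add_ne (h.ne k hk) (hφ1 z (hmem.1 hz)).1)),
          Real.log_prod fun k hk => norm_ne_zero_iff.2
            (add_ne (h.ne k hk) (hφ1 z (hmem.1 hz)).1)]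
      rw [h1, Finset.sum_congr rfl (fun k hk => hlogi k hk z hz), Finset.sum_add_distrib]
      simp only [Complex.neg_re, Complex.re_sum, hd]
      ring
    · simp only [if_neg hi]
      rw [hXa]
      exact hlogi i (hEj.2 hi) z hz
  · intro z hz hz0 i
    have hder : deriv (fun z => (a j : ℂ) + φ z) z =
        Hq E d (φ z) / (1 + φ z * Lq E d (φ z)) := by
      rw [deriv_const_add]
      exact (hφ3 z (hmem.1 hz)).deriv
    obtain ⟨a1, a2⟩ := hφ1 z (hmem.1 hz)
    have hzH : z * deriv (fun z => (a j : ℂ) + φ z) z = φ z / (1 + φ z * Lq E d (φ z)) := by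
      rw [hder, mul_div_assoc', ← a2]
    have hne := h1Lne z hz
    by_cases hi : i = j
    · subst hi
      simp only [↓reduceIte]
      rw [hzH, hXj]
      have h1 : ∑ k ∈ E, g k z = φ z * Lq E d (φ z) / (1 + φ z * Lq E d (φ z)) := by
        simp only [hg, Lq]
        rw [Finset.mul_sum, Finset.sum_div]
        refine Finset.sum_congr rfl fun k hk => ?_
        have b1 := add_ne (h.ne k hk) a1
        have b2 := hne
        unfold Lq at b2
        rw [Finset.mul_sum] at b2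
        rw [div_mul_eq_div_div, div_right_comm, ← div_eq_mul_inv]
      rw [h1]
      have b1 := hφne z hz hz0
      generalize Lq E d (φ z) = L at *
      field_simp
      ring
    · simp only [if_neg hi]
      rw [hzH, hXa, zero_add]
      simp only [hg]
      rw [div_div]
  · intro z hz i
    by_cases hi : i = j
    · simp only [if_pos hi, norm_neg]
      exact (norm_sum_le _ _).trans (Finset.sum_le_sum fun k hk => hfn k hk z hz)
    · simp only [if_neg hi]
      rw [abs_of_pos (wt_pos (h.ne i (hEj.2 hi)))]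
      exact hfn i (hEj.2 hi) z hz
  · intro z hz i
    by_cases hi : i = j
    · simp only [if_pos hi, norm_neg]
      exact (norm_sum_le _ _).trans (Finset.sum_le_sum fun k hk => hgn k hk z hz)
    · simp only [if_neg hi]
      rw [abs_of_pos (wt_pos (h.ne i (hEj.2 hi)))]
      exact hgn i (hEj.2 hi) z hz
  · intro i
    by_cases hi : i = j
    · simp only [if_pos hi]
      refine Finset.sum_nonneg fun k hk => ?_
      have := (wt_pos (h.ne k hk)).le
      positivity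
    · simp only [if_neg hi]
      positivity
  · intro i
    by_cases hi : i = j
    · simp only [if_pos hi]
      refine Finset.sum_nonneg fun k hk => ?_
      have := (wt_pos (h.ne k hk)).le
      positivity
    · simp only [if_neg hi]
      positivity
  · rw [hsplit]
    simp only [↓reduceIte]
    have e1 : ∑ i ∈ E, (if i = j then ∑ k ∈ E, 7 / 6 * (13 / 125 * P * wt (d k))
        else 7 / 6 * (13 / 125 * P * |wt (d i)|)) =
        ∑ k ∈ E, 7 / 6 * (13 / 125 * P * wt (d k)) := by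
      refine Finset.sum_congr rfl fun k hk => ?_
      rw [if_neg (hEj.1 hk), abs_of_pos (wt_pos (h.ne k hk))]
    have e2 : ∑ k ∈ E, 7 / 6 * (13 / 125 * P * wt (d k)) = 7 / 6 * (13 / 125 * (P * S)) := by
      rw [hS, Finset.mul_sum, Finset.mul_sum, Finset.mul_sum]
      refine Finset.sum_congr rfl fun k _ => ?_
      ring
    rw [e1, e2]
    linarith
  · rw [hsplit]
    simp only [↓reduceIte]
    have e1 : ∑ i ∈ E, (if i = j then ∑ k ∈ E, 3 / 2 * (13 / 125 * P * wt (d k))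
        else 3 / 2 * (13 / 125 * P * |wt (d i)|)) =
        ∑ k ∈ E, 3 / 2 * (13 / 125 * P * wt (d k)) := by
      refine Finset.sum_congr rfl fun k hk => ?_
      rw [if_neg (hEj.1 hk), abs_of_pos (wt_pos (h.ne k hk))]
    have e2 : ∑ k ∈ E, 3 / 2 * (13 / 125 * P * wt (d k)) = 3 / 2 * (13 / 125 * (P * S)) := by
      rw [hS, Finset.mul_sum, Finset.mul_sum, Finset.mul_sum]
      refine Finset.sum_congr rfl fun k _ => ?_
      ring
    rw [e1, e2]
    linarith

end Pool.Agent.Helper11
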