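import Mathlib

/-! Evaluation of torus integrals: an arrow determinant, Fubini on boxes, and the mean value
decomposition. -/

namespace Pool.Agent.Helper11

open MeasureTheory Set

section det

variable {R : Type*} [CommRing R]

/-- the arrow matrix -/
def arrow {n : ℕ} (a : R) (b v d : Fin n → R) : Matrix (Fin (n + 1)) (Fin (n + 1)) R :=
  Matrix.of (Fin.cons (α := fun _ => Fin (n + 1) → R) (Fin.cons a b)
    fun k => Fin.cons (v k) (Pi.single k (d k)))

lemma det_arrow {n : ℕ} (a : R) (b v d : Fin (n + 1) → R) :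
    (arrow a b v d).det = a * ∏ m, d m - ∑ k, b k * v k * ∏ m, d (k.succAbove m) := by
  rw [Matrix.det_succ_row_zero, Fin.sum_univ_succ]
  have h0 : (arrow a b v d).submatrix Fin.succ (Fin.succAbove 0) = Matrix.diagonal d := by
    ext r s
    simp only [arrow, Matrix.submatrix_apply, Matrix.of_apply, Fin.cons_succ, Fin.succAbove_zero,
      Matrix.diagonal_apply, Pi.single_apply]
    by_cases h : s = r
    · subst h
      simp
    · rw [if_neg h, if_neg (Ne.symm h)]
  have hk : ∀ k : Fin (n + 1),
      ((arrow a b v d).submatrix Fin.succ (Fin.succAbove k.succ)).det =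
        (-1) ^ (k : ℕ) * v k * ∏ m, d (k.succAbove m) := by
    intro k
    rw [Matrix.det_succ_row _ k, Fin.sum_univ_succ]
    have hz : ∀ s : Fin n, ((arrow a b v d).submatrix Fin.succ (Fin.succAbove k.succ)) k s.succ
        = 0 := by
      intro s
      simp only [arrow, Matrix.submatrix_apply, Matrix.of_apply, Fin.cons_succ,
        Fin.succ_succAbove_succ]
      rw [Pi.single_eq_of_ne (Fin.succAbove_ne k s)]
    have h1 : ((arrow a b v d).submatrix Fin.succ (Fin.succAbove k.succ)) k 0 = v k := by
      simp only [arrow, Matrix.submatrix_apply, Matrix.of_apply, Fin.cons_succ,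
        Fin.succ_succAbove_zero, Fin.cons_zero]
    have h2 : (((arrow a b v d).submatrix Fin.succ (Fin.succAbove k.succ)).submatrix
        k.succAbove (Fin.succAbove 0)) = Matrix.diagonal fun m => d (k.succAbove m) := by
      ext r s
      simp only [arrow, Matrix.submatrix_apply, Matrix.of_apply, Fin.cons_succ,
        Fin.succAbove_zero, Fin.succ_succAbove_succ, Matrix.diagonal_apply, Pi.single_apply]
      by_cases h : s = r
      · subst h
        simp
      · rw [if_neg (Ne.symm h), if_neg]
        intro h3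
        exact h (Fin.succAbove_right_injective h3)
    rw [h1, h2, Matrix.det_diagonal]
    simp only [hz, mul_zero, zero_mul, Finset.sum_const_zero, add_zero, Fin.val_zero]
  rw [h0, Matrix.det_diagonal]
  simp only [hk]
  have e1 : ∀ k : Fin (n + 1), (-1 : R) ^ ((k.succ : Fin (n + 2)) : ℕ) * arrow a b v d 0 k.succ *
      ((-1) ^ (k : ℕ) * v k * ∏ m, d (k.succAbove m)) =
      -(b k * v k * ∏ m, d (k.succAbove m)) := by
    intro k
    have h2 : arrow a b v d 0 k.succ = b k := by
      simp [arrow]
    rw [h2, Fin.val_succ, pow_succ]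
    have h3 : (-1 : R) ^ (k : ℕ) * (-1) ^ (k : ℕ) = 1 := by
      rw [← mul_pow]
      simp
    linear_combination (-(b k * v k * ∏ m, d (k.succAbove m))) * h3
  simp only [e1]
  rw [Finset.sum_neg_distrib]
  simp [arrow]
  ring

/-- the symmetric form of the determinant of the regulator matrix -/
lemma det_arrow_symm {n : ℕ} (lam V : Fin (n + 1) → ℂ) :
    (arrow (lam 0) (fun _ => -(Complex.I * V 0)) (fun k : Fin n => lam k.succ)
      (fun k => Complex.I * V k.succ)).det =
      Complex.I ^ n * ∑ k, lam k * ∏ m, V (k.succAbove m) := by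
  obtain _ | n := n
  · simp [arrow]
  · have e1 : ∀ k : Fin (n + 1), ∏ m, V (k.succ.succAbove m) =
        V 0 * ∏ m, V (k.succAbove m).succ := by
      intro k
      rw [Fin.prod_univ_succ, Fin.succ_succAbove_zero]
      simp only [Fin.succ_succAbove_succ]
    have e2 : ∑ k : Fin (n + 2), lam k * ∏ m, V (k.succAbove m) =
        lam 0 * ∏ m : Fin (n + 1), V m.succ +
          ∑ k : Fin (n + 1), lam k.succ * (V 0 * ∏ m, V (k.succAbove m).succ) := by
      rw [Fin.sum_univ_succ]
      simp only [Fin.succAbove_zero, e1]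
    rw [det_arrow, e2]
    simp only [Finset.prod_mul_distrib, Finset.prod_const, Finset.card_univ, Fintype.card_fin]
    rw [mul_add, sub_eq_add_neg, ← Finset.sum_neg_distrib, Finset.mul_sum]
    congr 1
    · ring
    · refine Finset.sum_congr rfl fun k _ => ?_
      ring

end det

section box

/-- Fubini on a box, isolating one coordinate -/
lemma box_split {n : ℕ} {E : Type*} [NormedAddCommGroup E] [NormedSpace ℝ E]
    (j : Fin (n + 1)) (b : Fin (n + 1) → ℝ) {F : (Fin (n + 1) → ℝ) → E} (hF : Continuous F) :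
    ∫ x in Icc 0 b, F x =
      ∫ s in Icc 0 (b j), ∫ y in Icc (0 : Fin n → ℝ) (fun k => b (j.succAbove k)),
        F (j.insertNth s y) := by
  set e : ℝ × (Fin n → ℝ) ≃ᵐ (Fin (n + 1) → ℝ) :=
    (MeasurableEquiv.piFinSuccAbove (fun _ => ℝ) j).symm with he
  have hem : MeasurePreserving e :=
    (volume_preserving_piFinSuccAbove (fun _ : Fin (n + 1) => ℝ) j).symm _
  have hpre : e ⁻¹' Icc 0 b = Icc 0 (b j) ×ˢ Icc (0 : Fin n → ℝ) (fun k => b (j.succAbove k)) := by
    exact ((Fin.insertNthOrderIso (fun _ => ℝ) j).preimage_Icc _ _).trans (Icc_prod_eq _ _)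
  rw [← hem.map_eq, e.measurableEmbedding.setIntegral_map, hpre]
  have hc : Continuous fun p : ℝ × (Fin n → ℝ) => F (e p) := by
    refine hF.comp ?_
    refine continuous_pi fun i => ?_
    refine Fin.succAboveCases j ?_ (fun k => ?_) i
    · simp only [he, MeasurableEquiv.piFinSuccAbove_symm_apply, Fin.insertNthEquiv_apply,
        Fin.insertNth_apply_same]
      exact continuous_fst
    · simp only [he, MeasurableEquiv.piFinSuccAbove_symm_apply, Fin.insertNthEquiv_apply,
        Fin.insertNth_apply_succAbove]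
      exact (continuous_apply k).comp continuous_snd
  have hi : IntegrableOn (fun p : ℝ × (Fin n → ℝ) => F (e p))
      (Icc 0 (b j) ×ˢ Icc (0 : Fin n → ℝ) (fun k => b (j.succAbove k))) (volume.prod volume) :=
    hc.continuousOn.integrableOn_compact (isCompact_Icc.prod isCompact_Icc)
  have := setIntegral_prod (μ := (volume : Measure ℝ)) (ν := (volume : Measure (Fin n → ℝ)))
    (fun p : ℝ × (Fin n → ℝ) => F (e p)) hi
  rw [← Measure.volume_eq_prod] at this
  exact this

/-- Fubini on a box, isolating one coordinate, inner integral over that coordinate -/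
lemma box_split' {n : ℕ} {E : Type*} [NormedAddCommGroup E] [NormedSpace ℝ E]
    (j : Fin (n + 1)) (b : Fin (n + 1) → ℝ) {F : (Fin (n + 1) → ℝ) → E} (hF : Continuous F) :
    ∫ x in Icc 0 b, F x =
      ∫ y in Icc (0 : Fin n → ℝ) (fun k => b (j.succAbove k)), ∫ s in Icc 0 (b j),
        F (j.insertNth s y) := by
  rw [box_split j b hF]
  have hc : Continuous fun p : ℝ × (Fin n → ℝ) => F (j.insertNth p.1 p.2) := by
    refine hF.comp ?_
    refine continuous_pi fun i => ?_
    refine Fin.succAboveCases j ?_ (fun k => ?_) i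
    · simp only [Fin.insertNth_apply_same]
      exact continuous_fst
    · simp only [Fin.insertNth_apply_succAbove]
      exact (continuous_apply k).comp continuous_snd
  have hi : IntegrableOn (fun p : ℝ × (Fin n → ℝ) => F (j.insertNth p.1 p.2))
      (Icc 0 (b j) ×ˢ Icc (0 : Fin n → ℝ) (fun k => b (j.succAbove k))) (volume.prod volume) :=
    hc.continuousOn.integrableOn_compact (isCompact_Icc.prod isCompact_Icc)
  refine integral_integral_swap (f := fun s y => F (j.insertNth s y)) ?_
  rw [IntegrableOn, ← Measure.prod_restrict] at hi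
  exact hi

lemma box_prod {n : ℕ} (g : Fin n → ℝ → ℂ) :
    ∫ y in Icc (0 : Fin n → ℝ) (fun _ => 2 * Real.pi), ∏ k, g k (y k) =
      ∏ k, ∫ x in Icc 0 (2 * Real.pi), g k x := by
  have h1 : (Icc (0 : Fin n → ℝ) (fun _ => 2 * Real.pi)) =
      Set.pi univ fun _ : Fin n => Icc (0 : ℝ) (2 * Real.pi) := by
    rw [Set.pi_univ_Icc]
    rfl
  rw [h1, volume_pi, Measure.restrict_pi_pi]
  exact integral_fintype_prod_eq_prod _

lemma shift_mean {g : ℝ → ℂ} (hp : Function.Periodic g (2 * Real.pi)) (c : ℝ) :
    ∫ s in Icc 0 (2 * Real.pi), g (c - s) = ∫ s in Icc 0 (2 * Real.pi), g s := by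
  have h0 : (0 : ℝ) ≤ 2 * Real.pi := by positivity
  rw [integral_Icc_eq_integral_Ioc, integral_Icc_eq_integral_Ioc,
    ← intervalIntegral.integral_of_le h0, ← intervalIntegral.integral_of_le h0,
    intervalIntegral.integral_comp_sub_left, sub_zero]
  have h1 := hp.intervalIntegral_add_eq (c - 2 * Real.pi) 0
  rw [sub_add_cancel, zero_add] at h1
  exact h1

end box

section mean

/-- the torus integral of a product of functions of the angles `-∑ θ, θ_1, ..., θ_n` -/
noncomputable def TI {n : ℕ} (h : Fin (n + 1) → ℝ → ℂ) : ℂ :=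
  ∫ y in Icc (0 : Fin n → ℝ) (fun _ => 2 * Real.pi),
    h 0 (-∑ k, y k) * ∏ k : Fin n, h k.succ (y k)

lemma TI_const {n : ℕ} {h : Fin (n + 1) → ℝ → ℂ} (hc : ∀ m, Continuous (h m))
    (hp : ∀ m, Function.Periodic (h m) (2 * Real.pi)) (j : Fin (n + 1)) {μ : ℂ}
    (hj : ∀ x, h j x = μ) :
    TI h = μ * ∏ m : Fin n, ∫ x in Icc 0 (2 * Real.pi), h (j.succAbove m) x := by
  unfold TI
  induction j using Fin.cases with
  | zero =>
    simp only [hj, Fin.succAbove_zero]
    rw [integral_const_mul, box_prod]
  | succ k =>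
    obtain _ | n := n
    · exact k.elim0
    · have hcont : Continuous fun y : Fin (n + 1) → ℝ =>
          h 0 (-∑ k, y k) * ∏ k : Fin (n + 1), h k.succ (y k) := by
        refine ((hc 0).comp (continuous_finsetSum _ fun i _ => continuous_apply i).neg).mul
          (continuous_finsetProd _ fun i _ => (hc _).comp (continuous_apply i))
      rw [box_split' k (fun _ => 2 * Real.pi) hcont]
      have e1 : ∀ (y : Fin n → ℝ) (s : ℝ),
          h 0 (-∑ i, (k.insertNth s y : Fin (n + 1) → ℝ) i) *
            ∏ i : Fin (n + 1), h i.succ ((k.insertNth s y : Fin (n + 1) → ℝ) i) =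
          (μ * ∏ i : Fin n, h (k.succAbove i).succ (y i)) * h 0 (-(∑ i, y i) - s) := by
        intro y s
        rw [Fin.sum_univ_succAbove _ k, Fin.prod_univ_succAbove _ k]
        simp only [Fin.insertNth_apply_same, Fin.insertNth_apply_succAbove, hj]
        have e2 : -(s + ∑ i, y i) = -(∑ i, y i) - s := by ring
        rw [e2]
        ring
      simp only [e1]
      have e3 : ∀ y : Fin n → ℝ, ∫ s in Icc 0 (2 * Real.pi),
          (μ * ∏ i : Fin n, h (k.succAbove i).succ (y i)) * h 0 (-(∑ i, y i) - s) =
          (μ * ∫ s in Icc 0 (2 * Real.pi), h 0 s) * ∏ i : Fin n, h (k.succAbove i).succ (y i) := by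
        intro y
        rw [integral_const_mul, shift_mean (hp 0)]
        ring
      simp only [e3]
      rw [integral_const_mul, box_prod (fun i => h (k.succAbove i).succ), Fin.prod_univ_succ,
        Fin.succ_succAbove_zero]
      simp only [Fin.succ_succAbove_succ]
      ring

lemma continuous_TI {n : ℕ} {h : Fin (n + 1) → ℝ → ℂ} (hc : ∀ m, Continuous (h m)) :
    Continuous fun y : Fin n → ℝ => h 0 (-∑ k, y k) * ∏ k : Fin n, h k.succ (y k) :=
  ((hc 0).comp (continuous_finsetSum _ fun i _ => continuous_apply i).neg).mul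
    (continuous_finsetProd _ fun i _ => (hc _).comp (continuous_apply i))

/-- mean value decomposition of torus integrals -/
theorem TI_add {n : ℕ} {g : Fin (n + 1) → ℝ → ℂ} (hc : ∀ m, Continuous (g m))
    (hp : ∀ m, Function.Periodic (g m) (2 * Real.pi)) (μ : Fin (n + 1) → ℂ)
    (h0 : ∀ m, ∫ x in Icc 0 (2 * Real.pi), g m x = 0) :
    TI (fun m x => μ m + g m x) = (2 * Real.pi) ^ n * ∏ m, μ m + TI g := by
  classical
  -- the mixed functions
  set H : Finset (Fin (n + 1)) → Fin (n + 1) → ℝ → ℂ := fun s m x =>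
    if m ∈ s then μ m else g m x with hH
  have hHc : ∀ s m, Continuous (H s m) := by
    intro s m
    by_cases hm : m ∈ s
    · simp only [hH, if_pos hm]
      exact continuous_const
    · simp only [hH, if_neg hm]
      exact hc m
  have hHp : ∀ s m, Function.Periodic (H s m) (2 * Real.pi) := by
    intro s m x
    by_cases hm : m ∈ s
    · simp only [hH, if_pos hm]
    · simp only [hH, if_neg hm]
      exact hp m x
  have hexp : TI (fun m x => μ m + g m x) = ∑ s : Finset (Fin (n + 1)), TI (H s) := by
    have e1 : ∀ y : Fin n → ℝ, (μ 0 + g 0 (-∑ k, y k)) * ∏ k : Fin n, (μ k.succ + g k.succ (y k)) =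
        ∑ s : Finset (Fin (n + 1)), H s 0 (-∑ k, y k) * ∏ k : Fin n, H s k.succ (y k) := by
      intro y
      have e2 : ∀ F : Fin (n + 1) → ℝ → ℂ, F 0 (-∑ k, y k) * ∏ k : Fin n, F k.succ (y k) =
          ∏ m : Fin (n + 1), F m ((Fin.cons (-∑ k, y k) y : Fin (n + 1) → ℝ) m) := by
        intro F
        rw [Fin.prod_univ_succ]
        simp
      rw [e2 (fun m x => μ m + g m x), Finset.prod_add]
      simp only [e2, Finset.powerset_univ]
      refine Finset.sum_congr rfl fun s _ => ?_
      rw [← Finset.prod_mul_prod_compl s]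
      congr 1
      · refine Finset.prod_congr rfl fun m hm => ?_
        simp only [hH, if_pos hm]
      · rw [Finset.compl_eq_univ_sdiff]
        refine Finset.prod_congr rfl fun m hm => ?_
        have : m ∉ s := (Finset.mem_sdiff.1 hm).2
        simp only [hH, if_neg this]
    unfold TI
    simp only [e1]
    rw [integral_finsetSum]
    intro s _
    exact (continuous_TI (hHc s)).continuousOn.integrableOn_compact isCompact_Icc
  have hempty : TI (H ∅) = TI g := by
    congr 1
  have huniv : TI (H Finset.univ) = (2 * Real.pi) ^ n * ∏ m, μ m := by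
    rw [TI_const (hHc _) (hHp _) 0 (μ := μ 0) (fun x => by simp [hH])]
    simp only [hH, Finset.mem_univ, if_true, Fin.succAbove_zero]
    rw [Fin.prod_univ_succ]
    have e1 : ∀ m : Fin n, ∫ _x in Icc (0 : ℝ) (2 * Real.pi), μ m.succ =
        (2 * Real.pi : ℂ) * μ m.succ := by
      intro m
      rw [setIntegral_const, Real.volume_real_Icc_of_le (by positivity), sub_zero]
      simp
    simp only [e1]
    rw [Finset.prod_mul_distrib, Finset.prod_const, Finset.card_univ, Fintype.card_fin]
    ring
  have hmid : ∀ s : Finset (Fin (n + 1)), s ≠ ∅ → s ≠ Finset.univ → TI (H s) = 0 := by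
    intro s hs1 hs2
    obtain ⟨j, hj⟩ := Finset.nonempty_iff_ne_empty.2 hs1
    obtain ⟨l, hl⟩ : ∃ l, l ∉ s := by
      by_contra hcon
      push Not at hcon
      exact hs2 (Finset.eq_univ_iff_forall.2 hcon)
    have hlj : l ≠ j := fun h => hl (h ▸ hj)
    obtain ⟨m, hm⟩ := Fin.exists_succAbove_eq hlj
    rw [TI_const (hHc s) (hHp s) j (μ := μ j) (fun x => by simp [hH, hj])]
    have : ∏ m : Fin n, ∫ x in Icc 0 (2 * Real.pi), H s (j.succAbove m) x = 0 := by
      refine Finset.prod_eq_zero (Finset.mem_univ m) ?_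
      rw [hm]
      simp only [hH, if_neg hl]
      exact h0 l
    rw [this, mul_zero]
  rw [hexp]
  have hne : (∅ : Finset (Fin (n + 1))) ≠ Finset.univ := by
    intro h
    exact absurd (Finset.mem_univ (0 : Fin (n + 1))) (h ▸ Finset.notMem_empty _)
  rw [← Finset.sum_subset (Finset.subset_univ ({∅, Finset.univ} : Finset (Finset (Fin (n + 1)))))
    (fun s _ hs => by
      rw [Finset.mem_insert, Finset.mem_singleton, not_or] at hs
      exact hmid s hs.1 hs.2), Finset.sum_pair hne, hempty, huniv]
  ring

end mean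

end Pool.Agent.Helper11
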