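import Mathlib
import Pool.Agent.Helper11.KDefs

/-! Stokes' theorem for determinants whose rows are closed 1-forms. -/

namespace Pool.Agent.Helper11

open MeasureTheory Set Topology

variable {n : ℕ}

/-- The row of partial derivatives of `F`. -/
noncomputable def grad (F : (Fin n → ℝ) → ℂ) (x : Fin n → ℝ) : Fin n → ℂ :=
  fun p => fderiv ℝ F x (Pi.single p 1)

/-- `W` is locally the gradient of a `C²` function. -/
def LocGrad (W : (Fin n → ℝ) → (Fin n → ℂ)) : Prop :=
  ∀ x, ∃ G : (Fin n → ℝ) → ℂ, ContDiffAt ℝ 2 G x ∧ W =ᶠ[𝓝 x] grad G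

lemma contDiffAt_grad {G : (Fin n → ℝ) → ℂ} {x : Fin n → ℝ} (hG : ContDiffAt ℝ 2 G x) :
    ContDiffAt ℝ 1 (grad G) x := by
  have h : ContDiffAt ℝ 1 (fderiv ℝ G) x := hG.fderiv_right (m := 1) (by norm_num)
  refine contDiffAt_pi.2 fun p => ?_
  exact h.clm_apply contDiffAt_const

lemma LocGrad.contDiff {W : (Fin n → ℝ) → (Fin n → ℂ)} (hW : LocGrad W) : ContDiff ℝ 1 W := by
  rw [contDiff_iff_contDiffAt]
  intro x
  obtain ⟨G, hG, h⟩ := hW x
  exact (contDiffAt_grad hG).congr_of_eventuallyEq h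

lemma LocGrad.symm {W : (Fin n → ℝ) → (Fin n → ℂ)} (hW : LocGrad W) (x : Fin n → ℝ)
    (p q : Fin n) :
    (fderiv ℝ W x (Pi.single p 1)) q = (fderiv ℝ W x (Pi.single q 1)) p := by
  obtain ⟨G, hG, h⟩ := hW x
  rw [h.fderiv_eq]
  have h1 : ContDiffAt ℝ 1 (fderiv ℝ G) x := hG.fderiv_right (m := 1) (by norm_num)
  have hd : DifferentiableAt ℝ (fderiv ℝ G) x := h1.differentiableAt (by norm_num)
  have key : ∀ p q : Fin n, (fderiv ℝ (grad G) x (Pi.single p 1)) q =
      fderiv ℝ (fderiv ℝ G) x (Pi.single p 1) (Pi.single q 1) := by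
    intro p q
    have h2 : HasFDerivAt (grad G)
        (ContinuousLinearMap.pi fun q : Fin n =>
          (ContinuousLinearMap.apply ℝ ℂ (Pi.single q (1 : ℝ) : Fin n → ℝ)).comp
            (fderiv ℝ (fderiv ℝ G) x)) x := by
      refine hasFDerivAt_pi.2 fun q => ?_
      exact (ContinuousLinearMap.apply ℝ ℂ (Pi.single q (1 : ℝ) : Fin n → ℝ)).hasFDerivAt.comp x
        hd.hasFDerivAt
    rw [h2.fderiv]
    rfl
  rw [key, key]
  exact hG.isSymmSndFDerivAt (by simp) _ _

/-- the determinant as a continuous multilinear function of its rows -/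
noncomputable def detC (n : ℕ) : ContinuousMultilinearMap ℝ (fun _ : Fin n => (Fin n → ℂ)) ℂ :=
  (ContinuousMultilinearMap.mk (Matrix.detRowAlternating (R := ℂ) (n := Fin n)).toMultilinearMap
    (by
      change Continuous fun M : Matrix (Fin n) (Fin n) ℂ => M.det
      exact Continuous.matrix_det continuous_id)).restrictScalars ℝ

lemma detC_apply (M : Fin n → Fin n → ℂ) : detC n M = Matrix.det (Matrix.of M) := rfl

/-- the determinant with first row `v` and other rows `W` -/
noncomputable def dcons (v : Fin (n + 1) → ℂ) (W : Fin n → (Fin (n + 1) → ℂ)) : ℂ :=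
  Matrix.detRowAlternating (R := ℂ) (n := Fin (n + 1)) (Fin.cons v W)

lemma dcons_eq_detC (v : Fin (n + 1) → ℂ) (W : Fin n → (Fin (n + 1) → ℂ)) :
    dcons v W = detC (n + 1) (Fin.cons v W) := rfl

lemma dcons_expand (v : Fin (n + 1) → ℂ) (W : Fin n → (Fin (n + 1) → ℂ)) :
    dcons v W = ∑ p, v p * dcons (Pi.single p 1) W := by
  let L : (Fin (n + 1) → ℂ) →ₗ[ℂ] ℂ :=
    (Matrix.detRowAlternating (R := ℂ) (n := Fin (n + 1))).toMultilinearMap.toLinearMap
      (Fin.cons 0 W) 0
  have hL : ∀ v, L v = dcons v W := by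
    intro v
    simp only [L, MultilinearMap.toLinearMap_apply, dcons, Fin.update_cons_zero]
    rfl
  rw [← hL, L.pi_apply_eq_sum_univ]
  refine Finset.sum_congr rfl fun p _ => ?_
  rw [hL, smul_eq_mul]
  congr 3
  ext q
  simp [Pi.single_apply, eq_comm]

/-- directional derivative of the determinant with constant first row -/
lemma hasFDerivAt_dcons (p : Fin (n + 1)) {W : Fin n → (Fin (n + 1) → ℝ) → (Fin (n + 1) → ℂ)}
    (hW : ∀ j, ContDiff ℝ 1 (W j)) (x : Fin (n + 1) → ℝ) :
    ∃ D : (Fin (n + 1) → ℝ) →L[ℝ] ℂ,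
      HasFDerivAt (fun y => dcons (Pi.single p 1) (fun j => W j y)) D x ∧
      ∀ v, D v = ∑ j, detC (n + 1) (Function.update
        (Fin.cons (Pi.single p 1) (fun j => W j x) : Fin (n + 1) → (Fin (n + 1) → ℂ)) j.succ
          (fderiv ℝ (W j) x v)) := by
  have h1 : HasFDerivAt (fun y => (Fin.cons (Pi.single p 1) (fun j => W j y) :
      Fin (n + 1) → (Fin (n + 1) → ℂ)))
      (ContinuousLinearMap.pi (Fin.cons 0 (fun j => fderiv ℝ (W j) x))) x := by
    refine hasFDerivAt_pi.2 fun i => ?_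
    refine Fin.cases ?_ (fun j => ?_) i
    · simp only [Fin.cons_zero]
      exact hasFDerivAt_const _ _
    · simp only [Fin.cons_succ]
      exact ((hW j).differentiable (by norm_num) x).hasFDerivAt
  have h2 := ((detC (n + 1)).hasFDerivAt
    (Fin.cons (Pi.single p 1) (fun j => W j x) : Fin (n + 1) → (Fin (n + 1) → ℂ))).comp x h1
  refine ⟨_, h2, fun v => ?_⟩
  rw [ContinuousLinearMap.comp_apply, ContinuousMultilinearMap.linearDeriv_apply,
    Fin.sum_univ_succ]
  have h3 : detC (n + 1) (Function.update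
      (Fin.cons (Pi.single p 1) (fun j => W j x) : Fin (n + 1) → (Fin (n + 1) → ℂ)) 0
      ((ContinuousLinearMap.pi (Fin.cons 0 (fun j => fderiv ℝ (W j) x)) :
        (Fin (n + 1) → ℝ) →L[ℝ] (Fin (n + 1) → (Fin (n + 1) → ℂ))) v 0)) = 0 := by
    refine (detC (n + 1)).map_coord_zero 0 ?_
    simp
  rw [h3, zero_add]
  rfl

/-- Piola's identity -/
lemma piola {W : Fin n → (Fin (n + 1) → ℝ) → (Fin (n + 1) → ℂ)} (hW : ∀ j, LocGrad (W j))
    (x : Fin (n + 1) → ℝ) (D : Fin (n + 1) → ((Fin (n + 1) → ℝ) →L[ℝ] ℂ))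
    (hD : ∀ p v, D p v = ∑ j, detC (n + 1) (Function.update
        (Fin.cons (Pi.single p 1) (fun j => W j x) : Fin (n + 1) → (Fin (n + 1) → ℂ)) j.succ
          (fderiv ℝ (W j) x v))) :
    ∑ p, D p (Pi.single p 1) = 0 := by
  simp only [hD]
  rw [Finset.sum_comm]
  refine Finset.sum_eq_zero fun j _ => ?_
  set T : Fin (n + 1) → Fin (n + 1) → ℂ := fun p q => detC (n + 1) (Function.update
        (Fin.cons (Pi.single p 1) (fun j => W j x) : Fin (n + 1) → (Fin (n + 1) → ℂ)) j.succ
          (Pi.single q 1)) with hT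
  set S : Fin (n + 1) → Fin (n + 1) → ℂ := fun p q =>
    (fderiv ℝ (W j) x (Pi.single p 1)) q with hS
  have hSs : ∀ p q, S p q = S q p := fun p q => (hW j).symm x p q
  have hexp : ∀ p, detC (n + 1) (Function.update
        (Fin.cons (Pi.single p 1) (fun j => W j x) : Fin (n + 1) → (Fin (n + 1) → ℂ)) j.succ
          (fderiv ℝ (W j) x (Pi.single p 1))) = ∑ q, S p q * T p q := by
    intro p
    let L : (Fin (n + 1) → ℂ) →ₗ[ℂ] ℂ :=
      (Matrix.detRowAlternating (R := ℂ) (n := Fin (n + 1))).toMultilinearMap.toLinearMap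
        (Fin.cons (Pi.single p 1) (fun j => W j x) : Fin (n + 1) → (Fin (n + 1) → ℂ)) j.succ
    have hL : ∀ v, L v = detC (n + 1) (Function.update
        (Fin.cons (Pi.single p 1) (fun j => W j x) : Fin (n + 1) → (Fin (n + 1) → ℂ)) j.succ v) :=
      fun v => rfl
    rw [← hL, L.pi_apply_eq_sum_univ]
    refine Finset.sum_congr rfl fun q _ => ?_
    rw [hL, smul_eq_mul, hT, hS]
    congr 4
    ext r
    simp [Pi.single_apply, eq_comm]
  have hTa : ∀ p q, T p q = - T q p := by
    intro p q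
    have h1 := (Matrix.detRowAlternating (R := ℂ) (n := Fin (n + 1))).map_swap
      (Function.update (Fin.cons (Pi.single q 1) (fun j => W j x) :
        Fin (n + 1) → (Fin (n + 1) → ℂ)) j.succ (Pi.single p 1)) (Fin.succ_ne_zero j).symm
    have h2 : (Function.update (Fin.cons (Pi.single q 1) (fun j => W j x) :
        Fin (n + 1) → (Fin (n + 1) → ℂ)) j.succ (Pi.single p 1)) ∘ Equiv.swap 0 j.succ =
        Function.update (Fin.cons (Pi.single p 1) (fun j => W j x) :
        Fin (n + 1) → (Fin (n + 1) → ℂ)) j.succ (Pi.single q 1) := by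
      funext i
      by_cases hi0 : i = 0
      · subst hi0
        simp [(Fin.succ_ne_zero j).symm]
      by_cases hij : i = j.succ
      · subst hij
        simp [(Fin.succ_ne_zero j).symm]
      · obtain ⟨k, rfl⟩ := Fin.exists_succ_eq.2 hi0
        have hkj : k ≠ j := fun h => hij (by rw [h])
        simp [Equiv.swap_apply_of_ne_of_ne hi0 hij, hkj]
    rw [h2] at h1
    exact h1
  simp only [hexp]
  have h5 : ∑ p, ∑ q, S p q * T p q = - ∑ p, ∑ q, S p q * T p q := by
    conv_lhs => rw [Finset.sum_comm]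
    rw [← Finset.sum_neg_distrib]
    refine Finset.sum_congr rfl fun p _ => ?_
    rw [← Finset.sum_neg_distrib]
    refine Finset.sum_congr rfl fun q _ => ?_
    rw [hSs q p, hTa q p]
    ring
  exact self_eq_neg.1 h5

lemma zero_le_topB (n : ℕ) : (0 : Fin (n + 1) → ℝ) ≤ topB n := by
  intro i
  refine Fin.cases ?_ (fun j => ?_) i
  · simp [topB]
  · simp only [topB, Fin.cons_succ, Pi.zero_apply]
    positivity

lemma contDiff_dcons (v : Fin (n + 1) → ℂ) {W : Fin n → (Fin (n + 1) → ℝ) → (Fin (n + 1) → ℂ)}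
    (hW : ∀ j, ContDiff ℝ 1 (W j)) : ContDiff ℝ 1 (fun y => dcons v (fun j => W j y)) := by
  have h1 : ContDiff ℝ 1 (fun y => (Fin.cons v (fun j => W j y) :
      Fin (n + 1) → (Fin (n + 1) → ℂ))) := by
    refine contDiff_pi.2 fun i => ?_
    refine Fin.cases ?_ (fun j => ?_) i
    · simp only [Fin.cons_zero]
      exact contDiff_const
    · simp only [Fin.cons_succ]
      exact hW j
  exact (detC (n + 1)).contDiff.comp h1

lemma continuous_dcons {v : (Fin (n + 1) → ℝ) → (Fin (n + 1) → ℂ)}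
    {W : Fin n → (Fin (n + 1) → ℝ) → (Fin (n + 1) → ℂ)}
    (hv : Continuous v) (hW : ∀ j, Continuous (W j)) :
    Continuous (fun y => dcons (v y) (fun j => W j y)) := by
  have h1 : Continuous (fun y => (Fin.cons (v y) (fun j => W j y) :
      Fin (n + 1) → (Fin (n + 1) → ℂ))) := by
    refine continuous_pi fun i => ?_
    refine Fin.cases ?_ (fun j => ?_) i
    · simp only [Fin.cons_zero]
      exact hv
    · simp only [Fin.cons_succ]
      exact hW j
  exact (detC (n + 1)).cont.comp h1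

/-- Stokes' theorem on `[0,1] × (ℝ/2π)ⁿ` for `dF ∧ W₁ ∧ ... ∧ Wₙ` with closed `Wⱼ`. -/
theorem stokes {F : (Fin (n + 1) → ℝ) → ℂ} (hF : ContDiff ℝ 1 F)
    {W : Fin n → (Fin (n + 1) → ℝ) → (Fin (n + 1) → ℂ)} (hW : ∀ j, LocGrad (W j))
    (hFp : ∀ (m : Fin n) x, F (x + Pi.single m.succ (2 * Real.pi)) = F x)
    (hWp : ∀ j (m : Fin n) x, W j (x + Pi.single m.succ (2 * Real.pi)) = W j x) :
    ∫ x in Icc 0 (topB n), dcons (grad F x) (fun j => W j x) =
      (∫ y in Icc (0 : Fin n → ℝ) (fun _ => 2 * Real.pi),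
        F (Fin.cons 1 y) * dcons (Pi.single 0 1) (fun j => W j (Fin.cons 1 y))) -
      ∫ y in Icc (0 : Fin n → ℝ) (fun _ => 2 * Real.pi),
        F (Fin.cons 0 y) * dcons (Pi.single 0 1) (fun j => W j (Fin.cons 0 y)) := by
  have hWc : ∀ j, ContDiff ℝ 1 (W j) := fun j => (hW j).contDiff
  set V : Fin (n + 1) → (Fin (n + 1) → ℝ) → ℂ := fun p x =>
    F x * dcons (Pi.single p 1) (fun j => W j x) with hV
  have hVc : ∀ p, ContDiff ℝ 1 (V p) := fun p => hF.mul (contDiff_dcons _ hWc)
  choose D hD1 hD2 using fun (x : Fin (n + 1) → ℝ) (p : Fin (n + 1)) => hasFDerivAt_dcons p hWc x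
  have hVd : ∀ x p, fderiv ℝ (V p) x (Pi.single p 1) =
      grad F x p * dcons (Pi.single p 1) (fun j => W j x) + F x * D x p (Pi.single p 1) := by
    intro x p
    have h1 := ((hF.differentiable (by norm_num) x).hasFDerivAt.mul (hD1 x p)).fderiv
    change fderiv ℝ (F * fun y => dcons (Pi.single p 1) (fun j => W j y)) x _ = _
    rw [h1]
    simp only [_root_.add_apply, _root_.smul_apply, smul_eq_mul, grad]
    ring
  have hdiv : ∀ x, ∑ p, fderiv ℝ (V p) x (Pi.single p 1) =
      dcons (grad F x) (fun j => W j x) := by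
    intro x
    simp only [hVd]
    rw [Finset.sum_add_distrib, ← dcons_expand, ← Finset.mul_sum,
      piola hW x (D x) (hD2 x), mul_zero, add_zero]
  have hcd : Continuous fun x => ∑ p, fderiv ℝ (V p) x (Pi.single p 1) := by
    refine continuous_finsetSum _ fun p _ => ?_
    exact ((hVc p).continuous_fderiv (by norm_num)).clm_apply continuous_const
  have key := integral_divergence_of_hasFDerivAt_off_countable' 0 (topB n) (zero_le_topB n) V
    (fun p x => fderiv ℝ (V p) x) ∅ Set.countable_empty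
    (fun p => (hVc p).continuous.continuousOn)
    (fun x _ p => ((hVc p).differentiable (by norm_num) x).hasFDerivAt)
    (hcd.continuousOn.integrableOn_compact isCompact_Icc)
  simp only [hdiv] at key
  rw [key, Fin.sum_univ_succ]
  have hzero : ∀ m : Fin n, (∫ y in Icc ((0 : Fin (n + 1) → ℝ) ∘ m.succ.succAbove)
        (topB n ∘ m.succ.succAbove), V m.succ (Fin.insertNth m.succ (topB n m.succ) y)) -
      ∫ y in Icc ((0 : Fin (n + 1) → ℝ) ∘ m.succ.succAbove)
        (topB n ∘ m.succ.succAbove), V m.succ (Fin.insertNth m.succ ((0 : Fin (n + 1) → ℝ) m.succ) y)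
        = 0 := by
    intro m
    rw [sub_eq_zero]
    congr 1
    funext y
    have hy : (Fin.insertNth m.succ (topB n m.succ) y : Fin (n + 1) → ℝ) =
        Fin.insertNth m.succ ((0 : Fin (n + 1) → ℝ) m.succ) y + Pi.single m.succ (2 * Real.pi) := by
      refine (Fin.insertNth_eq_iff (α := fun _ => ℝ)).2 ⟨?_, ?_⟩
      · simp [topB]
      · funext k
        simp [Fin.removeNth]
    rw [hy]
    simp only [hV, hFp, hWp]
  rw [Finset.sum_eq_zero (fun m _ => hzero m), add_zero]
  have e1 : (0 : Fin (n + 1) → ℝ) ∘ (0 : Fin (n + 1)).succAbove = 0 := rfl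
  have e2 : topB n ∘ (0 : Fin (n + 1)).succAbove = fun _ => 2 * Real.pi := by
    funext k
    simp [topB]
  rw [e1, e2]
  simp only [Fin.insertNth_zero', topB, Fin.cons_zero, Pi.zero_apply, hV]

end Pool.Agent.Helper11
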