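import Mathlib
import Pool.Agent.Helper11.BW
import Pool.Agent.Helper11.Stokes

/-! The Bloch-Wigner function is continuously differentiable. -/

namespace Pool.Agent.Helper11

open Complex Topology

/-- the regulator form as a linear form -/
noncomputable def etaL (z : ℂ) : ℂ →L[ℝ] ℝ :=
  Real.log ‖z‖ • Complex.imCLM.comp (ContinuousLinearMap.mul ℝ ℂ (-(1 - z)⁻¹)) -
    Real.log ‖1 - z‖ • Complex.imCLM.comp (ContinuousLinearMap.mul ℝ ℂ z⁻¹)

lemma etaL_apply (z v : ℂ) : etaL z v = eta z v := by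
  have e1 : -(1 - z)⁻¹ * v = -v / (1 - z) := by
    rw [div_eq_mul_inv]
    ring
  have e2 : z⁻¹ * v = v / z := by
    rw [div_eq_mul_inv]
    ring
  unfold eta
  rw [← e1, ← e2]
  rfl

lemma continuousAt_etaL {z : ℂ} (h0 : z ≠ 0) (h1 : z ≠ 1) : ContinuousAt etaL z := by
  have h1' : (1 : ℂ) - z ≠ 0 := sub_ne_zero.2 (Ne.symm h1)
  have c1 : ContinuousAt (fun z : ℂ => Real.log ‖z‖) z :=
    (Real.continuousAt_log (norm_ne_zero_iff.2 h0)).comp (f := fun z : ℂ => ‖z‖)
      continuous_norm.continuousAt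
  have c2 : ContinuousAt (fun z : ℂ => Real.log ‖1 - z‖) z :=
    (Real.continuousAt_log (norm_ne_zero_iff.2 h1')).comp (f := fun z : ℂ => ‖1 - z‖)
      (continuous_norm.comp (continuous_const.sub continuous_id)).continuousAt
  have c3 : ContinuousAt (fun z : ℂ => Complex.imCLM.comp
      (ContinuousLinearMap.mul ℝ ℂ (-(1 - z)⁻¹))) z := by
    have : ContinuousAt (fun z : ℂ => -(1 - z)⁻¹) z :=
      ((continuousAt_const.sub continuousAt_id).inv₀ h1').neg
    exact continuousAt_const.clm_comp ((ContinuousLinearMap.mul ℝ ℂ).continuous.continuousAt.comp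
      (f := fun z : ℂ => -(1 - z)⁻¹) this)
  have c4 : ContinuousAt (fun z : ℂ => Complex.imCLM.comp
      (ContinuousLinearMap.mul ℝ ℂ z⁻¹)) z := by
    have : ContinuousAt (fun z : ℂ => z⁻¹) z := continuousAt_id.inv₀ h0
    exact continuousAt_const.clm_comp ((ContinuousLinearMap.mul ℝ ℂ).continuous.continuousAt.comp
      (f := fun z : ℂ => z⁻¹) this)
  exact (c1.smul c3).sub (c2.smul c4)

/-- The Bloch-Wigner function, with its differential. -/
theorem exists_blochWigner_fderiv : ∃ D : ℂ → ℝ, ∀ z : ℂ, z ≠ 0 → z ≠ 1 →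
    HasFDerivAt D (etaL z) z := by
  obtain ⟨D, hD⟩ := exists_blochWigner
  refine ⟨D, fun z h0 h1 => ?_⟩
  refine HasFDerivAt.of_isLittleO ?_
  rw [Asymptotics.isLittleO_iff]
  intro ε hε
  have hc := continuousAt_etaL h0 h1
  have hev : ∀ᶠ w in 𝓝 z, ‖etaL w - etaL z‖ < ε ∧ w ≠ 0 ∧ w ≠ 1 := by
    have h2 : ∀ᶠ w in 𝓝 z, dist (etaL w) (etaL z) < ε := hc.eventually (Metric.ball_mem_nhds _ hε)
    filter_upwards [h2, eventually_ne_nhds h0, eventually_ne_nhds h1] with w hw1 hw2 hw3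
    exact ⟨by rwa [← dist_eq_norm], hw2, hw3⟩
  obtain ⟨δ, hδ, hball⟩ := Metric.eventually_nhds_iff_ball.1 hev
  refine Metric.eventually_nhds_iff_ball.2 ⟨δ, hδ, fun w hw => ?_⟩
  set p : ℝ → ℂ := fun s => z + (s : ℂ) * (w - z) with hp
  have hpd : ∀ s, HasDerivAt p (w - z) s := by
    intro s
    have h1 : HasDerivAt (fun s : ℝ => (s : ℂ)) 1 s := Complex.ofRealCLM.hasDerivAt
    have h2 : HasDerivAt p (1 * (w - z)) s := (h1.mul_const (w - z)).const_add z
    rwa [one_mul] at h2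
  have hpb : ∀ s ∈ Set.Icc (0 : ℝ) 1, p s ∈ Metric.ball z δ := by
    intro s hs
    rw [Metric.mem_ball, dist_eq_norm, hp]
    simp only [add_sub_cancel_left, norm_mul, Complex.norm_real, Real.norm_eq_abs]
    rw [abs_of_nonneg hs.1]
    rw [Metric.mem_ball, dist_eq_norm] at hw
    calc s * ‖w - z‖ ≤ 1 * ‖w - z‖ := mul_le_mul_of_nonneg_right hs.2 (norm_nonneg _)
      _ < δ := by rwa [one_mul]
  have hder : ∀ s ∈ Set.Icc (0 : ℝ) 1, HasDerivWithinAt
      (fun s => D (p s) - s * etaL z (w - z)) (eta (p s) (w - z) - etaL z (w - z))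
      (Set.Icc 0 1) s := by
    intro s hs
    have h3 := hball _ (hpb s hs)
    have h4 := hD p _ s (hpd s) h3.2.1 h3.2.2
    have h5 : HasDerivAt (fun s : ℝ => s * etaL z (w - z)) (etaL z (w - z)) s := by
      simpa using (hasDerivAt_id s).mul_const (etaL z (w - z))
    exact (h4.sub h5).hasDerivWithinAt
  have hbd : ∀ s ∈ Set.Ico (0 : ℝ) 1, ‖eta (p s) (w - z) - etaL z (w - z)‖ ≤ ε * ‖w - z‖ := by
    intro s hs
    have h3 := hball _ (hpb s ⟨hs.1, hs.2.le⟩)
    rw [← etaL_apply, ← _root_.sub_apply]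
    exact ((etaL (p s) - etaL z).le_opNorm _).trans
      (mul_le_mul_of_nonneg_right h3.1.le (norm_nonneg _))
  have key := norm_image_sub_le_of_norm_deriv_le_segment_01' hder hbd
  have e1 : p 1 = w := by simp [hp]
  have e0 : p 0 = z := by simp [hp]
  simp only [e1, e0, one_mul, zero_mul, sub_zero] at key
  have e2 : D w - etaL z (w - z) - D z = D w - D z - etaL z (w - z) := by ring
  rw [e2] at key
  exact key

end Pool.Agent.Helper11
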