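import Mathlib
import Pool.Agent.Helper11.BWF

/-! The regulator over a torus is well defined on Milnor K-theory. -/

namespace Pool.Agent.Helper11

open MeasureTheory Set Topology

variable {n : ℕ}

/-- a torus unit: nowhere vanishing, `C²`, periodic -/
structure TU (u : (Fin n → ℝ) → ℂ) : Prop where
  smooth : ContDiff ℝ 2 u
  per : ∀ (m : Fin n) (θ : Fin n → ℝ), u (θ + Pi.single m (2 * Real.pi)) = u θ
  ne : ∀ θ, u θ ≠ 0

lemma TU.of_unit (u : (TorusRing n)ˣ) : TU ((u : TorusRing n) : (Fin n → ℝ) → ℂ) where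
  smooth := (u : TorusRing n).2.1
  per := (u : TorusRing n).2.2
  ne := by
    intro θ h
    have h1 : ((u * u⁻¹ : (TorusRing n)ˣ) : TorusRing n) = 1 := by simp
    have h2 : ((u : TorusRing n) : (Fin n → ℝ) → ℂ) θ *
        (((u⁻¹ : (TorusRing n)ˣ) : TorusRing n) : (Fin n → ℝ) → ℂ) θ = 1 :=
      congrFun (congrArg Subtype.val h1) θ
    rw [h, zero_mul] at h2
    exact zero_ne_one h2

lemma contDiff_logNorm {u : (Fin n → ℝ) → ℂ} (hu : TU u) :
    ContDiff ℝ 2 (fun θ => Real.log ‖u θ‖) :=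
  (hu.smooth.norm ℝ hu.ne).log fun θ => norm_ne_zero_iff.2 (hu.ne θ)

lemma hasDerivAt_line {E F : Type*} [NormedAddCommGroup E] [NormedSpace ℝ E]
    [NormedAddCommGroup F] [NormedSpace ℝ F] {G : E → F} {x : E}
    (hG : DifferentiableAt ℝ G x) (v : E) :
    HasDerivAt (fun s : ℝ => G (x + s • v)) (fderiv ℝ G x v) 0 := by
  have h1 : HasDerivAt (fun s : ℝ => x + s • v) v 0 := by
    simpa using ((hasDerivAt_id (0 : ℝ)).smul_const v).const_add x
  have h2 : HasFDerivAt G (fderiv ℝ G x) (x + (0 : ℝ) • v) := by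
    simpa using hG.hasFDerivAt
  exact h2.comp_hasDerivAt 0 h1

lemma fderiv_logNorm {u : (Fin n → ℝ) → ℂ} (hu : TU u) (θ v : Fin n → ℝ) :
    fderiv ℝ (fun θ => Real.log ‖u θ‖) θ v = (fderiv ℝ u θ v / u θ).re := by
  have h1 := hasDerivAt_line ((contDiff_logNorm hu).differentiable (by norm_num) θ) v
  have h2 := hasDerivAt_line (hu.smooth.differentiable (by norm_num) θ) v
  have h3 := hasDerivAt_log_norm h2 (by simpa using hu.ne θ)
  have := h1.unique h3
  simpa using this

lemma continuous_tail : Continuous (Fin.tail : (Fin (n + 1) → ℝ) → (Fin n → ℝ)) :=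
  continuous_pi fun i => continuous_apply i.succ

lemma contDiff_tail {k : WithTop ℕ∞} : ContDiff ℝ k (Fin.tail : (Fin (n + 1) → ℝ) → (Fin n → ℝ)) :=
  contDiff_pi.2 fun i => contDiff_apply ℝ ℝ i.succ

lemma continuous_regRow {u : (Fin n → ℝ) → ℂ} (hu : TU u) : Continuous (regRow u) := by
  refine continuous_pi fun i => ?_
  refine Fin.cases ?_ (fun m => ?_) i
  · simp only [regRow, Fin.cons_zero]
    exact Complex.continuous_ofReal.comp ((contDiff_logNorm hu).continuous.comp continuous_tail)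
  · simp only [regRow, Fin.cons_succ]
    have h1 : Continuous fun x : Fin (n + 1) → ℝ =>
        fderiv ℝ u (Fin.tail x) (Pi.single m 1) / u (Fin.tail x) :=
      (((hu.smooth.continuous_fderiv (by norm_num)).comp continuous_tail).clm_apply
        continuous_const).div (hu.smooth.continuous.comp continuous_tail) fun x => hu.ne _
    have h2 := (continuous_apply (0 : Fin (n + 1))).mul (Complex.continuous_re.comp h1)
    have h3 := Complex.continuous_im.comp h1
    have h4 : Continuous fun x : Fin (n + 1) → ℝ =>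
        (((x 0 * (fderiv ℝ u (Fin.tail x) (Pi.single m 1) / u (Fin.tail x)).re : ℝ) : ℂ) +
        ((fderiv ℝ u (Fin.tail x) (Pi.single m 1) / u (Fin.tail x)).im : ℝ) * Complex.I) :=
      (Complex.continuous_ofReal.comp h2).add
        ((Complex.continuous_ofReal.comp h3).mul continuous_const)
    refine h4.congr fun x => ?_
    rw [← Complex.mk_eq_add_mul_I]

lemma TU.mul {u v : (Fin n → ℝ) → ℂ} (hu : TU u) (hv : TU v) : TU (u * v) where
  smooth := hu.smooth.mul hv.smooth
  per := fun m θ => congrArg₂ (· * ·) (hu.per m θ) (hv.per m θ)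
  ne := fun θ => mul_ne_zero (hu.ne θ) (hv.ne θ)

lemma regRow_mul {u v : (Fin n → ℝ) → ℂ} (hu : TU u) (hv : TU v) (x : Fin (n + 1) → ℝ) :
    regRow (u * v) x = regRow u x + regRow v x := by
  set θ := Fin.tail x with hθ
  have h1 := ((hu.smooth.differentiable (by norm_num) θ).hasFDerivAt.mul
    (hv.smooth.differentiable (by norm_num) θ).hasFDerivAt).fderiv
  have h2 : ∀ m : Fin n, fderiv ℝ (u * v) θ (Pi.single m 1) / (u * v) θ =
      fderiv ℝ u θ (Pi.single m 1) / u θ + fderiv ℝ v θ (Pi.single m 1) / v θ := by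
    intro m
    rw [h1]
    simp only [_root_.add_apply, _root_.smul_apply, smul_eq_mul, Pi.mul_apply]
    field_simp [hu.ne θ, hv.ne θ]
    ring
  funext i
  refine Fin.cases ?_ (fun m => ?_) i
  · simp only [regRow, Pi.add_apply, Fin.cons_zero, ← hθ, Pi.mul_apply, norm_mul]
    rw [Real.log_mul (norm_ne_zero_iff.2 (hu.ne θ)) (norm_ne_zero_iff.2 (hv.ne θ))]
    push_cast
    rfl
  · simp only [regRow, Pi.add_apply, Fin.cons_succ, ← hθ]
    apply Complex.ext
    · rw [Complex.add_re, h2 m, Complex.add_re, mul_add]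
    · rw [Complex.add_im, h2 m, Complex.add_im]

/-- The regulator row is locally a gradient. -/
lemma locGrad_regRow {u : (Fin n → ℝ) → ℂ} (hu : TU u) : LocGrad (regRow u) := by
  intro x₀
  set θ₀ := Fin.tail x₀ with hθ₀
  set q : (Fin n → ℝ) → ℂ := fun θ => u θ / u θ₀ with hq
  have hqc : ContDiff ℝ 2 q := hu.smooth.div_const _
  have hq1 : q θ₀ = 1 := div_self (hu.ne θ₀)
  have hU : ∀ᶠ x in 𝓝 x₀, q (Fin.tail x) ∈ Complex.slitPlane := by
    have hc : Continuous fun x : Fin (n + 1) → ℝ => q (Fin.tail x) :=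
      hqc.continuous.comp continuous_tail
    refine hc.continuousAt.eventually (Complex.isOpen_slitPlane.mem_nhds ?_)
    change q θ₀ ∈ Complex.slitPlane
    rw [hq1]
    exact Complex.one_mem_slitPlane
  set G : (Fin (n + 1) → ℝ) → ℂ := fun x =>
    ((x 0 * Real.log ‖u (Fin.tail x)‖ : ℝ) : ℂ) +
      ((Complex.log (q (Fin.tail x))).im : ℝ) * Complex.I with hG
  have hGd : ∀ x : Fin (n + 1) → ℝ, q (Fin.tail x) ∈ Complex.slitPlane → ContDiffAt ℝ 2 G x := by
    intro x hx
    have h1 : ContDiff ℝ 2 fun x : Fin (n + 1) → ℝ => x 0 * Real.log ‖u (Fin.tail x)‖ :=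
      (contDiff_apply ℝ ℝ 0).mul ((contDiff_logNorm hu).comp contDiff_tail)
    have h2 : ContDiffAt ℝ 2 (fun x : Fin (n + 1) → ℝ => Complex.log (q (Fin.tail x))) x := by
      have h3 : ContDiffAt ℝ 2 Complex.log (q (Fin.tail x)) :=
        (Complex.contDiffAt_log hx).restrict_scalars ℝ
      exact h3.comp x (hqc.comp contDiff_tail).contDiffAt
    have h4 : ContDiffAt ℝ 2 (fun x : Fin (n + 1) → ℝ => (Complex.log (q (Fin.tail x))).im) x :=
      Complex.imCLM.contDiff.contDiffAt.comp x h2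
    have h5 : ContDiff ℝ 2 (fun r : ℝ => (r : ℂ)) := Complex.ofRealCLM.contDiff
    exact (h5.contDiffAt.comp x h1.contDiffAt).add
      ((h5.contDiffAt.comp x h4).mul contDiffAt_const)
  refine ⟨G, hGd x₀ hU.self_of_nhds, ?_⟩
  filter_upwards [hU] with x hx
  have hdiff : DifferentiableAt ℝ G x := (hGd x hx).differentiableAt (by norm_num)
  funext i
  have hline := hasDerivAt_line hdiff (Pi.single i 1)
  refine hline.unique ?_ |>.symm
  refine Fin.cases ?_ (fun m => ?_) i
  · -- the t-derivative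
    have ht : ∀ s : ℝ, Fin.tail (x + s • Pi.single (0 : Fin (n + 1)) (1 : ℝ)) = Fin.tail x := by
      intro s
      funext k
      simp [Fin.tail]
    simp only [hG, ht, regRow, Fin.cons_zero]
    have h1 : HasDerivAt (fun s : ℝ =>
        (x + s • Pi.single (0 : Fin (n + 1)) (1 : ℝ) : Fin (n + 1) → ℝ) 0 *
        Real.log ‖u (Fin.tail x)‖) (Real.log ‖u (Fin.tail x)‖) 0 := by
      have h2 : HasDerivAt (fun s : ℝ =>
          (x + s • Pi.single (0 : Fin (n + 1)) (1 : ℝ) : Fin (n + 1) → ℝ) 0) 1 0 := by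
        simpa using (hasDerivAt_id (0 : ℝ)).const_add (x 0)
      simpa using h2.mul_const (Real.log ‖u (Fin.tail x)‖)
    exact (h1.ofReal_comp).add_const _
  · have ht : ∀ s : ℝ, Fin.tail (x + s • Pi.single m.succ (1 : ℝ)) =
        Fin.tail x + s • Pi.single m (1 : ℝ) := by
      intro s
      funext k
      simp [Fin.tail, Pi.single_apply]
    have ht0 : ∀ s : ℝ, (x + s • Pi.single m.succ (1 : ℝ) : Fin (n + 1) → ℝ) 0 = x 0 := by
      intro s
      simp
    simp only [hG, ht, ht0, regRow, Fin.cons_succ]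
    have hu1 := hasDerivAt_line (hu.smooth.differentiable (by norm_num) (Fin.tail x))
      (Pi.single m (1 : ℝ))
    have hl := hasDerivAt_log_norm hu1 (by simpa using hu.ne _)
    have hl2 := (hl.const_mul (x 0)).ofReal_comp
    have hq2 : HasDerivAt (fun s : ℝ => q (Fin.tail x + s • Pi.single m (1 : ℝ)))
        (fderiv ℝ u (Fin.tail x) (Pi.single m 1) / u θ₀) 0 := hu1.div_const _
    have hlog := hq2.clog_real (by simpa using hx)
    have him := ((hasDerivAt_im hlog).ofReal_comp).mul_const Complex.I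
    refine HasDerivAt.congr_deriv (hl2.add him) ?_
    have e1 : fderiv ℝ u (Fin.tail x) (Pi.single m 1) / u θ₀ /
        q (Fin.tail x + (0 : ℝ) • Pi.single m (1 : ℝ)) =
        fderiv ℝ u (Fin.tail x) (Pi.single m 1) / u (Fin.tail x) := by
      rw [zero_smul, add_zero, hq]
      simp only
      rw [div_div_div_cancel_right₀ (hu.ne θ₀)]
    rw [e1, zero_smul, add_zero, ← Complex.mk_eq_add_mul_I]

end Pool.Agent.Helper11
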