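import Mathlib
import Pool.Agent.Helper11.TorusReg

/-! The Steinberg relation for the regulator over a torus. -/

namespace Pool.Agent.Helper11

open MeasureTheory Set Topology

section bilin

variable {k : ℕ} (r : Fin k → (Fin (k + 2) → ℂ))

/-- the determinant as a function of its first two rows -/
noncomputable def det2 (u v : Fin (k + 2) → ℂ) : ℂ := dcons u (Fin.cons v r)

lemma det2_eq_update (u v : Fin (k + 2) → ℂ) :
    det2 r u v = Matrix.detRowAlternating (R := ℂ) (n := Fin (k + 2))
      (Function.update (Fin.cons u (Fin.cons 0 r) : Fin (k + 2) → (Fin (k + 2) → ℂ))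
        (Fin.succ 0) v) := by
  unfold det2 dcons
  congr 1
  rw [← Fin.cons_update, Fin.update_cons_zero]

lemma det2_eq_update' (u v : Fin (k + 2) → ℂ) :
    det2 r u v = Matrix.detRowAlternating (R := ℂ) (n := Fin (k + 2))
      (Function.update (Fin.cons 0 (Fin.cons v r) : Fin (k + 2) → (Fin (k + 2) → ℂ)) 0 u) := by
  unfold det2 dcons
  congr 1
  rw [Fin.update_cons_zero]

lemma det2_add_right (u v v' : Fin (k + 2) → ℂ) :
    det2 r u (v + v') = det2 r u v + det2 r u v' := by
  simp only [det2_eq_update]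
  exact AlternatingMap.map_update_add _ _ _ _ _

lemma det2_smul_right (c : ℂ) (u v : Fin (k + 2) → ℂ) :
    det2 r u (c • v) = c * det2 r u v := by
  simp only [det2_eq_update]
  exact AlternatingMap.map_update_smul _ _ _ _ _

lemma det2_add_left (u u' v : Fin (k + 2) → ℂ) :
    det2 r (u + u') v = det2 r u v + det2 r u' v := by
  simp only [det2_eq_update']
  exact AlternatingMap.map_update_add _ _ _ _ _

lemma det2_smul_left (c : ℂ) (u v : Fin (k + 2) → ℂ) :
    det2 r (c • u) v = c * det2 r u v := by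
  simp only [det2_eq_update']
  exact AlternatingMap.map_update_smul _ _ _ _ _

lemma det2_self (u : Fin (k + 2) → ℂ) : det2 r u u = 0 := by
  unfold det2 dcons
  refine AlternatingMap.map_eq_zero_of_eq _ _ (i := 0) (j := Fin.succ 0) ?_ (by simp)
  simp

lemma det2_swap (u v : Fin (k + 2) → ℂ) : det2 r u v = - det2 r v u := by
  have h := det2_self r (u + v)
  rw [det2_add_left, det2_add_right, det2_add_right, det2_self, det2_self] at h
  linear_combination h

/-- the pointwise form of the Steinberg relation -/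
lemma det2_steinberg (e R0 S0 R1 S1 : Fin (k + 2) → ℂ) (lam lamc : ℂ)
    (h1 : R1 + Complex.I • S1 = lam • (R0 + Complex.I • S0))
    (h2 : R1 - Complex.I • S1 = lamc • (R0 - Complex.I • S0)) (a0 a1 t : ℂ) :
    det2 r (a0 • e + t • R0 + Complex.I • S0) (a1 • e + t • R1 + Complex.I • S1) =
      det2 r ((2 * t * a0) • e + (t ^ 2 - 1) • R0) R1 +
      det2 r ((a0 * a1) • e + (t * a0) • R1 + (t * a1) • R0 + (-Complex.I * a0) • S1 +
        (Complex.I * a1) • S0) e := by
  have hI := Complex.I_sq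
  have k1 : det2 r (R0 + Complex.I • S0) (R1 + Complex.I • S1) = 0 := by
    rw [h1, det2_smul_right, det2_self, mul_zero]
  have k2 : det2 r (R0 - Complex.I • S0) (R1 - Complex.I • S1) = 0 := by
    rw [h2, det2_smul_right, det2_self, mul_zero]
  simp only [sub_eq_add_neg, ← neg_smul, det2_add_left, det2_add_right, det2_smul_left,
    det2_smul_right, det2_self] at k1 k2 ⊢
  rw [det2_swap r R0 e, det2_swap r S0 e, det2_swap r R1 e, det2_swap r S1 e]
  have q1 : det2 r R0 R1 - det2 r S0 S1 = 0 := by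
    linear_combination (1 / 2 : ℂ) * k1 + (1 / 2 : ℂ) * k2 - det2 r S0 S1 * hI
  have q2 : Complex.I * (det2 r R0 S1 + det2 r S0 R1) = 0 := by
    linear_combination (1 / 2 : ℂ) * k1 - (1 / 2 : ℂ) * k2
  linear_combination q1 + t * q2 + det2 r S0 S1 * hI

end bilin

section lines

variable {n : ℕ}

lemma tail_add_zero (x : Fin (n + 1) → ℝ) (s : ℝ) :
    Fin.tail (x + s • Pi.single (0 : Fin (n + 1)) (1 : ℝ)) = Fin.tail x := by
  funext k
  simp [Fin.tail]

lemma tail_add_succ (x : Fin (n + 1) → ℝ) (s : ℝ) (m : Fin n) :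
    Fin.tail (x + s • Pi.single m.succ (1 : ℝ)) = Fin.tail x + s • Pi.single m (1 : ℝ) := by
  funext k
  simp [Fin.tail, Pi.single_apply]

lemma head_add_zero (x : Fin (n + 1) → ℝ) (s : ℝ) :
    (x + s • Pi.single (0 : Fin (n + 1)) (1 : ℝ) : Fin (n + 1) → ℝ) 0 = x 0 + s := by
  simp

lemma head_add_succ (x : Fin (n + 1) → ℝ) (s : ℝ) (m : Fin n) :
    (x + s • Pi.single m.succ (1 : ℝ) : Fin (n + 1) → ℝ) 0 = x 0 := by
  simp

lemma tail_add_per (x : Fin (n + 1) → ℝ) (c : ℝ) (m : Fin n) :
    Fin.tail (x + Pi.single m.succ c) = Fin.tail x + Pi.single m c := by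
  funext k
  simp [Fin.tail, Pi.single_apply]

lemma head_add_per (x : Fin (n + 1) → ℝ) (c : ℝ) (m : Fin n) :
    (x + Pi.single m.succ c : Fin (n + 1) → ℝ) 0 = x 0 := by
  simp

lemma grad_per {F : (Fin n → ℝ) → ℂ} {v : Fin n → ℝ} (h : ∀ x, F (x + v) = F x)
    (x : Fin n → ℝ) : grad F (x + v) = grad F x := by
  have h1 : (fun x => F (x + v)) = F := funext h
  have h2 : fderiv ℝ F (x + v) = fderiv ℝ F x := by
    conv_rhs => rw [← h1]
    rw [fderiv_comp_add_right]
  funext p
  unfold grad
  rw [h2]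

lemma regRow_per {u : (Fin n → ℝ) → ℂ} (hu : TU u) (m : Fin n) (x : Fin (n + 1) → ℝ) :
    regRow u (x + Pi.single m.succ (2 * Real.pi)) = regRow u x := by
  have h1 : (fun x => u (x + Pi.single m (2 * Real.pi))) = u := funext (hu.per m)
  have h2 : ∀ θ, fderiv ℝ u (θ + Pi.single m (2 * Real.pi)) = fderiv ℝ u θ := by
    intro θ
    conv_rhs => rw [← h1]
    rw [fderiv_comp_add_right]
  unfold regRow
  rw [tail_add_per, head_add_per, hu.per]
  simp only [h2]

end lines

end Pool.Agent.Helper11
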