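import Mathlib
import Pool.Agent.Helper11.TorusReg2

/-! The Steinberg relation for the regulator over a torus, continued. -/

namespace Pool.Agent.Helper11

open MeasureTheory Set Topology

variable {n : ℕ}

/-- the row `(0, re ∂ₘu/u)` -/
noncomputable def rowRe (u : (Fin n → ℝ) → ℂ) (x : Fin (n + 1) → ℝ) : Fin (n + 1) → ℂ :=
  Fin.cons 0 fun m => ((fderiv ℝ u (Fin.tail x) (Pi.single m 1) / u (Fin.tail x)).re : ℂ)

/-- the row `(0, im ∂ₘu/u)` -/
noncomputable def rowIm (u : (Fin n → ℝ) → ℂ) (x : Fin (n + 1) → ℝ) : Fin (n + 1) → ℂ :=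
  Fin.cons 0 fun m => ((fderiv ℝ u (Fin.tail x) (Pi.single m 1) / u (Fin.tail x)).im : ℂ)

lemma regRow_eq (u : (Fin n → ℝ) → ℂ) (x : Fin (n + 1) → ℝ) :
    regRow u x = ((Real.log ‖u (Fin.tail x)‖ : ℝ) : ℂ) • (Pi.single 0 1 : Fin (n + 1) → ℂ) +
      ((x 0 : ℝ) : ℂ) • rowRe u x + Complex.I • rowIm u x := by
  funext i
  refine Fin.cases ?_ (fun m => ?_) i
  · simp [regRow, rowRe, rowIm]
  · simp only [regRow, rowRe, rowIm, Fin.cons_succ, Pi.add_apply, Pi.smul_apply, smul_eq_mul]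
    rw [Complex.mk_eq_add_mul_I]
    push_cast
    simp
    ring

/-- `log |u|` as a complex function on the box -/
noncomputable def logC (u : (Fin n → ℝ) → ℂ) (x : Fin (n + 1) → ℝ) : ℂ :=
  ((Real.log ‖u (Fin.tail x)‖ : ℝ) : ℂ)

lemma contDiff_logC {u : (Fin n → ℝ) → ℂ} (hu : TU u) : ContDiff ℝ 2 (logC u) :=
  Complex.ofRealCLM.contDiff.comp ((contDiff_logNorm hu).comp contDiff_tail)

lemma line_logNorm {u : (Fin n → ℝ) → ℂ} (hu : TU u) (θ : Fin n → ℝ) (m : Fin n) :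
    HasDerivAt (fun s : ℝ => Real.log ‖u (θ + s • Pi.single m (1 : ℝ))‖)
      ((fderiv ℝ u θ (Pi.single m 1) / u θ).re) 0 := by
  have h2 := hasDerivAt_line (hu.smooth.differentiable (by norm_num) θ) (Pi.single m (1 : ℝ))
  have h3 := hasDerivAt_log_norm h2 (by simpa using hu.ne θ)
  simpa using h3

lemma grad_logC {u : (Fin n → ℝ) → ℂ} (hu : TU u) (x : Fin (n + 1) → ℝ) :
    grad (logC u) x = rowRe u x := by
  have hd : DifferentiableAt ℝ (logC u) x :=
    (contDiff_logC hu).differentiable (by norm_num) x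
  funext i
  refine (hasDerivAt_line hd (Pi.single i 1)).unique ?_
  refine Fin.cases ?_ (fun m => ?_) i
  · simp only [logC, tail_add_zero, rowRe, Fin.cons_zero]
    exact hasDerivAt_const _ _
  · simp only [logC, tail_add_succ, rowRe, Fin.cons_succ]
    exact (line_logNorm hu _ m).ofReal_comp

lemma grad_time (x : Fin (n + 1) → ℝ) :
    grad (fun x : Fin (n + 1) → ℝ => ((x 0 : ℝ) : ℂ)) x = Pi.single 0 1 := by
  have hc : ContDiff ℝ 1 (fun x : Fin (n + 1) → ℝ => ((x 0 : ℝ) : ℂ)) :=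
    Complex.ofRealCLM.contDiff.comp (contDiff_apply ℝ ℝ (0 : Fin (n + 1)))
  have hd := hc.differentiable (by norm_num) x
  funext i
  refine (hasDerivAt_line hd (Pi.single i 1)).unique ?_
  refine Fin.cases ?_ (fun m => ?_) i
  · simp only [head_add_zero, Pi.single_eq_same]
    have h1 : HasDerivAt (fun s : ℝ => x 0 + s) 1 0 := by
      simpa using (hasDerivAt_id (0 : ℝ)).const_add (x 0)
    simpa using h1.ofReal_comp
  · simp only [head_add_succ, Pi.single_apply, Fin.succ_ne_zero, if_false]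
    exact hasDerivAt_const _ _

lemma locGrad_grad {F : (Fin n → ℝ) → ℂ} (hF : ContDiff ℝ 2 F) : LocGrad (grad F) :=
  fun _ => ⟨F, hF.contDiffAt, Filter.EventuallyEq.rfl⟩

/-- the function `(t² - 1) log |u|` -/
noncomputable def alphaF (u : (Fin n → ℝ) → ℂ) (x : Fin (n + 1) → ℝ) : ℂ :=
  ((((x 0) ^ 2 - 1) * Real.log ‖u (Fin.tail x)‖ : ℝ) : ℂ)

lemma contDiff_alphaF {u : (Fin n → ℝ) → ℂ} (hu : TU u) : ContDiff ℝ 2 (alphaF u) :=
  Complex.ofRealCLM.contDiff.comp ((((contDiff_apply ℝ ℝ (0 : Fin (n + 1))).pow 2).sub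
    contDiff_const).mul ((contDiff_logNorm hu).comp contDiff_tail))

lemma grad_alphaF {u : (Fin n → ℝ) → ℂ} (hu : TU u) (x : Fin (n + 1) → ℝ) :
    grad (alphaF u) x =
      (2 * ((x 0 : ℝ) : ℂ) * ((Real.log ‖u (Fin.tail x)‖ : ℝ) : ℂ)) •
        (Pi.single 0 1 : Fin (n + 1) → ℂ) + (((x 0 : ℝ) : ℂ) ^ 2 - 1) • rowRe u x := by
  have hd : DifferentiableAt ℝ (alphaF u) x :=
    (contDiff_alphaF hu).differentiable (by norm_num) x
  funext i
  refine (hasDerivAt_line hd (Pi.single i 1)).unique ?_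
  refine Fin.cases ?_ (fun m => ?_) i
  · simp only [alphaF, tail_add_zero, head_add_zero]
    have h1 : HasDerivAt (fun s : ℝ => x 0 + s) 1 0 := by
      simpa using (hasDerivAt_id (0 : ℝ)).const_add (x 0)
    have h2 := (((h1.pow 2).sub_const 1).mul_const (Real.log ‖u (Fin.tail x)‖)).ofReal_comp
    refine HasDerivAt.congr_deriv h2 ?_
    simp [rowRe]
  · simp only [alphaF, tail_add_succ, head_add_succ]
    have h2 := ((line_logNorm hu (Fin.tail x) m).const_mul ((x 0) ^ 2 - 1)).ofReal_comp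
    refine HasDerivAt.congr_deriv h2 ?_
    simp [rowRe]

/-- the function `t log |u| log |v| - i D(u)` -/
noncomputable def hF (D : ℂ → ℝ) (u v : (Fin n → ℝ) → ℂ) (x : Fin (n + 1) → ℝ) : ℂ :=
  ((x 0 * (Real.log ‖u (Fin.tail x)‖ * Real.log ‖v (Fin.tail x)‖) : ℝ) : ℂ) -
    Complex.I * ((D (u (Fin.tail x)) : ℝ) : ℂ)

lemma contDiff_D {D : ℂ → ℝ} (hD : ∀ z : ℂ, z ≠ 0 → z ≠ 1 → HasFDerivAt D (etaL z) z)
    {u v : (Fin n → ℝ) → ℂ} (hu : TU u) (hv : TU v) (huv : ∀ θ, u θ + v θ = 1) :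
    ContDiff ℝ 1 (fun θ => D (u θ)) := by
  have hu1 : ∀ θ, u θ ≠ 1 := by
    intro θ h
    have := huv θ
    rw [h] at this
    exact hv.ne θ (by linear_combination this)
  have h1 : ∀ θ, HasFDerivAt (fun θ => D (u θ)) ((etaL (u θ)).comp (fderiv ℝ u θ)) θ :=
    fun θ => (hD _ (hu.ne θ) (hu1 θ)).comp θ (hu.smooth.differentiable (by norm_num) θ).hasFDerivAt
  rw [contDiff_one_iff_fderiv]
  refine ⟨fun θ => (h1 θ).differentiableAt, ?_⟩
  have h2 : fderiv ℝ (fun θ => D (u θ)) = fun θ => (etaL (u θ)).comp (fderiv ℝ u θ) :=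
    funext fun θ => (h1 θ).fderiv
  rw [h2]
  refine Continuous.clm_comp ?_ (hu.smooth.continuous_fderiv (by norm_num))
  rw [continuous_iff_continuousAt]
  intro θ
  exact (continuousAt_etaL (hu.ne θ) (hu1 θ)).comp (f := u) hu.smooth.continuous.continuousAt

lemma contDiff_hF {D : ℂ → ℝ} (hD : ∀ z : ℂ, z ≠ 0 → z ≠ 1 → HasFDerivAt D (etaL z) z)
    {u v : (Fin n → ℝ) → ℂ} (hu : TU u) (hv : TU v) (huv : ∀ θ, u θ + v θ = 1) :
    ContDiff ℝ 1 (hF D u v) := by
  have h1 : ContDiff ℝ 1 fun x : Fin (n + 1) → ℝ =>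
      x 0 * (Real.log ‖u (Fin.tail x)‖ * Real.log ‖v (Fin.tail x)‖) :=
    (contDiff_apply ℝ ℝ (0 : Fin (n + 1))).mul
      ((((contDiff_logNorm hu).of_le (by norm_num)).comp contDiff_tail).mul
        (((contDiff_logNorm hv).of_le (by norm_num)).comp contDiff_tail))
  have h2 : ContDiff ℝ 1 fun x : Fin (n + 1) → ℝ => D (u (Fin.tail x)) :=
    (contDiff_D hD hu hv huv).comp contDiff_tail
  exact (Complex.ofRealCLM.contDiff.comp h1).sub
    (contDiff_const.mul (Complex.ofRealCLM.contDiff.comp h2))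

lemma grad_hF {D : ℂ → ℝ} (hD : ∀ z : ℂ, z ≠ 0 → z ≠ 1 → HasFDerivAt D (etaL z) z)
    {u v : (Fin n → ℝ) → ℂ} (hu : TU u) (hv : TU v) (huv : ∀ θ, u θ + v θ = 1)
    (x : Fin (n + 1) → ℝ) :
    grad (hF D u v) x =
      (((Real.log ‖u (Fin.tail x)‖ : ℝ) : ℂ) * ((Real.log ‖v (Fin.tail x)‖ : ℝ) : ℂ)) •
        (Pi.single 0 1 : Fin (n + 1) → ℂ) +
      (((x 0 : ℝ) : ℂ) * ((Real.log ‖u (Fin.tail x)‖ : ℝ) : ℂ)) • rowRe v x +
      (((x 0 : ℝ) : ℂ) * ((Real.log ‖v (Fin.tail x)‖ : ℝ) : ℂ)) • rowRe u x +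
      (-Complex.I * ((Real.log ‖u (Fin.tail x)‖ : ℝ) : ℂ)) • rowIm v x +
      (Complex.I * ((Real.log ‖v (Fin.tail x)‖ : ℝ) : ℂ)) • rowIm u x := by
  have hd : DifferentiableAt ℝ (hF D u v) x :=
    (contDiff_hF hD hu hv huv).differentiable (by norm_num) x
  funext i
  refine (hasDerivAt_line hd (Pi.single i 1)).unique ?_
  refine Fin.cases ?_ (fun m => ?_) i
  · simp only [hF, tail_add_zero, head_add_zero]
    have h1 : HasDerivAt (fun s : ℝ => x 0 + s) 1 0 := by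
      simpa using (hasDerivAt_id (0 : ℝ)).const_add (x 0)
    have h2 := (h1.mul_const (Real.log ‖u (Fin.tail x)‖ * Real.log ‖v (Fin.tail x)‖)).ofReal_comp
    refine HasDerivAt.congr_deriv (h2.sub_const _) ?_
    simp [rowRe, rowIm]
  · simp only [hF, tail_add_succ, head_add_succ]
    set θ := Fin.tail x with hθ
    have hu1 : u θ ≠ 1 := by
      intro h
      have := huv θ
      rw [h] at this
      exact hv.ne θ (by linear_combination this)
    have hv1 : 1 - u θ = v θ := by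
      have := huv θ
      linear_combination -this
    have hdv : fderiv ℝ v θ (Pi.single m 1) = - fderiv ℝ u θ (Pi.single m 1) := by
      have e1 : v = fun θ => 1 - u θ := by
        funext θ'
        have := huv θ'
        linear_combination this
      rw [e1, fderiv_const_sub]
      rfl
    have h1 := ((line_logNorm hu θ m).mul (line_logNorm hv θ m)).const_mul (x 0)
    have h2 : HasDerivAt (fun s : ℝ => D (u (θ + s • Pi.single m (1 : ℝ))))
        (eta (u θ) (fderiv ℝ u θ (Pi.single m 1))) 0 := by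
      have h3 := hasDerivAt_line (hu.smooth.differentiable (by norm_num) θ)
        (Pi.single m (1 : ℝ))
      have h4 : HasFDerivAt D (etaL (u θ)) (u (θ + (0 : ℝ) • Pi.single m (1 : ℝ))) := by
        simpa using hD _ (hu.ne θ) hu1
      have h5 := h4.comp_hasDerivAt (0 : ℝ) h3
      rw [etaL_apply] at h5
      exact h5
    have h6 := (h1.ofReal_comp).sub (h2.ofReal_comp.const_mul Complex.I)
    refine HasDerivAt.congr_deriv h6 ?_
    unfold eta
    rw [hv1, ← hdv]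
    simp only [rowRe, rowIm, Fin.cons_succ, Pi.add_apply, Pi.smul_apply, smul_eq_mul,
      Pi.single_apply, Fin.succ_ne_zero, if_false, ← hθ, zero_smul, add_zero]
    push_cast
    ring

end Pool.Agent.Helper11
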