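import Mathlib
import Pool.Agent.Helper11.TorusReg3
import Pool.Agent.Helper11.KApi

/-! The regulator over a torus is well defined on Milnor K-theory. -/

namespace Pool.Agent.Helper11

open MeasureTheory Set Topology

section st

variable {k : ℕ}

lemma rel_rows {u v : (Fin (k + 1) → ℝ) → ℂ} (hu : TU u) (hv : TU v)
    (huv : ∀ θ, u θ + v θ = 1) (x : Fin (k + 2) → ℝ) :
    ∃ lam lamc : ℂ,
      rowRe v x + Complex.I • rowIm v x = lam • (rowRe u x + Complex.I • rowIm u x) ∧
      rowRe v x - Complex.I • rowIm v x = lamc • (rowRe u x - Complex.I • rowIm u x) := by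
  set θ := Fin.tail x with hθ
  have hdv : ∀ m, fderiv ℝ v θ (Pi.single m 1) = - fderiv ℝ u θ (Pi.single m 1) := by
    intro m
    have e1 : v = fun θ => 1 - u θ := by
      funext θ'
      have := huv θ'
      linear_combination this
    rw [e1, fderiv_const_sub]
    rfl
  set lam : ℂ := -(u θ / v θ) with hlam
  have key : ∀ m, fderiv ℝ v θ (Pi.single m 1) / v θ =
      lam * (fderiv ℝ u θ (Pi.single m 1) / u θ) := by
    intro m
    rw [hdv, hlam]
    field_simp [hu.ne θ, hv.ne θ]
  have re_im : ∀ z : ℂ, ((z.re : ℝ) : ℂ) + Complex.I * ((z.im : ℝ) : ℂ) = z := by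
    intro z
    rw [mul_comm]
    exact Complex.re_add_im z
  have re_im' : ∀ z : ℂ, ((z.re : ℝ) : ℂ) - Complex.I * ((z.im : ℝ) : ℂ) =
      (starRingEnd ℂ) z := by
    intro z
    apply Complex.ext <;> simp
  refine ⟨lam, (starRingEnd ℂ) lam, ?_, ?_⟩
  · funext i
    refine Fin.cases ?_ (fun m => ?_) i
    · simp [rowRe, rowIm]
    · simp only [rowRe, rowIm, Pi.add_apply, Pi.smul_apply, Fin.cons_succ, smul_eq_mul, re_im,
        ← hθ]
      exact key m
  · funext i
    refine Fin.cases ?_ (fun m => ?_) i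
    · simp [rowRe, rowIm]
    · simp only [rowRe, rowIm, Pi.sub_apply, Pi.smul_apply, Fin.cons_succ, smul_eq_mul, re_im',
        ← hθ]
      rw [key m, map_mul]

/-- the determinant of the boundary term is `i^k` times a real number -/
lemma boundary_re (f : Fin (k + 2) → (Fin (k + 1) → ℝ) → ℂ) (y : Fin (k + 1) → ℝ) :
    ((-Complex.I) ^ (k + 1) * dcons (Pi.single 0 1)
      (Fin.cons (rowRe (f 1) (Fin.cons 0 y)) fun j : Fin k =>
        regRow (f j.succ.succ) (Fin.cons 0 y))).re = 0 := by
  -- the real matrix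
  let N : Matrix (Fin (k + 2)) (Fin (k + 2)) ℝ := fun i => Fin.cons (α := fun _ => Fin (k + 2) → ℝ)
    (Pi.single 0 1)
    (Fin.cons (α := fun _ => Fin (k + 2) → ℝ)
      (Fin.cons 0 fun m => (fderiv ℝ (f 1) y (Pi.single m 1) / f 1 y).re)
      fun j : Fin k => Fin.cons (Real.log ‖f j.succ.succ y‖) fun m =>
        (fderiv ℝ (f j.succ.succ) y (Pi.single m 1) / f j.succ.succ y).im) i
  let v : Fin (k + 2) → ℂ := Fin.cons 1 fun _ => -Complex.I
  let w : Fin (k + 2) → ℂ := Fin.cons 1 (Fin.cons (-Complex.I) fun _ => 1)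
  let M : Matrix (Fin (k + 2)) (Fin (k + 2)) ℂ := fun i => Fin.cons (α := fun _ => Fin (k + 2) → ℂ)
    (Pi.single 0 1)
    (Fin.cons (α := fun _ => Fin (k + 2) → ℂ) (rowRe (f 1) (Fin.cons 0 y)) fun j : Fin k =>
        regRow (f j.succ.succ) (Fin.cons 0 y)) i
  have hM : dcons (Pi.single 0 1)
      (Fin.cons (rowRe (f 1) (Fin.cons 0 y)) fun j : Fin k =>
        regRow (f j.succ.succ) (Fin.cons 0 y)) = M.det := rfl
  have hv : ∏ i, v i = (-Complex.I) ^ (k + 1) := by
    simp [v, Fin.prod_univ_succ]
  have hw : ∏ i, w i = -Complex.I := by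
    simp [w, Fin.prod_univ_succ]
  have hentry : (Matrix.of fun i j => v j * M i j) =
      Matrix.of fun i j => w i * (N.map (Complex.ofRealHom)) i j := by
    ext i j
    simp only [Matrix.of_apply, Matrix.map_apply, M, N, v, w, Complex.ofRealHom_eq_coe]
    refine Fin.cases ?_ (fun i' => ?_) i
    · refine Fin.cases ?_ (fun j' => ?_) j
      · simp
      · simp
    · refine Fin.cases ?_ (fun i'' => ?_) i'
      · refine Fin.cases ?_ (fun j' => ?_) j
        · simp [rowRe]
        · simp [rowRe]
      · refine Fin.cases ?_ (fun j' => ?_) j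
        · simp [regRow]
        · simp only [regRow, Fin.cons_succ, Fin.tail_cons, Fin.cons_zero, zero_mul]
          rw [Complex.mk_eq_add_mul_I]
          simp only [Complex.ofReal_zero, zero_add, one_mul]
          linear_combination (-(((fderiv ℝ (f i''.succ.succ) y (Pi.single j' 1) /
            f i''.succ.succ y).im : ℝ) : ℂ)) * Complex.I_sq
  have h1 := Matrix.det_mul_row v M
  have h2 := Matrix.det_mul_column w (N.map (Complex.ofRealHom))
  rw [hentry, h2, hw, hv] at h1
  have h3 : (N.map (Complex.ofRealHom)).det = ((N.det : ℝ) : ℂ) := by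
    have := (Complex.ofRealHom).map_det N
    exact this.symm
  rw [hM, ← h1, h3]
  simp

/-- The Steinberg relation for the first two entries. -/
theorem regTorus_steinberg01 {f : Fin (k + 2) → (Fin (k + 1) → ℝ) → ℂ} (hf : ∀ j, TU (f j))
    (h : ∀ θ, f 0 θ + f 1 θ = 1) : regTorus f = 0 := by
  obtain ⟨D, hD⟩ := exists_blochWigner_fderiv
  set W1 : Fin (k + 1) → (Fin (k + 2) → ℝ) → (Fin (k + 2) → ℂ) :=
    Fin.cons (grad (logC (f 1))) (fun j : Fin k => regRow (f j.succ.succ)) with hW1
  set W2 : Fin (k + 1) → (Fin (k + 2) → ℝ) → (Fin (k + 2) → ℂ) :=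
    Fin.cons (grad (fun x : Fin (k + 2) → ℝ => ((x 0 : ℝ) : ℂ)))
      (fun j : Fin k => regRow (f j.succ.succ)) with hW2
  have hW1x : ∀ x, (fun j => W1 j x) =
      Fin.cons (rowRe (f 1) x) (fun j : Fin k => regRow (f j.succ.succ) x) := by
    intro x
    funext j
    refine Fin.cases ?_ (fun j' => ?_) j
    · simp only [hW1, Fin.cons_zero]
      exact grad_logC (hf 1) x
    · simp only [hW1, Fin.cons_succ]
  have hW2x : ∀ x, (fun j => W2 j x) =
      Fin.cons (Pi.single 0 1) (fun j : Fin k => regRow (f j.succ.succ) x) := by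
    intro x
    funext j
    refine Fin.cases ?_ (fun j' => ?_) j
    · simp only [hW2, Fin.cons_zero]
      exact grad_time x
    · simp only [hW2, Fin.cons_succ]
  have htime : ContDiff ℝ 2 (fun x : Fin (k + 2) → ℝ => ((x 0 : ℝ) : ℂ)) :=
    Complex.ofRealCLM.contDiff.comp (contDiff_apply ℝ ℝ (0 : Fin (k + 2)))
  have hl1 : ∀ j, LocGrad (W1 j) := by
    intro j
    refine Fin.cases ?_ (fun j' => ?_) j
    · exact locGrad_grad (contDiff_logC (hf 1))
    · exact locGrad_regRow (hf _)
  have hl2 : ∀ j, LocGrad (W2 j) := by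
    intro j
    refine Fin.cases ?_ (fun j' => ?_) j
    · exact locGrad_grad htime
    · exact locGrad_regRow (hf _)
  have hper1 : ∀ (j m : Fin (k + 1)) x, W1 j (x + Pi.single m.succ (2 * Real.pi)) = W1 j x := by
    intro j m x
    refine Fin.cases ?_ (fun j' => ?_) j
    · refine grad_per (fun x => ?_) x
      unfold logC
      rw [tail_add_per, (hf 1).per]
    · exact regRow_per (hf _) m x
  have hper2 : ∀ (j m : Fin (k + 1)) x, W2 j (x + Pi.single m.succ (2 * Real.pi)) = W2 j x := by
    intro j m x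
    refine Fin.cases ?_ (fun j' => ?_) j
    · refine grad_per (fun x => ?_) x
      rw [head_add_per]
    · exact regRow_per (hf _) m x
  have hperA : ∀ (m : Fin (k + 1)) x, alphaF (f 0) (x + Pi.single m.succ (2 * Real.pi)) =
      alphaF (f 0) x := by
    intro m x
    unfold alphaF
    rw [tail_add_per, (hf 0).per, head_add_per]
  have hperH : ∀ (m : Fin (k + 1)) x, hF D (f 0) (f 1) (x + Pi.single m.succ (2 * Real.pi)) =
      hF D (f 0) (f 1) x := by
    intro m x
    unfold hF
    rw [tail_add_per, (hf 0).per, (hf 1).per, head_add_per]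
  have hcA : ContDiff ℝ 1 (alphaF (f 0)) := (contDiff_alphaF (hf 0)).of_le (by norm_num)
  have hcH : ContDiff ℝ 1 (hF D (f 0) (f 1)) := contDiff_hF hD (hf 0) (hf 1) h
  -- pointwise identity
  have hpt : ∀ x, Matrix.det (Matrix.of fun j => regRow (f j) x) =
      dcons (grad (alphaF (f 0)) x) (fun j => W1 j x) +
      dcons (grad (hF D (f 0) (f 1)) x) (fun j => W2 j x) := by
    intro x
    obtain ⟨lam, lamc, e1, e2⟩ := rel_rows (hf 0) (hf 1) h x
    rw [hW1x, hW2x, grad_alphaF (hf 0), grad_hF hD (hf 0) (hf 1) h]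
    have h3 := det2_steinberg (fun j : Fin k => regRow (f j.succ.succ) x) (Pi.single 0 1)
      (rowRe (f 0) x) (rowIm (f 0) x) (rowRe (f 1) x) (rowIm (f 1) x) lam lamc e1 e2
      ((Real.log ‖f 0 (Fin.tail x)‖ : ℝ) : ℂ) ((Real.log ‖f 1 (Fin.tail x)‖ : ℝ) : ℂ)
      ((x 0 : ℝ) : ℂ)
    rw [← regRow_eq, ← regRow_eq] at h3
    unfold det2 at h3
    rw [← h3]
    unfold dcons
    change Matrix.detRowAlternating (R := ℂ) (n := Fin (k + 2)) (fun j => regRow (f j) x) = _
    congr 1
    funext j
    refine Fin.cases ?_ (fun j' => ?_) j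
    · simp
    · refine Fin.cases ?_ (fun j'' => ?_) j'
      · simp
      · simp
  have s1 := stokes hcA hl1 hperA hper1
  have s2 := stokes hcH hl2 hperH hper2
  have hcd1 : Continuous fun x => dcons (grad (alphaF (f 0)) x) (fun j => W1 j x) :=
    continuous_dcons (locGrad_grad (contDiff_alphaF (hf 0))).contDiff.continuous
      fun j => (hl1 j).contDiff.continuous
  have hgH : Continuous (grad (hF D (f 0) (f 1))) := by
    refine continuous_pi fun p => ?_
    exact (hcH.continuous_fderiv (by norm_num)).clm_apply continuous_const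
  have hcd2 : Continuous fun x => dcons (grad (hF D (f 0) (f 1)) x) (fun j => W2 j x) :=
    continuous_dcons hgH fun j => (hl2 j).contDiff.continuous
  have hi1 : IntegrableOn (fun x => dcons (grad (alphaF (f 0)) x) (fun j => W1 j x))
      (Icc 0 (topB (k + 1))) := hcd1.continuousOn.integrableOn_compact isCompact_Icc
  have hi2 : IntegrableOn (fun x => dcons (grad (hF D (f 0) (f 1)) x) (fun j => W2 j x))
      (Icc 0 (topB (k + 1))) := hcd2.continuousOn.integrableOn_compact isCompact_Icc
  -- the total integral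
  have htot : ∫ x in Icc (0 : Fin (k + 2) → ℝ) (topB (k + 1)),
      Matrix.det (Matrix.of fun j => regRow (f j) x) =
      ∫ y in Icc (0 : Fin (k + 1) → ℝ) (fun _ => 2 * Real.pi),
        ((Real.log ‖f 0 y‖ : ℝ) : ℂ) * dcons (Pi.single 0 1)
          (Fin.cons (rowRe (f 1) (Fin.cons 0 y)) fun j : Fin k =>
            regRow (f j.succ.succ) (Fin.cons 0 y)) := by
    simp only [hpt]
    rw [integral_add hi1 hi2, s1, s2]
    have z1 : ∀ y : Fin (k + 1) → ℝ, alphaF (f 0) (Fin.cons 1 y) = 0 := by
      intro y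
      simp [alphaF]
    have z2 : ∀ y : Fin (k + 1) → ℝ, alphaF (f 0) (Fin.cons 0 y) =
        -((Real.log ‖f 0 y‖ : ℝ) : ℂ) := by
      intro y
      simp [alphaF]
    have z3 : ∀ x, dcons (Pi.single 0 1) (fun j => W2 j x) = 0 := by
      intro x
      rw [hW2x]
      exact det2_self _ _
    simp only [z1, z2, z3, hW1x, zero_mul, mul_zero, integral_zero, zero_sub, sub_zero,
      neg_mul, integral_neg, neg_neg, add_zero]
  unfold regTorus
  have hcdet : Continuous fun x => (-Complex.I) ^ (k + 1) *
      Matrix.det (Matrix.of fun j => regRow (f j) x) := by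
    simp only [hpt]
    exact continuous_const.mul (hcd1.add hcd2)
  have hidet : IntegrableOn (fun x => (-Complex.I) ^ (k + 1) *
      Matrix.det (Matrix.of fun j => regRow (f j) x)) (Icc 0 (topB (k + 1))) :=
    hcdet.continuousOn.integrableOn_compact isCompact_Icc
  have e1 := integral_re hidet
  simp only [RCLike.re_eq_complex_re] at e1
  rw [e1, integral_const_mul, htot, ← integral_const_mul]
  have hcont : Continuous fun y : Fin (k + 1) → ℝ => (-Complex.I) ^ (k + 1) *
      (((Real.log ‖f 0 y‖ : ℝ) : ℂ) * dcons (Pi.single 0 1)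
          (Fin.cons (rowRe (f 1) (Fin.cons 0 y)) fun j : Fin k =>
            regRow (f j.succ.succ) (Fin.cons 0 y))) := by
    refine continuous_const.mul (Continuous.mul ?_ ?_)
    · exact Complex.continuous_ofReal.comp (contDiff_logNorm (hf 0)).continuous
    · have h1 : Continuous fun x : Fin (k + 2) → ℝ => dcons (Pi.single 0 1) (fun j => W1 j x) :=
        continuous_dcons continuous_const fun j => (hl1 j).contDiff.continuous
      simp only [hW1x] at h1
      have h2 : Continuous fun y : Fin (k + 1) → ℝ => (Fin.cons 0 y : Fin (k + 2) → ℝ) :=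
        continuous_pi fun i => by
          refine Fin.cases ?_ (fun i' => ?_) i
          · simp only [Fin.cons_zero]
            exact continuous_const
          · simp only [Fin.cons_succ]
            exact continuous_apply i'
      exact h1.comp h2
  have e2 := integral_re (μ := volume.restrict (Icc (0 : Fin (k + 1) → ℝ) fun _ => 2 * Real.pi))
    (hcont.continuousOn.integrableOn_compact isCompact_Icc)
  simp only [RCLike.re_eq_complex_re] at e2
  rw [← e2]
  refine integral_eq_zero_of_ae (Filter.Eventually.of_forall fun y => ?_)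
  have h5 := boundary_re f y
  have e3 : (-Complex.I) ^ (k + 1) *
      (((Real.log ‖f 0 y‖ : ℝ) : ℂ) * dcons (Pi.single 0 1)
          (Fin.cons (rowRe (f 1) (Fin.cons 0 y)) fun j : Fin k =>
            regRow (f j.succ.succ) (Fin.cons 0 y))) =
      ((Real.log ‖f 0 y‖ : ℝ) : ℂ) * ((-Complex.I) ^ (k + 1) * dcons (Pi.single 0 1)
          (Fin.cons (rowRe (f 1) (Fin.cons 0 y)) fun j : Fin k =>
            regRow (f j.succ.succ) (Fin.cons 0 y))) := by ring
  simp only [Pi.zero_apply]
  rw [e3, Complex.re_ofReal_mul, h5, mul_zero]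

end st

section exist

variable {n : ℕ}

lemma continuous_detRow {f : Fin (n + 1) → (Fin n → ℝ) → ℂ} (hf : ∀ j, TU (f j)) :
    Continuous fun x : Fin (n + 1) → ℝ =>
      ((-Complex.I) ^ n * Matrix.det (Matrix.of fun j => regRow (f j) x)).re := by
  have h1 : Continuous fun x : Fin (n + 1) → ℝ =>
      (Matrix.of fun j => regRow (f j) x : Matrix (Fin (n + 1)) (Fin (n + 1)) ℂ) :=
    continuous_pi fun j => continuous_regRow (hf j)
  exact Complex.continuous_re.comp (continuous_const.mul h1.matrix_det)

lemma regTorus_perm (f : Fin (n + 1) → (Fin n → ℝ) → ℂ) (σ : Equiv.Perm (Fin (n + 1)))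
    (h : regTorus (f ∘ σ) = 0) : regTorus f = 0 := by
  have key : ∀ x : Fin (n + 1) → ℝ,
      ((-Complex.I) ^ n * Matrix.det (Matrix.of fun j => regRow ((f ∘ σ) j) x)).re =
      (Equiv.Perm.sign σ : ℝ) *
        ((-Complex.I) ^ n * Matrix.det (Matrix.of fun j => regRow (f j) x)).re := by
    intro x
    have h1 := Matrix.det_permute σ (Matrix.of fun j => regRow (f j) x)
    have h2 : (Matrix.of fun j => regRow ((f ∘ σ) j) x) =
        (Matrix.of fun j => regRow (f j) x).submatrix σ id := rfl
    rw [h2, h1]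
    have h3 : (((Equiv.Perm.sign σ : ℤ) : ℂ)) = (((Equiv.Perm.sign σ : ℤ) : ℝ) : ℂ) := by
      push_cast
      rfl
    rw [mul_left_comm, h3, Complex.re_ofReal_mul]
  unfold regTorus at h ⊢
  simp only [key] at h
  rw [integral_const_mul] at h
  have h4 : ((Equiv.Perm.sign σ : ℤ) : ℝ) ≠ 0 := by
    exact_mod_cast (Equiv.Perm.sign σ).ne_zero
  exact (mul_eq_zero.1 h).resolve_left h4

lemma regTorus_steinberg {f : Fin (n + 1) → (Fin n → ℝ) → ℂ} (hf : ∀ j, TU (f j))
    {i j : Fin (n + 1)} (hij : i ≠ j) (h : ∀ θ, f i θ + f j θ = 1) : regTorus f = 0 := by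
  obtain _ | k := n
  · exact absurd (Fin.ext (by omega)) hij
  · set τ : Equiv.Perm (Fin (k + 2)) := Equiv.swap 0 i with hτ
    have hj0 : τ j ≠ 0 := by
      intro h0
      have h1 : j = τ 0 := by
        have := congrArg τ h0
        rwa [hτ, Equiv.swap_apply_self] at this
      rw [hτ, Equiv.swap_apply_left] at h1
      exact hij h1.symm
    set σ : Equiv.Perm (Fin (k + 2)) := (Equiv.swap 1 (τ j)).trans τ with hσ
    have hσ0 : σ 0 = i := by
      rw [hσ, Equiv.trans_apply, Equiv.swap_apply_of_ne_of_ne (by simp) (Ne.symm hj0), hτ,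
        Equiv.swap_apply_left]
    have hσ1 : σ 1 = j := by
      rw [hσ, Equiv.trans_apply, Equiv.swap_apply_left, hτ, Equiv.swap_apply_self]
    refine regTorus_perm f σ (regTorus_steinberg01 (fun j => hf (σ j)) ?_)
    intro θ
    simp only [Function.comp, hσ0, hσ1]
    exact h θ

/-- the function underlying a unit of the torus ring -/
def tval (u : (TorusRing n)ˣ) : (Fin n → ℝ) → ℂ := ((u : TorusRing n) : (Fin n → ℝ) → ℂ)

lemma tval_mul (u v : (TorusRing n)ˣ) : tval (u * v) = tval u * tval v := rfl

lemma TU_tval (u : (TorusRing n)ˣ) : TU (tval u) := TU.of_unit u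

lemma regTorus_add (f : Fin (n + 1) → (TorusRing n)ˣ) (i : Fin (n + 1))
    (u v : (TorusRing n)ˣ) :
    regTorus (fun j => tval (Function.update f i (u * v) j)) =
      regTorus (fun j => tval (Function.update f i u j)) +
      regTorus (fun j => tval (Function.update f i v j)) := by
  unfold regTorus
  have hi : ∀ w : (TorusRing n)ˣ, IntegrableOn (fun x : Fin (n + 1) → ℝ =>
      ((-Complex.I) ^ n * Matrix.det
        (Matrix.of fun j => regRow (tval (Function.update f i w j)) x)).re)
      (Icc 0 (topB n)) := fun w =>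
    (continuous_detRow fun j => TU_tval _).continuousOn.integrableOn_compact isCompact_Icc
  rw [← integral_add (hi u) (hi v)]
  refine integral_congr_ae (Filter.Eventually.of_forall fun x => ?_)
  have hrow : ∀ w : (TorusRing n)ˣ, (fun j => regRow (tval (Function.update f i w j)) x) =
      Function.update (fun j => regRow (tval (f j)) x) i (regRow (tval w) x) := by
    intro w
    funext j
    by_cases hj : j = i
    · subst hj
      simp
    · simp [hj]
  have hdet : Matrix.det (Matrix.of fun j => regRow (tval (Function.update f i (u * v) j)) x) =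
      Matrix.det (Matrix.of fun j => regRow (tval (Function.update f i u j)) x) +
      Matrix.det (Matrix.of fun j => regRow (tval (Function.update f i v j)) x) := by
    rw [hrow, hrow, hrow, tval_mul, regRow_mul (TU_tval u) (TU_tval v)]
    exact (Matrix.detRowAlternating (R := ℂ) (n := Fin (n + 1))).map_update_add _ i _ _
  simp only [hdet, mul_add, Complex.add_re]

/-- The regulator over the torus is a well defined functional on Milnor K-theory. -/
theorem exists_regTorus (n : ℕ) : ∃ R : KMQ (TorusRing n) (n + 1) →ₗ[ℚ] ℝ,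
    ∀ f : Fin (n + 1) → (TorusRing n)ˣ,
      R (symM f) = regTorus (fun j => ((f j : TorusRing n) : (Fin n → ℝ) → ℂ)) := by
  obtain ⟨T, hT⟩ := KMQ.exists_lift (R := TorusRing n) (d := n + 1)
    (fun f => regTorus (fun j => tval (f j))) (fun f i u v => regTorus_add f i u v)
    (fun f i j hij h => regTorus_steinberg (fun j => TU_tval _) hij fun θ =>
      congrFun (congrArg Subtype.val h) θ)
  exact ⟨T, hT⟩

end exist

end Pool.Agent.Helper11
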