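import Mathlib
import Pool.Agent.Helper11.TorusEval
import Pool.Agent.Helper11.BranchD
import Pool.Agent.Helper11.TorusReg4

/-! Evaluation of the regulators of the grid symbols over the tori. -/

namespace Pool.Agent.Helper11

open MeasureTheory Set Metric Topology

section circle

lemma circle_mean_zero {F : ℂ → ℂ} {r ρ : ℝ} (hF : DifferentiableOn ℂ F (ball 0 r))
    (h0 : F 0 = 0) (hρ : |ρ| < r) :
    ∫ α in Icc 0 (2 * Real.pi), F (circleMap 0 ρ α) = 0 := by
  have hsub : closedBall (0 : ℂ) |ρ| ⊆ ball 0 r := closedBall_subset_ball hρ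
  have h1 : DiffContOnCl ℂ F (ball 0 |ρ|) := by
    refine DifferentiableOn.diffContOnCl (hF.mono ?_)
    exact closure_ball_subset_closedBall.trans hsub
  have h2 := h1.circleAverage
  rw [Real.circleAverage_def, h0] at h2
  rw [integral_Icc_eq_integral_Ioc, ← intervalIntegral.integral_of_le (by positivity)]
  have hpi : (2 * Real.pi)⁻¹ ≠ 0 := by positivity
  exact (smul_eq_zero.1 h2).resolve_left hpi

lemma circle_mem {r ρ : ℝ} (hρ : |ρ| < r) (α : ℝ) : circleMap 0 ρ α ∈ ball (0 : ℂ) r := by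
  rw [mem_ball_zero_iff, norm_circleMap_zero]
  exact hρ

lemma circle_cont {F : ℂ → ℂ} {r ρ : ℝ} (hF : DifferentiableOn ℂ F (ball 0 r)) (hρ : |ρ| < r) :
    Continuous fun α => F (circleMap 0 ρ α) := by
  rw [continuous_iff_continuousAt]
  intro α
  have h1 : ContinuousAt F (circleMap 0 ρ α) :=
    (hF.differentiableAt (isOpen_ball.mem_nhds (circle_mem hρ α))).continuousAt
  exact h1.comp (f := circleMap 0 ρ) (continuous_circleMap 0 ρ).continuousAt

/-- the function `re F + i t im F` on the circle -/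
noncomputable def stretch (t : ℝ) (w : ℂ) : ℂ := ⟨w.re, t * w.im⟩

lemma stretch_eq (t : ℝ) (w : ℂ) :
    stretch t w = ((w.re : ℝ) : ℂ) + (t : ℂ) * ((w.im : ℝ) : ℂ) * Complex.I := by
  unfold stretch
  rw [Complex.mk_eq_add_mul_I]
  push_cast
  ring

lemma norm_stretch_le {t : ℝ} (ht : t ∈ Icc (0 : ℝ) 1) (w : ℂ) : ‖stretch t w‖ ≤ ‖w‖ := by
  rw [← sq_le_sq₀ (norm_nonneg _) (norm_nonneg _), ← Complex.normSq_eq_norm_sq,
    ← Complex.normSq_eq_norm_sq, Complex.normSq_apply, Complex.normSq_apply]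
  simp only [stretch]
  have h1 : t * w.im * (t * w.im) = t ^ 2 * (w.im * w.im) := by ring
  have h2 : t ^ 2 ≤ 1 := pow_le_one₀ ht.1 ht.2
  rw [h1]
  nlinarith [mul_self_nonneg w.im]

lemma continuous_stretch {X : Type*} [TopologicalSpace X] {t : X → ℝ} {w : X → ℂ}
    (ht : Continuous t) (hw : Continuous w) : Continuous fun x => stretch (t x) (w x) := by
  simp only [stretch_eq]
  exact (Complex.continuous_ofReal.comp (Complex.continuous_re.comp hw)).add
    (((Complex.continuous_ofReal.comp ht).mul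
      (Complex.continuous_ofReal.comp (Complex.continuous_im.comp hw))).mul continuous_const)

lemma integral_stretch {g : ℝ → ℂ} (hg : Continuous g) (t : ℝ)
    (h0 : ∫ α in Icc 0 (2 * Real.pi), g α = 0) :
    ∫ α in Icc 0 (2 * Real.pi), stretch t (g α) = 0 := by
  have hi : IntegrableOn g (Icc 0 (2 * Real.pi)) :=
    hg.continuousOn.integrableOn_compact isCompact_Icc
  have hre := integral_re hi
  have him := integral_im hi
  simp only [RCLike.re_eq_complex_re, RCLike.im_eq_complex_im] at hre him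
  rw [h0] at hre him
  simp only [stretch_eq]
  rw [integral_add, integral_mul_const, integral_const_mul, integral_complex_ofReal,
    integral_complex_ofReal, hre, him]
  · simp
  · exact (Complex.continuous_ofReal.comp (Complex.continuous_re.comp hg)).continuousOn.integrableOn_compact
      isCompact_Icc
  · exact ((continuous_const.mul
      (Complex.continuous_ofReal.comp (Complex.continuous_im.comp hg))).mul
        continuous_const).continuousOn.integrableOn_compact isCompact_Icc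

lemma integral_re_zero {g : ℝ → ℂ} (hg : Continuous g)
    (h0 : ∫ α in Icc 0 (2 * Real.pi), g α = 0) :
    ∫ α in Icc 0 (2 * Real.pi), (((g α).re : ℝ) : ℂ) = 0 := by
  have hi : IntegrableOn g (Icc 0 (2 * Real.pi)) :=
    hg.continuousOn.integrableOn_compact isCompact_Icc
  have hre := integral_re hi
  simp only [RCLike.re_eq_complex_re] at hre
  rw [h0] at hre
  rw [integral_complex_ofReal, hre]
  simp

end circle

section grid

variable {n : ℕ}

/-- the radii -/
def rad (n : ℕ) (ρ R : ℝ) : Fin (n + 1) → ℝ := Fin.cons ρ fun _ => R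

/-- the angles -/
def ang (θ : Fin n → ℝ) : Fin (n + 1) → ℝ := Fin.cons (-∑ k, θ k) θ

/-- the points of the circles -/
noncomputable def zf (ρ R : ℝ) (m : Fin (n + 1)) (θ : Fin n → ℝ) : ℂ :=
  circleMap 0 (rad n ρ R m) (ang θ m)

lemma contDiff_ang (m : Fin (n + 1)) {k : WithTop ℕ∞} :
    ContDiff ℝ k fun θ : Fin n → ℝ => ang θ m := by
  unfold ang
  refine Fin.cases ?_ (fun l => ?_) m
  · simp only [Fin.cons_zero]
    exact (ContDiff.sum fun i _ => contDiff_apply ℝ ℝ i).neg
  · simp only [Fin.cons_succ]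
    exact contDiff_apply ℝ ℝ l

lemma contDiff_zf (ρ R : ℝ) (m : Fin (n + 1)) {k : WithTop ℕ∞} :
    ContDiff ℝ k (zf (n := n) ρ R m) :=
  (contDiff_circleMap 0 _).comp (contDiff_ang m)

lemma zf_per (ρ R : ℝ) (m : Fin (n + 1)) (l : Fin n) (θ : Fin n → ℝ) :
    zf ρ R m (θ + Pi.single l (2 * Real.pi)) = zf ρ R m θ := by
  unfold zf ang
  refine Fin.cases ?_ (fun k => ?_) m
  · simp only [Fin.cons_zero, Pi.add_apply, Finset.sum_add_distrib]
    have h1 : ∑ i : Fin n, (Pi.single l (2 * Real.pi) : Fin n → ℝ) i = 2 * Real.pi := by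
      simp
    have h2 : -(∑ i, θ i + 2 * Real.pi) = -(∑ i, θ i) - 2 * Real.pi := by ring
    rw [h1, h2]
    exact (periodic_circleMap 0 _).sub_eq _
  · simp only [Fin.cons_succ, Pi.add_apply]
    by_cases h : k = l
    · subst h
      rw [Pi.single_eq_same]
      exact periodic_circleMap 0 _ _
    · rw [Pi.single_eq_of_ne h, add_zero]

/-- the velocity of the `m`-th angle along the `l`-th coordinate -/
def vel (m : Fin (n + 1)) (l : Fin n) : ℝ := Fin.cons (α := fun _ => ℝ) (-1) (Pi.single l 1) m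

lemma ang_line (θ : Fin n → ℝ) (l : Fin n) (s : ℝ) (m : Fin (n + 1)) :
    ang (θ + s • Pi.single l (1 : ℝ)) m = ang θ m + s * vel m l := by
  unfold ang vel
  refine Fin.cases ?_ (fun k => ?_) m
  · simp only [Fin.cons_zero, Pi.add_apply, Pi.smul_apply, smul_eq_mul, Finset.sum_add_distrib,
      ← Finset.mul_sum]
    have h1 : ∑ i : Fin n, (Pi.single l (1 : ℝ) : Fin n → ℝ) i = 1 := by
      simp
    rw [h1]
    ring
  · simp only [Fin.cons_succ, Pi.add_apply, Pi.smul_apply, smul_eq_mul]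

lemma zf_line (ρ R : ℝ) (θ : Fin n → ℝ) (l : Fin n) (m : Fin (n + 1)) :
    HasDerivAt (fun s : ℝ => zf ρ R m (θ + s • Pi.single l (1 : ℝ)))
      ((vel m l : ℂ) * (Complex.I * zf ρ R m θ)) 0 := by
  unfold zf
  simp only [ang_line]
  have h1 : HasDerivAt (fun s : ℝ => ang θ m + s * vel m l) (vel m l) 0 := by
    simpa using ((hasDerivAt_id (0 : ℝ)).mul_const (vel m l)).const_add (ang θ m)
  have h2 : HasDerivAt (circleMap 0 (rad n ρ R m))
      (circleMap 0 (rad n ρ R m) (ang θ m) * Complex.I) (ang θ m + 0 * vel m l) := by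
    rw [zero_mul, add_zero]
    exact hasDerivAt_circleMap 0 _ _
  have h3 := h2.scomp (0 : ℝ) h1
  refine h3.congr_deriv ?_
  rw [Complex.real_smul]
  ring

variable {ρ R : ℝ} (hR : 0 < R) (hR' : R < 13 / 125) (hρ : |ρ| = R)

include hρ hR in
lemma abs_rad (m : Fin (n + 1)) : |rad n ρ R m| = R := by
  unfold rad
  refine Fin.cases ?_ (fun k => ?_) m
  · simpa using hρ
  · simpa using abs_of_pos hR

include hR' hρ hR in
lemma zf_mem (m : Fin (n + 1)) (θ : Fin n → ℝ) : zf ρ R m θ ∈ ball (0 : ℂ) (13 / 125) :=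
  circle_mem (by rw [abs_rad hR hρ]; exact hR') _

include hR' hρ hR in
lemma norm_zf (m : Fin (n + 1)) (θ : Fin n → ℝ) : ‖zf ρ R m θ‖ = R := by
  unfold zf
  rw [norm_circleMap_zero, abs_rad hR hρ]

include hR' hρ hR in
lemma zf_ne (m : Fin (n + 1)) (θ : Fin n → ℝ) : zf ρ R m θ ≠ 0 := by
  rw [← norm_pos_iff, norm_zf hR hR' hρ]
  exact hR

variable {ι : Fin (n + 1) → Type*} [∀ m, Fintype (ι m)] [∀ m, DecidableEq (ι m)]
  {a : ∀ m, ι m → ℤ} {J : ∀ m, ι m} (B : ∀ m, BranchData (a m) (J m))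

/-- the coordinate functions on the torus -/
noncomputable def xf (ρ R : ℝ) (m : Fin (n + 1)) (θ : Fin n → ℝ) : ℂ := (B m).X (zf ρ R m θ)

include hR' hρ hR in
lemma xf_smooth (m : Fin (n + 1)) : ContDiff ℝ 2 (xf B ρ R m) := by
  rw [contDiff_iff_contDiffAt]
  intro θ
  have h1 : ContDiffAt ℂ 2 (B m).X (zf ρ R m θ) :=
    ((B m).diffX.analyticOnNhd isOpen_ball _ (zf_mem hR hR' hρ m θ)).contDiffAt
  exact (h1.restrict_scalars ℝ).comp θ (contDiff_zf ρ R m).contDiffAt

lemma xf_per (m : Fin (n + 1)) (l : Fin n) (θ : Fin n → ℝ) :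
    xf B ρ R m (θ + Pi.single l (2 * Real.pi)) = xf B ρ R m θ := by
  unfold xf
  rw [zf_per]

/-- the torus function `x_m - a` -/
noncomputable def ff (ρ R : ℝ) (m : Fin (n + 1)) (i : ι m) (θ : Fin n → ℝ) : ℂ :=
  xf B ρ R m θ - (a m i : ℂ)

include hR' hρ hR in
lemma TU_ff (m : Fin (n + 1)) (i : ι m) : TU (ff B ρ R m i) where
  smooth := (xf_smooth hR hR' hρ B m).sub contDiff_const
  per := by
    intro l θ
    unfold ff
    rw [xf_per]
  ne := fun θ => (B m).ne _ (zf_mem hR hR' hρ m θ) (zf_ne hR hR' hρ m θ) i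

/-- the logarithmic derivative in the circle variable -/
noncomputable def Df (ρ R : ℝ) (m : Fin (n + 1)) (i : ι m) (θ : Fin n → ℝ) : ℂ :=
  (if i = J m then 1 else 0) + (B m).G i (zf ρ R m θ)

include hR' hρ hR in
lemma fderiv_ff (m : Fin (n + 1)) (i : ι m) (θ : Fin n → ℝ) (l : Fin n) :
    fderiv ℝ (ff B ρ R m i) θ (Pi.single l 1) / ff B ρ R m i θ =
      (vel m l : ℂ) * (Complex.I * Df B ρ R m i θ) := by
  have hz := zf_mem hR hR' hρ m θ
  have hX : HasDerivAt (B m).X (deriv (B m).X (zf ρ R m θ))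
      (zf ρ R m (θ + (0 : ℝ) • Pi.single l (1 : ℝ))) := by
    rw [zero_smul, add_zero]
    exact ((B m).diffX.differentiableAt (isOpen_ball.mem_nhds hz)).hasDerivAt
  have h1 := (hX.comp (0 : ℝ) (zf_line ρ R θ l m)).sub_const (a m i : ℂ)
  have hd : DifferentiableAt ℝ (ff B ρ R m i) θ :=
    (TU_ff hR hR' hρ B m i).smooth.differentiable (by norm_num) θ
  have h2 := (hasDerivAt_line hd (Pi.single l 1)).unique h1
  have h3 := (B m).derX _ hz (zf_ne hR hR' hρ m θ) i
  unfold Df
  rw [h2, ← h3]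
  unfold ff xf
  ring

/-- the value `V` -/
noncomputable def Vf (ρ R : ℝ) (m : Fin (n + 1)) (i : ι m) (x : Fin (n + 1) → ℝ) : ℂ :=
  stretch (x 0) (Df B ρ R m i (Fin.tail x))

include hR' hρ hR in
lemma regMat_eq (i : ∀ m, ι m) (x : Fin (n + 1) → ℝ) :
    (Matrix.of fun m => regRow (ff B ρ R m (i m)) x) =
      arrow ((Real.log ‖ff B ρ R 0 (i 0) (Fin.tail x)‖ : ℝ) : ℂ)
        (fun _ => -(Complex.I * Vf B ρ R 0 (i 0) x))
        (fun k : Fin n => ((Real.log ‖ff B ρ R k.succ (i k.succ) (Fin.tail x)‖ : ℝ) : ℂ))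
        (fun k => Complex.I * Vf B ρ R k.succ (i k.succ) x) := by
  have key : ∀ m (l : Fin n), (⟨x 0 * (fderiv ℝ (ff B ρ R m (i m)) (Fin.tail x) (Pi.single l 1) /
      ff B ρ R m (i m) (Fin.tail x)).re, (fderiv ℝ (ff B ρ R m (i m)) (Fin.tail x)
        (Pi.single l 1) / ff B ρ R m (i m) (Fin.tail x)).im⟩ : ℂ) =
      (vel m l : ℂ) * (Complex.I * Vf B ρ R m (i m) x) := by
    intro m l
    rw [fderiv_ff hR hR' hρ B]
    unfold Vf stretch
    apply Complex.ext
    · simp
      ring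
    · simp
  ext m c
  unfold arrow
  simp only [Matrix.of_apply, regRow]
  refine Fin.cases ?_ (fun k => ?_) m
  · simp only [Fin.cons_zero]
    refine Fin.cases ?_ (fun l => ?_) c
    · simp
    · simp only [Fin.cons_succ]
      rw [key]
      simp [vel]
  · simp only [Fin.cons_succ]
    refine Fin.cases ?_ (fun l => ?_) c
    · simp
    · simp only [Fin.cons_succ]
      rw [key]
      simp only [vel, Fin.cons_succ]
      by_cases h : k = l
      · subst h
        simp
      · rw [Pi.single_eq_of_ne h, Pi.single_eq_of_ne (Ne.symm h)]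
        simp

end grid

end Pool.Agent.Helper11
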