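import Mathlib
import Pool.Agent.Helper11.Stokes

/-! A scaling function on the torus, solution of `h ∏ₖ (1 + Aₖ h + Tₖ) = 1`. -/

namespace Pool.Agent.Helper11

open Metric Topology

/-- comparison of products -/
lemma prod_lip {κ : Type*} (S : Finset κ) (a b : κ → ℂ) {q : ℝ} (hq : 1 ≤ q)
    (ha : ∀ k ∈ S, ‖a k‖ ≤ q) (hb : ∀ k ∈ S, ‖b k‖ ≤ q) :
    ‖∏ k ∈ S, a k - ∏ k ∈ S, b k‖ ≤ q ^ S.card * ∑ k ∈ S, ‖a k - b k‖ ∧
      ‖∏ k ∈ S, a k‖ ≤ q ^ S.card ∧ ‖∏ k ∈ S, b k‖ ≤ q ^ S.card := by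
  classical
  have hq0 : 0 ≤ q := by linarith
  induction S using Finset.induction_on with
  | empty => simp
  | insert k S hk ih =>
    obtain ⟨h1, h2, h3⟩ := ih (fun l hl => ha l (Finset.mem_insert_of_mem hl))
      (fun l hl => hb l (Finset.mem_insert_of_mem hl))
    have hak := ha k (Finset.mem_insert_self _ _)
    have hbk := hb k (Finset.mem_insert_self _ _)
    rw [Finset.prod_insert hk, Finset.prod_insert hk, Finset.card_insert_of_notMem hk,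
      Finset.sum_insert hk, pow_succ]
    have hsum : 0 ≤ ∑ l ∈ S, ‖a l - b l‖ := Finset.sum_nonneg fun _ _ => norm_nonneg _
    have hqS : 1 ≤ q ^ S.card := one_le_pow₀ hq
    refine ⟨?_, ?_, ?_⟩
    · have e : a k * ∏ l ∈ S, a l - b k * ∏ l ∈ S, b l =
          (a k - b k) * ∏ l ∈ S, a l + b k * (∏ l ∈ S, a l - ∏ l ∈ S, b l) := by ring
      rw [e]
      calc ‖(a k - b k) * ∏ l ∈ S, a l + b k * (∏ l ∈ S, a l - ∏ l ∈ S, b l)‖
          ≤ ‖a k - b k‖ * ‖∏ l ∈ S, a l‖ + ‖b k‖ * ‖∏ l ∈ S, a l - ∏ l ∈ S, b l‖ := by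
            refine (norm_add_le _ _).trans ?_
            rw [norm_mul, norm_mul]
        _ ≤ ‖a k - b k‖ * q ^ S.card + q * (q ^ S.card * ∑ l ∈ S, ‖a l - b l‖) :=
            add_le_add (mul_le_mul_of_nonneg_left h2 (norm_nonneg _))
              (mul_le_mul hbk h1 (norm_nonneg _) hq0)
        _ ≤ q ^ S.card * q * (‖a k - b k‖ + ∑ l ∈ S, ‖a l - b l‖) := by
            have : ‖a k - b k‖ * q ^ S.card ≤ q ^ S.card * q * ‖a k - b k‖ := by
              have h5 : q ^ S.card * 1 ≤ q ^ S.card * q :=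
                mul_le_mul_of_nonneg_left hq (by positivity)
              nlinarith [norm_nonneg (a k - b k)]
            nlinarith
    · rw [norm_mul, mul_comm]
      exact mul_le_mul h2 hak (norm_nonneg _) (by positivity)
    · rw [norm_mul, mul_comm]
      exact mul_le_mul h3 hbk (norm_nonneg _) (by positivity)

/-- inverses of numbers close to `1` -/
lemma inv_one_add_norm {w : ℂ} {δ : ℝ} (hw : ‖w‖ ≤ δ) (hδ : δ ≤ 1 / 4) :
    ‖(1 + w)⁻¹‖ ≤ 1 + 2 * δ ∧ 1 + w ≠ 0 := by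
  have h0 : 0 ≤ δ := (norm_nonneg _).trans hw
  have h1 : 1 - δ ≤ ‖1 + w‖ := by
    have h2 := norm_sub_norm_le (1 : ℂ) (-w)
    rw [norm_neg, norm_one, sub_neg_eq_add] at h2
    linarith
  have hpos : 0 < 1 - δ := by linarith
  refine ⟨?_, ?_⟩
  · rw [norm_inv]
    calc ‖1 + w‖⁻¹ ≤ (1 - δ)⁻¹ := inv_anti₀ hpos h1
      _ ≤ 1 + 2 * δ := by
        rw [inv_le_iff_one_le_mul₀ hpos]
        nlinarith
  · intro h
    rw [h, norm_zero] at h1
    linarith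

lemma inv_one_add_sub {w w' : ℂ} {δ : ℝ} (hw : ‖w‖ ≤ δ) (hw' : ‖w'‖ ≤ δ) (hδ : δ ≤ 1 / 4) :
    ‖(1 + w)⁻¹ - (1 + w')⁻¹‖ ≤ 4 * ‖w - w'‖ := by
  obtain ⟨h1, h2⟩ := inv_one_add_norm hw hδ
  obtain ⟨h3, h4⟩ := inv_one_add_norm hw' hδ
  have h0 : 0 ≤ δ := (norm_nonneg _).trans hw
  have e : (1 + w)⁻¹ - (1 + w')⁻¹ = (1 + w)⁻¹ * (1 + w')⁻¹ * (w' - w) := by
    field_simp
    ring
  rw [e, norm_mul, norm_mul, norm_sub_rev]
  refine mul_le_mul_of_nonneg_right ?_ (norm_nonneg _)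
  calc ‖(1 + w)⁻¹‖ * ‖(1 + w')⁻¹‖ ≤ (1 + 2 * δ) * (1 + 2 * δ) :=
        mul_le_mul h1 h3 (norm_nonneg _) (by linarith)
    _ ≤ 4 := by nlinarith

theorem exists_scale {n : ℕ} {κ : Type*} (S : Finset κ) (A T : κ → (Fin n → ℝ) → ℂ) {η : ℝ}
    (hη0 : 0 ≤ η) (hη : η ≤ 1 / 100) (hM : 100 * S.card * η ≤ 1)
    (hA : ∀ k ∈ S, ContDiff ℝ 2 (A k)) (hT : ∀ k ∈ S, ContDiff ℝ 2 (T k))
    (hAb : ∀ k ∈ S, ∀ θ, ‖A k θ‖ ≤ η) (hTb : ∀ k ∈ S, ∀ θ, ‖T k θ‖ ≤ η)
    (hAl : ∀ k ∈ S, ∀ θ (j : Fin n) (s : ℝ), ‖A k (θ + Pi.single j s) - A k θ‖ ≤ η * |s|)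
    (hTl : ∀ k ∈ S, ∀ θ (j : Fin n) (s : ℝ), ‖T k (θ + Pi.single j s) - T k θ‖ ≤ η * |s|)
    (hAp : ∀ k ∈ S, ∀ (m : Fin n) θ, A k (θ + Pi.single m (2 * Real.pi)) = A k θ)
    (hTp : ∀ k ∈ S, ∀ (m : Fin n) θ, T k (θ + Pi.single m (2 * Real.pi)) = T k θ) :
    ∃ h : (Fin n → ℝ) → ℂ, ContDiff ℝ 2 h ∧
      (∀ (m : Fin n) θ, h (θ + Pi.single m (2 * Real.pi)) = h θ) ∧
      (∀ θ, ‖h θ - 1‖ ≤ 20 * S.card * η) ∧
      (∀ θ (j : Fin n) (s : ℝ), ‖h (θ + Pi.single j s) - h θ‖ ≤ 27 * S.card * η * |s|) ∧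
      ∀ θ, h θ * ∏ k ∈ S, (1 + A k θ * h θ + T k θ) = 1 := by
  set M : ℝ := (S.card : ℝ) with hMdef
  have hM0 : 0 ≤ M := Nat.cast_nonneg _
  have hMη : M * η ≤ 1 / 100 := by linarith
  have hMη0 : 0 ≤ M * η := by positivity
  set δ : ℝ := 5 / 2 * η with hδ
  have hδ0 : 0 ≤ δ := by positivity
  have hδ4 : δ ≤ 1 / 4 := by
    rw [hδ]
    linarith
  have hq1 : (1 : ℝ) ≤ 1 + 2 * δ := by linarith
  have hpow : (1 + 2 * δ) ^ S.card ≤ 2 := by
    have h1 : 1 + 2 * δ ≤ Real.exp (2 * δ) := by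
      have := Real.add_one_le_exp (2 * δ)
      linarith
    calc (1 + 2 * δ) ^ S.card ≤ (Real.exp (2 * δ)) ^ S.card :=
          pow_le_pow_left₀ (by linarith) h1 _
      _ = Real.exp (M * (2 * δ)) := by rw [← Real.exp_nat_mul]
      _ ≤ Real.exp (1 / 2) := by
        refine Real.exp_le_exp.2 ?_
        rw [hδ]
        nlinarith
      _ ≤ 2 := by
        have h2 := Real.exp_one_lt_d9
        have h3 : Real.exp (1 / 2) ^ 2 = Real.exp 1 := by
          rw [← Real.exp_nat_mul]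
          norm_num
        have h4 := Real.exp_pos (1 / 2)
        nlinarith
  set w : κ → (Fin n → ℝ) → ℂ → ℂ := fun k θ v => A k θ * v + T k θ with hw
  have hwb : ∀ k ∈ S, ∀ θ v, ‖v - 1‖ ≤ 1 / 2 → ‖w k θ v‖ ≤ δ := by
    intro k hk θ v hv
    have hv' : ‖v‖ ≤ 3 / 2 := by
      calc ‖v‖ = ‖(v - 1) + 1‖ := by rw [sub_add_cancel]
        _ ≤ ‖v - 1‖ + ‖(1 : ℂ)‖ := norm_add_le _ _
        _ ≤ 3 / 2 := by
          rw [norm_one]
          linarith
    calc ‖w k θ v‖ ≤ ‖A k θ‖ * ‖v‖ + ‖T k θ‖ := by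
          refine (norm_add_le _ _).trans ?_
          rw [norm_mul]
      _ ≤ η * (3 / 2) + η := add_le_add (mul_le_mul (hAb k hk θ) hv' (norm_nonneg _) hη0)
          (hTb k hk θ)
      _ = δ := by
        rw [hδ]
        ring
  set Ψ : (Fin n → ℝ) → ℂ → ℂ := fun θ v => ∏ k ∈ S, (1 + w k θ v)⁻¹ with hΨ
  -- general Lipschitz estimate
  have hgen : ∀ θ v θ' v', ‖v - 1‖ ≤ 1 / 2 → ‖v' - 1‖ ≤ 1 / 2 →
      ‖Ψ θ v - Ψ θ' v'‖ ≤ 8 * ∑ k ∈ S, ‖w k θ v - w k θ' v'‖ := by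
    intro θ v θ' v' hv hv'
    have h1 := (prod_lip S (fun k => (1 + w k θ v)⁻¹) (fun k => (1 + w k θ' v')⁻¹) hq1
      (fun k hk => (inv_one_add_norm (hwb k hk θ v hv) hδ4).1)
      (fun k hk => (inv_one_add_norm (hwb k hk θ' v' hv') hδ4).1)).1
    refine h1.trans ?_
    have h2 : ∑ k ∈ S, ‖(1 + w k θ v)⁻¹ - (1 + w k θ' v')⁻¹‖ ≤
        4 * ∑ k ∈ S, ‖w k θ v - w k θ' v'‖ := by
      rw [Finset.mul_sum]
      exact Finset.sum_le_sum fun k hk =>
        inv_one_add_sub (hwb k hk θ v hv) (hwb k hk θ' v' hv') hδ4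
    have h3 : 0 ≤ ∑ k ∈ S, ‖(1 + w k θ v)⁻¹ - (1 + w k θ' v')⁻¹‖ :=
      Finset.sum_nonneg fun _ _ => norm_nonneg _
    nlinarith
  have hnear : ∀ θ v, ‖v - 1‖ ≤ 1 / 2 → ‖Ψ θ v - 1‖ ≤ 20 * M * η := by
    intro θ v hv
    have h1 := (prod_lip S (fun k => (1 + w k θ v)⁻¹) (fun _ => 1) hq1
      (fun k hk => (inv_one_add_norm (hwb k hk θ v hv) hδ4).1)
      (fun k hk => by
        rw [norm_one]
        exact hq1)).1
    rw [Finset.prod_const_one] at h1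
    refine h1.trans ?_
    have h2 : ∑ k ∈ S, ‖(1 + w k θ v)⁻¹ - 1‖ ≤ ∑ _k ∈ S, 4 * δ := by
      refine Finset.sum_le_sum fun k hk => ?_
      have h3 := inv_one_add_sub (w' := 0) (hwb k hk θ v hv) (by rwa [norm_zero]) hδ4
      rw [add_zero, inv_one, sub_zero] at h3
      linarith [hwb k hk θ v hv]
    rw [Finset.sum_const, nsmul_eq_mul] at h2
    have h3 : 0 ≤ ∑ k ∈ S, ‖(1 + w k θ v)⁻¹ - 1‖ := Finset.sum_nonneg fun _ _ => norm_nonneg _
    have h4 : (S.card : ℝ) * (4 * δ) = 10 * M * η := by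
      rw [hδ]
      ring
    rw [h4] at h2
    nlinarith
  have hlip : ∀ θ v v', ‖v - 1‖ ≤ 1 / 2 → ‖v' - 1‖ ≤ 1 / 2 →
      ‖Ψ θ v - Ψ θ v'‖ ≤ 1 / 4 * ‖v - v'‖ := by
    intro θ v v' hv hv'
    refine (hgen θ v θ v' hv hv').trans ?_
    have h1 : ∑ k ∈ S, ‖w k θ v - w k θ v'‖ ≤ ∑ _k ∈ S, η * ‖v - v'‖ := by
      refine Finset.sum_le_sum fun k hk => ?_
      have e : w k θ v - w k θ v' = A k θ * (v - v') := by
        simp only [hw]
        ring
      rw [e, norm_mul]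
      exact mul_le_mul_of_nonneg_right (hAb k hk θ) (norm_nonneg _)
    rw [Finset.sum_const, nsmul_eq_mul] at h1
    have h2 := norm_nonneg (v - v')
    have h3 : M * η * ‖v - v'‖ ≤ 1 / 100 * ‖v - v'‖ := mul_le_mul_of_nonneg_right hMη h2
    nlinarith
  have hmaps : ∀ θ, Set.MapsTo (Ψ θ) (closedBall 1 (1 / 2)) (closedBall 1 (1 / 2)) := by
    intro θ v hv
    rw [mem_closedBall, dist_eq_norm] at hv ⊢
    have := hnear θ v hv
    nlinarith
  -- fixed points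
  have hfix : ∀ θ, ∃ v, ‖v - 1‖ ≤ 1 / 2 ∧ Ψ θ v = v := by
    intro θ
    have hcomplete : IsComplete (closedBall (1 : ℂ) (1 / 2)) := isClosed_closedBall.isComplete
    have hcontr : ContractingWith (1 / 4 : NNReal) ((hmaps θ).restrict (Ψ θ) _ _) := by
      refine ⟨by
        rw [← NNReal.coe_lt_coe]
        norm_num, LipschitzWith.of_dist_le_mul ?_⟩
      rintro ⟨v, hv⟩ ⟨v', hv'⟩
      rw [mem_closedBall, dist_eq_norm] at hv hv'
      rw [Subtype.dist_eq, Subtype.dist_eq, dist_eq_norm, dist_eq_norm]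
      simpa using hlip θ v v' hv hv'
    obtain ⟨v, hv, hv2, -⟩ := ContractingWith.exists_fixedPoint' hcomplete (hmaps θ) hcontr
      (mem_closedBall_self (by norm_num)) (edist_ne_top _ _)
    exact ⟨v, by rwa [mem_closedBall, dist_eq_norm] at hv, hv2⟩
  choose h hh1 hh2 using hfix
  have huniq : ∀ θ v, ‖v - 1‖ ≤ 1 / 2 → Ψ θ v = v → v = h θ := by
    intro θ v hv hv2
    have h1 := hlip θ v (h θ) hv (hh1 θ)
    rw [hv2, hh2] at h1
    have h2 : ‖v - h θ‖ = 0 := by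
      have := norm_nonneg (v - h θ)
      linarith
    exact sub_eq_zero.1 (norm_eq_zero.1 h2)
  have hper : ∀ (m : Fin n) θ, h (θ + Pi.single m (2 * Real.pi)) = h θ := by
    intro m θ
    refine huniq θ _ (hh1 _) ?_
    have h1 := hh2 (θ + Pi.single m (2 * Real.pi))
    simp only [hΨ, hw] at h1 ⊢
    conv_rhs => rw [← h1]
    refine Finset.prod_congr rfl fun k hk => ?_
    rw [hAp k hk, hTp k hk]
  -- Lipschitz estimate along the coordinates
  have hLip : ∀ θ (j : Fin n) (s : ℝ), ‖h (θ + Pi.single j s) - h θ‖ ≤ 27 * M * η * |s| := by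
    intro θ j s
    set θ' := θ + Pi.single j s with hθ'
    have h1 := hgen θ' (h θ') θ (h θ) (hh1 _) (hh1 _)
    rw [hh2, hh2] at h1
    have h2 : ∑ k ∈ S, ‖w k θ' (h θ') - w k θ (h θ)‖ ≤
        ∑ _k ∈ S, (5 / 2 * η * |s| + η * ‖h θ' - h θ‖) := by
      refine Finset.sum_le_sum fun k hk => ?_
      have e : w k θ' (h θ') - w k θ (h θ) = (A k θ' - A k θ) * h θ' +
          A k θ * (h θ' - h θ) + (T k θ' - T k θ) := by
        simp only [hw]
        ring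
      have hv' : ‖h θ'‖ ≤ 3 / 2 := by
        calc ‖h θ'‖ = ‖(h θ' - 1) + 1‖ := by rw [sub_add_cancel]
          _ ≤ ‖h θ' - 1‖ + ‖(1 : ℂ)‖ := norm_add_le _ _
          _ ≤ 3 / 2 := by
            rw [norm_one]
            linarith [hh1 θ']
      rw [e]
      calc ‖(A k θ' - A k θ) * h θ' + A k θ * (h θ' - h θ) + (T k θ' - T k θ)‖
          ≤ ‖A k θ' - A k θ‖ * ‖h θ'‖ + ‖A k θ‖ * ‖h θ' - h θ‖ + ‖T k θ' - T k θ‖ := by
            refine (norm_add_le _ _).trans (add_le_add_left ?_ _)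
            refine (norm_add_le _ _).trans ?_
            rw [norm_mul, norm_mul]
        _ ≤ η * |s| * (3 / 2) + η * ‖h θ' - h θ‖ + η * |s| := by
            refine add_le_add (add_le_add ?_ ?_) (hTl k hk θ j s)
            · exact mul_le_mul (hAl k hk θ j s) hv' (norm_nonneg _) (by positivity)
            · exact mul_le_mul_of_nonneg_right (hAb k hk θ) (norm_nonneg _)
        _ = _ := by ring
    rw [Finset.sum_const, nsmul_eq_mul] at h2
    have h3 := norm_nonneg (h θ' - h θ)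
    have h4 : M * η * ‖h θ' - h θ‖ ≤ 1 / 100 * ‖h θ' - h θ‖ := mul_le_mul_of_nonneg_right hMη h3
    have h5 : 0 ≤ M * η * |s| := by positivity
    nlinarith
  -- continuity
  have hwc : ∀ k ∈ S, ∀ v, Continuous fun θ => w k θ v := fun k hk v =>
    ((hA k hk).continuous.mul continuous_const).add (hT k hk).continuous
  have hcont : Continuous h := by
    rw [continuous_iff_continuousAt]
    intro θ
    rw [ContinuousAt, tendsto_iff_norm_sub_tendsto_zero]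
    have h1 : ∀ θ', ‖h θ' - h θ‖ ≤ 16 * ∑ k ∈ S, ‖w k θ' (h θ) - w k θ (h θ)‖ := by
      intro θ'
      have h2 := hlip θ' (h θ') (h θ) (hh1 _) (hh1 _)
      have h3 := hgen θ' (h θ) θ (h θ) (hh1 _) (hh1 _)
      rw [hh2] at h2 h3
      have h4 : ‖h θ' - h θ‖ ≤ ‖h θ' - Ψ θ' (h θ)‖ + ‖Ψ θ' (h θ) - h θ‖ := by
        have e : h θ' - h θ = (h θ' - Ψ θ' (h θ)) + (Ψ θ' (h θ) - h θ) := by ring
        conv_lhs => rw [e]
        exact norm_add_le _ _
      have h5 : 0 ≤ ∑ k ∈ S, ‖w k θ' (h θ) - w k θ (h θ)‖ :=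
        Finset.sum_nonneg fun _ _ => norm_nonneg _
      have h6 := norm_nonneg (h θ' - h θ)
      linarith
    refine squeeze_zero (fun _ => norm_nonneg _) h1 ?_
    have h2 : Continuous fun θ' => 16 * ∑ k ∈ S, ‖w k θ' (h θ) - w k θ (h θ)‖ := by
      refine continuous_const.mul ?_
      refine continuous_finsetSum _ fun k hk => ?_
      exact ((hwc k hk (h θ)).sub continuous_const).norm
    have h3 := h2.tendsto θ
    simpa using h3
  -- smoothness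
  have hsmooth : ContDiff ℝ 2 h := by
    rw [contDiff_iff_contDiffAt]
    intro θ
    set f : (Fin n → ℝ) × ℂ → ℂ := fun p => p.2 - Ψ p.1 p.2 with hf
    have cdf : ContDiffAt ℝ 2 f (θ, h θ) := by
      refine contDiffAt_snd.sub ?_
      simp only [hΨ]
      refine contDiffAt_prod fun k hk => ?_
      refine ContDiffAt.inv ?_ (inv_one_add_norm (hwb k hk θ (h θ) (hh1 θ)) hδ4).2
      have h1 : ContDiffAt ℝ 2 (fun p : (Fin n → ℝ) × ℂ => A k p.1) (θ, h θ) :=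
        ((hA k hk).comp contDiff_fst).contDiffAt
      have h2 : ContDiffAt ℝ 2 (fun p : (Fin n → ℝ) × ℂ => T k p.1) (θ, h θ) :=
        ((hT k hk).comp contDiff_fst).contDiffAt
      exact contDiffAt_const.add ((h1.mul contDiffAt_snd).add h2)
    have hderiv : HasFDerivAt f (fderiv ℝ f (θ, h θ)) (θ, h θ) :=
      (cdf.differentiableAt (by norm_num)).hasFDerivAt
    have hpart : HasFDerivAt (fun v : ℂ => f (θ, v))
        (fderiv ℝ f (θ, h θ) ∘L ContinuousLinearMap.inr ℝ (Fin n → ℝ) ℂ) (h θ) := by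
      have h1 : HasFDerivAt (fun v : ℂ => ((θ, v) : (Fin n → ℝ) × ℂ))
          (ContinuousLinearMap.inr ℝ (Fin n → ℝ) ℂ) (h θ) := hasFDerivAt_prodMk_right θ (h θ)
      exact HasFDerivAt.comp (h θ) hderiv h1
    have hPsi : HasFDerivAt (Ψ θ) (ContinuousLinearMap.id ℝ ℂ -
        fderiv ℝ f (θ, h θ) ∘L ContinuousLinearMap.inr ℝ (Fin n → ℝ) ℂ) (h θ) := by
      have h1 := (hasFDerivAt_id (𝕜 := ℝ) (h θ)).sub hpart
      refine h1.congr_of_eventuallyEq (Filter.Eventually.of_forall fun v => ?_)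
      simp [hf]
    have hlt : ‖h θ - 1‖ < 1 / 2 := by
      have h1 := hnear θ (h θ) (hh1 θ)
      rw [hh2] at h1
      nlinarith
    have hnorm : ‖ContinuousLinearMap.id ℝ ℂ -
        fderiv ℝ f (θ, h θ) ∘L ContinuousLinearMap.inr ℝ (Fin n → ℝ) ℂ‖ ≤ 1 / 4 := by
      refine hPsi.le_of_lip' (by norm_num) ?_
      have hc : Continuous fun v : ℂ => ‖v - 1‖ := (continuous_id.sub continuous_const).norm
      have : ∀ᶠ v in 𝓝 (h θ), ‖v - 1‖ < 1 / 2 := (hc.tendsto (h θ)).eventually (gt_mem_nhds hlt)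
      filter_upwards [this] with v hv
      exact hlip θ v (h θ) hv.le (hh1 θ)
    have if₂ : (fderiv ℝ f (θ, h θ) ∘L ContinuousLinearMap.inr ℝ (Fin n → ℝ) ℂ).IsInvertible := by
      set B := fderiv ℝ f (θ, h θ) ∘L ContinuousLinearMap.inr ℝ (Fin n → ℝ) ℂ with hB
      have h1 : IsUnit B := by
        have h2 := isUnit_one_sub_of_norm_lt_one (x := ContinuousLinearMap.id ℝ ℂ - B)
          (hnorm.trans_lt (by norm_num))
        have h3 : (1 : ℂ →L[ℝ] ℂ) - (ContinuousLinearMap.id ℝ ℂ - B) = B := by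
          ext1
          simp
        rwa [h3] at h2
      obtain ⟨u, hu⟩ := h1
      exact ⟨ContinuousLinearEquiv.ofUnit u, by rw [← hu]; rfl⟩
    have h1 := cdf.contDiffAt_implicitFunction (by norm_num) if₂
    refine h1.congr_of_eventuallyEq ?_
    have h2 := cdf.eventually_apply_eq_iff_implicitFunction (by norm_num) if₂
    have h3 : Filter.Tendsto (fun s => ((s, h s) : (Fin n → ℝ) × ℂ)) (𝓝 θ) (𝓝 (θ, h θ)) :=
      (continuous_id.prodMk hcont).tendsto θ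
    have h4 := h3.eventually h2
    filter_upwards [h4] with s hs
    have hfs : ∀ s, f (s, h s) = 0 := by
      intro s
      simp only [hf]
      rw [hh2, sub_self]
    rw [hfs, hfs] at hs
    exact (hs.1 rfl).symm
  refine ⟨h, hsmooth, hper, fun θ => ?_, hLip, fun θ => ?_⟩
  · have h1 := hnear θ (h θ) (hh1 θ)
    rwa [hh2] at h1
  · have h1 := hh2 θ
    simp only [hΨ] at h1
    have h2 : ∏ k ∈ S, (1 + w k θ (h θ)) ≠ 0 := by
      rw [Finset.prod_ne_zero_iff]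
      exact fun k hk => (inv_one_add_norm (hwb k hk θ (h θ) (hh1 θ)) hδ4).2
    rw [Finset.prod_inv_distrib] at h1
    have h3 : ∏ k ∈ S, (1 + A k θ * h θ + T k θ) = ∏ k ∈ S, (1 + w k θ (h θ)) :=
      Finset.prod_congr rfl fun k _ => by
        simp only [hw]
        ring
    rw [h3]
    generalize ∏ k ∈ S, (1 + w k θ (h θ)) = Q at h1 h2 ⊢
    rw [← h1]
    exact inv_mul_cancel₀ h2

end Pool.Agent.Helper11
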