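import Mathlib
import Pool.Agent.Helper11.TorusReg4

/-! Integrals over the torus of determinants with a constant row are topological. -/

namespace Pool.Agent.Helper11

open MeasureTheory Set Topology

variable {n : ℕ}

/-- the determinant with a vector added to the first column -/
lemma det_add_col {R : Type*} [CommRing R] (A : Matrix (Fin (n + 1)) (Fin (n + 1)) R)
    (a : Fin (n + 1) → R) :
    (Matrix.of fun m => A m + a m • (Pi.single 0 1 : Fin (n + 1) → R)).det =
      A.det + ∑ m, a m * (A.updateRow m (Pi.single 0 1)).det := by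
  have h1 : (Matrix.of fun m => A m + a m • (Pi.single 0 1 : Fin (n + 1) → R)) =
      A.updateCol 0 ((fun i => A i 0) + a) := by
    ext i j
    by_cases hj : j = 0
    · subst hj
      simp
    · simp [hj, Pi.single_apply]
  have h2 : A.updateCol 0 (fun i => A i 0) = A := by
    ext i j
    by_cases hj : j = 0
    · subst hj
      simp
    · simp [hj]
  have h3 : (A.updateCol 0 a).det = ∑ m, a m * (A.updateRow m (Pi.single 0 1)).det := by
    rw [← Matrix.cramer_apply, Matrix.cramer_eq_adjugate_mulVec, Matrix.mulVec, dotProduct]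
    refine Finset.sum_congr rfl fun m _ => ?_
    rw [Matrix.adjugate_apply, mul_comm]
  rw [h1, Matrix.det_updateCol_add, h2, h3]

/-- a global primitive of the regulator row of a function close to `1` -/
lemma exists_primitive {u : (Fin n → ℝ) → ℂ} (hu : TU u) (hs : ∀ θ, u θ ∈ Complex.slitPlane) :
    ∃ G : (Fin (n + 1) → ℝ) → ℂ, ContDiff ℝ 2 G ∧ (∀ x, grad G x = regRow u x) ∧
      ∀ (m : Fin n) x, G (x + Pi.single m.succ (2 * Real.pi)) = G x := by
  set G : (Fin (n + 1) → ℝ) → ℂ := fun x =>
    ((x 0 * Real.log ‖u (Fin.tail x)‖ : ℝ) : ℂ) +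
      ((Complex.log (u (Fin.tail x))).im : ℝ) * Complex.I with hG
  have hGd : ContDiff ℝ 2 G := by
    rw [contDiff_iff_contDiffAt]
    intro x
    have h1 : ContDiff ℝ 2 fun x : Fin (n + 1) → ℝ => x 0 * Real.log ‖u (Fin.tail x)‖ :=
      (contDiff_apply ℝ ℝ 0).mul ((contDiff_logNorm hu).comp contDiff_tail)
    have h2 : ContDiffAt ℝ 2 (fun x : Fin (n + 1) → ℝ => Complex.log (u (Fin.tail x))) x := by
      have h3 : ContDiffAt ℝ 2 Complex.log (u (Fin.tail x)) :=
        (Complex.contDiffAt_log (hs _)).restrict_scalars ℝ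
      exact h3.comp x (hu.smooth.comp contDiff_tail).contDiffAt
    have h4 : ContDiffAt ℝ 2 (fun x : Fin (n + 1) → ℝ => (Complex.log (u (Fin.tail x))).im) x :=
      Complex.imCLM.contDiff.contDiffAt.comp x h2
    have h5 : ContDiff ℝ 2 (fun r : ℝ => (r : ℂ)) := Complex.ofRealCLM.contDiff
    exact (h5.contDiffAt.comp x h1.contDiffAt).add
      ((h5.contDiffAt.comp x h4).mul contDiffAt_const)
  refine ⟨G, hGd, fun x => ?_, fun m x => ?_⟩
  · funext i
    have hdiff : DifferentiableAt ℝ G x := hGd.differentiable (by norm_num) x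
    have hline := hasDerivAt_line hdiff (Pi.single i 1)
    refine hline.unique ?_
    refine Fin.cases ?_ (fun m => ?_) i
    · simp only [hG, tail_add_zero, regRow, Fin.cons_zero]
      have h1 : HasDerivAt (fun s : ℝ =>
          (x + s • Pi.single (0 : Fin (n + 1)) (1 : ℝ) : Fin (n + 1) → ℝ) 0 *
          Real.log ‖u (Fin.tail x)‖) (Real.log ‖u (Fin.tail x)‖) 0 := by
        have h2 : HasDerivAt (fun s : ℝ =>
            (x + s • Pi.single (0 : Fin (n + 1)) (1 : ℝ) : Fin (n + 1) → ℝ) 0) 1 0 := by
          simpa using (hasDerivAt_id (0 : ℝ)).const_add (x 0)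
        simpa using h2.mul_const (Real.log ‖u (Fin.tail x)‖)
      exact (h1.ofReal_comp).add_const _
    · simp only [hG, tail_add_succ, head_add_succ, regRow, Fin.cons_succ]
      have hu1 := hasDerivAt_line (hu.smooth.differentiable (by norm_num) (Fin.tail x))
        (Pi.single m (1 : ℝ))
      have h1 := line_logNorm hu (Fin.tail x) m
      have h2 : HasDerivAt (fun s : ℝ => Complex.log (u (Fin.tail x + s • Pi.single m (1 : ℝ))))
          (fderiv ℝ u (Fin.tail x) (Pi.single m 1) / u (Fin.tail x)) 0 := by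
        have h3 := hu1.clog_real (by simpa using hs (Fin.tail x))
        simpa using h3
      have h4 : HasDerivAt (fun s : ℝ =>
          (Complex.log (u (Fin.tail x + s • Pi.single m (1 : ℝ)))).im)
          ((fderiv ℝ u (Fin.tail x) (Pi.single m 1) / u (Fin.tail x)).im) 0 :=
        Complex.imCLM.hasFDerivAt.comp_hasDerivAt 0 h2
      have h5 := ((h1.const_mul (x 0)).ofReal_comp).add ((h4.ofReal_comp).mul_const Complex.I)
      refine h5.congr_deriv ?_
      apply Complex.ext <;> simp
  · simp only [hG, tail_add_per, head_add_per, hu.per]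

/-- constant rows -/
lemma locGrad_const (v : Fin n → ℂ) : LocGrad fun _ => v := by
  intro x
  refine ⟨fun y => ∑ p, ((y p : ℝ) : ℂ) * v p, ?_, Filter.Eventually.of_forall fun y => ?_⟩
  · refine ContDiff.contDiffAt ?_
    refine ContDiff.sum fun p _ => ContDiff.mul ?_ contDiff_const
    exact Complex.ofRealCLM.contDiff.comp (contDiff_apply ℝ ℝ p)
  · funext q
    have hd : Differentiable ℝ fun y : Fin n → ℝ => ∑ p, ((y p : ℝ) : ℂ) * v p := by
      have : ContDiff ℝ 1 fun y : Fin n → ℝ => ∑ p, ((y p : ℝ) : ℂ) * v p := by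
        refine ContDiff.sum fun p _ => ContDiff.mul ?_ contDiff_const
        exact Complex.ofRealCLM.contDiff.comp (contDiff_apply ℝ ℝ p)
      exact this.differentiable (by norm_num)
    have hline := hasDerivAt_line (hd y) (Pi.single q 1)
    refine (hline.unique ?_).symm
    have h1 : ∀ p, HasDerivAt (fun s : ℝ =>
        (((y + s • Pi.single q (1 : ℝ) : Fin n → ℝ) p : ℝ) : ℂ) * v p)
        (if p = q then v p else 0) 0 := by
      intro p
      by_cases hp : p = q
      · subst hp
        rw [if_pos rfl]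
        have h2 : HasDerivAt (fun s : ℝ => (y + s • Pi.single p (1 : ℝ) : Fin n → ℝ) p) 1 0 := by
          simpa using (hasDerivAt_id (0 : ℝ)).const_add (y p)
        have h3 := (h2.ofReal_comp).mul_const (v p)
        simpa using h3
      · rw [if_neg hp]
        have h2 : (fun s : ℝ => (((y + s • Pi.single q (1 : ℝ) : Fin n → ℝ) p : ℝ) : ℂ) * v p) =
            fun _ => ((y p : ℝ) : ℂ) * v p := by
          funext s
          simp [hp]
        rw [h2]
        exact hasDerivAt_const _ _
    have h2 := HasDerivAt.fun_sum fun p (_ : p ∈ Finset.univ) => h1 p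
    refine h2.congr_deriv ?_
    simp

lemma LocGrad.add {V W : (Fin n → ℝ) → (Fin n → ℂ)} (hV : LocGrad V) (hW : LocGrad W) :
    LocGrad fun x => V x + W x := by
  intro x
  obtain ⟨F, hF, h1⟩ := hV x
  obtain ⟨G, hG, h2⟩ := hW x
  refine ⟨F + G, hF.add hG, ?_⟩
  have h3 : ∀ᶠ y in 𝓝 x, ContDiffAt ℝ 2 F y := hF.eventually (by norm_num)
  have h4 : ∀ᶠ y in 𝓝 x, ContDiffAt ℝ 2 G y := hG.eventually (by norm_num)
  filter_upwards [h1, h2, h3, h4] with y e1 e2 d1 d2
  simp only [e1, e2]
  funext p
  unfold grad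
  rw [fderiv_add (d1.differentiableAt (by norm_num)) (d2.differentiableAt (by norm_num))]
  rfl

/-- Stokes: a gradient row together with the constant row `e₀` -/
lemma stokes_zero {F : (Fin (n + 1) → ℝ) → ℂ} (hF : ContDiff ℝ 2 F)
    (hFp : ∀ (m : Fin n) x, F (x + Pi.single m.succ (2 * Real.pi)) = F x)
    {r : Fin (n + 1) → (Fin (n + 1) → ℝ) → (Fin (n + 1) → ℂ)} (hr : ∀ l, LocGrad (r l))
    (hrp : ∀ l (m : Fin n) x, r l (x + Pi.single m.succ (2 * Real.pi)) = r l x)
    {p q : Fin (n + 1)} (hpq : p ≠ q) (hp : ∀ x, r p x = grad F x)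
    (hq : ∀ x, r q x = Pi.single 0 1) :
    ∫ x in Icc 0 (topB n), Matrix.det (Matrix.of fun l => r l x) = 0 := by
  have h1 : ∀ x, Matrix.det (Matrix.of fun l => r l x) =
      (-1) ^ (p : ℕ) * dcons (grad F x) (fun k => r (p.succAbove k) x) := by
    intro x
    have h2 := (Matrix.detRowAlternating (R := ℂ) (n := Fin (n + 1))).map_insertNth p
      (grad F x) (fun k => r (p.succAbove k) x)
    have h3 : p.insertNth (grad F x) (fun k => r (p.succAbove k) x) = fun l => r l x := by
      rw [← hp x]
      exact Fin.insertNth_self_removeNth p (fun l => r l x)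
    have h4 : (Matrix.detRowAlternating (R := ℂ) (n := Fin (n + 1))) (fun l => r l x) =
        Matrix.det (Matrix.of fun l => r l x) := rfl
    rw [← h4, ← h3]
    have h5 : (Matrix.detRowAlternating (R := ℂ) (n := Fin (n + 1)))
        (p.insertNth (grad F x) (fun k => r (p.succAbove k) x)) =
        (-1) ^ (p : ℕ) • (Matrix.detRowAlternating (R := ℂ) (n := Fin (n + 1)))
          (Matrix.vecCons (grad F x) (fun k => r (p.succAbove k) x)) := h2
    rw [h5]
    rw [zsmul_eq_mul]
    push_cast
    rfl
  simp only [h1]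
  rw [integral_const_mul]
  have h6 := stokes (F := F) (hF.of_le (by norm_num)) (W := fun k => r (p.succAbove k))
    (fun k => hr _) hFp (fun k m x => hrp _ m x)
  obtain ⟨k, hk⟩ := Fin.exists_succAbove_eq hpq.symm
  have h7 : ∀ y : Fin (n + 1) → ℝ, dcons (Pi.single 0 1) (fun j => r (p.succAbove j) y) = 0 := by
    intro y
    unfold dcons
    refine AlternatingMap.map_eq_zero_of_eq _ _ (i := 0) (j := k.succ) ?_ (Fin.succ_ne_zero k).symm
    rw [Fin.cons_zero, Fin.cons_succ, hk, hq]
  rw [h6]
  simp only [h7, mul_zero, integral_zero, sub_zero]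

end Pool.Agent.Helper11
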