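import Mathlib
import Pool.Agent.Helper11.HTop

/-! Evaluation of the regulator of functions `c · character · (near 1)` on the torus. -/

namespace Pool.Agent.Helper11

open MeasureTheory Set Topology

variable {n : ℕ}

/-- the row of a character -/
noncomputable def crow (w : Fin n → ℝ) : Fin (n + 1) → ℂ := Fin.cons 0 fun l => Complex.I * (w l : ℂ)

/-- `f` is a positive constant `exp a` times a character with exponent `w` times `u` -/
structure Wnd (f : (Fin n → ℝ) → ℂ) (a : ℝ) (w : Fin n → ℝ) (u : (Fin n → ℝ) → ℂ) : Prop where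
  tf : TU f
  tu : TU u
  slit : ∀ θ, u θ ∈ Complex.slitPlane
  row : ∀ x : Fin (n + 1) → ℝ, regRow f x =
    (crow w + regRow u x) + (a : ℂ) • (Pi.single 0 1 : Fin (n + 1) → ℂ)

lemma updateRow_of {R : Type*} {F F' : Fin (n + 1) → Fin (n + 1) → R} {y : Fin (n + 1)}
    {v : Fin (n + 1) → R} (h : ∀ l, F' l = if l = y then v else F l) :
    (Matrix.of F).updateRow y v = Matrix.of F' := by
  ext i j
  rw [Matrix.updateRow_apply, Matrix.of_apply, Matrix.of_apply, h i]
  split_ifs <;> rfl

section top

variable (w : Fin (n + 1) → Fin n → ℝ) (u : Fin (n + 1) → (Fin n → ℝ) → ℂ) (m : Fin (n + 1))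

/-- the interpolating rows -/
noncomputable def rowsY (Y : Finset (Fin (n + 1))) (l : Fin (n + 1)) (x : Fin (n + 1) → ℝ) :
    Fin (n + 1) → ℂ :=
  if l = m then Pi.single 0 1 else if l ∈ Y then crow (w l) + regRow (u l) x else crow (w l)

variable {w u m} (hu : ∀ l, TU (u l)) (hs : ∀ l θ, u l θ ∈ Complex.slitPlane)

include hu in
lemma rowsY_locGrad (Y : Finset (Fin (n + 1))) (l : Fin (n + 1)) :
    LocGrad (rowsY w u m Y l) := by
  unfold rowsY
  by_cases h1 : l = m
  · simp only [if_pos h1]
    exact locGrad_const _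
  · by_cases h2 : l ∈ Y
    · simp only [if_neg h1, if_pos h2]
      exact (locGrad_const _).add (locGrad_regRow (hu l))
    · simp only [if_neg h1, if_neg h2]
      exact locGrad_const _

include hu in
lemma rowsY_per (Y : Finset (Fin (n + 1))) (l : Fin (n + 1)) (k : Fin n) (x : Fin (n + 1) → ℝ) :
    rowsY w u m Y l (x + Pi.single k.succ (2 * Real.pi)) = rowsY w u m Y l x := by
  unfold rowsY
  rw [regRow_per (hu l)]

lemma continuous_det_rows {r : Fin (n + 1) → (Fin (n + 1) → ℝ) → (Fin (n + 1) → ℂ)}
    (hr : ∀ l, Continuous (r l)) : Continuous fun x => Matrix.det (Matrix.of fun l => r l x) := by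
  refine Continuous.matrix_det ?_
  refine continuous_matrix fun i j => ?_
  exact (continuous_apply j).comp (hr i)

include hu hs in
lemma integral_rowsY_insert {Y : Finset (Fin (n + 1))} {y : Fin (n + 1)} (hy : y ∉ Y) :
    ∫ x in Icc 0 (topB n), Matrix.det (Matrix.of fun l => rowsY w u m (insert y Y) l x) =
      ∫ x in Icc 0 (topB n), Matrix.det (Matrix.of fun l => rowsY w u m Y l x) := by
  by_cases hym : y = m
  · have h1 : ∀ x l, rowsY w u m (insert y Y) l x = rowsY w u m Y l x := by
      intro x l
      unfold rowsY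
      by_cases hl : l = m
      · rw [if_pos hl, if_pos hl]
      · have hly : l ≠ y := by
          rw [hym]
          exact hl
        simp [hl, hly]
    simp only [h1]
  · obtain ⟨G, hG, hGg, hGp⟩ := exists_primitive (hu y) (hs y)
    set r : Fin (n + 1) → (Fin (n + 1) → ℝ) → (Fin (n + 1) → ℂ) := fun l x =>
      if l = y then regRow (u y) x else rowsY w u m Y l x with hr
    have hrl : ∀ l, LocGrad (r l) := by
      intro l
      by_cases hl : l = y
      · simp only [hr, if_pos hl]
        exact locGrad_regRow (hu y)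
      · simp only [hr, if_neg hl]
        exact rowsY_locGrad hu Y l
    have hrp : ∀ l (k : Fin n) x, r l (x + Pi.single k.succ (2 * Real.pi)) = r l x := by
      intro l k x
      simp only [hr]
      rw [rowsY_per hu, regRow_per (hu y)]
    have hzero := stokes_zero hG hGp hrl hrp (p := y) (q := m) hym
      (fun x => by simp only [hr, if_true]; rw [hGg]) (fun x => by
        simp only [hr]
        rw [if_neg (Ne.symm hym)]
        unfold rowsY
        rw [if_pos rfl])
    have hsplit : ∀ x, Matrix.det (Matrix.of fun l => rowsY w u m (insert y Y) l x) =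
        Matrix.det (Matrix.of fun l => rowsY w u m Y l x) +
        Matrix.det (Matrix.of fun l => r l x) := by
      intro x
      have e1 : (Matrix.of fun l => rowsY w u m (insert y Y) l x) =
          (Matrix.of fun l => rowsY w u m Y l x).updateRow y
            (crow (w y) + regRow (u y) x) := by
        refine (updateRow_of fun l => ?_).symm
        by_cases hl : l = y
        · subst hl
          simp [rowsY, hym]
        · simp [rowsY, hl]
      have e2 : (Matrix.of fun l => rowsY w u m Y l x).updateRow y (crow (w y)) =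
          Matrix.of fun l => rowsY w u m Y l x := by
        refine updateRow_of fun l => ?_
        by_cases hl : l = y
        · subst hl
          simp [rowsY, hym, hy]
        · simp [hl]
      have e3 : (Matrix.of fun l => rowsY w u m Y l x).updateRow y (regRow (u y) x) =
          Matrix.of fun l => r l x := updateRow_of fun l => rfl
      rw [e1, Matrix.det_updateRow_add, e2, e3]
    simp only [hsplit]
    rw [integral_add, hzero, add_zero]
    · exact (continuous_det_rows fun l =>
        (rowsY_locGrad hu Y l).contDiff.continuous).continuousOn.integrableOn_compact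
          isCompact_Icc
    · exact (continuous_det_rows fun l =>
        (hrl l).contDiff.continuous).continuousOn.integrableOn_compact isCompact_Icc

include hu hs in
lemma integral_rowsY (Y : Finset (Fin (n + 1))) :
    ∫ x in Icc 0 (topB n), Matrix.det (Matrix.of fun l => rowsY w u m Y l x) =
      ∫ x in Icc 0 (topB n), Matrix.det (Matrix.of fun l => rowsY w u m ∅ l x) := by
  induction Y using Finset.induction_on with
  | empty => rfl
  | insert y Y hy ih => rw [integral_rowsY_insert hu hs hy, ih]

lemma vol_box : (volume : Measure (Fin (n + 1) → ℝ)).real (Icc (0 : Fin (n + 1) → ℝ) (topB n)) =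
    (2 * Real.pi) ^ n := by
  rw [Measure.real, Real.volume_Icc_pi_toReal (zero_le_topB n), Fin.prod_univ_succ]
  simp [topB]

/-- the determinant of the constant rows -/
lemma det_rows_empty (x : Fin (n + 1) → ℝ) :
    Matrix.det (Matrix.of fun l => rowsY w u m ∅ l x) =
      Complex.I ^ n * ((((Matrix.of fun l => (Fin.cons 0 (w l) : Fin (n + 1) → ℝ)).updateRow m
        (Pi.single 0 1)).det : ℝ) : ℂ) := by
  have h1 : (Matrix.of fun l => rowsY w u m ∅ l x) =
      Matrix.of fun i j => (Fin.cons 1 fun _ => Complex.I : Fin (n + 1) → ℂ) j *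
        (((Matrix.of fun l => (Fin.cons 0 (w l) : Fin (n + 1) → ℝ)).updateRow m
        (Pi.single 0 1)).map (Complex.ofRealHom : ℝ →+* ℂ)) i j := by
    ext i j
    by_cases hi : i = m
    · subst hi
      refine Fin.cases ?_ (fun k => ?_) j
      · simp [rowsY, Matrix.updateRow_apply]
      · simp [rowsY, Matrix.updateRow_apply]
    · refine Fin.cases ?_ (fun k => ?_) j
      · simp [rowsY, hi, crow, Matrix.updateRow_apply]
      · simp [rowsY, hi, crow, Matrix.updateRow_apply]
  rw [h1, Matrix.det_mul_row, Fin.prod_univ_succ]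
  simp only [Fin.cons_zero, Fin.cons_succ, Finset.prod_const, Finset.card_univ, Fintype.card_fin,
    one_mul]
  congr 1
  exact (RingHom.map_det Complex.ofRealHom _).symm

include hu hs in
/-- the topological integral -/
lemma integral_top (m : Fin (n + 1)) : ∫ x in Icc 0 (topB n), ((-Complex.I) ^ n * Matrix.det
      ((Matrix.of fun l => crow (w l) + regRow (u l) x).updateRow m (Pi.single 0 1))).re =
    (2 * Real.pi) ^ n * ((Matrix.of fun l => (Fin.cons 0 (w l) : Fin (n + 1) → ℝ)).updateRow m
        (Pi.single 0 1)).det := by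
  have h1 : ∀ x, (Matrix.of fun l => crow (w l) + regRow (u l) x).updateRow m (Pi.single 0 1) =
      Matrix.of fun l => rowsY w u m Finset.univ l x := by
    intro x
    refine updateRow_of fun l => ?_
    by_cases hl : l = m
    · subst hl
      simp [rowsY]
    · simp [rowsY, hl]
  simp only [h1]
  have hc : Continuous fun x => (-Complex.I) ^ n *
      Matrix.det (Matrix.of fun l => rowsY w u m Finset.univ l x) :=
    continuous_const.mul (continuous_det_rows fun l =>
      (rowsY_locGrad hu Finset.univ l).contDiff.continuous)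
  have hre := integral_re (hc.continuousOn.integrableOn_compact (μ := volume)
    (isCompact_Icc (a := (0 : Fin (n + 1) → ℝ)) (b := topB n)))
  simp only [RCLike.re_eq_complex_re] at hre
  rw [hre, integral_const_mul, integral_rowsY hu hs]
  simp only [det_rows_empty]
  rw [setIntegral_const, vol_box, Complex.real_smul]
  set δ := ((Matrix.of fun l => (Fin.cons 0 (w l) : Fin (n + 1) → ℝ)).updateRow m
        (Pi.single 0 1)).det with hδ
  have e1 : (-Complex.I) ^ n * ((((2 * Real.pi) ^ n : ℝ) : ℂ) * (Complex.I ^ n * (δ : ℂ))) =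
      (((2 * Real.pi) ^ n * δ : ℝ) : ℂ) := by
    have h2 : (-Complex.I) ^ n * Complex.I ^ n = 1 := by
      rw [← mul_pow, neg_mul, Complex.I_mul_I, neg_neg, one_pow]
    calc (-Complex.I) ^ n * ((((2 * Real.pi) ^ n : ℝ) : ℂ) * (Complex.I ^ n * (δ : ℂ)))
        = ((-Complex.I) ^ n * Complex.I ^ n) * ((((2 * Real.pi) ^ n : ℝ) : ℂ) * (δ : ℂ)) := by
          ring
      _ = _ := by
        rw [h2, one_mul]
        push_cast
        rfl
  rw [e1, Complex.ofReal_re]

end top

/-- determinant with small first column -/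
lemma norm_det_le (A : Matrix (Fin (n + 1)) (Fin (n + 1)) ℂ) {ε : ℝ} (hε : 0 ≤ ε)
    (h0 : ∀ i, ‖A i 0‖ ≤ ε) (h1 : ∀ i (j : Fin n), ‖A i j.succ‖ ≤ 2) :
    ‖A.det‖ ≤ (n + 1).factorial * (ε * 2 ^ n) := by
  rw [← Matrix.det_transpose, Matrix.det_apply]
  refine (norm_sum_le _ _).trans ?_
  have h2 : ∀ σ : Equiv.Perm (Fin (n + 1)),
      ‖Equiv.Perm.sign σ • ∏ i, A.transpose (σ i) i‖ ≤ ε * 2 ^ n := by
    intro σ
    have h3 : ‖Equiv.Perm.sign σ • ∏ i, A.transpose (σ i) i‖ = ‖∏ i, A.transpose (σ i) i‖ := by
      rcases Int.units_eq_one_or (Equiv.Perm.sign σ) with h | h <;> rw [h] <;> simp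
    have h4 : ∏ i, A.transpose (σ i) i = ∏ i, A (σ⁻¹ i) i := by
      rw [← Equiv.prod_comp σ⁻¹ (fun i => A.transpose (σ i) i)]
      refine Finset.prod_congr rfl fun i _ => ?_
      simp
    rw [h3, h4, Fin.prod_univ_succ, norm_mul, norm_prod]
    refine mul_le_mul (h0 _) ?_ (Finset.prod_nonneg fun _ _ => norm_nonneg _) hε
    calc ∏ i : Fin n, ‖A (σ⁻¹ i.succ) i.succ‖ ≤ ∏ _i : Fin n, (2 : ℝ) :=
          Finset.prod_le_prod (fun _ _ => norm_nonneg _) fun i _ => h1 _ i
      _ = 2 ^ n := by simp
  calc ∑ σ : Equiv.Perm (Fin (n + 1)), ‖Equiv.Perm.sign σ • ∏ i, A.transpose (σ i) i‖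
      ≤ ∑ _σ : Equiv.Perm (Fin (n + 1)), ε * 2 ^ n := Finset.sum_le_sum fun σ _ => h2 σ
    _ = _ := by
      rw [Finset.sum_const, Finset.card_univ, Fintype.card_perm, Fintype.card_fin, nsmul_eq_mul]

/-- Main term and error bound. -/
theorem regTorus_wnd {f : Fin (n + 1) → (Fin n → ℝ) → ℂ} {a : Fin (n + 1) → ℝ}
    {w : Fin (n + 1) → Fin n → ℝ} {u : Fin (n + 1) → (Fin n → ℝ) → ℂ}
    (h : ∀ m, Wnd (f m) (a m) (w m) (u m)) {ε : ℝ} (hε0 : 0 ≤ ε)
    (hε : ∀ m θ, |Real.log ‖u m θ‖| ≤ ε)
    (hd : ∀ m θ (l : Fin n), ‖fderiv ℝ (u m) θ (Pi.single l 1) / u m θ‖ ≤ 1)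
    (hw : ∀ m l, |w m l| ≤ 1) :
    |regTorus f - (2 * Real.pi) ^ n *
      (Matrix.of fun m => (Fin.cons (a m) (w m) : Fin (n + 1) → ℝ)).det| ≤
      (2 * Real.pi) ^ n * ((n + 1).factorial * (ε * 2 ^ n)) := by
  set A : (Fin (n + 1) → ℝ) → Matrix (Fin (n + 1)) (Fin (n + 1)) ℂ := fun x =>
    Matrix.of fun l => crow (w l) + regRow (u l) x with hA
  have hu : ∀ l, TU (u l) := fun l => (h l).tu
  have hs : ∀ l θ, u l θ ∈ Complex.slitPlane := fun l => (h l).slit
  have hrow : ∀ x, Matrix.det (Matrix.of fun m => regRow (f m) x) =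
      (A x).det + ∑ m, (a m : ℂ) * ((A x).updateRow m (Pi.single 0 1)).det := by
    intro x
    rw [← det_add_col (A x) (fun m => (a m : ℂ))]
    congr 1
    ext m j
    rw [Matrix.of_apply, Matrix.of_apply, (h m).row x]
    rfl
  have hAc : ∀ l, Continuous fun x => crow (w l) + regRow (u l) x := fun l =>
    continuous_const.add (continuous_regRow (hu l))
  have hc1 : Continuous fun x => ((-Complex.I) ^ n * (A x).det).re :=
    Complex.continuous_re.comp (continuous_const.mul (continuous_det_rows hAc))
  have hc2 : ∀ m, Continuous fun x =>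
      ((-Complex.I) ^ n * ((A x).updateRow m (Pi.single 0 1)).det).re := by
    intro m
    refine Complex.continuous_re.comp (continuous_const.mul ?_)
    have e : ∀ x, (A x).updateRow m (Pi.single 0 1) = Matrix.of fun l =>
        (if l = m then fun _ => Pi.single 0 1 else fun x => crow (w l) + regRow (u l) x :
          (Fin (n + 1) → ℝ) → (Fin (n + 1) → ℂ)) x := by
      intro x
      refine updateRow_of fun l => ?_
      by_cases hl : l = m
      · simp [hl]
      · simp [hl]
    simp only [e]
    refine continuous_det_rows fun l => ?_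
    by_cases hl : l = m
    · simp only [if_pos hl]
      exact continuous_const
    · simp only [if_neg hl]
      exact hAc l
  have hsplit : regTorus f = (∫ x in Icc 0 (topB n), ((-Complex.I) ^ n * (A x).det).re) +
      ∑ m, a m * ((2 * Real.pi) ^ n *
        ((Matrix.of fun l => (Fin.cons 0 (w l) : Fin (n + 1) → ℝ)).updateRow m
        (Pi.single 0 1)).det) := by
    unfold regTorus
    have e1 : ∀ x, ((-Complex.I) ^ n * Matrix.det (Matrix.of fun m => regRow (f m) x)).re =
        ((-Complex.I) ^ n * (A x).det).re +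
        ∑ m, a m * ((-Complex.I) ^ n * ((A x).updateRow m (Pi.single 0 1)).det).re := by
      intro x
      rw [hrow, mul_add, Complex.add_re, Finset.mul_sum, Complex.re_sum]
      congr 1
      refine Finset.sum_congr rfl fun m _ => ?_
      rw [← mul_assoc, mul_comm ((-Complex.I) ^ n) (a m : ℂ), mul_assoc, Complex.re_ofReal_mul]
    simp only [e1]
    rw [integral_add, integral_finsetSum]
    · congr 1
      refine Finset.sum_congr rfl fun m _ => ?_
      rw [integral_const_mul, integral_top hu hs m]
    · intro m _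
      exact ((continuous_const.mul (hc2 m)).continuousOn.integrableOn_compact isCompact_Icc)
    · exact hc1.continuousOn.integrableOn_compact isCompact_Icc
    · exact (continuous_finsetSum _ fun m _ =>
        continuous_const.mul (hc2 m)).continuousOn.integrableOn_compact isCompact_Icc
  have hmain : ∑ m, a m * ((2 * Real.pi) ^ n *
        ((Matrix.of fun l => (Fin.cons 0 (w l) : Fin (n + 1) → ℝ)).updateRow m
        (Pi.single 0 1)).det) = (2 * Real.pi) ^ n *
      (Matrix.of fun m => (Fin.cons (a m) (w m) : Fin (n + 1) → ℝ)).det := by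
    have h1 := det_add_col (Matrix.of fun l => (Fin.cons 0 (w l) : Fin (n + 1) → ℝ)) a
    have h2 : (Matrix.of fun l => (Fin.cons 0 (w l) : Fin (n + 1) → ℝ)).det = 0 := by
      refine Matrix.det_eq_zero_of_column_eq_zero 0 fun i => ?_
      simp
    have h3 : (Matrix.of fun m => (Matrix.of fun l => (Fin.cons 0 (w l) : Fin (n + 1) → ℝ)) m +
        a m • (Pi.single 0 1 : Fin (n + 1) → ℝ)) =
        Matrix.of fun m => (Fin.cons (a m) (w m) : Fin (n + 1) → ℝ) := by
      ext i j
      refine Fin.cases ?_ (fun k => ?_) j <;> simp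
    rw [h2, h3, zero_add] at h1
    rw [h1, Finset.mul_sum]
    refine Finset.sum_congr rfl fun m _ => ?_
    ring
  rw [hsplit, hmain, add_sub_cancel_right]
  have hb : ∀ x ∈ Icc (0 : Fin (n + 1) → ℝ) (topB n),
      ‖((-Complex.I) ^ n * (A x).det).re‖ ≤ (n + 1).factorial * (ε * 2 ^ n) := by
    intro x hx
    rw [Real.norm_eq_abs]
    refine (Complex.abs_re_le_norm _).trans ?_
    rw [norm_mul, norm_pow, norm_neg, Complex.norm_I, one_pow, one_mul]
    have hx0 : 0 ≤ x 0 ∧ x 0 ≤ 1 := by
      have h1 := hx.1 0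
      have h2 := hx.2 0
      simp only [topB, Fin.cons_zero] at h2
      exact ⟨h1, h2⟩
    refine norm_det_le (A x) hε0 (fun i => ?_) fun i j => ?_
    · simp only [hA, Matrix.of_apply, Pi.add_apply, crow, regRow, Fin.cons_zero, zero_add]
      rw [Complex.norm_real, Real.norm_eq_abs]
      exact hε i _
    · simp only [hA, Matrix.of_apply, Pi.add_apply, crow, regRow, Fin.cons_succ]
      set D := fderiv ℝ (u i) (Fin.tail x) (Pi.single j 1) / u i (Fin.tail x) with hD
      have h1 : ‖Complex.I * (w i j : ℂ)‖ ≤ 1 := by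
        rw [norm_mul, Complex.norm_I, one_mul, Complex.norm_real, Real.norm_eq_abs]
        exact hw i j
      have h2 : ‖(⟨x 0 * D.re, D.im⟩ : ℂ)‖ ≤ 1 := by
        refine le_trans ?_ (hd i (Fin.tail x) j)
        rw [← hD, Complex.norm_def, Complex.norm_def]
        refine Real.sqrt_le_sqrt ?_
        rw [Complex.normSq_apply, Complex.normSq_apply]
        simp only
        have : x 0 * D.re * (x 0 * D.re) ≤ D.re * D.re := by
          have h3 : x 0 * x 0 ≤ 1 := by nlinarith
          have h4 : 0 ≤ D.re * D.re := mul_self_nonneg _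
          nlinarith
        linarith
      calc ‖Complex.I * (w i j : ℂ) + ⟨x 0 * D.re, D.im⟩‖ ≤ _ := norm_add_le _ _
        _ ≤ 2 := by linarith
  have h1 := norm_setIntegral_le_of_norm_le_const (μ := volume)
    (isCompact_Icc (a := (0 : Fin (n + 1) → ℝ)) (b := topB n)).measure_lt_top hb
  rw [vol_box, Real.norm_eq_abs] at h1
  calc _ ≤ _ := h1
    _ = _ := by ring

end Pool.Agent.Helper11
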