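import Mathlib
import Pool.Agent.Helper11.HReg
import Pool.Agent.Helper11.HFix
import Pool.Agent.Helper11.GridEval

/-! Functions on the torus of the form `constant · character · (near 1)`. -/

namespace Pool.Agent.Helper11

open MeasureTheory Set Metric Topology

variable {n : ℕ}

lemma slit_of_near {v : ℂ} (h : ‖v - 1‖ < 1) : v ∈ Complex.slitPlane := by
  have := Complex.mem_slitPlane_of_norm_lt_one h
  rwa [add_sub_cancel] at this

lemma norm_near {v : ℂ} {t : ℝ} (h : ‖v - 1‖ ≤ t) : 1 - t ≤ ‖v‖ ∧ ‖v‖ ≤ 1 + t := by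
  have h1 := norm_sub_norm_le (1 : ℂ) v
  have h2 := norm_sub_norm_le v (1 : ℂ)
  rw [norm_sub_rev, norm_one] at h1
  rw [norm_one] at h2
  constructor <;> linarith

lemma abs_log_near {v : ℂ} {t : ℝ} (ht : t ≤ 1 / 2) (h : ‖v - 1‖ ≤ t) :
    |Real.log ‖v‖| ≤ 2 * t := by
  have ht0 : 0 ≤ t := (norm_nonneg _).trans h
  obtain ⟨h1, h2⟩ := norm_near h
  have hpos : 0 < 1 - t := by linarith
  have hv : 0 < ‖v‖ := lt_of_lt_of_le hpos h1
  rw [abs_le]
  constructor
  · have h3 : Real.log (1 - t) ≤ Real.log ‖v‖ := Real.log_le_log hpos h1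
    have h4 := Real.one_sub_inv_le_log_of_pos hpos
    have h5 : (1 - t)⁻¹ ≤ 1 + 2 * t := by
      rw [inv_le_iff_one_le_mul₀ hpos]
      nlinarith
    linarith
  · have h3 := Real.log_le_sub_one_of_pos hv
    linarith

/-- bound of the partial derivatives from a Lipschitz estimate along the coordinates -/
lemma norm_fderiv_single_le {u : (Fin n → ℝ) → ℂ} {θ : Fin n → ℝ}
    (hu : DifferentiableAt ℝ u θ) {C : ℝ} (hC : 0 ≤ C) {l : Fin n}
    (h : ∀ s : ℝ, ‖u (θ + Pi.single l s) - u θ‖ ≤ C * |s|) :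
    ‖fderiv ℝ u θ (Pi.single l 1)‖ ≤ C := by
  have h1 := hasDerivAt_line hu (Pi.single l (1 : ℝ))
  have h2 := h1.deriv
  rw [← h2]
  refine norm_deriv_le_of_lip' hC (Filter.Eventually.of_forall fun s => ?_)
  have h3 : ∀ s : ℝ, s • (Pi.single l (1 : ℝ) : Fin n → ℝ) = Pi.single l s := by
    intro s
    rw [← Pi.single_smul, smul_eq_mul, mul_one]
  rw [h3, h3, Pi.single_zero, add_zero, sub_zero, Real.norm_eq_abs]
  exact h s

section wnd

lemma regRow_const {r : ℂ} (x : Fin (n + 1) → ℝ) :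
    regRow (fun _ : Fin n → ℝ => r) x = ((Real.log ‖r‖ : ℝ) : ℂ) • Pi.single 0 1 := by
  funext i
  refine Fin.cases ?_ (fun l => ?_) i
  · simp [regRow]
  · simp only [regRow, Fin.cons_succ, fderiv_fun_const, Pi.zero_apply, _root_.zero_apply,
      zero_div, Complex.zero_re, Complex.zero_im, mul_zero, Pi.smul_apply, smul_eq_mul]
    rw [Pi.single_eq_of_ne (Fin.succ_ne_zero l), mul_zero]
    rfl

lemma TU_const {r : ℂ} (hr : r ≠ 0) : TU (fun _ : Fin n → ℝ => r) where
  smooth := contDiff_const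
  per := fun _ _ => rfl
  ne := fun _ => hr

lemma crow_zero : crow (0 : Fin n → ℝ) = 0 := by
  funext i
  refine Fin.cases ?_ (fun l => ?_) i <;> simp [crow]

/-- a constant times a function near one -/
lemma Wnd.const_mul_near {u : (Fin n → ℝ) → ℂ} (hu : TU u) (hs : ∀ θ, u θ ∈ Complex.slitPlane)
    {r : ℂ} (hr : r ≠ 0) : Wnd (fun θ => r * u θ) (Real.log ‖r‖) 0 u where
  tf := (TU_const hr).mul hu
  tu := hu
  slit := hs
  row := by
    intro x
    have h1 := regRow_mul (TU_const hr) hu x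
    have h2 : ((fun _ : Fin n → ℝ => r) * u) = fun θ => r * u θ := rfl
    rw [h2] at h1
    rw [h1, regRow_const, crow_zero, zero_add]
    exact add_comm _ _

/-- multiplication by a constant -/
lemma Wnd.const_mul {f u : (Fin n → ℝ) → ℂ} {a : ℝ} {w : Fin n → ℝ} (h : Wnd f a w u)
    {r : ℂ} (hr : r ≠ 0) : Wnd (fun θ => r * f θ) (a + Real.log ‖r‖) w u where
  tf := (TU_const hr).mul h.tf
  tu := h.tu
  slit := h.slit
  row := by
    intro x
    have h1 := regRow_mul (TU_const hr) h.tf x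
    have h2 : ((fun _ : Fin n → ℝ => r) * f) = fun θ => r * f θ := rfl
    rw [h2] at h1
    rw [h1, regRow_const, h.row, Complex.ofReal_add, add_smul]
    abel

variable {ρ R : ℝ} (hR : 0 < R) (hR' : R < 13 / 125) (hρ : |ρ| = R)

include hR hR' hρ in
lemma TU_zf (m : Fin (n + 1)) : TU (zf (n := n) ρ R m) where
  smooth := contDiff_zf ρ R m
  per := fun l θ => zf_per ρ R m l θ
  ne := fun θ => zf_ne hR hR' hρ m θ

include hR hR' hρ in
lemma regRow_zf (m : Fin (n + 1)) (x : Fin (n + 1) → ℝ) :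
    regRow (zf (n := n) ρ R m) x =
      crow (vel m) + ((Real.log R : ℝ) : ℂ) • (Pi.single 0 1 : Fin (n + 1) → ℂ) := by
  funext i
  refine Fin.cases ?_ (fun l => ?_) i
  · simp [regRow, crow, norm_zf hR hR' hρ]
  · have hd : DifferentiableAt ℝ (zf (n := n) ρ R m) (Fin.tail x) :=
      (contDiff_zf ρ R m (k := 2)).differentiable (by norm_num) _
    have h1 := (hasDerivAt_line hd (Pi.single l 1)).unique (zf_line ρ R (Fin.tail x) l m)
    have h2 : fderiv ℝ (zf (n := n) ρ R m) (Fin.tail x) (Pi.single l 1) /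
        zf ρ R m (Fin.tail x) = Complex.I * (vel m l : ℂ) := by
      rw [h1]
      have := zf_ne hR hR' hρ m (Fin.tail x)
      field_simp
    simp only [regRow, Fin.cons_succ, h2, crow, Pi.add_apply, Pi.smul_apply, smul_eq_mul]
    rw [Pi.single_eq_of_ne (Fin.succ_ne_zero l), mul_zero, add_zero]
    apply Complex.ext <;> simp

include hR hR' hρ in
/-- a circle coordinate times a function near one -/
lemma Wnd.zf_mul {u : (Fin n → ℝ) → ℂ} (hu : TU u) (hs : ∀ θ, u θ ∈ Complex.slitPlane)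
    (m : Fin (n + 1)) : Wnd (fun θ => zf ρ R m θ * u θ) (Real.log R) (vel m) u where
  tf := (TU_zf hR hR' hρ m).mul hu
  tu := hu
  slit := hs
  row := by
    intro x
    have h1 := regRow_mul (TU_zf hR hR' hρ m) hu x
    have h2 : (zf (n := n) ρ R m * u) = fun θ => zf ρ R m θ * u θ := rfl
    rw [h2] at h1
    rw [h1, regRow_zf hR hR' hρ]
    abel

lemma abs_vel_le (m : Fin (n + 1)) (l : Fin n) : |vel m l| ≤ 1 := by
  unfold vel
  refine Fin.cases ?_ (fun k => ?_) m
  · simp
  · simp only [Fin.cons_succ]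
    by_cases h : k = l
    · subst h
      simp
    · rw [Pi.single_eq_of_ne h]
      simp

include hR hρ in
lemma zf_lip (m : Fin (n + 1)) (θ : Fin n → ℝ) (j : Fin n) (s : ℝ) :
    ‖zf ρ R m (θ + Pi.single j s) - zf ρ R m θ‖ ≤ R * |s| := by
  have h1 : (Pi.single j s : Fin n → ℝ) = s • Pi.single j (1 : ℝ) := by
    rw [← Pi.single_smul, smul_eq_mul, mul_one]
  unfold zf
  rw [h1, ang_line]
  have h2 := (lipschitzWith_circleMap 0 (rad n ρ R m)).dist_le_mul
    (ang θ m + s * vel m j) (ang θ m)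
  rw [dist_eq_norm, Real.dist_eq, add_sub_cancel_left, Real.coe_nnabs, abs_rad hR hρ,
    abs_mul] at h2
  refine h2.trans (mul_le_mul_of_nonneg_left ?_ hR.le)
  have := abs_vel_le m j
  have h3 := abs_nonneg s
  nlinarith

end wnd

end Pool.Agent.Helper11
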