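import Mathlib
import Pool.Agent.Helper11.HWnd
import Pool.Agent.Helper11.HUnr

/-! The tori attached to the vertices of an arrangement. -/

namespace Pool.Agent.Helper11

open MeasureTheory Set Metric Topology

variable {n N : ℕ}

lemma prod_zf_eq (ρ R : ℝ) (θ : Fin n → ℝ) : ∏ m, zf ρ R m θ = ((ρ * R ^ n : ℝ) : ℂ) := by
  have h2 : ∀ m, zf ρ R m θ = ((rad n ρ R m : ℝ) : ℂ) * Complex.exp ((ang θ m : ℝ) * Complex.I) :=
    fun m => by
      unfold zf
      rw [circleMap_zero]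
  simp only [h2]
  rw [Finset.prod_mul_distrib, ← Complex.exp_sum, ← Finset.sum_mul]
  have h3 : ∑ m, ((ang θ m : ℝ) : ℂ) = 0 := by
    rw [Fin.sum_univ_succ]
    simp [ang]
  rw [h3, zero_mul, Complex.exp_zero, mul_one, Fin.prod_univ_succ]
  simp [rad]

variable (α : Fin N → Fin (n + 1) → ℤ) (β : Fin N → ℤ) (I : Fin (n + 1) → Fin N)

/-- the logarithm of the constant part of the form `i` on the torus at the vertex `I` -/
noncomputable def hypA (R : ℝ) (i : Fin N) : ℝ :=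
  if ∃ m, I m = i then Real.log R else Real.log |(hypVal α β I i : ℝ) / hypDet α I|

/-- the exponent of the form `i` on the torus at the vertex `I` -/
noncomputable def hypW (i : Fin N) (l : Fin n) : ℝ := ∑ m, if I m = i then vel m l else 0

/-- the coefficients of the other forms -/
noncomputable def hypS (k : Fin N) (m : Fin (n + 1)) : ℝ :=
  (hypDet α (Function.update I m k) : ℝ) / (hypVal α β I k : ℝ)

variable {α β I}

lemma hypW_of (hI : Function.Injective I) (m : Fin (n + 1)) : hypW (n := n) I (I m) = vel m := by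
  funext l
  unfold hypW
  rw [Finset.sum_eq_single m]
  · simp
  · intro m' _ hm'
    rw [if_neg fun h => hm' (hI h)]
  · intro h
    exact absurd (Finset.mem_univ m) h

lemma hypW_out {k : Fin N} (hk : ¬ ∃ m, I m = k) : hypW (n := n) I k = 0 := by
  funext l
  unfold hypW
  refine Finset.sum_eq_zero fun m _ => ?_
  rw [if_neg fun h => hk ⟨m, h⟩]

variable {Δ : ℤ} (hΔ0 : Δ ≠ 0) (hΔ : ∀ J, hypDet α J ≠ 0 → hypDet α J ∣ Δ)

include hΔ0 hΔ in
lemma abs_hypDet_le (J : Fin (n + 1) → Fin N) : |(hypDet α J : ℝ)| ≤ |(Δ : ℝ)| := by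
  by_cases h : hypDet α J = 0
  · rw [h]
    simp
  · have h1 := Int.le_of_dvd (abs_pos.2 hΔ0) ((dvd_abs _ _).2 ((abs_dvd _ _).2 (hΔ J h)))
    exact_mod_cast h1

lemma one_le_abs_int {k : ℤ} (hk : k ≠ 0) : (1 : ℝ) ≤ |(k : ℝ)| := by
  have := Int.one_le_abs hk
  exact_mod_cast this

include hΔ0 hΔ in
lemma abs_hypS_le {k : Fin N} (hk : hypVal α β I k ≠ 0) (m : Fin (n + 1)) :
    |hypS α β I k m| ≤ |(Δ : ℝ)| := by
  unfold hypS
  rw [abs_div]
  have h1 := one_le_abs_int hk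
  exact (div_le_self (abs_nonneg _) h1).trans (abs_hypDet_le hΔ0 hΔ _)

variable {c : ℤ}

/-- the radius -/
lemma exists_hypRadius (hI : hypDet α I ≠ 0)
    (hgp : ∀ k, (¬ ∃ m, I m = k) → hypVal α β I k ≠ 0) {b : ℝ} (hb : 0 < b)
    (hΔ0 : Δ ≠ 0) (hΔ : ∀ J, hypDet α J ≠ 0 → hypDet α J ∣ Δ)
    (hc : b ^ (n + 1) * |(Δ : ℝ)| ^ (N + 1) ≤ |(c : ℝ)|) :
    ∃ R ρ : ℝ, 0 < R ∧ |ρ| = R ∧ |(Δ : ℝ)| * R ≤ 1 / b ∧
      (c : ℝ) * (∏ k ∈ Finset.univ.filter (fun k => ¬ ∃ m, I m = k),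
        ((hypVal α β I k : ℝ) / hypDet α I)) * (ρ * R ^ n) = 1 ∧
      (n + 1) * Real.log R = - (Real.log |(c : ℝ)| +
        ∑ k ∈ Finset.univ.filter (fun k => ¬ ∃ m, I m = k),
          Real.log |(hypVal α β I k : ℝ) / hypDet α I|) := by
  set S := Finset.univ.filter (fun k => ¬ ∃ m, I m = k) with hS
  set q : ℝ := (c : ℝ) * ∏ k ∈ S, ((hypVal α β I k : ℝ) / hypDet α I) with hq
  have hΔ1 := one_le_abs_int hΔ0
  have hD0 : (hypDet α I : ℝ) ≠ 0 := Int.cast_ne_zero.2 hI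
  have hc0 : 0 < |(c : ℝ)| := lt_of_lt_of_le (by positivity) hc
  have hcne : (c : ℝ) ≠ 0 := abs_pos.1 hc0
  have hlam : ∀ k ∈ S, 1 / |(Δ : ℝ)| ≤ |(hypVal α β I k : ℝ) / hypDet α I| := by
    intro k hk
    rw [hS, Finset.mem_filter] at hk
    have h1 := one_le_abs_int (hgp k hk.2)
    rw [abs_div]
    exact div_le_div₀ (abs_nonneg _) h1 (abs_pos.2 hD0) (abs_hypDet_le hΔ0 hΔ I)
  have hlam0 : ∀ k ∈ S, 0 < |(hypVal α β I k : ℝ) / hypDet α I| := fun k hk =>
    lt_of_lt_of_le (by positivity) (hlam k hk)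
  -- cardinality
  have hinj : Function.Injective I := hypDet_injective α hI
  have hcard : S.card + (n + 1) = N := by
    have h1 := Finset.card_filter_add_card_filter_not (s := (Finset.univ : Finset (Fin N)))
      (fun k => ∃ m, I m = k)
    have h2 : (Finset.univ.filter fun k => ∃ m, I m = k) = Finset.univ.image I := by
      ext k
      simp
    rw [h2, Finset.card_image_of_injective _ hinj] at h1
    simp only [Finset.card_univ, Fintype.card_fin] at h1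
    rw [hS]
    omega
  have hqabs : b ^ (n + 1) * |(Δ : ℝ)| ^ (n + 2) ≤ |q| := by
    rw [hq, abs_mul, Finset.abs_prod]
    have h1 : (1 / |(Δ : ℝ)|) ^ S.card ≤ ∏ k ∈ S, |(hypVal α β I k : ℝ) / hypDet α I| := by
      rw [← Finset.prod_const]
      exact Finset.prod_le_prod (fun _ _ => by positivity) hlam
    calc b ^ (n + 1) * |(Δ : ℝ)| ^ (n + 2)
        = (b ^ (n + 1) * |(Δ : ℝ)| ^ (N + 1)) * (1 / |(Δ : ℝ)|) ^ S.card := by
          have h2 : N + 1 = (n + 2) + S.card := by omega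
          have h3 : |(Δ : ℝ)| ≠ 0 := by positivity
          have h4 : |(Δ : ℝ)| ^ (N + 1) = |(Δ : ℝ)| ^ (n + 2) * |(Δ : ℝ)| ^ S.card := by
            rw [h2, pow_add]
          have h5 : |(Δ : ℝ)| ^ S.card * (1 / |(Δ : ℝ)|) ^ S.card = 1 := by
            rw [← mul_pow, mul_one_div_cancel h3, one_pow]
          rw [h4, mul_assoc, mul_assoc, h5, mul_one]
      _ ≤ |(c : ℝ)| * ∏ k ∈ S, |(hypVal α β I k : ℝ) / hypDet α I| :=
          mul_le_mul hc h1 (by positivity) (abs_nonneg _)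
  have hq0 : 0 < |q| := lt_of_lt_of_le (by positivity) hqabs
  set R : ℝ := (|q|⁻¹) ^ (((n + 1 : ℕ) : ℝ)⁻¹) with hRdef
  have hR0 : 0 < R := Real.rpow_pos_of_pos (inv_pos.2 hq0) _
  have hRp : R ^ (n + 1) = |q|⁻¹ :=
    Real.rpow_inv_natCast_pow (inv_nonneg.2 hq0.le) (Nat.succ_ne_zero n)
  refine ⟨R, 1 / (q * R ^ n), hR0, ?_, ?_, ?_, ?_⟩
  · rw [abs_div, abs_one, abs_mul, abs_of_pos (pow_pos hR0 n)]
    have h1 : |q| * R ^ (n + 1) = 1 := by
      rw [hRp]
      exact mul_inv_cancel₀ hq0.ne'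
    rw [div_eq_iff (by positivity)]
    calc (1 : ℝ) = |q| * R ^ (n + 1) := h1.symm
      _ = R * (|q| * R ^ n) := by ring
  · rw [← pow_le_pow_iff_left₀ (by positivity) (by positivity) (Nat.succ_ne_zero n), mul_pow, hRp,
      div_pow, one_pow]
    rw [← div_eq_mul_inv, div_le_div_iff₀ hq0 (by positivity), one_mul]
    calc |(Δ : ℝ)| ^ (n + 1) * b ^ (n + 1) ≤ |(Δ : ℝ)| ^ (n + 2) * b ^ (n + 1) :=
          mul_le_mul_of_nonneg_right (pow_le_pow_right₀ hΔ1 (Nat.le_succ _)) (by positivity)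
      _ = b ^ (n + 1) * |(Δ : ℝ)| ^ (n + 2) := mul_comm _ _
      _ ≤ |q| := hqabs
  · have h1 : R ^ n ≠ 0 := (pow_pos hR0 n).ne'
    have h2 : q ≠ 0 := abs_pos.1 hq0
    field_simp
  · have h1 : Real.log (R ^ (n + 1)) = Real.log (|q|⁻¹) := by rw [hRp]
    rw [Real.log_pow, Real.log_inv] at h1
    push_cast at h1
    rw [h1, hq, abs_mul, Finset.abs_prod, Real.log_mul hc0.ne'
      (Finset.prod_ne_zero_iff.2 fun k hk => (hlam0 k hk).ne'),
      Real.log_prod (fun k hk => (hlam0 k hk).ne')]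

end Pool.Agent.Helper11
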