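import Mathlib
import Pool.Agent.Helper11.HTorus

/-! The tori attached to the vertices of an arrangement: existence. -/

namespace Pool.Agent.Helper11

open MeasureTheory Set Metric Topology

variable {n N : ℕ} {α : Fin N → Fin (n + 1) → ℤ} {β : Fin N → ℤ} {I : Fin (n + 1) → Fin N}
  {Δ c : ℤ}

/-- solving for the coordinates -/
lemma solve_coords (hI : hypDet α I ≠ 0) (v : Fin (n + 1) → ℂ) (m : Fin (n + 1)) :
    ∑ p, (α (I m) p : ℂ) * (((hypDet α I : ℤ) : ℂ)⁻¹ *
      ∑ l, (((Matrix.of fun m => α (I m)).adjugate p l : ℤ) : ℂ) * v l) = v m := by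
  have hD : ((hypDet α I : ℤ) : ℂ) ≠ 0 := Int.cast_ne_zero.2 hI
  have h1 : ∀ l, ∑ p, (α (I m) p : ℂ) *
      (((Matrix.of fun m => α (I m)).adjugate p l : ℤ) : ℂ) =
      if m = l then ((hypDet α I : ℤ) : ℂ) else 0 := by
    intro l
    have h2 := congrFun (congrFun (Matrix.mul_adjugate (Matrix.of fun m => α (I m))) m) l
    rw [Matrix.mul_apply, Matrix.smul_apply, Matrix.one_apply] at h2
    have h3 := congrArg (fun t : ℤ => (t : ℂ)) h2
    simp only [Int.cast_sum, Int.cast_mul, Matrix.of_apply, smul_eq_mul] at h3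
    rw [h3]
    by_cases hml : m = l
    · rw [if_pos hml, if_pos hml]
      simp [hypDet]
    · rw [if_neg hml, if_neg hml]
      simp
  have h4 : ∑ p, (α (I m) p : ℂ) * (((hypDet α I : ℤ) : ℂ)⁻¹ *
      ∑ l, (((Matrix.of fun m => α (I m)).adjugate p l : ℤ) : ℂ) * v l) =
      ((hypDet α I : ℤ) : ℂ)⁻¹ * ∑ l, (∑ p, (α (I m) p : ℂ) *
        (((Matrix.of fun m => α (I m)).adjugate p l : ℤ) : ℂ)) * v l := by
    simp only [Finset.mul_sum, Finset.sum_mul]
    rw [Finset.sum_comm]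
    refine Finset.sum_congr rfl fun l _ => Finset.sum_congr rfl fun p _ => ?_
    ring
  rw [h4]
  simp only [h1, ite_mul, zero_mul, Finset.sum_ite_eq, Finset.mem_univ, if_true]
  rw [← mul_assoc, inv_mul_cancel₀ hD, one_mul]

/-- the values of the forms -/
lemma forms_out (hI : hypDet α I ≠ 0) {k : Fin N} (hk : hypVal α β I k ≠ 0)
    {x : Fin (n + 1) → ℂ} {Y : Fin (n + 1) → ℂ}
    (hx : ∀ m, ∑ p, (α (I m) p : ℂ) * x p + β (I m) = Y m) :
    ∑ p, (α k p : ℂ) * x p + β k =
      (((hypVal α β I k : ℝ) / hypDet α I : ℝ) : ℂ) * (1 + ∑ m, (hypS α β I k m : ℂ) * Y m) := by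
  have h1 := hyp_affine α β x I k
  simp only [hx] at h1
  have hD : ((hypDet α I : ℤ) : ℂ) ≠ 0 := Int.cast_ne_zero.2 hI
  have hV : ((hypVal α β I k : ℤ) : ℂ) ≠ 0 := Int.cast_ne_zero.2 hk
  have h2 : ∑ p, (α k p : ℂ) * x p + β k = (∑ m, ((hypDet α (Function.update I m k) : ℤ) : ℂ) *
      Y m + (hypVal α β I k : ℂ)) / ((hypDet α I : ℤ) : ℂ) := by
    rw [eq_div_iff hD, ← h1, mul_comm]
  have h3 : ((hypVal α β I k : ℤ) : ℂ) * ∑ m, (hypS α β I k m : ℂ) * Y m =
      ∑ m, ((hypDet α (Function.update I m k) : ℤ) : ℂ) * Y m := by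
    rw [Finset.mul_sum]
    refine Finset.sum_congr rfl fun m _ => ?_
    unfold hypS
    push_cast
    field_simp
  rw [h2, ← h3]
  push_cast
  field_simp
  ring

/-- The torus at the vertex `I`. -/
theorem exists_hypTorus (hI : hypDet α I ≠ 0)
    (hgp : ∀ k, (¬ ∃ m, I m = k) → hypVal α β I k ≠ 0)
    (hΔ0 : Δ ≠ 0) (hΔ : ∀ J, hypDet α J ≠ 0 → hypDet α J ∣ Δ) {b : ℝ}
    (hb : 100 * ((n : ℝ) + 1) * N ≤ b)
    (hc : b ^ (n + 1) * |(Δ : ℝ)| ^ (N + 1) ≤ |(c : ℝ)|) :
    ∃ R : ℝ, 0 < R ∧ (n + 1) * Real.log R = - (Real.log |(c : ℝ)| +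
        ∑ k ∈ Finset.univ.filter (fun k => ¬ ∃ m, I m = k),
          Real.log |(hypVal α β I k : ℝ) / hypDet α I|) ∧
      ∃ (γ : HypRing α β c →+* TorusRing n) (u : Fin N → (Fin n → ℝ) → ℂ),
        (∀ i, Wnd ((γ (hypForm α β c i) : TorusRing n) : (Fin n → ℝ) → ℂ)
          (hypA α β I R i) (hypW I i) (u i)) ∧
        (∀ i θ, |Real.log ‖u i θ‖| ≤ 40 * ((n : ℝ) + 1) * N / b) ∧
        ∀ i θ (l : Fin n), ‖fderiv ℝ (u i) θ (Pi.single l 1) / u i θ‖ ≤ 1 := by
  classical
  have hinj : Function.Injective I := hypDet_injective α hI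
  have hN : 1 ≤ N := by
    have := Fin.pos (I 0)
    omega
  have hN' : (1 : ℝ) ≤ N := by exact_mod_cast hN
  have hn0 : (0 : ℝ) ≤ n := Nat.cast_nonneg n
  have hb0 : 0 < b := lt_of_lt_of_le (by positivity) hb
  have hb100 : 100 * ((n : ℝ) + 1) ≤ b := by nlinarith
  obtain ⟨R, ρ, hR0, hρ, hΔR, hq, hlogR⟩ := exists_hypRadius (c := c) hI hgp hb0 hΔ0 hΔ hc
  have hΔ1 := one_le_abs_int hΔ0
  have hRb : R ≤ 1 / b := by nlinarith
  have hR' : R < 13 / 125 := by
    have h1 : 1 / b ≤ 1 / 100 := one_div_le_one_div_of_le (by norm_num) (by nlinarith)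
    linarith
  refine ⟨R, hR0, hlogR, ?_⟩
  set S := Finset.univ.filter (fun k => ¬ ∃ m, I m = k) with hS
  have hmemS : ∀ k, k ∈ S ↔ ¬ ∃ m, I m = k := by
    intro k
    simp [hS]
  have hSN : (S.card : ℝ) ≤ N := by
    have h1 : S.card ≤ N := by
      have := Finset.card_le_univ S
      rwa [Fintype.card_fin] at this
    exact_mod_cast h1
  set η : ℝ := ((n : ℝ) + 1) * (|(Δ : ℝ)| * R) with hη
  have hη0 : 0 ≤ η := by positivity
  have hηb : η ≤ ((n : ℝ) + 1) / b := by
    rw [hη, div_eq_mul_one_div]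
    exact mul_le_mul_of_nonneg_left hΔR (by positivity)
  have hη100 : η ≤ 1 / 100 := by
    refine hηb.trans ?_
    rw [div_le_div_iff₀ hb0 (by norm_num)]
    linarith
  have hMη : (S.card : ℝ) * η ≤ ((n : ℝ) + 1) * N / b := by
    calc (S.card : ℝ) * η ≤ N * (((n : ℝ) + 1) / b) :=
          mul_le_mul hSN hηb hη0 (by positivity)
      _ = _ := by ring
  have hM : 100 * S.card * η ≤ 1 := by
    have h1 : ((n : ℝ) + 1) * N / b ≤ 1 / 100 := by
      rw [div_le_div_iff₀ hb0 (by norm_num)]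
      linarith
    nlinarith
  -- the data
  set A : Fin N → (Fin n → ℝ) → ℂ := fun k θ => (hypS α β I k 0 : ℂ) * zf ρ R 0 θ with hA
  set T : Fin N → (Fin n → ℝ) → ℂ := fun k θ =>
    ∑ m : Fin n, (hypS α β I k m.succ : ℂ) * zf ρ R m.succ θ with hT
  have hval : ∀ k ∈ S, hypVal α β I k ≠ 0 := fun k hk => hgp k ((hmemS k).1 hk)
  have hsb : ∀ k ∈ S, ∀ m, ‖(hypS α β I k m : ℂ)‖ ≤ |(Δ : ℝ)| := by
    intro k hk m
    rw [Complex.norm_real, Real.norm_eq_abs]
    exact abs_hypS_le hΔ0 hΔ (hval k hk) m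
  have hΔRη : |(Δ : ℝ)| * R ≤ η := by
    rw [hη]
    have : 0 ≤ |(Δ : ℝ)| * R := by positivity
    nlinarith
  have hnΔRη : (n : ℝ) * (|(Δ : ℝ)| * R) ≤ η := by
    rw [hη]
    have : 0 ≤ |(Δ : ℝ)| * R := by positivity
    nlinarith
  have hAb : ∀ k ∈ S, ∀ θ, ‖A k θ‖ ≤ η := by
    intro k hk θ
    simp only [hA]
    rw [norm_mul, norm_zf hR0 hR' hρ]
    exact (mul_le_mul_of_nonneg_right (hsb k hk 0) hR0.le).trans hΔRη
  have hTb : ∀ k ∈ S, ∀ θ, ‖T k θ‖ ≤ η := by
    intro k hk θ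
    simp only [hT]
    refine (norm_sum_le _ _).trans (le_trans ?_ hnΔRη)
    calc ∑ m : Fin n, ‖(hypS α β I k m.succ : ℂ) * zf ρ R m.succ θ‖
        ≤ ∑ _m : Fin n, |(Δ : ℝ)| * R := by
          refine Finset.sum_le_sum fun m _ => ?_
          rw [norm_mul, norm_zf hR0 hR' hρ]
          exact mul_le_mul_of_nonneg_right (hsb k hk _) hR0.le
      _ = _ := by
        rw [Finset.sum_const, Finset.card_univ, Fintype.card_fin, nsmul_eq_mul]
  have hAl : ∀ k ∈ S, ∀ θ (j : Fin n) (s : ℝ), ‖A k (θ + Pi.single j s) - A k θ‖ ≤ η * |s| := by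
    intro k hk θ j s
    simp only [hA]
    rw [← mul_sub, norm_mul]
    calc ‖(hypS α β I k 0 : ℂ)‖ * ‖zf ρ R 0 (θ + Pi.single j s) - zf ρ R 0 θ‖
        ≤ |(Δ : ℝ)| * (R * |s|) := mul_le_mul (hsb k hk 0) (zf_lip hR0 hρ _ _ _ _)
          (norm_nonneg _) (abs_nonneg _)
      _ = |(Δ : ℝ)| * R * |s| := by ring
      _ ≤ _ := mul_le_mul_of_nonneg_right hΔRη (abs_nonneg _)
  have hTl : ∀ k ∈ S, ∀ θ (j : Fin n) (s : ℝ), ‖T k (θ + Pi.single j s) - T k θ‖ ≤ η * |s| := by
    intro k hk θ j s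
    simp only [hT]
    rw [← Finset.sum_sub_distrib]
    refine (norm_sum_le _ _).trans ?_
    calc ∑ m : Fin n, ‖(hypS α β I k m.succ : ℂ) * zf ρ R m.succ (θ + Pi.single j s) -
          (hypS α β I k m.succ : ℂ) * zf ρ R m.succ θ‖
        ≤ ∑ _m : Fin n, |(Δ : ℝ)| * R * |s| := by
          refine Finset.sum_le_sum fun m _ => ?_
          rw [← mul_sub, norm_mul, mul_assoc]
          exact mul_le_mul (hsb k hk _) (zf_lip hR0 hρ _ _ _ _) (norm_nonneg _) (abs_nonneg _)
      _ = (n : ℝ) * (|(Δ : ℝ)| * R) * |s| := by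
        rw [Finset.sum_const, Finset.card_univ, Fintype.card_fin, nsmul_eq_mul]
        ring
      _ ≤ _ := mul_le_mul_of_nonneg_right hnΔRη (abs_nonneg _)
  have hAs : ∀ k, ContDiff ℝ 2 (A k) := fun k => contDiff_const.mul (contDiff_zf ρ R 0)
  have hTs : ∀ k, ContDiff ℝ 2 (T k) := fun k =>
    ContDiff.sum fun m _ => contDiff_const.mul (contDiff_zf ρ R m.succ)
  have hAp : ∀ k, ∀ (m : Fin n) θ, A k (θ + Pi.single m (2 * Real.pi)) = A k θ := by
    intro k m θ
    simp only [hA, zf_per]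
  have hTp : ∀ k, ∀ (m : Fin n) θ, T k (θ + Pi.single m (2 * Real.pi)) = T k θ := by
    intro k m θ
    simp only [hT, zf_per]
  obtain ⟨h, hhs, hhp, hh1, hhl, hheq⟩ := exists_scale S A T hη0 hη100 hM
    (fun k _ => hAs k) (fun k _ => hTs k) hAb hTb hAl hTl (fun k _ => hAp k) (fun k _ => hTp k)
  have hMη0 : 0 ≤ (S.card : ℝ) * η := by positivity
  have hh15 : ∀ θ, ‖h θ - 1‖ ≤ 1 / 5 := by
    intro θ
    have := hh1 θ
    nlinarith
  have hhTU : TU h := ⟨hhs, fun m θ => hhp m θ, fun θ h0 => by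
    have := hh15 θ
    rw [h0, zero_sub, norm_neg, norm_one] at this
    linarith⟩
  have hhslit : ∀ θ, h θ ∈ Complex.slitPlane := fun θ =>
    slit_of_near ((hh15 θ).trans_lt (by norm_num))
  -- the functions near one
  set g : Fin N → (Fin n → ℝ) → ℂ := fun k θ => 1 + A k θ * h θ + T k θ with hg
  have hg1 : ∀ k ∈ S, ∀ θ, ‖g k θ - 1‖ ≤ 11 / 5 * η := by
    intro k hk θ
    have e : g k θ - 1 = A k θ * h θ + T k θ := by
      simp only [hg]
      ring
    rw [e]
    have h2 := (norm_near (hh15 θ)).2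
    calc ‖A k θ * h θ + T k θ‖ ≤ ‖A k θ‖ * ‖h θ‖ + ‖T k θ‖ := by
          refine (norm_add_le _ _).trans ?_
          rw [norm_mul]
      _ ≤ η * (1 + 1 / 5) + η := add_le_add
          (mul_le_mul (hAb k hk θ) h2 (norm_nonneg _) hη0) (hTb k hk θ)
      _ = _ := by ring
  have hg15 : ∀ k ∈ S, ∀ θ, ‖g k θ - 1‖ ≤ 1 / 5 := fun k hk θ => (hg1 k hk θ).trans (by linarith)
  have hgs : ∀ k, ContDiff ℝ 2 (g k) := fun k =>
    (contDiff_const.add ((hAs k).mul hhs)).add (hTs k)
  have hgTU : ∀ k ∈ S, TU (g k) := fun k hk => ⟨hgs k, fun m θ => by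
    simp only [hg, hAp, hTp, hhp], fun θ h0 => by
    have := hg15 k hk θ
    rw [h0, zero_sub, norm_neg, norm_one] at this
    linarith⟩
  have hgslit : ∀ k ∈ S, ∀ θ, g k θ ∈ Complex.slitPlane := fun k hk θ =>
    slit_of_near ((hg15 k hk θ).trans_lt (by norm_num))
  -- the coordinates of the vertex forms
  set u0 : Fin (n + 1) → (Fin n → ℝ) → ℂ := Fin.cons h (fun _ _ => 1) with hu0
  set Y : Fin (n + 1) → (Fin n → ℝ) → ℂ := fun m θ => zf ρ R m θ * u0 m θ with hY
  have hu0TU : ∀ m, TU (u0 m) := by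
    intro m
    refine Fin.cases ?_ (fun k => ?_) m
    · simpa [hu0] using hhTU
    · simpa [hu0] using (TU_const one_ne_zero : TU (fun _ : Fin n → ℝ => (1 : ℂ)))
  have hu0slit : ∀ m θ, u0 m θ ∈ Complex.slitPlane := by
    intro m θ
    refine Fin.cases ?_ (fun k => ?_) m
    · simpa [hu0] using hhslit θ
    · simp only [hu0, Fin.cons_succ]
      exact Complex.one_mem_slitPlane
  have hYs : ∀ m, ContDiff ℝ 2 (Y m) := fun m => (contDiff_zf ρ R m).mul (hu0TU m).smooth
  have hYp : ∀ m (l : Fin n) θ, Y m (θ + Pi.single l (2 * Real.pi)) = Y m θ := by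
    intro m l θ
    simp only [hY, zf_per, (hu0TU m).per]
  have hYprod : ∀ θ, ∏ m, Y m θ = h θ * ((ρ * R ^ n : ℝ) : ℂ) := by
    intro θ
    simp only [hY]
    rw [Finset.prod_mul_distrib, prod_zf_eq, Fin.prod_univ_succ]
    simp [hu0, mul_comm]
  have hYg : ∀ k θ, 1 + ∑ m, (hypS α β I k m : ℂ) * Y m θ = g k θ := by
    intro k θ
    rw [Fin.sum_univ_succ]
    simp only [hY, hg, hA, hT, hu0, Fin.cons_zero, Fin.cons_succ, mul_one]
    ring
  -- the point of the torus
  set x : Fin (n + 1) → (Fin n → ℝ) → ℂ := fun p θ => ((hypDet α I : ℤ) : ℂ)⁻¹ *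
      ∑ l, (((Matrix.of fun m => α (I m)).adjugate p l : ℤ) : ℂ) * (Y l θ - β (I l)) with hx
  have hxs : ∀ p, ContDiff ℝ 2 (x p) := fun p => contDiff_const.mul
    (ContDiff.sum fun l _ => contDiff_const.mul ((hYs l).sub contDiff_const))
  have hxp : ∀ p (l : Fin n) θ, x p (θ + Pi.single l (2 * Real.pi)) = x p θ := by
    intro p l θ
    simp only [hx, hYp]
  have hxY : ∀ θ m, ∑ p, (α (I m) p : ℂ) * x p θ + β (I m) = Y m θ := by
    intro θ m
    have h1 := solve_coords hI (fun l => Y l θ - (β (I l) : ℂ)) m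
    simp only [hx]
    rw [h1]
    ring
  have hxk : ∀ θ, ∀ k ∈ S, ∑ p, (α k p : ℂ) * x p θ + β k =
      (((hypVal α β I k : ℝ) / hypDet α I : ℝ) : ℂ) * g k θ := by
    intro θ k hk
    rw [forms_out hI (hval k hk) (hxY θ), hYg]
  set s : Fin (n + 1) → TorusRing n := fun p => ⟨x p, hxs p, fun l θ => hxp p l θ⟩ with hs
  have hint : ∀ (k : ℤ), (((k : TorusRing n) : TorusRing n) : (Fin n → ℝ) → ℂ) =
      fun _ => (k : ℂ) := by
    intro k
    rw [SubringClass.coe_intCast]
    rfl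
  have hform : ∀ i, (((∑ p, (α i p : TorusRing n) * s p + (β i : TorusRing n)) : TorusRing n) :
      (Fin n → ℝ) → ℂ) = fun θ => ∑ p, (α i p : ℂ) * x p θ + β i := by
    intro i
    funext θ
    rw [Subring.coe_add, Pi.add_apply, hint]
    congr 1
    rw [AddSubmonoidClass.coe_finsetSum, Finset.sum_apply]
    refine Finset.sum_congr rfl fun p _ => ?_
    rw [Subring.coe_mul, Pi.mul_apply, hint]
  have hrel : (c : TorusRing n) * ∏ i, (∑ p, (α i p : TorusRing n) * s p +
      (β i : TorusRing n)) = 1 := by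
    apply Subtype.ext
    funext θ
    have e1 : (((c : TorusRing n) * ∏ i, (∑ p, (α i p : TorusRing n) * s p +
      (β i : TorusRing n)) : TorusRing n) : (Fin n → ℝ) → ℂ) θ =
        (c : ℂ) * ∏ i, (∑ p, (α i p : ℂ) * x p θ + β i) := by
      rw [Subring.coe_mul, Pi.mul_apply, hint]
      congr 1
      rw [SubmonoidClass.coe_finsetProd, Finset.prod_apply]
      refine Finset.prod_congr rfl fun i _ => ?_
      rw [hform]
    rw [e1]
    have e2 : ∏ i, (∑ p, (α i p : ℂ) * x p θ + β i) =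
        (∏ m, Y m θ) * ∏ k ∈ S, ((((hypVal α β I k : ℝ) / hypDet α I : ℝ) : ℂ) * g k θ) := by
      rw [← Finset.prod_filter_mul_prod_filter_not Finset.univ (fun k => ∃ m, I m = k)]
      congr 1
      · have h2 : (Finset.univ.filter fun k => ∃ m, I m = k) = Finset.univ.image I := by
          ext k
          simp
        rw [h2, Finset.prod_image fun a _ b _ hab => hinj hab]
        exact Finset.prod_congr rfl fun m _ => hxY θ m
      · exact Finset.prod_congr rfl fun k hk => hxk θ k hk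
    rw [e2, hYprod, Finset.prod_mul_distrib]
    have e3 : h θ * ∏ k ∈ S, g k θ = 1 := hheq θ
    have e4 : ((c : ℝ) : ℂ) * (∏ k ∈ S, (((hypVal α β I k : ℝ) / hypDet α I : ℝ) : ℂ)) *
        ((ρ * R ^ n : ℝ) : ℂ) = 1 := by
      have := congrArg (fun t : ℝ => (t : ℂ)) hq
      simp only [Complex.ofReal_mul, Complex.ofReal_prod, Complex.ofReal_one] at this
      rw [← this]
      push_cast
      ring
    calc (c : ℂ) * (h θ * ((ρ * R ^ n : ℝ) : ℂ) *
          ((∏ k ∈ S, (((hypVal α β I k : ℝ) / hypDet α I : ℝ) : ℂ)) * ∏ k ∈ S, g k θ))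
        = (((c : ℝ) : ℂ) * (∏ k ∈ S, (((hypVal α β I k : ℝ) / hypDet α I : ℝ) : ℂ)) *
          ((ρ * R ^ n : ℝ) : ℂ)) * (h θ * ∏ k ∈ S, g k θ) := by
          push_cast
          ring
      _ = 1 := by rw [e3, e4, one_mul]
  obtain ⟨γ, hγ⟩ := exists_hypHom (α := α) (β := β) (c := c) s hrel
  set u : Fin N → (Fin n → ℝ) → ℂ := fun i =>
    if hi : ∃ m, I m = i then u0 (Classical.choose hi) else g i with hu
  have huI : ∀ m, u (I m) = u0 m := by
    intro m
    have hi : ∃ m', I m' = I m := ⟨m, rfl⟩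
    simp only [hu]
    rw [dif_pos hi]
    congr 1
    exact hinj (Classical.choose_spec hi)
  have huk : ∀ k ∈ S, u k = g k := by
    intro k hk
    simp only [hu]
    rw [dif_neg ((hmemS k).1 hk)]
  have hγf : ∀ i, ((γ (hypForm α β c i) : TorusRing n) : (Fin n → ℝ) → ℂ) =
      fun θ => ∑ p, (α i p : ℂ) * x p θ + β i := by
    intro i
    rw [hγ, hform]
  refine ⟨γ, u, ?_, ?_, ?_⟩
  · intro i
    rw [hγf]
    by_cases hi : ∃ m, I m = i
    · obtain ⟨m, rfl⟩ := hi
      have e1 : (fun θ => ∑ p, (α (I m) p : ℂ) * x p θ + β (I m)) =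
          fun θ => zf ρ R m θ * u0 m θ := by
        funext θ
        exact hxY θ m
      rw [e1, huI, hypW_of hinj]
      unfold hypA
      rw [if_pos ⟨m, rfl⟩]
      exact Wnd.zf_mul hR0 hR' hρ (hu0TU m) (hu0slit m) m
    · have hk : i ∈ S := (hmemS i).2 hi
      have e1 : (fun θ => ∑ p, (α i p : ℂ) * x p θ + β i) =
          fun θ => (((hypVal α β I i : ℝ) / hypDet α I : ℝ) : ℂ) * g i θ := by
        funext θ
        exact hxk θ i hk
      rw [e1, huk i hk, hypW_out hi]
      unfold hypA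
      rw [if_neg hi]
      have hne : (((hypVal α β I i : ℝ) / hypDet α I : ℝ) : ℂ) ≠ 0 := by
        rw [Complex.ofReal_ne_zero]
        exact div_ne_zero (Int.cast_ne_zero.2 (hval i hk)) (Int.cast_ne_zero.2 hI)
      have h1 := Wnd.const_mul_near (hgTU i hk) (hgslit i hk) hne
      rw [Complex.norm_real, Real.norm_eq_abs] at h1
      exact h1
  · intro i θ
    have hbd : 0 ≤ 40 * ((n : ℝ) + 1) * N / b := by positivity
    have e40 : 40 * ((n : ℝ) + 1) * N / b = 40 * (((n : ℝ) + 1) * N / b) := by ring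
    by_cases hi : ∃ m, I m = i
    · obtain ⟨m, rfl⟩ := hi
      rw [huI]
      refine Fin.cases ?_ (fun k => ?_) m
      · simp only [hu0, Fin.cons_zero]
        refine (abs_log_near ?_ (hh1 θ)).trans ?_
        · nlinarith
        · rw [e40]
          linarith
      · simp only [hu0, Fin.cons_succ, norm_one, Real.log_one, abs_zero]
        exact hbd
    · have hk : i ∈ S := (hmemS i).2 hi
      rw [huk i hk]
      refine (abs_log_near ?_ (hg1 i hk θ)).trans ?_
      · linarith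
      · rw [e40]
        have h1 : ((n : ℝ) + 1) / b ≤ ((n : ℝ) + 1) * N / b := by
          refine div_le_div_of_nonneg_right ?_ hb0.le
          nlinarith
        linarith
  · intro i θ l
    by_cases hi : ∃ m, I m = i
    · obtain ⟨m, rfl⟩ := hi
      rw [huI]
      refine Fin.cases ?_ (fun k => ?_) m
      · simp only [hu0, Fin.cons_zero]
        have h1 : ‖fderiv ℝ h θ (Pi.single l 1)‖ ≤ 27 * S.card * η :=
          norm_fderiv_single_le (hhs.differentiable (by norm_num) θ) (by positivity)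
            (fun s => hhl θ l s)
        have h2 := (norm_near (hh15 θ)).1
        rw [norm_div]
        refine (div_le_one₀ (by linarith)).2 ?_
        nlinarith
      · have e : fderiv ℝ (u0 k.succ) θ = 0 := by
          simp only [hu0, Fin.cons_succ]
          exact fderiv_const_apply (1 : ℂ)
        rw [e]
        simp
    · have hk : i ∈ S := (hmemS i).2 hi
      rw [huk i hk]
      have h1 : ‖fderiv ℝ (g i) θ (Pi.single l 1)‖ ≤ 5 / 2 * η := by
        refine norm_fderiv_single_le ((hgs i).differentiable (by norm_num) θ) (by positivity)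
          fun s => ?_
        have e : g i (θ + Pi.single l s) - g i θ =
            (A i (θ + Pi.single l s) - A i θ) * h (θ + Pi.single l s) +
            A i θ * (h (θ + Pi.single l s) - h θ) + (T i (θ + Pi.single l s) - T i θ) := by
          simp only [hg]
          ring
        rw [e]
        have h2 := (norm_near (hh15 (θ + Pi.single l s))).2
        have h3 := hhl θ l s
        calc ‖(A i (θ + Pi.single l s) - A i θ) * h (θ + Pi.single l s) +
            A i θ * (h (θ + Pi.single l s) - h θ) + (T i (θ + Pi.single l s) - T i θ)‖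
            ≤ ‖A i (θ + Pi.single l s) - A i θ‖ * ‖h (θ + Pi.single l s)‖ +
              ‖A i θ‖ * ‖h (θ + Pi.single l s) - h θ‖ +
              ‖T i (θ + Pi.single l s) - T i θ‖ := by
              refine (norm_add_le _ _).trans (add_le_add_left ?_ _)
              refine (norm_add_le _ _).trans ?_
              rw [norm_mul, norm_mul]
          _ ≤ η * |s| * (1 + 1 / 5) + η * (27 * S.card * η * |s|) + η * |s| := by
              refine add_le_add (add_le_add ?_ ?_) (hTl i hk θ l s)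
              · exact mul_le_mul (hAl i hk θ l s) h2 (norm_nonneg _) (by positivity)
              · exact mul_le_mul (hAb i hk θ) h3 (norm_nonneg _) hη0
          _ = (11 / 5 + 27 * (S.card * η)) * (η * |s|) := by ring
          _ ≤ 5 / 2 * (η * |s|) := by
              refine mul_le_mul_of_nonneg_right ?_ (by positivity)
              nlinarith
          _ = _ := by ring
      have h2 := (norm_near (hg15 i hk θ)).1
      rw [norm_div]
      refine (div_le_one₀ (by linarith)).2 ?_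
      linarith

end Pool.Agent.Helper11
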