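import Mathlib
import Pool.Agent.Helper11.HTorus2

/-! The tori attached to the vertices of an arrangement, with variable radii. -/

namespace Pool.Agent.Helper11

open MeasureTheory Set Metric Topology

variable {n N : ℕ} {α : Fin N → Fin (n + 1) → ℤ} {β : Fin N → ℤ} {I : Fin (n + 1) → Fin N}
  {Δ c : ℤ}

/-- the correction of the radii -/
noncomputable def hypM (I : Fin (n + 1) → Fin N) (μ : Fin (n + 1) → ℝ) (i : Fin N) : ℝ :=
  ∑ m, if I m = i then Real.log (μ m) else 0

lemma hypM_of (hI : Function.Injective I) (μ : Fin (n + 1) → ℝ) (m : Fin (n + 1)) :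
    hypM I μ (I m) = Real.log (μ m) := by
  unfold hypM
  rw [Finset.sum_eq_single m]
  · simp
  · intro m' _ hm'
    rw [if_neg fun h => hm' (hI h)]
  · intro h
    exact absurd (Finset.mem_univ m) h

lemma hypM_out (μ : Fin (n + 1) → ℝ) {k : Fin N} (hk : ¬ ∃ m, I m = k) : hypM I μ k = 0 := by
  unfold hypM
  refine Finset.sum_eq_zero fun m _ => ?_
  rw [if_neg fun h => hk ⟨m, h⟩]

/-- The tori at the vertex `I`. -/
theorem exists_hypTorus' (hI : hypDet α I ≠ 0)
    (hgp : ∀ k, (¬ ∃ m, I m = k) → hypVal α β I k ≠ 0)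
    (hΔ0 : Δ ≠ 0) (hΔ : ∀ J, hypDet α J ≠ 0 → hypDet α J ∣ Δ) {b : ℝ}
    (hb : 200 * ((n : ℝ) + 1) * N ≤ b)
    (hc : b ^ (n + 1) * |(Δ : ℝ)| ^ (N + 1) ≤ |(c : ℝ)|) :
    ∃ R : ℝ, 0 < R ∧ (n + 1) * Real.log R = - (Real.log |(c : ℝ)| +
        ∑ k ∈ Finset.univ.filter (fun k => ¬ ∃ m, I m = k),
          Real.log |(hypVal α β I k : ℝ) / hypDet α I|) ∧
      ∀ μ : Fin (n + 1) → ℝ, (∀ m, 0 < μ m) → (∀ m, μ m ≤ 2) → ∏ m, μ m = 1 →
      ∃ (s : Fin (n + 1) → TorusRing n) (u : Fin N → (Fin n → ℝ) → ℂ),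
        (c : TorusRing n) * ∏ i, (∑ p, (α i p : TorusRing n) * s p + (β i : TorusRing n)) = 1 ∧
        (∀ i, Wnd (((∑ p, (α i p : TorusRing n) * s p + (β i : TorusRing n)) : TorusRing n) :
          (Fin n → ℝ) → ℂ) (hypA α β I R i + hypM I μ i) (hypW I i) (u i)) ∧
        (∀ i θ, |Real.log ‖u i θ‖| ≤ 80 * ((n : ℝ) + 1) * N / b) ∧
        (∀ i θ (l : Fin n), ‖fderiv ℝ (u i) θ (Pi.single l 1) / u i θ‖ ≤ 1) ∧
        ∀ (m : Fin n) θ, ‖(((∑ p, (α (I m.succ) p : TorusRing n) * s p +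
          (β (I m.succ) : TorusRing n)) : TorusRing n) : (Fin n → ℝ) → ℂ) θ‖ =
            μ m.succ * R := by
  classical
  have hinj : Function.Injective I := hypDet_injective α hI
  have hN : 1 ≤ N := by
    have := Fin.pos (I 0)
    omega
  have hN' : (1 : ℝ) ≤ N := by exact_mod_cast hN
  have hn0 : (0 : ℝ) ≤ n := Nat.cast_nonneg n
  have hb0 : 0 < b := lt_of_lt_of_le (by positivity) hb
  have hb100 : 200 * ((n : ℝ) + 1) ≤ b := by nlinarith
  obtain ⟨R, ρ, hR0, hρ, hΔR, hq, hlogR⟩ := exists_hypRadius (c := c) hI hgp hb0 hΔ0 hΔ hc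
  have hΔ1 := one_le_abs_int hΔ0
  have hRb : R ≤ 1 / b := by nlinarith
  have hR' : R < 13 / 125 := by
    have h1 : 1 / b ≤ 1 / 100 := one_div_le_one_div_of_le (by norm_num) (by nlinarith)
    linarith
  refine ⟨R, hR0, hlogR, ?_⟩
  intro μ hμ0 hμ2 hμ1
  set S := Finset.univ.filter (fun k => ¬ ∃ m, I m = k) with hS
  have hmemS : ∀ k, k ∈ S ↔ ¬ ∃ m, I m = k := by
    intro k
    simp [hS]
  have hSN : (S.card : ℝ) ≤ N := by
    have h1 : S.card ≤ N := by
      have := Finset.card_le_univ S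
      rwa [Fintype.card_fin] at this
    exact_mod_cast h1
  set η : ℝ := ((n : ℝ) + 1) * (2 * |(Δ : ℝ)| * R) with hη
  have hη0 : 0 ≤ η := by positivity
  have hηb : η ≤ 2 * (((n : ℝ) + 1) / b) := by
    rw [hη]
    calc ((n : ℝ) + 1) * (2 * |(Δ : ℝ)| * R) = 2 * (((n : ℝ) + 1) * (|(Δ : ℝ)| * R)) := by ring
      _ ≤ 2 * (((n : ℝ) + 1) * (1 / b)) :=
        mul_le_mul_of_nonneg_left (mul_le_mul_of_nonneg_left hΔR (by positivity)) (by norm_num)
      _ = _ := by ring
  have hη100 : η ≤ 1 / 100 := by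
    have h1 : ((n : ℝ) + 1) / b ≤ 1 / 200 := by
      rw [div_le_div_iff₀ hb0 (by norm_num)]
      linarith
    linarith
  have hMη : (S.card : ℝ) * η ≤ 2 * (((n : ℝ) + 1) * N / b) := by
    calc (S.card : ℝ) * η ≤ N * (2 * (((n : ℝ) + 1) / b)) :=
          mul_le_mul hSN hηb hη0 (by positivity)
      _ = _ := by ring
  have hM : 100 * S.card * η ≤ 1 := by
    have h1 : ((n : ℝ) + 1) * N / b ≤ 1 / 200 := by
      rw [div_le_div_iff₀ hb0 (by norm_num)]
      linarith
    nlinarith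
  -- the data
  set A : Fin N → (Fin n → ℝ) → ℂ := fun k θ =>
    (((hypS α β I k 0 * μ 0 : ℝ)) : ℂ) * zf ρ R 0 θ with hA
  set T : Fin N → (Fin n → ℝ) → ℂ := fun k θ =>
    ∑ m : Fin n, ((hypS α β I k m.succ * μ m.succ : ℝ) : ℂ) * zf ρ R m.succ θ with hT
  have hval : ∀ k ∈ S, hypVal α β I k ≠ 0 := fun k hk => hgp k ((hmemS k).1 hk)
  have hsb : ∀ k ∈ S, ∀ m, ‖((hypS α β I k m * μ m : ℝ) : ℂ)‖ ≤ 2 * |(Δ : ℝ)| := by
    intro k hk m
    rw [Complex.norm_real, Real.norm_eq_abs, abs_mul, abs_of_pos (hμ0 m), mul_comm 2]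
    exact mul_le_mul (abs_hypS_le hΔ0 hΔ (hval k hk) m) (hμ2 m) (hμ0 m).le (abs_nonneg _)
  have hΔRη : 2 * |(Δ : ℝ)| * R ≤ η := by
    rw [hη]
    have : 0 ≤ 2 * |(Δ : ℝ)| * R := by positivity
    nlinarith
  have hnΔRη : (n : ℝ) * (2 * |(Δ : ℝ)| * R) ≤ η := by
    rw [hη]
    have : 0 ≤ 2 * |(Δ : ℝ)| * R := by positivity
    nlinarith
  have hAb : ∀ k ∈ S, ∀ θ, ‖A k θ‖ ≤ η := by
    intro k hk θ
    simp only [hA]
    rw [norm_mul, norm_zf hR0 hR' hρ]
    exact (mul_le_mul_of_nonneg_right (hsb k hk 0) hR0.le).trans hΔRη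
  have hTb : ∀ k ∈ S, ∀ θ, ‖T k θ‖ ≤ η := by
    intro k hk θ
    simp only [hT]
    refine (norm_sum_le _ _).trans (le_trans ?_ hnΔRη)
    calc ∑ m : Fin n, ‖((hypS α β I k m.succ * μ m.succ : ℝ) : ℂ) * zf ρ R m.succ θ‖
        ≤ ∑ _m : Fin n, 2 * |(Δ : ℝ)| * R := by
          refine Finset.sum_le_sum fun m _ => ?_
          rw [norm_mul, norm_zf hR0 hR' hρ]
          exact mul_le_mul_of_nonneg_right (hsb k hk _) hR0.le
      _ = _ := by
        rw [Finset.sum_const, Finset.card_univ, Fintype.card_fin, nsmul_eq_mul]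
  have hAl : ∀ k ∈ S, ∀ θ (j : Fin n) (s : ℝ), ‖A k (θ + Pi.single j s) - A k θ‖ ≤ η * |s| := by
    intro k hk θ j s
    simp only [hA]
    rw [← mul_sub, norm_mul]
    calc ‖((hypS α β I k 0 * μ 0 : ℝ) : ℂ)‖ * ‖zf ρ R 0 (θ + Pi.single j s) - zf ρ R 0 θ‖
        ≤ 2 * |(Δ : ℝ)| * (R * |s|) := mul_le_mul (hsb k hk 0) (zf_lip hR0 hρ _ _ _ _)
          (norm_nonneg _) (by positivity)
      _ = 2 * |(Δ : ℝ)| * R * |s| := by ring
      _ ≤ _ := mul_le_mul_of_nonneg_right hΔRη (abs_nonneg _)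
  have hTl : ∀ k ∈ S, ∀ θ (j : Fin n) (s : ℝ), ‖T k (θ + Pi.single j s) - T k θ‖ ≤ η * |s| := by
    intro k hk θ j s
    simp only [hT]
    rw [← Finset.sum_sub_distrib]
    refine (norm_sum_le _ _).trans ?_
    calc ∑ m : Fin n, ‖((hypS α β I k m.succ * μ m.succ : ℝ) : ℂ) *
            zf ρ R m.succ (θ + Pi.single j s) -
          ((hypS α β I k m.succ * μ m.succ : ℝ) : ℂ) * zf ρ R m.succ θ‖
        ≤ ∑ _m : Fin n, 2 * |(Δ : ℝ)| * R * |s| := by
          refine Finset.sum_le_sum fun m _ => ?_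
          rw [← mul_sub, norm_mul, mul_assoc]
          exact mul_le_mul (hsb k hk _) (zf_lip hR0 hρ _ _ _ _) (norm_nonneg _) (by positivity)
      _ = (n : ℝ) * (2 * |(Δ : ℝ)| * R) * |s| := by
        rw [Finset.sum_const, Finset.card_univ, Fintype.card_fin, nsmul_eq_mul]
        ring
      _ ≤ _ := mul_le_mul_of_nonneg_right hnΔRη (abs_nonneg _)
  have hAs : ∀ k, ContDiff ℝ 2 (A k) := fun k => contDiff_const.mul (contDiff_zf ρ R 0)
  have hTs : ∀ k, ContDiff ℝ 2 (T k) := fun k =>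
    ContDiff.sum fun m _ => contDiff_const.mul (contDiff_zf ρ R m.succ)
  have hAp : ∀ k, ∀ (m : Fin n) θ, A k (θ + Pi.single m (2 * Real.pi)) = A k θ := by
    intro k m θ
    simp only [hA, zf_per]
  have hTp : ∀ k, ∀ (m : Fin n) θ, T k (θ + Pi.single m (2 * Real.pi)) = T k θ := by
    intro k m θ
    simp only [hT, zf_per]
  obtain ⟨h, hhs, hhp, hh1, hhl, hheq⟩ := exists_scale S A T hη0 hη100 hM
    (fun k _ => hAs k) (fun k _ => hTs k) hAb hTb hAl hTl (fun k _ => hAp k) (fun k _ => hTp k)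
  have hMη0 : 0 ≤ (S.card : ℝ) * η := by positivity
  have hh15 : ∀ θ, ‖h θ - 1‖ ≤ 1 / 5 := by
    intro θ
    have := hh1 θ
    nlinarith
  have hhTU : TU h := ⟨hhs, fun m θ => hhp m θ, fun θ h0 => by
    have := hh15 θ
    rw [h0, zero_sub, norm_neg, norm_one] at this
    linarith⟩
  have hhslit : ∀ θ, h θ ∈ Complex.slitPlane := fun θ =>
    slit_of_near ((hh15 θ).trans_lt (by norm_num))
  -- the functions near one
  set g : Fin N → (Fin n → ℝ) → ℂ := fun k θ => 1 + A k θ * h θ + T k θ with hg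
  have hg1 : ∀ k ∈ S, ∀ θ, ‖g k θ - 1‖ ≤ 11 / 5 * η := by
    intro k hk θ
    have e : g k θ - 1 = A k θ * h θ + T k θ := by
      simp only [hg]
      ring
    rw [e]
    have h2 := (norm_near (hh15 θ)).2
    calc ‖A k θ * h θ + T k θ‖ ≤ ‖A k θ‖ * ‖h θ‖ + ‖T k θ‖ := by
          refine (norm_add_le _ _).trans ?_
          rw [norm_mul]
      _ ≤ η * (1 + 1 / 5) + η := add_le_add
          (mul_le_mul (hAb k hk θ) h2 (norm_nonneg _) hη0) (hTb k hk θ)
      _ = _ := by ring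
  have hg15 : ∀ k ∈ S, ∀ θ, ‖g k θ - 1‖ ≤ 1 / 5 := fun k hk θ => (hg1 k hk θ).trans (by linarith)
  have hgs : ∀ k, ContDiff ℝ 2 (g k) := fun k =>
    (contDiff_const.add ((hAs k).mul hhs)).add (hTs k)
  have hgTU : ∀ k ∈ S, TU (g k) := fun k hk => ⟨hgs k, fun m θ => by
    simp only [hg, hAp, hTp, hhp], fun θ h0 => by
    have := hg15 k hk θ
    rw [h0, zero_sub, norm_neg, norm_one] at this
    linarith⟩
  have hgslit : ∀ k ∈ S, ∀ θ, g k θ ∈ Complex.slitPlane := fun k hk θ =>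
    slit_of_near ((hg15 k hk θ).trans_lt (by norm_num))
  -- the coordinates of the vertex forms
  set u0 : Fin (n + 1) → (Fin n → ℝ) → ℂ := Fin.cons h (fun _ _ => 1) with hu0
  set Y : Fin (n + 1) → (Fin n → ℝ) → ℂ := fun m θ => (μ m : ℂ) * (zf ρ R m θ * u0 m θ) with hY
  have hu0TU : ∀ m, TU (u0 m) := by
    intro m
    refine Fin.cases ?_ (fun k => ?_) m
    · simpa [hu0] using hhTU
    · simpa [hu0] using (TU_const one_ne_zero : TU (fun _ : Fin n → ℝ => (1 : ℂ)))
  have hu0slit : ∀ m θ, u0 m θ ∈ Complex.slitPlane := by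
    intro m θ
    refine Fin.cases ?_ (fun k => ?_) m
    · simpa [hu0] using hhslit θ
    · simp only [hu0, Fin.cons_succ]
      exact Complex.one_mem_slitPlane
  have hYs : ∀ m, ContDiff ℝ 2 (Y m) := fun m =>
    contDiff_const.mul ((contDiff_zf ρ R m).mul (hu0TU m).smooth)
  have hYp : ∀ m (l : Fin n) θ, Y m (θ + Pi.single l (2 * Real.pi)) = Y m θ := by
    intro m l θ
    simp only [hY, zf_per, (hu0TU m).per]
  have hYprod : ∀ θ, ∏ m, Y m θ = h θ * ((ρ * R ^ n : ℝ) : ℂ) := by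
    intro θ
    simp only [hY]
    rw [Finset.prod_mul_distrib, Finset.prod_mul_distrib, prod_zf_eq, ← Complex.ofReal_prod, hμ1]
    have h1 : ∏ m, u0 m θ = h θ := by
      rw [Fin.prod_univ_succ]
      simp [hu0]
    rw [h1, Complex.ofReal_one, one_mul, mul_comm]
  have hYg : ∀ k θ, 1 + ∑ m, (hypS α β I k m : ℂ) * Y m θ = g k θ := by
    intro k θ
    rw [Fin.sum_univ_succ]
    simp only [hY, hg, hA, hT, hu0, Fin.cons_zero, Fin.cons_succ, mul_one, Complex.ofReal_mul]
    have h1 : ∀ m : Fin n, (hypS α β I k m.succ : ℂ) * ((μ m.succ : ℂ) * zf ρ R m.succ θ) =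
        (hypS α β I k m.succ : ℂ) * (μ m.succ : ℂ) * zf ρ R m.succ θ := fun m => by ring
    simp only [h1]
    ring
  -- the point of the torus
  set x : Fin (n + 1) → (Fin n → ℝ) → ℂ := fun p θ => ((hypDet α I : ℤ) : ℂ)⁻¹ *
      ∑ l, (((Matrix.of fun m => α (I m)).adjugate p l : ℤ) : ℂ) * (Y l θ - β (I l)) with hx
  have hxs : ∀ p, ContDiff ℝ 2 (x p) := fun p => contDiff_const.mul
    (ContDiff.sum fun l _ => contDiff_const.mul ((hYs l).sub contDiff_const))
  have hxp : ∀ p (l : Fin n) θ, x p (θ + Pi.single l (2 * Real.pi)) = x p θ := by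
    intro p l θ
    simp only [hx, hYp]
  have hxY : ∀ θ m, ∑ p, (α (I m) p : ℂ) * x p θ + β (I m) = Y m θ := by
    intro θ m
    have h1 := solve_coords hI (fun l => Y l θ - (β (I l) : ℂ)) m
    simp only [hx]
    rw [h1]
    ring
  have hxk : ∀ θ, ∀ k ∈ S, ∑ p, (α k p : ℂ) * x p θ + β k =
      (((hypVal α β I k : ℝ) / hypDet α I : ℝ) : ℂ) * g k θ := by
    intro θ k hk
    rw [forms_out hI (hval k hk) (hxY θ), hYg]
  set s : Fin (n + 1) → TorusRing n := fun p => ⟨x p, hxs p, fun l θ => hxp p l θ⟩ with hs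
  have hint : ∀ (k : ℤ), (((k : TorusRing n) : TorusRing n) : (Fin n → ℝ) → ℂ) =
      fun _ => (k : ℂ) := by
    intro k
    rw [SubringClass.coe_intCast]
    rfl
  have hform : ∀ i, (((∑ p, (α i p : TorusRing n) * s p + (β i : TorusRing n)) : TorusRing n) :
      (Fin n → ℝ) → ℂ) = fun θ => ∑ p, (α i p : ℂ) * x p θ + β i := by
    intro i
    funext θ
    rw [Subring.coe_add, Pi.add_apply, hint]
    congr 1
    rw [AddSubmonoidClass.coe_finsetSum, Finset.sum_apply]
    refine Finset.sum_congr rfl fun p _ => ?_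
    rw [Subring.coe_mul, Pi.mul_apply, hint]
  have hrel : (c : TorusRing n) * ∏ i, (∑ p, (α i p : TorusRing n) * s p +
      (β i : TorusRing n)) = 1 := by
    apply Subtype.ext
    funext θ
    have e1 : (((c : TorusRing n) * ∏ i, (∑ p, (α i p : TorusRing n) * s p +
      (β i : TorusRing n)) : TorusRing n) : (Fin n → ℝ) → ℂ) θ =
        (c : ℂ) * ∏ i, (∑ p, (α i p : ℂ) * x p θ + β i) := by
      rw [Subring.coe_mul, Pi.mul_apply, hint]
      congr 1
      rw [SubmonoidClass.coe_finsetProd, Finset.prod_apply]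
      refine Finset.prod_congr rfl fun i _ => ?_
      rw [hform]
    rw [e1]
    have e2 : ∏ i, (∑ p, (α i p : ℂ) * x p θ + β i) =
        (∏ m, Y m θ) * ∏ k ∈ S, ((((hypVal α β I k : ℝ) / hypDet α I : ℝ) : ℂ) * g k θ) := by
      rw [← Finset.prod_filter_mul_prod_filter_not Finset.univ (fun k => ∃ m, I m = k)]
      congr 1
      · have h2 : (Finset.univ.filter fun k => ∃ m, I m = k) = Finset.univ.image I := by
          ext k
          simp
        rw [h2, Finset.prod_image fun a _ b _ hab => hinj hab]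
        exact Finset.prod_congr rfl fun m _ => hxY θ m
      · exact Finset.prod_congr rfl fun k hk => hxk θ k hk
    rw [e2, hYprod, Finset.prod_mul_distrib]
    have e3 : h θ * ∏ k ∈ S, g k θ = 1 := hheq θ
    have e4 : ((c : ℝ) : ℂ) * (∏ k ∈ S, (((hypVal α β I k : ℝ) / hypDet α I : ℝ) : ℂ)) *
        ((ρ * R ^ n : ℝ) : ℂ) = 1 := by
      have := congrArg (fun t : ℝ => (t : ℂ)) hq
      simp only [Complex.ofReal_mul, Complex.ofReal_prod, Complex.ofReal_one] at this
      rw [← this]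
      push_cast
      ring
    calc (c : ℂ) * (h θ * ((ρ * R ^ n : ℝ) : ℂ) *
          ((∏ k ∈ S, (((hypVal α β I k : ℝ) / hypDet α I : ℝ) : ℂ)) * ∏ k ∈ S, g k θ))
        = (((c : ℝ) : ℂ) * (∏ k ∈ S, (((hypVal α β I k : ℝ) / hypDet α I : ℝ) : ℂ)) *
          ((ρ * R ^ n : ℝ) : ℂ)) * (h θ * ∏ k ∈ S, g k θ) := by
          push_cast
          ring
      _ = 1 := by rw [e3, e4, one_mul]
  set u : Fin N → (Fin n → ℝ) → ℂ := fun i =>
    if hi : ∃ m, I m = i then u0 (Classical.choose hi) else g i with hu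
  have huI : ∀ m, u (I m) = u0 m := by
    intro m
    have hi : ∃ m', I m' = I m := ⟨m, rfl⟩
    simp only [hu]
    rw [dif_pos hi]
    congr 1
    exact hinj (Classical.choose_spec hi)
  have huk : ∀ k ∈ S, u k = g k := by
    intro k hk
    simp only [hu]
    rw [dif_neg ((hmemS k).1 hk)]
  refine ⟨s, u, hrel, ?_, ?_, ?_, ?_⟩
  · intro i
    rw [hform]
    by_cases hi : ∃ m, I m = i
    · obtain ⟨m, rfl⟩ := hi
      have e1 : (fun θ => ∑ p, (α (I m) p : ℂ) * x p θ + β (I m)) =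
          fun θ => (μ m : ℂ) * (zf ρ R m θ * u0 m θ) := by
        funext θ
        exact hxY θ m
      rw [e1, huI, hypW_of hinj, hypM_of hinj]
      unfold hypA
      rw [if_pos ⟨m, rfl⟩]
      have hμne : (μ m : ℂ) ≠ 0 := Complex.ofReal_ne_zero.2 (hμ0 m).ne'
      have h1 := (Wnd.zf_mul hR0 hR' hρ (hu0TU m) (hu0slit m) m).const_mul hμne
      rw [Complex.norm_real, Real.norm_eq_abs, abs_of_pos (hμ0 m)] at h1
      exact h1
    · have hk : i ∈ S := (hmemS i).2 hi
      have e1 : (fun θ => ∑ p, (α i p : ℂ) * x p θ + β i) =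
          fun θ => (((hypVal α β I i : ℝ) / hypDet α I : ℝ) : ℂ) * g i θ := by
        funext θ
        exact hxk θ i hk
      rw [e1, huk i hk, hypW_out hi, hypM_out μ hi, add_zero]
      unfold hypA
      rw [if_neg hi]
      have hne : (((hypVal α β I i : ℝ) / hypDet α I : ℝ) : ℂ) ≠ 0 := by
        rw [Complex.ofReal_ne_zero]
        exact div_ne_zero (Int.cast_ne_zero.2 (hval i hk)) (Int.cast_ne_zero.2 hI)
      have h1 := Wnd.const_mul_near (hgTU i hk) (hgslit i hk) hne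
      rw [Complex.norm_real, Real.norm_eq_abs] at h1
      exact h1
  · intro i θ
    have hbd : 0 ≤ 80 * ((n : ℝ) + 1) * N / b := by positivity
    have e40 : 80 * ((n : ℝ) + 1) * N / b = 80 * (((n : ℝ) + 1) * N / b) := by ring
    by_cases hi : ∃ m, I m = i
    · obtain ⟨m, rfl⟩ := hi
      rw [huI]
      refine Fin.cases ?_ (fun k => ?_) m
      · simp only [hu0, Fin.cons_zero]
        refine (abs_log_near ?_ (hh1 θ)).trans ?_
        · nlinarith
        · rw [e40]
          linarith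
      · simp only [hu0, Fin.cons_succ, norm_one, Real.log_one, abs_zero]
        exact hbd
    · have hk : i ∈ S := (hmemS i).2 hi
      rw [huk i hk]
      refine (abs_log_near ?_ (hg1 i hk θ)).trans ?_
      · linarith
      · rw [e40]
        have h1 : ((n : ℝ) + 1) / b ≤ ((n : ℝ) + 1) * N / b := by
          refine div_le_div_of_nonneg_right ?_ hb0.le
          nlinarith
        linarith
  · intro i θ l
    by_cases hi : ∃ m, I m = i
    · obtain ⟨m, rfl⟩ := hi
      rw [huI]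
      refine Fin.cases ?_ (fun k => ?_) m
      · simp only [hu0, Fin.cons_zero]
        have h1 : ‖fderiv ℝ h θ (Pi.single l 1)‖ ≤ 27 * S.card * η :=
          norm_fderiv_single_le (hhs.differentiable (by norm_num) θ) (by positivity)
            (fun s => hhl θ l s)
        have h2 := (norm_near (hh15 θ)).1
        rw [norm_div]
        refine (div_le_one₀ (by linarith)).2 ?_
        nlinarith
      · have e : fderiv ℝ (u0 k.succ) θ = 0 := by
          simp only [hu0, Fin.cons_succ]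
          exact fderiv_const_apply (1 : ℂ)
        rw [e]
        simp
    · have hk : i ∈ S := (hmemS i).2 hi
      rw [huk i hk]
      have h1 : ‖fderiv ℝ (g i) θ (Pi.single l 1)‖ ≤ 5 / 2 * η := by
        refine norm_fderiv_single_le ((hgs i).differentiable (by norm_num) θ) (by positivity)
          fun s => ?_
        have e : g i (θ + Pi.single l s) - g i θ =
            (A i (θ + Pi.single l s) - A i θ) * h (θ + Pi.single l s) +
            A i θ * (h (θ + Pi.single l s) - h θ) + (T i (θ + Pi.single l s) - T i θ) := by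
          simp only [hg]
          ring
        rw [e]
        have h2 := (norm_near (hh15 (θ + Pi.single l s))).2
        have h3 := hhl θ l s
        calc ‖(A i (θ + Pi.single l s) - A i θ) * h (θ + Pi.single l s) +
            A i θ * (h (θ + Pi.single l s) - h θ) + (T i (θ + Pi.single l s) - T i θ)‖
            ≤ ‖A i (θ + Pi.single l s) - A i θ‖ * ‖h (θ + Pi.single l s)‖ +
              ‖A i θ‖ * ‖h (θ + Pi.single l s) - h θ‖ +
              ‖T i (θ + Pi.single l s) - T i θ‖ := by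
              refine (norm_add_le _ _).trans (add_le_add_left ?_ _)
              refine (norm_add_le _ _).trans ?_
              rw [norm_mul, norm_mul]
          _ ≤ η * |s| * (1 + 1 / 5) + η * (27 * S.card * η * |s|) + η * |s| := by
              refine add_le_add (add_le_add ?_ ?_) (hTl i hk θ l s)
              · exact mul_le_mul (hAl i hk θ l s) h2 (norm_nonneg _) (by positivity)
              · exact mul_le_mul (hAb i hk θ) h3 (norm_nonneg _) hη0
          _ = (11 / 5 + 27 * (S.card * η)) * (η * |s|) := by ring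
          _ ≤ 5 / 2 * (η * |s|) := by
              refine mul_le_mul_of_nonneg_right ?_ (by positivity)
              nlinarith
          _ = _ := by ring
      have h2 := (norm_near (hg15 i hk θ)).1
      rw [norm_div]
      refine (div_le_one₀ (by linarith)).2 ?_
      linarith
  · intro m θ
    rw [hform]
    simp only
    rw [hxY θ m.succ]
    simp only [hY, hu0, Fin.cons_succ, mul_one]
    rw [norm_mul, norm_zf hR0 hR' hρ, Complex.norm_real, Real.norm_eq_abs,
      abs_of_pos (hμ0 _)]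

end Pool.Agent.Helper11
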