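import Mathlib
import Pool.Agent.Helper11.HCyc

/-! Combinatorics of alternating functions on tuples. -/

namespace Pool.Agent.Helper11

open Finset

section alt

variable {ι : Type*} [Fintype ι] [DecidableEq ι] {n : ℕ} {S : Type*} [CommRing S]

/-- alternating under transpositions -/
def Alt (y : (Fin (n + 1) → ι) → S) : Prop := ∀ J i j, i ≠ j → y (J ∘ Equiv.swap i j) = - y J

/-- the differential of `y` multiplied by `b` -/
def dB (y : (Fin (n + 1) → ι) → S) (b : ι → S) (J : Fin (n + 1) → ι) (k : ι) : S :=
  y J * b k - ∑ l, y (Function.update J l k) * b (J l)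

variable {y : (Fin (n + 1) → ι) → S}

omit [Fintype ι] in
lemma update_update_swap (J : Fin (n + 1) → ι) {l m : Fin (n + 1)} (hlm : l ≠ m) (k : ι) :
    Function.update (Function.update J m k) l (J m) =
      (Function.update J l k) ∘ Equiv.swap l m := by
  funext i
  by_cases hi : i = l
  · subst hi
    simp [hlm.symm]
  · by_cases him : i = m
    · subst him
      simp [hi]
    · simp [hi, him, Equiv.swap_apply_of_ne_of_ne hi him]

omit [Fintype ι] in
lemma dB_swap (hy : Alt y) (b : ι → S) (J : Fin (n + 1) → ι) (m : Fin (n + 1)) (k : ι) :
    dB y b (Function.update J m k) (J m) = - dB y b J k := by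
  unfold dB
  rw [← Finset.add_sum_erase _ _ (Finset.mem_univ m),
    ← Finset.add_sum_erase (a := m) _ (fun l => y (Function.update J l k) * b (J l))
      (Finset.mem_univ m)]
  have h1 : ∑ l ∈ Finset.univ.erase m, y (Function.update (Function.update J m k) l (J m)) *
      b (Function.update J m k l) =
      - ∑ l ∈ Finset.univ.erase m, y (Function.update J l k) * b (J l) := by
    rw [← Finset.sum_neg_distrib]
    refine Finset.sum_congr rfl fun l hl => ?_
    have hlm : l ≠ m := Finset.ne_of_mem_erase hl
    rw [update_update_swap J hlm, hy _ _ _ hlm, Function.update_of_ne hlm]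
    ring
  rw [h1, Function.update_idem, Function.update_eq_self, Function.update_self]
  ring

lemma Alt.perm (hy : Alt y) (J : Fin (n + 1) → ι) (σ : Equiv.Perm (Fin (n + 1))) :
    y (J ∘ σ) = (Equiv.Perm.sign σ : ℤ) • y J := by
  induction σ using Equiv.Perm.swap_induction_on' with
  | one => simp
  | mul_swap f i j hij ih =>
    have h1 : J ∘ (f * Equiv.swap i j : Equiv.Perm (Fin (n + 1))) =
        (J ∘ f) ∘ Equiv.swap i j := rfl
    rw [h1, hy _ _ _ hij, ih, Equiv.Perm.sign_mul, Equiv.Perm.sign_swap hij]
    simp

end alt

section real

variable {ι : Type*} [Fintype ι] [DecidableEq ι] {n : ℕ} {z : (Fin (n + 1) → ι) → ℝ}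

lemma Alt.eq_zero (hz : Alt z) {J : Fin (n + 1) → ι} {i j : Fin (n + 1)} (hij : i ≠ j)
    (h : J i = J j) : z J = 0 := by
  have h1 := hz J i j hij
  have h2 : J ∘ Equiv.swap i j = J := by
    funext l
    by_cases hi : l = i
    · subst hi
      simp [h]
    · by_cases hj : l = j
      · subst hj
        simp [h]
      · simp [Equiv.swap_apply_of_ne_of_ne hi hj]
  rw [h2] at h1
  linarith

/-- pairing of an alternating function with a determinant -/
lemma sum_mul_det (hz : Alt z) (V : Fin (n + 1) → ι → ℝ) :
    ∑ J : Fin (n + 1) → ι, z J * (Matrix.of fun m l => V l (J m)).det =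
      (n + 1).factorial * ∑ J : Fin (n + 1) → ι, z J * ∏ m, V m (J m) := by
  have h1 : ∀ J : Fin (n + 1) → ι, z J * (Matrix.of fun m l => V l (J m)).det =
      ∑ σ : Equiv.Perm (Fin (n + 1)), z (J ∘ σ) * ∏ m, V m ((J ∘ σ) m) := by
    intro J
    rw [Matrix.det_apply, Finset.mul_sum]
    refine Finset.sum_congr rfl fun σ _ => ?_
    rw [hz.perm]
    simp only [Matrix.of_apply, Function.comp_apply]
    rcases Int.units_eq_one_or (Equiv.Perm.sign σ) with h | h <;> rw [h] <;> simp
  simp only [h1]
  rw [Finset.sum_comm]
  have h2 : ∀ σ : Equiv.Perm (Fin (n + 1)),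
      ∑ J : Fin (n + 1) → ι, z (J ∘ σ) * ∏ m, V m ((J ∘ σ) m) =
      ∑ J : Fin (n + 1) → ι, z J * ∏ m, V m (J m) := by
    intro σ
    exact Equiv.sum_comp (Equiv.arrowCongr σ⁻¹ (Equiv.refl ι))
      (fun J : Fin (n + 1) → ι => z J * ∏ m, V m (J m))
  rw [Finset.sum_congr rfl fun σ _ => h2 σ, Finset.sum_const, Finset.card_univ,
    Fintype.card_perm, Fintype.card_fin, nsmul_eq_mul]

/-- the sum over tuples agreeing with `I` outside `j` -/
lemma sum_fix (I : Fin (n + 1) → ι) (j : Fin (n + 1)) (A : ι → ℝ) :
    ∑ J : Fin (n + 1) → ι, z J * ∏ m, (if m = j then A (J m) else if J m = I m then 1 else 0) =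
      ∑ i, A i * z (Function.update I j i) := by
  have h1 : ∀ J : Fin (n + 1) → ι, (∏ m, (if m = j then A (J m) else if J m = I m then (1 : ℝ)
      else 0)) = if J = Function.update I j (J j) then A (J j) else 0 := by
    intro J
    by_cases h : J = Function.update I j (J j)
    · rw [if_pos h]
      rw [Finset.prod_eq_single j]
      · rw [if_pos rfl]
      · intro m _ hm
        rw [if_neg hm, if_pos]
        have := congrFun h m
        rwa [Function.update_of_ne hm] at this
      · intro h'
        exact absurd (Finset.mem_univ j) h'
    · rw [if_neg h]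
      have h2 : ∃ m, m ≠ j ∧ J m ≠ I m := by
        by_contra hcon
        push Not at hcon
        apply h
        funext m
        by_cases hm : m = j
        · subst hm
          simp
        · rw [Function.update_of_ne hm]
          exact hcon m hm
      obtain ⟨m, hm, hm2⟩ := h2
      refine Finset.prod_eq_zero (Finset.mem_univ m) ?_
      rw [if_neg hm, if_neg hm2]
  simp only [h1, mul_ite, mul_zero]
  rw [← Finset.sum_filter]
  refine Finset.sum_bij' (fun J _ => J j) (fun i _ => Function.update I j i) ?_ ?_ ?_ ?_ ?_
  · intro J _
    exact Finset.mem_univ _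
  · intro i _
    rw [Finset.mem_filter]
    exact ⟨Finset.mem_univ _, by simp⟩
  · intro J hJ
    rw [Finset.mem_filter] at hJ
    exact hJ.2.symm
  · intro i _
    simp
  · intro J hJ
    rw [Finset.mem_filter] at hJ
    rw [← hJ.2, mul_comm]

/-- the column identity -/
lemma det_diff_col (B : Matrix (Fin (n + 1)) (Fin (n + 1)) ℝ) (a : Fin (n + 1) → ℝ) :
    (Matrix.of fun m => (Fin.cons (a m) (fun l : Fin n => B m l.succ - B m 0) :
      Fin (n + 1) → ℝ)).det = ∑ j, (B.updateCol j a).det := by
  have key : ∀ Y : Finset (Fin n), (Matrix.of fun m => (Fin.cons (a m)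
      (fun l : Fin n => B m l.succ - if l ∈ Y then B m 0 else 0) : Fin (n + 1) → ℝ)).det =
      (B.updateCol 0 a).det + ∑ l ∈ Y, (B.updateCol l.succ a).det := by
    intro Y
    induction Y using Finset.induction_on with
    | empty =>
      rw [Finset.sum_empty, add_zero]
      congr 1
      ext i j
      refine Fin.cases ?_ (fun k => ?_) j
      · simp
      · simp [Fin.succ_ne_zero k]
    | insert y Y hy ih =>
      set C : Matrix (Fin (n + 1)) (Fin (n + 1)) ℝ := Matrix.of fun m => (Fin.cons (a m)
        (fun l : Fin n => B m l.succ - if l ∈ Y then B m 0 else 0) : Fin (n + 1) → ℝ) with hC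
      have e1 : (Matrix.of fun m => (Fin.cons (a m)
          (fun l : Fin n => B m l.succ - if l ∈ insert y Y then B m 0 else 0) :
          Fin (n + 1) → ℝ)) = C.updateCol y.succ ((fun i => C i y.succ) + (-1 : ℝ) •
            fun i => B i 0) := by
        ext i j
        refine Fin.cases ?_ (fun k => ?_) j
        · rw [Matrix.updateCol_ne (Fin.succ_ne_zero y).symm]
          simp [hC]
        · by_cases hk : k = y
          · subst hk
            rw [Matrix.updateCol_self]
            simp [hC, hy]
            ring
          · rw [Matrix.updateCol_ne (fun h => hk (Fin.succ_injective _ h))]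
            simp [hC, hk]
      have e2 : C.updateCol y.succ (fun i => C i y.succ) = C := by
        ext i j
        by_cases hj : j = y.succ
        · subst hj
          rw [Matrix.updateCol_self]
        · rw [Matrix.updateCol_ne hj]
      have e3 : (C.updateCol y.succ fun i => B i 0).det = - (B.updateCol y.succ a).det := by
        have h1 : (C.updateCol y.succ fun i => B i 0).det =
            ((B.updateCol 0 a).updateCol y.succ fun i => B i 0).det := by
          rw [← Matrix.det_transpose, ← Matrix.det_transpose
            (M := (B.updateCol 0 a).updateCol y.succ fun i => B i 0)]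
          refine Matrix.det_eq_of_forall_row_eq_smul_add_const
            (c := fun j => Fin.cases 0 (fun k => if k = y then 0 else if k ∈ Y then -1 else 0) j)
            y.succ (by simp) fun i j => ?_
          refine Fin.cases ?_ (fun k => ?_) i
          · simp only [Matrix.transpose_apply]
            rw [Matrix.updateCol_ne (Fin.succ_ne_zero y).symm,
              Matrix.updateCol_ne (Fin.succ_ne_zero y).symm, Matrix.updateCol_self]
            simp [hC]
          · simp only [Matrix.transpose_apply, Matrix.updateCol_self]
            by_cases hk : k = y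
            · subst hk
              simp
            · have hk' : k.succ ≠ y.succ := fun h => hk (Fin.succ_injective _ h)
              rw [Matrix.updateCol_ne hk', Matrix.updateCol_ne hk',
                Matrix.updateCol_ne (Fin.succ_ne_zero k)]
              by_cases hkY : k ∈ Y
              · simp [hC, hk, hkY]
                ring
              · simp [hC, hk, hkY]
        rw [h1]
        have h2 : (B.updateCol y.succ a) = ((B.updateCol 0 a).updateCol y.succ
            fun i => B i 0).submatrix id (Equiv.swap 0 y.succ) := by
          ext i j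
          rw [Matrix.submatrix_apply, id]
          by_cases hj0 : j = 0
          · subst hj0
            rw [Equiv.swap_apply_left, Matrix.updateCol_self,
              Matrix.updateCol_ne (Fin.succ_ne_zero y).symm]
          · by_cases hjy : j = y.succ
            · subst hjy
              rw [Equiv.swap_apply_right, Matrix.updateCol_self,
                Matrix.updateCol_ne (Fin.succ_ne_zero y).symm, Matrix.updateCol_self]
            · rw [Equiv.swap_apply_of_ne_of_ne hj0 hjy, Matrix.updateCol_ne hjy,
                Matrix.updateCol_ne hjy, Matrix.updateCol_ne hj0]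
        rw [h2, Matrix.det_permute', Equiv.Perm.sign_swap (Fin.succ_ne_zero y).symm]
        simp
      rw [e1, Matrix.det_updateCol_add, Matrix.det_updateCol_smul, e2, e3, ih,
        Finset.sum_insert hy]
      ring
  have h1 := key Finset.univ
  simp only [Finset.mem_univ, if_true] at h1
  rw [h1, Fin.sum_univ_succ]

end real

end Pool.Agent.Helper11
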