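import Mathlib
import Pool.Agent.Helper11.HInd
import Pool.Agent.Helper11.HTorus2

/-! The regulator matrix of an arrangement is nondegenerate on cycles: linear algebra. -/

namespace Pool.Agent.Helper11

open Finset

variable {n N : ℕ} {α : Fin N → Fin (n + 1) → ℤ} {β : Fin N → ℤ} {z : (Fin (n + 1) → Fin N) → ℝ}

lemma hypW_eq (I : Fin (n + 1) → Fin N) (i : Fin N) (l : Fin n) :
    hypW I i l = (if i = I l.succ then 1 else 0) - (if i = I 0 then 1 else 0) := by
  unfold hypW
  rw [Fin.sum_univ_succ]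
  have h1 : ∑ k : Fin n, (if I k.succ = i then vel k.succ l else 0) =
      if i = I l.succ then 1 else 0 := by
    rw [Finset.sum_eq_single l]
    · simp only [vel, Fin.cons_succ, Pi.single_eq_same]
      by_cases h : I l.succ = i
      · rw [if_pos h, if_pos h.symm]
      · rw [if_neg h, if_neg (Ne.symm h)]
    · intro k _ hk
      simp only [vel, Fin.cons_succ]
      rw [Pi.single_eq_of_ne hk]
      simp
    · intro h
      exact absurd (Finset.mem_univ l) h
  rw [h1]
  simp only [vel, Fin.cons_zero]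
  by_cases h : I 0 = i
  · rw [if_pos h, if_pos h.symm]
    ring
  · rw [if_neg h, if_neg (Ne.symm h)]
    ring

lemma det_cons_hypW (I J : Fin (n + 1) → Fin N) (a : Fin (n + 1) → ℝ) :
    (Matrix.of fun m => (Fin.cons (a m) (hypW I (J m)) : Fin (n + 1) → ℝ)).det =
      ∑ j, ((Matrix.of fun m l => if J m = I l then (1 : ℝ) else 0).updateCol j a).det := by
  rw [← det_diff_col]
  congr 1
  ext m l
  refine Fin.cases ?_ (fun k => ?_) l
  · simp
  · simp only [Matrix.of_apply, Fin.cons_succ]
    rw [hypW_eq]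

/-- the sum of the main terms -/
lemma sum_main (hz : Alt z) (I : Fin (n + 1) → Fin N) (A : Fin N → ℝ) :
    ∑ J, z J * (Matrix.of fun m => (Fin.cons (A (J m)) (hypW I (J m)) :
      Fin (n + 1) → ℝ)).det =
      (n + 1).factorial * ∑ i, A i * ∑ j, z (Function.update I j i) := by
  simp only [det_cons_hypW]
  have h1 : ∀ (j : Fin (n + 1)), ∑ J : Fin (n + 1) → Fin N, z J *
      ((Matrix.of fun m l => if J m = I l then (1 : ℝ) else 0).updateCol j
        fun m => A (J m)).det = (n + 1).factorial * ∑ i, A i * z (Function.update I j i) := by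
    intro j
    rw [← sum_fix I j A, ← sum_mul_det hz (fun l i => if l = j then A i else
      if i = I l then 1 else 0)]
    refine Finset.sum_congr rfl fun J _ => ?_
    congr 2
    ext m l
    rw [Matrix.updateCol_apply]
    simp only [Matrix.of_apply]
  simp only [Finset.mul_sum] at h1 ⊢
  rw [Finset.sum_comm]
  rw [Finset.sum_congr rfl fun j _ => h1 j, Finset.sum_comm]

/-- the sum of the terms of constants -/
lemma sum_ones (hz : ∀ J m, ∑ k, z (Function.update J m k) = 0) (J : Fin (n + 1) → Fin N) :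
    ∑ I, z I * (Matrix.of fun m => (Fin.cons 1 (hypW I (J m)) : Fin (n + 1) → ℝ)).det = 0 := by
  simp only [det_cons_hypW, Finset.mul_sum]
  rw [Finset.sum_comm]
  refine Finset.sum_eq_zero fun j _ => ?_
  have h1 := slice_zero (z := z) j (fun I => hz I j) (fun I =>
    ((Matrix.of fun m l => if J m = I l then (1 : ℝ) else 0).updateCol j fun _ => 1).det) ?_
  · simpa using h1
  · intro I i k _ _
    congr 1
    ext m l
    rw [Matrix.updateCol_apply, Matrix.updateCol_apply]
    by_cases hl : l = j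
    · rw [if_pos hl, if_pos hl]
    · rw [if_neg hl, if_neg hl]
      simp [hl]

/-- the value of the main term at a vertex -/
lemma main_at_vertex (hzA : Alt z) (hz : ∀ J m, ∑ k, z (Function.update J m k) = 0)
    {I : Fin (n + 1) → Fin N} (hI : hypDet α I ≠ 0)
    (hgp : ∀ k, (¬ ∃ m, I m = k) → hypVal α β I k ≠ 0) {R c : ℝ}
    (hR : (n + 1) * Real.log R = - (Real.log |c| +
        ∑ k ∈ Finset.univ.filter (fun k => ¬ ∃ m, I m = k),
          Real.log |(hypVal α β I k : ℝ) / hypDet α I|)) :
    ∑ i, hypA α β I R i * ∑ j, z (Function.update I j i) =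
      - (z I * (Real.log |c| - N * Real.log |(hypDet α I : ℝ)|) +
        ∑ k, Real.log |(hypVal α β I k : ℝ)| * dB z (fun _ => 1) I k) := by
  have hinj : Function.Injective I := hypDet_injective α hI
  have hD : (hypDet α I : ℝ) ≠ 0 := Int.cast_ne_zero.2 hI
  -- the sum over a member of the vertex
  have hin : ∀ l, ∑ j, z (Function.update I j (I l)) = z I := by
    intro l
    rw [Finset.sum_eq_single l]
    · rw [Function.update_eq_self]
    · intro j _ hj
      refine hzA.eq_zero (i := j) (j := l) hj ?_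
      rw [Function.update_self, Function.update_of_ne hj.symm]
    · intro h
      exact absurd (Finset.mem_univ l) h
  have hdin : ∀ k, (∃ m, I m = k) → dB z (fun _ => 1) I k = 0 := by
    rintro _ ⟨l, rfl⟩
    unfold dB
    simp only [mul_one]
    rw [hin, sub_self]
  have hsumd : ∑ k, dB z (fun _ => 1) I k = N * z I := by
    unfold dB
    simp only [mul_one]
    rw [Finset.sum_sub_distrib, Finset.sum_comm]
    simp only [hz, Finset.sum_const_zero, Finset.sum_const, Finset.card_univ, Fintype.card_fin,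
      nsmul_eq_mul, sub_zero]
  rw [← Finset.sum_filter_add_sum_filter_not Finset.univ (fun k => ∃ m, I m = k)
    (fun i => hypA α β I R i * ∑ j, z (Function.update I j i))]
  have h1 : ∑ i ∈ Finset.univ.filter (fun k => ∃ m, I m = k),
      hypA α β I R i * ∑ j, z (Function.update I j i) = (n + 1) * Real.log R * z I := by
    have h2 : (Finset.univ.filter fun k => ∃ m, I m = k) = Finset.univ.image I := by
      ext k
      simp
    rw [h2, Finset.sum_image fun a _ b _ hab => hinj hab]
    have h3 : ∀ m, hypA α β I R (I m) * ∑ j, z (Function.update I j (I m)) =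
        Real.log R * z I := by
      intro m
      unfold hypA
      rw [if_pos ⟨m, rfl⟩, hin]
    simp only [h3, Finset.sum_const, Finset.card_univ, Fintype.card_fin, nsmul_eq_mul]
    push_cast
    ring
  have h4 : ∑ i ∈ Finset.univ.filter (fun k => ¬ ∃ m, I m = k),
      hypA α β I R i * ∑ j, z (Function.update I j i) =
      ∑ k ∈ Finset.univ.filter (fun k => ¬ ∃ m, I m = k),
        Real.log |(hypVal α β I k : ℝ) / hypDet α I| * (z I - dB z (fun _ => 1) I k) := by
    refine Finset.sum_congr rfl fun k hk => ?_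
    rw [Finset.mem_filter] at hk
    unfold hypA dB
    rw [if_neg hk.2]
    simp only [mul_one]
    ring
  have h5 : ∑ k ∈ Finset.univ.filter (fun k => ¬ ∃ m, I m = k),
        Real.log |(hypVal α β I k : ℝ) / hypDet α I| * dB z (fun _ => 1) I k =
      ∑ k, Real.log |(hypVal α β I k : ℝ)| * dB z (fun _ => 1) I k -
        Real.log |(hypDet α I : ℝ)| * (N * z I) := by
    rw [← hsumd, Finset.mul_sum, ← Finset.sum_sub_distrib, Finset.sum_filter]
    refine Finset.sum_congr rfl fun k _ => ?_
    by_cases hk : ∃ m, I m = k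
    · rw [if_neg (fun h => h hk), hdin k hk]
      ring
    · rw [if_pos hk, abs_div, Real.log_div (abs_ne_zero.2 (Int.cast_ne_zero.2 (hgp k hk)))
        (abs_ne_zero.2 hD)]
      ring
  rw [h1, h4, hR]
  simp only [mul_sub, Finset.sum_sub_distrib]
  rw [h5, ← Finset.sum_mul]
  ring

/-- symmetry of the values -/
lemma abs_hypVal_swap (J : Fin (n + 1) → Fin N) (m : Fin (n + 1)) (k : Fin N) :
    |(hypVal α β (Function.update J m k) (J m) : ℝ)| = |(hypVal α β J k : ℝ)| := by
  have h1 : hypVal α β (Function.update J m k) (J m) = - hypVal α β J k :=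
    dB_swap (y := hypDet α) (fun J i j hij => hypDet_comp_swap α J hij) β J m k
  rw [h1]
  push_cast
  rw [abs_neg]

/-- positivity -/
lemma sum_pos (hzA : Alt z) :
    0 ≤ ∑ I, z I * ∑ k, Real.log |(hypVal α β I k : ℝ)| * dB z (fun _ => 1) I k := by
  set μ : (Fin (n + 1) → Fin N) → Fin N → ℝ := fun I k =>
    Real.log |(hypVal α β I k : ℝ)| with hμ
  set P : ℝ := ∑ I, z I * ∑ k, μ I k * dB z (fun _ => 1) I k with hP
  have hμ0 : ∀ I k, 0 ≤ μ I k := by
    intro I k
    by_cases h : hypVal α β I k = 0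
    · simp [hμ, h]
    · exact Real.log_nonneg (one_le_abs_int h)
  have hP' : P = ∑ p : (Fin (n + 1) → Fin N) × Fin N,
      z p.1 * (μ p.1 p.2 * dB z (fun _ => 1) p.1 p.2) := by
    rw [hP, Fintype.sum_prod_type]
    refine Finset.sum_congr rfl fun I _ => ?_
    rw [Finset.mul_sum]
  have hj : ∀ j : Fin (n + 1), ∑ p : (Fin (n + 1) → Fin N) × Fin N,
      z (Function.update p.1 j p.2) * (μ p.1 p.2 * dB z (fun _ => 1) p.1 p.2) = - P := by
    intro j
    let e : (Fin (n + 1) → Fin N) × Fin N ≃ (Fin (n + 1) → Fin N) × Fin N :=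
      { toFun := fun p => (Function.update p.1 j p.2, p.1 j)
        invFun := fun p => (Function.update p.1 j p.2, p.1 j)
        left_inv := fun p => by simp
        right_inv := fun p => by simp }
    rw [← Equiv.sum_comp e, hP', ← Finset.sum_neg_distrib]
    refine Finset.sum_congr rfl fun p _ => ?_
    have h1 : (e p).1 = Function.update p.1 j p.2 := rfl
    have h2 : (e p).2 = p.1 j := rfl
    rw [h1, h2, Function.update_idem, Function.update_eq_self, dB_swap hzA]
    simp only [hμ]
    rw [abs_hypVal_swap]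
    ring
  have hsq : ∑ p : (Fin (n + 1) → Fin N) × Fin N, μ p.1 p.2 * (dB z (fun _ => 1) p.1 p.2) ^ 2 =
      (n + 2) * P := by
    have h1 : ∀ p : (Fin (n + 1) → Fin N) × Fin N,
        μ p.1 p.2 * (dB z (fun _ => 1) p.1 p.2) ^ 2 =
        z p.1 * (μ p.1 p.2 * dB z (fun _ => 1) p.1 p.2) -
        ∑ j, z (Function.update p.1 j p.2) * (μ p.1 p.2 * dB z (fun _ => 1) p.1 p.2) := by
      intro p
      rw [← Finset.sum_mul, ← sub_mul]
      have h2 : z p.1 - ∑ j, z (Function.update p.1 j p.2) = dB z (fun _ => 1) p.1 p.2 := by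
        unfold dB
        simp only [mul_one]
      rw [h2]
      ring
    simp only [h1]
    rw [Finset.sum_sub_distrib, ← hP', Finset.sum_comm, Finset.sum_congr rfl fun j _ => hj j,
      Finset.sum_const, Finset.card_univ, Fintype.card_fin, nsmul_eq_mul]
    push_cast
    ring
  have h3 : 0 ≤ ∑ p : (Fin (n + 1) → Fin N) × Fin N,
      μ p.1 p.2 * (dB z (fun _ => 1) p.1 p.2) ^ 2 :=
    Finset.sum_nonneg fun p _ => mul_nonneg (hμ0 _ _) (sq_nonneg _)
  rw [hsq] at h3
  have h4 : (0 : ℝ) < (n : ℝ) + 2 := by positivity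
  exact nonneg_of_mul_nonneg_right (by linarith) h4

/-- The conclusion of the positivity argument. -/
theorem cycle_eq_zero {Δ : ℤ} (hΔ0 : Δ ≠ 0) (hΔ : ∀ J, hypDet α J ≠ 0 → hypDet α J ∣ Δ)
    (hgp : ∀ J k, hypDet α J ≠ 0 → (¬ ∃ m, J m = k) → hypVal α β J k ≠ 0)
    (hzA : Alt z) (hz0 : ∀ J, hypDet α J = 0 → z J = 0)
    (hz : ∀ J m, ∑ k, z (Function.update J m k) = 0)
    {c b ε C : ℝ} (hC : 0 < C) (hb : Real.exp 1 ≤ b)
    (hc : b ^ (n + 1) * |(Δ : ℝ)| ^ (N + 1) ≤ |c|)
    (hε : ε * (N : ℝ) ^ (n + 1) < (n + 1).factorial)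
    {R : (Fin (n + 1) → Fin N) → ℝ}
    (hR : ∀ I, hypDet α I ≠ 0 → (n + 1) * Real.log (R I) = - (Real.log |c| +
        ∑ k ∈ Finset.univ.filter (fun k => ¬ ∃ m, I m = k),
          Real.log |(hypVal α β I k : ℝ) / hypDet α I|))
    {ρ : (Fin (n + 1) → Fin N) → (Fin (n + 1) → Fin N) → ℝ}
    (hρ : ∀ I J, hypDet α I ≠ 0 → hypDet α J ≠ 0 → |ρ I J - C *
      (Matrix.of fun m => (Fin.cons (hypA α β I (R I) (J m) - Real.log |(hypDet α J : ℝ)|)
        (hypW I (J m)) : Fin (n + 1) → ℝ)).det| ≤ C * ε)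
    (h0 : ∀ I, hypDet α I ≠ 0 → ∑ J, z J * ρ I J = 0) : z = 0 := by
  -- the determinant
  set M : (Fin (n + 1) → Fin N) → (Fin (n + 1) → Fin N) → ℝ := fun I J =>
    (Matrix.of fun m => (Fin.cons (hypA α β I (R I) (J m)) (hypW I (J m)) :
      Fin (n + 1) → ℝ)).det with hM
  set W : (Fin (n + 1) → Fin N) → (Fin (n + 1) → Fin N) → ℝ := fun I J =>
    (Matrix.of fun m => (Fin.cons 1 (hypW I (J m)) : Fin (n + 1) → ℝ)).det with hW
  have hdet : ∀ I J, (Matrix.of fun m => (Fin.cons (hypA α β I (R I) (J m) -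
      Real.log |(hypDet α J : ℝ)|) (hypW I (J m)) : Fin (n + 1) → ℝ)).det =
      M I J - Real.log |(hypDet α J : ℝ)| * W I J := by
    intro I J
    simp only [hM, hW, det_cons_hypW]
    rw [Finset.mul_sum, ← Finset.sum_sub_distrib]
    refine Finset.sum_congr rfl fun j _ => ?_
    have h1 : (fun m => hypA α β I (R I) (J m) - Real.log |(hypDet α J : ℝ)|) =
        (fun m => hypA α β I (R I) (J m)) + (- Real.log |(hypDet α J : ℝ)|) •
          (fun _ : Fin (n + 1) => (1 : ℝ)) := by
      funext m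
      simp
      ring
    rw [h1, Matrix.det_updateCol_add, Matrix.det_updateCol_smul]
    ring
  set T : (Fin (n + 1) → Fin N) → ℝ := fun I =>
    ∑ i, hypA α β I (R I) i * ∑ j, z (Function.update I j i) with hT
  -- the double sum
  have hsum0 : ∑ I, z I * ∑ J, z J * ρ I J = 0 := by
    refine Finset.sum_eq_zero fun I _ => ?_
    by_cases hI : hypDet α I = 0
    · rw [hz0 I hI, zero_mul]
    · rw [h0 I hI, mul_zero]
  have hmain : ∑ I, z I * ∑ J, z J * (C * (M I J - Real.log |(hypDet α J : ℝ)| * W I J)) =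
      C * ((n + 1).factorial * ∑ I, z I * T I) := by
    have e1 : ∀ I, ∑ J, z J * (C * (M I J - Real.log |(hypDet α J : ℝ)| * W I J)) =
        C * ((n + 1).factorial * T I) -
          C * ∑ J, z J * (Real.log |(hypDet α J : ℝ)| * W I J) := by
      intro I
      have e2 : ∑ J, z J * M I J = (n + 1).factorial * T I := sum_main hzA I _
      rw [← e2, ← mul_sub, ← Finset.sum_sub_distrib, Finset.mul_sum]
      refine Finset.sum_congr rfl fun J _ => ?_
      ring
    have e5 : ∀ I, z I * ∑ J, z J * (C * (M I J - Real.log |(hypDet α J : ℝ)| * W I J)) =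
        z I * (C * ((n + 1).factorial * T I)) -
          z I * (C * ∑ J, z J * (Real.log |(hypDet α J : ℝ)| * W I J)) := by
      intro I
      rw [e1, mul_sub]
    rw [Finset.sum_congr rfl fun I _ => e5 I, Finset.sum_sub_distrib]
    have e3 : ∑ I, z I * (C * ∑ J, z J * (Real.log |(hypDet α J : ℝ)| * W I J)) = 0 := by
      have e4 : ∀ I, z I * (C * ∑ J, z J * (Real.log |(hypDet α J : ℝ)| * W I J)) =
          ∑ J, C * z J * Real.log |(hypDet α J : ℝ)| * (z I * W I J) := by
        intro I
        rw [Finset.mul_sum, Finset.mul_sum]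
        refine Finset.sum_congr rfl fun J _ => ?_
        ring
      simp only [e4]
      rw [Finset.sum_comm]
      refine Finset.sum_eq_zero fun J _ => ?_
      rw [← Finset.mul_sum, sum_ones hz J, mul_zero]
    rw [e3, sub_zero, Finset.mul_sum, Finset.mul_sum]
    refine Finset.sum_congr rfl fun I _ => ?_
    ring
  -- the error
  have herr : |∑ I, z I * ∑ J, z J * (C * (M I J - Real.log |(hypDet α J : ℝ)| * W I J))| ≤
      C * ε * (∑ J, |z J|) ^ 2 := by
    have e1 : ∑ I, z I * ∑ J, z J * (C * (M I J - Real.log |(hypDet α J : ℝ)| * W I J)) =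
        ∑ I, z I * ∑ J, z J * (C * (M I J - Real.log |(hypDet α J : ℝ)| * W I J) - ρ I J) := by
      have e2 : ∀ I, z I * ∑ J, z J * (C * (M I J - Real.log |(hypDet α J : ℝ)| * W I J) -
          ρ I J) = z I * ∑ J, z J * (C * (M I J - Real.log |(hypDet α J : ℝ)| * W I J)) -
          z I * ∑ J, z J * ρ I J := by
        intro I
        rw [← mul_sub, ← Finset.sum_sub_distrib]
        congr 1
        refine Finset.sum_congr rfl fun J _ => ?_
        ring
      simp only [e2]
      rw [Finset.sum_sub_distrib, hsum0, sub_zero]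
    rw [e1]
    calc |∑ I, z I * ∑ J, z J * (C * (M I J - Real.log |(hypDet α J : ℝ)| * W I J) - ρ I J)|
        ≤ ∑ I, |z I| * ∑ J, |z J| * (C * ε) := by
          refine (Finset.abs_sum_le_sum_abs _ _).trans (Finset.sum_le_sum fun I _ => ?_)
          rw [abs_mul]
          by_cases hI : hypDet α I = 0
          · rw [hz0 I hI]
            simp
          · refine mul_le_mul_of_nonneg_left ?_ (abs_nonneg _)
            refine (Finset.abs_sum_le_sum_abs _ _).trans (Finset.sum_le_sum fun J _ => ?_)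
            rw [abs_mul]
            by_cases hJ : hypDet α J = 0
            · rw [hz0 J hJ]
              simp
            · refine mul_le_mul_of_nonneg_left ?_ (abs_nonneg _)
              rw [abs_sub_comm, ← hdet]
              exact hρ I J hI hJ
      _ = _ := by
        rw [← Finset.sum_mul, ← Finset.sum_mul]
        ring
  rw [hmain, abs_mul, abs_of_pos hC, mul_assoc] at herr
  have herr2 : |((n + 1).factorial : ℝ) * ∑ I, z I * T I| ≤ ε * (∑ J, |z J|) ^ 2 :=
    le_of_mul_le_mul_left herr hC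
  -- Cauchy-Schwarz
  have hCS : (∑ J, |z J|) ^ 2 ≤ (N : ℝ) ^ (n + 1) * ∑ J, z J ^ 2 := by
    have h1 := sq_sum_le_card_mul_sum_sq (s := (Finset.univ : Finset (Fin (n + 1) → Fin N)))
      (f := fun J => |z J|)
    simp only [sq_abs, Finset.card_univ, Fintype.card_pi, Fintype.card_fin, Finset.prod_const]
      at h1
    push_cast at h1
    exact h1
  -- positivity
  have hpos : ∑ J, z J ^ 2 ≤ - ∑ I, z I * T I := by
    have h1 : ∀ I, z I ^ 2 + z I * ∑ k, Real.log |(hypVal α β I k : ℝ)| *
        dB z (fun _ => 1) I k ≤ - (z I * T I) := by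
      intro I
      by_cases hI : hypDet α I = 0
      · rw [hz0 I hI]
        simp
      · have h2 := main_at_vertex (z := z) hzA hz hI (fun k hk => hgp I k hI hk) (hR I hI)
        have h3 : T I = - (z I * (Real.log |c| - N * Real.log |(hypDet α I : ℝ)|) +
            ∑ k, Real.log |(hypVal α β I k : ℝ)| * dB z (fun _ => 1) I k) := h2
        rw [h3]
        have hΔ1 := one_le_abs_int hΔ0
        have hb0 : 0 < b := lt_of_lt_of_le (Real.exp_pos 1) hb
        have hlogb : 1 ≤ Real.log b := (Real.le_log_iff_exp_le hb0).2 hb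
        have hlogc : (n + 1) * Real.log b + (N + 1) * Real.log |(Δ : ℝ)| ≤ Real.log |c| := by
          have h4 := Real.log_le_log (by positivity) hc
          rw [Real.log_mul (by positivity) (by positivity), Real.log_pow, Real.log_pow] at h4
          push_cast at h4
          exact h4
        have hlogD : Real.log |(hypDet α I : ℝ)| ≤ Real.log |(Δ : ℝ)| :=
          Real.log_le_log (abs_pos.2 (Int.cast_ne_zero.2 hI)) (abs_hypDet_le hΔ0 hΔ I)
        have hlogΔ : 0 ≤ Real.log |(Δ : ℝ)| := Real.log_nonneg hΔ1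
        have h5 : 1 ≤ Real.log |c| - N * Real.log |(hypDet α I : ℝ)| := by
          have h6 : (N : ℝ) * Real.log |(hypDet α I : ℝ)| ≤ N * Real.log |(Δ : ℝ)| :=
            mul_le_mul_of_nonneg_left hlogD (Nat.cast_nonneg N)
          have h7 : (0 : ℝ) ≤ n := Nat.cast_nonneg n
          nlinarith
        have h8 := sq_nonneg (z I)
        nlinarith
    have h2 := Finset.sum_le_sum fun I (_ : I ∈ (Finset.univ : Finset (Fin (n + 1) → Fin N))) =>
      h1 I
    rw [Finset.sum_add_distrib, Finset.sum_neg_distrib] at h2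
    have h3 := sum_pos (α := α) (β := β) hzA
    linarith
  -- conclusion
  have hfac : (0 : ℝ) < (n + 1).factorial := by exact_mod_cast Nat.factorial_pos (n + 1)
  have hz2 : 0 ≤ ∑ J, z J ^ 2 := Finset.sum_nonneg fun J _ => sq_nonneg _
  have hzero : ∑ J, z J ^ 2 = 0 := by
    by_contra hne
    have hpos2 : 0 < ∑ J, z J ^ 2 := lt_of_le_of_ne hz2 (Ne.symm hne)
    have h1 : ((n + 1).factorial : ℝ) * ∑ J, z J ^ 2 ≤ ε * (∑ J, |z J|) ^ 2 := by
      have h2 := neg_abs_le (((n + 1).factorial : ℝ) * ∑ I, z I * T I)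
      have h3 := mul_le_mul_of_nonneg_left hpos hfac.le
      linarith
    have hε0 : 0 < ε := by
      by_contra hcon
      push Not at hcon
      have h3 : ε * (∑ J, |z J|) ^ 2 ≤ 0 := mul_nonpos_of_nonpos_of_nonneg hcon (sq_nonneg _)
      have h4 : 0 < ((n + 1).factorial : ℝ) * ∑ J, z J ^ 2 := mul_pos hfac hpos2
      linarith
    have h3 : ε * (∑ J, |z J|) ^ 2 ≤ ε * ((N : ℝ) ^ (n + 1) * ∑ J, z J ^ 2) :=
      mul_le_mul_of_nonneg_left hCS hε0.le
    have h4 : ε * ((N : ℝ) ^ (n + 1) * ∑ J, z J ^ 2) < (n + 1).factorial * ∑ J, z J ^ 2 := by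
      rw [← mul_assoc]
      exact mul_lt_mul_of_pos_right hε hpos2
    linarith
  funext J
  have h1 := (Finset.sum_eq_zero_iff_of_nonneg fun J _ => sq_nonneg (z J)).1 hzero J
    (Finset.mem_univ J)
  exact pow_eq_zero_iff (two_ne_zero) |>.1 h1

end Pool.Agent.Helper11
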