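import Mathlib
import Pool.Agent.Helper11.HInd2
import Pool.Agent.Helper11.CTorus

/-! The regulator matrix of an arrangement is nondegenerate on cycles: variable radii. -/

namespace Pool.Agent.Helper11

open Finset

variable {n N : ℕ} {α : Fin N → Fin (n + 1) → ℤ} {β : Fin N → ℤ} {z : (Fin (n + 1) → Fin N) → ℝ}

/-- the main term with variable radii -/
lemma main_at_vertex' (hzA : Alt z) (hz : ∀ J m, ∑ k, z (Function.update J m k) = 0)
    {I : Fin (n + 1) → Fin N} (hI : hypDet α I ≠ 0)
    (hgp : ∀ k, (¬ ∃ m, I m = k) → hypVal α β I k ≠ 0) {R c : ℝ}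
    (hR : (n + 1) * Real.log R = - (Real.log |c| +
        ∑ k ∈ Finset.univ.filter (fun k => ¬ ∃ m, I m = k),
          Real.log |(hypVal α β I k : ℝ) / hypDet α I|))
    {μ : Fin (n + 1) → ℝ} (hμ0 : ∀ m, 0 < μ m) (hμ1 : ∏ m, μ m = 1) :
    ∑ i, (hypA α β I R i + hypM I μ i) * ∑ j, z (Function.update I j i) =
      - (z I * (Real.log |c| - N * Real.log |(hypDet α I : ℝ)|) +
        ∑ k, Real.log |(hypVal α β I k : ℝ)| * dB z (fun _ => 1) I k) := by
  have hin : ∀ l, ∑ j, z (Function.update I j (I l)) = z I := by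
    intro l
    rw [Finset.sum_eq_single l]
    · rw [Function.update_eq_self]
    · intro j _ hj
      refine hzA.eq_zero (i := j) (j := l) hj ?_
      rw [Function.update_self, Function.update_of_ne hj.symm]
    · intro h
      exact absurd (Finset.mem_univ l) h
  have h1 : ∑ i, hypM I μ i * ∑ j, z (Function.update I j i) = 0 := by
    unfold hypM
    simp only [Finset.sum_mul]
    rw [Finset.sum_comm]
    have h2 : ∀ m, ∑ i, (if I m = i then Real.log (μ m) else 0) *
        ∑ j, z (Function.update I j i) = Real.log (μ m) * z I := by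
      intro m
      rw [Finset.sum_eq_single (I m)]
      · rw [if_pos rfl, hin]
      · intro i _ hi
        rw [if_neg (Ne.symm hi), zero_mul]
      · intro h
        exact absurd (Finset.mem_univ _) h
    simp only [h2]
    rw [← Finset.sum_mul, ← Real.log_prod fun m _ => (hμ0 m).ne', hμ1, Real.log_one, zero_mul]
  simp only [add_mul]
  rw [Finset.sum_add_distrib, h1, add_zero]
  exact main_at_vertex hzA hz hI hgp hR

/-- The conclusion of the positivity argument. -/
theorem cycle_eq_zero' {Δ : ℤ} (hΔ0 : Δ ≠ 0) (hΔ : ∀ J, hypDet α J ≠ 0 → hypDet α J ∣ Δ)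
    (hgp : ∀ J k, hypDet α J ≠ 0 → (¬ ∃ m, J m = k) → hypVal α β J k ≠ 0)
    (hzA : Alt z) (hz0 : ∀ J, hypDet α J = 0 → z J = 0)
    (hz : ∀ J m, ∑ k, z (Function.update J m k) = 0)
    {c b ε C : ℝ} (hC : 0 < C) (hb : Real.exp 1 ≤ b)
    (hc : b ^ (n + 1) * |(Δ : ℝ)| ^ (N + 1) ≤ |c|)
    (hε : ε * (N : ℝ) ^ (n + 1) < (n + 1).factorial)
    {A : (Fin (n + 1) → Fin N) → Fin N → ℝ}
    (hA : ∀ I, hypDet α I ≠ 0 → ∑ i, A I i * ∑ j, z (Function.update I j i) =
      - (z I * (Real.log |c| - N * Real.log |(hypDet α I : ℝ)|) +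
        ∑ k, Real.log |(hypVal α β I k : ℝ)| * dB z (fun _ => 1) I k))
    {ρ : (Fin (n + 1) → Fin N) → (Fin (n + 1) → Fin N) → ℝ}
    (hρ : ∀ I J, hypDet α I ≠ 0 → hypDet α J ≠ 0 → |ρ I J - C *
      (Matrix.of fun m => (Fin.cons (A I (J m) - Real.log |(hypDet α J : ℝ)|)
        (hypW I (J m)) : Fin (n + 1) → ℝ)).det| ≤ C * ε)
    (h0 : ∀ I, hypDet α I ≠ 0 → ∑ J, z J * ρ I J = 0) : z = 0 := by
  -- the determinant
  set M : (Fin (n + 1) → Fin N) → (Fin (n + 1) → Fin N) → ℝ := fun I J =>
    (Matrix.of fun m => (Fin.cons (A I (J m)) (hypW I (J m)) :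
      Fin (n + 1) → ℝ)).det with hM
  set W : (Fin (n + 1) → Fin N) → (Fin (n + 1) → Fin N) → ℝ := fun I J =>
    (Matrix.of fun m => (Fin.cons 1 (hypW I (J m)) : Fin (n + 1) → ℝ)).det with hW
  have hdet : ∀ I J, (Matrix.of fun m => (Fin.cons (A I (J m) -
      Real.log |(hypDet α J : ℝ)|) (hypW I (J m)) : Fin (n + 1) → ℝ)).det =
      M I J - Real.log |(hypDet α J : ℝ)| * W I J := by
    intro I J
    simp only [hM, hW, det_cons_hypW]
    rw [Finset.mul_sum, ← Finset.sum_sub_distrib]
    refine Finset.sum_congr rfl fun j _ => ?_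
    have h1 : (fun m => A I (J m) - Real.log |(hypDet α J : ℝ)|) =
        (fun m => A I (J m)) + (- Real.log |(hypDet α J : ℝ)|) •
          (fun _ : Fin (n + 1) => (1 : ℝ)) := by
      funext m
      simp
      ring
    rw [h1, Matrix.det_updateCol_add, Matrix.det_updateCol_smul]
    ring
  set T : (Fin (n + 1) → Fin N) → ℝ := fun I =>
    ∑ i, A I i * ∑ j, z (Function.update I j i) with hT
  -- the double sum
  have hsum0 : ∑ I, z I * ∑ J, z J * ρ I J = 0 := by
    refine Finset.sum_eq_zero fun I _ => ?_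
    by_cases hI : hypDet α I = 0
    · rw [hz0 I hI, zero_mul]
    · rw [h0 I hI, mul_zero]
  have hmain : ∑ I, z I * ∑ J, z J * (C * (M I J - Real.log |(hypDet α J : ℝ)| * W I J)) =
      C * ((n + 1).factorial * ∑ I, z I * T I) := by
    have e1 : ∀ I, ∑ J, z J * (C * (M I J - Real.log |(hypDet α J : ℝ)| * W I J)) =
        C * ((n + 1).factorial * T I) -
          C * ∑ J, z J * (Real.log |(hypDet α J : ℝ)| * W I J) := by
      intro I
      have e2 : ∑ J, z J * M I J = (n + 1).factorial * T I := sum_main hzA I _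
      rw [← e2, ← mul_sub, ← Finset.sum_sub_distrib, Finset.mul_sum]
      refine Finset.sum_congr rfl fun J _ => ?_
      ring
    have e5 : ∀ I, z I * ∑ J, z J * (C * (M I J - Real.log |(hypDet α J : ℝ)| * W I J)) =
        z I * (C * ((n + 1).factorial * T I)) -
          z I * (C * ∑ J, z J * (Real.log |(hypDet α J : ℝ)| * W I J)) := by
      intro I
      rw [e1, mul_sub]
    rw [Finset.sum_congr rfl fun I _ => e5 I, Finset.sum_sub_distrib]
    have e3 : ∑ I, z I * (C * ∑ J, z J * (Real.log |(hypDet α J : ℝ)| * W I J)) = 0 := by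
      have e4 : ∀ I, z I * (C * ∑ J, z J * (Real.log |(hypDet α J : ℝ)| * W I J)) =
          ∑ J, C * z J * Real.log |(hypDet α J : ℝ)| * (z I * W I J) := by
        intro I
        rw [Finset.mul_sum, Finset.mul_sum]
        refine Finset.sum_congr rfl fun J _ => ?_
        ring
      simp only [e4]
      rw [Finset.sum_comm]
      refine Finset.sum_eq_zero fun J _ => ?_
      rw [← Finset.mul_sum, sum_ones hz J, mul_zero]
    rw [e3, sub_zero, Finset.mul_sum, Finset.mul_sum]
    refine Finset.sum_congr rfl fun I _ => ?_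
    ring
  -- the error
  have herr : |∑ I, z I * ∑ J, z J * (C * (M I J - Real.log |(hypDet α J : ℝ)| * W I J))| ≤
      C * ε * (∑ J, |z J|) ^ 2 := by
    have e1 : ∑ I, z I * ∑ J, z J * (C * (M I J - Real.log |(hypDet α J : ℝ)| * W I J)) =
        ∑ I, z I * ∑ J, z J * (C * (M I J - Real.log |(hypDet α J : ℝ)| * W I J) - ρ I J) := by
      have e2 : ∀ I, z I * ∑ J, z J * (C * (M I J - Real.log |(hypDet α J : ℝ)| * W I J) -
          ρ I J) = z I * ∑ J, z J * (C * (M I J - Real.log |(hypDet α J : ℝ)| * W I J)) -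
          z I * ∑ J, z J * ρ I J := by
        intro I
        rw [← mul_sub, ← Finset.sum_sub_distrib]
        congr 1
        refine Finset.sum_congr rfl fun J _ => ?_
        ring
      simp only [e2]
      rw [Finset.sum_sub_distrib, hsum0, sub_zero]
    rw [e1]
    calc |∑ I, z I * ∑ J, z J * (C * (M I J - Real.log |(hypDet α J : ℝ)| * W I J) - ρ I J)|
        ≤ ∑ I, |z I| * ∑ J, |z J| * (C * ε) := by
          refine (Finset.abs_sum_le_sum_abs _ _).trans (Finset.sum_le_sum fun I _ => ?_)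
          rw [abs_mul]
          by_cases hI : hypDet α I = 0
          · rw [hz0 I hI]
            simp
          · refine mul_le_mul_of_nonneg_left ?_ (abs_nonneg _)
            refine (Finset.abs_sum_le_sum_abs _ _).trans (Finset.sum_le_sum fun J _ => ?_)
            rw [abs_mul]
            by_cases hJ : hypDet α J = 0
            · rw [hz0 J hJ]
              simp
            · refine mul_le_mul_of_nonneg_left ?_ (abs_nonneg _)
              rw [abs_sub_comm, ← hdet]
              exact hρ I J hI hJ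
      _ = _ := by
        rw [← Finset.sum_mul, ← Finset.sum_mul]
        ring
  rw [hmain, abs_mul, abs_of_pos hC, mul_assoc] at herr
  have herr2 : |((n + 1).factorial : ℝ) * ∑ I, z I * T I| ≤ ε * (∑ J, |z J|) ^ 2 :=
    le_of_mul_le_mul_left herr hC
  -- Cauchy-Schwarz
  have hCS : (∑ J, |z J|) ^ 2 ≤ (N : ℝ) ^ (n + 1) * ∑ J, z J ^ 2 := by
    have h1 := sq_sum_le_card_mul_sum_sq (s := (Finset.univ : Finset (Fin (n + 1) → Fin N)))
      (f := fun J => |z J|)
    simp only [sq_abs, Finset.card_univ, Fintype.card_pi, Fintype.card_fin, Finset.prod_const]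
      at h1
    push_cast at h1
    exact h1
  -- positivity
  have hpos : ∑ J, z J ^ 2 ≤ - ∑ I, z I * T I := by
    have h1 : ∀ I, z I ^ 2 + z I * ∑ k, Real.log |(hypVal α β I k : ℝ)| *
        dB z (fun _ => 1) I k ≤ - (z I * T I) := by
      intro I
      by_cases hI : hypDet α I = 0
      · rw [hz0 I hI]
        simp
      · have h2 := hA I hI
        have h3 : T I = - (z I * (Real.log |c| - N * Real.log |(hypDet α I : ℝ)|) +
            ∑ k, Real.log |(hypVal α β I k : ℝ)| * dB z (fun _ => 1) I k) := h2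
        rw [h3]
        have hΔ1 := one_le_abs_int hΔ0
        have hb0 : 0 < b := lt_of_lt_of_le (Real.exp_pos 1) hb
        have hlogb : 1 ≤ Real.log b := (Real.le_log_iff_exp_le hb0).2 hb
        have hlogc : (n + 1) * Real.log b + (N + 1) * Real.log |(Δ : ℝ)| ≤ Real.log |c| := by
          have h4 := Real.log_le_log (by positivity) hc
          rw [Real.log_mul (by positivity) (by positivity), Real.log_pow, Real.log_pow] at h4
          push_cast at h4
          exact h4
        have hlogD : Real.log |(hypDet α I : ℝ)| ≤ Real.log |(Δ : ℝ)| :=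
          Real.log_le_log (abs_pos.2 (Int.cast_ne_zero.2 hI)) (abs_hypDet_le hΔ0 hΔ I)
        have hlogΔ : 0 ≤ Real.log |(Δ : ℝ)| := Real.log_nonneg hΔ1
        have h5 : 1 ≤ Real.log |c| - N * Real.log |(hypDet α I : ℝ)| := by
          have h6 : (N : ℝ) * Real.log |(hypDet α I : ℝ)| ≤ N * Real.log |(Δ : ℝ)| :=
            mul_le_mul_of_nonneg_left hlogD (Nat.cast_nonneg N)
          have h7 : (0 : ℝ) ≤ n := Nat.cast_nonneg n
          nlinarith
        have h8 := sq_nonneg (z I)
        nlinarith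
    have h2 := Finset.sum_le_sum fun I (_ : I ∈ (Finset.univ : Finset (Fin (n + 1) → Fin N))) =>
      h1 I
    rw [Finset.sum_add_distrib, Finset.sum_neg_distrib] at h2
    have h3 := sum_pos (α := α) (β := β) hzA
    linarith
  -- conclusion
  have hfac : (0 : ℝ) < (n + 1).factorial := by exact_mod_cast Nat.factorial_pos (n + 1)
  have hz2 : 0 ≤ ∑ J, z J ^ 2 := Finset.sum_nonneg fun J _ => sq_nonneg _
  have hzero : ∑ J, z J ^ 2 = 0 := by
    by_contra hne
    have hpos2 : 0 < ∑ J, z J ^ 2 := lt_of_le_of_ne hz2 (Ne.symm hne)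
    have h1 : ((n + 1).factorial : ℝ) * ∑ J, z J ^ 2 ≤ ε * (∑ J, |z J|) ^ 2 := by
      have h2 := neg_abs_le (((n + 1).factorial : ℝ) * ∑ I, z I * T I)
      have h3 := mul_le_mul_of_nonneg_left hpos hfac.le
      linarith
    have hε0 : 0 < ε := by
      by_contra hcon
      push Not at hcon
      have h3 : ε * (∑ J, |z J|) ^ 2 ≤ 0 := mul_nonpos_of_nonpos_of_nonneg hcon (sq_nonneg _)
      have h4 : 0 < ((n + 1).factorial : ℝ) * ∑ J, z J ^ 2 := mul_pos hfac hpos2
      linarith
    have h3 : ε * (∑ J, |z J|) ^ 2 ≤ ε * ((N : ℝ) ^ (n + 1) * ∑ J, z J ^ 2) :=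
      mul_le_mul_of_nonneg_left hCS hε0.le
    have h4 : ε * ((N : ℝ) ^ (n + 1) * ∑ J, z J ^ 2) < (n + 1).factorial * ∑ J, z J ^ 2 := by
      rw [← mul_assoc]
      exact mul_lt_mul_of_pos_right hε hpos2
    linarith
  funext J
  have h1 := (Finset.sum_eq_zero_iff_of_nonneg fun J _ => sq_nonneg (z J)).1 hzero J
    (Finset.mem_univ J)
  exact pow_eq_zero_iff (two_ne_zero) |>.1 h1

end Pool.Agent.Helper11
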