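import Mathlib
import Pool.Agent.Helper11.HInd2

/-! The theorem on arrangements of hyperplanes. -/

namespace Pool.Agent.Helper11

/-- rational independence implies real independence -/
lemma real_indep_fun {g : ℕ} {E : Type*} [Fintype E] [DecidableEq E] {v : Fin g → (E → ℚ)}
    (hv : LinearIndependent ℚ v) {l : Fin g → ℝ} (h : ∀ e, ∑ a, l a * (v a e : ℝ) = 0) :
    ∀ a, l a = 0 := by
  have hinj : LinearMap.ker (Fintype.linearCombination ℚ v) = ⊥ := by
    rw [LinearMap.ker_eq_bot]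
    exact linearIndependent_iff_injective_fintypeLinearCombination.1 hv
  obtain ⟨T, hT⟩ := (Fintype.linearCombination ℚ v).exists_leftInverse_of_injective hinj
  have hTv : ∀ a b, T (v a) b = if a = b then 1 else 0 := by
    intro a b
    have h1 : T (Fintype.linearCombination ℚ v (Pi.single a 1)) = Pi.single a 1 := by
      have := LinearMap.congr_fun hT (Pi.single a 1)
      simpa using this
    rw [Fintype.linearCombination_apply_single, one_smul] at h1
    rw [h1, Pi.single_apply]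
    by_cases hab : a = b
    · rw [if_pos hab, if_pos hab.symm]
    · rw [if_neg hab, if_neg (Ne.symm hab)]
  have hexp : ∀ a b, T (v a) b = ∑ e, v a e * T (Pi.single e 1) b := by
    intro a b
    have h1 : v a = ∑ e, v a e • (Pi.single e (1 : ℚ) : E → ℚ) := by
      funext e
      simp [Finset.sum_apply, Pi.single_apply]
    conv_lhs => rw [h1]
    rw [map_sum, Finset.sum_apply]
    refine Finset.sum_congr rfl fun e _ => ?_
    rw [map_smul, Pi.smul_apply, smul_eq_mul]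
  intro b
  have h2 : l b = ∑ a, l a * (T (v a) b : ℝ) := by
    rw [Finset.sum_eq_single b]
    · rw [hTv, if_pos rfl]
      simp
    · intro a _ hab
      rw [hTv, if_neg hab]
      simp
    · intro h
      exact absurd (Finset.mem_univ b) h
  rw [h2]
  have h3 : ∀ a, l a * (T (v a) b : ℝ) = ∑ e, (T (Pi.single e 1) b : ℝ) * (l a * (v a e : ℝ)) := by
    intro a
    rw [hexp]
    push_cast
    rw [Finset.mul_sum]
    refine Finset.sum_congr rfl fun e _ => ?_
    ring
  simp only [h3]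
  rw [Finset.sum_comm]
  refine Finset.sum_eq_zero fun e _ => ?_
  rw [← Finset.mul_sum, h e, mul_zero]


section main

variable {n N : ℕ} {α : Fin N → Fin (n + 1) → ℤ} {β : Fin N → ℤ} {c Δ : ℤ}

/-- the values of a quotient of a form by a constant on the torus -/
lemma torus_val {D : (HypRing α β c)ˣ} {d : ℤ} (hD : (D : HypRing α β c) = d) (hd : d ≠ 0)
    (γ : HypRing α β c →+* TorusRing n) (i : Fin N) :
    ((γ ((hypU α β c i / D : (HypRing α β c)ˣ) : HypRing α β c) : TorusRing n) :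
      (Fin n → ℝ) → ℂ) =
      fun θ => ((d : ℂ)⁻¹) * ((γ (hypForm α β c i) : TorusRing n) : (Fin n → ℝ) → ℂ) θ := by
  have h1 : (D : HypRing α β c) * ((hypU α β c i / D : (HypRing α β c)ˣ) : HypRing α β c) =
      hypForm α β c i := by
    rw [← Units.val_mul, mul_div_cancel]
    rfl
  have h2 := congrArg γ h1
  rw [map_mul, hD, map_intCast] at h2
  funext θ
  have h3 := congrFun (congrArg (fun t : TorusRing n => (t : (Fin n → ℝ) → ℂ)) h2) θ
  rw [Subring.coe_mul, Pi.mul_apply, SubringClass.coe_intCast] at h3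
  rw [← h3]
  have hd' : ((d : ℤ) : ℂ) ≠ 0 := Int.cast_ne_zero.2 hd
  have h4 : ((d : (Fin n → ℝ) → ℂ)) θ = (d : ℂ) := rfl
  rw [h4, ← mul_assoc, inv_mul_cancel₀ hd', one_mul]

/-- The theorem on arrangements of hyperplanes. -/
theorem hyp_main
    (hgp : ∀ J k, hypDet α J ≠ 0 → (∀ m, J m ≠ k) → hypVal α β J k ≠ 0)
    (hΔ0 : Δ ≠ 0) (hΔ : ∀ J, hypDet α J ≠ 0 → hypDet α J ∣ Δ) (hΔc : Δ ^ (N + 1) ∣ c)
    (hc : (100 * (n + 1) * 2 ^ n * N ^ (n + 2)) ^ (n + 1) * |Δ| ^ (N + 1) ≤ |c|) :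
    ∃ (L : Fin N → (HypRing α β c)ˣ) (D : (Fin (n + 1) → Fin N) → (HypRing α β c)ˣ),
      (∀ i, (L i : HypRing α β c) = hypForm α β c i) ∧
      (∀ J, hypDet α J ≠ 0 → (D J : HypRing α β c) = hypDet α J) ∧
      (∀ z ∈ hypCycles α, Unramified (cycleClass L D z)) ∧
      ∃ R : {J // hypDet α J ≠ 0} → (KMQ (HypRing α β c) (n + 1) →ₗ[ℚ] ℝ),
        (∀ J, IsTorusRegulator (R J)) ∧
        ∀ (r : ℕ) (z : Fin r → hypCycles α), LinearIndependent ℚ z →
          LinearIndependent ℝ fun a J => R J (cycleClass L D (z a)) := by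
  obtain ⟨D, hD⟩ := exists_hypD hΔ hΔc
  set b : ℝ := 100 * ((n : ℝ) + 1) * 2 ^ n * (N : ℝ) ^ (n + 2) with hbdef
  have hgp' : ∀ J k, hypDet α J ≠ 0 → (¬ ∃ m, J m = k) → hypVal α β J k ≠ 0 := by
    intro J k hJ hk
    refine hgp J k hJ fun m hm => hk ⟨m, hm⟩
  have hcR : b ^ (n + 1) * |(Δ : ℝ)| ^ (N + 1) ≤ |(c : ℝ)| := by
    have h1 : (((100 * (n + 1) * 2 ^ n * N ^ (n + 2)) ^ (n + 1) * |Δ| ^ (N + 1) : ℤ) : ℝ) ≤
        ((|c| : ℤ) : ℝ) := Int.cast_le.2 hc
    push_cast at h1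
    rw [hbdef]
    exact h1
  have hn0 : (0 : ℝ) ≤ n := Nat.cast_nonneg n
  have htor : ∀ I : {J // hypDet α J ≠ 0}, ∃ R : ℝ, 0 < R ∧
      (n + 1) * Real.log R = - (Real.log |(c : ℝ)| +
        ∑ k ∈ Finset.univ.filter (fun k => ¬ ∃ m, (I : Fin (n + 1) → Fin N) m = k),
          Real.log |(hypVal α β I k : ℝ) / hypDet α I|) ∧
      ∃ (γ : HypRing α β c →+* TorusRing n) (u : Fin N → (Fin n → ℝ) → ℂ),
        (∀ i, Wnd ((γ (hypForm α β c i) : TorusRing n) : (Fin n → ℝ) → ℂ)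
          (hypA α β I R i) (hypW I i) (u i)) ∧
        (∀ i θ, |Real.log ‖u i θ‖| ≤ 40 * ((n : ℝ) + 1) * N / b) ∧
        ∀ i θ (l : Fin n), ‖fderiv ℝ (u i) θ (Pi.single l 1) / u i θ‖ ≤ 1 := by
    intro I
    have hN : 1 ≤ N := by
      have := Fin.pos ((I : Fin (n + 1) → Fin N) 0)
      omega
    have hN' : (1 : ℝ) ≤ N := by exact_mod_cast hN
    refine exists_hypTorus I.2 (fun k hk => hgp' I k I.2 hk) hΔ0 hΔ ?_ hcR
    have h1 : (1 : ℝ) ≤ 2 ^ n := one_le_pow₀ (by norm_num)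
    have h2 : (N : ℝ) ≤ (N : ℝ) ^ (n + 2) := by
      calc (N : ℝ) = (N : ℝ) ^ 1 := (pow_one _).symm
        _ ≤ (N : ℝ) ^ (n + 2) := pow_le_pow_right₀ hN' (by omega)
    rw [hbdef]
    calc 100 * ((n : ℝ) + 1) * N = 100 * ((n : ℝ) + 1) * 1 * N := by ring
      _ ≤ 100 * ((n : ℝ) + 1) * 2 ^ n * (N : ℝ) ^ (n + 2) := by
        refine mul_le_mul (mul_le_mul_of_nonneg_left h1 (by positivity)) h2 (by positivity)
          (by positivity)
  choose Rad hRad0 hRadlog γ u hWnd hulog huder using htor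
  obtain ⟨T, hT⟩ := exists_regTorus n
  set F : {J // hypDet α J ≠ 0} → (KMQ (HypRing α β c) (n + 1) →ₗ[ℚ] ℝ) := fun J =>
    T.comp (KMQ.map (γ J) (n + 1)) with hF
  have hFs : ∀ J (f : Fin (n + 1) → (HypRing α β c)ˣ), F J (symM f) =
      regTorus (fun j => ((γ J (f j : HypRing α β c) : TorusRing n) : (Fin n → ℝ) → ℂ)) := by
    intro J f
    rw [hF]
    simp only [LinearMap.comp_apply]
    rw [KMQ.map_symM, hT]
    rfl
  refine ⟨hypU α β c, D, fun i => hypU_val i, fun J hJ => (hD J).1 hJ, ?_, F,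
    fun J => ⟨γ J, hFs J⟩, ?_⟩
  · intro z hz
    exact hyp_unramified hΔ hΔc hD hz.2.1 hz.2.2
  intro r z hzi
  rw [Fintype.linearIndependent_iff]
  intro x hx
  set zR : (Fin (n + 1) → Fin N) → ℝ := fun J =>
    ∑ a, x a * ((z a : (Fin (n + 1) → Fin N) → ℚ) J : ℝ) with hzR
  -- it suffices to show that the cycle vanishes
  suffices hzero : zR = 0 by
    have h1 : LinearIndependent ℚ fun a => (z a : (Fin (n + 1) → Fin N) → ℚ) :=
      hzi.map' (Submodule.subtype _) (Submodule.ker_subtype _)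
    exact real_indep_fun h1 fun J => congrFun hzero J
  -- the case without vertices
  by_cases hN0 : N = 0
  · subst hN0
    funext J
    exact (J 0).elim0
  have hN' : (1 : ℝ) ≤ N := by exact_mod_cast Nat.one_le_iff_ne_zero.2 hN0
  -- regulators of the single symbols
  set ρ : (Fin (n + 1) → Fin N) → (Fin (n + 1) → Fin N) → ℝ := fun I J =>
    if hI : hypDet α I ≠ 0 then F ⟨I, hI⟩ (symM fun m => hypU α β c (J m) / D J) else 0 with hρdef
  set Rf : (Fin (n + 1) → Fin N) → ℝ := fun I => if hI : hypDet α I ≠ 0 then Rad ⟨I, hI⟩ else 0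
    with hRf
  have hb1 : Real.exp 1 ≤ b := by
    have h1 : (1 : ℝ) ≤ 2 ^ n := one_le_pow₀ (by norm_num)
    have h2 : (1 : ℝ) ≤ (N : ℝ) ^ (n + 2) := one_le_pow₀ hN'
    have h3 := Real.exp_one_lt_d9
    have h4 : (100 : ℝ) ≤ b := by
      rw [hbdef]
      calc (100 : ℝ) = 100 * 1 * 1 * 1 := by norm_num
        _ ≤ 100 * ((n : ℝ) + 1) * 2 ^ n * (N : ℝ) ^ (n + 2) := by
          refine mul_le_mul (mul_le_mul (by linarith) h1 (by norm_num) (by positivity)) h2
            (by norm_num) (by positivity)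
    linarith
  have hb0 : 0 < b := lt_of_lt_of_le (Real.exp_pos 1) hb1
  set ε : ℝ := (n + 1).factorial * (40 * ((n : ℝ) + 1) * N / b * 2 ^ n) with hε
  refine cycle_eq_zero (α := α) (β := β) (Δ := Δ) (c := (c : ℝ)) (b := b) (ε := ε)
    (C := (2 * Real.pi) ^ n) (R := Rf) (ρ := ρ) hΔ0 hΔ hgp' ?_ ?_ ?_ (by positivity) hb1 hcR
    ?_ ?_ ?_ ?_
  · intro J i j hij
    simp only [hzR]
    rw [← Finset.sum_neg_distrib]
    refine Finset.sum_congr rfl fun a _ => ?_
    rw [(z a).2.1 J i j hij]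
    push_cast
    ring
  · intro J hJ
    simp only [hzR]
    refine Finset.sum_eq_zero fun a _ => ?_
    rw [(z a).2.2.1 J hJ]
    simp
  · intro J m
    simp only [hzR]
    rw [Finset.sum_comm]
    refine Finset.sum_eq_zero fun a _ => ?_
    rw [← Finset.mul_sum, ← Rat.cast_sum, (z a).2.2.2 J m]
    simp
  · -- smallness of the error
    have hfac : (0 : ℝ) < (n + 1).factorial := by exact_mod_cast Nat.factorial_pos (n + 1)
    have h1 : ε * (N : ℝ) ^ (n + 1) = (n + 1).factorial * (40 / 100) := by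
      rw [hε, hbdef]
      have h2 : (N : ℝ) ≠ 0 := by positivity
      have h3 : (n : ℝ) + 1 ≠ 0 := by positivity
      field_simp
      ring
    rw [h1]
    nlinarith
  · intro I hI
    simp only [hRf]
    rw [dif_pos hI]
    exact hRadlog ⟨I, hI⟩
  · intro I J hI hJ
    simp only [hρdef, hRf]
    rw [dif_pos hI, dif_pos hI, hFs]
    have hdJ : ((hypDet α J : ℤ) : ℂ)⁻¹ ≠ 0 := inv_ne_zero (Int.cast_ne_zero.2 hJ)
    have h1 : ∀ m, Wnd ((γ ⟨I, hI⟩ ((hypU α β c (J m) / D J : (HypRing α β c)ˣ) :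
        HypRing α β c) : TorusRing n) : (Fin n → ℝ) → ℂ)
        (hypA α β I (Rad ⟨I, hI⟩) (J m) - Real.log |(hypDet α J : ℝ)|) (hypW I (J m))
        (u ⟨I, hI⟩ (J m)) := by
      intro m
      rw [torus_val ((hD J).1 hJ) hJ (γ ⟨I, hI⟩) (J m)]
      have h2 := (hWnd ⟨I, hI⟩ (J m)).const_mul hdJ
      have h3 : Real.log ‖((hypDet α J : ℤ) : ℂ)⁻¹‖ = - Real.log |(hypDet α J : ℝ)| := by
        rw [norm_inv, Real.log_inv]
        congr 2
        rw [← Complex.ofReal_intCast, Complex.norm_real, Real.norm_eq_abs]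
      rw [h3, ← sub_eq_add_neg] at h2
      exact h2
    exact regTorus_wnd h1 (by positivity) (fun m θ => hulog _ _ θ) (fun m θ l => huder _ _ θ l)
      (fun m l => by
        rw [hypW_eq]
        split_ifs <;> norm_num)
  · intro I hI
    have h1 := congrFun hx ⟨I, hI⟩
    simp only [Finset.sum_apply, Pi.smul_apply, smul_eq_mul, Pi.zero_apply, cycleClass] at h1
    rw [← h1]
    simp only [hzR, hρdef, dif_pos hI, Finset.sum_mul]
    rw [Finset.sum_comm]
    refine Finset.sum_congr rfl fun a _ => ?_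
    rw [map_sum, Finset.mul_sum]
    refine Finset.sum_congr rfl fun J _ => ?_
    rw [map_smul, Rat.smul_def]
    ring

end main

end Pool.Agent.Helper11
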