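import Mathlib
import Pool.Agent.Helper11.CInd
import Pool.Agent.Helper11.HMain

/-! Independence of the regulators of the classes attached to cycles: general form. -/

namespace Pool.Agent.Helper11

variable {n N : ℕ} {α : Fin N → Fin (n + 1) → ℤ} {β : Fin N → ℤ} {c Δ : ℤ}

/-- the values of a quotient of a form by a constant on the torus -/
lemma torus_val' {B : Type*} [CommRing B] {L D : Bˣ} {d : ℤ} (hD : (D : B) = d) (hd : d ≠ 0)
    (γ : B →+* TorusRing n) :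
    ((γ ((L / D : Bˣ) : B) : TorusRing n) : (Fin n → ℝ) → ℂ) =
      fun θ => ((d : ℂ)⁻¹) * ((γ (L : B) : TorusRing n) : (Fin n → ℝ) → ℂ) θ := by
  have h1 : (D : B) * ((L / D : Bˣ) : B) = L := by
    rw [← Units.val_mul, mul_div_cancel]
  have h2 := congrArg γ h1
  rw [map_mul, hD, map_intCast] at h2
  funext θ
  have h3 := congrFun (congrArg (fun t : TorusRing n => (t : (Fin n → ℝ) → ℂ)) h2) θ
  rw [Subring.coe_mul, Pi.mul_apply, SubringClass.coe_intCast] at h3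
  rw [← h3]
  have hd' : ((d : ℤ) : ℂ) ≠ 0 := Int.cast_ne_zero.2 hd
  have h4 : ((d : (Fin n → ℝ) → ℂ)) θ = (d : ℂ) := rfl
  rw [h4, ← mul_assoc, inv_mul_cancel₀ hd', one_mul]

theorem reg_indep {B : Type} [CommRing B] (L : Fin N → Bˣ) (D : (Fin (n + 1) → Fin N) → Bˣ)
    (hD : ∀ J, hypDet α J ≠ 0 → (D J : B) = hypDet α J)
    (hgp : ∀ J k, hypDet α J ≠ 0 → (¬ ∃ m, J m = k) → hypVal α β J k ≠ 0)
    (hΔ0 : Δ ≠ 0) (hΔ : ∀ J, hypDet α J ≠ 0 → hypDet α J ∣ Δ)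
    {b δ : ℝ} (hb1 : Real.exp 1 ≤ b) (hδ0 : 0 ≤ δ)
    (hc : b ^ (n + 1) * |(Δ : ℝ)| ^ (N + 1) ≤ |(c : ℝ)|)
    (hδ : (n + 1).factorial * (δ * 2 ^ n) * (N : ℝ) ^ (n + 1) < (n + 1).factorial)
    (γ : {J // hypDet α J ≠ 0} → (B →+* TorusRing n))
    (A : {J // hypDet α J ≠ 0} → Fin N → ℝ)
    (u : {J // hypDet α J ≠ 0} → Fin N → (Fin n → ℝ) → ℂ)
    (hWnd : ∀ I i, Wnd ((γ I (L i : B) : TorusRing n) : (Fin n → ℝ) → ℂ) (A I i)
      (hypW (I : Fin (n + 1) → Fin N) i) (u I i))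
    (hulog : ∀ I i θ, |Real.log ‖u I i θ‖| ≤ δ)
    (huder : ∀ I i θ (l : Fin n), ‖fderiv ℝ (u I i) θ (Pi.single l 1) / u I i θ‖ ≤ 1)
    (hA : ∀ (z : (Fin (n + 1) → Fin N) → ℝ), Alt z →
      (∀ J m, ∑ k, z (Function.update J m k) = 0) → ∀ I : {J // hypDet α J ≠ 0},
      ∑ i, A I i * ∑ j, z (Function.update (I : Fin (n + 1) → Fin N) j i) =
        - (z I * (Real.log |(c : ℝ)| - N * Real.log |(hypDet α I : ℝ)|) +
          ∑ k, Real.log |(hypVal α β I k : ℝ)| * dB z (fun _ => 1) I k)) :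
    ∃ R : {J // hypDet α J ≠ 0} → (KMQ B (n + 1) →ₗ[ℚ] ℝ),
      (∀ J, IsTorusRegulator (R J)) ∧
      ∀ (r : ℕ) (z : Fin r → hypCycles α), LinearIndependent ℚ z →
        LinearIndependent ℝ fun a J => R J (cycleClass L D (z a)) := by
  obtain ⟨T, hT⟩ := exists_regTorus n
  set F : {J // hypDet α J ≠ 0} → (KMQ B (n + 1) →ₗ[ℚ] ℝ) := fun J =>
    T.comp (KMQ.map (γ J) (n + 1)) with hF
  have hFs : ∀ J (f : Fin (n + 1) → Bˣ), F J (symM f) =
      regTorus (fun j => ((γ J (f j : B) : TorusRing n) : (Fin n → ℝ) → ℂ)) := by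
    intro J f
    rw [hF]
    simp only [LinearMap.comp_apply]
    rw [KMQ.map_symM, hT]
    rfl
  refine ⟨F, fun J => ⟨γ J, hFs J⟩, ?_⟩
  intro r z hzi
  rw [Fintype.linearIndependent_iff]
  intro x hx
  set zR : (Fin (n + 1) → Fin N) → ℝ := fun J =>
    ∑ a, x a * ((z a : (Fin (n + 1) → Fin N) → ℚ) J : ℝ) with hzR
  suffices hzero : zR = 0 by
    have h1 : LinearIndependent ℚ fun a => (z a : (Fin (n + 1) → Fin N) → ℚ) :=
      hzi.map' (Submodule.subtype _) (Submodule.ker_subtype _)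
    exact real_indep_fun h1 fun J => congrFun hzero J
  have hzalt : Alt zR := by
    intro J i j hij
    simp only [hzR]
    rw [← Finset.sum_neg_distrib]
    refine Finset.sum_congr rfl fun a _ => ?_
    rw [(z a).2.1 J i j hij]
    push_cast
    ring
  have hz0 : ∀ J, hypDet α J = 0 → zR J = 0 := by
    intro J hJ
    simp only [hzR]
    refine Finset.sum_eq_zero fun a _ => ?_
    rw [(z a).2.2.1 J hJ]
    simp
  have hzs : ∀ J m, ∑ k, zR (Function.update J m k) = 0 := by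
    intro J m
    simp only [hzR]
    rw [Finset.sum_comm]
    refine Finset.sum_eq_zero fun a _ => ?_
    rw [← Finset.mul_sum, ← Rat.cast_sum, (z a).2.2.2 J m]
    simp
  set ρ : (Fin (n + 1) → Fin N) → (Fin (n + 1) → Fin N) → ℝ := fun I J =>
    if hI : hypDet α I ≠ 0 then F ⟨I, hI⟩ (symM fun m => L (J m) / D J) else 0 with hρdef
  set Af : (Fin (n + 1) → Fin N) → Fin N → ℝ := fun I =>
    if hI : hypDet α I ≠ 0 then A ⟨I, hI⟩ else 0 with hAf
  refine cycle_eq_zero' (α := α) (β := β) (Δ := Δ) (c := (c : ℝ)) (b := b)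
    (ε := (n + 1).factorial * (δ * 2 ^ n))
    (C := (2 * Real.pi) ^ n) (A := Af) (ρ := ρ) hΔ0 hΔ hgp hzalt hz0 hzs (by positivity) hb1 hc
    hδ ?_ ?_ ?_
  · intro I hI
    simp only [hAf]
    rw [dif_pos hI]
    exact hA zR hzalt hzs ⟨I, hI⟩
  · intro I J hI hJ
    simp only [hρdef, hAf]
    rw [dif_pos hI, dif_pos hI, hFs]
    have hdJ : ((hypDet α J : ℤ) : ℂ)⁻¹ ≠ 0 := inv_ne_zero (Int.cast_ne_zero.2 hJ)
    have h1 : ∀ m, Wnd ((γ ⟨I, hI⟩ ((L (J m) / D J : Bˣ) : B) : TorusRing n) :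
        (Fin n → ℝ) → ℂ)
        (A ⟨I, hI⟩ (J m) - Real.log |(hypDet α J : ℝ)|) (hypW I (J m))
        (u ⟨I, hI⟩ (J m)) := by
      intro m
      rw [torus_val' (hD J hJ) hJ (γ ⟨I, hI⟩)]
      have h2 := (hWnd ⟨I, hI⟩ (J m)).const_mul hdJ
      have h3 : Real.log ‖((hypDet α J : ℤ) : ℂ)⁻¹‖ = - Real.log |(hypDet α J : ℝ)| := by
        rw [norm_inv, Real.log_inv]
        congr 2
        rw [← Complex.ofReal_intCast, Complex.norm_real, Real.norm_eq_abs]
      rw [h3, ← sub_eq_add_neg] at h2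
      exact h2
    exact regTorus_wnd h1 hδ0 (fun m θ => hulog _ _ θ) (fun m θ l => huder _ _ θ l)
      (fun m l => by
        rw [hypW_eq]
        split_ifs <;> norm_num)
  · intro I hI
    have h1 := congrFun hx ⟨I, hI⟩
    simp only [Finset.sum_apply, Pi.smul_apply, smul_eq_mul, Pi.zero_apply, cycleClass] at h1
    rw [← h1]
    simp only [hzR, hρdef, dif_pos hI, Finset.sum_mul]
    rw [Finset.sum_comm]
    refine Finset.sum_congr rfl fun a _ => ?_
    rw [map_sum, Finset.mul_sum]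
    refine Finset.sum_congr rfl fun J _ => ?_
    rw [map_smul, Rat.smul_def]
    ring

end Pool.Agent.Helper11
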