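import Mathlib
import Pool.Agent.Helper11.CReg
import Pool.Agent.Helper11.CVanish
import Pool.Agent.Helper11.CDim
import Pool.Agent.Helper11.CLoop

/-! The integral part of the group generated by the symbols of units of a line arrangement curve. -/

namespace Pool.Agent.Helper11

section cyc

variable {n N : ℕ} {α : Fin N → Fin (n + 1) → ℤ}

/-- the class of a cycle as a linear map -/
noncomputable def cycMap {B : Type} [CommRing B] (α : Fin N → Fin (n + 1) → ℤ) (L : Fin N → Bˣ)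
    (D : (Fin (n + 1) → Fin N) → Bˣ) : hypCycles α →ₗ[ℚ] KMQ B (n + 1) where
  toFun z := cycleClass L D z
  map_add' z w := by
    unfold cycleClass
    rw [← Finset.sum_add_distrib]
    refine Finset.sum_congr rfl fun J _ => ?_
    rw [← add_smul]
    rfl
  map_smul' q z := by
    unfold cycleClass
    rw [RingHom.id_apply, Finset.smul_sum]
    refine Finset.sum_congr rfl fun J _ => ?_
    rw [smul_smul]
    rfl

lemma cycMap_apply {B : Type} [CommRing B] (L : Fin N → Bˣ)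
    (D : (Fin (n + 1) → Fin N) → Bˣ) (z : hypCycles α) : cycMap α L D z = cycleClass L D z := rfl

/-- functoriality -/
lemma map_cycleClass {B B' : Type} [CommRing B] [CommRing B'] (φ : B →+* B') {L : Fin N → Bˣ}
    {D : (Fin (n + 1) → Fin N) → Bˣ} {L' : Fin N → B'ˣ} {D' : (Fin (n + 1) → Fin N) → B'ˣ}
    (hL : ∀ i, Units.map (φ : B →* B') (L i) = L' i)
    (hD : ∀ J, hypDet α J ≠ 0 → Units.map (φ : B →* B') (D J) = D' J)
    {z : (Fin (n + 1) → Fin N) → ℚ} (hz : ∀ J, hypDet α J = 0 → z J = 0) :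
    KMQ.map φ (n + 1) (cycleClass L D z) = cycleClass L' D' z := by
  unfold cycleClass
  rw [map_sum]
  refine Finset.sum_congr rfl fun J _ => ?_
  by_cases hJ : hypDet α J = 0
  · rw [hz J hJ, zero_smul, zero_smul, map_zero]
  · rw [map_smul, KMQ.map_symM]
    congr 2
    funext m
    rw [map_div, hL, hD J hJ]

end cyc

variable {N : ℕ} {α : Fin N → Fin 2 → ℤ} {β : Fin N → ℤ} {c Δ : ℤ}

/-- the determinants as units of `ℚ[x,y]/(c ∏ L_i - 1)` -/
noncomputable def DA (α : Fin N → Fin 2 → ℤ) (β : Fin N → ℤ) (c : ℤ) (J : Fin 2 → Fin N) :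
    (HypRingQ (n := 1) α β c)ˣ :=
  if h : hypDet α J ≠ 0 then cstA α β c (Units.mk0 (hypDet α J : ℚ) (Int.cast_ne_zero.2 h)) else 1

lemma DA_val {J : Fin 2 → Fin N} (h : hypDet α J ≠ 0) :
    (DA α β c J : HypRingQ (n := 1) α β c) = hypDet α J := by
  unfold DA
  rw [dif_pos h, cstA_val, Units.val_mk0]
  have h3 : (MvPolynomial.C ((hypDet α J : ℤ) : ℚ) : MvPolynomial (Fin 2) ℚ) =
      (hypDet α J : MvPolynomial (Fin 2) ℚ) := map_intCast _ _
  rw [h3, map_intCast]

/-- the map from the integral ring -/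
lemma exists_iota : ∃ ι : HypRing (n := 1) α β c →+* HypRingQ (n := 1) α β c,
    ∀ i, ι (hypForm (n := 1) α β c i) = qmk α β c (lf α β i) := by
  have hform : ∀ i, ∑ m : Fin (1 + 1), (α i m : HypRingQ (n := 1) α β c) *
      qmk α β c (MvPolynomial.X m) + β i = qmk α β c (lf α β i) := by
    intro i
    unfold lf
    have hC : ∀ k : ℤ, qmk α β c (MvPolynomial.C (k : ℚ)) = k := by
      intro k
      have h3 : (MvPolynomial.C (k : ℚ) : MvPolynomial (Fin 2) ℚ) =
        (k : MvPolynomial (Fin 2) ℚ) := map_intCast _ _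
      rw [h3, map_intCast]
    simp only [map_add, map_mul, hC]
    congr 1
    exact Fin.sum_univ_two _
  obtain ⟨ι, hι⟩ := exists_hypHom (n := 1) (α := α) (β := β) (c := c)
    (fun m => qmk α β c (MvPolynomial.X m)) (by
      rw [Finset.prod_congr rfl fun i _ => hform i]
      exact crv_rel)
  exact ⟨ι, fun i => (hι i).trans (hform i)⟩

section field

variable {K : Type} [Field K] [Algebra (HypRingQ (n := 1) α β c) K]

/-- the determinants as units of the function field -/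
noncomputable def DK (α : Fin N → Fin 2 → ℤ) (β : Fin N → ℤ) (c : ℤ) (K : Type) [Field K]
    [Algebra (HypRingQ (n := 1) α β c) K] (J : Fin 2 → Fin N) : Kˣ :=
  Units.map (algebraMap (HypRingQ (n := 1) α β c) K : HypRingQ (n := 1) α β c →* K) (DA α β c J)

lemma DK_val {J : Fin 2 → Fin N} (h : hypDet α J ≠ 0) : (DK α β c K J : K) = hypDet α J := by
  change algebraMap (HypRingQ (n := 1) α β c) K (DA α β c J : HypRingQ (n := 1) α β c) = _
  rw [DA_val h, map_intCast]

/-- the classes of cycles are symbols of units of the curve -/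
lemma cyc_mem_range (z : hypCycles (n := 1) α) :
    cycleClass (n := 1) (LK α β c K) (DK α β c K) z ∈
      LinearMap.range (KMQ.map (algebraMap (HypRingQ (n := 1) α β c) K) 2) :=
  ⟨cycleClass (n := 1) (crvU α β c) (DA α β c) z,
    map_cycleClass (n := 1) (α := α) (algebraMap (HypRingQ (n := 1) α β c) K) (fun _ => rfl)
      (fun _ _ => rfl) z.2.2.1⟩

/-- the classes of cycles are integral -/
lemma cyc_mem_integral (hΔ : ∀ J : Fin 2 → Fin N, hypDet α J ≠ 0 → hypDet α J ∣ Δ)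
    (hΔc : Δ ^ (N + 1) ∣ c) (z : hypCycles (n := 1) α) :
    cycleClass (n := 1) (LK α β c K) (DK α β c K) z ∈ integralM K 2 := by
  obtain ⟨D, hD⟩ := exists_hypD (n := 1) (α := α) (β := β) hΔ hΔc
  obtain ⟨ι, hι⟩ := exists_iota (α := α) (β := β) (c := c)
  have hun := hyp_unramified (n := 1) (β := β) hΔ hΔc hD (z := z) z.2.2.1 z.2.2.2
  refine (Submodule.mem_iInf _).2 fun O => (Submodule.mem_iInf _).2 fun hO => ?_
  have h1 := hun K ((algebraMap (HypRingQ (n := 1) α β c) K).comp ι) O hO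
  have h2 : KMQ.map ((algebraMap (HypRingQ (n := 1) α β c) K).comp ι) 2
      (cycleClass (n := 1) (hypU (n := 1) α β c) D z) =
      cycleClass (n := 1) (LK α β c K) (DK α β c K) z := by
    refine map_cycleClass (n := 1) (α := α) _ ?_ ?_ z.2.2.1
    · intro i
      apply Units.ext
      change algebraMap (HypRingQ (n := 1) α β c) K (ι (hypForm (n := 1) α β c i)) =
        algebraMap (HypRingQ (n := 1) α β c) K (qmk α β c (lf α β i))
      rw [hι]
    · intro J hJ
      apply Units.ext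
      rw [DK_val hJ]
      change algebraMap (HypRingQ (n := 1) α β c) K (ι (D J : HypRing (n := 1) α β c)) = _
      rw [(hD J).1 hJ, map_intCast, map_intCast]
  rw [← h2]
  exact h1

end field

/-- **Regulators of the classes of cycles on the function field.** -/
theorem crv_regulators
    (hrk : ∀ i, ∃ j, hypDet α ![i, j] ≠ 0) (hN : 0 < N)
    (hgp : ∀ (J : Fin 2 → Fin N) k, hypDet α J ≠ 0 → (∀ m, J m ≠ k) → hypVal α β J k ≠ 0)
    (hΔ0 : Δ ≠ 0) (hΔ : ∀ J : Fin 2 → Fin N, hypDet α J ≠ 0 → hypDet α J ∣ Δ)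
    (hc : (400 * N ^ 3) ^ 2 * |Δ| ^ (N + 1) ≤ |c|)
    {K : Type} [Field K] [Algebra (HypRingQ (n := 1) α β c) K]
    [IsFractionRing (HypRingQ (n := 1) α β c) K] :
    ∃ R : {J : Fin 2 → Fin N // hypDet α J ≠ 0} → (KMQ K 2 →ₗ[ℚ] ℝ),
      (∀ J, IsTorusRegulator (n := 1) (R J)) ∧
      ∀ (r : ℕ) (z : Fin r → hypCycles (n := 1) α), LinearIndependent ℚ z →
        LinearIndependent ℝ fun a J =>
          R J (cycleClass (n := 1) (LK α β c K) (DK α β c K) (z a)) := by
  have hN1 : (1 : ℝ) ≤ N := by exact_mod_cast hN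
  set b : ℝ := 400 * (N : ℝ) ^ 3 with hb
  have hcR : b ^ (1 + 1) * |(Δ : ℝ)| ^ (N + 1) ≤ |(c : ℝ)| := by
    have h1 : (((400 * N ^ 3) ^ 2 * |Δ| ^ (N + 1) : ℤ) : ℝ) ≤ ((|c| : ℤ) : ℝ) :=
      Int.cast_le.2 hc
    push_cast at h1
    rw [hb]
    exact h1
  have hc0 : c ≠ 0 := by
    rintro rfl
    have h1 : (0 : ℝ) < b ^ (1 + 1) * |(Δ : ℝ)| ^ (N + 1) := by
      have h2 : (0 : ℝ) < |(Δ : ℝ)| := abs_pos.2 (Int.cast_ne_zero.2 hΔ0)
      positivity
    rw [Int.cast_zero, abs_zero] at hcR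
    linarith
  have hN3 : (N : ℝ) ≤ (N : ℝ) ^ 3 := by
    calc (N : ℝ) = (N : ℝ) ^ 1 := (pow_one _).symm
      _ ≤ (N : ℝ) ^ 3 := pow_le_pow_right₀ hN1 (by norm_num)
  have hgp' : ∀ (J : Fin 2 → Fin N) k, hypDet α J ≠ 0 → (¬ ∃ m, J m = k) →
      hypVal α β J k ≠ 0 := by
    intro J k hJ hk
    refine hgp J k hJ fun m hm => hk ⟨m, hm⟩
  have hb1 : Real.exp 1 ≤ b := by
    have h3 := Real.exp_one_lt_d9
    rw [hb]
    nlinarith
  have htor : ∀ I : {J : Fin 2 → Fin N // hypDet α J ≠ 0}, ∃ (γ : K →+* TorusRing 1)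
      (A : Fin N → ℝ) (u : Fin N → (Fin 1 → ℝ) → ℂ),
      (∀ i, Wnd ((γ (LK α β c K i : K) : TorusRing 1) : (Fin 1 → ℝ) → ℂ) (A i)
        (hypW (n := 1) (I : Fin 2 → Fin N) i) (u i)) ∧
      (∀ i θ, |Real.log ‖u i θ‖| ≤ 160 * N / b) ∧
      (∀ i θ (l : Fin 1), ‖fderiv ℝ (u i) θ (Pi.single l 1) / u i θ‖ ≤ 1) ∧
      ∀ (z : (Fin 2 → Fin N) → ℝ), Alt (n := 1) z →
        (∀ J m, ∑ k, z (Function.update J m k) = 0) →
        ∑ i, A i * ∑ j, z (Function.update (I : Fin 2 → Fin N) j i) =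
        - (z I * (Real.log |(c : ℝ)| - N * Real.log |(hypDet α (I : Fin 2 → Fin N) : ℝ)|) +
          ∑ k, Real.log |(hypVal α β (I : Fin 2 → Fin N) k : ℝ)| *
            dB (n := 1) z (fun _ => 1) I k) := by
    intro I
    obtain ⟨R, hR0, hRlog, key⟩ := exists_hypTorus' (n := 1) (α := α) (β := β)
      (I := (I : Fin 2 → Fin N)) I.2
      (fun k hk => hgp' I k I.2 hk) hΔ0 hΔ (b := b) (by
        rw [hb]
        push_cast
        nlinarith) hcR
    obtain ⟨r, hr1, hr2, hr⟩ := exists_transcendental (show R < 2 * R by linarith)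
    set ν : ℝ := r / R with hν
    have hν1 : 1 < ν := (one_lt_div hR0).2 hr1
    have hν2 : ν < 2 := by
      rw [hν, div_lt_iff₀ hR0]
      exact hr2
    set μ : Fin (1 + 1) → ℝ := ![ν⁻¹, ν] with hμ
    have hμ0 : ∀ m, 0 < μ m := by
      intro m
      fin_cases m
      · exact inv_pos.2 (by linarith)
      · exact (by linarith : (0 : ℝ) < ν)
    have hμ2 : ∀ m, μ m ≤ 2 := by
      intro m
      fin_cases m
      · exact (inv_le_one_of_one_le₀ hν1.le).trans (by norm_num)
      · exact hν2.le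
    have hμ1 : ∏ m, μ m = 1 := by
      rw [hμ]
      have := Fin.prod_univ_two (![ν⁻¹, ν] : Fin 2 → ℝ)
      refine this.trans ?_
      simp only [Matrix.cons_val_zero, Matrix.cons_val_one]
      exact inv_mul_cancel₀ (by linarith)
    obtain ⟨s, u, hrel, hW, hul, hud, hnorm⟩ := key μ hμ0 hμ2 hμ1
    have hsum : ∀ i, (∑ p : Fin (1 + 1), (α i p : TorusRing 1) * s p + (β i : TorusRing 1)) =
        (α i 0 : TorusRing 1) * s 0 + (α i 1 : TorusRing 1) * s 1 + (β i : TorusRing 1) := by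
      intro i
      congr 1
      exact Fin.sum_univ_two _
    obtain ⟨γ, hγ⟩ := exists_loopK hrk hgp hN hc0 (K := K) (s := s) (by
      rw [← hrel]
      congr 1
      exact Finset.prod_congr rfl fun i _ => (hsum i).symm)
      (i := (I : Fin 2 → Fin N) 1) (r := r) hr (by
      intro θ
      have h1 := hnorm 0 θ
      have h2 : (I : Fin 2 → Fin N) (Fin.succ 0) = (I : Fin 2 → Fin N) 1 := rfl
      rw [h2, hsum] at h1
      rw [h1]
      have h3 : μ (Fin.succ 0) = ν := rfl
      rw [h3, hν]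
      field_simp)
    have hγL : ∀ i, γ (LK α β c K i : K) =
        (∑ p : Fin (1 + 1), (α i p : TorusRing 1) * s p + (β i : TorusRing 1)) := by
      intro i
      rw [hsum]
      exact (hγ (lf α β i)).trans (evm_lf s i)
    refine ⟨γ, fun i => hypA α β I R i + hypM I μ i, u, ?_, ?_, hud, ?_⟩
    · intro i
      rw [hγL]
      exact hW i
    · intro i θ
      refine (hul i θ).trans (le_of_eq ?_)
      push_cast
      ring
    · intro z hz1 hz2
      exact main_at_vertex' (n := 1) hz1 hz2 I.2 (fun k hk => hgp' I k I.2 hk) hRlog hμ0 hμ1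
  choose γ A u h1 h2 h3 h4 using htor
  have hb0 : 0 < b := lt_of_lt_of_le (Real.exp_pos 1) hb1
  refine reg_indep (n := 1) (B := K) (b := b) (δ := 160 * N / b) (c := c) (Δ := Δ) (β := β)
    (LK α β c K) (DK α β c K) (fun J hJ => DK_val hJ) hgp' hΔ0 hΔ hb1 (by positivity) hcR ?_
    γ A u h1 h2 h3 (fun z hz1 hz2 I => h4 I z hz1 hz2)
  rw [hb]
  have h5 : (N : ℝ) ≠ 0 := by positivity
  have h6 : ((1 + 1).factorial : ℝ) * (160 * N / (400 * (N : ℝ) ^ 3) * 2 ^ 1) *
      (N : ℝ) ^ (1 + 1) = 8 / 5 := by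
    have h7 : ((1 + 1).factorial : ℝ) = 2 := by norm_num [Nat.factorial]
    rw [h7]
    field_simp
    ring
  rw [h6]
  norm_num [Nat.factorial]

end Pool.Agent.Helper11
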