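import Mathlib
import Pool.Agent.Helper11.CMain
import Pool.Agent.Helper11.CGen

/-! The main theorem on the symbols of units of a line arrangement curve. -/

namespace Pool.Agent.Helper11

variable {N : ℕ} {α : Fin N → Fin 2 → ℤ} {β : Fin N → ℤ} {c Δ : ℤ}

/-- the group is generated by symbols -/
lemma mem_span_symM {R : Type*} [CommRing R] {d : ℕ} (w : KMQ R d) :
    w ∈ Submodule.span ℚ (Set.range (symM : (Fin d → Rˣ) → KMQ R d)) := by
  obtain ⟨x, rfl⟩ := (milnorRel R d).mkQ_surjective w
  induction x using Finsupp.induction_linear with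
  | zero =>
    rw [map_zero]
    exact Submodule.zero_mem _
  | add x y hx hy =>
    rw [map_add]
    exact Submodule.add_mem _ hx hy
  | single f r =>
    have h1 : Finsupp.single f r = r • Finsupp.single f (1 : ℚ) := by
      rw [Finsupp.smul_single, smul_eq_mul, mul_one]
    have h2 : (milnorRel R d).mkQ (Finsupp.single f r) = r • (symM f : KMQ R d) := by
      rw [h1, map_smul]
      rfl
    rw [h2]
    exact Submodule.smul_mem _ _ (Submodule.subset_span ⟨f, rfl⟩)

/-- fields over the ring of the curve have characteristic zero -/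
lemma charZero_of_crv {K : Type*} [Field K] [Algebra (HypRingQ (n := 1) α β c) K] : CharZero K :=
  charZero_of_injective_ringHom (f := (algebraMap (HypRingQ (n := 1) α β c) K).comp
    ((qmk α β c).comp MvPolynomial.C)) (RingHom.injective _)

/-- constants -/
lemma map_cstA {K : Type*} [Field K] [CharZero K] [Algebra (HypRingQ (n := 1) α β c) K]
    (q : ℚˣ) : Units.map (algebraMap (HypRingQ (n := 1) α β c) K :
      HypRingQ (n := 1) α β c →* K) (cstA α β c q) = cst K q := by
  apply Units.ext
  have h : (algebraMap (HypRingQ (n := 1) α β c) K).comp ((qmk α β c).comp MvPolynomial.C) =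
      algebraMap ℚ K := RingHom.ext_rat _ _
  exact RingHom.congr_fun h q

/-- **The main theorem.** -/
theorem crv_main
    (hrk : ∀ i, ∃ j, hypDet α ![i, j] ≠ 0) (hN : 0 < N)
    (hgp : ∀ (J : Fin 2 → Fin N) k, hypDet α J ≠ 0 → (∀ m, J m ≠ k) → hypVal α β J k ≠ 0)
    (hΔ0 : Δ ≠ 0) (hΔ : ∀ J : Fin 2 → Fin N, hypDet α J ≠ 0 → hypDet α J ∣ Δ)
    (hΔc : Δ ^ (N + 1) ∣ c) (hc : (400 * N ^ 3) ^ 2 * |Δ| ^ (N + 1) ≤ |c|)
    {g : ℕ} (hg : g + N = Fintype.card (CEdge α) + 1)
    {K : Type} [Field K] [Algebra (HypRingQ (n := 1) α β c) K]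
    [IsFractionRing (HypRingQ (n := 1) α β c) K] :
    Module.rank ℚ ↥(LinearMap.range (KMQ.map (algebraMap (HypRingQ (n := 1) α β c) K) 2) ⊓
      integralM K 2) = g ∧
    ∃ R : {J : Fin 2 → Fin N // hypDet α J ≠ 0} → (KMQ K 2 →ₗ[ℚ] ℝ),
      (∀ J, IsTorusRegulator (n := 1) (R J)) ∧
      ∀ (r : ℕ) (z : Fin r → ↥(LinearMap.range
          (KMQ.map (algebraMap (HypRingQ (n := 1) α β c) K) 2) ⊓ integralM K 2)),
        LinearIndependent ℚ z → LinearIndependent ℝ fun a J => R J (z a) := by
  have hc0 : c ≠ 0 := by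
    rintro rfl
    have h1 : (0 : ℤ) < (400 * N ^ 3) ^ 2 * |Δ| ^ (N + 1) := by
      have h2 : (0 : ℤ) < |Δ| := abs_pos.2 hΔ0
      have h3 : (0 : ℤ) < N := by exact_mod_cast hN
      positivity
    rw [abs_zero] at hc
    omega
  have hchar : CharZero K := charZero_of_crv (α := α) (β := β) (c := c)
  set V := LinearMap.range (KMQ.map (algebraMap (HypRingQ (n := 1) α β c) K) 2) ⊓
    integralM K 2 with hV
  set cyc := cycMap (n := 1) α (LK α β c K) (DK α β c K) with hcyc
  obtain ⟨R, hR, hind⟩ := crv_regulators hrk hN hgp hΔ0 hΔ hc (K := K)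
  have hrange : LinearMap.range cyc = V := by
    apply le_antisymm
    · rintro _ ⟨z, rfl⟩
      exact ⟨cyc_mem_range z, cyc_mem_integral hΔ hΔc z⟩
    · rintro w ⟨⟨w', hw'⟩, hwi⟩
      -- the normal form
      let U : Subgroup Kˣ := (Units.map (algebraMap (HypRingQ (n := 1) α β c) K :
        HypRingQ (n := 1) α β c →* K)).range
      have hUspan : w ∈ Submodule.span ℚ {z | ∃ f : Fin 2 → Kˣ, (∀ i, f i ∈ U) ∧ z = symM f} := by
        rw [← hw']
        have h1 := mem_span_symM w'
        have h2 : Submodule.span ℚ (Set.range (symM : (Fin 2 → (HypRingQ (n := 1) α β c)ˣ) →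
            KMQ (HypRingQ (n := 1) α β c) 2)) ≤
            (Submodule.span ℚ {z | ∃ f : Fin 2 → Kˣ, (∀ i, f i ∈ U) ∧ z = symM f}).comap
              (KMQ.map (algebraMap (HypRingQ (n := 1) α β c) K) 2) := by
          rw [Submodule.span_le]
          rintro _ ⟨f, rfl⟩
          rw [SetLike.mem_coe, Submodule.mem_comap, KMQ.map_symM]
          exact Submodule.subset_span ⟨_, fun i => ⟨f i, rfl⟩, rfl⟩
        exact h2 h1
      obtain ⟨M, hM, z, hz, q, hMw⟩ := gen_normal_form hrk hN hc0 hgp
        (fun m => algebraMap (HypRingQ (n := 1) α β c) K (qmk α β c (MvPolynomial.X m)))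
        (LK α β c K) (by
          intro i
          change algebraMap (HypRingQ (n := 1) α β c) K (qmk α β c (lf α β i)) = _
          unfold lf
          have hC : ∀ k : ℤ, qmk α β c (MvPolynomial.C (k : ℚ)) = k := by
            intro k
            have h3 : (MvPolynomial.C (k : ℚ) : MvPolynomial (Fin 2) ℚ) =
              (k : MvPolynomial (Fin 2) ℚ) := map_intCast _ _
            rw [h3, map_intCast]
          simp only [map_add, map_mul, hC, map_intCast]) (by
          have h2 := congrArg (algebraMap (HypRingQ (n := 1) α β c) K)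
            (crv_rel (α := α) (β := β) (c := c))
          rw [map_mul, map_prod, map_one, map_intCast] at h2
          exact h2) (DK α β c K) (fun J hJ => DK_val hJ) U (by
          rintro _ ⟨f, rfl⟩
          obtain ⟨M, hM, q, e, he⟩ := units_of_curve hrk hgp hN hc0 f
          refine ⟨M, hM, q, e, ?_⟩
          rw [← map_pow, he, map_mul, map_prod, map_cstA]
          congr 1
          refine Finset.prod_congr rfl fun i _ => ?_
          rw [map_zpow]
          rfl) hUspan
      have hint : ∑ i, symM ![cst K (q i), LK α β c K i] ∈ integralM K 2 := by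
        have h1 : ∑ i, symM ![cst K (q i), LK α β c K i] =
            (M : ℚ) • w - cycleClass (n := 1) (LK α β c K) (DK α β c K) z := by
          rw [hMw]
          abel
        rw [h1]
        exact Submodule.sub_mem _ (Submodule.smul_mem _ _ hwi)
          (cyc_mem_integral hΔ hΔc ⟨z, hz⟩)
      rw [cst_part_zero hrk hgp hN hc0 q hint, add_zero] at hMw
      refine ⟨(M : ℚ)⁻¹ • ⟨z, hz⟩, ?_⟩
      rw [map_smul]
      have h2 : cyc ⟨z, hz⟩ = (M : ℚ) • w := hMw.symm
      rw [h2, smul_smul, inv_mul_cancel₀ (Nat.cast_ne_zero.2 hM), one_smul]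
  have hinj : Function.Injective cyc := by
    rw [← LinearMap.ker_eq_bot, LinearMap.ker_eq_bot']
    intro z hz
    by_contra hne
    have h1 : LinearIndependent ℚ (fun _ : Fin 1 => z) := by
      rw [linearIndependent_unique_iff]
      exact hne
    have h2 := hind 1 (fun _ => z) h1
    rw [linearIndependent_unique_iff] at h2
    apply h2
    funext J
    have h3 : cycleClass (n := 1) (LK α β c K) (DK α β c K) z = 0 := hz
    rw [h3, map_zero]
    rfl
  refine ⟨?_, R, hR, ?_⟩
  · rw [← hrange, rank_range_of_injective cyc hinj, ← Module.finrank_eq_rank]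
    have h1 := finrank_hypCycles hrk hN
    have h2 : Module.finrank ℚ (hypCycles (n := 1) α) = g := by omega
    rw [h2]
  · intro r z hz
    have hex : ∀ a, ∃ ζ : hypCycles (n := 1) α, cyc ζ = (z a : KMQ K 2) := by
      intro a
      have h1 : (z a : KMQ K 2) ∈ LinearMap.range cyc := by
        rw [hrange]
        exact (z a).2
      exact h1
    choose ζ hζ using hex
    have h1 : LinearIndependent ℚ ζ := by
      refine LinearIndependent.of_comp cyc ?_
      have h2 : cyc ∘ ζ = fun a => (z a : KMQ K 2) := funext hζ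
      rw [h2]
      exact hz.map' (Submodule.subtype _) (Submodule.ker_subtype _)
    have h2 := hind r ζ h1
    have h3 : (fun a J => R J (cycleClass (n := 1) (LK α β c K) (DK α β c K) (ζ a))) =
        fun a J => R J (z a) := by
      funext a J
      rw [← hζ a]
      rfl
    rwa [h3] at h2

end Pool.Agent.Helper11
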