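import Mathlib
import Pool.Agent.Helper11.Tame

/-! Integrality of the elements attached to flows on line arrangements. -/

namespace Pool.Agent.Helper11

variable {F : Type*} [Field F]

section local_part

variable {ι : Type*} {α β γ μ ν : ι → ℤ} {O : ValuationSubring F}
  {t₁ t₂ : F} {τ : Fˣ} {u : ι → Fˣ}

/-- the data at a place where the point goes to infinity -/
structure AtInf (α β γ μ ν : ι → ℤ) (O : ValuationSubring F) (t₁ t₂ : F) (τ : Fˣ)
    (u : ι → Fˣ) : Prop where
  bez : ∀ i, μ i * α i + ν i * β i = 1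
  h1 : O.valuation t₁ ≤ 1
  h2 : O.valuation t₂ ≤ 1
  h12 : t₁ = 1 ∨ t₂ = 1
  hτ : O.valuation ((τ : F)⁻¹) < 1
  hu : ∀ i, (u i : F) = α i * t₁ + β i * t₂ + γ i * (τ : F)⁻¹

/-- the coordinate along the direction of the `i`-th line -/
def lam (μ ν : ι → ℤ) (t₁ t₂ : F) (i : ι) : F := μ i * t₂ - ν i * t₁

namespace AtInf

variable (H : AtInf α β γ μ ν O t₁ t₂ τ u)
include H

lemma bezF (i : ι) : (μ i : F) * α i + ν i * β i = 1 := by
  have := congrArg (Int.cast : ℤ → F) (H.bez i)
  push_cast at this
  exact this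

lemma rel (i j : ι) : (u j : F) - ((α j * μ i + β j * ν i : ℤ) : F) * u i =
    ((α i * β j - α j * β i : ℤ) : F) * lam μ ν t₁ t₂ i +
      ((γ j - (α j * μ i + β j * ν i) * γ i : ℤ) : F) * (τ : F)⁻¹ := by
  have h := H.bezF i
  rw [H.hu i, H.hu j]
  unfold lam
  push_cast
  linear_combination (-(α j : F) * t₁ - β j * t₂) * h

lemma t_eq (i : ι) : t₁ = -(β i : F) * lam μ ν t₁ t₂ i +
      μ i * ((u i : F) - γ i * (τ : F)⁻¹) ∧
    t₂ = (α i : F) * lam μ ν t₁ t₂ i + ν i * ((u i : F) - γ i * (τ : F)⁻¹) := by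
  have h := H.bezF i
  rw [H.hu i]
  unfold lam
  constructor
  · linear_combination (-t₁) * h
  · linear_combination (-t₂) * h

lemma lam_le (i : ι) : O.valuation (lam μ ν t₁ t₂ i) ≤ 1 := by
  rw [O.valuation_le_one_iff]
  unfold lam
  exact O.sub_mem (O.mul_mem _ _ (int_mem O _) ((O.valuation_le_one_iff _).1 H.h2))
    (O.mul_mem _ _ (int_mem O _) ((O.valuation_le_one_iff _).1 H.h1))

lemma u_le (i : ι) : O.valuation (u i : F) ≤ 1 := by
  rw [O.valuation_le_one_iff, H.hu i]
  exact O.add_mem _ _ (O.add_mem _ _ (O.mul_mem _ _ (int_mem O _)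
    ((O.valuation_le_one_iff _).1 H.h1)) (O.mul_mem _ _ (int_mem O _)
    ((O.valuation_le_one_iff _).1 H.h2)))
    (O.mul_mem _ _ (int_mem O _) ((O.valuation_le_one_iff _).1 H.hτ.le))

omit H in
lemma int_mul_lt {n : ℤ} {z : F} (hz : O.valuation z < 1) : O.valuation ((n : F) * z) < 1 := by
  rw [map_mul, mul_comm]
  exact mul_lt_one_of_nonneg_of_lt_one_left zero_le hz (val_int_le O n)

omit H in
lemma mul_lt {n : F} {z : F} (hn : O.valuation n ≤ 1) (hz : O.valuation z < 1) :
    O.valuation (n * z) < 1 := by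
  rw [map_mul, mul_comm]
  exact mul_lt_one_of_nonneg_of_lt_one_left zero_le hz hn

omit H in
lemma add_lt {a b : F} (ha : O.valuation a < 1) (hb : O.valuation b < 1) :
    O.valuation (a + b) < 1 := (O.valuation.map_add a b).trans_lt (max_lt ha hb)

omit H in
lemma sub_lt {a b : F} (ha : O.valuation a < 1) (hb : O.valuation b < 1) :
    O.valuation (a - b) < 1 := (O.valuation.map_sub a b).trans_lt (max_lt ha hb)

lemma lam_eq_one {i : ι} (hi : O.valuation (u i : F) < 1) :
    O.valuation (lam μ ν t₁ t₂ i) = 1 := by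
  by_contra hne
  have hlt : O.valuation (lam μ ν t₁ t₂ i) < 1 := lt_of_le_of_ne (H.lam_le i) hne
  obtain ⟨e1, e2⟩ := H.t_eq i
  have h3 : O.valuation ((u i : F) - γ i * (τ : F)⁻¹) < 1 := sub_lt hi (int_mul_lt H.hτ)
  have h4 : O.valuation t₁ < 1 := by
    rw [e1]
    refine add_lt ?_ (int_mul_lt h3)
    have := int_mul_lt (O := O) (n := -β i) hlt
    push_cast at this
    exact this
  have h5 : O.valuation t₂ < 1 := by
    rw [e2]
    exact add_lt (int_mul_lt hlt) (int_mul_lt h3)
  rcases H.h12 with h | h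
  · rw [h, map_one] at h4
    exact lt_irrefl _ h4
  · rw [h, map_one] at h5
    exact lt_irrefl _ h5

/-- congruent directions: the multiplier is a unit -/
lemma e_unit {i j : ι} (h : O.valuation ((α i * β j - α j * β i : ℤ) : F) < 1) :
    O.valuation ((α j * μ i + β j * ν i : ℤ) : F) = 1 := by
  by_contra hne
  have hlt : O.valuation ((α j * μ i + β j * ν i : ℤ) : F) < 1 :=
    lt_of_le_of_ne (val_int_le O _) hne
  have hi := H.bezF i
  have hj := H.bezF j
  have e1 : (α j : F) = (α i : F) * ((α j * μ i + β j * ν i : ℤ) : F) -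
      ν i * ((α i * β j - α j * β i : ℤ) : F) := by
    push_cast
    linear_combination (-(α j : F)) * hi
  have e2 : (β j : F) = (β i : F) * ((α j * μ i + β j * ν i : ℤ) : F) +
      μ i * ((α i * β j - α j * β i : ℤ) : F) := by
    push_cast
    linear_combination (-(β j : F)) * hi
  have h1 : O.valuation (α j : F) < 1 := by
    rw [e1]
    exact sub_lt (int_mul_lt hlt) (int_mul_lt h)
  have h2 : O.valuation (β j : F) < 1 := by
    rw [e2]
    exact add_lt (int_mul_lt hlt) (int_mul_lt h)
  have h3 : O.valuation ((μ j : F) * α j + ν j * β j) < 1 := add_lt (int_mul_lt h1) (int_mul_lt h2)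
  rw [hj, map_one] at h3
  exact lt_irrefl _ h3

lemma e_torsion {i j : ι} (h : O.valuation ((α i * β j - α j * β i : ℤ) : F) < 1) :
    ∃ N : ℕ, N ≠ 0 ∧ O.valuation (((α j * μ i + β j * ν i : ℤ) : F) ^ N - 1) < 1 := by
  by_cases h0 : α i * β j - α j * β i = 0
  · refine ⟨2, by norm_num, ?_⟩
    have hi := H.bez i
    have hj := H.bez j
    have e1 : α j = α i * (α j * μ i + β j * ν i) := by
      linear_combination (-(α j : ℤ)) * hi - ν i * h0
    have e2 : β j = β i * (α j * μ i + β j * ν i) := by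
      linear_combination (-(β j : ℤ)) * hi + μ i * h0
    have e3 : (μ j * α i + ν j * β i) * (α j * μ i + β j * ν i) = 1 := by
      linear_combination hj - μ j * e1 - ν j * e2
    have e4 : (α j * μ i + β j * ν i) ^ 2 = 1 := by
      have := Int.isUnit_iff.1 (IsUnit.of_mul_eq_one_right _ e3)
      rcases this with h5 | h5 <;> rw [h5] <;> norm_num
    have e5 : ((α j * μ i + β j * ν i : ℤ) : F) ^ 2 = 1 := by
      rw [← Int.cast_pow, e4, Int.cast_one]
    rw [e5, sub_self, map_zero]
    exact zero_lt_one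
  · exact exists_pow_int O h0 h (H.e_unit h)

lemma exists_Lam [IsDiscreteValuationRing O] (k : Fˣ) : ∃ Λ : RQ O, ∀ i, O.valuation (u i : F) < 1 →
    ∀ l : Fˣ, (l : F) = lam μ ν t₁ t₂ i → cls O k l = Λ := by
  by_cases hex : ∃ i, O.valuation (u i : F) < 1
  · obtain ⟨i, hi⟩ := hex
    have hli := H.lam_eq_one hi
    have hli0 : lam μ ν t₁ t₂ i ≠ 0 := by
      intro h
      rw [h, map_zero] at hli
      exact zero_ne_one hli
    refine ⟨cls O k (Units.mk0 _ hli0), ?_⟩
    intro i' hi' l hl
    -- `λ_{i'} ≡ κ λ_i`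
    have hli' := H.lam_eq_one hi'
    have hbr : O.valuation ((α i' * β i - α i * β i' : ℤ) : F) < 1 := by
      have h1 := H.rel i' i
      have h2 : ((α i' * β i - α i * β i' : ℤ) : F) * lam μ ν t₁ t₂ i' =
          ((u i : F) - ((α i * μ i' + β i * ν i' : ℤ) : F) * u i') -
          ((γ i - (α i * μ i' + β i * ν i') * γ i' : ℤ) : F) * (τ : F)⁻¹ := by
        rw [h1]
        ring
      have h3 : O.valuation (((α i' * β i - α i * β i' : ℤ) : F) * lam μ ν t₁ t₂ i') < 1 := by
        rw [h2]
        exact sub_lt (sub_lt hi (int_mul_lt hi')) (int_mul_lt H.hτ)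
      rwa [map_mul, hli', mul_one] at h3
    have hκ := H.e_unit hbr
    obtain ⟨N, hN, hκN⟩ := H.e_torsion hbr
    set κ : F := ((α i * μ i' + β i * ν i' : ℤ) : F) with hκdef
    have hκ0 : κ ≠ 0 := by
      intro h
      rw [h, map_zero] at hκ
      exact zero_ne_one hκ
    have hcong : O.valuation ((l : F) - ((Units.mk0 κ hκ0 * Units.mk0 _ hli0 : Fˣ) : F)) <
        O.valuation (((Units.mk0 κ hκ0 * Units.mk0 _ hli0 : Fˣ) : F)) := by
      have e1 : O.valuation (((Units.mk0 κ hκ0 * Units.mk0 _ hli0 : Fˣ) : F)) = 1 := by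
        rw [Units.val_mul, Units.val_mk0, Units.val_mk0, map_mul, hκ, hli, one_mul]
      rw [e1, hl, Units.val_mul, Units.val_mk0, Units.val_mk0]
      have e2 : lam μ ν t₁ t₂ i' - κ * lam μ ν t₁ t₂ i =
          ((μ i' * ν i - ν i' * μ i : ℤ) : F) * ((u i : F) - γ i * (τ : F)⁻¹) := by
        obtain ⟨e3, e4⟩ := H.t_eq i
        have e5 : lam μ ν t₁ t₂ i' = μ i' * t₂ - ν i' * t₁ := rfl
        rw [e5]
        generalize lam μ ν t₁ t₂ i = L at *
        rw [hκdef]
        push_cast
        linear_combination (μ i' : F) * e4 - (ν i' : F) * e3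
      rw [e2]
      exact int_mul_lt (sub_lt hi (int_mul_lt H.hτ))
    rw [cls_congr hcong, cls_mul_right, cls_torsion hN (f := Units.mk0 κ hκ0) (by simpa using hκN),
      zero_add]
  · exact ⟨0, fun i hi => absurd ⟨i, hi⟩ hex⟩

variable [IsDiscreteValuationRing O] {p : Fˣ} {ord : Fˣ → ℤ} (Ho : IsOrd O p ord)
  {Λ : RQ O} (hΛ : ∀ i, O.valuation (u i : F) < 1 →
    ∀ l : Fˣ, (l : F) = lam μ ν t₁ t₂ i → cls O p l = Λ)
include Ho hΛ

/-- first case of the pair formula -/
lemma pair_aux {i j : ι} {d : Fˣ} (hd : (d : F) = ((α i * β j - α j * β i : ℤ) : F))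
    (hb : ord d < - ord τ) (hi : O.valuation (u i : F) < 1) :
    cls O (u i / d) (u j / d) = ((ord (u i) : ℚ) - ord (u j)) • Λ := by
  have hli := H.lam_eq_one hi
  have hli0 : lam μ ν t₁ t₂ i ≠ 0 := by
    intro h
    rw [h, map_zero] at hli
    exact zero_ne_one hli
  set l : Fˣ := Units.mk0 _ hli0 with hl
  have hlv : O.valuation (l : F) = 1 := by simpa [hl] using hli
  have hΛl : cls O p l = Λ := hΛ i hi l (by simp [hl])
  set A : ℤ := ord (u i / d) with hA
  set B : ℤ := ord (u j / d) with hB
  have hA' : A = ord (u i) - ord d := Ho.div _ _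
  have hB' : B = ord (u j) - ord d := Ho.div _ _
  have hai : 0 < ord (u i) := (Ho.lt_one_iff _).1 hi
  have hd0 : 0 ≤ ord d := by
    rw [← Ho.le_one_iff, hd]
    exact val_int_le O _
  set e : F := ((α j * μ i + β j * ν i : ℤ) : F) with he
  have heO : O.valuation e ≤ 1 := val_int_le O _
  -- the small term
  set ε : F := ((γ j - (α j * μ i + β j * ν i) * γ i : ℤ) : F) * ((d * τ : Fˣ) : F)⁻¹ with hε
  have hεv : O.valuation ε < 1 := by
    rw [hε]
    refine int_mul_lt ?_
    rw [← Units.val_inv_eq_inv_val, Ho.lt_one_iff, Ho.inv, Ho.mul]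
    omega
  have hrel : ((u j / d : Fˣ) : F) - e * ((u i / d : Fˣ) : F) = (l : F) + ε := by
    have h1 := H.rel i j
    have hdn : (d : F) ≠ 0 := d.ne_zero
    have hτn : (τ : F) ≠ 0 := τ.ne_zero
    have h2 : ((u j / d : Fˣ) : F) - e * ((u i / d : Fˣ) : F) =
        ((u j : F) - e * u i) / d := by
      rw [Units.val_div_eq_div_val, Units.val_div_eq_div_val]
      field_simp
    rw [h2, he, h1, ← hd, hε, hl, Units.val_mk0, Units.val_mul]
    field_simp
  have htarget : ((ord (u i) : ℚ) - ord (u j)) • Λ = ((A : ℚ) - B) • Λ := by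
    rw [hA', hB']
    push_cast
    congr 1
    ring
  rw [htarget, cls_eq Ho, ← hA, ← hB]
  have hUi : O.valuation ((u i / d : Fˣ) : F) ≤ 1 ↔ 0 ≤ A := Ho.le_one_iff _
  rcases lt_trichotomy A 0 with hA0 | hA0 | hA0
  · -- A < 0
    have hdlt : O.valuation (d : F) < 1 := by
      rw [Ho.lt_one_iff]
      omega
    rw [hd] at hdlt
    have he1 := H.e_unit hdlt
    obtain ⟨N, hN, heN⟩ := H.e_torsion hdlt
    have he0 : e ≠ 0 := by
      intro h
      rw [← he, h, map_zero] at he1
      exact zero_ne_one he1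
    have hgt : 1 < O.valuation ((u i / d : Fˣ) : F) := by
      by_contra hcon
      rw [not_lt, hUi] at hcon
      omega
    have hev : O.valuation ((Units.mk0 e he0 * (u i / d) : Fˣ) : F) =
        O.valuation ((u i / d : Fˣ) : F) := by
      rw [Units.val_mul, Units.val_mk0, map_mul, he, he1, one_mul]
    have hcong : O.valuation (((u j / d : Fˣ) : F) - ((Units.mk0 e he0 * (u i / d) : Fˣ) : F)) <
        O.valuation ((Units.mk0 e he0 * (u i / d) : Fˣ) : F) := by
      rw [hev]
      refine lt_of_le_of_lt ?_ hgt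
      rw [Units.val_mul, Units.val_mk0, hrel]
      exact (O.valuation.map_add _ _).trans (max_le hlv.le hεv.le)
    have h1 := cls_congr hcong (k := p)
    rw [cls_mul_right, cls_torsion hN (f := Units.mk0 e he0) (by rw [Units.val_mk0]; exact heN), zero_add] at h1
    have h2 : B = A := by
      rw [hB, hA, ← Ho.eq_iff, ← hev]
      exact Valuation.map_eq_of_sub_lt _ hcong
    rw [h1, h2]
    simp
  · -- A = 0
    have hdlt : O.valuation (d : F) < 1 := by
      rw [Ho.lt_one_iff]
      omega
    rw [hd] at hdlt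
    have he1 := H.e_unit hdlt
    obtain ⟨N, hN, heN⟩ := H.e_torsion hdlt
    have he0 : e ≠ 0 := by
      intro h
      rw [← he, h, map_zero] at he1
      exact zero_ne_one he1
    have hUi1 : O.valuation ((u i / d : Fˣ) : F) = 1 := (Ho.eq_one_iff _).2 hA0
    have hBle : O.valuation ((u j / d : Fˣ) : F) ≤ 1 := by
      have : ((u j / d : Fˣ) : F) = e * ((u i / d : Fˣ) : F) + ((l : F) + ε) := by
        rw [← hrel]
        ring
      rw [this]
      refine (O.valuation.map_add _ _).trans (max_le ?_ ?_)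
      · rw [map_mul, hUi1, mul_one]
        exact heO
      · exact (O.valuation.map_add _ _).trans (max_le hlv.le hεv.le)
    have hB0 : 0 ≤ B := (Ho.le_one_iff _).1 hBle
    rcases hB0.eq_or_lt with hB0 | hB0
    · rw [hA0, ← hB0]
      simp
    · have hBlt : O.valuation ((u j / d : Fˣ) : F) < 1 := (Ho.lt_one_iff _).2 hB0
      have hcong : O.valuation (((Units.mk0 e he0 * (u i / d) : Fˣ) : F) - ((-l : Fˣ) : F)) <
          O.valuation ((-l : Fˣ) : F) := by
        rw [Units.val_neg, Valuation.map_neg, hlv, Units.val_mul, Units.val_mk0, sub_neg_eq_add]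
        have : e * ((u i / d : Fˣ) : F) + l = ((u j / d : Fˣ) : F) - ε := by
          linear_combination -hrel
        rw [this]
        exact sub_lt hBlt hεv
      have h1 := cls_congr hcong (k := p)
      rw [cls_mul_right, cls_torsion hN (f := Units.mk0 e he0) (by rw [Units.val_mk0]; exact heN), zero_add,
        cls_neg_right, hΛl] at h1
      rw [h1, hA0]
      simp
  · -- A > 0
    have hlt : O.valuation ((u i / d : Fˣ) : F) < 1 := (Ho.lt_one_iff _).2 hA0
    have hcong : O.valuation (((u j / d : Fˣ) : F) - (l : F)) < O.valuation (l : F) := by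
      rw [hlv]
      have : ((u j / d : Fˣ) : F) - (l : F) = e * ((u i / d : Fˣ) : F) + ε := by
        linear_combination hrel
      rw [this]
      exact add_lt (mul_lt heO hlt) hεv
    have h1 := cls_congr hcong (k := p)
    have h2 : B = 0 := by
      rw [hB, ← Ho.eq_one_iff, ← hlv]
      exact Valuation.map_eq_of_sub_lt _ hcong
    rw [h1, h2, hΛl]
    simp

/-- the pair formula -/
lemma pair {i j : ι} {d : Fˣ} (hd : (d : F) = ((α i * β j - α j * β i : ℤ) : F))
    (hb : ord d < - ord τ) :
    cls O (u i / d) (u j / d) = ((ord (u i) : ℚ) - ord (u j)) • Λ := by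
  have hi0 : 0 ≤ ord (u i) := (Ho.le_one_iff _).1 (H.u_le i)
  have hj0 : 0 ≤ ord (u j) := (Ho.le_one_iff _).1 (H.u_le j)
  rcases hi0.eq_or_lt with hi | hi
  · rcases hj0.eq_or_lt with hj | hj
    · -- both are units
      have hd0 : 0 ≤ ord d := by
        rw [← Ho.le_one_iff, hd]
        exact val_int_le O _
      rw [← hi, ← hj, cls_eq Ho, Ho.div, Ho.div, ← hi, ← hj]
      have hgoal : cls O p (u j / d) - cls O p (u i / d) = cls O p (u j) - cls O p (u i) := by
        rw [cls_div_right, cls_div_right]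
        abel
      have h0 : (ord d : ℚ) • (cls O p (u j) - cls O p (u i)) = 0 := by
        rcases hd0.eq_or_lt with hd1 | hd1
        · rw [← hd1]
          simp
        · have hdlt : O.valuation (d : F) < 1 := (Ho.lt_one_iff _).2 hd1
          have hdlt' := hdlt
          rw [hd] at hdlt'
          have he1 := H.e_unit hdlt'
          obtain ⟨N, hN, heN⟩ := H.e_torsion hdlt'
          set e : F := ((α j * μ i + β j * ν i : ℤ) : F) with he
          have he0 : e ≠ 0 := by
            intro h
            rw [h, map_zero] at he1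
            exact zero_ne_one he1
          have hui : O.valuation (u i : F) = 1 := (Ho.eq_one_iff _).2 hi.symm
          have hcong : O.valuation ((u j : F) - ((Units.mk0 e he0 * u i : Fˣ) : F)) <
              O.valuation ((Units.mk0 e he0 * u i : Fˣ) : F) := by
            rw [Units.val_mul, Units.val_mk0, map_mul, he1, hui, one_mul, he, H.rel i j, ← hd]
            refine add_lt ?_ (int_mul_lt H.hτ)
            rw [mul_comm]
            exact mul_lt (H.lam_le i) hdlt
          have h1 := cls_congr hcong (k := p)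
          rw [cls_mul_right, cls_torsion hN (f := Units.mk0 e he0) (by rw [Units.val_mk0]; exact heN),
            zero_add] at h1
          rw [h1, sub_self, smul_zero]
      rw [← smul_sub, hgoal]
      push_cast
      rw [zero_sub, neg_smul, h0]
      simp
    · -- `j` goes to zero
      have hd' : ((-d : Fˣ) : F) = ((α j * β i - α i * β j : ℤ) : F) := by
        rw [Units.val_neg, hd]
        push_cast
        ring
      have hdo : ord (-d) = ord d := by
        rw [← Ho.eq_iff, Units.val_neg, Valuation.map_neg]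
      have h1 := H.pair_aux Ho hΛ hd' (by rw [hdo]; exact hb) ((Ho.lt_one_iff _).2 hj)
      have h2 : cls O (u j / -d) (u i / -d) = - cls O (u i / d) (u j / d) := by
        have e1 : u j / -d = -(u j / d) := by
          ext
          simp [div_neg]
        have e2 : u i / -d = -(u i / d) := by
          ext
          simp [div_neg]
        rw [e1, e2, cls_neg_right, cls_antisymm, cls_neg_right]
      rw [h2] at h1
      rw [← neg_neg (cls O (u i / d) (u j / d)), h1, ← neg_smul]
      congr 1
      ring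
  · exact H.pair_aux Ho hΛ hd hb ((Ho.lt_one_iff _).2 hi)

end AtInf

end local_part

end Pool.Agent.Helper11
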