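import Mathlib
import Pool.Agent.Helper11.ArrInt

/-! Integrality of the elements attached to flows on line arrangements: global statement. -/

namespace Pool.Agent.Helper11

variable {F : Type*} [Field F]

/-- a flow annihilates gradients -/
lemma flow_grad {V : Type*} [AddCommGroup V] [Module ℚ V] {N : ℕ} {n : Fin N → Fin N → ℚ}
    (hanti : ∀ i j, n i j = - n j i) (hrow : ∀ i, ∑ j, n i j = 0) (φ : Fin N → V) :
    ∑ i, ∑ j, n i j • (φ i - φ j) = 0 := by
  have h1 : ∑ i, ∑ j, n i j • φ i = 0 := by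
    refine Finset.sum_eq_zero fun i _ => ?_
    rw [← Finset.sum_smul, hrow, zero_smul]
  have h2 : ∑ i, ∑ j, n i j • φ j = 0 := by
    rw [Finset.sum_comm]
    refine Finset.sum_eq_zero fun j _ => ?_
    rw [← Finset.sum_smul]
    have h4 : ∑ i, n i j = -∑ i, n j i := by
      rw [← Finset.sum_neg_distrib]
      exact Finset.sum_congr rfl fun i _ => hanti i j
    rw [h4, hrow, neg_zero, zero_smul]
  simp only [smul_sub, Finset.sum_sub_distrib, h1, h2, sub_zero]

theorem arr_integral [CharZero F] {N : ℕ} (α β γ : Fin N → ℤ)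
    (hprim : ∀ i, IsCoprime (α i) (β i)) (c Δ : ℤ) (hc : c ≠ 0)
    (hΔ : ∀ i j, α i * β j - α j * β i ≠ 0 → (α i * β j - α j * β i) ∣ Δ)
    (hΔc : Δ ^ (N + 1) ∣ c) {x y : F} {U : Fin N → Fˣ}
    (hU : ∀ i, (U i : F) = α i * x + β i * y + γ i)
    (hprod : (c : F) * ∏ i, (U i : F) = 1) {D : Fin N → Fin N → Fˣ}
    (hD : ∀ i j, α i * β j - α j * β i ≠ 0 → (D i j : F) = ((α i * β j - α j * β i : ℤ) : F))
    {n : Fin N → Fin N → ℚ} (hanti : ∀ i j, n i j = - n j i) (hrow : ∀ i, ∑ j, n i j = 0)
    (hpar : ∀ i j, α i * β j - α j * β i = 0 → n i j = 0) :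
    ∑ i, ∑ j, n i j • sym (U i / D i j) (U j / D i j) ∈ integralPart F := by
  rw [mem_integralPart]
  intro O hO
  obtain ⟨p, ord, Ho⟩ := exists_ord O
  rw [← Submodule.Quotient.mk_eq_zero, ← Submodule.mkQ_apply]
  simp only [map_sum, map_smul]
  change ∑ i, ∑ j, n i j • cls O (U i / D i j) (U j / D i j) = 0
  -- it suffices to find a potential
  suffices hφ : ∃ φ : Fin N → RQ O, ∀ i j, α i * β j - α j * β i ≠ 0 →
      cls O (U i / D i j) (U j / D i j) = φ i - φ j by
    obtain ⟨φ, hφ⟩ := hφ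
    rw [← flow_grad hanti hrow φ]
    refine Finset.sum_congr rfl fun i _ => Finset.sum_congr rfl fun j _ => ?_
    by_cases hij : α i * β j - α j * β i = 0
    · rw [hpar i j hij]
      simp
    · rw [hφ i j hij]
  -- units attached to `c` and `Δ`
  have hcF : (c : F) ≠ 0 := Int.cast_ne_zero.2 hc
  have hΔ0 : Δ ≠ 0 := by
    rintro rfl
    rw [zero_pow (by omega), zero_dvd_iff] at hΔc
    exact hc hΔc
  have hΔF : (Δ : F) ≠ 0 := Int.cast_ne_zero.2 hΔ0
  set C : Fˣ := Units.mk0 _ hcF with hC
  set E : Fˣ := Units.mk0 _ hΔF with hE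
  have hprod' : C * ∏ i, U i = 1 := by
    ext
    rw [Units.val_mul, Units.coe_prod, hC, Units.val_mk0, hprod, Units.val_one]
  have hordC : ord C + ∑ i, ord (U i) = 0 := by
    rw [← Ho.prod, ← Ho.mul, hprod', Ho.one]
  have hE0 : 0 ≤ ord E := by
    rw [← Ho.le_one_iff]
    exact val_int_le O Δ
  have hEC : ((N : ℤ) + 1) * ord E ≤ ord C := by
    obtain ⟨q, hq⟩ := hΔc
    have hq0 : q ≠ 0 := by
      rintro rfl
      rw [mul_zero] at hq
      exact hc hq
    have hqF : (q : F) ≠ 0 := Int.cast_ne_zero.2 hq0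
    have e : C = E ^ (N + 1) * Units.mk0 _ hqF := by
      ext
      rw [Units.val_mul, Units.val_pow_eq_pow_val, hC, hE, Units.val_mk0, Units.val_mk0,
        Units.val_mk0, hq]
      push_cast
      ring
    have hq1 : 0 ≤ ord (Units.mk0 _ hqF) := by
      rw [← Ho.le_one_iff]
      exact val_int_le O q
    rw [e, Ho.mul, Ho.pow]
    push_cast
    omega
  have hDE : ∀ i j, α i * β j - α j * β i ≠ 0 → 0 ≤ ord (D i j) ∧ ord (D i j) ≤ ord E := by
    intro i j hij
    constructor
    · rw [← Ho.le_one_iff, hD i j hij]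
      exact val_int_le O _
    · obtain ⟨q, hq⟩ := hΔ i j hij
      rw [← Ho.le_iff, hE, Units.val_mk0, hq, Int.cast_mul, map_mul, hD i j hij]
      exact mul_le_of_le_one_right' (val_int_le O q)
  by_cases hxy : O.valuation x ≤ 1 ∧ O.valuation y ≤ 1
  · -- the point is finite
    refine ⟨fun _ => 0, fun i j hij => ?_⟩
    rw [sub_zero]
    have hUO : ∀ i, 0 ≤ ord (U i) := by
      intro i
      rw [← Ho.le_one_iff, O.valuation_le_one_iff, hU]
      exact O.add_mem _ _ (O.add_mem _ _ (O.mul_mem _ _ (int_mem O _)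
        ((O.valuation_le_one_iff _).1 hxy.1)) (O.mul_mem _ _ (int_mem O _)
        ((O.valuation_le_one_iff _).1 hxy.2))) (int_mem O _)
    have hC0 : 0 ≤ ord C := by
      rw [← Ho.le_one_iff]
      exact val_int_le O c
    have hs0 : 0 ≤ ∑ i, ord (U i) := Finset.sum_nonneg fun i _ => hUO i
    have hs : ∑ i, ord (U i) = 0 := by omega
    have hU0 : ∀ i, ord (U i) = 0 := fun i =>
      (Finset.sum_eq_zero_iff_of_nonneg fun i _ => hUO i).1 hs i (Finset.mem_univ i)
    have hC1 : ord C = 0 := by omega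
    have hE1 : ord E = 0 := by
      rw [hC1] at hEC
      by_contra hne
      have : 0 < ord E := lt_of_le_of_ne hE0 (Ne.symm hne)
      have h2 : 0 < ((N : ℤ) + 1) * ord E := by positivity
      omega
    have hD1 : ord (D i j) = 0 := by
      have := hDE i j hij
      omega
    refine cls_unit O ((Ho.eq_one_iff _).2 ?_) ((Ho.eq_one_iff _).2 ?_)
    · rw [Ho.div, hU0, hD1, sub_zero]
    · rw [Ho.div, hU0, hD1, sub_zero]
  · -- the point is at infinity
    obtain ⟨τ, t₁, t₂, hτ, hx, hy, h1, h2, h12⟩ : ∃ (τ : Fˣ) (t₁ t₂ : F),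
        O.valuation ((τ : F)⁻¹) < 1 ∧ x = τ * t₁ ∧ y = τ * t₂ ∧ O.valuation t₁ ≤ 1 ∧
        O.valuation t₂ ≤ 1 ∧ (t₁ = 1 ∨ t₂ = 1) := by
      rcases le_total (O.valuation x) (O.valuation y) with hle | hle
      · have hy1 : 1 < O.valuation y := by
          by_contra hcon
          rw [not_lt] at hcon
          exact hxy ⟨hle.trans hcon, hcon⟩
        have hy0 : y ≠ 0 := by
          rintro rfl
          rw [map_zero] at hy1
          exact absurd hy1 (not_lt.2 zero_le)
        refine ⟨Units.mk0 y hy0, x / y, 1, ?_, ?_, ?_, ?_, ?_, Or.inr rfl⟩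
        · rw [Units.val_mk0, map_inv₀]
          exact inv_lt_one_of_one_lt₀ hy1
        · rw [Units.val_mk0]
          field_simp
        · rw [Units.val_mk0, mul_one]
        · rw [map_div₀]
          exact div_le_one_of_le₀ hle zero_le
        · rw [map_one]
      · have hx1 : 1 < O.valuation x := by
          by_contra hcon
          rw [not_lt] at hcon
          exact hxy ⟨hcon, hle.trans hcon⟩
        have hx0 : x ≠ 0 := by
          rintro rfl
          rw [map_zero] at hx1
          exact absurd hx1 (not_lt.2 zero_le)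
        refine ⟨Units.mk0 x hx0, 1, y / x, ?_, ?_, ?_, ?_, ?_, Or.inl rfl⟩
        · rw [Units.val_mk0, map_inv₀]
          exact inv_lt_one_of_one_lt₀ hx1
        · rw [Units.val_mk0, mul_one]
        · rw [Units.val_mk0]
          field_simp
        · rw [map_one]
        · rw [map_div₀]
          exact div_le_one_of_le₀ hle zero_le
    have hbez : ∀ i, ∃ a b : ℤ, a * α i + b * β i = 1 := fun i => hprim i
    choose μ ν hμν using hbez
    have H : AtInf α β γ μ ν O t₁ t₂ τ (fun i => U i / τ) := by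
      refine ⟨hμν, h1, h2, h12, hτ, fun i => ?_⟩
      rw [Units.val_div_eq_div_val, hU, hx, hy]
      have := τ.ne_zero
      field_simp
    obtain ⟨Λ, hΛ⟩ := H.exists_Lam p
    have hτ0 : ord τ < 0 := by
      have h3 : O.valuation ((τ⁻¹ : Fˣ) : F) < 1 := by
        rw [Units.val_inv_eq_inv_val]
        exact hτ
      rw [Ho.lt_one_iff, Ho.inv] at h3
      omega
    have hUτ : ∀ i, ord τ ≤ ord (U i) := by
      intro i
      have h3 := (Ho.le_one_iff _).1 (H.u_le i)
      rw [Ho.div] at h3
      omega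
    have hsum : (N : ℤ) * ord τ ≤ ∑ i, ord (U i) := by
      have := Finset.sum_le_sum (s := (Finset.univ : Finset (Fin N))) fun i _ => hUτ i
      simpa using this
    have hEτ : ord E < - ord τ := by
      by_contra hcon
      rw [not_lt] at hcon
      have h3 : ((N : ℤ) + 1) * (-ord τ) ≤ ((N : ℤ) + 1) * ord E :=
        mul_le_mul_of_nonneg_left hcon (by positivity)
      nlinarith
    refine ⟨fun i => (ord (U i / τ) : ℚ) • Λ - cls O τ (U i / τ), fun i j hij => ?_⟩
    have hb : ord (D i j) < - ord τ := (hDE i j hij).2.trans_lt hEτ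
    have h3 := H.pair Ho hΛ (hD i j hij) hb
    have e1 : U i / D i j = τ * (U i / τ / D i j) := by
      rw [div_div, mul_div_assoc', mul_div_mul_left_eq_div]
    have e2 : U j / D i j = τ * (U j / τ / D i j) := by
      rw [div_div, mul_div_assoc', mul_div_mul_left_eq_div]
    rw [e1, e2, cls_mul_left, cls_mul_right, cls_mul_right, cls_self, h3,
      cls_antisymm O (U i / τ / D i j) τ, cls_div_right, cls_div_right O (U i / τ)]
    module

end Pool.Agent.Helper11
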