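import Mathlib
import Pool.Agent.Helper11.Loop

/-! Evaluation of the regulator functional on circles. -/

namespace Pool.Agent.Helper11

open Complex Real

variable {φ ψ h : ℝ → ℂ}

lemma IsLoop.exp (h1 : ContDiff ℝ 1 h) (h2 : Function.Periodic h (2 * Real.pi)) :
    IsLoop (fun t => Complex.exp (h t)) :=
  ⟨h1.cexp, fun t => by simp only [h2 t], fun t => Complex.exp_ne_zero _⟩

lemma regInt_const_left {c : ℂ} (hψ : IsLoop ψ) :
    regInt (fun _ => c) ψ =
      Real.log ‖c‖ * (∫ t in (0 : ℝ)..(2 * Real.pi), deriv ψ t / ψ t).im := by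
  unfold regInt
  have h1 : (∫ t in (0 : ℝ)..(2 * Real.pi), deriv ψ t / ψ t).im =
      ∫ t in (0 : ℝ)..(2 * Real.pi), (deriv ψ t / ψ t).im := by
    have := Complex.imCLM.intervalIntegral_comp_comm (μ := MeasureTheory.volume)
      (hψ.cont_dlog.intervalIntegrable 0 (2 * Real.pi))
    simpa using this.symm
  rw [h1, ← intervalIntegral.integral_const_mul]
  refine intervalIntegral.integral_congr fun t _ => ?_
  simp

lemma regInt_const_right {c : ℂ} (hφ : IsLoop φ) :
    regInt φ (fun _ => c) =
      - (Real.log ‖c‖ * (∫ t in (0 : ℝ)..(2 * Real.pi), deriv φ t / φ t).im) := by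
  rw [regInt_antisymm, regInt_const_left hφ]

lemma regInt_exp_right (hφ : IsLoop φ) (h1 : ContDiff ℝ 1 h)
    (h2 : Function.Periodic h (2 * Real.pi)) :
    regInt φ (fun t => Complex.exp (h t)) =
      - (∫ t in (0 : ℝ)..(2 * Real.pi), h t * (deriv φ t / φ t)).im := by
  have hc : Continuous (fun t => h t * (deriv φ t / φ t)) := h1.continuous.mul hφ.cont_dlog
  have e1 : (∫ t in (0 : ℝ)..(2 * Real.pi), h t * (deriv φ t / φ t)).im =
      ∫ t in (0 : ℝ)..(2 * Real.pi), (h t * (deriv φ t / φ t)).im := by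
    have := Complex.imCLM.intervalIntegral_comp_comm (μ := MeasureTheory.volume)
      (hc.intervalIntegrable 0 (2 * Real.pi))
    simpa using this.symm
  have hd : ∀ t, HasDerivAt h (deriv h t) t := fun t =>
    ((h1.differentiable (by norm_num)) t).hasDerivAt
  have hde : ∀ t, deriv (fun t => Complex.exp (h t)) t / Complex.exp (h t) = deriv h t := by
    intro t
    rw [(hd t).cexp.deriv]
    field_simp [Complex.exp_ne_zero]
  have key : ∀ t ∈ Set.uIcc (0 : ℝ) (2 * Real.pi),
      HasDerivAt (fun s => Real.log ‖φ s‖ * (h s).im)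
      ((deriv φ t / φ t).re * (h t).im + Real.log ‖φ t‖ * (deriv h t).im) t := by
    intro t _
    exact (hasDerivAt_log_norm (hφ.hasDeriv t) (hφ.ne t)).mul (hasDerivAt_im (hd t))
  have hcont : Continuous (fun t => (deriv φ t / φ t).re * (h t).im +
      Real.log ‖φ t‖ * (deriv h t).im) := by
    have a1 := hφ.cont_log
    have a2 := Complex.continuous_re.comp hφ.cont_dlog
    have a3 := Complex.continuous_im.comp h1.continuous
    have a4 := Complex.continuous_im.comp (h1.continuous_deriv (by norm_num))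
    exact (a2.mul a3).add (a1.mul a4)
  have hI := intervalIntegral.integral_eq_sub_of_hasDerivAt key (hcont.intervalIntegrable _ _)
  have hz : Real.log ‖φ (2 * Real.pi)‖ * (h (2 * Real.pi)).im - Real.log ‖φ 0‖ * (h 0).im = 0 := by
    have p1 := hφ.per 0
    have p2 := h2 0
    simp only [zero_add] at p1 p2
    rw [p1, p2, sub_self]
  rw [hz] at hI
  unfold regInt
  rw [e1, ← intervalIntegral.integral_neg]
  have e2 : ∫ t in (0 : ℝ)..(2 * Real.pi),
      (Real.log ‖φ t‖ * (deriv (fun t => Complex.exp (h t)) t / Complex.exp (h t)).im -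
        Real.log ‖Complex.exp (h t)‖ * (deriv φ t / φ t).im) =
      ∫ t in (0 : ℝ)..(2 * Real.pi), (((deriv φ t / φ t).re * (h t).im +
      Real.log ‖φ t‖ * (deriv h t).im) + (-(h t * (deriv φ t / φ t)).im)) := by
    refine intervalIntegral.integral_congr fun t _ => ?_
    rw [hde, Complex.norm_exp, Real.log_exp, Complex.mul_im]
    ring
  have hc2 : Continuous (fun t => -(h t * (deriv φ t / φ t)).im) :=
    (Complex.continuous_im.comp hc).neg
  rw [e2, intervalIntegral.integral_add (hcont.intervalIntegrable _ _)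
    (hc2.intervalIntegrable _ _), hI, zero_add]

/-- The loop `x - b`, `x = a + r e^{it}`. -/
noncomputable def cl (a : ℂ) (r : ℝ) (b : ℂ) : ℝ → ℂ := fun t => circleMap a r t - b

lemma cl_ne_of_lt {a b : ℂ} {r : ℝ} (hr : 0 < r) (h : r < ‖a - b‖) (t : ℝ) : cl a r b t ≠ 0 := by
  intro h0
  have h1 : circleMap a r t = b := sub_eq_zero.1 h0
  have h2 : ‖circleMap a r t - a‖ = r := by
    rw [circleMap_sub_center, norm_circleMap_zero, abs_of_pos hr]
  rw [h1, norm_sub_rev] at h2
  linarith

lemma isLoop_cl {a b : ℂ} {r : ℝ} (hne : ∀ t, cl a r b t ≠ 0) : IsLoop (cl a r b) :=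
  ⟨(contDiff_circleMap a r).sub contDiff_const, fun t => by
    unfold cl
    rw [periodic_circleMap a r t], hne⟩

lemma isLoop_cl_out {a b : ℂ} {r : ℝ} (hr : 0 < r) (h : r < ‖a - b‖) : IsLoop (cl a r b) :=
  isLoop_cl (cl_ne_of_lt hr h)

lemma isLoop_cl_center {a : ℂ} {r : ℝ} (hr : 0 < r) : IsLoop (cl a r a) :=
  isLoop_cl (fun t h0 => by
    have : ‖circleMap a r t - a‖ = r := by
      rw [circleMap_sub_center, norm_circleMap_zero, abs_of_pos hr]
    unfold cl at h0
    rw [h0, norm_zero] at this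
    linarith)

lemma deriv_cl (a b : ℂ) (r t : ℝ) : deriv (cl a r b) t = deriv (circleMap a r) t := by
  unfold cl
  rw [deriv_sub_const]

/-- circle integral as integral of a logarithmic derivative -/
lemma integral_dlog_cl (a b : ℂ) (r : ℝ) (g : ℂ → ℂ) :
    ∫ t in (0 : ℝ)..(2 * Real.pi), g (circleMap a r t) * (deriv (cl a r b) t / cl a r b t) =
      ∮ z in C(a, r), (z - b)⁻¹ • g z := by
  unfold circleIntegral
  refine intervalIntegral.integral_congr fun t _ => ?_
  simp only [deriv_cl, cl, smul_eq_mul]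
  ring

lemma integral_dlog_cl_center {a : ℂ} {r : ℝ} (hr : 0 < r) {g : ℂ → ℂ}
    (hg : DiffContOnCl ℂ g (Metric.ball a r)) :
    ∫ t in (0 : ℝ)..(2 * Real.pi), g (circleMap a r t) * (deriv (cl a r a) t / cl a r a t) =
      (2 * Real.pi * I) * g a := by
  rw [integral_dlog_cl, hg.circleIntegral_sub_inv_smul (Metric.mem_ball_self hr), smul_eq_mul]

lemma integral_dlog_cl_out {a b : ℂ} {r : ℝ} (hr : 0 < r) (h : r < ‖a - b‖) {g : ℂ → ℂ}
    (hg : DiffContOnCl ℂ g (Metric.ball a r)) :
    ∫ t in (0 : ℝ)..(2 * Real.pi), g (circleMap a r t) * (deriv (cl a r b) t / cl a r b t) =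
      0 := by
  rw [integral_dlog_cl]
  refine DiffContOnCl.circleIntegral_eq_zero hr.le ?_
  refine DiffContOnCl.smul ?_ hg
  have hd : DifferentiableOn ℂ (fun z : ℂ => (z - b)⁻¹) (Metric.closedBall a r) := by
    intro z hz
    have hzb : z - b ≠ 0 := by
      intro h0
      have : z = b := sub_eq_zero.1 h0
      rw [this, Metric.mem_closedBall, dist_eq_norm, norm_sub_rev] at hz
      linarith
    exact ((differentiableAt_id.sub_const b).inv hzb).differentiableWithinAt
  exact (hd.mono (Metric.closure_ball_subset_closedBall)).diffContOnCl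

/-- the function `log ((z - b) / (a - b))` -/
noncomputable def lg (a b : ℂ) : ℂ → ℂ := fun z => Complex.log ((z - b) / (a - b))

lemma mem_slit {a b : ℂ} {r : ℝ} (hr : 0 ≤ r) (h : r < ‖a - b‖) {z : ℂ}
    (hz : z ∈ Metric.closedBall a r) :
    (z - b) / (a - b) ∈ Complex.slitPlane := by
  have hab : a - b ≠ 0 := by
    intro h0
    rw [h0, norm_zero] at h
    linarith
  have e : (z - b) / (a - b) = 1 + (z - a) / (a - b) := by
    field_simp
    ring
  rw [e]
  apply Complex.mem_slitPlane_of_norm_lt_one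
  rw [norm_div, div_lt_one (norm_pos_iff.2 hab)]
  rw [Metric.mem_closedBall, dist_eq_norm] at hz
  linarith

lemma diffContOnCl_lg {a b : ℂ} {r : ℝ} (hr : 0 < r) (h : r < ‖a - b‖) :
    DiffContOnCl ℂ (lg a b) (Metric.ball a r) := by
  have hd : DifferentiableOn ℂ (lg a b) (Metric.closedBall a r) := by
    intro z hz
    refine DifferentiableAt.differentiableWithinAt ?_
    refine DifferentiableAt.clog ?_ (mem_slit hr.le h hz)
    exact (differentiableAt_id.sub_const b).div_const _
  exact (hd.mono (Metric.closure_ball_subset_closedBall)).diffContOnCl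

lemma lg_center {a b : ℂ} (hab : a ≠ b) : lg a b a = 0 := by
  unfold lg
  rw [div_self (sub_ne_zero.2 hab), Complex.log_one]

lemma cl_eq_exp {a b : ℂ} {r : ℝ} (hr : 0 < r) (h : r < ‖a - b‖) :
    cl a r b = (fun _ => a - b) * (fun t => Complex.exp (lg a b (circleMap a r t))) := by
  have hab : a - b ≠ 0 := by
    intro h0
    rw [h0, norm_zero] at h
    linarith
  funext t
  have hne := cl_ne_of_lt hr h t
  simp only [Pi.mul_apply, lg]
  rw [Complex.exp_log]
  · unfold cl
    field_simp
  · exact div_ne_zero hne hab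

lemma contDiff_lg {a b : ℂ} {r : ℝ} (hr : 0 < r) (h : r < ‖a - b‖) :
    ContDiff ℝ 1 (fun t => lg a b (circleMap a r t)) := by
  rw [contDiff_iff_contDiffAt]
  intro t
  have h1 : ContDiffAt ℝ 1 (fun t => (circleMap a r t - b) / (a - b)) t :=
    (((contDiff_circleMap a r).sub contDiff_const).div_const _).contDiffAt
  refine (ContDiffAt.comp t ?_ h1)
  refine (Complex.contDiffAt_log ?_).restrict_scalars ℝ
  exact mem_slit hr.le h (circleMap_mem_closedBall a hr.le t)

lemma periodic_lg (a b : ℂ) (r : ℝ) :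
    Function.Periodic (fun t => lg a b (circleMap a r t)) (2 * Real.pi) := fun t => by
  simp only [periodic_circleMap a r t]

/-- The basic formula: regulator of `{φ, x - b}`. -/
lemma regInt_cl_out {a b : ℂ} {r : ℝ} (hr : 0 < r) (h : r < ‖a - b‖) (hφ : IsLoop φ) :
    regInt φ (cl a r b) = -(Real.log ‖a - b‖ *
      (∫ t in (0 : ℝ)..(2 * Real.pi), deriv φ t / φ t).im) -
      (∫ t in (0 : ℝ)..(2 * Real.pi), lg a b (circleMap a r t) * (deriv φ t / φ t)).im := by
  have hab : a - b ≠ 0 := by
    intro h0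
    rw [h0, norm_zero] at h
    linarith
  rw [cl_eq_exp hr h, regInt_mul_right (IsLoop.const hab)
    (IsLoop.exp (contDiff_lg hr h) (periodic_lg a b r)) hφ, regInt_const_right hφ,
    regInt_exp_right hφ (contDiff_lg hr h) (periodic_lg a b r)]
  ring

lemma integral_dlog_one_out {a b : ℂ} {r : ℝ} (hr : 0 < r) (h : r < ‖a - b‖) :
    ∫ t in (0 : ℝ)..(2 * Real.pi), (deriv (cl a r b) t / cl a r b t) = 0 := by
  have := integral_dlog_cl_out hr h (g := fun _ => 1) diffContOnCl_const
  simpa using this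

lemma integral_dlog_one_center {a : ℂ} {r : ℝ} (hr : 0 < r) :
    ∫ t in (0 : ℝ)..(2 * Real.pi), (deriv (cl a r a) t / cl a r a t) = 2 * Real.pi * I := by
  have := integral_dlog_cl_center hr (g := fun _ => 1) (a := a) diffContOnCl_const
  simpa using this

lemma regInt_out_out {a b b' : ℂ} {r : ℝ} (hr : 0 < r) (h : r < ‖a - b‖) (h' : r < ‖a - b'‖) :
    regInt (cl a r b) (cl a r b') = 0 := by
  rw [regInt_cl_out hr h' (isLoop_cl_out hr h), integral_dlog_one_out hr h,
    integral_dlog_cl_out hr h (diffContOnCl_lg hr h')]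
  simp

lemma regInt_center_out {a b : ℂ} {r : ℝ} (hr : 0 < r) (h : r < ‖a - b‖) :
    regInt (cl a r a) (cl a r b) = -(2 * Real.pi * Real.log ‖a - b‖) := by
  have hab : a ≠ b := by
    intro h0
    rw [h0, sub_self, norm_zero] at h
    linarith
  rw [regInt_cl_out hr h (isLoop_cl_center hr), integral_dlog_one_center hr,
    integral_dlog_cl_center hr (diffContOnCl_lg hr h), lg_center hab]
  simp
  ring

/-- bound for the exponential term -/
lemma abs_regInt_exp_le {a b : ℂ} {r B : ℝ} (hr : 0 < r) (h : r < ‖a - b‖) {h' : ℝ → ℂ}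
    (h1 : ContDiff ℝ 1 h') (h2 : Function.Periodic h' (2 * Real.pi)) (hB : ∀ t, ‖h' t‖ ≤ B) :
    |regInt (cl a r b) (fun t => Complex.exp (h' t))| ≤
      2 * Real.pi * (B * (r / (‖a - b‖ - r))) := by
  rw [regInt_exp_right (isLoop_cl_out hr h) h1 h2, abs_neg]
  refine (Complex.abs_im_le_norm _).trans ?_
  have hpos : 0 < ‖a - b‖ - r := by linarith
  have := intervalIntegral.norm_integral_le_of_norm_le_const (a := 0) (b := 2 * Real.pi)
    (f := fun t => h' t * (deriv (cl a r b) t / cl a r b t)) (C := B * (r / (‖a - b‖ - r))) ?_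
  · refine this.trans (le_of_eq ?_)
    rw [sub_zero, abs_of_pos Real.two_pi_pos]
    ring
  · intro t _
    rw [norm_mul, norm_div]
    have hd : ‖deriv (cl a r b) t‖ = r := by
      rw [deriv_cl, deriv_circleMap, norm_mul, norm_circleMap_zero, Complex.norm_I, mul_one,
        abs_of_pos hr]
    have hc : ‖a - b‖ - r ≤ ‖cl a r b t‖ := by
      have e : cl a r b t = (a - b) - (a - circleMap a r t) := by
        unfold cl
        ring
      have e2 : ‖a - circleMap a r t‖ = r := by
        rw [norm_sub_rev, circleMap_sub_center, norm_circleMap_zero, abs_of_pos hr]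
      rw [e]
      have := norm_sub_norm_le (a - b) (a - circleMap a r t)
      rw [e2] at this
      exact this
    rw [hd]
    have hB0 : 0 ≤ B := (norm_nonneg _).trans (hB 0)
    refine mul_le_mul (hB t) ?_ (by positivity) hB0
    exact div_le_div_of_nonneg_left hr.le hpos hc

end Pool.Agent.Helper11
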