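import Mathlib
import Pool.Agent.Helper11.Circle

/-! Loops around the nodes of a line arrangement, on the curve `c z w ∏ m_k(z, w) = 1`. -/

namespace Pool.Agent.Helper11

open Topology

section

variable {κ : Type*} (a b p : κ → ℂ)

/-- the `k`-th linear form -/
def mval (k : κ) (z w : ℂ) : ℂ := a k * z + b k * w + p k

/-- the product of the inverses of the linear forms -/
noncomputable def Hf (S : Finset κ) (z w : ℂ) : ℂ := ∏ k ∈ S, (mval a b p k z w)⁻¹

/-- smallness of the radius -/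
structure Small (S : Finset κ) (r : ℝ) : Prop where
  hr : 0 < r
  hp : ∀ k ∈ S, 1 ≤ ‖p k‖
  hab : ∀ k ∈ S, (‖a k‖ + ‖b k‖) * r ≤ 1 / 2

variable {a b p} {S : Finset κ} {r : ℝ}

lemma Small.mono (H : Small a b p S r) {T : Finset κ} (h : T ⊆ S) : Small a b p T r :=
  ⟨H.hr, fun k hk => H.hp k (h hk), fun k hk => H.hab k (h hk)⟩

lemma Small.dist_p (H : Small a b p S r) {k : κ} (hk : k ∈ S) {z w : ℂ} (hz : ‖z‖ ≤ r)
    (hw : ‖w‖ ≤ r) : ‖mval a b p k z w - p k‖ ≤ 1 / 2 := by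
  have e : mval a b p k z w - p k = a k * z + b k * w := by
    unfold mval
    ring
  rw [e]
  calc ‖a k * z + b k * w‖ ≤ ‖a k * z‖ + ‖b k * w‖ := norm_add_le _ _
    _ = ‖a k‖ * ‖z‖ + ‖b k‖ * ‖w‖ := by rw [norm_mul, norm_mul]
    _ ≤ ‖a k‖ * r + ‖b k‖ * r := add_le_add (mul_le_mul_of_nonneg_left hz (norm_nonneg _))
        (mul_le_mul_of_nonneg_left hw (norm_nonneg _))
    _ = (‖a k‖ + ‖b k‖) * r := by ring
    _ ≤ 1 / 2 := H.hab k hk

lemma Small.ge_half (H : Small a b p S r) {k : κ} (hk : k ∈ S) {z w : ℂ} (hz : ‖z‖ ≤ r)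
    (hw : ‖w‖ ≤ r) : 1 / 2 ≤ ‖mval a b p k z w‖ := by
  have h1 := H.dist_p hk hz hw
  have h2 := H.hp k hk
  have h3 := norm_sub_norm_le (p k) (mval a b p k z w)
  rw [norm_sub_rev] at h3
  linarith

lemma Small.ne_zero (H : Small a b p S r) {k : κ} (hk : k ∈ S) {z w : ℂ} (hz : ‖z‖ ≤ r)
    (hw : ‖w‖ ≤ r) : mval a b p k z w ≠ 0 := by
  have := H.ge_half hk hz hw
  intro h
  rw [h, norm_zero] at this
  norm_num at this

lemma Small.inv_le (H : Small a b p S r) {k : κ} (hk : k ∈ S) {z w : ℂ} (hz : ‖z‖ ≤ r)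
    (hw : ‖w‖ ≤ r) : ‖(mval a b p k z w)⁻¹‖ ≤ 2 := by
  rw [norm_inv]
  have := H.ge_half hk hz hw
  calc ‖mval a b p k z w‖⁻¹ ≤ (1 / 2)⁻¹ := inv_anti₀ (by norm_num) this
    _ = 2 := by norm_num

lemma Small.inv_lip (H : Small a b p S r) {k : κ} (hk : k ∈ S) {z w z' w' : ℂ} (hz : ‖z‖ ≤ r)
    (hw : ‖w‖ ≤ r) (hz' : ‖z'‖ ≤ r) (hw' : ‖w'‖ ≤ r) :
    ‖(mval a b p k z w)⁻¹ - (mval a b p k z' w')⁻¹‖ ≤ 2 / r * (‖z - z'‖ + ‖w - w'‖) := by
  have h1 := H.ne_zero hk hz hw
  have h2 := H.ne_zero hk hz' hw'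
  have hr := H.hr
  have e : (mval a b p k z w)⁻¹ - (mval a b p k z' w')⁻¹ =
      (mval a b p k z w)⁻¹ * (mval a b p k z' w')⁻¹ * (-(a k * (z - z') + b k * (w - w'))) := by
    field_simp
    unfold mval
    ring
  have hA : ‖a k‖ ≤ 1 / (2 * r) := by
    rw [le_div_iff₀ (by positivity)]
    have := H.hab k hk
    nlinarith [norm_nonneg (a k), norm_nonneg (b k)]
  have hB : ‖b k‖ ≤ 1 / (2 * r) := by
    rw [le_div_iff₀ (by positivity)]
    have := H.hab k hk
    nlinarith [norm_nonneg (a k), norm_nonneg (b k)]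
  rw [e, norm_mul, norm_mul, norm_neg]
  have h3 : ‖a k * (z - z') + b k * (w - w')‖ ≤ 1 / (2 * r) * (‖z - z'‖ + ‖w - w'‖) := by
    calc ‖a k * (z - z') + b k * (w - w')‖ ≤ ‖a k * (z - z')‖ + ‖b k * (w - w')‖ := norm_add_le _ _
      _ = ‖a k‖ * ‖z - z'‖ + ‖b k‖ * ‖w - w'‖ := by rw [norm_mul, norm_mul]
      _ ≤ 1 / (2 * r) * ‖z - z'‖ + 1 / (2 * r) * ‖w - w'‖ :=
          add_le_add (mul_le_mul_of_nonneg_right hA (norm_nonneg _))
            (mul_le_mul_of_nonneg_right hB (norm_nonneg _))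
      _ = _ := by ring
  calc ‖(mval a b p k z w)⁻¹‖ * ‖(mval a b p k z' w')⁻¹‖ * ‖a k * (z - z') + b k * (w - w')‖
      ≤ 2 * 2 * (1 / (2 * r) * (‖z - z'‖ + ‖w - w'‖)) := by
        refine mul_le_mul (mul_le_mul (H.inv_le hk hz hw) (H.inv_le hk hz' hw')
          (norm_nonneg _) (by norm_num)) h3 (norm_nonneg _) (by norm_num)
    _ = _ := by
        field_simp

lemma Small.H_le (H : Small a b p S r) {z w : ℂ} (hz : ‖z‖ ≤ r) (hw : ‖w‖ ≤ r) :
    ‖Hf a b p S z w‖ ≤ 2 ^ S.card := by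
  unfold Hf
  rw [norm_prod]
  calc ∏ k ∈ S, ‖(mval a b p k z w)⁻¹‖ ≤ ∏ _k ∈ S, (2 : ℝ) :=
        Finset.prod_le_prod (fun _ _ => norm_nonneg _) fun k hk => H.inv_le hk hz hw
    _ = 2 ^ S.card := by rw [Finset.prod_const]

lemma Small.H_lip (H : Small a b p S r) {z w z' w' : ℂ} (hz : ‖z‖ ≤ r)
    (hw : ‖w‖ ≤ r) (hz' : ‖z'‖ ≤ r) (hw' : ‖w'‖ ≤ r) :
    ‖Hf a b p S z w - Hf a b p S z' w'‖ ≤
      S.card * 2 ^ S.card / r * (‖z - z'‖ + ‖w - w'‖) := by
  classical
  have hr := H.hr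
  induction S using Finset.induction_on with
  | empty => simp [Hf]
  | insert k s hks ih =>
    have Hs : Small a b p s r := H.mono (Finset.subset_insert _ _)
    have ih' := ih Hs
    have e : ∀ z w, Hf a b p (insert k s) z w = (mval a b p k z w)⁻¹ * Hf a b p s z w := by
      intro z w
      unfold Hf
      rw [Finset.prod_insert hks]
    have e2 : (mval a b p k z w)⁻¹ * Hf a b p s z w - (mval a b p k z' w')⁻¹ * Hf a b p s z' w' =
      ((mval a b p k z w)⁻¹ - (mval a b p k z' w')⁻¹) * Hf a b p s z w +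
        (mval a b p k z' w')⁻¹ * (Hf a b p s z w - Hf a b p s z' w') := by ring
    have hk : k ∈ insert k s := Finset.mem_insert_self _ _
    set D := ‖z - z'‖ + ‖w - w'‖ with hD
    have hD0 : 0 ≤ D := by positivity
    rw [e, e, e2, Finset.card_insert_of_notMem hks]
    calc ‖((mval a b p k z w)⁻¹ - (mval a b p k z' w')⁻¹) * Hf a b p s z w +
        (mval a b p k z' w')⁻¹ * (Hf a b p s z w - Hf a b p s z' w')‖
        ≤ ‖((mval a b p k z w)⁻¹ - (mval a b p k z' w')⁻¹)‖ * ‖Hf a b p s z w‖ +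
          ‖(mval a b p k z' w')⁻¹‖ * ‖Hf a b p s z w - Hf a b p s z' w'‖ := by
          refine (norm_add_le _ _).trans ?_
          rw [norm_mul, norm_mul]
      _ ≤ (2 / r * D) * 2 ^ s.card + 2 * (s.card * 2 ^ s.card / r * D) := by
          refine add_le_add (mul_le_mul (H.inv_lip hk hz hw hz' hw') (Hs.H_le hz hw)
            (norm_nonneg _) (by positivity)) (mul_le_mul (H.inv_le hk hz' hw') ih'
            (norm_nonneg _) (by norm_num))
      _ = _ := by
          push_cast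
          rw [pow_succ]
          field_simp
          ring

/-- The loop `w(t)` with `c z(t) w(t) ∏ m_k(z(t), w(t)) = 1`, `z(t) = r e^{it}`. -/
theorem exists_loop (H : Small a b p S r) {c : ℂ}
    (hc : ((S.card : ℝ) + 1) * 2 ^ (S.card + 2) ≤ ‖c‖ * r ^ 2) :
    ∃ w : ℝ → ℂ, ContDiff ℝ 1 w ∧ Function.Periodic w (2 * Real.pi) ∧ (∀ t, ‖w t‖ ≤ r) ∧
      (∀ t, ‖deriv w t‖ ≤ r) ∧
      ∀ t, c * circleMap 0 r t * w t * ∏ k ∈ S, mval a b p k (circleMap 0 r t) (w t) = 1 := by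
  have hr := H.hr
  set n : ℝ := (S.card : ℝ) with hn
  have hn0 : 0 ≤ n := Nat.cast_nonneg _
  have hc0 : 0 < ‖c‖ := by
    by_contra hcon
    have h0 : ‖c‖ = 0 := le_antisymm (not_lt.1 hcon) (norm_nonneg _)
    rw [h0, zero_mul] at hc
    have : 0 < (n + 1) * 2 ^ (S.card + 2) := by positivity
    linarith
  have hcne : c ≠ 0 := norm_pos_iff.1 hc0
  set z : ℝ → ℂ := circleMap 0 r with hz
  have hznorm : ∀ t, ‖z t‖ = r := by
    intro t
    rw [hz, norm_circleMap_zero, abs_of_pos hr]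
  have hzle : ∀ t, ‖z t‖ ≤ r := fun t => (hznorm t).le
  have hzne : ∀ t, z t ≠ 0 := fun t => by
    rw [← norm_pos_iff, hznorm]
    exact hr
  have hzlip : ∀ s t, ‖z s - z t‖ ≤ r * |s - t| := by
    intro s t
    have := (lipschitzWith_circleMap 0 r).dist_le_mul s t
    rw [dist_eq_norm, Real.dist_eq, Real.coe_nnabs, abs_of_pos hr] at this
    exact this
  -- the two basic smallness facts
  have hp2 : (0 : ℝ) < 2 ^ S.card := by positivity
  have hcr : 0 < ‖c‖ * r := by positivity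
  have s1 : (n + 1) * 2 ^ S.card / (‖c‖ * r) ≤ r / 4 := by
    rw [div_le_div_iff₀ hcr (by norm_num)]
    have e : (n + 1) * 2 ^ (S.card + 2) = (n + 1) * 2 ^ S.card * 4 := by
      rw [pow_add]
      ring
    rw [e] at hc
    nlinarith
  have s2 : 2 ^ S.card / (‖c‖ * r) ≤ r / 4 := by
    refine le_trans ?_ s1
    refine div_le_div_of_nonneg_right ?_ hcr.le
    nlinarith
  have s3 : n * 2 ^ S.card / r / (‖c‖ * r) ≤ 1 / 4 := by
    have h1 : n * 2 ^ S.card / (‖c‖ * r) ≤ r / 4 := by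
      refine le_trans ?_ s1
      refine div_le_div_of_nonneg_right ?_ hcr.le
      nlinarith
    calc n * 2 ^ S.card / r / (‖c‖ * r) = n * 2 ^ S.card / (‖c‖ * r) / r := by
          rw [div_right_comm]
      _ ≤ r / 4 / r := div_le_div_of_nonneg_right h1 hr.le
      _ = 1 / 4 := by
          field_simp
  -- the map
  set Φ : ℝ → ℂ → ℂ := fun t w => (c * z t)⁻¹ * Hf a b p S (z t) w with hΦ
  have hczn : ∀ t, ‖(c * z t)⁻¹‖ = (‖c‖ * r)⁻¹ := by
    intro t
    rw [norm_inv, norm_mul, hznorm]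
  have hmaps : ∀ t, Set.MapsTo (Φ t) (Metric.closedBall 0 r) (Metric.closedBall 0 r) := by
    intro t w hw
    rw [mem_closedBall_zero_iff] at hw ⊢
    simp only [hΦ]
    rw [norm_mul, hczn]
    calc (‖c‖ * r)⁻¹ * ‖Hf a b p S (z t) w‖ ≤ (‖c‖ * r)⁻¹ * 2 ^ S.card :=
          mul_le_mul_of_nonneg_left (H.H_le (hzle t) hw) (by positivity)
      _ = 2 ^ S.card / (‖c‖ * r) := by rw [div_eq_inv_mul]
      _ ≤ r / 4 := s2
      _ ≤ r := by linarith
  have hlip : ∀ t w w', ‖w‖ ≤ r → ‖w'‖ ≤ r → ‖Φ t w - Φ t w'‖ ≤ 1 / 4 * ‖w - w'‖ := by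
    intro t w w' hw hw'
    simp only [hΦ]
    rw [← mul_sub, norm_mul, hczn]
    have h1 := H.H_lip (hzle t) hw (hzle t) hw'
    rw [sub_self, norm_zero, zero_add] at h1
    calc (‖c‖ * r)⁻¹ * ‖Hf a b p S (z t) w - Hf a b p S (z t) w'‖
        ≤ (‖c‖ * r)⁻¹ * (n * 2 ^ S.card / r * ‖w - w'‖) :=
          mul_le_mul_of_nonneg_left h1 (by positivity)
      _ = n * 2 ^ S.card / r / (‖c‖ * r) * ‖w - w'‖ := by
          rw [div_eq_inv_mul (n * 2 ^ S.card / r)]
          ring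
      _ ≤ 1 / 4 * ‖w - w'‖ := mul_le_mul_of_nonneg_right s3 (norm_nonneg _)
  -- fixed points
  have hfix : ∀ t, ∃ w, ‖w‖ ≤ r ∧ Φ t w = w := by
    intro t
    have hcomplete : IsComplete (Metric.closedBall (0 : ℂ) r) := Metric.isClosed_closedBall.isComplete
    have hcontr : ContractingWith (1 / 4 : NNReal) ((hmaps t).restrict (Φ t) _ _) := by
      refine ⟨by
        rw [← NNReal.coe_lt_coe]
        norm_num, LipschitzWith.of_dist_le_mul ?_⟩
      rintro ⟨w, hw⟩ ⟨w', hw'⟩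
      rw [mem_closedBall_zero_iff] at hw hw'
      rw [Subtype.dist_eq, Subtype.dist_eq, dist_eq_norm, dist_eq_norm]
      simpa using hlip t w w' hw hw'
    obtain ⟨w, hw, hw2, -⟩ := ContractingWith.exists_fixedPoint' hcomplete (hmaps t) hcontr
      (Metric.mem_closedBall_self hr.le) (edist_ne_top _ _)
    exact ⟨w, by rwa [mem_closedBall_zero_iff] at hw, hw2⟩
  choose w hw1 hw2 using hfix
  have huniq : ∀ t v, ‖v‖ ≤ r → Φ t v = v → v = w t := by
    intro t v hv hv2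
    have h1 := hlip t v (w t) hv (hw1 t)
    rw [hv2, hw2] at h1
    have h2 : ‖v - w t‖ = 0 := by
      have := norm_nonneg (v - w t)
      linarith
    exact sub_eq_zero.1 (norm_eq_zero.1 h2)
  have hper : Function.Periodic w (2 * Real.pi) := by
    intro t
    refine huniq t _ (hw1 _) ?_
    have h1 := hw2 (t + 2 * Real.pi)
    simp only [hΦ] at h1 ⊢
    rw [hz] at h1 ⊢
    rwa [periodic_circleMap] at h1
  -- Lipschitz estimate
  have hLip : ∀ s t, ‖w s - w t‖ ≤ r * |s - t| := by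
    intro s t
    have h1 : w s - w t = ((c * z s)⁻¹ - (c * z t)⁻¹) * Hf a b p S (z s) (w s) +
        (c * z t)⁻¹ * (Hf a b p S (z s) (w s) - Hf a b p S (z t) (w t)) := by
      have e1 := hw2 s
      have e2 := hw2 t
      simp only [hΦ] at e1 e2
      linear_combination e2 - e1
    have h2 : ‖(c * z s)⁻¹ - (c * z t)⁻¹‖ ≤ (‖c‖ * r)⁻¹ * |s - t| := by
      have e : (c * z s)⁻¹ - (c * z t)⁻¹ = (c * z s)⁻¹ * (z t)⁻¹ * (z t - z s) := by
        have a1 := hzne s
        have a2 := hzne t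
        field_simp
      rw [e, norm_mul, norm_mul, hczn, norm_inv, hznorm, norm_sub_rev]
      calc (‖c‖ * r)⁻¹ * r⁻¹ * ‖z s - z t‖ ≤ (‖c‖ * r)⁻¹ * r⁻¹ * (r * |s - t|) :=
            mul_le_mul_of_nonneg_left (hzlip s t) (by positivity)
        _ = _ := by
            field_simp
    have h3 := H.H_lip (hzle s) (hw1 s) (hzle t) (hw1 t)
    have h4 : ‖w s - w t‖ ≤ (‖c‖ * r)⁻¹ * |s - t| * 2 ^ S.card +
        (‖c‖ * r)⁻¹ * (n * 2 ^ S.card / r * (r * |s - t| + ‖w s - w t‖)) := by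
      conv_lhs => rw [h1]
      refine (norm_add_le _ _).trans (add_le_add ?_ ?_)
      · rw [norm_mul]
        exact mul_le_mul h2 (H.H_le (hzle s) (hw1 s)) (norm_nonneg _) (by positivity)
      · rw [norm_mul, hczn]
        refine mul_le_mul_of_nonneg_left (h3.trans ?_) (by positivity)
        refine mul_le_mul_of_nonneg_left ?_ (by positivity)
        linarith [hzlip s t]
    have h5 : (‖c‖ * r)⁻¹ * |s - t| * 2 ^ S.card +
        (‖c‖ * r)⁻¹ * (n * 2 ^ S.card / r * (r * |s - t| + ‖w s - w t‖)) =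
        (n + 1) * 2 ^ S.card / (‖c‖ * r) * |s - t| +
        n * 2 ^ S.card / r / (‖c‖ * r) * ‖w s - w t‖ := by
      field_simp
      ring
    rw [h5] at h4
    have h6 : (n + 1) * 2 ^ S.card / (‖c‖ * r) * |s - t| ≤ r / 4 * |s - t| :=
      mul_le_mul_of_nonneg_right s1 (abs_nonneg _)
    have h7 : n * 2 ^ S.card / r / (‖c‖ * r) * ‖w s - w t‖ ≤ 1 / 4 * ‖w s - w t‖ :=
      mul_le_mul_of_nonneg_right s3 (norm_nonneg _)
    have h8 : 0 ≤ r * |s - t| := by positivity
    nlinarith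
  have hcont : Continuous w := by
    have : LipschitzWith (Real.toNNReal r) w := by
      refine LipschitzWith.of_dist_le_mul fun s t => ?_
      rw [dist_eq_norm, Real.dist_eq, Real.coe_toNNReal _ hr.le]
      exact hLip s t
    exact this.continuous
  -- smoothness
  have hsmooth : ContDiff ℝ 1 w := by
    rw [contDiff_iff_contDiffAt]
    intro t
    set f : ℝ × ℂ → ℂ := fun v => v.2 - (c * z v.1)⁻¹ * Hf a b p S (z v.1) v.2 with hf
    have hzc : ContDiff ℝ 1 z := contDiff_circleMap 0 r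
    have cdf : ContDiffAt ℝ 1 f (t, w t) := by
      have h1 : ContDiffAt ℝ 1 (fun v : ℝ × ℂ => z v.1) (t, w t) :=
        (hzc.comp contDiff_fst).contDiffAt
      have h2 : ContDiffAt ℝ 1 (fun v : ℝ × ℂ => (c * z v.1)⁻¹) (t, w t) :=
        (contDiffAt_const.mul h1).inv (mul_ne_zero hcne (hzne t))
      have h3 : ContDiffAt ℝ 1 (fun v : ℝ × ℂ => Hf a b p S (z v.1) v.2) (t, w t) := by
        unfold Hf
        refine contDiffAt_prod fun k hk => ?_
        refine ContDiffAt.inv ?_ (H.ne_zero hk (hzle t) (hw1 t))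
        unfold mval
        exact ((contDiffAt_const.mul h1).add (contDiffAt_const.mul contDiffAt_snd)).add
          contDiffAt_const
      exact contDiffAt_snd.sub (h2.mul h3)
    have hderiv : HasFDerivAt f (fderiv ℝ f (t, w t)) (t, w t) :=
      (cdf.differentiableAt (by norm_num)).hasFDerivAt
    -- the partial derivative
    have hpart : HasFDerivAt (fun v : ℂ => f (t, v))
        (fderiv ℝ f (t, w t) ∘L ContinuousLinearMap.inr ℝ ℝ ℂ) (w t) := by
      have h1 : HasFDerivAt (fun v : ℂ => ((t, v) : ℝ × ℂ)) (ContinuousLinearMap.inr ℝ ℝ ℂ) (w t) :=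
        hasFDerivAt_prodMk_right t (w t)
      exact HasFDerivAt.comp (w t) hderiv h1
    have hPhi : HasFDerivAt (Φ t) (ContinuousLinearMap.id ℝ ℂ -
        fderiv ℝ f (t, w t) ∘L ContinuousLinearMap.inr ℝ ℝ ℂ) (w t) := by
      have h1 := (hasFDerivAt_id (𝕜 := ℝ) (w t)).sub hpart
      refine h1.congr_of_eventuallyEq (Filter.Eventually.of_forall fun v => ?_)
      simp [hf, hΦ]
    -- norm bound
    have hwlt : ‖w t‖ < r := by
      have h1 := hw2 t
      simp only [hΦ] at h1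
      rw [← h1, norm_mul, hczn]
      calc (‖c‖ * r)⁻¹ * ‖Hf a b p S (z t) (w t)‖ ≤ (‖c‖ * r)⁻¹ * 2 ^ S.card :=
            mul_le_mul_of_nonneg_left (H.H_le (hzle t) (hw1 t)) (by positivity)
        _ = 2 ^ S.card / (‖c‖ * r) := by rw [div_eq_inv_mul]
        _ ≤ r / 4 := s2
        _ < r := by linarith
    have hnorm : ‖ContinuousLinearMap.id ℝ ℂ -
        fderiv ℝ f (t, w t) ∘L ContinuousLinearMap.inr ℝ ℝ ℂ‖ ≤ 1 / 4 := by
      refine hPhi.le_of_lip' (by norm_num) ?_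
      have : ∀ᶠ v in 𝓝 (w t), ‖v‖ < r :=
        (continuous_norm.tendsto (w t)).eventually (gt_mem_nhds hwlt)
      filter_upwards [this] with v hv
      exact hlip t v (w t) hv.le (hw1 t)
    have if₂ : (fderiv ℝ f (t, w t) ∘L ContinuousLinearMap.inr ℝ ℝ ℂ).IsInvertible := by
      set A := fderiv ℝ f (t, w t) ∘L ContinuousLinearMap.inr ℝ ℝ ℂ with hA
      have h1 : IsUnit A := by
        have h2 := isUnit_one_sub_of_norm_lt_one (x := ContinuousLinearMap.id ℝ ℂ - A)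
          (hnorm.trans_lt (by norm_num))
        have h3 : (1 : ℂ →L[ℝ] ℂ) - (ContinuousLinearMap.id ℝ ℂ - A) = A := by
          ext1
          simp
        rwa [h3] at h2
      obtain ⟨u, hu⟩ := h1
      exact ⟨ContinuousLinearEquiv.ofUnit u, by rw [← hu]; rfl⟩
    have h1 := cdf.contDiffAt_implicitFunction (by norm_num) if₂
    refine h1.congr_of_eventuallyEq ?_
    have h2 := cdf.eventually_apply_eq_iff_implicitFunction (by norm_num) if₂
    have h3 : Filter.Tendsto (fun s => ((s, w s) : ℝ × ℂ)) (𝓝 t) (𝓝 (t, w t)) :=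
      (continuous_id.prodMk hcont).tendsto t
    have h4 := h3.eventually h2
    filter_upwards [h4] with s hs
    have hfs : ∀ s, f (s, w s) = 0 := by
      intro s
      have := hw2 s
      simp only [hΦ] at this
      simp only [hf]
      rw [this, sub_self]
    rw [hfs, hfs] at hs
    exact (hs.1 rfl).symm
  refine ⟨w, hsmooth, hper, hw1, ?_, ?_⟩
  · intro t
    refine norm_deriv_le_of_lip' hr.le (Filter.Eventually.of_forall fun s => ?_)
    rw [Real.norm_eq_abs]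
    exact hLip s t
  · intro t
    have h1 := hw2 t
    simp only [hΦ] at h1
    have h2 : ∏ k ∈ S, mval a b p k (z t) (w t) ≠ 0 := by
      rw [Finset.prod_ne_zero_iff]
      exact fun k hk => H.ne_zero hk (hzle t) (hw1 t)
    have h3 : Hf a b p S (z t) (w t) = (∏ k ∈ S, mval a b p k (z t) (w t))⁻¹ := by
      unfold Hf
      rw [Finset.prod_inv_distrib]
    rw [h3] at h1
    have h4 := hzne t
    generalize ∏ k ∈ S, mval a b p k (z t) (w t) = Q at *
    rw [← h1]
    field_simp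

end

end Pool.Agent.Helper11
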