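import Mathlib
import Pool.Agent.Helper11.Circle

/-! The branch `w = F/2 (1 + sqrt (1 - 4/F^2))` of `w + 1/w = F` along a loop with `|F| > 2`. -/

namespace Pool.Agent.Helper11

open Complex Real

/-- principal square root -/
noncomputable def csq (z : ℂ) : ℂ := Complex.exp (Complex.log z / 2)

lemma csq_sq {z : ℂ} (hz : z ≠ 0) : csq z * csq z = z := by
  unfold csq
  rw [← Complex.exp_add, add_halves, Complex.exp_log hz]

lemma csq_re_pos {z : ℂ} (hz : z ∈ Complex.slitPlane) : 0 < (csq z).re := by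
  unfold csq
  rw [Complex.exp_re]
  refine mul_pos (Real.exp_pos _) ?_
  have h1 : (Complex.log z / 2).im = Complex.arg z / 2 := by
    simp [Complex.log_im]
  rw [h1]
  have h2 := Complex.neg_pi_lt_arg z
  have h3 := Complex.arg_le_pi z
  have h4 : Complex.arg z ≠ Real.pi := Complex.slitPlane_arg_ne_pi hz
  have h5 : Complex.arg z < Real.pi := lt_of_le_of_ne h3 h4
  exact Real.cos_pos_of_mem_Ioo ⟨by linarith, by linarith⟩

/-- the branch -/
noncomputable def wbr (F : ℝ → ℂ) : ℝ → ℂ := fun t => F t / 2 * (1 + csq (1 - 4 / (F t) ^ 2))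

section

variable {F : ℝ → ℂ} (h1 : ContDiff ℝ 1 F) (h2 : Function.Periodic F (2 * Real.pi))
  (h3 : ∀ t, 2 < ‖F t‖)

include h3

lemma F_ne (t : ℝ) : F t ≠ 0 := by
  intro h
  have := h3 t
  rw [h, norm_zero] at this
  linarith

lemma F_slit (t : ℝ) : 1 - 4 / (F t) ^ 2 ∈ Complex.slitPlane := by
  rw [sub_eq_add_neg]
  apply Complex.mem_slitPlane_of_norm_lt_one
  rw [norm_neg, norm_div, norm_pow]
  have h := h3 t
  rw [div_lt_one (by positivity)]
  rw [show ‖(4 : ℂ)‖ = 4 by simp]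
  nlinarith

lemma wbr_mul (t : ℝ) : wbr F t * (F t / 2 * (1 - csq (1 - 4 / (F t) ^ 2))) = 1 := by
  have hF := F_ne h3 t
  have hs := F_slit h3 t
  have hz : 1 - 4 / (F t) ^ 2 ≠ 0 := Complex.slitPlane_ne_zero hs
  have := csq_sq hz
  unfold wbr
  have e : F t / 2 * (1 + csq (1 - 4 / F t ^ 2)) * (F t / 2 * (1 - csq (1 - 4 / F t ^ 2))) =
      (F t) ^ 2 / 4 * (1 - csq (1 - 4 / F t ^ 2) * csq (1 - 4 / F t ^ 2)) := by ring
  rw [e, this]
  field_simp
  ring

lemma wbr_ne (t : ℝ) : wbr F t ≠ 0 := left_ne_zero_of_mul_eq_one (wbr_mul h3 t)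

lemma wbr_inv (t : ℝ) : (wbr F t)⁻¹ = F t / 2 * (1 - csq (1 - 4 / (F t) ^ 2)) :=
  inv_eq_of_mul_eq_one_right (wbr_mul h3 t)

lemma wbr_add_inv (t : ℝ) : wbr F t + (wbr F t)⁻¹ = F t := by
  rw [wbr_inv h3]
  unfold wbr
  ring

lemma one_lt_norm_wbr (t : ℝ) : 1 < ‖wbr F t‖ := by
  have hF := F_ne h3 t
  have hFn : 0 < ‖F t‖ := norm_pos_iff.2 hF
  have hs := F_slit h3 t
  set q := csq (1 - 4 / (F t) ^ 2) with hq
  have hre : 0 < q.re := csq_re_pos hs
  have e1 : ‖wbr F t‖ = ‖F t‖ / 2 * ‖1 + q‖ := by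
    unfold wbr
    rw [norm_mul, norm_div]
    simp [hq]
  have e2 : ‖(wbr F t)⁻¹‖ = ‖F t‖ / 2 * ‖1 - q‖ := by
    rw [wbr_inv h3, norm_mul, norm_div]
    simp [hq]
  have hlt : ‖1 - q‖ < ‖1 + q‖ := by
    rw [← sq_lt_sq₀ (norm_nonneg _) (norm_nonneg _), Complex.sq_norm, Complex.sq_norm,
      Complex.normSq_apply, Complex.normSq_apply]
    simp only [Complex.sub_re, Complex.one_re, Complex.sub_im, Complex.one_im, Complex.add_re,
      Complex.add_im]
    nlinarith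
  have hprod : ‖wbr F t‖ * ‖(wbr F t)⁻¹‖ = 1 := by
    rw [← norm_mul, mul_inv_cancel₀ (wbr_ne h3 t), norm_one]
  have hlt2 : ‖(wbr F t)⁻¹‖ < ‖wbr F t‖ := by
    rw [e1, e2]
    exact mul_lt_mul_of_pos_left hlt (by positivity)
  have hpos : 0 < ‖wbr F t‖ := norm_pos_iff.2 (wbr_ne h3 t)
  by_contra hcon
  push Not at hcon
  nlinarith [norm_nonneg ((wbr F t)⁻¹)]

include h1 h2

lemma isLoop_wbr : IsLoop (wbr F) := by
  refine ⟨?_, fun t => by unfold wbr; rw [h2 t], wbr_ne h3⟩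
  unfold wbr
  refine ContDiff.mul (h1.div_const _) (contDiff_const.add ?_)
  unfold csq
  refine ContDiff.cexp (ContDiff.div_const ?_ _)
  rw [contDiff_iff_contDiffAt]
  intro t
  have hF := F_ne h3 t
  have h4 : ContDiffAt ℝ 1 (fun t => 1 - 4 / (F t) ^ 2) t := by
    have h5 : ContDiffAt ℝ 1 (fun t => 1 - 4 * ((F t) ^ 2)⁻¹) t :=
      contDiffAt_const.sub (contDiffAt_const.mul
        ((h1.contDiffAt.pow 2).inv (pow_ne_zero 2 hF)))
    simpa [div_eq_mul_inv] using h5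
  exact ContDiffAt.comp t ((Complex.contDiffAt_log (F_slit h3 t)).restrict_scalars ℝ) h4

end

end Pool.Agent.Helper11
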