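import Mathlib
import Pool.Agent.Helper11.Branch

/-! Entries of the regulator matrix. -/

namespace Pool.Agent.Helper11

open Complex Real

/-- integral of the logarithmic derivative -/
noncomputable def wind (φ : ℝ → ℂ) : ℂ := ∫ t in (0 : ℝ)..(2 * Real.pi), deriv φ t / φ t

lemma wind_mul {φ ψ : ℝ → ℂ} (h1 : IsLoop φ) (h2 : IsLoop ψ) :
    wind (φ * ψ) = wind φ + wind ψ := by
  unfold wind
  rw [← intervalIntegral.integral_add (h1.cont_dlog.intervalIntegrable _ _)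
    (h2.cont_dlog.intervalIntegrable _ _)]
  refine intervalIntegral.integral_congr fun t _ => ?_
  exact h1.dlog_mul h2 t

lemma wind_const (c : ℂ) : wind (fun _ => c) = 0 := by
  unfold wind
  simp

lemma wind_exp {h : ℝ → ℂ} (h1 : ContDiff ℝ 1 h) (h2 : Function.Periodic h (2 * Real.pi)) :
    wind (fun t => Complex.exp (h t)) = 0 := by
  have hd : ∀ t, HasDerivAt h (deriv h t) t := fun t =>
    ((h1.differentiable (by norm_num)) t).hasDerivAt
  have hde : ∀ t, deriv (fun t => Complex.exp (h t)) t / Complex.exp (h t) = deriv h t := by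
    intro t
    rw [(hd t).cexp.deriv]
    field_simp [Complex.exp_ne_zero]
  unfold wind
  simp only [hde]
  rw [intervalIntegral.integral_eq_sub_of_hasDerivAt (fun t _ => hd t)
    ((h1.continuous_deriv (by norm_num)).intervalIntegrable _ _)]
  have p2 := h2 0
  simp only [zero_add] at p2
  rw [p2, sub_self]

lemma isLoop_one : IsLoop (1 : ℝ → ℂ) := IsLoop.const (c := 1) one_ne_zero

lemma wind_one : wind (1 : ℝ → ℂ) = 0 := wind_const 1

lemma regInt_one_right {φ : ℝ → ℂ} (h : IsLoop φ) : regInt φ 1 = 0 := by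
  show regInt φ (fun _ => 1) = 0
  rw [regInt_const_right h]
  simp

lemma isLoop_prod {ι : Type*} (s : Finset ι) (ψ : ι → ℝ → ℂ) (h : ∀ i ∈ s, IsLoop (ψ i)) :
    IsLoop (∏ i ∈ s, ψ i) := by
  classical
  induction s using Finset.induction_on with
  | empty => simpa using isLoop_one
  | insert a s ha ih =>
    rw [Finset.prod_insert ha]
    exact (h a (Finset.mem_insert_self _ _)).mul (ih fun i hi => h i (Finset.mem_insert_of_mem hi))

lemma wind_prod {ι : Type*} (s : Finset ι) (ψ : ι → ℝ → ℂ) (h : ∀ i ∈ s, IsLoop (ψ i)) :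
    wind (∏ i ∈ s, ψ i) = ∑ i ∈ s, wind (ψ i) := by
  classical
  induction s using Finset.induction_on with
  | empty => simpa using wind_one
  | insert a s ha ih =>
    rw [Finset.prod_insert ha, Finset.sum_insert ha, wind_mul (h a (Finset.mem_insert_self _ _))
      (isLoop_prod s ψ fun i hi => h i (Finset.mem_insert_of_mem hi)),
      ih fun i hi => h i (Finset.mem_insert_of_mem hi)]

lemma regInt_prod_right {ι : Type*} (s : Finset ι) (ψ : ι → ℝ → ℂ) (h : ∀ i ∈ s, IsLoop (ψ i))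
    {φ : ℝ → ℂ} (hφ : IsLoop φ) :
    regInt φ (∏ i ∈ s, ψ i) = ∑ i ∈ s, regInt φ (ψ i) := by
  classical
  induction s using Finset.induction_on with
  | empty => simpa using regInt_one_right hφ
  | insert a s ha ih =>
    rw [Finset.prod_insert ha, Finset.sum_insert ha,
      regInt_mul_right (h a (Finset.mem_insert_self _ _))
      (isLoop_prod s ψ fun i hi => h i (Finset.mem_insert_of_mem hi)) hφ,
      ih fun i hi => h i (Finset.mem_insert_of_mem hi)]

lemma regInt_prod_left {ι : Type*} (s : Finset ι) (ψ : ι → ℝ → ℂ) (h : ∀ i ∈ s, IsLoop (ψ i))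
    {φ : ℝ → ℂ} (hφ : IsLoop φ) :
    regInt (∏ i ∈ s, ψ i) φ = ∑ i ∈ s, regInt (ψ i) φ := by
  rw [regInt_antisymm, regInt_prod_right s ψ h hφ, ← Finset.sum_neg_distrib]
  exact Finset.sum_congr rfl fun i _ => (regInt_antisymm _ _).symm

/-! ### the function `log (1 - ζ / W)` -/

section hz

variable {W : ℝ → ℂ} {ζ : ℂ}

/-- `log (1 - ζ/W)` -/
noncomputable def hz (W : ℝ → ℂ) (ζ : ℂ) : ℝ → ℂ := fun t => Complex.log (1 + -(ζ / W t))

lemma hz_slit (hζ : ‖ζ‖ = 1) (hW : ∀ t, 1 < ‖W t‖) (t : ℝ) :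
    1 + -(ζ / W t) ∈ Complex.slitPlane := by
  apply Complex.mem_slitPlane_of_norm_lt_one
  rw [norm_neg, norm_div, hζ]
  have := hW t
  rw [div_lt_one (by linarith)]
  exact this

lemma contDiff_hz (hζ : ‖ζ‖ = 1) (hW : ∀ t, 1 < ‖W t‖) (h : IsLoop W) :
    ContDiff ℝ 1 (hz W ζ) := by
  rw [contDiff_iff_contDiffAt]
  intro t
  have h4 : ContDiffAt ℝ 1 (fun t => 1 + -(ζ / W t)) t := by
    have h5 : ContDiffAt ℝ 1 (fun t => 1 + -(ζ * (W t)⁻¹)) t :=
      contDiffAt_const.add (contDiffAt_const.mul (h.cd.contDiffAt.inv (h.ne t))).neg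
    simpa [div_eq_mul_inv] using h5
  exact ContDiffAt.comp t ((Complex.contDiffAt_log (hz_slit hζ hW t)).restrict_scalars ℝ) h4

lemma periodic_hz (h : IsLoop W) : Function.Periodic (hz W ζ) (2 * Real.pi) := fun t => by
  unfold hz
  rw [h.per t]

lemma exp_hz (hζ : ‖ζ‖ = 1) (hW : ∀ t, 1 < ‖W t‖) (t : ℝ) :
    Complex.exp (hz W ζ t) = 1 - ζ / W t := by
  unfold hz
  rw [Complex.exp_log (Complex.slitPlane_ne_zero (hz_slit hζ hW t)), sub_eq_add_neg]

lemma norm_hz_le (hζ : ‖ζ‖ = 1) (hW : ∀ t, 7 / 2 ≤ ‖W t‖) (t : ℝ) : ‖hz W ζ t‖ ≤ 12 / 35 := by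
  have h0 := hW t
  have h1 : ‖-(ζ / W t)‖ ≤ 2 / 7 := by
    rw [norm_neg, norm_div, hζ, div_le_iff₀ (by linarith)]
    linarith
  have h2 := Complex.norm_log_one_add_le (z := -(ζ / W t)) (by linarith)
  unfold hz
  refine h2.trans ?_
  set u := ‖-(ζ / W t)‖
  have hu : 0 ≤ u := norm_nonneg _
  have h3 : (1 - u)⁻¹ ≤ 7 / 5 := by
    rw [inv_le_comm₀ (by linarith) (by norm_num)]
    norm_num
    linarith
  have h4 : u ^ 2 * (1 - u)⁻¹ ≤ (2 / 7) ^ 2 * (7 / 5) := by
    refine mul_le_mul ?_ h3 ?_ (by norm_num)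
    · exact pow_le_pow_left₀ hu h1 2
    · exact inv_nonneg.2 (by linarith)
  nlinarith

/-- Steinberg: `{1 - ζ/W, W}` has regulator zero. -/
lemma regInt_one_sub_div (hζ : ‖ζ‖ = 1) (hW : ∀ t, 1 < ‖W t‖) (h : IsLoop W) :
    regInt (fun t => 1 - ζ / W t) W = 0 := by
  have hζ0 : ζ ≠ 0 := by
    intro h0
    rw [h0, norm_zero] at hζ
    exact zero_ne_one hζ
  have hL1 : IsLoop (fun t => 1 - ζ / W t) := by
    have : (fun t => 1 - ζ / W t) = fun t => Complex.exp (hz W ζ t) :=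
      funext fun t => (exp_hz hζ hW t).symm
    rw [this]
    exact IsLoop.exp (contDiff_hz hζ hW h) (periodic_hz h)
  have hL2 : IsLoop ((fun _ => ζ) * W⁻¹) := (IsLoop.const hζ0).mul h.inv
  have hst := regInt_steinberg hL1 hL2 (by
    funext t
    simp only [Pi.add_apply, Pi.mul_apply, Pi.inv_apply, Pi.one_apply]
    ring)
  rw [regInt_mul_right (IsLoop.const hζ0) h.inv hL1, regInt_const_right hL1, hζ, Real.log_one,
    zero_mul, neg_zero, zero_add] at hst
  have h3 := regInt_mul_right h h.inv hL1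
  have h4 : W * W⁻¹ = 1 := by
    funext t
    simp [h.ne t]
  rw [h4, regInt_one_right hL1, hst] at h3
  linarith

end hz

/-! ### the matrix entries -/

section entry

variable {ι : Type*} [Fintype ι] [DecidableEq ι] (a : ι → ℂ) (c ζ : ℂ) (r : ℝ) (j : ι)

/-- `f = c ∏ (x - a_l) + ζ + ζ⁻¹` along the circle of radius `r` about `a j` -/
noncomputable def Fl : ℝ → ℂ :=
  fun t => c * ∏ l, cl (a j) r (a l) t + (ζ + ζ⁻¹)

variable {a c ζ r j}

structure Good (a : ι → ℂ) (c ζ : ℂ) (r : ℝ) (j : ι) : Prop where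
  hζ : ‖ζ‖ = 1
  hr : 0 < r
  hc : c ≠ 0
  hout : ∀ l, l ≠ j → r < ‖a j - a l‖
  hbig : 29 / 5 ≤ ‖c‖ * (r * ∏ l ∈ Finset.univ.erase j, (‖a j - a l‖ - r))

namespace Good

variable (H : Good a c ζ r j)
include H

lemma isLoop_cl (l : ι) : IsLoop (cl (a j) r (a l)) := by
  by_cases h : l = j
  · rw [h]
    exact isLoop_cl_center H.hr
  · exact isLoop_cl_out H.hr (H.hout l h)

lemma norm_cl_center (t : ℝ) : ‖cl (a j) r (a j) t‖ = r := by
  unfold cl
  rw [circleMap_sub_center, norm_circleMap_zero, abs_of_pos H.hr]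

lemma norm_cl_ge (l : ι) (t : ℝ) : ‖a j - a l‖ - r ≤ ‖cl (a j) r (a l) t‖ := by
  have e : cl (a j) r (a l) t = (a j - a l) - (a j - circleMap (a j) r t) := by
    unfold cl
    ring
  have e2 : ‖a j - circleMap (a j) r t‖ = r := by
    rw [norm_sub_rev, circleMap_sub_center, norm_circleMap_zero, abs_of_pos H.hr]
  rw [e]
  have := norm_sub_norm_le (a j - a l) (a j - circleMap (a j) r t)
  rw [e2] at this
  exact this

lemma big (t : ℝ) : 29 / 5 ≤ ‖c * ∏ l, cl (a j) r (a l) t‖ := by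
  refine H.hbig.trans ?_
  rw [norm_mul, norm_prod]
  refine mul_le_mul_of_nonneg_left ?_ (norm_nonneg _)
  rw [← Finset.mul_prod_erase Finset.univ _ (Finset.mem_univ j), H.norm_cl_center]
  refine mul_le_mul_of_nonneg_left ?_ H.hr.le
  refine Finset.prod_le_prod ?_ ?_
  · intro l hl
    have := H.hout l (Finset.ne_of_mem_erase hl)
    linarith
  · intro l _
    exact H.norm_cl_ge l t

lemma ζ_ne : ζ ≠ 0 := by
  intro h0
  have := H.hζ
  rw [h0, norm_zero] at this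
  exact zero_ne_one this

lemma hζ' : ‖ζ⁻¹‖ = 1 := by rw [norm_inv, H.hζ, inv_one]

lemma two_lt (t : ℝ) : 2 < ‖Fl a c ζ r j t‖ := by
  have h1 := H.big t
  have h2 : ‖ζ + ζ⁻¹‖ ≤ 2 := by
    refine (norm_add_le _ _).trans ?_
    rw [H.hζ, H.hζ']
    norm_num
  have h3 : ‖c * ∏ l, cl (a j) r (a l) t‖ ≤ ‖Fl a c ζ r j t‖ + ‖ζ + ζ⁻¹‖ := by
    have e : c * ∏ l, cl (a j) r (a l) t = Fl a c ζ r j t - (ζ + ζ⁻¹) := by
      unfold Fl
      ring
    rw [e]
    exact norm_sub_le _ _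
  linarith

lemma contDiff_Fl : ContDiff ℝ 1 (Fl a c ζ r j) := by
  unfold Fl
  refine (contDiff_const.mul ?_).add contDiff_const
  exact contDiff_prod fun l _ => (H.isLoop_cl l).cd

lemma periodic_Fl : Function.Periodic (Fl a c ζ r j) (2 * Real.pi) := fun t => by
  unfold Fl
  simp only [fun l => (H.isLoop_cl l).per t]

lemma isLoop_W : IsLoop (wbr (Fl a c ζ r j)) := isLoop_wbr H.contDiff_Fl H.periodic_Fl H.two_lt

lemma one_lt_W (t : ℝ) : 1 < ‖wbr (Fl a c ζ r j) t‖ := one_lt_norm_wbr H.two_lt t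

lemma factor (t : ℝ) : c * ∏ l, cl (a j) r (a l) t =
    wbr (Fl a c ζ r j) t * ((1 - ζ / wbr (Fl a c ζ r j) t) * (1 - ζ⁻¹ / wbr (Fl a c ζ r j) t)) := by
  have h1 := wbr_add_inv H.two_lt t
  have h2 := H.isLoop_W.ne t
  have h3 := H.ζ_ne
  have e : c * ∏ l, cl (a j) r (a l) t = Fl a c ζ r j t - (ζ + ζ⁻¹) := by
    unfold Fl
    ring
  rw [e, ← h1]
  field_simp
  ring

lemma W_ge (t : ℝ) : 7 / 2 ≤ ‖wbr (Fl a c ζ r j) t‖ := by
  have h1 := H.big t
  have h2 := H.one_lt_W t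
  have h3 := wbr_add_inv H.two_lt t
  have e : c * ∏ l, cl (a j) r (a l) t = Fl a c ζ r j t - (ζ + ζ⁻¹) := by
    unfold Fl
    ring
  have h4 : ‖c * ∏ l, cl (a j) r (a l) t‖ ≤ ‖wbr (Fl a c ζ r j) t‖ +
      ‖wbr (Fl a c ζ r j) t‖⁻¹ + 2 := by
    rw [e, ← h3]
    refine (norm_sub_le _ _).trans ?_
    have h5 := norm_add_le (wbr (Fl a c ζ r j) t) (wbr (Fl a c ζ r j) t)⁻¹
    rw [norm_inv] at h5
    have h6 := norm_add_le ζ ζ⁻¹
    rw [H.hζ, H.hζ'] at h6
    linarith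
  set u := ‖wbr (Fl a c ζ r j) t‖
  by_contra hcon
  push Not at hcon
  have hu : 0 < u := by linarith
  have h7 : 19 / 5 ≤ u + u⁻¹ := by linarith
  have h8 : u * u⁻¹ = 1 := mul_inv_cancel₀ hu.ne'
  have h9 : u * (19 / 5) ≤ u * u + 1 := by
    have := mul_le_mul_of_nonneg_left h7 hu.le
    rw [mul_add, h8] at this
    exact this
  nlinarith

/-- the exponent `ψ` with `W = c A(x) exp ψ` -/
noncomputable def _root_.Pool.Agent.Helper11.psi (W : ℝ → ℂ) (ζ : ℂ) : ℝ → ℂ :=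
  fun t => -(hz W ζ t + hz W ζ⁻¹ t)

lemma contDiff_psi : ContDiff ℝ 1 (psi (wbr (Fl a c ζ r j)) ζ) :=
  ((contDiff_hz H.hζ H.one_lt_W H.isLoop_W).add (contDiff_hz H.hζ' H.one_lt_W H.isLoop_W)).neg

lemma periodic_psi : Function.Periodic (psi (wbr (Fl a c ζ r j)) ζ) (2 * Real.pi) := fun t => by
  unfold psi
  rw [periodic_hz H.isLoop_W t, periodic_hz H.isLoop_W t]

lemma norm_psi_le (t : ℝ) : ‖psi (wbr (Fl a c ζ r j)) ζ t‖ ≤ 24 / 35 := by
  unfold psi
  rw [norm_neg]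
  refine (norm_add_le _ _).trans ?_
  have h1 := norm_hz_le H.hζ H.W_ge t
  have h2 := norm_hz_le H.hζ' H.W_ge t
  linarith

lemma W_eq : wbr (Fl a c ζ r j) = (fun _ => c) * (∏ l, cl (a j) r (a l)) *
    (fun t => Complex.exp (psi (wbr (Fl a c ζ r j)) ζ t)) := by
  funext t
  simp only [Pi.mul_apply, Finset.prod_apply]
  rw [H.factor t]
  unfold psi
  rw [Complex.exp_neg, Complex.exp_add, exp_hz H.hζ H.one_lt_W, exp_hz H.hζ' H.one_lt_W]
  have h1 : 1 - ζ / wbr (Fl a c ζ r j) t ≠ 0 := by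
    rw [← exp_hz H.hζ H.one_lt_W]
    exact Complex.exp_ne_zero _
  have h2 : 1 - ζ⁻¹ / wbr (Fl a c ζ r j) t ≠ 0 := by
    rw [← exp_hz H.hζ' H.one_lt_W]
    exact Complex.exp_ne_zero _
  rw [mul_assoc, mul_inv_cancel₀ (mul_ne_zero h1 h2), mul_one]

lemma isLoop_A : IsLoop (∏ l, cl (a j) r (a l)) := isLoop_prod _ _ fun l _ => H.isLoop_cl l

lemma wind_W : wind (wbr (Fl a c ζ r j)) = 2 * Real.pi * I := by
  have h1 := H.W_eq
  have h2 : wind (wbr (Fl a c ζ r j)) = wind ((fun _ => c) * (∏ l, cl (a j) r (a l)) *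
    (fun t => Complex.exp (psi (wbr (Fl a c ζ r j)) ζ t))) := by rw [← h1]
  rw [h2, wind_mul ((IsLoop.const H.hc).mul H.isLoop_A) (IsLoop.exp H.contDiff_psi H.periodic_psi),
    wind_mul (IsLoop.const H.hc) H.isLoop_A, wind_const, wind_exp H.contDiff_psi H.periodic_psi,
    wind_prod _ _ fun l _ => H.isLoop_cl l, ← Finset.add_sum_erase _ _ (Finset.mem_univ j)]
  have h3 : wind (cl (a j) r (a j)) = 2 * Real.pi * I := integral_dlog_one_center H.hr
  have h4 : ∑ l ∈ Finset.univ.erase j, wind (cl (a j) r (a l)) = 0 :=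
    Finset.sum_eq_zero fun l hl => integral_dlog_one_out H.hr (H.hout l (Finset.ne_of_mem_erase hl))
  rw [h3, h4]
  ring

lemma row_sum : ∑ i, regInt (cl (a j) r (a i)) (wbr (Fl a c ζ r j)) =
    -(2 * Real.pi * Real.log ‖c‖) := by
  have hW := H.isLoop_W
  have hL1 : IsLoop (fun t => 1 - ζ / wbr (Fl a c ζ r j) t) := by
    have : (fun t => 1 - ζ / wbr (Fl a c ζ r j) t) =
        fun t => Complex.exp (hz (wbr (Fl a c ζ r j)) ζ t) :=
      funext fun t => (exp_hz H.hζ H.one_lt_W t).symm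
    rw [this]
    exact IsLoop.exp (contDiff_hz H.hζ H.one_lt_W hW) (periodic_hz hW)
  have hL2 : IsLoop (fun t => 1 - ζ⁻¹ / wbr (Fl a c ζ r j) t) := by
    have : (fun t => 1 - ζ⁻¹ / wbr (Fl a c ζ r j) t) =
        fun t => Complex.exp (hz (wbr (Fl a c ζ r j)) ζ⁻¹ t) :=
      funext fun t => (exp_hz H.hζ' H.one_lt_W t).symm
    rw [this]
    exact IsLoop.exp (contDiff_hz H.hζ' H.one_lt_W hW) (periodic_hz hW)
  have h1 : (fun _ => c) * (∏ l, cl (a j) r (a l)) = wbr (Fl a c ζ r j) *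
      ((fun t => 1 - ζ / wbr (Fl a c ζ r j) t) * (fun t => 1 - ζ⁻¹ / wbr (Fl a c ζ r j) t)) := by
    funext t
    simp only [Pi.mul_apply, Finset.prod_apply]
    exact H.factor t
  have h2 : regInt ((fun _ => c) * (∏ l, cl (a j) r (a l))) (wbr (Fl a c ζ r j)) = 0 := by
    rw [h1, regInt_mul_left hW (hL1.mul hL2) hW, regInt_self, regInt_mul_left hL1 hL2 hW,
      regInt_one_sub_div H.hζ H.one_lt_W hW, regInt_one_sub_div H.hζ' H.one_lt_W hW]
    ring
  rw [regInt_mul_left (IsLoop.const H.hc) H.isLoop_A hW, regInt_const_left hW,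
    regInt_prod_left _ _ (fun l _ => H.isLoop_cl l) hW] at h2
  have h3 : (∫ t in (0 : ℝ)..(2 * Real.pi), deriv (wbr (Fl a c ζ r j)) t /
      wbr (Fl a c ζ r j) t).im = 2 * Real.pi := by
    have := H.wind_W
    unfold wind at this
    rw [this]
    simp
  rw [h3] at h2
  linarith

lemma offdiag {i : ι} (hij : i ≠ j) :
    2 * Real.pi * (Real.log ‖a j - a i‖ - 24 / 35 * (r / (‖a j - a i‖ - r))) ≤
      regInt (cl (a j) r (a i)) (wbr (Fl a c ζ r j)) := by
  have hi := H.hout i hij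
  have hLi := H.isLoop_cl i
  have hexp := IsLoop.exp H.contDiff_psi H.periodic_psi
  have h1 := H.W_eq
  have h2 : regInt (cl (a j) r (a i)) (wbr (Fl a c ζ r j)) =
      regInt (cl (a j) r (a i)) ((fun _ => c) * (∏ l, cl (a j) r (a l)) *
    (fun t => Complex.exp (psi (wbr (Fl a c ζ r j)) ζ t))) := by rw [← h1]
  rw [h2, regInt_mul_right ((IsLoop.const H.hc).mul H.isLoop_A) hexp hLi,
    regInt_mul_right (IsLoop.const H.hc) H.isLoop_A hLi, regInt_const_right hLi,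
    integral_dlog_one_out H.hr hi, regInt_prod_right _ _ (fun l _ => H.isLoop_cl l) hLi,
    ← Finset.add_sum_erase _ _ (Finset.mem_univ j)]
  have h4 : ∑ l ∈ Finset.univ.erase j, regInt (cl (a j) r (a i)) (cl (a j) r (a l)) = 0 :=
    Finset.sum_eq_zero fun l hl =>
      regInt_out_out H.hr hi (H.hout l (Finset.ne_of_mem_erase hl))
  have h5 : regInt (cl (a j) r (a i)) (cl (a j) r (a j)) =
      2 * Real.pi * Real.log ‖a j - a i‖ := by
    rw [regInt_antisymm, regInt_center_out H.hr hi, neg_neg]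
  have h6 := abs_regInt_exp_le H.hr hi H.contDiff_psi H.periodic_psi H.norm_psi_le
  have h7 := (abs_le.1 h6).1
  rw [h4, h5]
  simp only [Complex.zero_im, mul_zero, neg_zero, zero_add, add_zero]
  linarith

end Good

end entry

end Pool.Agent.Helper11
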