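import Mathlib
import Pool.Agent.Helper11.ArrLoop
import Pool.Agent.Helper11.Entry

/-! Estimates of the regulator integrals on the loops around the nodes. -/

namespace Pool.Agent.Helper11

open Complex

/-- loops with bounded logarithm and logarithmic derivative -/
structure Bd (φ : ℝ → ℂ) (M D : ℝ) : Prop where
  loop : IsLoop φ
  log : ∀ t, |Real.log ‖φ t‖| ≤ M
  dlog : ∀ t, ‖deriv φ t / φ t‖ ≤ D

namespace Bd

variable {φ ψ : ℝ → ℂ} {M D M' D' : ℝ}

lemma nonneg_M (h : Bd φ M D) : 0 ≤ M := (abs_nonneg _).trans (h.log 0)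
lemma nonneg_D (h : Bd φ M D) : 0 ≤ D := (norm_nonneg _).trans (h.dlog 0)

lemma mul (h : Bd φ M D) (h' : Bd ψ M' D') : Bd (φ * ψ) (M + M') (D + D') := by
  refine ⟨h.loop.mul h'.loop, fun t => ?_, fun t => ?_⟩
  · rw [Pi.mul_apply, norm_mul, Real.log_mul (norm_ne_zero_iff.2 (h.loop.ne t))
      (norm_ne_zero_iff.2 (h'.loop.ne t))]
    exact (abs_add_le _ _).trans (add_le_add (h.log t) (h'.log t))
  · rw [h.loop.dlog_mul h'.loop]
    exact (norm_add_le _ _).trans (add_le_add (h.dlog t) (h'.dlog t))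

lemma const {c : ℂ} (hc : c ≠ 0) (h : |Real.log ‖c‖| ≤ M) : Bd (fun _ => c) M 0 := by
  refine ⟨IsLoop.const hc, fun t => h, fun t => ?_⟩
  simp

lemma mono (h : Bd φ M D) (h1 : M ≤ M') (h2 : D ≤ D') : Bd φ M' D' :=
  ⟨h.loop, fun t => (h.log t).trans h1, fun t => (h.dlog t).trans h2⟩

lemma regInt_le (h : Bd φ M D) (h' : Bd ψ M' D') :
    |regInt φ ψ| ≤ 2 * Real.pi * (M * D' + M' * D) := by
  unfold regInt
  have h1 := intervalIntegral.norm_integral_le_of_norm_le_const
    (f := fun t => (Real.log ‖φ t‖ * (deriv ψ t / ψ t).im -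
      Real.log ‖ψ t‖ * (deriv φ t / φ t).im)) (a := 0) (b := 2 * Real.pi)
    (C := M * D' + M' * D) (by
      intro t _
      rw [Real.norm_eq_abs]
      refine (abs_sub _ _).trans (add_le_add ?_ ?_)
      · rw [abs_mul]
        exact mul_le_mul (h.log t) ((Complex.abs_im_le_norm _).trans (h'.dlog t))
          (abs_nonneg _) h.nonneg_M
      · rw [abs_mul]
        exact mul_le_mul (h'.log t) ((Complex.abs_im_le_norm _).trans (h.dlog t))
          (abs_nonneg _) h'.nonneg_M)
  rw [Real.norm_eq_abs, sub_zero, abs_of_pos Real.two_pi_pos] at h1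
  linarith

end Bd

/-- loops close to a constant have winding number zero -/
lemma wind_near {φ : ℝ → ℂ} (h : IsLoop φ) {p : ℂ} (hp : ∀ t, ‖φ t - p‖ < ‖p‖) : wind φ = 0 := by
  have hp0 : p ≠ 0 := by
    intro h0
    have := hp 0
    rw [h0, norm_zero] at this
    exact absurd this (not_lt.2 (norm_nonneg _))
  have hslit : ∀ t, φ t / p ∈ Complex.slitPlane := by
    intro t
    have e : φ t / p = 1 + (φ t - p) / p := by
      field_simp
      ring
    rw [e]
    apply Complex.mem_slitPlane_of_norm_lt_one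
    rw [norm_div, div_lt_one (norm_pos_iff.2 hp0)]
    exact hp t
  have hcd : ContDiff ℝ 1 (fun t => Complex.log (φ t / p)) := by
    rw [contDiff_iff_contDiffAt]
    intro t
    have h1 : ContDiffAt ℝ 1 (fun t => φ t / p) t := h.cd.contDiffAt.div_const _
    exact ContDiffAt.comp t ((Complex.contDiffAt_log (hslit t)).restrict_scalars ℝ) h1
  have hper : Function.Periodic (fun t => Complex.log (φ t / p)) (2 * Real.pi) := fun t => by
    simp only [h.per t]
  have e : φ = (fun _ => p) * (fun t => Complex.exp (Complex.log (φ t / p))) := by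
    funext t
    rw [Pi.mul_apply, Complex.exp_log (Complex.slitPlane_ne_zero (hslit t))]
    field_simp
  rw [e, wind_mul (IsLoop.const hp0) (IsLoop.exp hcd hper), wind_const, wind_exp hcd hper, add_zero]

lemma regInt_const_wind {c : ℂ} {ψ : ℝ → ℂ} (hψ : IsLoop ψ) (hw : wind ψ = 0) :
    regInt (fun _ => c) ψ = 0 := by
  rw [regInt_const_left hψ]
  change _ * (wind ψ).im = 0
  rw [hw]
  simp

section node

variable {ι : Type*} [Fintype ι] [DecidableEq ι] {i j : ι} {a b p : ι → ℂ} {r : ℝ} {w : ℝ → ℂ}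

/-- the data of a loop around the node `(i, j)` -/
structure Node (i j : ι) (a b p : ι → ℂ) (r : ℝ) (w : ℝ → ℂ) (c δ : ℂ) (Λ : ℝ) : Prop where
  hij : i ≠ j
  H : Small a b p ((Finset.univ.erase i).erase j) r
  cd : ContDiff ℝ 1 w
  per : Function.Periodic w (2 * Real.pi)
  wr : ∀ t, ‖w t‖ ≤ r
  dw : ∀ t, ‖deriv w t‖ ≤ r
  hc : c ≠ 0
  hδ : δ ≠ 0
  eq : ∀ t, c * circleMap 0 r t * w t *
    ∏ k ∈ (Finset.univ.erase i).erase j, δ⁻¹ * mval a b p k (circleMap 0 r t) (w t) = 1
  Λr : |Real.log r| ≤ Λ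
  Λδ : |Real.log ‖δ‖| ≤ Λ
  Λp : ∀ k ∈ (Finset.univ.erase i).erase j, Real.log (3 / 2 * ‖p k‖) ≤ Λ
  Λ2 : Real.log 2 ≤ Λ

variable {c δ : ℂ} {Λ : ℝ}

namespace Node

variable (X : Node i j a b p r w c δ Λ)
include X

/-- the circle -/
lemma bd_z : Bd (circleMap 0 r) Λ 1 := by
  have hr := X.H.hr
  have hn : ∀ t, ‖circleMap 0 r t‖ = r := fun t => by
    rw [norm_circleMap_zero, abs_of_pos hr]
  refine ⟨⟨contDiff_circleMap 0 r, periodic_circleMap 0 r, fun t => ?_⟩, fun t => ?_, fun t => ?_⟩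
  · rw [← norm_pos_iff, hn]
    exact hr
  · rw [hn]
    exact X.Λr
  · rw [deriv_circleMap, norm_div, norm_mul, hn, Complex.norm_I, mul_one, div_self hr.ne']

omit X in
lemma wind_z {r : ℝ} (hr : 0 < r) : wind (circleMap 0 r) = 2 * Real.pi * I := by
  have := integral_dlog_one_center (a := 0) hr
  have e : cl 0 r 0 = circleMap 0 r := by
    funext t
    unfold cl
    rw [sub_zero]
  rw [e] at this
  exact this

/-- the other lines, along the loop -/
noncomputable def _root_.Pool.Agent.Helper11.mloop (a b p : ι → ℂ) (r : ℝ) (w : ℝ → ℂ) (k : ι) :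
    ℝ → ℂ := fun t => mval a b p k (circleMap 0 r t) (w t)

lemma zle (t : ℝ) : ‖circleMap 0 r t‖ ≤ r := by
  rw [norm_circleMap_zero, abs_of_pos X.H.hr]

lemma bd_m {k : ι} (hk : k ∈ (Finset.univ.erase i).erase j) : Bd (mloop a b p r w k) Λ 1 := by
  have hr := X.H.hr
  have hge : ∀ t, 1 / 2 ≤ ‖mloop a b p r w k t‖ := fun t => X.H.ge_half hk (X.zle t) (X.wr t)
  have hd : ∀ t, ‖mloop a b p r w k t - p k‖ ≤ 1 / 2 := fun t => X.H.dist_p hk (X.zle t) (X.wr t)
  have hp := X.H.hp k hk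
  have hle : ∀ t, ‖mloop a b p r w k t‖ ≤ 3 / 2 * ‖p k‖ := by
    intro t
    have h1 := norm_le_norm_add_norm_sub' (mloop a b p r w k t) (p k)
    have := hd t
    linarith
  have hderiv : ∀ t, HasDerivAt (mloop a b p r w k)
      (a k * (circleMap 0 r t * I) + b k * deriv w t) t := by
    intro t
    have h1 : HasDerivAt (circleMap 0 r) (circleMap 0 r t * I) t := hasDerivAt_circleMap 0 r t
    have h2 : HasDerivAt w (deriv w t) t :=
      ((X.cd.differentiable (by norm_num)) t).hasDerivAt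
    exact ((h1.const_mul (a k)).add (h2.const_mul (b k))).add_const (p k)
  refine ⟨⟨?_, ?_, fun t => ?_⟩, fun t => ?_, fun t => ?_⟩
  · unfold mloop mval
    exact ((contDiff_const.mul (contDiff_circleMap 0 r)).add (contDiff_const.mul X.cd)).add
      contDiff_const
  · intro t
    unfold mloop
    rw [periodic_circleMap, X.per t]
  · intro h0
    have := hge t
    rw [h0, norm_zero] at this
    norm_num at this
  · have hpos : 0 < ‖mloop a b p r w k t‖ := lt_of_lt_of_le (by norm_num) (hge t)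
    rw [abs_le]
    constructor
    · have h1 : Real.log (1 / 2) ≤ Real.log ‖mloop a b p r w k t‖ :=
        Real.log_le_log (by norm_num) (hge t)
      have h2 : Real.log (1 / 2) = - Real.log 2 := by
        rw [one_div, Real.log_inv]
      have := X.Λ2
      linarith
    · exact (Real.log_le_log hpos (hle t)).trans (X.Λp k hk)
  · rw [(hderiv t).deriv, norm_div]
    have h1 : ‖a k * (circleMap 0 r t * I) + b k * deriv w t‖ ≤ 1 / 2 := by
      calc ‖a k * (circleMap 0 r t * I) + b k * deriv w t‖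
          ≤ ‖a k * (circleMap 0 r t * I)‖ + ‖b k * deriv w t‖ := norm_add_le _ _
        _ = ‖a k‖ * ‖circleMap 0 r t‖ + ‖b k‖ * ‖deriv w t‖ := by
            rw [norm_mul, norm_mul, norm_mul, Complex.norm_I, mul_one]
        _ ≤ ‖a k‖ * r + ‖b k‖ * r := add_le_add
            (mul_le_mul_of_nonneg_left (X.zle t) (norm_nonneg _))
            (mul_le_mul_of_nonneg_left (X.dw t) (norm_nonneg _))
        _ = (‖a k‖ + ‖b k‖) * r := by ring
        _ ≤ 1 / 2 := X.H.hab k hk
    rw [div_le_one (lt_of_lt_of_le (by norm_num) (hge t))]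
    exact h1.trans (hge t)

lemma wind_m {k : ι} (hk : k ∈ (Finset.univ.erase i).erase j) : wind (mloop a b p r w k) = 0 := by
  refine wind_near (X.bd_m hk).loop (p := p k) fun t => ?_
  have h1 : ‖mloop a b p r w k t - p k‖ ≤ 1 / 2 := X.H.dist_p hk (X.zle t) (X.wr t)
  have := X.H.hp k hk
  linarith

lemma isLoop_w : IsLoop w := by
  refine ⟨X.cd, X.per, fun t h0 => ?_⟩
  have := X.eq t
  rw [h0, mul_zero, zero_mul] at this
  exact zero_ne_one this

/-- the product of the other lines -/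
lemma isLoop_prodm : IsLoop (∏ k ∈ (Finset.univ.erase i).erase j, mloop a b p r w k) :=
  isLoop_prod _ _ fun _ hk => (X.bd_m hk).loop

/-- the number of other lines -/
lemma eq' : (fun _ => c * (δ⁻¹) ^ ((Finset.univ.erase i).erase j).card) * circleMap 0 r * w *
    ∏ k ∈ (Finset.univ.erase i).erase j, mloop a b p r w k = fun _ => (1 : ℂ) := by
  funext t
  have h1 := X.eq t
  rw [Finset.prod_mul_distrib, Finset.prod_const] at h1
  simp only [Pi.mul_apply, Finset.prod_apply]
  rw [← h1]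
  unfold mloop
  ring

/-- regulator with `w`, in terms of the others -/
lemma regInt_w {φ : ℝ → ℂ} (hφ : IsLoop φ) :
    regInt φ w = - (regInt φ (fun _ => c * (δ⁻¹) ^ ((Finset.univ.erase i).erase j).card) +
      regInt φ (circleMap 0 r) +
      ∑ k ∈ (Finset.univ.erase i).erase j, regInt φ (mloop a b p r w k)) := by
  have hcδ : c * (δ⁻¹) ^ ((Finset.univ.erase i).erase j).card ≠ 0 :=
    mul_ne_zero X.hc (pow_ne_zero _ (inv_ne_zero X.hδ))
  have h1 : regInt φ (fun _ => (1 : ℂ)) = 0 := regInt_one_right hφ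
  rw [← X.eq', regInt_mul_right (((IsLoop.const hcδ).mul X.bd_z.loop).mul X.isLoop_w)
    X.isLoop_prodm hφ, regInt_mul_right ((IsLoop.const hcδ).mul X.bd_z.loop) X.isLoop_w hφ,
    regInt_mul_right (IsLoop.const hcδ) X.bd_z.loop hφ,
    regInt_prod_right _ _ (fun k hk => (X.bd_m hk).loop) hφ] at h1
  linarith

/-- the number of remaining lines -/
lemma Λ0 : 0 ≤ Λ := (abs_nonneg _).trans X.Λr

/-- regulator of a bounded loop of winding number zero with `w` -/
lemma regInt_w_le {φ : ℝ → ℂ} {M : ℝ} (hφ : Bd φ M 1) (hw : wind φ = 0) :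
    |regInt φ w| ≤ 2 * Real.pi * (M + Λ) * (((Finset.univ.erase i).erase j).card + 1) := by
  have hpi := Real.pi_pos
  rw [X.regInt_w hφ.loop]
  have h0 : regInt φ (fun _ => c * (δ⁻¹) ^ ((Finset.univ.erase i).erase j).card) = 0 := by
    rw [regInt_antisymm, regInt_const_wind hφ.loop hw, neg_zero]
  rw [h0, zero_add, abs_neg]
  have h1 : |regInt φ (circleMap 0 r)| ≤ 2 * Real.pi * (M + Λ) := by
    have := hφ.regInt_le X.bd_z
    simpa using this
  have h2 : |∑ k ∈ (Finset.univ.erase i).erase j, regInt φ (mloop a b p r w k)| ≤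
      ((Finset.univ.erase i).erase j).card * (2 * Real.pi * (M + Λ)) := by
    refine (Finset.abs_sum_le_sum_abs _ _).trans ?_
    rw [← nsmul_eq_mul]
    refine Finset.sum_le_card_nsmul _ _ _ fun k hk => ?_
    have := hφ.regInt_le (X.bd_m hk)
    simpa using this
  refine (abs_add_le _ _).trans ?_
  linarith

/-- the main term -/
lemma regInt_zw {q : ℂ} (hq : q ≠ 0) (hΛq : |Real.log ‖q‖| ≤ Λ) :
    |regInt ((fun _ => q⁻¹) * circleMap 0 r) ((fun _ => q⁻¹) * w) -
      2 * Real.pi * Real.log ‖c‖| ≤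
      8 * Real.pi * Λ * (((Finset.univ.erase i).erase j).card + 1) := by
  have hpi := Real.pi_pos
  have hr := X.H.hr
  set n : ℕ := ((Finset.univ.erase i).erase j).card with hn
  have hΛ := X.Λ0
  have hΛq' : |Real.log ‖q⁻¹‖| ≤ Λ := by
    rw [norm_inv, Real.log_inv, abs_neg]
    exact hΛq
  set φ : ℝ → ℂ := (fun _ => q⁻¹) * circleMap 0 r with hφdef
  have hq' : q⁻¹ ≠ 0 := inv_ne_zero hq
  have hφ : Bd φ (Λ + Λ) (0 + 1) := (Bd.const hq' hΛq').mul X.bd_z
  have hwind : (∫ t in (0 : ℝ)..(2 * Real.pi), deriv φ t / φ t) = 2 * Real.pi * I := by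
    have : wind φ = 2 * Real.pi * I := by
      rw [hφdef, wind_mul (IsLoop.const hq') X.bd_z.loop, wind_const, zero_add, wind_z hr]
    exact this
  have him : (2 * Real.pi * I : ℂ).im = 2 * Real.pi := by simp
  rw [regInt_mul_right (IsLoop.const hq') X.isLoop_w hφ.loop, X.regInt_w hφ.loop,
    regInt_const_right hφ.loop, regInt_const_right hφ.loop, hwind, him]
  have h1 : |regInt φ (circleMap 0 r)| ≤ 2 * Real.pi * (3 * Λ) := by
    have := hφ.regInt_le X.bd_z
    refine this.trans (le_of_eq ?_)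
    ring
  have h2 : |∑ k ∈ (Finset.univ.erase i).erase j, regInt φ (mloop a b p r w k)| ≤
      n * (2 * Real.pi * (3 * Λ)) := by
    refine (Finset.abs_sum_le_sum_abs _ _).trans ?_
    rw [← nsmul_eq_mul]
    refine Finset.sum_le_card_nsmul _ _ _ fun k hk => ?_
    have := hφ.regInt_le (X.bd_m hk)
    refine this.trans (le_of_eq ?_)
    ring
  have hlog : Real.log ‖c * (δ⁻¹) ^ n‖ = Real.log ‖c‖ - n * Real.log ‖δ‖ := by
    rw [norm_mul, norm_pow, norm_inv, Real.log_mul (norm_ne_zero_iff.2 X.hc)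
      (pow_ne_zero _ (inv_ne_zero (norm_ne_zero_iff.2 X.hδ))), Real.log_pow, Real.log_inv]
    ring
  rw [← hn, hlog]
  have hδ := abs_le.1 X.Λδ
  have hq2 := abs_le.1 hΛq'
  have h1' := abs_le.1 h1
  have h2' := abs_le.1 h2
  have hn0 : (0 : ℝ) ≤ n := Nat.cast_nonneg _
  set A := regInt φ (circleMap 0 r) with hA
  set B := ∑ k ∈ (Finset.univ.erase i).erase j, regInt φ (mloop a b p r w k) with hB
  have e1 : |(n : ℝ) * Real.log ‖δ‖| ≤ n * Λ := by
    rw [abs_mul, abs_of_nonneg hn0]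
    exact mul_le_mul_of_nonneg_left X.Λδ hn0
  have e1' := abs_le.1 e1
  rw [abs_le]
  have hπΛ : 0 ≤ Real.pi * Λ := by positivity
  constructor
  · have g1 : -(2 * Real.pi * Λ) ≤ -(Real.log ‖q⁻¹‖ * (2 * Real.pi)) := by
      nlinarith [hq2.2]
    have g2 : -(2 * Real.pi * (n * Λ)) ≤ -(n * Real.log ‖δ‖ * (2 * Real.pi)) := by
      nlinarith [e1'.2]
    have : -(8 * Real.pi * Λ * (n + 1)) ≤ -(2 * Real.pi * Λ) - (2 * Real.pi * (n * Λ)) -
        2 * Real.pi * (3 * Λ) - n * (2 * Real.pi * (3 * Λ)) := by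
      nlinarith
    nlinarith [h1'.2, h2'.2]
  · have g1 : -(Real.log ‖q⁻¹‖ * (2 * Real.pi)) ≤ 2 * Real.pi * Λ := by
      nlinarith [hq2.1]
    have g2 : -(n * Real.log ‖δ‖ * (2 * Real.pi)) ≤ 2 * Real.pi * (n * Λ) := by
      nlinarith [e1'.1]
    have : (2 * Real.pi * Λ) + (2 * Real.pi * (n * Λ)) +
        2 * Real.pi * (3 * Λ) + n * (2 * Real.pi * (3 * Λ)) ≤ 8 * Real.pi * Λ * (n + 1) := by
      nlinarith
    nlinarith [h1'.1, h2'.1]

end Node

end node

end Pool.Agent.Helper11
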