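import Mathlib
import Pool.Agent.Helper11.ArrReg

/-! Estimates of the regulator integrals on the loops around the nodes: all pairs. -/

namespace Pool.Agent.Helper11

open Complex

section node

variable {ι : Type*} [Fintype ι] [DecidableEq ι] {i j : ι} {a b p : ι → ℂ} {r : ℝ} {w : ℝ → ℂ}
  {c δ : ℂ} {Λ : ℝ}

/-- the lines along the loop around the node `(i, j)` -/
noncomputable def Lloop (i j : ι) (a b p : ι → ℂ) (r : ℝ) (w : ℝ → ℂ) (δ : ℂ) (k : ι) : ℝ → ℂ :=
  if k = i then circleMap 0 r else if k = j then w else (fun _ => δ⁻¹) * mloop a b p r w k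

/-- the entry -/
noncomputable def Ent (i j : ι) (a b p : ι → ℂ) (r : ℝ) (w : ℝ → ℂ) (δ : ℂ) (k l : ι) (q : ℂ) : ℝ :=
  regInt ((fun _ => q⁻¹) * Lloop i j a b p r w δ k) ((fun _ => q⁻¹) * Lloop i j a b p r w δ l)

/-- sign -/
noncomputable def sg (i j k l : ι) : ℝ :=
  (if k = i ∧ l = j then 1 else 0) - (if k = j ∧ l = i then 1 else 0)

namespace Node

variable (X : Node i j a b p r w c δ Λ)
include X

omit X [Fintype ι] in
lemma L_i : Lloop i j a b p r w δ i = circleMap 0 r := by
  unfold Lloop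
  rw [if_pos rfl]

lemma L_j : Lloop i j a b p r w δ j = w := by
  unfold Lloop
  rw [if_neg X.hij.symm, if_pos rfl]

lemma L_k {k : ι} (hk : k ∈ (Finset.univ.erase i).erase j) :
    Lloop i j a b p r w δ k = (fun _ => δ⁻¹) * mloop a b p r w k := by
  unfold Lloop
  rw [if_neg, if_neg]
  · exact Finset.ne_of_mem_erase hk
  · exact Finset.ne_of_mem_erase (Finset.mem_of_mem_erase hk)

lemma isLoop_L (k : ι) : IsLoop (Lloop i j a b p r w δ k) := by
  by_cases h1 : k = i
  · rw [h1, L_i]
    exact X.bd_z.loop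
  · by_cases h2 : k = j
    · rw [h2, X.L_j]
      exact X.isLoop_w
    · have hk : k ∈ (Finset.univ.erase i).erase j := by simp [h1, h2]
      rw [X.L_k hk]
      exact (IsLoop.const (inv_ne_zero X.hδ)).mul (X.bd_m hk).loop

lemma bd_qm {k : ι} (hk : k ∈ (Finset.univ.erase i).erase j) {q : ℂ} (hq : q ≠ 0)
    (hΛq : |Real.log ‖q‖| ≤ Λ) :
    Bd ((fun _ => q⁻¹) * Lloop i j a b p r w δ k) (3 * Λ) 1 ∧
      wind ((fun _ => q⁻¹) * Lloop i j a b p r w δ k) = 0 := by
  have hΛq' : |Real.log ‖q⁻¹‖| ≤ Λ := by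
    rw [norm_inv, Real.log_inv, abs_neg]
    exact hΛq
  have hΛδ' : |Real.log ‖δ⁻¹‖| ≤ Λ := by
    rw [norm_inv, Real.log_inv, abs_neg]
    exact X.Λδ
  have b1 := Bd.const (inv_ne_zero hq) hΛq'
  have b2 := Bd.const (inv_ne_zero X.hδ) hΛδ'
  have b3 := X.bd_m hk
  rw [X.L_k hk]
  constructor
  · exact (b1.mul (b2.mul b3)).mono (by linarith) (by norm_num)
  · rw [wind_mul b1.loop (b2.loop.mul b3.loop), wind_mul b2.loop b3.loop, wind_const, wind_const,
      X.wind_m hk, add_zero, add_zero]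

lemma bd_qz {q : ℂ} (hq : q ≠ 0) (hΛq : |Real.log ‖q‖| ≤ Λ) :
    Bd ((fun _ => q⁻¹) * Lloop i j a b p r w δ i) (2 * Λ) 1 := by
  have hΛq' : |Real.log ‖q⁻¹‖| ≤ Λ := by
    rw [norm_inv, Real.log_inv, abs_neg]
    exact hΛq
  have b1 := Bd.const (inv_ne_zero hq) hΛq'
  rw [L_i]
  exact (b1.mul X.bd_z).mono (by linarith) (by norm_num)

lemma ent_antisymm (k l : ι) (q : ℂ) :
    Ent i j a b p r w δ k l q = - Ent i j a b p r w δ l k q := by
  unfold Ent
  exact regInt_antisymm _ _

omit X [Fintype ι] in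
lemma sg_antisymm (k l : ι) : sg i j k l = - sg i j l k := by
  unfold sg
  rw [neg_sub]
  congr 1 <;> simp only [and_comm]

/-- the estimate for half of the pairs -/
lemma ent_aux {k l : ι} (hkl : k ≠ l) {q : ℂ} (hq : q ≠ 0) (hΛq : |Real.log ‖q‖| ≤ Λ)
    (hc : (k = i) ∨ (k = j ∧ l ≠ i) ∨ (k ∈ (Finset.univ.erase i).erase j ∧
      l ∈ (Finset.univ.erase i).erase j)) :
    |Ent i j a b p r w δ k l q - 2 * Real.pi * Real.log ‖c‖ * sg i j k l| ≤
      12 * Real.pi * Λ + 8 * Real.pi * Λ * (((Finset.univ.erase i).erase j).card + 1) *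
        ((if k = j then 1 else 0) + (if l = j then 1 else 0)) := by
  have hpi := Real.pi_pos
  have hΛ := X.Λ0
  have hn0 : (0 : ℝ) ≤ (((Finset.univ.erase i).erase j).card : ℝ) := Nat.cast_nonneg _
  have hij := X.hij
  have hΛq' : |Real.log ‖q⁻¹‖| ≤ Λ := by
    rw [norm_inv, Real.log_inv, abs_neg]
    exact hΛq
  have hPΛ : 0 ≤ Real.pi * Λ := by positivity
  rcases hc with rfl | ⟨rfl, hl⟩ | ⟨hk, hl⟩
  · -- k = i
    by_cases hl : l = j
    · rw [hl]
      have h1 := X.regInt_zw hq hΛq
      have e : sg k j k j = 1 := by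
        unfold sg
        rw [if_pos ⟨rfl, rfl⟩, if_neg (fun h => hij h.1), sub_zero]
      unfold Ent
      rw [L_i, X.L_j, e, mul_one, if_neg hij, if_pos rfl]
      refine h1.trans ?_
      nlinarith
    · have hl' : l ∈ (Finset.univ.erase k).erase j := by
        simp [hl, hkl.symm]
      have e : sg k j k l = 0 := by
        unfold sg
        rw [if_neg (fun h => hl h.2), if_neg (fun h => hij h.1), sub_zero]
      have h1 := (X.bd_qz hq hΛq).regInt_le (X.bd_qm hl' hq hΛq).1
      unfold Ent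
      rw [e, mul_zero, sub_zero, if_neg hij, if_neg hl]
      refine h1.trans ?_
      nlinarith
  · -- k = j
    have hl' : l ∈ (Finset.univ.erase i).erase k := by
      simp [hl, hkl.symm]
    have e : sg i k k l = 0 := by
      unfold sg
      rw [if_neg (fun h => hij.symm h.1), if_neg (fun h => hl h.2), sub_zero]
    obtain ⟨h1, h2⟩ := X.bd_qm hl' hq hΛq
    have h3 := X.regInt_w_le h1 h2
    unfold Ent
    rw [e, mul_zero, sub_zero, if_pos rfl, if_neg hkl.symm, X.L_j,
      regInt_mul_left (IsLoop.const (inv_ne_zero hq)) X.isLoop_w h1.loop,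
      regInt_const_wind h1.loop h2, zero_add, regInt_antisymm, abs_neg]
    refine h3.trans ?_
    nlinarith
  · -- both others
    have hki : k ≠ i := Finset.ne_of_mem_erase (Finset.mem_of_mem_erase hk)
    have hkj : k ≠ j := Finset.ne_of_mem_erase hk
    have hlj : l ≠ j := Finset.ne_of_mem_erase hl
    have e : sg i j k l = 0 := by
      unfold sg
      rw [if_neg (fun h => hki h.1), if_neg (fun h => hkj h.1), sub_zero]
    have h1 := (X.bd_qm hk hq hΛq).1.regInt_le (X.bd_qm hl hq hΛq).1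
    unfold Ent
    rw [e, mul_zero, sub_zero, if_neg hkj, if_neg hlj]
    refine h1.trans ?_
    nlinarith

lemma ent_le {k l : ι} (hkl : k ≠ l) {q : ℂ} (hq : q ≠ 0) (hΛq : |Real.log ‖q‖| ≤ Λ) :
    |Ent i j a b p r w δ k l q - 2 * Real.pi * Real.log ‖c‖ * sg i j k l| ≤
      12 * Real.pi * Λ + 8 * Real.pi * Λ * (((Finset.univ.erase i).erase j).card + 1) *
        ((if k = j then 1 else 0) + (if l = j then 1 else 0)) := by
  by_cases hc : (k = i) ∨ (k = j ∧ l ≠ i) ∨ (k ∈ (Finset.univ.erase i).erase j ∧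
      l ∈ (Finset.univ.erase i).erase j)
  · exact X.ent_aux hkl hq hΛq hc
  · have hc' : (l = i) ∨ (l = j ∧ k ≠ i) ∨ (l ∈ (Finset.univ.erase i).erase j ∧
        k ∈ (Finset.univ.erase i).erase j) := by
      simp only [Finset.mem_erase, Finset.mem_univ, and_true] at hc ⊢
      tauto
    have h1 := X.ent_aux hkl.symm hq hΛq hc'
    rw [X.ent_antisymm k l, sg_antisymm (i := i) (j := j) k l,
      show -Ent i j a b p r w δ l k q - 2 * Real.pi * Real.log ‖c‖ * -sg i j l k =
        -(Ent i j a b p r w δ l k q - 2 * Real.pi * Real.log ‖c‖ * sg i j l k) by ring,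
      abs_neg]
    refine h1.trans (le_of_eq ?_)
    ring

/-- the sum over all pairs -/
theorem sum_le {x : ι → ι → ℝ} (hx : ∀ k l, x k l = - x l k) {M : ℝ} (hM : ∀ k l, |x k l| ≤ M)
    {q : ι → ι → ℂ} (hq : ∀ k l, x k l ≠ 0 → q k l ≠ 0 ∧ |Real.log ‖q k l‖| ≤ Λ) :
    |∑ k, ∑ l, x k l * Ent i j a b p r w δ k l (q k l) -
      4 * Real.pi * Real.log ‖c‖ * x i j| ≤ 28 * Real.pi * Λ * (Fintype.card ι) ^ 2 * M := by
  have hpi := Real.pi_pos
  have hΛ := X.Λ0
  have hM0 : 0 ≤ M := (abs_nonneg _).trans (hM i j)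
  set N : ℝ := (Fintype.card ι : ℝ) with hN
  set n : ℝ := (((Finset.univ.erase i).erase j).card : ℝ) with hn
  have hn0 : 0 ≤ n := Nat.cast_nonneg _
  have hnN : n + 1 ≤ N := by
    have h1 : ((Finset.univ.erase i).erase j).card < (Finset.univ.erase i).card :=
      Finset.card_erase_lt_of_mem (by simp [X.hij.symm])
    have h2 : (Finset.univ.erase i).card < Fintype.card ι := by
      rw [← Finset.card_univ]
      exact Finset.card_erase_lt_of_mem (Finset.mem_univ i)
    have h3 : ((Finset.univ.erase i).erase j).card + 1 ≤ Fintype.card ι := by omega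
    rw [hn, hN]
    exact_mod_cast h3
  have hcardn : (((Finset.univ.erase i).erase j).card : ℝ) = n := hn.symm
  have hcardN : (Fintype.card ι : ℝ) = N := hN.symm
  clear_value n N
  -- the main term
  have hmain : ∑ k, ∑ l, x k l * (2 * Real.pi * Real.log ‖c‖ * sg i j k l) =
      4 * Real.pi * Real.log ‖c‖ * x i j := by
    have e1 : ∀ k l, x k l * (2 * Real.pi * Real.log ‖c‖ * sg i j k l) =
        2 * Real.pi * Real.log ‖c‖ * ((if k = i ∧ l = j then x k l else 0) -
          (if k = j ∧ l = i then x k l else 0)) := by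
      intro k l
      unfold sg
      by_cases h1 : k = i ∧ l = j
      · by_cases h2 : k = j ∧ l = i
        · simp only [if_pos h1, if_pos h2]
          ring
        · simp only [if_pos h1, if_neg h2]
          ring
      · by_cases h2 : k = j ∧ l = i
        · simp only [if_neg h1, if_pos h2]
          ring
        · simp only [if_neg h1, if_neg h2]
          ring
    simp only [e1, ite_and, ← Finset.mul_sum, Finset.sum_sub_distrib, Finset.sum_ite_eq', Finset.mem_univ,
      if_true, Finset.sum_ite_irrel, Finset.sum_const_zero]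
    rw [hx j i]
    ring
  rw [← hmain, ← Finset.sum_sub_distrib]
  simp only [← Finset.sum_sub_distrib, ← mul_sub]
  have hterm : ∀ k l, |x k l * (Ent i j a b p r w δ k l (q k l) -
      2 * Real.pi * Real.log ‖c‖ * sg i j k l)| ≤ M * (12 * Real.pi * Λ +
        8 * Real.pi * Λ * (n + 1) * ((if k = j then 1 else 0) + (if l = j then 1 else 0))) := by
    intro k l
    have h0 : 0 ≤ 12 * Real.pi * Λ +
        8 * Real.pi * Λ * (n + 1) * ((if k = j then 1 else 0) + (if l = j then 1 else 0)) := by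
      have hite : ∀ m : ι, (0 : ℝ) ≤ (if m = j then 1 else 0) := by
        intro m
        by_cases h : m = j
        · rw [if_pos h]
          exact zero_le_one
        · rw [if_neg h]
      have h1 := hite k
      have h2 := hite l
      have h3 : (0 : ℝ) ≤ (if k = j then 1 else 0) + (if l = j then 1 else 0) := add_nonneg h1 h2
      have h4 : 0 ≤ 8 * Real.pi * Λ * (n + 1) := by positivity
      have h5 : 0 ≤ 12 * Real.pi * Λ := by positivity
      exact add_nonneg h5 (mul_nonneg h4 h3)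
    by_cases hxkl : x k l = 0
    · rw [hxkl, zero_mul, abs_zero]
      exact mul_nonneg hM0 h0
    · have hkl : k ≠ l := by
        rintro rfl
        have := hx k k
        apply hxkl
        linarith
      obtain ⟨hq1, hq2⟩ := hq k l hxkl
      rw [abs_mul]
      have h6 := X.ent_le hkl hq1 hq2
      rw [hcardn] at h6
      exact mul_le_mul (hM k l) h6 (abs_nonneg _) hM0
  have hsum : ∑ k, ∑ l, M * (12 * Real.pi * Λ +
        8 * Real.pi * Λ * (n + 1) * ((if k = j then (1 : ℝ) else 0) + (if l = j then 1 else 0))) =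
      M * (12 * Real.pi * Λ * N ^ 2 + 16 * Real.pi * Λ * (n + 1) * N) := by
    simp only [← Finset.mul_sum, Finset.sum_add_distrib, Finset.sum_const, Finset.card_univ,
      Finset.sum_ite_eq', Finset.mem_univ, if_true, nsmul_eq_mul, hcardN, mul_one,
      mul_ite, mul_zero, mul_add]
    ring
  refine (Finset.abs_sum_le_sum_abs _ _).trans ?_
  have h1 : ∑ k, |∑ l, x k l * (Ent i j a b p r w δ k l (q k l) -
      2 * Real.pi * Real.log ‖c‖ * sg i j k l)| ≤ ∑ k, ∑ l, M * (12 * Real.pi * Λ +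
        8 * Real.pi * Λ * (n + 1) * ((if k = j then (1 : ℝ) else 0) + (if l = j then 1 else 0))) := by
    refine Finset.sum_le_sum fun k _ => (Finset.abs_sum_le_sum_abs _ _).trans ?_
    exact Finset.sum_le_sum fun l _ => hterm k l
  refine h1.trans ?_
  rw [hsum]
  have hN0 : 0 ≤ N := by linarith
  have h2 : 16 * Real.pi * Λ * (n + 1) * N ≤ 16 * Real.pi * Λ * N * N := by
    refine mul_le_mul_of_nonneg_right ?_ hN0
    exact mul_le_mul_of_nonneg_left hnN (by positivity)
  nlinarith

end Node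

end node

end Pool.Agent.Helper11
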