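import Mathlib
import Pool.Agent.Helper11.Irr2
import Pool.Agent.Helper11.Hom2
import Pool.Agent.Helper11.ArrReg2
import Pool.Agent.Helper11.LinAlg

/-! The loops around the nodes of a line arrangement, as homomorphisms. -/

namespace Pool.Agent.Helper11

open Polynomial

section

variable {N : ℕ} (α β γ : Fin N → ℤ)

/-- determinant of two directions -/
def br (i j : Fin N) : ℤ := α i * β j - α j * β i

/-- the constant term of the `k`-th line in the coordinates given by the lines `i`, `j` -/
def pc (i j k : Fin N) : ℤ := br α β i j * γ k - br α β k j * γ i - br α β i k * γ j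

variable {α β γ}

lemma br_self (i : Fin N) : br α β i i = 0 := by
  unfold br
  ring

lemma br_swap (i j : Fin N) : br α β i j = - br α β j i := by
  unfold br
  ring

lemma pc_left (i j : Fin N) : pc α β γ i j i = 0 := by
  unfold pc br
  ring

lemma pc_right (i j : Fin N) : pc α β γ i j j = 0 := by
  unfold pc br
  ring

/-- the linear relation between three lines -/
lemma line_rel {R : Type*} [CommRing R] (x y : R) (i j k : Fin N) :
    (br α β i j : R) * (α k * x + β k * y + γ k) =
      (br α β k j : R) * (α i * x + β i * y + γ i) +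
      (br α β i k : R) * (α j * x + β j * y + γ j) + (pc α β γ i j k : R) := by
  unfold pc br
  push_cast
  ring

section field

variable {K : Type*} [Field K] [CharZero K] {x y : K} {c : ℤ}

/-- the equation in terms of the polynomial -/
lemma evp_curve {L : Type*} [Field L] [Algebra ℚ L] [CharZero L] {i j : Fin N}
    (hij : br α β i j ≠ 0) (z w : L) :
    evp z w (C (C (c : ℚ)) * ∏ k, lin (fun k => (br α β k j : ℚ) / br α β i j)
      (fun k => (br α β i k : ℚ) / br α β i j) (fun k => (pc α β γ i j k : ℚ) / br α β i j) k - 1) =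
    (c : L) * ∏ k, ((br α β i j : L)⁻¹ * ((br α β k j : L) * z + (br α β i k : L) * w +
      (pc α β γ i j k : L))) - 1 := by
  rw [map_sub, map_mul, map_prod, map_one, evp_C, aeval_C]
  have hd : (br α β i j : L) ≠ 0 := Int.cast_ne_zero.2 hij
  congr 2
  · simp
  · refine Finset.prod_congr rfl fun k _ => ?_
    rw [evp_lin]
    simp only [map_div₀, map_intCast]
    field_simp

/-- irreducibility in the coordinates of a node -/
lemma irr_node (hprim : ∀ i, IsCoprime (α i) (β i))
    (hgp : ∀ i j k, k ≠ i → k ≠ j → br α β i j ≠ 0 → pc α β γ i j k ≠ 0)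
    {i j : Fin N} (hij : br α β i j ≠ 0) (hc : c ≠ 0) :
    Irreducible (C (C (c : ℚ)) * ∏ k, lin (fun k => (br α β k j : ℚ) / br α β i j)
      (fun k => (br α β i k : ℚ) / br α β i j) (fun k => (pc α β γ i j k : ℚ) / br α β i j) k - 1) ∧
    (C (C (c : ℚ)) * ∏ k, lin (fun k => (br α β k j : ℚ) / br α β i j)
      (fun k => (br α β i k : ℚ) / br α β i j)
      (fun k => (pc α β γ i j k : ℚ) / br α β i j) k - 1).natDegree ≠ 0 := by
  have hd : (br α β i j : ℚ) ≠ 0 := Int.cast_ne_zero.2 hij
  -- every line is non-parallel to one of the two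
  have hnp : ∀ k, br α β k j ≠ 0 ∨ br α β i k ≠ 0 := by
    intro k
    by_contra hcon
    push Not at hcon
    obtain ⟨h1, h2⟩ := hcon
    obtain ⟨a, b, hab⟩ := hprim k
    unfold br at h1 h2 hij
    have e1 : (α i * β j - α j * β i) * α k = 0 := by
      linear_combination (α i) * h1 + (α j) * h2
    have e2 : (α i * β j - α j * β i) * β k = 0 := by
      linear_combination (β i) * h1 + (β j) * h2
    have h3 := (mul_eq_zero.1 e1).resolve_left hij
    have h4 := (mul_eq_zero.1 e2).resolve_left hij
    rw [h3, h4] at hab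
    simp at hab
  refine irr_arr ?_ ?_ (i := i) (j := j) ?_ ?_ (Int.cast_ne_zero.2 hc)
  · intro k
    rcases hnp k with h | h
    · left
      exact div_ne_zero (Int.cast_ne_zero.2 h) hd
    · right
      exact div_ne_zero (Int.cast_ne_zero.2 h) hd
  · rintro k l hkl ⟨h1, h2, h3⟩
    rw [div_mul_div_comm, div_mul_div_comm, div_left_inj' (mul_ne_zero hd hd)] at h1 h2 h3
    have h1' : br α β k j * br α β i l = br α β l j * br α β i k := by exact_mod_cast h1
    have h2' : br α β k j * pc α β γ i j l = br α β l j * pc α β γ i j k := by exact_mod_cast h2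
    have h3' : br α β i k * pc α β γ i j l = br α β i l * pc α β γ i j k := by exact_mod_cast h3
    -- parallel
    have hpar : br α β k l = 0 := by
      apply mul_left_cancel₀ hij
      unfold br at h1' ⊢
      linear_combination h1'
    rcases hnp k with h | h
    · have hl : l ≠ j := by
        rintro rfl
        exact h hpar
      apply hgp k j l hkl.symm hl h
      apply mul_left_cancel₀ hij
      unfold pc at h2' ⊢
      rw [hpar]
      linear_combination h2' + (γ j) * h1'
    · have hl : l ≠ i := by
        rintro rfl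
        rw [br_swap] at h
        apply h
        rw [hpar, neg_zero]
      have h' : br α β k i ≠ 0 := by
        rw [br_swap]
        exact neg_ne_zero.2 h
      apply hgp k i l hkl.symm hl h'
      apply mul_left_cancel₀ hij
      unfold pc at h3' ⊢
      rw [hpar, br_swap k i, br_swap l i]
      linear_combination (-1 : ℤ) * h3' + (γ i) * h1'
  · rw [br_self, br_self]
    simp only [Int.cast_zero, zero_div, mul_zero, zero_mul, sub_zero]
    rw [div_self hd, mul_one]
    exact one_ne_zero
  · rw [div_self hd]
    exact one_ne_zero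

/-- generators in terms of two non-parallel lines -/
lemma adjoin_node (hxy : IntermediateField.adjoin ℚ {x, y} = ⊤) {i j : Fin N}
    (hij : br α β i j ≠ 0) :
    IntermediateField.adjoin ℚ {(α i * x + β i * y + γ i : K), (α j * x + β j * y + γ j : K)} =
      ⊤ := by
  rw [eq_top_iff, ← hxy, IntermediateField.adjoin_le_iff]
  have hd : (br α β i j : K) ≠ 0 := Int.cast_ne_zero.2 hij
  set E := IntermediateField.adjoin ℚ {(α i * x + β i * y + γ i : K),
    (α j * x + β j * y + γ j : K)} with hE
  have h1 : (α i * x + β i * y + γ i : K) ∈ E :=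
    IntermediateField.subset_adjoin _ _ (Set.mem_insert _ _)
  have h2 : (α j * x + β j * y + γ j : K) ∈ E :=
    IntermediateField.subset_adjoin _ _ (Set.mem_insert_of_mem _ (Set.mem_singleton _))
  have hint : ∀ n : ℤ, (n : K) ∈ E := fun n => intCast_mem E n
  have hx : x = ((β j : K) * ((α i * x + β i * y + γ i) - γ i) -
      β i * ((α j * x + β j * y + γ j) - γ j)) / (br α β i j : K) := by
    rw [eq_div_iff hd]
    unfold br
    push_cast
    ring
  have hy : y = ((α i : K) * ((α j * x + β j * y + γ j) - γ j) -
      α j * ((α i * x + β i * y + γ i) - γ i)) / (br α β i j : K) := by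
    rw [eq_div_iff hd]
    unfold br
    push_cast
    ring
  intro z hz
  rcases hz with rfl | hz
  · rw [hx]
    exact E.div_mem (E.sub_mem (E.mul_mem (hint _) (E.sub_mem h1 (hint _)))
      (E.mul_mem (hint _) (E.sub_mem h2 (hint _)))) (hint _)
  · rw [Set.mem_singleton_iff] at hz
    rw [hz, hy]
    exact E.div_mem (E.sub_mem (E.mul_mem (hint _) (E.sub_mem h2 (hint _)))
      (E.mul_mem (hint _) (E.sub_mem h1 (hint _)))) (hint _)

/-- the first coordinate is transcendental -/
lemma transc_node (hK : ¬ Algebra.IsAlgebraic ℚ K)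
    (hxy : IntermediateField.adjoin ℚ {x, y} = ⊤)
    (hcurve : (c : K) * ∏ k, (α k * x + β k * y + γ k : K) = 1) {i j : Fin N}
    (hij : br α β i j ≠ 0) : Transcendental ℚ (α i * x + β i * y + γ i : K) := by
  intro halg
  apply hK
  have hd : (br α β i j : K) ≠ 0 := Int.cast_ne_zero.2 hij
  set X₁ : K := α i * x + β i * y + γ i with hX₁
  set X₂ : K := α j * x + β j * y + γ j with hX₂
  let A := algebraicClosure ℚ K
  have : Algebra.IsAlgebraic ℚ A := algebraicClosure.isAlgebraic ℚ K
  have hX₁A : X₁ ∈ A := mem_algebraicClosure_iff.2 halg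
  have hintA : ∀ n : ℤ, (n : K) ∈ A := fun n => intCast_mem A n
  -- polynomial over `A` killing `X₂`
  let q : A[X] := C ⟨(c : K), hintA c⟩ * ∏ k, (C ⟨(br α β i j : K)⁻¹, A.inv_mem (hintA _)⟩ *
    (C ⟨(br α β k j : K) * X₁ + pc α β γ i j k, A.add_mem (A.mul_mem (hintA _) hX₁A) (hintA _)⟩ +
      C ⟨(br α β i k : K), hintA _⟩ * X)) - 1
  have hqev : ∀ v : K, aeval v q = (c : K) * ∏ k, ((br α β i j : K)⁻¹ *
      ((br α β k j : K) * X₁ + (br α β i k : K) * v + (pc α β γ i j k : K))) - 1 := by
    intro v
    simp only [q, map_sub, map_mul, map_prod, map_add, map_one, aeval_C, aeval_X]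
    congr 2
    refine Finset.prod_congr rfl fun k _ => ?_
    have e1 : ∀ (u : K) (hu : u ∈ A), algebraMap A K ⟨u, hu⟩ = u := fun u hu => rfl
    simp only [e1]
    ring
  have hq0 : q ≠ 0 := by
    intro h0
    have h1 := hqev 0
    rw [h0, map_zero, Finset.prod_eq_zero (Finset.mem_univ j), mul_zero, zero_sub] at h1
    · exact neg_ne_zero.2 one_ne_zero h1.symm
    · rw [br_self, pc_right]
      simp
  have hX₂alg : IsAlgebraic A X₂ := by
    refine ⟨q, hq0, ?_⟩
    rw [hqev]
    have h1 : ∀ k, (br α β i j : K)⁻¹ *
      ((br α β k j : K) * X₁ + (br α β i k : K) * X₂ + (pc α β γ i j k : K)) =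
        α k * x + β k * y + γ k := by
      intro k
      have := line_rel (α := α) (β := β) (γ := γ) x y i j k
      rw [hX₁, hX₂, ← this, inv_mul_cancel_left₀ hd]
    simp only [h1]
    rw [hcurve, sub_self]
  have hX₂A : X₂ ∈ A := mem_algebraicClosure_iff.2 (hX₂alg.restrictScalars ℚ)
  have htop : (⊤ : IntermediateField ℚ K) ≤ A := by
    rw [← adjoin_node (γ := γ) hxy hij, IntermediateField.adjoin_le_iff]
    intro z hz
    rcases hz with rfl | hz
    · exact hX₁A
    · rw [Set.mem_singleton_iff] at hz
      rw [hz]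
      exact hX₂A
  refine ⟨fun z => ?_⟩
  exact mem_algebraicClosure_iff.1 (htop (IntermediateField.mem_top (x := z)))

end field

end

end Pool.Agent.Helper11
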