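import Mathlib
import Pool.Agent.Helper11.ArrMain1

/-! The loops around the nodes of a line arrangement, as homomorphisms. -/

namespace Pool.Agent.Helper11

open Polynomial

section

variable {N : ℕ} {α β γ : Fin N → ℤ} {H : ℤ}

lemma one_le_H (hprim : ∀ i, IsCoprime (α i) (β i))
    (hH : ∀ i, |α i| ≤ H ∧ |β i| ≤ H ∧ |γ i| ≤ H) (i : Fin N) : 1 ≤ H := by
  obtain ⟨a, b, hab⟩ := hprim i
  obtain ⟨h1, h2, -⟩ := hH i
  by_contra hcon
  have h0 : H ≤ 0 := by omega
  have ha : α i = 0 := abs_eq_zero.1 (le_antisymm (h1.trans h0) (abs_nonneg _))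
  have hb : β i = 0 := abs_eq_zero.1 (le_antisymm (h2.trans h0) (abs_nonneg _))
  rw [ha, hb] at hab
  simp at hab

lemma abs_br_le (hH : ∀ i, |α i| ≤ H ∧ |β i| ≤ H ∧ |γ i| ≤ H) (i j : Fin N) :
    |(br α β i j : ℝ)| ≤ 2 * (H : ℝ) ^ 2 := by
  have hb : |br α β i j| ≤ 2 * H ^ 2 := by
    unfold br
    obtain ⟨h1, h2, -⟩ := hH i
    obtain ⟨h3, h4, -⟩ := hH j
    have e1 : |α i * β j| ≤ H * H := by
      rw [abs_mul]
      exact mul_le_mul h1 h4 (abs_nonneg _) ((abs_nonneg _).trans h1)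
    have e2 : |α j * β i| ≤ H * H := by
      rw [abs_mul]
      exact mul_le_mul h3 h2 (abs_nonneg _) ((abs_nonneg _).trans h1)
    calc |α i * β j - α j * β i| ≤ |α i * β j| + |α j * β i| := abs_sub _ _
      _ ≤ H * H + H * H := add_le_add e1 e2
      _ = 2 * H ^ 2 := by ring
  exact_mod_cast hb

lemma abs_pc_le (hH : ∀ i, |α i| ≤ H ∧ |β i| ≤ H ∧ |γ i| ≤ H) (i j k : Fin N) :
    |(pc α β γ i j k : ℝ)| ≤ 6 * (H : ℝ) ^ 3 := by
  have hg : ∀ i, |(γ i : ℝ)| ≤ H := fun i => by exact_mod_cast (hH i).2.2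
  have h0 : (0 : ℝ) ≤ H := (abs_nonneg _).trans (hg i)
  have h1 := abs_br_le hH i j
  have h2 := abs_br_le hH k j
  have h3 := abs_br_le hH i k
  unfold pc
  push_cast
  have e1 : |(br α β i j : ℝ) * γ k| ≤ 2 * (H : ℝ) ^ 2 * H := by
    rw [abs_mul]
    exact mul_le_mul h1 (hg k) (abs_nonneg _) (by positivity)
  have e2 : |(br α β k j : ℝ) * γ i| ≤ 2 * (H : ℝ) ^ 2 * H := by
    rw [abs_mul]
    exact mul_le_mul h2 (hg i) (abs_nonneg _) (by positivity)
  have e3 : |(br α β i k : ℝ) * γ j| ≤ 2 * (H : ℝ) ^ 2 * H := by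
    rw [abs_mul]
    exact mul_le_mul h3 (hg j) (abs_nonneg _) (by positivity)
  calc |(br α β i j : ℝ) * γ k - br α β k j * γ i - br α β i k * γ j|
      ≤ |(br α β i j : ℝ) * γ k| + |(br α β k j : ℝ) * γ i| + |(br α β i k : ℝ) * γ j| := by
        refine (abs_sub _ _).trans ?_
        exact add_le_add (abs_sub _ _) le_rfl
    _ ≤ 6 * (H : ℝ) ^ 3 := by
        nlinarith

lemma log_br_le (hH1 : 1 ≤ H) (hH : ∀ i, |α i| ≤ H ∧ |β i| ≤ H ∧ |γ i| ≤ H) {i j : Fin N}
    (hij : br α β i j ≠ 0) :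
    |Real.log ‖(br α β i j : ℂ)‖| ≤ Real.log (16 * (H : ℝ) ^ 3) := by
  have h1 : (1 : ℝ) ≤ H := by exact_mod_cast hH1
  have h2 := abs_br_le hH i j
  have h3 : (1 : ℝ) ≤ |(br α β i j : ℝ)| := by
    have := Int.one_le_abs hij
    exact_mod_cast this
  rw [Complex.norm_intCast, abs_of_nonneg (Real.log_nonneg h3)]
  refine Real.log_le_log (by linarith) (h2.trans ?_)
  have h4 : (H : ℝ) ^ 2 ≤ (H : ℝ) ^ 3 := pow_le_pow_right₀ h1 (by norm_num)
  have h5 : 0 ≤ (H : ℝ) ^ 3 := by positivity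
  linarith

variable {K : Type*} [Field K] [CharZero K] {x y : K} {c : ℤ}

/-- the size of the constant, in the form needed for the existence of the loops -/
lemma size_ok {N n : ℕ} (hn : n + 2 = N) {h C d r : ℝ} (h1 : 1 ≤ h)
    (hC : (16 * h ^ 3) ^ (8 * N ^ 2) ≤ C) (hd1 : 1 ≤ d) (hd2 : d ≤ 2 * h ^ 2)
    (hr : 1 / (16 * h ^ 2) ≤ r) :
    ((n : ℝ) + 1) * 2 ^ (n + 2) ≤ C * (d⁻¹) ^ n * r ^ 2 := by
  have h0 : 0 < h := by linarith
  have hr0 : 0 < r := lt_of_lt_of_le (by positivity) hr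
  have hn1 : (n : ℝ) + 1 ≤ 2 ^ n := by
    have := Nat.lt_two_pow_self (n := n)
    exact_mod_cast this
  have key : ((n : ℝ) + 1) * 2 ^ (n + 2) * ((2 * h ^ 2) ^ n * (256 * h ^ 4)) ≤ C := by
    have s1 : ((n : ℝ) + 1) * 2 ^ (n + 2) * ((2 * h ^ 2) ^ n * (256 * h ^ 4)) ≤
        2 ^ n * 2 ^ (n + 2) * ((2 * h ^ 2) ^ n * (256 * h ^ 4)) := by
      refine mul_le_mul_of_nonneg_right ?_ (by positivity)
      exact mul_le_mul_of_nonneg_right hn1 (by positivity)
    have s2 : (2 : ℝ) ^ n * 2 ^ (n + 2) * ((2 * h ^ 2) ^ n * (256 * h ^ 4)) =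
        2 ^ (3 * n + 10) * h ^ (2 * n + 4) := by
      rw [mul_pow, ← pow_mul, show (256 : ℝ) = 2 ^ 8 by norm_num]
      ring
    have s3 : (2 : ℝ) ^ (3 * n + 10) * h ^ (2 * n + 4) ≤ 2 ^ (8 * n + 16) * h ^ (6 * n + 12) := by
      refine mul_le_mul ?_ ?_ (by positivity) (by positivity)
      · exact pow_le_pow_right₀ (by norm_num) (by omega)
      · exact pow_le_pow_right₀ h1 (by omega)
    have s4 : (2 : ℝ) ^ (8 * n + 16) * h ^ (6 * n + 12) = (16 * h ^ 3) ^ (2 * N) := by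
      rw [← hn, mul_pow, ← pow_mul, show (16 : ℝ) = 2 ^ 4 by norm_num, ← pow_mul]
      congr 2 <;> ring
    have s5 : (16 * h ^ 3) ^ (2 * N) ≤ (16 * h ^ 3) ^ (8 * N ^ 2) := by
      have e : (1 : ℝ) ≤ 16 * h ^ 3 := by
        have := one_le_pow₀ h1 (n := 3)
        linarith
      refine pow_le_pow_right₀ e ?_
      have : 1 ≤ N := by omega
      nlinarith
    linarith [s1, s2.le, s3, s4.le, s5]
  have hC0 : 0 ≤ C := le_trans (by positivity) key
  have t1 : (2 * h ^ 2) ^ n * (256 * h ^ 4) ≥ d ^ n * (r ^ 2)⁻¹ := by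
    refine mul_le_mul ?_ ?_ (by positivity) (by positivity)
    · exact pow_le_pow_left₀ (by linarith) hd2 n
    · rw [inv_le_comm₀ (by positivity) (by positivity)]
      calc (256 * h ^ 4)⁻¹ = (1 / (16 * h ^ 2)) ^ 2 := by
            rw [div_pow, one_pow, mul_pow, ← pow_mul, one_div]
            norm_num
        _ ≤ r ^ 2 := pow_le_pow_left₀ (by positivity) hr 2
  have hX0 : 0 ≤ ((n : ℝ) + 1) * 2 ^ (n + 2) := by positivity
  have t2 : ((n : ℝ) + 1) * 2 ^ (n + 2) * (d ^ n * (r ^ 2)⁻¹) ≤ C :=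
    (mul_le_mul_of_nonneg_left t1 hX0).trans key
  have hd0 : 0 < d ^ n := by positivity
  have hr2 : 0 < r ^ 2 := by positivity
  rw [inv_pow]
  calc ((n : ℝ) + 1) * 2 ^ (n + 2) =
      ((n : ℝ) + 1) * 2 ^ (n + 2) * (d ^ n * (r ^ 2)⁻¹) * ((d ^ n)⁻¹ * r ^ 2) := by
        field_simp
    _ ≤ C * ((d ^ n)⁻¹ * r ^ 2) := mul_le_mul_of_nonneg_right t2 (by positivity)
    _ = _ := by ring

theorem node_exists (hprim : ∀ i, IsCoprime (α i) (β i))
    (hgp : ∀ i j k, k ≠ i → k ≠ j → br α β i j ≠ 0 → pc α β γ i j k ≠ 0)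
    (hH : ∀ i, |α i| ≤ H ∧ |β i| ≤ H ∧ |γ i| ≤ H)
    (hc : (16 * H ^ 3) ^ (8 * N ^ 2) ≤ |c|)
    (hK : ¬ Algebra.IsAlgebraic ℚ K)
    (hxy : IntermediateField.adjoin ℚ {x, y} = ⊤)
    (hcurve : (c : K) * ∏ k, (α k * x + β k * y + γ k : K) = 1) {i j : Fin N}
    (hij : br α β i j ≠ 0) :
    ∃ (φ : K →+* LoopRing) (r : ℝ) (w : ℝ → ℂ),
      Node i j (fun k => (br α β k j : ℂ)) (fun k => (br α β i k : ℂ))
        (fun k => (pc α β γ i j k : ℂ)) r w (c : ℂ) (br α β i j : ℂ)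
        (Real.log (16 * (H : ℝ) ^ 3)) ∧
      ∀ k, (φ (α k * x + β k * y + γ k) : ℝ → ℂ) =
        Lloop i j (fun k => (br α β k j : ℂ)) (fun k => (br α β i k : ℂ))
        (fun k => (pc α β γ i j k : ℂ)) r w (br α β i j : ℂ) k := by
  have hH1 := one_le_H hprim hH i
  have h1 : (1 : ℝ) ≤ H := by exact_mod_cast hH1
  have h0 : (0 : ℝ) < H := by linarith
  have hij' : i ≠ j := by
    rintro rfl
    exact hij (br_self i)
  have hdC : (br α β i j : ℂ) ≠ 0 := Int.cast_ne_zero.2 hij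
  set S : Finset (Fin N) := (Finset.univ.erase i).erase j with hS
  have hScard : S.card + 2 = N := by
    rw [hS, Finset.card_erase_of_mem (by simp [hij'.symm]), Finset.card_erase_of_mem (by simp),
      Finset.card_univ, Fintype.card_fin]
    have : 2 ≤ N := by
      have h1 := i.2
      have h2 := j.2
      have h3 : (i : ℕ) ≠ j := fun h => hij' (Fin.ext h)
      omega
    omega
  obtain ⟨r, hr1, hr2, hr⟩ := exists_transcendental
    (show 1 / (16 * (H : ℝ) ^ 2) < 1 / (8 * (H : ℝ) ^ 2) by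
      apply one_div_lt_one_div_of_lt <;> nlinarith)
  have hr0 : 0 < r := lt_trans (by positivity) hr1
  have hsmall : Small (fun k => (br α β k j : ℂ)) (fun k => (br α β i k : ℂ))
      (fun k => (pc α β γ i j k : ℂ)) S r := by
    refine ⟨hr0, fun k hk => ?_, fun k hk => ?_⟩
    · rw [Complex.norm_intCast]
      have hk1 : k ≠ j := Finset.ne_of_mem_erase hk
      have hk2 : k ≠ i := Finset.ne_of_mem_erase (Finset.mem_of_mem_erase hk)
      have := Int.one_le_abs (hgp i j k hk2 hk1 hij)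
      exact_mod_cast this
    · rw [Complex.norm_intCast, Complex.norm_intCast]
      have e1 := abs_br_le hH k j
      have e2 := abs_br_le hH i k
      calc (|(br α β k j : ℝ)| + |(br α β i k : ℝ)|) * r ≤
          (2 * (H : ℝ) ^ 2 + 2 * (H : ℝ) ^ 2) * (1 / (8 * (H : ℝ) ^ 2)) :=
            mul_le_mul (add_le_add e1 e2) hr2.le hr0.le (by positivity)
        _ = 1 / 2 := by
            field_simp
            norm_num
  have hd1 : (1 : ℝ) ≤ |(br α β i j : ℝ)| := by
    have := Int.one_le_abs hij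
    exact_mod_cast this
  have hcR : (16 * (H : ℝ) ^ 3) ^ (8 * N ^ 2) ≤ |(c : ℝ)| := by exact_mod_cast hc
  have hsize := size_ok hScard h1 hcR hd1 (abs_br_le hH i j) hr1.le
  have hc0 : c ≠ 0 := by
    rintro rfl
    rw [Int.cast_zero, abs_zero] at hcR
    have : 0 < (16 * (H : ℝ) ^ 3) ^ (8 * N ^ 2) := by positivity
    linarith
  have hcC : (c : ℂ) ≠ 0 := Int.cast_ne_zero.2 hc0
  obtain ⟨w, hw1, hw2, hw3, hw4, hw5⟩ := exists_loop hsmall
    (c := (c : ℂ) * ((br α β i j : ℂ)⁻¹) ^ S.card) (by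
      rw [norm_mul, norm_pow, norm_inv, Complex.norm_intCast, Complex.norm_intCast]
      exact hsize)
  have hlog16 : 0 ≤ Real.log (16 * (H : ℝ) ^ 3) := by
    apply Real.log_nonneg
    have := one_le_pow₀ h1 (n := 3)
    linarith
  have h3le : (H : ℝ) ^ 2 ≤ (H : ℝ) ^ 3 := pow_le_pow_right₀ h1 (by norm_num)
  have h31 : 1 ≤ (H : ℝ) ^ 3 := one_le_pow₀ h1
  have hNode : Node i j (fun k => (br α β k j : ℂ)) (fun k => (br α β i k : ℂ))
        (fun k => (pc α β γ i j k : ℂ)) r w (c : ℂ) (br α β i j : ℂ)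
        (Real.log (16 * (H : ℝ) ^ 3)) := by
    refine ⟨hij', hsmall, hw1, hw2, hw3, hw4, hcC, hdC, fun t => ?_, ?_, log_br_le hH1 hH hij,
      fun k hk => ?_, ?_⟩
    · rw [Finset.prod_mul_distrib, Finset.prod_const, ← hS]
      rw [← hw5 t]
      ring
    · have hrlt : r ≤ 1 := by
        refine hr2.le.trans ?_
        rw [div_le_one (by positivity)]
        nlinarith
      rw [abs_of_nonpos (Real.log_nonpos hr0.le hrlt), ← Real.log_inv]
      refine Real.log_le_log (by positivity) ?_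
      rw [inv_le_comm₀ hr0 (by positivity)]
      refine le_trans ?_ hr1.le
      rw [← one_div]
      apply one_div_le_one_div_of_le (by positivity)
      linarith
    · refine Real.log_le_log ?_ ?_
      · have := hsmall.hp k hk
        linarith
      · rw [Complex.norm_intCast]
        have := abs_pc_le hH i j k
        linarith
    · apply Real.log_le_log (by norm_num)
      linarith
  -- the homomorphism
  obtain ⟨hirr, hdeg⟩ := irr_node (γ := γ) hprim hgp hij hc0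
  have hdK : (br α β i j : K) ≠ 0 := Int.cast_ne_zero.2 hij
  have hPK : evp (α i * x + β i * y + γ i : K) (α j * x + β j * y + γ j : K)
      (C (C (c : ℚ)) * ∏ k, lin (fun k => (br α β k j : ℚ) / br α β i j)
      (fun k => (br α β i k : ℚ) / br α β i j) (fun k => (pc α β γ i j k : ℚ) / br α β i j) k - 1) =
      0 := by
    rw [evp_curve hij, ← hcurve, sub_eq_zero]
    congr 1
    refine Finset.prod_congr rfl fun k _ => ?_
    rw [← line_rel x y i j k, inv_mul_cancel_left₀ hdK]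
  have hprodC : ∀ t, (c : ℂ) * ∏ k, ((br α β i j : ℂ)⁻¹ * ((br α β k j : ℂ) * circleMap 0 r t +
      (br α β i k : ℂ) * w t + (pc α β γ i j k : ℂ))) = 1 := by
    intro t
    have e1 := hNode.eq t
    rw [← e1, ← Finset.mul_prod_erase _ _ (Finset.mem_univ i), ← Finset.mul_prod_erase _ _
      (show j ∈ Finset.univ.erase i by simp [hij'.symm]), br_self, pc_left, br_self, pc_right]
    unfold mval
    push_cast
    field_simp
    ring
  have hPC : ∀ t, evp (circleMap 0 r t) (w t)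
      (C (C (c : ℚ)) * ∏ k, lin (fun k => (br α β k j : ℚ) / br α β i j)
      (fun k => (br α β i k : ℚ) / br α β i j) (fun k => (pc α β γ i j k : ℚ) / br α β i j) k - 1) =
      0 := by
    intro t
    rw [evp_curve hij, hprodC, sub_self]
  obtain ⟨φ, hφ1, hφ2⟩ := exists_hom2 hirr hdeg (transc_node hK hxy hcurve hij) hPK
    (adjoin_node hxy hij) (ξ := circleMap 0 r) (η := w)
    ⟨contDiff_circleMap 0 r, periodic_circleMap 0 r⟩ ⟨hw1, hw2⟩
    (fun t => by
      have := transcendental_circle (a := 0) hr t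
      rwa [Int.cast_zero] at this) hPC
  refine ⟨φ, r, w, hNode, fun k => ?_⟩
  have hkey : ∀ t, (φ (α k * x + β k * y + γ k) : ℝ → ℂ) t = (br α β i j : ℂ)⁻¹ *
      ((br α β k j : ℂ) * circleMap 0 r t + (br α β i k : ℂ) * w t + (pc α β γ i j k : ℂ)) := by
    intro t
    have e1 := congrArg φ (line_rel (α := α) (β := β) (γ := γ) x y i j k)
    simp only [map_mul, map_add _ ((br α β k j : K) * (α i * x + β i * y + γ i) +
      (br α β i k : K) * (α j * x + β j * y + γ j)), map_add _ ((br α β k j : K) *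
      (α i * x + β i * y + γ i)), map_intCast] at e1
    have e2 := congrFun (congrArg (Subtype.val) e1) t
    simp only [Subring.coe_mul, Subring.coe_add, Pi.mul_apply, Pi.add_apply, hφ1, hφ2,
      SubringClass.coe_intCast, Pi.intCast_apply] at e2
    rw [← e2, inv_mul_cancel_left₀ hdC]
  by_cases hki : k = i
  · rw [hki, Node.L_i]
    exact hφ1
  · by_cases hkj : k = j
    · rw [hkj, hNode.L_j]
      exact hφ2
    · rw [hNode.L_k (by simp [hki, hkj])]
      funext t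
      rw [hkey]
      rfl

end

end Pool.Agent.Helper11
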