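import Mathlib
import Pool.Agent.Helper11.ArrInt2
import Pool.Agent.Helper11.ArrMain2

/-! Main theorem for line arrangements. -/

namespace Pool.Agent.Helper11

open Polynomial

/-- rational independence implies real independence -/
lemma real_indep {g : ℕ} {E : Type*} [Fintype E] [DecidableEq E] {v : Fin g → (E → ℚ)}
    (hv : LinearIndependent ℚ v) {l : Fin g → ℝ} (h : ∀ e, ∑ a, l a * (v a e : ℝ) = 0) :
    ∀ a, l a = 0 := by
  have hinj : LinearMap.ker (Fintype.linearCombination ℚ v) = ⊥ := by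
    rw [LinearMap.ker_eq_bot]
    exact linearIndependent_iff_injective_fintypeLinearCombination.1 hv
  obtain ⟨T, hT⟩ := (Fintype.linearCombination ℚ v).exists_leftInverse_of_injective hinj
  have hTv : ∀ a b, T (v a) b = if a = b then 1 else 0 := by
    intro a b
    have h1 : T (Fintype.linearCombination ℚ v (Pi.single a 1)) = Pi.single a 1 := by
      have := LinearMap.congr_fun hT (Pi.single a 1)
      simpa using this
    rw [Fintype.linearCombination_apply_single, one_smul] at h1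
    rw [h1, Pi.single_apply]
    by_cases hab : a = b
    · rw [if_pos hab, if_pos hab.symm]
    · rw [if_neg hab, if_neg (Ne.symm hab)]
  have hexp : ∀ a b, T (v a) b = ∑ e, v a e * T (Pi.single e 1) b := by
    intro a b
    have h1 : v a = ∑ e, v a e • (Pi.single e (1 : ℚ) : E → ℚ) := by
      funext e
      simp [Finset.sum_apply, Pi.single_apply]
    conv_lhs => rw [h1]
    rw [map_sum, Finset.sum_apply]
    refine Finset.sum_congr rfl fun e _ => ?_
    rw [map_smul, Pi.smul_apply, smul_eq_mul]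
  intro b
  have h2 : l b = ∑ a, l a * (T (v a) b : ℝ) := by
    rw [Finset.sum_eq_single b]
    · rw [hTv, if_pos rfl]
      simp
    · intro a _ hab
      rw [hTv, if_neg hab]
      simp
    · intro h
      exact absurd (Finset.mem_univ b) h
  rw [h2]
  have h3 : ∀ a, l a * (T (v a) b : ℝ) = ∑ e, (T (Pi.single e 1) b : ℝ) * (l a * (v a e : ℝ)) := by
    intro a
    rw [hexp]
    push_cast
    rw [Finset.mul_sum]
    refine Finset.sum_congr rfl fun e _ => ?_
    ring
  simp only [h3]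
  rw [Finset.sum_comm]
  refine Finset.sum_eq_zero fun e _ => ?_
  rw [← Finset.mul_sum, h e, mul_zero]

section

variable {N : ℕ} (α β : Fin N → ℤ)

/-- the pairs of non-parallel lines -/
abbrev Edge : Type := {e : Fin N × Fin N // e.1 < e.2 ∧ α e.1 * β e.2 - α e.2 * β e.1 ≠ 0}

/-- extension by zero -/
def ext0 (f : Edge α β → ℚ) (k l : Fin N) : ℚ :=
  if h : k < l ∧ α k * β l - α l * β k ≠ 0 then f ⟨(k, l), h⟩ else 0

/-- the antisymmetric matrix of a function on the edges -/
def flowOf (f : Edge α β → ℚ) (k l : Fin N) : ℚ := ext0 α β f k l - ext0 α β f l k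

variable {α β}

lemma flowOf_antisymm (f : Edge α β → ℚ) (k l : Fin N) : flowOf α β f k l = - flowOf α β f l k := by
  unfold flowOf
  ring

lemma flowOf_par (f : Edge α β → ℚ) {k l : Fin N} (h : α k * β l - α l * β k = 0) :
    flowOf α β f k l = 0 := by
  have h' : α l * β k - α k * β l = 0 := by linarith
  unfold flowOf ext0
  rw [dif_neg (fun h1 => h1.2 h), dif_neg (fun h1 => h1.2 h'), sub_zero]

lemma flowOf_edge (f : Edge α β → ℚ) (e : Edge α β) : flowOf α β f e.1.1 e.1.2 = f e := by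
  unfold flowOf ext0
  rw [dif_pos e.2, dif_neg (fun h1 => absurd h1.1 (not_lt.2 e.2.1.le)), sub_zero]

lemma ext0_add (f f' : Edge α β → ℚ) (k l : Fin N) :
    ext0 α β (f + f') k l = ext0 α β f k l + ext0 α β f' k l := by
  unfold ext0
  split_ifs
  · rfl
  · rw [add_zero]

lemma ext0_smul (q : ℚ) (f : Edge α β → ℚ) (k l : Fin N) :
    ext0 α β (q • f) k l = q * ext0 α β f k l := by
  unfold ext0
  split_ifs
  · rfl
  · rw [mul_zero]

/-- row sums -/
def rowSum (α β : Fin N → ℤ) : (Edge α β → ℚ) →ₗ[ℚ] (Fin N → ℚ) where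
  toFun f k := ∑ l, flowOf α β f k l
  map_add' f f' := by
    funext k
    simp only [flowOf, ext0_add, Pi.add_apply]
    rw [← Finset.sum_add_distrib]
    refine Finset.sum_congr rfl fun l _ => ?_
    ring
  map_smul' q f := by
    funext k
    simp only [flowOf, ext0_smul, Pi.smul_apply, smul_eq_mul, RingHom.id_apply]
    rw [Finset.mul_sum]
    refine Finset.sum_congr rfl fun l _ => ?_
    ring

lemma sum_rowSum (f : Edge α β → ℚ) : ∑ k, rowSum α β f k = 0 := by
  have h1 : ∑ k, rowSum α β f k = - ∑ k, rowSum α β f k := by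
    change ∑ k, ∑ l, flowOf α β f k l = - ∑ k, ∑ l, flowOf α β f k l
    conv_lhs => rw [Finset.sum_comm]
    rw [← Finset.sum_neg_distrib]
    refine Finset.sum_congr rfl fun l _ => ?_
    rw [← Finset.sum_neg_distrib]
    refine Finset.sum_congr rfl fun k _ => ?_
    exact flowOf_antisymm f k l
  linarith

/-- existence of `g` independent flows -/
lemma exists_flows {g : ℕ} (hN : 0 < N) (hg : g + N = Fintype.card (Edge α β) + 1) :
    ∃ v : Fin g → (Edge α β → ℚ), LinearIndependent ℚ v ∧ ∀ a, rowSum α β (v a) = 0 := by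
  have h1 := LinearMap.finrank_range_add_finrank_ker (rowSum α β)
  rw [Module.finrank_fintype_fun_eq_card] at h1
  let s : (Fin N → ℚ) →ₗ[ℚ] ℚ := ∑ k, LinearMap.proj k
  have hs : ∀ f, s f = ∑ k, f k := by
    intro f
    simp [s]
  have h2 : LinearMap.range (rowSum α β) ≤ LinearMap.ker s := by
    rintro _ ⟨f, rfl⟩
    rw [LinearMap.mem_ker, hs]
    exact sum_rowSum f
  have h3 := LinearMap.finrank_range_add_finrank_ker s
  rw [Module.finrank_fintype_fun_eq_card, Fintype.card_fin] at h3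
  have h4 : LinearMap.range s = ⊤ := by
    rw [LinearMap.range_eq_top]
    intro q
    refine ⟨Pi.single ⟨0, hN⟩ q, ?_⟩
    rw [hs]
    simp
  rw [h4, finrank_top, Module.finrank_self] at h3
  have h5 := Submodule.finrank_mono h2
  have h6 : g ≤ Module.finrank ℚ (LinearMap.ker (rowSum α β)) := by omega
  let b := Module.finBasis ℚ (LinearMap.ker (rowSum α β))
  refine ⟨fun a => (b (Fin.castLE h6 a) : Edge α β → ℚ), ?_, fun a => ?_⟩
  · have h7 := b.linearIndependent.comp (Fin.castLE h6) (Fin.castLE_injective h6)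
    exact h7.map' (Submodule.subtype _) (Submodule.ker_subtype _)
  · exact (b (Fin.castLE h6 a)).2

end

section main

variable {N : ℕ} {α β γ : Fin N → ℤ} {H c : ℤ}

/-- **Main theorem for line arrangements.** -/
theorem arr_main (hprim : ∀ i, IsCoprime (α i) (β i))
    (hnp : ∃ i j, α i * β j - α j * β i ≠ 0)
    (hgp : ∀ i j k, k ≠ i → k ≠ j → α i * β j - α j * β i ≠ 0 →
      (α i * β j - α j * β i) * γ k - (α k * β j - α j * β k) * γ i -
        (α i * β k - α k * β i) * γ j ≠ 0)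
    (hH : ∀ i, |α i| ≤ H ∧ |β i| ≤ H ∧ |γ i| ≤ H)
    (hc : (16 * H ^ 3) ^ (8 * N ^ 2) ≤ |c|) {Δ : ℤ}
    (hΔ : ∀ i j, α i * β j - α j * β i ≠ 0 → (α i * β j - α j * β i) ∣ Δ)
    (hΔc : Δ ^ (N + 1) ∣ c) {g : ℕ} (hg : g + N = Fintype.card (Edge α β) + 1)
    {K : Type*} [Field K] [CharZero K] (hK : ¬ Algebra.IsAlgebraic ℚ K) {x y : K}
    (hxy : IntermediateField.adjoin ℚ {x, y} = ⊤)
    (hcurve : (c : K) * ∏ k, (α k * x + β k * y + γ k : K) = 1) :
    ∃ (ω : Fin g → K2Q K) (M : ℕ) (φ : Fin M → (K →+* LoopRing))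
      (R : Fin M → (K2Q K →ₗ[ℚ] ℝ)),
      (∀ a, ω a ∈ integralPart K) ∧
      (∀ m (u v : Kˣ), R m (sym u v) =
        regInt (φ m (u : K) : ℝ → ℂ) (φ m (v : K) : ℝ → ℂ)) ∧
      LinearIndependent ℝ (fun a : Fin g => fun m : Fin M => R m (ω a)) := by
  obtain ⟨i₀, j₀, hij₀⟩ := hnp
  have hH1 := one_le_H hprim hH i₀
  have h1 : (1 : ℝ) ≤ H := by exact_mod_cast hH1
  have h0 : (0 : ℝ) < H := by linarith
  have hN : 0 < N := lt_of_le_of_lt (Nat.zero_le _) i₀.2
  have h31 : 1 ≤ (H : ℝ) ^ 3 := one_le_pow₀ h1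
  have hcR : (16 * (H : ℝ) ^ 3) ^ (8 * N ^ 2) ≤ |(c : ℝ)| := by exact_mod_cast hc
  have hc0 : c ≠ 0 := by
    rintro rfl
    rw [Int.cast_zero, abs_zero] at hcR
    have : 0 < (16 * (H : ℝ) ^ 3) ^ (8 * N ^ 2) := by positivity
    linarith
  -- units
  have hL0 : ∀ k, (α k * x + β k * y + γ k : K) ≠ 0 := by
    intro k hk
    rw [Finset.prod_eq_zero (Finset.mem_univ k) hk, mul_zero] at hcurve
    exact zero_ne_one hcurve
  let U : Fin N → Kˣ := fun k => Units.mk0 _ (hL0 k)
  have hU : ∀ k, (U k : K) = α k * x + β k * y + γ k := fun k => rfl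
  classical
  let D : Fin N → Fin N → Kˣ := fun k l =>
    if h : ((α k * β l - α l * β k : ℤ) : K) ≠ 0 then Units.mk0 _ h else 1
  have hD : ∀ k l, α k * β l - α l * β k ≠ 0 → (D k l : K) = ((α k * β l - α l * β k : ℤ) : K) := by
    intro k l h
    have h' : ((α k * β l - α l * β k : ℤ) : K) ≠ 0 := Int.cast_ne_zero.2 h
    simp only [D]
    rw [dif_pos h', Units.val_mk0]
  obtain ⟨v, hv1, hv2⟩ := exists_flows hN hg
  let n : Fin g → Fin N → Fin N → ℚ := fun a => flowOf α β (v a)
  let ω : Fin g → K2Q K := fun a => ∑ k, ∑ l, n a k l • sym (U k / D k l) (U l / D k l)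
  have hrow : ∀ a k, ∑ l, n a k l = 0 := fun a k => congrFun (hv2 a) k
  have hint : ∀ a, ω a ∈ integralPart K := by
    intro a
    exact arr_integral α β γ hprim c Δ hc0 hΔ hΔc hU (by simpa only [hU] using hcurve) hD
      (fun k l => flowOf_antisymm _ k l) (hrow a) (fun k l h => flowOf_par _ h)
  -- the loops
  let E' : Type := {e : Fin N × Fin N // br α β e.1 e.2 ≠ 0}
  have hnode : ∀ e : E', ∃ (φ : K →+* LoopRing) (r : ℝ) (w : ℝ → ℂ),
      Node e.1.1 e.1.2 (fun k => (br α β k e.1.2 : ℂ)) (fun k => (br α β e.1.1 k : ℂ))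
        (fun k => (pc α β γ e.1.1 e.1.2 k : ℂ)) r w (c : ℂ) (br α β e.1.1 e.1.2 : ℂ)
        (Real.log (16 * (H : ℝ) ^ 3)) ∧
      ∀ k, (φ (α k * x + β k * y + γ k) : ℝ → ℂ) =
        Lloop e.1.1 e.1.2 (fun k => (br α β k e.1.2 : ℂ)) (fun k => (br α β e.1.1 k : ℂ))
        (fun k => (pc α β γ e.1.1 e.1.2 k : ℂ)) r w (br α β e.1.1 e.1.2 : ℂ) k := by
    intro e
    exact node_exists hprim hgp hH hc hK hxy hcurve e.2
  choose φ r w hNode hφ using hnode
  choose R hR using fun e => exists_reg (φ e)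
  let eq : E' ≃ Fin (Fintype.card E') := Fintype.equivFin E'
  refine ⟨ω, Fintype.card E', fun m => φ (eq.symm m), fun m => R (eq.symm m), hint,
    fun m => hR (eq.symm m), ?_⟩
  rw [Fintype.linearIndependent_iff]
  intro l hl
  -- the relation at every node
  have hl' : ∀ e, ∑ a, l a * R e (ω a) = 0 := by
    intro e
    have := congrFun hl (eq e)
    simp only [Finset.sum_apply, Pi.smul_apply, smul_eq_mul, Equiv.symm_apply_apply,
      Pi.zero_apply] at this
    exact this
  -- the real flow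
  set X : Fin N → Fin N → ℝ := fun k m => ∑ a, l a * (n a k m : ℝ) with hX
  have hXanti : ∀ k m, X k m = - X m k := by
    intro k m
    simp only [hX]
    rw [← Finset.sum_neg_distrib]
    refine Finset.sum_congr rfl fun a _ => ?_
    have : n a k m = - n a m k := flowOf_antisymm _ k m
    rw [this]
    push_cast
    ring
  have hXpar : ∀ k m, X k m ≠ 0 → br α β k m ≠ 0 := by
    intro k m h1 h2
    apply h1
    simp only [hX]
    refine Finset.sum_eq_zero fun a _ => ?_
    have : n a k m = 0 := flowOf_par _ h2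
    rw [this]
    simp
  -- entries
  have hent : ∀ (e : E') (k m : Fin N), br α β k m ≠ 0 →
      R e (sym (U k / D k m) (U m / D k m)) =
      Ent e.1.1 e.1.2 (fun k => (br α β k e.1.2 : ℂ)) (fun k => (br α β e.1.1 k : ℂ))
        (fun k => (pc α β γ e.1.1 e.1.2 k : ℂ)) (r e) (w e) (br α β e.1.1 e.1.2 : ℂ) k m
        (br α β k m : ℂ) := by
    intro e k m hkm
    have hkmC : (br α β k m : ℂ) ≠ 0 := Int.cast_ne_zero.2 hkm
    have hDv := hD k m hkm
    have hdiv : ∀ i, (φ e ((U i / D k m : Kˣ) : K) : ℝ → ℂ) = (fun _ => (br α β k m : ℂ)⁻¹) *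
        Lloop e.1.1 e.1.2 (fun k => (br α β k e.1.2 : ℂ)) (fun k => (br α β e.1.1 k : ℂ))
        (fun k => (pc α β γ e.1.1 e.1.2 k : ℂ)) (r e) (w e) (br α β e.1.1 e.1.2 : ℂ) i := by
      intro i
      have e1 : φ e ((U i / D k m : Kˣ) : K) * φ e (D k m : K) = φ e (U i : K) := by
        rw [← map_mul, ← Units.val_mul, div_mul_cancel]
      rw [hDv, map_intCast] at e1
      funext t
      have e2 := congrFun (congrArg Subtype.val e1) t
      rw [hU, hφ] at e2
      simp only [Subring.coe_mul, Pi.mul_apply, SubringClass.coe_intCast,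
        Pi.intCast_apply] at e2
      rw [Pi.mul_apply, ← e2]
      have hkmC' : ((α k * β m - α m * β k : ℤ) : ℂ) ≠ 0 := hkmC
      unfold br
      field_simp
    rw [hR, hdiv, hdiv]
    rfl
  have hRω : ∀ (e : E'), ∑ a, l a * R e (ω a) = ∑ k, ∑ m, X k m *
      Ent e.1.1 e.1.2 (fun k => (br α β k e.1.2 : ℂ)) (fun k => (br α β e.1.1 k : ℂ))
        (fun k => (pc α β γ e.1.1 e.1.2 k : ℂ)) (r e) (w e) (br α β e.1.1 e.1.2 : ℂ) k m
        (br α β k m : ℂ) := by
    intro e
    have e1 : ∀ a, R e (ω a) = ∑ k, ∑ m, (n a k m : ℝ) *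
      Ent e.1.1 e.1.2 (fun k => (br α β k e.1.2 : ℂ)) (fun k => (br α β e.1.1 k : ℂ))
        (fun k => (pc α β γ e.1.1 e.1.2 k : ℂ)) (r e) (w e) (br α β e.1.1 e.1.2 : ℂ) k m
        (br α β k m : ℂ) := by
      intro a
      simp only [ω, map_sum, map_smul]
      refine Finset.sum_congr rfl fun k _ => Finset.sum_congr rfl fun m _ => ?_
      by_cases hkm : br α β k m = 0
      · have : n a k m = 0 := flowOf_par _ hkm
        rw [this]
        simp
      · rw [hent e k m hkm, Rat.smul_def]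
    simp only [e1, hX, Finset.mul_sum, Finset.sum_mul]
    rw [Finset.sum_comm]
    refine Finset.sum_congr rfl fun k _ => ?_
    rw [Finset.sum_comm]
    refine Finset.sum_congr rfl fun m _ => Finset.sum_congr rfl fun a _ => ?_
    ring
  -- the maximum of the flow vanishes
  have hX0 : ∀ k m, X k m = 0 := by
    by_contra hcon
    push Not at hcon
    obtain ⟨k₁, m₁, hk₁⟩ := hcon
    have hne : (Finset.univ : Finset (Fin N × Fin N)).Nonempty := ⟨(k₁, m₁), Finset.mem_univ _⟩
    obtain ⟨⟨k₀, m₀⟩, -, hmax⟩ := Finset.exists_max_image Finset.univ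
      (fun e : Fin N × Fin N => |X e.1 e.2|) hne
    have hmax' : ∀ k m, |X k m| ≤ |X k₀ m₀| := fun k m => hmax (k, m) (Finset.mem_univ _)
    have hpos : 0 < |X k₀ m₀| := (abs_pos.2 hk₁).trans_le (hmax' k₁ m₁)
    have hbr : br α β k₀ m₀ ≠ 0 := hXpar k₀ m₀ (abs_pos.1 hpos)
    let e : E' := ⟨(k₀, m₀), hbr⟩
    have h2 := (hNode e).sum_le hXanti hmax' (q := fun k m => (br α β k m : ℂ))
      (fun k m hkm => ⟨Int.cast_ne_zero.2 (hXpar k m hkm), log_br_le hH1 hH (hXpar k m hkm)⟩)
    have h3 := hRω e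
    rw [hl' e] at h3
    rw [← h3, zero_sub, abs_neg, abs_mul, Fintype.card_fin] at h2
    have hΛ : 0 < Real.log (16 * (H : ℝ) ^ 3) := Real.log_pos (by linarith)
    have hlogc : (8 * (N : ℝ) ^ 2) * Real.log (16 * (H : ℝ) ^ 3) ≤ Real.log ‖(c : ℂ)‖ := by
      rw [Complex.norm_intCast]
      have := Real.log_le_log (by positivity) hcR
      rw [Real.log_pow] at this
      push_cast at this
      exact this
    have hpi := Real.pi_pos
    have hN' : (1 : ℝ) ≤ N := by exact_mod_cast hN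
    have h4 : |4 * Real.pi * Real.log ‖(c : ℂ)‖| ≤
        28 * Real.pi * Real.log (16 * (H : ℝ) ^ 3) * (N : ℝ) ^ 2 :=
      le_of_mul_le_mul_right h2 hpos
    have h5 := (le_abs_self _).trans h4
    have h6 : 0 < Real.pi * Real.log (16 * (H : ℝ) ^ 3) * (N : ℝ) ^ 2 := by positivity
    have h7 : 4 * Real.pi * ((8 * (N : ℝ) ^ 2) * Real.log (16 * (H : ℝ) ^ 3)) ≤
        4 * Real.pi * Real.log ‖(c : ℂ)‖ := mul_le_mul_of_nonneg_left hlogc (by positivity)
    nlinarith
  refine real_indep hv1 fun e => ?_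
  have h2 := hX0 e.1.1 e.1.2
  simp only [hX, n] at h2
  simp only [flowOf_edge] at h2
  exact h2

end main

end Pool.Agent.Helper11
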