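import Mathlib
import Pool.Agent.Helper11.KDefs

/-! The coordinate ring of the affine variety `c ∏ₘ ∏ᵢ (xₘ - aₘᵢ) = 1`. -/

namespace Pool.Agent.Helper11

/-- The polynomial `c ∏ₘ ∏ᵢ (xₘ - aₘᵢ) - 1`. -/
noncomputable def gridPoly {n : ℕ} (p : Fin (n + 1) → ℕ) (a : ∀ m, Fin (p m + 1) → ℤ) (c : ℤ) :
    MvPolynomial (Fin (n + 1)) ℤ :=
  MvPolynomial.C c * ∏ m, ∏ i, (MvPolynomial.X m - MvPolynomial.C (a m i)) - 1

/-- The ring `ℤ[x₀, ..., xₙ] / (c ∏ₘ ∏ᵢ (xₘ - aₘᵢ) - 1)`. -/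
def GridRing {n : ℕ} (p : Fin (n + 1) → ℕ) (a : ∀ m, Fin (p m + 1) → ℤ) (c : ℤ) : Type :=
  MvPolynomial (Fin (n + 1)) ℤ ⧸ Ideal.span {gridPoly p a c}

noncomputable instance {n : ℕ} (p : Fin (n + 1) → ℕ) (a : ∀ m, Fin (p m + 1) → ℤ) (c : ℤ) :
    CommRing (GridRing p a c) :=
  inferInstanceAs (CommRing (MvPolynomial (Fin (n + 1)) ℤ ⧸ Ideal.span {gridPoly p a c}))

/-- The coordinate function `xₘ`. -/
noncomputable def gridX {n : ℕ} (p : Fin (n + 1) → ℕ) (a : ∀ m, Fin (p m + 1) → ℤ) (c : ℤ)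
    (m : Fin (n + 1)) : GridRing p a c :=
  Ideal.Quotient.mk (Ideal.span {gridPoly p a c}) (MvPolynomial.X m)

end Pool.Agent.Helper11
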