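import Mathlib
import Pool.Agent.Helper11.GridEval

/-! Evaluation of the regulators of the grid symbols over the tori: main term and error bound. -/

namespace Pool.Agent.Helper11

open MeasureTheory Set Metric Topology

variable {n : ℕ} {ρ R : ℝ} (hR : 0 < R) (hR' : R < 13 / 125) (hρ : |ρ| = R)
  {ι : Fin (n + 1) → Type*} [∀ m, Fintype (ι m)] [∀ m, DecidableEq (ι m)]
  {a : ∀ m, ι m → ℤ} {J : ∀ m, ι m} (B : ∀ m, BranchData (a m) (J m))

/-- the constant term of `log |x_m - a|` on the torus -/
noncomputable def beta (R : ℝ) (a : ∀ m, ι m → ℤ) (J : ∀ m, ι m) (m : Fin (n + 1)) (i : ι m) : ℝ :=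
  if i = J m then Real.log R - ∑ k ∈ Finset.univ.erase (J m), Real.log |((a m (J m) - a m k : ℤ) : ℝ)|
    else Real.log |((a m (J m) - a m i : ℤ) : ℝ)|

/-- the winding number of `x_m - a` -/
def eps (J : ∀ m, ι m) (m : Fin (n + 1)) (i : ι m) : ℝ := if i = J m then 1 else 0

/-- the main term -/
noncomputable def mainT (R : ℝ) (a : ∀ m, ι m → ℤ) (J : ∀ m, ι m) (i : ∀ m, ι m) : ℝ :=
  ∑ k, beta R a J k (i k) * ∏ m, eps J (k.succAbove m) (i (k.succAbove m))

/-- the fluctuating parts -/
noncomputable def gpart (ρ R : ℝ) (i : ∀ m, ι m) (t : ℝ) (k m : Fin (n + 1)) (α : ℝ) : ℂ :=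
  if m = k then ((((B m).F (i m) (circleMap 0 (rad n ρ R m) α)).re : ℝ) : ℂ)
    else stretch t ((B m).G (i m) (circleMap 0 (rad n ρ R m) α))

include hR hR' hρ in
lemma rad_lt (m : Fin (n + 1)) : |rad n ρ R m| < 13 / 125 := by
  rw [abs_rad hR hρ]
  exact hR'

include hR hR' hρ in
lemma gpart_cont (i : ∀ m, ι m) (t : ℝ) (k m : Fin (n + 1)) :
    Continuous (gpart B ρ R i t k m) := by
  unfold gpart
  by_cases h : m = k
  · simp only [if_pos h]
    exact Complex.continuous_ofReal.comp (Complex.continuous_re.comp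
      (circle_cont ((B m).diffF (i m)) (rad_lt hR hR' hρ m)))
  · simp only [if_neg h]
    exact continuous_stretch continuous_const
      (circle_cont ((B m).diffG (i m)) (rad_lt hR hR' hρ m))

lemma gpart_per (i : ∀ m, ι m) (t : ℝ) (k m : Fin (n + 1)) :
    Function.Periodic (gpart B ρ R i t k m) (2 * Real.pi) := by
  intro α
  unfold gpart
  rw [periodic_circleMap]

include hR hR' hρ in
lemma gpart_mean (i : ∀ m, ι m) (t : ℝ) (k m : Fin (n + 1)) :
    ∫ α in Icc 0 (2 * Real.pi), gpart B ρ R i t k m α = 0 := by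
  unfold gpart
  by_cases h : m = k
  · simp only [if_pos h]
    exact integral_re_zero (circle_cont ((B m).diffF (i m)) (rad_lt hR hR' hρ m))
      (circle_mean_zero ((B m).diffF (i m)) ((B m).F0 _) (rad_lt hR hR' hρ m))
  · simp only [if_neg h]
    exact integral_stretch (circle_cont ((B m).diffG (i m)) (rad_lt hR hR' hρ m)) t
      (circle_mean_zero ((B m).diffG (i m)) ((B m).G0 _) (rad_lt hR hR' hρ m))

/-- the error bound -/
noncomputable def errT (i : ∀ m, ι m) : ℝ :=
  ∑ k, (B k).s (i k) * ∏ m, (B (Fin.succAbove k m)).s' (i (k.succAbove m))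

include hR hR' hρ in
lemma norm_TI_gpart (i : ∀ m, ι m) {t : ℝ} (ht : t ∈ Icc (0 : ℝ) 1) (k : Fin (n + 1)) :
    ‖TI (gpart B ρ R i t k)‖ ≤
      (2 * Real.pi) ^ n * ((B k).s (i k) * ∏ m, (B (k.succAbove m)).s' (i (k.succAbove m))) := by
  unfold TI
  have hb : ∀ y ∈ Icc (0 : Fin n → ℝ) (fun _ => 2 * Real.pi),
      ‖gpart B ρ R i t k 0 (-∑ l, y l) * ∏ l : Fin n, gpart B ρ R i t k l.succ (y l)‖ ≤
      (B k).s (i k) * ∏ m, (B (k.succAbove m)).s' (i (k.succAbove m)) := by
    intro y _
    have e1 : gpart B ρ R i t k 0 (-∑ l, y l) * ∏ l : Fin n, gpart B ρ R i t k l.succ (y l) =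
        ∏ m : Fin (n + 1), gpart B ρ R i t k m (ang y m) := by
      rw [Fin.prod_univ_succ]
      simp [ang]
    rw [e1, Fin.prod_univ_succAbove _ k, norm_mul, norm_prod]
    refine mul_le_mul ?_ (Finset.prod_le_prod (fun _ _ => norm_nonneg _) fun m _ => ?_)
      (Finset.prod_nonneg fun _ _ => norm_nonneg _) ((B k).s0 _)
    · unfold gpart
      rw [if_pos rfl, Complex.norm_real, Real.norm_eq_abs]
      exact (Complex.abs_re_le_norm _).trans
        ((B k).hF _ (circle_mem (rad_lt hR hR' hρ k) _) _)
    · unfold gpart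
      rw [if_neg (Fin.succAbove_ne k m)]
      exact (norm_stretch_le ht _).trans
        ((B (k.succAbove m)).hG _ (circle_mem (rad_lt hR hR' hρ _) _) _)
  have h1 := norm_setIntegral_le_of_norm_le_const (μ := volume)
    (isCompact_Icc (a := (0 : Fin n → ℝ)) (b := fun _ => 2 * Real.pi)).measure_lt_top hb
  have h2 : (volume : Measure (Fin n → ℝ)).real (Icc (0 : Fin n → ℝ) (fun _ => 2 * Real.pi)) =
      (2 * Real.pi) ^ n := by
    rw [Measure.real, Real.volume_Icc_pi_toReal (fun _ => by simp only [Pi.zero_apply]; positivity)]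
    simp
  rw [h2] at h1
  calc _ ≤ _ := h1
    _ = _ := by ring

include hR hR' hρ in
/-- Main term and error bound for the regulators of the grid symbols. -/
theorem regTorus_eval (i : ∀ m, ι m) :
    |regTorus (fun m => ff B ρ R m (i m)) - (2 * Real.pi) ^ n * mainT R a J i| ≤
      (2 * Real.pi) ^ n * errT B i := by
  -- the integrand
  set q : (Fin (n + 1) → ℝ) → ℂ := fun x =>
    ∑ k, ((Real.log ‖ff B ρ R k (i k) (Fin.tail x)‖ : ℝ) : ℂ) *
      ∏ m, Vf B ρ R (k.succAbove m) (i (k.succAbove m)) x with hq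
  have hqc : Continuous q := by
    refine continuous_finsetSum _ fun k _ => Continuous.mul ?_ ?_
    · exact Complex.continuous_ofReal.comp
        ((contDiff_logNorm (TU_ff hR hR' hρ B k (i k))).continuous.comp continuous_tail)
    · refine continuous_finsetProd _ fun m _ => ?_
      unfold Vf Df
      refine continuous_stretch (continuous_apply 0) (continuous_const.add ?_)
      have h1 : Continuous fun θ : Fin n → ℝ =>
          (B (k.succAbove m)).G (i (k.succAbove m)) (zf ρ R (k.succAbove m) θ) := by
        unfold zf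
        exact (circle_cont ((B (k.succAbove m)).diffG (i (k.succAbove m)))
          (rad_lt hR hR' hρ _)).comp (contDiff_ang (k := 0) _).continuous
      exact h1.comp continuous_tail
  have hpt : ∀ x : Fin (n + 1) → ℝ, ((-Complex.I) ^ n *
      Matrix.det (Matrix.of fun m => regRow (ff B ρ R m (i m)) x)).re = (q x).re := by
    intro x
    rw [regMat_eq hR hR' hρ B,
      det_arrow_symm (fun m => ((Real.log ‖ff B ρ R m (i m) (Fin.tail x)‖ : ℝ) : ℂ))
        (fun m => Vf B ρ R m (i m) x), ← mul_assoc, ← mul_pow]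
    have : -Complex.I * Complex.I = 1 := by
      rw [neg_mul, Complex.I_mul_I, neg_neg]
    rw [this, one_pow, one_mul]
  have hvol : (volume : Measure (Fin (n + 1) → ℝ)).real (Icc (0 : Fin (n + 1) → ℝ) (topB n)) =
      (2 * Real.pi) ^ n := by
    rw [Measure.real, Real.volume_Icc_pi_toReal (zero_le_topB n), Fin.prod_univ_succ]
    simp [topB]
  set κ : ℝ := mainT R a J i with hκ
  have hqi : IntegrableOn (fun x => (q x).re) (Icc 0 (topB n)) :=
    (Complex.continuous_re.comp hqc).continuousOn.integrableOn_compact isCompact_Icc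
  have hki : IntegrableOn (fun _ : Fin (n + 1) → ℝ => κ) (Icc 0 (topB n)) :=
    continuous_const.continuousOn.integrableOn_compact isCompact_Icc
  have hdiff : regTorus (fun m => ff B ρ R m (i m)) - (2 * Real.pi) ^ n * κ =
      ∫ x in Icc 0 (topB n), ((q x).re - κ) := by
    rw [integral_sub hqi hki, setIntegral_const, hvol, smul_eq_mul]
    unfold regTorus
    simp only [hpt]
  have hbs := box_split 0 (topB n) (F := fun x => (q x).re - κ)
    ((Complex.continuous_re.comp hqc).sub continuous_const)
  rw [hdiff, hbs]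
  have hface : (fun k : Fin n => topB n ((0 : Fin (n + 1)).succAbove k)) =
      fun _ => 2 * Real.pi := by
    funext k
    simp [topB]
  have htop : topB n 0 = 1 := by simp [topB]
  rw [hface, htop]
  have hinner : ∀ t ∈ Icc (0 : ℝ) 1,
      ‖∫ y in Icc (0 : Fin n → ℝ) (fun _ => 2 * Real.pi),
        ((q ((0 : Fin (n + 1)).insertNth t y)).re - κ)‖ ≤ (2 * Real.pi) ^ n * errT B i := by
    intro t ht
    -- the factors
    have hfac : ∀ (k : Fin (n + 1)) (y : Fin n → ℝ),
        ((Real.log ‖ff B ρ R k (i k) y‖ : ℝ) : ℂ) *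
          ∏ m, Vf B ρ R (k.succAbove m) (i (k.succAbove m)) (Fin.cons t y) =
        ∏ m : Fin (n + 1), (((if m = k then beta R a J m (i m) else eps J m (i m) : ℝ) : ℂ) +
          gpart B ρ R i t k m (ang y m)) := by
      intro k y
      rw [Fin.prod_univ_succAbove _ k]
      congr 1
      · have h1 := (B k).logX _ (zf_mem hR hR' hρ k y) (zf_ne hR hR' hρ k y) (i k)
        unfold ff xf gpart beta
        rw [h1, if_pos rfl, if_pos rfl, norm_zf hR hR' hρ]
        push_cast
        rfl
      · refine Finset.prod_congr rfl fun m _ => ?_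
        rw [if_neg (Fin.succAbove_ne k m)]
        unfold gpart Vf Df eps
        rw [if_neg (Fin.succAbove_ne k m), stretch_eq, stretch_eq, Fin.tail_cons, Fin.cons_zero]
        unfold zf
        by_cases h : i (k.succAbove m) = J (k.succAbove m)
        · simp only [if_pos h]
          simp
          ring
        · simp only [if_neg h]
          simp
    have hTI : ∀ (k : Fin (n + 1)), ∫ y in Icc (0 : Fin n → ℝ) (fun _ => 2 * Real.pi),
        ((Real.log ‖ff B ρ R k (i k) y‖ : ℝ) : ℂ) *
          ∏ m, Vf B ρ R (k.succAbove m) (i (k.succAbove m)) (Fin.cons t y) =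
        (((2 * Real.pi) ^ n * (beta R a J k (i k) *
          ∏ m, eps J (k.succAbove m) (i (k.succAbove m))) : ℝ) : ℂ) +
          TI (gpart B ρ R i t k) := by
      intro k
      have h1 := TI_add (gpart_cont hR hR' hρ B i t k) (gpart_per B i t k)
        (fun m => ((if m = k then beta R a J m (i m) else eps J m (i m) : ℝ) : ℂ))
        (gpart_mean hR hR' hρ B i t k)
      have h2 : ∏ m : Fin (n + 1), ((if m = k then beta R a J m (i m) else eps J m (i m) : ℝ) : ℂ)
          = (((beta R a J k (i k) *
          ∏ m, eps J (k.succAbove m) (i (k.succAbove m))) : ℝ) : ℂ) := by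
        rw [Fin.prod_univ_succAbove _ k, if_pos rfl]
        simp only [if_neg (Fin.succAbove_ne k _)]
        push_cast
        rfl
      rw [h2] at h1
      have h3 : TI (fun m x => (((if m = k then beta R a J m (i m) else eps J m (i m) : ℝ) : ℂ)) +
          gpart B ρ R i t k m x) = ∫ y in Icc (0 : Fin n → ℝ) (fun _ => 2 * Real.pi),
        ((Real.log ‖ff B ρ R k (i k) y‖ : ℝ) : ℂ) *
          ∏ m, Vf B ρ R (k.succAbove m) (i (k.succAbove m)) (Fin.cons t y) := by
        simp only [hfac]
        unfold TI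
        refine integral_congr_ae (Filter.Eventually.of_forall fun y => ?_)
        simp only
        rw [Fin.prod_univ_succ (n := n)]
        simp [ang]
      rw [← h3, h1]
      push_cast
      ring
    -- integrate
    have hqy : ∀ y : Fin n → ℝ, q ((0 : Fin (n + 1)).insertNth t y) =
        ∑ k, ((Real.log ‖ff B ρ R k (i k) y‖ : ℝ) : ℂ) *
          ∏ m, Vf B ρ R (k.succAbove m) (i (k.succAbove m)) (Fin.cons t y) := by
      intro y
      rw [Fin.insertNth_zero']
      simp only [hq, Fin.tail_cons]
    have hcy : Continuous fun y : Fin n → ℝ => (Fin.cons t y : Fin (n + 1) → ℝ) :=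
      continuous_pi fun l => by
        refine Fin.cases ?_ (fun l' => ?_) l
        · simp only [Fin.cons_zero]
          exact continuous_const
        · simp only [Fin.cons_succ]
          exact continuous_apply l'
    have hcq : Continuous fun y : Fin n → ℝ => q ((0 : Fin (n + 1)).insertNth t y) := by
      simp only [Fin.insertNth_zero']
      exact hqc.comp hcy
    have hck : ∀ k : Fin (n + 1), Continuous fun y : Fin n → ℝ =>
        ((Real.log ‖ff B ρ R k (i k) y‖ : ℝ) : ℂ) *
          ∏ m, Vf B ρ R (k.succAbove m) (i (k.succAbove m)) (Fin.cons t y) := by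
      intro k
      simp only [hfac]
      refine continuous_finsetProd _ fun m _ => continuous_const.add ?_
      exact (gpart_cont hR hR' hρ B i t k m).comp (contDiff_ang (k := 0) m).continuous
    have hsum : ∫ y in Icc (0 : Fin n → ℝ) (fun _ => 2 * Real.pi),
        q ((0 : Fin (n + 1)).insertNth t y) =
        (((2 * Real.pi) ^ n * κ : ℝ) : ℂ) + ∑ k, TI (gpart B ρ R i t k) := by
      simp only [hqy]
      rw [integral_finsetSum _ fun k _ => (hck k).continuousOn.integrableOn_compact isCompact_Icc]
      simp only [hTI]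
      rw [Finset.sum_add_distrib, hκ]
      unfold mainT
      rw [Finset.mul_sum]
      push_cast
      rfl
    have hvol2 : (volume : Measure (Fin n → ℝ)).real (Icc (0 : Fin n → ℝ) (fun _ => 2 * Real.pi)) =
        (2 * Real.pi) ^ n := by
      rw [Measure.real, Real.volume_Icc_pi_toReal
        (fun _ => by simp only [Pi.zero_apply]; positivity)]
      simp
    have hre := integral_re (hcq.continuousOn.integrableOn_compact (μ := volume)
      (isCompact_Icc (a := (0 : Fin n → ℝ)) (b := fun _ => 2 * Real.pi)))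
    simp only [RCLike.re_eq_complex_re] at hre
    have hi1 : IntegrableOn (fun y : Fin n → ℝ => (q ((0 : Fin (n + 1)).insertNth t y)).re)
        (Icc (0 : Fin n → ℝ) (fun _ => 2 * Real.pi)) :=
      (Complex.continuous_re.comp hcq).continuousOn.integrableOn_compact isCompact_Icc
    have hi2 : IntegrableOn (fun _ : Fin n → ℝ => κ)
        (Icc (0 : Fin n → ℝ) (fun _ => 2 * Real.pi)) :=
      continuous_const.continuousOn.integrableOn_compact isCompact_Icc
    rw [integral_sub hi1 hi2, setIntegral_const, hvol2, smul_eq_mul, hre, hsum]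
    have e3 : (((((2 * Real.pi) ^ n * κ : ℝ) : ℂ) + ∑ k, TI (gpart B ρ R i t k)).re -
        (2 * Real.pi) ^ n * κ) = (∑ k, TI (gpart B ρ R i t k)).re := by
      rw [Complex.add_re, Complex.ofReal_re]
      ring
    rw [e3, Real.norm_eq_abs]
    refine (Complex.abs_re_le_norm _).trans ((norm_sum_le _ _).trans ?_)
    unfold errT
    rw [Finset.mul_sum]
    exact Finset.sum_le_sum fun k _ => norm_TI_gpart hR hR' hρ B i ht k
  have h1 := norm_setIntegral_le_of_norm_le_const (μ := volume)
    (isCompact_Icc (a := (0 : ℝ)) (b := 1)).measure_lt_top hinner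
  rw [Real.volume_real_Icc_of_le zero_le_one, sub_zero, mul_one, Real.norm_eq_abs] at h1
  exact h1

end Pool.Agent.Helper11
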