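import Mathlib
import Pool.Agent.Helper11.GridDefs
import Pool.Agent.Helper11.KMUnr
import Pool.Agent.Helper11.GridEval2

/-! The grid varieties: integrality and homomorphisms to torus rings. -/

namespace Pool.Agent.Helper11

section ring

variable {n : ℕ} {p : Fin (n + 1) → ℕ} {a : ∀ m, Fin (p m + 1) → ℤ} {c : ℤ}

lemma grid_rel : (c : GridRing p a c) *
    ∏ m, ∏ i, (gridX p a c m - (a m i : GridRing p a c)) = 1 := by
  set q : MvPolynomial (Fin (n + 1)) ℤ →+* GridRing p a c :=
    Ideal.Quotient.mk (Ideal.span {gridPoly p a c}) with hq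
  have h : q (gridPoly p a c) = 0 :=
    Ideal.Quotient.eq_zero_iff_mem.2 (Ideal.mem_span_singleton_self _)
  have hC : ∀ k : ℤ, q (MvPolynomial.C k) = (k : GridRing p a c) := by
    intro k
    have h2 := map_intCast (MvPolynomial.C : ℤ →+* MvPolynomial (Fin (n + 1)) ℤ) k
    rw [Int.cast_id] at h2
    rw [h2, map_intCast]
  unfold gridPoly at h
  rw [map_sub, map_one, map_mul, map_prod, sub_eq_zero, hC] at h
  simp only [map_prod, map_sub, hC] at h
  exact h

lemma grid_isUnit (m : Fin (n + 1)) (i : Fin (p m + 1)) :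
    IsUnit (gridX p a c m - (a m i : GridRing p a c)) := by
  refine isUnit_of_dvd_one ?_
  rw [← grid_rel (p := p) (a := a) (c := c)]
  refine Dvd.dvd.mul_left ?_ _
  exact (Finset.dvd_prod_of_mem _ (Finset.mem_univ i)).trans
    (Finset.dvd_prod_of_mem (fun m => ∏ i, (gridX p a c m - (a m i : GridRing p a c)))
      (Finset.mem_univ m))

/-- the unit `x_m - a_{m,i}` -/
noncomputable def gridU (p : Fin (n + 1) → ℕ) (a : ∀ m, Fin (p m + 1) → ℤ) (c : ℤ)
    (m : Fin (n + 1)) (i : Fin (p m + 1)) : (GridRing p a c)ˣ :=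
  (grid_isUnit m i).unit

lemma gridU_val (m : Fin (n + 1)) (i : Fin (p m + 1)) :
    (gridU p a c m i : GridRing p a c) = gridX p a c m - (a m i : GridRing p a c) := rfl

/-- homomorphisms from the grid ring -/
lemma exists_gridHom {S : Type*} [CommRing S] (s : Fin (n + 1) → S)
    (hs : (c : S) * ∏ m, ∏ i, (s m - (a m i : S)) = 1) :
    ∃ φ : GridRing p a c →+* S, ∀ m, φ (gridX p a c m) = s m := by
  have hker : ∀ x : MvPolynomial (Fin (n + 1)) ℤ, x ∈ Ideal.span {gridPoly p a c} →
      MvPolynomial.eval₂Hom (Int.castRingHom S) s x = 0 := by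
    intro x hx
    obtain ⟨y, rfl⟩ := Ideal.mem_span_singleton'.1 hx
    unfold gridPoly
    rw [map_mul, map_sub, map_one, map_mul, map_prod]
    simp only [map_prod, map_sub, MvPolynomial.eval₂Hom_X', MvPolynomial.eval₂Hom_C,
      Int.coe_castRingHom, hs, sub_self, mul_zero]
  refine ⟨Ideal.Quotient.lift (Ideal.span {gridPoly p a c})
    (MvPolynomial.eval₂Hom (Int.castRingHom S) s) hker, ?_⟩
  intro m
  change Ideal.Quotient.lift (Ideal.span {gridPoly p a c})
    (MvPolynomial.eval₂Hom (Int.castRingHom S) s) hker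
      (Ideal.Quotient.mk (Ideal.span {gridPoly p a c}) (MvPolynomial.X m)) = s m
  rw [Ideal.Quotient.lift_mk]
  simp

/-- The grid symbols are unramified everywhere. -/
theorem grid_unramified (I : ∀ m, Fin (p m)) :
    Unramified (symM fun m => gridU p a c m (I m).succ / gridU p a c m 0) := by
  intro K _ φ O hO
  rw [KMQ.map_symM]
  set x : Fin (n + 1) → K := fun m => φ (gridX p a c m) with hx
  have hrel : (c : K) * ∏ m, ∏ i, (x m - (a m i : K)) = 1 := by
    have := congrArg φ (grid_rel (p := p) (a := a) (c := c))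
    simpa [map_mul, map_prod, map_sub] using this
  have hval : ∀ m, ((Units.map (φ : GridRing p a c →* K)
      (gridU p a c m (I m).succ / gridU p a c m 0) : Kˣ) : K) =
      (x m - (a m (I m).succ : K)) / (x m - (a m 0 : K)) := by
    intro m
    rw [map_div, Units.val_div_eq_div_val]
    simp [gridU_val, hx]
  have hne : ∀ m i, x m - (a m i : K) ≠ 0 := by
    intro m i h0
    have h1 : ∏ m, ∏ i, (x m - (a m i : K)) = 0 :=
      Finset.prod_eq_zero (Finset.mem_univ m) (Finset.prod_eq_zero (Finset.mem_univ i) h0)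
    rw [h1, mul_zero] at hrel
    exact zero_ne_one hrel
  by_cases hall : ∀ m, x m ∈ O
  · -- all entries are units
    refine Submodule.subset_span ⟨_, fun m => ?_, rfl⟩
    have hle : ∀ m i, O.valuation (x m - (a m i : K)) ≤ 1 := fun m i =>
      (O.valuation_le_one_iff _).2 (O.sub_mem (hall m) (int_mem O (a m i)))
    have hprodle : ∀ m, O.valuation (∏ i, (x m - (a m i : K))) ≤ 1 := by
      intro m
      rw [map_prod]
      exact Finset.prod_le_one' fun i _ => hle m i
    have hone : ∀ m i, O.valuation (x m - (a m i : K)) = 1 := by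
      intro m i
      by_contra hcon
      have hlt : O.valuation (x m - (a m i : K)) < 1 := lt_of_le_of_ne (hle m i) hcon
      have h1 : O.valuation (∏ i, (x m - (a m i : K))) < 1 := by
        rw [← Finset.mul_prod_erase _ _ (Finset.mem_univ i), map_mul]
        refine mul_lt_one_of_nonneg_of_lt_one_left zero_le hlt ?_
        rw [map_prod]
        exact Finset.prod_le_one' fun k _ => hle m k
      have h2 : O.valuation (∏ m, ∏ i, (x m - (a m i : K))) < 1 := by
        rw [← Finset.mul_prod_erase _ _ (Finset.mem_univ m), map_mul]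
        refine mul_lt_one_of_nonneg_of_lt_one_left zero_le h1 ?_
        rw [map_prod]
        exact Finset.prod_le_one' fun k _ => hprodle k
      have h3 := congrArg O.valuation hrel
      rw [map_mul, map_one, mul_comm] at h3
      have h4 : O.valuation (∏ m, ∏ i, (x m - (a m i : K))) * O.valuation (c : K) < 1 :=
        mul_lt_one_of_nonneg_of_lt_one_left zero_le h2 (val_int_le O c)
      rw [h3] at h4
      exact lt_irrefl _ h4
    rw [O.mem_unitGroup_iff, hval, map_div₀, hone, hone, div_one]
  · push Not at hall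
    obtain ⟨m, hm⟩ := hall
    refine symM_mem_of_sub_one O _ m ?_
    rw [hval]
    have hx1 : 1 < O.valuation (x m) := by
      rw [← O.valuation_le_one_iff, not_le] at hm
      exact hm
    have e : (x m - (a m (I m).succ : K)) / (x m - (a m 0 : K)) - 1 =
        ((a m 0 : K) - a m (I m).succ) / (x m - a m 0) := by
      have := hne m 0
      field_simp
      ring
    have hv : O.valuation (x m - a m 0) = O.valuation (x m) :=
      O.valuation.map_sub_eq_of_lt_left ((val_int_le O (a m 0)).trans_lt hx1)
    rw [e, map_div₀, hv]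
    have h2 : O.valuation ((a m 0 : K) - a m (I m).succ) ≤ 1 := by
      have := val_int_le O (a m 0 - a m (I m).succ)
      push_cast at this
      exact this
    exact (div_lt_one₀ (zero_lt_one.trans hx1)).2 (h2.trans_lt hx1)

end ring

end Pool.Agent.Helper11
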