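import Mathlib
import Pool.Agent.Helper11.GridMain

/-! Linear algebra for the grid: the maximum principle and the expansion of the symbols. -/

namespace Pool.Agent.Helper11

section maxp

variable {n : ℕ} {R : ℝ}
  {ι : Fin (n + 1) → Type*} [∀ m, Fintype (ι m)] [∀ m, DecidableEq (ι m)]
  {a : ∀ m, ι m → ℤ}

lemma sum_errT {J : ∀ m, ι m} (B : ∀ m, BranchData (a m) (J m)) :
    ∑ i : ∀ m, ι m, errT B i ≤ (n + 1) * (7 / 9) := by
  unfold errT
  rw [Finset.sum_comm]
  have hk : ∀ k : Fin (n + 1), ∑ i : ∀ m, ι m,
      (B k).s (i k) * ∏ m, (B (k.succAbove m)).s' (i (k.succAbove m)) ≤ 7 / 9 := by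
    intro k
    set w : ∀ m, ι m → ℝ := fun m l => if m = k then (B m).s l else (B m).s' l with hw
    have e1 : ∀ i : ∀ m, ι m, (B k).s (i k) * ∏ m, (B (k.succAbove m)).s' (i (k.succAbove m)) =
        ∏ m, w m (i m) := by
      intro i
      rw [Fin.prod_univ_succAbove _ k]
      simp only [hw, if_pos rfl, if_neg (Fin.succAbove_ne k _)]
    simp only [e1]
    have e2 := Finset.prod_univ_sum (fun m => (Finset.univ : Finset (ι m))) w
    rw [Fintype.piFinset_univ] at e2
    rw [← e2, Fin.prod_univ_succAbove _ k]
    simp only [hw, if_neg (Fin.succAbove_ne k _), ↓reduceIte]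
    have h1 : ∏ m, ∑ l, (B (k.succAbove m)).s' l ≤ 1 :=
      Finset.prod_le_one (fun m _ => Finset.sum_nonneg fun l _ => (B _).s0' l)
        fun m _ => (B _).sum_s'
    have h2 : 0 ≤ ∏ m, ∑ l, (B (k.succAbove m)).s' l :=
      Finset.prod_nonneg fun m _ => Finset.sum_nonneg fun l _ => (B _).s0' l
    have h3 : 0 ≤ ∑ l, (B k).s l := Finset.sum_nonneg fun l _ => (B k).s0 l
    have h4 := (B k).sum_s
    nlinarith
  calc ∑ k, ∑ i : ∀ m, ι m,
      (B k).s (i k) * ∏ m, (B (k.succAbove m)).s' (i (k.succAbove m)) ≤
        ∑ _k : Fin (n + 1), (7 / 9 : ℝ) := Finset.sum_le_sum fun k _ => hk k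
    _ = (n + 1) * (7 / 9) := by simp

lemma sum_slice (J : ∀ m, ι m) (k : Fin (n + 1)) (F : (∀ m, ι m) → ℝ) :
    ∑ i : ∀ m, ι m, F i * ∏ m, eps J (k.succAbove m) (i (k.succAbove m)) =
      ∑ l : ι k, F (Function.update J k l) := by
  have hinj : Function.Injective (Function.update J k) := Function.update_injective J k
  have h1 : ∑ l : ι k, F (Function.update J k l) =
      ∑ i ∈ Finset.univ.image (Function.update J k), F i := by
    rw [Finset.sum_image fun x _ y _ h => hinj h]
  rw [h1]
  symm
  have h2 : ∀ i : ∀ m, ι m, i ∈ Finset.univ.image (Function.update J k) ↔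
      ∀ m, i (k.succAbove m) = J (k.succAbove m) := by
    intro i
    constructor
    · intro hi m
      obtain ⟨l, -, rfl⟩ := Finset.mem_image.1 hi
      rw [Function.update_of_ne (Fin.succAbove_ne k m)]
    · intro h
      refine Finset.mem_image.2 ⟨i k, Finset.mem_univ _, ?_⟩
      funext m
      by_cases hm : m = k
      · subst hm
        simp
      · obtain ⟨m', rfl⟩ := Fin.exists_succAbove_eq hm
        rw [Function.update_of_ne hm, h]
  rw [← Finset.sum_subset (Finset.subset_univ (Finset.univ.image (Function.update J k)))]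
  · refine Finset.sum_congr rfl fun i hi => ?_
    have h3 := (h2 i).1 hi
    have h4 : ∏ m, eps J (k.succAbove m) (i (k.succAbove m)) = 1 :=
      Finset.prod_eq_one fun m _ => by
        unfold eps
        rw [if_pos (h3 m)]
    rw [h4, mul_one]
  · intro i _ hi
    have h3 : ¬ ∀ m, i (k.succAbove m) = J (k.succAbove m) := fun h => hi ((h2 i).2 h)
    push Not at h3
    obtain ⟨m, hm⟩ := h3
    have h4 : ∏ m, eps J (k.succAbove m) (i (k.succAbove m)) = 0 :=
      Finset.prod_eq_zero (Finset.mem_univ m) (by
        unfold eps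
        rw [if_neg hm])
    rw [h4, mul_zero]

lemma sum_mainT (J : ∀ m, ι m) (N : (∀ m, ι m) → ℝ) :
    ∑ i : ∀ m, ι m, N i * mainT R a J i = (n + 1) * Real.log R * N J +
      ∑ k, ∑ l ∈ Finset.univ.erase (J k), (N (Function.update J k l) - N J) *
        Real.log |((a k (J k) - a k l : ℤ) : ℝ)| := by
  unfold mainT
  simp only [Finset.mul_sum]
  rw [Finset.sum_comm]
  have hk : ∀ k : Fin (n + 1), ∑ i : ∀ m, ι m, N i * (beta R a J k (i k) *
      ∏ m, eps J (k.succAbove m) (i (k.succAbove m))) =
      Real.log R * N J + ∑ l ∈ Finset.univ.erase (J k), (N (Function.update J k l) - N J) *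
        Real.log |((a k (J k) - a k l : ℤ) : ℝ)| := by
    intro k
    have h1 := sum_slice J k (fun i => N i * beta R a J k (i k))
    simp only [mul_assoc] at h1
    rw [h1, ← Finset.add_sum_erase _ _ (Finset.mem_univ (J k))]
    simp only [Function.update_self, Function.update_eq_self]
    have h2 : ∑ l ∈ Finset.univ.erase (J k), N (Function.update J k l) * beta R a J k l =
        ∑ l ∈ Finset.univ.erase (J k), N (Function.update J k l) *
          Real.log |((a k (J k) - a k l : ℤ) : ℝ)| := by
      refine Finset.sum_congr rfl fun l hl => ?_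
      unfold beta
      rw [if_neg (Finset.ne_of_mem_erase hl)]
    rw [h2]
    unfold beta
    rw [if_pos rfl]
    simp only [sub_mul]
    rw [Finset.sum_sub_distrib, ← Finset.mul_sum]
    ring
  simp only [hk]
  rw [Finset.sum_add_distrib, Finset.sum_const, Finset.card_univ, Fintype.card_fin,
    nsmul_eq_mul]
  push_cast
  ring

/-- The maximum principle: the regulators of the grid symbols are independent. -/
theorem max_principle (hR0 : 0 < R) (hR : R ≤ 1 / 10) (ha : ∀ m, Function.Injective (a m))
    (B : ∀ J : ∀ m, ι m, ∀ m, BranchData (a m) (J m)) {C : ℝ} (hC : 0 < C)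
    (r : (∀ m, ι m) → (∀ m, ι m) → ℝ)
    (hr : ∀ J i, |r J i - C * mainT R a J i| ≤ C * errT (B J) i)
    (N : (∀ m, ι m) → ℝ) (hN : ∀ J, ∑ i, N i * r J i = 0) : ∀ i, N i = 0 := by
  have hlog : Real.log R < -(7 / 9) := by
    have h1 : Real.log R ≤ Real.log (1 / 10) := Real.log_le_log hR0 hR
    have h2 : Real.log (1 / 10) < -(7 / 9) := by
      rw [Real.log_lt_iff_lt_exp (by norm_num)]
      have h3 : (1 : ℝ) / 10 < 1 + -(7 / 9) := by norm_num
      exact h3.trans_le (by
        have := Real.add_one_le_exp (-(7 / 9) : ℝ)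
        linarith)
    linarith
  -- the key estimate at a maximum
  have key : ∀ (N : (∀ m, ι m) → ℝ), (∀ J, ∑ i, N i * r J i = 0) →
      ∀ J, (∀ i, |N i| ≤ N J) → N J ≤ 0 := by
    intro N hN J hJ
    by_contra hpos
    push Not at hpos
    have h1 : |∑ i, N i * (C * mainT R a J i)| ≤ C * ((n + 1) * (7 / 9)) * N J := by
      have e1 : ∑ i, N i * (C * mainT R a J i) =
          - ∑ i, N i * (r J i - C * mainT R a J i) := by
        simp only [mul_sub]
        rw [Finset.sum_sub_distrib, hN J]
        ring
      rw [e1, abs_neg]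
      calc |∑ i, N i * (r J i - C * mainT R a J i)|
          ≤ ∑ i, |N i * (r J i - C * mainT R a J i)| := Finset.abs_sum_le_sum_abs _ _
        _ ≤ ∑ i, N J * (C * errT (B J) i) := by
            refine Finset.sum_le_sum fun i _ => ?_
            rw [abs_mul]
            exact mul_le_mul (hJ i) (hr J i) (abs_nonneg _) hpos.le
        _ = N J * C * ∑ i, errT (B J) i := by
            rw [← Finset.mul_sum, ← Finset.mul_sum]
            ring
        _ ≤ N J * C * ((n + 1) * (7 / 9)) :=
            mul_le_mul_of_nonneg_left (sum_errT (B J)) (by positivity)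
        _ = _ := by ring
    have h2 : ∑ i, N i * (C * mainT R a J i) ≤ C * ((n + 1) * Real.log R * N J) := by
      have e1 : ∑ i, N i * (C * mainT R a J i) = C * ∑ i, N i * mainT R a J i := by
        rw [Finset.mul_sum]
        exact Finset.sum_congr rfl fun i _ => by ring
      rw [e1, sum_mainT]
      refine mul_le_mul_of_nonneg_left ?_ hC.le
      have h3 : ∑ k, ∑ l ∈ Finset.univ.erase (J k), (N (Function.update J k l) - N J) *
          Real.log |((a k (J k) - a k l : ℤ) : ℝ)| ≤ 0 := by
        refine Finset.sum_nonpos fun k _ => Finset.sum_nonpos fun l hl => ?_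
        have h4 : N (Function.update J k l) - N J ≤ 0 := by
          have := (le_abs_self _).trans (hJ (Function.update J k l))
          linarith
        have h5 : 0 ≤ Real.log |((a k (J k) - a k l : ℤ) : ℝ)| := by
          refine Real.log_nonneg (abs_cast_ge ?_)
          intro h0
          exact Finset.ne_of_mem_erase hl (ha k (by omega))
        exact mul_nonpos_of_nonpos_of_nonneg h4 h5
      linarith
    have h3 := neg_abs_le (∑ i, N i * (C * mainT R a J i))
    have h4 : 0 < C * ((n : ℝ) + 1) * N J := by positivity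
    nlinarith
  -- conclusion
  by_contra hcon
  push Not at hcon
  obtain ⟨i0, hi0⟩ := hcon
  obtain ⟨J, -, hJ⟩ := Finset.exists_max_image (Finset.univ : Finset (∀ m, ι m))
    (fun i => |N i|) ⟨i0, Finset.mem_univ _⟩
  have hJpos : 0 < |N J| := lt_of_lt_of_le (abs_pos.2 hi0) (hJ i0 (Finset.mem_univ _))
  rcases le_total 0 (N J) with h | h
  · have h1 := key N hN J fun i => (hJ i (Finset.mem_univ _)).trans (abs_of_nonneg h).le
    rw [abs_of_nonneg h] at hJpos
    linarith
  · have h1 := key (fun i => - N i) (fun J => by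
      simp only [neg_mul, Finset.sum_neg_distrib, hN J, neg_zero]) J
      fun i => by
        rw [abs_neg]
        exact (hJ i (Finset.mem_univ _)).trans (abs_of_nonpos h).le
    rw [abs_of_nonpos h] at hJpos
    linarith

end maxp

section expand

variable {A : Type*} [CommRing A] {d : ℕ}

/-- the symbol as a multilinear map -/
noncomputable def symMulti (A : Type*) [CommRing A] (d : ℕ) :
    MultilinearMap ℤ (fun _ : Fin d => Additive Aˣ) (KMQ A d) where
  toFun f := symM (R := A) fun m => (f m).toMul
  map_update_add' := by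
    intro hdec f i x y
    obtain rfl : hdec = instDecidableEqFin d := Subsingleton.elim _ _
    have e : ∀ w : Additive Aˣ, (fun m => (Function.update f i w m).toMul) =
        Function.update (fun m => (f m).toMul) i w.toMul := by
      intro w
      funext m
      by_cases hm : m = i
      · subst hm
        simp
      · simp [hm]
    rw [e, e, e, toMul_add]
    exact symM_update_mul _ _ _ _
  map_update_smul' := by
    intro hdec f i k x
    obtain rfl : hdec = instDecidableEqFin d := Subsingleton.elim _ _
    have e : ∀ w : Additive Aˣ, (fun m => (Function.update f i w m).toMul) =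
        Function.update (fun m => (f m).toMul) i w.toMul := by
      intro w
      funext m
      by_cases hm : m = i
      · subst hm
        simp
      · simp [hm]
    rw [e, e]
    let φ : Additive Aˣ →+ KMQ A d :=
      { toFun := fun w => symM (R := A) (Function.update (fun m => (f m).toMul) i w.toMul)
        map_zero' := symM_update_one _ _
        map_add' := fun u v => symM_update_mul _ _ _ _ }
    exact map_zsmul φ k x

lemma symM_expand {κ : Fin d → Type*} [∀ m, Fintype (κ m)] [∀ m, DecidableEq (κ m)]
    (u : ∀ m, κ m → Aˣ) (α β : ∀ m, κ m) :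
    symM (fun m => u m (α m) / u m (β m)) =
      ∑ i : ∀ m, κ m, (∏ m, ((if i m = α m then 1 else 0) - (if i m = β m then 1 else 0) : ℤ)) •
        symM (fun m => u m (i m)) := by
  have h1 : symM (fun m => u m (α m) / u m (β m)) =
      symMulti A d (fun m => ∑ l : κ m,
        ((if l = α m then 1 else 0) - (if l = β m then 1 else 0) : ℤ) •
          Additive.ofMul (u m l)) := by
    change _ = symM _
    congr 1
    funext m
    simp only [sub_smul, Finset.sum_sub_distrib, ite_smul, one_smul, zero_smul,
      Finset.sum_ite_eq', Finset.mem_univ, if_true]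
    rfl
  rw [h1, MultilinearMap.map_sum]
  refine Finset.sum_congr rfl fun i _ => ?_
  rw [MultilinearMap.map_smul_univ]
  rfl

end expand

end Pool.Agent.Helper11
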