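import Mathlib
import Pool.Agent.Helper11.GridLin

/-! The grid theorem. -/

namespace Pool.Agent.Helper11

open MeasureTheory Set Metric Topology

variable {n : ℕ} {p : Fin (n + 1) → ℕ} {a : ∀ m, Fin (p m + 1) → ℤ} {c : ℤ}

lemma prod_zf {ρ R : ℝ} (hc : (c : ℝ) * (ρ * R ^ n) = 1) (θ : Fin n → ℝ) :
    (c : ℂ) * ∏ m, zf ρ R m θ = 1 := by
  have h1 : ∏ m, zf ρ R m θ = ((ρ * R ^ n : ℝ) : ℂ) := by
    have h2 : ∀ m, zf ρ R m θ = ((rad n ρ R m : ℝ) : ℂ) * Complex.exp ((ang θ m : ℝ) * Complex.I) :=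
      fun m => by
        unfold zf
        rw [circleMap_zero]
    simp only [h2]
    rw [Finset.prod_mul_distrib, ← Complex.exp_sum, ← Finset.sum_mul]
    have h3 : ∑ m, ((ang θ m : ℝ) : ℂ) = 0 := by
      rw [Fin.sum_univ_succ]
      simp [ang]
    rw [h3, zero_mul, Complex.exp_zero, mul_one, Fin.prod_univ_succ]
    simp [rad]
  rw [h1]
  exact_mod_cast hc

/-- The ring homomorphism attached to a torus. -/
lemma exists_torusHom {ρ R : ℝ} (hR : 0 < R) (hR' : R < 13 / 125) (hρ : |ρ| = R)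
    (hc : (c : ℝ) * (ρ * R ^ n) = 1) {J : ∀ m, Fin (p m + 1)}
    (B : ∀ m, BranchData (a m) (J m)) :
    ∃ γ : GridRing p a c →+* TorusRing n, ∀ m i,
      ((γ (gridU p a c m i : GridRing p a c) : TorusRing n) : (Fin n → ℝ) → ℂ) =
        ff B ρ R m i := by
  set s : Fin (n + 1) → TorusRing n := fun m =>
    ⟨xf B ρ R m, xf_smooth hR hR' hρ B m, fun l θ => xf_per B m l θ⟩ with hs
  have hint : ∀ (k : ℤ), (((k : TorusRing n) : TorusRing n) : (Fin n → ℝ) → ℂ) =
      fun _ => (k : ℂ) := by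
    intro k
    rw [SubringClass.coe_intCast]
    rfl
  have hrel : (c : TorusRing n) * ∏ m, ∏ i, (s m - (a m i : TorusRing n)) = 1 := by
    apply Subtype.ext
    funext θ
    have e1 : (((c : TorusRing n) * ∏ m, ∏ i, (s m - (a m i : TorusRing n)) : TorusRing n) :
        (Fin n → ℝ) → ℂ) θ = (c : ℂ) * ∏ m, ∏ i, (xf B ρ R m θ - (a m i : ℂ)) := by
      rw [Subring.coe_mul, Pi.mul_apply, hint]
      congr 1
      rw [SubmonoidClass.coe_finsetProd, Finset.prod_apply]
      refine Finset.prod_congr rfl fun m _ => ?_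
      rw [SubmonoidClass.coe_finsetProd, Finset.prod_apply]
      refine Finset.prod_congr rfl fun i _ => ?_
      rw [AddSubgroupClass.coe_sub, Pi.sub_apply, hint]
    rw [e1]
    have e2 : ∀ m, ∏ i, (xf B ρ R m θ - (a m i : ℂ)) = zf ρ R m θ := fun m =>
      (B m).prod _ (zf_mem hR hR' hρ m θ)
    simp only [e2]
    exact prod_zf hc θ
  obtain ⟨γ, hγ⟩ := exists_gridHom (p := p) (a := a) (c := c) s hrel
  refine ⟨γ, fun m i => ?_⟩
  rw [gridU_val, map_sub, hγ, map_intCast, AddSubgroupClass.coe_sub, hint]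
  rfl

/-- the radius `|c|^{-1/(n+1)}` -/
lemma exists_radius (hc : 10 ^ (n + 1) ≤ |c|) : ∃ R ρ : ℝ, 0 < R ∧ R ≤ 1 / 10 ∧ |ρ| = R ∧
    (c : ℝ) * (ρ * R ^ n) = 1 := by
  have hc' : (10 : ℝ) ^ (n + 1) ≤ |(c : ℝ)| := by exact_mod_cast hc
  have hc0 : 0 < |(c : ℝ)| := lt_of_lt_of_le (by positivity) hc'
  have hcne : (c : ℝ) ≠ 0 := abs_pos.1 hc0
  set R : ℝ := (|(c : ℝ)|⁻¹) ^ (((n + 1 : ℕ) : ℝ)⁻¹) with hRdef
  have hR0 : 0 < R := Real.rpow_pos_of_pos (inv_pos.2 hc0) _
  have hRp : R ^ (n + 1) = |(c : ℝ)|⁻¹ :=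
    Real.rpow_inv_natCast_pow (inv_nonneg.2 hc0.le) (Nat.succ_ne_zero n)
  have hR1 : R ≤ 1 / 10 := by
    rw [← pow_le_pow_iff_left₀ hR0.le (by norm_num) (Nat.succ_ne_zero n), hRp, div_pow, one_pow,
      inv_eq_one_div]
    exact one_div_le_one_div_of_le (by positivity) hc'
  refine ⟨R, 1 / (c * R ^ n), hR0, hR1, ?_, ?_⟩
  · rw [abs_div, abs_one, abs_mul, abs_of_pos (pow_pos hR0 n)]
    have h1 : |(c : ℝ)| * R ^ (n + 1) = 1 := by
      rw [hRp]
      exact mul_inv_cancel₀ hc0.ne'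
    rw [div_eq_iff (by positivity)]
    calc (1 : ℝ) = |(c : ℝ)| * R ^ (n + 1) := h1.symm
      _ = R * (|(c : ℝ)| * R ^ n) := by ring
  · have : R ^ n ≠ 0 := (pow_pos hR0 n).ne'
    field_simp

/-- The grid theorem. -/
theorem grid_main (ha : ∀ m, Function.Injective (a m)) (hc : 10 ^ (n + 1) ≤ |c|) :
    ∃ u : ∀ m, Fin (p m + 1) → (GridRing p a c)ˣ,
      (∀ m i, (u m i : GridRing p a c) = gridX p a c m - a m i) ∧
      (∀ I : ∀ m, Fin (p m), Unramified (symM fun m => u m (I m).succ / u m 0)) ∧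
      ∃ R : (∀ m, Fin (p m + 1)) → (KMQ (GridRing p a c) (n + 1) →ₗ[ℚ] ℝ),
        (∀ J, IsTorusRegulator (R J)) ∧
        LinearIndependent ℝ fun (I : ∀ m, Fin (p m)) J =>
          R J (symM fun m => u m (I m).succ / u m 0) := by
  obtain ⟨R, ρ, hR0, hR1, hρ, hcR⟩ := exists_radius hc
  have hR' : R < 13 / 125 := lt_of_le_of_lt hR1 (by norm_num)
  have B : ∀ J : ∀ m, Fin (p m + 1), ∀ m, BranchData (a m) (J m) :=
    fun J m => (exists_branchData (ha m) (J m)).some
  choose γ hγ using fun J : ∀ m, Fin (p m + 1) =>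
    exists_torusHom (c := c) hR0 hR' hρ hcR (B J)
  obtain ⟨T, hT⟩ := exists_regTorus n
  set F : (∀ m, Fin (p m + 1)) → (KMQ (GridRing p a c) (n + 1) →ₗ[ℚ] ℝ) := fun J =>
    T.comp (KMQ.map (γ J) (n + 1)) with hF
  have hFs : ∀ J (f : Fin (n + 1) → (GridRing p a c)ˣ), F J (symM f) =
      regTorus (fun j => ((γ J (f j : GridRing p a c) : TorusRing n) : (Fin n → ℝ) → ℂ)) := by
    intro J f
    rw [hF]
    simp only [LinearMap.comp_apply]
    rw [KMQ.map_symM, hT]
    rfl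
  refine ⟨gridU p a c, fun m i => gridU_val m i, grid_unramified, F,
    fun J => ⟨γ J, hFs J⟩, ?_⟩
  -- independence
  set r : (∀ m, Fin (p m + 1)) → (∀ m, Fin (p m + 1)) → ℝ := fun J i =>
    F J (symM fun m => gridU p a c m (i m)) with hr
  have hrb : ∀ J i, |r J i - (2 * Real.pi) ^ n * mainT R a J i| ≤
      (2 * Real.pi) ^ n * errT (B J) i := by
    intro J i
    have h1 := regTorus_eval hR0 hR' hρ (B J) i
    have h2 : r J i = regTorus (fun m => ff (B J) ρ R m (i m)) := by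
      rw [hr]
      simp only
      rw [hFs]
      congr 1
      funext m
      exact hγ J m (i m)
    rw [h2]
    exact h1
  rw [Fintype.linearIndependent_iff]
  intro x hx
  -- the coefficient tensor
  set w : (∀ m, Fin (p m)) → (∀ m, Fin (p m + 1)) → ℤ := fun I i =>
    ∏ m, ((if i m = (I m).succ then 1 else 0) - (if i m = 0 then 1 else 0) : ℤ) with hw
  have hexp : ∀ J I, F J (symM fun m => gridU p a c m (I m).succ / gridU p a c m 0) =
      ∑ i, (w I i : ℝ) * r J i := by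
    intro J I
    rw [symM_expand (gridU p a c) (fun m => (I m).succ) (fun m => 0), map_sum]
    refine Finset.sum_congr rfl fun i _ => ?_
    rw [map_zsmul, zsmul_eq_mul]
  set N : (∀ m, Fin (p m + 1)) → ℝ := fun i => ∑ I, x I * w I i with hNdef
  have hN : ∀ J, ∑ i, N i * r J i = 0 := by
    intro J
    have h1 := congrFun hx J
    simp only [Finset.sum_apply, Pi.smul_apply, smul_eq_mul, Pi.zero_apply, hexp] at h1
    rw [← h1]
    simp only [hNdef, Finset.sum_mul, Finset.mul_sum]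
    rw [Finset.sum_comm]
    refine Finset.sum_congr rfl fun I _ => Finset.sum_congr rfl fun i _ => ?_
    ring
  have hN0 := max_principle hR0 hR1 ha (B)
    (C := (2 * Real.pi) ^ n) (by positivity) r hrb N hN
  intro I
  have h1 := hN0 (fun m => (I m).succ)
  have h2 : N (fun m => (I m).succ) = x I := by
    rw [hNdef]
    simp only
    rw [Finset.sum_eq_single I]
    · have : w I (fun m => (I m).succ) = 1 := by
        simp [hw]
      rw [this]
      simp
    · intro I' _ hI'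
      have : w I' (fun m => (I m).succ) = 0 := by
        obtain ⟨m, hm⟩ := Function.ne_iff.1 hI'
        rw [hw]
        refine Finset.prod_eq_zero (Finset.mem_univ m) ?_
        have h3 : ¬ (I m).succ = (I' m).succ := fun h => hm (Fin.succ_injective _ h).symm
        simp [h3]
      rw [this]
      simp
    · intro h
      exact absurd (Finset.mem_univ I) h
  rw [← h2]
  exact h1

end Pool.Agent.Helper11
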