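import Mathlib
import Pool.Agent.Helper11.Loop

/-! Ring homomorphisms from the function field of `w + 1/w = f(x)` to the loop ring. -/

namespace Pool.Agent.Helper11

open Polynomial

/-- the polynomial `Y² - f(X) Y + 1` -/
noncomputable def pXY (f : ℚ[X]) : ℚ[X][X] := X ^ 2 - C f * X + 1

lemma pXY_monic (f : ℚ[X]) : (pXY f).Monic := by
  unfold pXY
  monicity!

lemma pXY_natDegree (f : ℚ[X]) : (pXY f).natDegree = 2 := by
  unfold pXY
  compute_degree!

/-- no nonzero relation between conjugates: `f² - 4` is not a square -/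
def NotSq (f : ℚ[X]) : Prop := ∀ A B : ℚ[X], A ^ 2 + A * B * f + B ^ 2 = 0 → A = 0 ∧ B = 0

section lift

variable {L : Type*} [Field L] [Algebra ℚ L] {f : ℚ[X]} {ξ ω : L}

lemma eval₂_pXY (hω : ω ≠ 0) (h : ω + ω⁻¹ = aeval ξ f) :
    eval₂ (aeval ξ : ℚ[X] →ₐ[ℚ] L).toRingHom ω (pXY f) = 0 := by
  unfold pXY
  have e : eval₂ (aeval ξ : ℚ[X] →ₐ[ℚ] L).toRingHom ω (X ^ 2 - C f * X + 1) =
      ω ^ 2 - (aeval ξ f) * ω + 1 := by
    rw [eval₂_add, eval₂_sub, eval₂_mul, eval₂_pow, eval₂_X, eval₂_C, eval₂_one]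
    rfl
  rw [e, ← h]
  field_simp
  ring

/-- evaluation -/
noncomputable def ev (hω : ω ≠ 0) (h : ω + ω⁻¹ = aeval ξ f) : AdjoinRoot (pXY f) →+* L :=
  AdjoinRoot.lift (aeval ξ : ℚ[X] →ₐ[ℚ] L).toRingHom ω (eval₂_pXY hω h)

lemma ev_mk (hω : ω ≠ 0) (h : ω + ω⁻¹ = aeval ξ f) (g : ℚ[X][X]) :
    ev hω h (AdjoinRoot.mk _ g) = eval₂ (aeval ξ : ℚ[X] →ₐ[ℚ] L).toRingHom ω g :=
  AdjoinRoot.lift_mk _ _

lemma ev_injective (hf : NotSq f) (hξ : Transcendental ℚ ξ) (hω : ω ≠ 0)
    (h : ω + ω⁻¹ = aeval ξ f) : Function.Injective (ev hω h) := by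
  rw [injective_iff_map_eq_zero]
  intro z hz
  obtain ⟨q, rfl⟩ := AdjoinRoot.mk_surjective z
  have hq := Polynomial.modByMonic_add_div q (pXY f)
  set q' := q %ₘ pXY f with hq'
  have hdeg : q'.natDegree < 2 := by
    have := Polynomial.natDegree_modByMonic_lt q (pXY_monic f) (by
      intro h1
      have := pXY_natDegree f
      rw [h1, natDegree_one] at this
      omega)
    rwa [pXY_natDegree] at this
  have hmk : AdjoinRoot.mk (pXY f) q = AdjoinRoot.mk (pXY f) q' := by
    rw [← hq, map_add, map_mul, AdjoinRoot.mk_self, zero_mul, add_zero]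
  rw [hmk] at hz ⊢
  have hq2 : q' = C (q'.coeff 0) + C (q'.coeff 1) * X := by
    rw [add_comm]
    exact Polynomial.eq_X_add_C_of_natDegree_le_one (by omega)
  set A := q'.coeff 0
  set B := q'.coeff 1
  rw [ev_mk, hq2] at hz
  have e1 : eval₂ (aeval ξ : ℚ[X] →ₐ[ℚ] L).toRingHom ω (C A + C B * X) =
      aeval ξ A + aeval ξ B * ω := by
    rw [eval₂_add, eval₂_mul, eval₂_C, eval₂_C, eval₂_X]
    rfl
  rw [e1] at hz
  have hN : aeval ξ (A ^ 2 + A * B * f + B ^ 2) = 0 := by
    have e2 : aeval ξ (A ^ 2 + A * B * f + B ^ 2) =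
        (aeval ξ A + aeval ξ B * ω) * (aeval ξ A + aeval ξ B * ω⁻¹) := by
      simp only [map_add, map_mul, map_pow, ← h]
      field_simp
      ring
    rw [e2, hz, zero_mul]
  have hN0 : A ^ 2 + A * B * f + B ^ 2 = 0 := by
    by_contra hne
    exact hξ ⟨_, hne, hN⟩
  obtain ⟨hA, hB⟩ := hf A B hN0
  rw [hq2, hA, hB]
  simp

end lift

section frac

variable {K : Type*} [Field K] [CharZero K] {x w : K} {f : ℚ[X]}

/-- Main existence result: for a field `K = ℚ(x, w)`, `w + 1/w = f(x)`, and loops `ξ`, `ω` with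
`ω + 1/ω = f(ξ)` and `ξ t` transcendental for all `t`, there is a ring homomorphism from `K` to
the loop ring with `x ↦ ξ`, `w ↦ ω`. -/
theorem exists_hom (hf : NotSq f) (hx : Transcendental ℚ x) (hw : w ≠ 0)
    (h : w + w⁻¹ = aeval x f) (hK : IntermediateField.adjoin ℚ {x, w} = ⊤)
    {ξ ω : ℝ → ℂ} (hξ : ξ ∈ LoopRing) (hω : ω ∈ LoopRing) (hξt : ∀ t, Transcendental ℚ (ξ t))
    (hω0 : ∀ t, ω t ≠ 0) (hωf : ∀ t, ω t + (ω t)⁻¹ = aeval (ξ t) f) :
    ∃ γ : K →+* LoopRing, (γ x : ℝ → ℂ) = ξ ∧ (γ w : ℝ → ℂ) = ω := by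
  have hinj := ev_injective hf hx hw h
  let _ : Algebra (AdjoinRoot (pXY f)) K := (ev hw h).toAlgebra
  have halg : ∀ s, algebraMap (AdjoinRoot (pXY f)) K s = ev hw h s := fun s => rfl
  have : FaithfulSMul (AdjoinRoot (pXY f)) K := by
    rw [faithfulSMul_iff_algebraMap_injective]
    exact hinj
  have hrange : ∀ y ∈ Algebra.adjoin ℚ {x, w}, ∃ s, ev hw h s = y := by
    intro y hy
    induction hy using Algebra.adjoin_induction with
    | mem y hy =>
      rcases hy with rfl | hy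
      · refine ⟨AdjoinRoot.mk _ (C X), ?_⟩
        rw [ev_mk, eval₂_C]
        simp
      · rw [Set.mem_singleton_iff] at hy
        subst hy
        refine ⟨AdjoinRoot.mk _ X, ?_⟩
        rw [ev_mk, eval₂_X]
    | algebraMap q =>
      refine ⟨AdjoinRoot.mk _ (C (C q)), ?_⟩
      rw [ev_mk, eval₂_C]
      simp
    | add a b _ _ ha hb =>
      obtain ⟨s, rfl⟩ := ha
      obtain ⟨s', rfl⟩ := hb
      exact ⟨s + s', map_add _ _ _⟩
    | mul a b _ _ ha hb =>
      obtain ⟨s, rfl⟩ := ha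
      obtain ⟨s', rfl⟩ := hb
      exact ⟨s * s', map_mul _ _ _⟩
  have hsurj : ∀ z : K, ∃ a b : AdjoinRoot (pXY f), z = ev hw h a / ev hw h b := by
    intro z
    have hz : z ∈ IntermediateField.adjoin ℚ {x, w} := by
      rw [hK]
      trivial
    obtain ⟨r, hr, s, hs, rfl⟩ := IntermediateField.mem_adjoin_iff_div.1 hz
    obtain ⟨a, rfl⟩ := hrange r hr
    obtain ⟨b, rfl⟩ := hrange s hs
    exact ⟨a, b, rfl⟩
  have : IsFractionRing (AdjoinRoot (pXY f)) K := by
    refine IsFractionRing.of_field _ _ fun z => ?_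
    obtain ⟨a, b, rfl⟩ := hsurj z
    exact ⟨a, b, rfl⟩
  -- the embedding at each `t`
  let γt : ℝ → (K →+* ℂ) := fun t =>
    IsFractionRing.lift (ev_injective hf (hξt t) (hω0 t) (hωf t))
  have hγt : ∀ t s, γt t (ev hw h s) = ev (hω0 t) (hωf t) s := by
    intro t s
    exact IsFractionRing.lift_algebraMap (ev_injective hf (hξt t) (hω0 t) (hωf t)) s
  -- smoothness of the evaluation of elements of `S`
  have hS : ∀ s, (fun t => ev (hω0 t) (hωf t) s) ∈ LoopRing := by
    intro s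
    obtain ⟨q, rfl⟩ := AdjoinRoot.mk_surjective s
    have e : (fun t => ev (hω0 t) (hωf t) (AdjoinRoot.mk (pXY f) q)) =
        fun t => eval₂ (aeval (ξ t) : ℚ[X] →ₐ[ℚ] ℂ).toRingHom (ω t) q := by
      funext t
      exact ev_mk _ _ _
    rw [e]
    have hpoly : ∀ p : ℚ[X], (fun t => aeval (ξ t) p) ∈ LoopRing := by
      intro p
      constructor
      · have h1 : ContDiff ℂ 1 (fun z : ℂ => aeval z p) := Polynomial.contDiff_aeval p 1
        exact (h1.restrict_scalars ℝ).comp hξ.1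
      · intro t
        have := hξ.2 t
        simp only [this]
    induction q using Polynomial.induction_on' with
    | add p q hp hq =>
      have : (fun t => eval₂ (aeval (ξ t) : ℚ[X] →ₐ[ℚ] ℂ).toRingHom (ω t) (p + q)) =
          (fun t => eval₂ (aeval (ξ t) : ℚ[X] →ₐ[ℚ] ℂ).toRingHom (ω t) p) +
          (fun t => eval₂ (aeval (ξ t) : ℚ[X] →ₐ[ℚ] ℂ).toRingHom (ω t) q) := by
        funext t
        simp only [eval₂_add, Pi.add_apply]
      rw [this]
      refine LoopRing.add_mem ?_ ?_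
      · refine hp ?_
        funext t
        exact ev_mk _ _ _
      · refine hq ?_
        funext t
        exact ev_mk _ _ _
    | monomial n p =>
      have : (fun t => eval₂ (aeval (ξ t) : ℚ[X] →ₐ[ℚ] ℂ).toRingHom (ω t) (monomial n p)) =
          (fun t => aeval (ξ t) p) * ω ^ n := by
        funext t
        simp only [eval₂_monomial, Pi.mul_apply, Pi.pow_apply]
        rfl
      rw [this]
      exact LoopRing.mul_mem (hpoly p) (LoopRing.pow_mem hω n)
  -- smoothness in general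
  have hsm : ∀ z : K, (fun t => γt t z) ∈ LoopRing := by
    intro z
    obtain ⟨a, b, rfl⟩ := hsurj z
    by_cases hb : ev hw h b = 0
    · rw [hb, div_zero]
      simp only [map_zero]
      exact LoopRing.zero_mem
    · have hb' : ∀ t, ev (hω0 t) (hωf t) b ≠ 0 := by
        intro t h0
        apply hb
        rw [← hγt t] at h0
        exact (map_eq_zero (γt t)).1 h0
      have e : (fun t => γt t (ev hw h a / ev hw h b)) =
          (fun t => ev (hω0 t) (hωf t) a) * (fun t => ev (hω0 t) (hωf t) b)⁻¹ := by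
        funext t
        simp only [Pi.mul_apply, Pi.inv_apply]
        rw [map_div₀, hγt, hγt, div_eq_mul_inv]
      rw [e]
      refine LoopRing.mul_mem (hS a) ⟨(hS b).1.inv hb', fun t => ?_⟩
      exact congrArg (·⁻¹) ((hS b).2 t)
  refine ⟨{ toFun := fun z => ⟨fun t => γt t z, hsm z⟩
            map_one' := ?_, map_mul' := ?_, map_zero' := ?_, map_add' := ?_ }, ?_, ?_⟩
  · ext t
    simp
  · intro a b
    ext t
    simp
  · ext t
    simp
  · intro a b
    ext t
    simp
  · funext t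
    show γt t x = ξ t
    have e1 : x = ev hw h (AdjoinRoot.mk _ (C X)) := by
      rw [ev_mk, eval₂_C]
      simp
    rw [e1, hγt, ev_mk, eval₂_C]
    simp
  · funext t
    show γt t w = ω t
    have e1 : w = ev hw h (AdjoinRoot.mk _ X) := by
      rw [ev_mk, eval₂_X]
    rw [e1, hγt, ev_mk, eval₂_X]

end frac

end Pool.Agent.Helper11
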