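import Mathlib
import Pool.Agent.Helper11.Entry
import Pool.Agent.Helper11.Hom
import Pool.Agent.Helper11.Unram
import Pool.Agent.Helper11.LinAlg

/-! Main theorem for the hyperelliptic family. -/

namespace Pool.Agent.Helper11

open Complex Real

lemma exists_zeta (s : ℤ) (hs : |s| ≤ 2) : ∃ ζ : ℂ, ‖ζ‖ = 1 ∧ ζ + ζ⁻¹ = s := by
  have hs' := abs_le.1 hs
  have h1 : (-1 : ℝ) ≤ (s : ℝ) / 2 := by
    have : (-2 : ℝ) ≤ s := by exact_mod_cast hs'.1
    linarith
  have h2 : (s : ℝ) / 2 ≤ 1 := by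
    have : (s : ℝ) ≤ 2 := by exact_mod_cast hs'.2
    linarith
  refine ⟨Complex.exp (Real.arccos (s / 2) * I), Complex.norm_exp_ofReal_mul_I _, ?_⟩
  rw [← Complex.exp_neg, ← neg_mul]
  have e := Complex.two_cos ((Real.arccos (s / 2) : ℝ) : ℂ)
  rw [← e, ← Complex.ofReal_cos, Real.cos_arccos h1 h2]
  push_cast
  ring

lemma norm_int_sub (m n : ℤ) : ‖(m : ℂ) - (n : ℂ)‖ = ((|m - n| : ℤ) : ℝ) := by
  rw [← Int.cast_sub, Complex.norm_intCast, Int.cast_abs]

section good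

variable {g : ℕ} {a : Fin (g + 1) → ℤ} {c : ℤ} {r : ℝ} {ζ : ℂ}

lemma card_adj (ha : Function.Injective a) (j : Fin (g + 1)) :
    ((Finset.univ.erase j).filter (fun l => |a j - a l| = 1)).card ≤ 2 := by
  have h1 : ((Finset.univ.erase j).filter (fun l => |a j - a l| = 1)).image a ⊆
      {a j - 1, a j + 1} := by
    intro z hz
    rw [Finset.mem_image] at hz
    obtain ⟨l, hl, rfl⟩ := hz
    rw [Finset.mem_filter] at hl
    rw [Finset.mem_insert, Finset.mem_singleton]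
    have := hl.2
    rcases abs_cases (a j - a l) with h | h <;> omega
  rw [← Finset.card_image_of_injective _ ha]
  exact (Finset.card_le_card h1).trans Finset.card_le_two

lemma one_le_abs (ha : Function.Injective a) {j l : Fin (g + 1)} (h : l ≠ j) :
    1 ≤ |a j - a l| := by
  have : a j - a l ≠ 0 := fun h0 => h (ha (by omega))
  exact Int.one_le_abs this

lemma good1 (ha : Function.Injective a) (hc : 48 ≤ |c|) (hζ : ‖ζ‖ = 1) (hr1 : 42 / 100 < r)
    (hr2 : r < 1 / 2) (j : Fin (g + 1)) : Good (fun l => (a l : ℂ)) (c : ℂ) ζ r j := by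
  have hc0 : (c : ℂ) ≠ 0 := by
    intro h
    have : c = 0 := by exact_mod_cast h
    rw [this, abs_zero] at hc
    omega
  refine ⟨hζ, by linarith, hc0, ?_, ?_⟩
  · intro l hl
    rw [norm_int_sub]
    have h1 : (1 : ℝ) ≤ ((|a j - a l| : ℤ) : ℝ) := by exact_mod_cast one_le_abs ha hl
    linarith
  · have h1 : (1 - r) ^ 2 ≤ ∏ l ∈ Finset.univ.erase j, (‖(a j : ℂ) - (a l : ℂ)‖ - r) := by
      have h2 : ∏ l ∈ Finset.univ.erase j, (if |a j - a l| = 1 then (1 - r) else 1) ≤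
          ∏ l ∈ Finset.univ.erase j, (‖(a j : ℂ) - (a l : ℂ)‖ - r) := by
        refine Finset.prod_le_prod ?_ ?_
        · intro l _
          split_ifs <;> linarith
        · intro l hl
          rw [norm_int_sub]
          split_ifs with h3
          · rw [h3]
            simp
          · have h4 := one_le_abs ha (Finset.ne_of_mem_erase hl)
            have h5 : 2 ≤ |a j - a l| := by omega
            have h6 : (2 : ℝ) ≤ ((|a j - a l| : ℤ) : ℝ) := by exact_mod_cast h5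
            linarith
      refine le_trans ?_ h2
      rw [← Finset.prod_filter, Finset.prod_const]
      refine pow_le_pow_of_le_one (by linarith) (by linarith) (card_adj ha j)
    have h2 : (48 : ℝ) ≤ ‖(c : ℂ)‖ := by
      rw [Complex.norm_intCast]
      exact_mod_cast hc
    have h3 : (1 : ℝ) / 8 ≤ r * (1 - r) ^ 2 := by
      have h5 : 0 < -(r ^ 2 - 3 / 2 * r + 1 / 4) := by nlinarith
      nlinarith [mul_pos (sub_pos.2 hr2) h5]
    have h4 : (1 : ℝ) / 8 ≤ r * ∏ l ∈ Finset.univ.erase j, (‖(a j : ℂ) - (a l : ℂ)‖ - r) :=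
      h3.trans (mul_le_mul_of_nonneg_left h1 (by linarith))
    nlinarith

lemma good2 (hg : 1 ≤ g) {G : ℤ} (hG : 2 ≤ G) (hgap : ∀ i j, i ≠ j → G ≤ |a i - a j|)
    (hc : 24 ≤ |c| * G ^ 2) (hζ : ‖ζ‖ = 1) (hr1 : 42 / 100 * (G : ℝ) < r)
    (hr2 : r < 1 / 2 * (G : ℝ)) (j : Fin (g + 1)) :
    Good (fun l => (a l : ℂ)) (c : ℂ) ζ r j := by
  have hG' : (2 : ℝ) ≤ G := by exact_mod_cast hG
  have hc0 : (c : ℂ) ≠ 0 := by
    intro h
    have : c = 0 := by exact_mod_cast h
    rw [this, abs_zero] at hc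
    omega
  have hgap' : ∀ l, l ≠ j → (G : ℝ) ≤ ‖(a j : ℂ) - (a l : ℂ)‖ := by
    intro l hl
    rw [norm_int_sub]
    exact_mod_cast hgap j l (Ne.symm hl)
  refine ⟨hζ, by linarith, hc0, ?_, ?_⟩
  · intro l hl
    have := hgap' l hl
    linarith
  · have hex : ∃ l : Fin (g + 1), l ≠ j := by
      have : Nontrivial (Fin (g + 1)) := Fin.nontrivial_iff_two_le.2 (by omega)
      exact exists_ne j
    obtain ⟨l₀, hl₀⟩ := hex
    have h1 : (G : ℝ) - r ≤ ∏ l ∈ Finset.univ.erase j, (‖(a j : ℂ) - (a l : ℂ)‖ - r) := by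
      rw [← Finset.mul_prod_erase _ _ (Finset.mem_erase.2 ⟨hl₀, Finset.mem_univ l₀⟩)]
      have h2 : (1 : ℝ) ≤ ∏ l ∈ (Finset.univ.erase j).erase l₀,
          (‖(a j : ℂ) - (a l : ℂ)‖ - r) := by
        have h6 : ∏ _l ∈ (Finset.univ.erase j).erase l₀, (1 : ℝ) ≤
            ∏ l ∈ (Finset.univ.erase j).erase l₀, (‖(a j : ℂ) - (a l : ℂ)‖ - r) := by
          refine Finset.prod_le_prod (fun _ _ => zero_le_one) ?_
          intro l hl
          have := hgap' l (Finset.ne_of_mem_erase (Finset.mem_of_mem_erase hl))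
          linarith
        rwa [Finset.prod_const_one] at h6
      have h3 := hgap' l₀ hl₀
      nlinarith
    have h2 : (24 : ℝ) ≤ ‖(c : ℂ)‖ * (G : ℝ) ^ 2 := by
      rw [Complex.norm_intCast]
      exact_mod_cast hc
    have h3 : (29 / 120 : ℝ) * (G : ℝ) ^ 2 ≤ r * (G - r) := by nlinarith
    have h4 : (29 / 120 : ℝ) * (G : ℝ) ^ 2 ≤
        r * ∏ l ∈ Finset.univ.erase j, (‖(a j : ℂ) - (a l : ℂ)‖ - r) :=
      h3.trans (mul_le_mul_of_nonneg_left h1 (by linarith))
    have h5 := mul_le_mul_of_nonneg_left h4 (norm_nonneg (c : ℂ))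
    nlinarith

end good

end Pool.Agent.Helper11
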