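import Mathlib
import Pool.Agent.Helper11.Main1

/-! Squarefreeness of `f² - 4`. -/

namespace Pool.Agent.Helper11

open Polynomial

section

variable {g : ℕ} (a : Fin (g + 1) → ℤ) (c s : ℤ)

/-- `f = c ∏ (X - a_i) + s` -/
noncomputable def fpol : ℚ[X] := C (c : ℚ) * ∏ i, (X - C (a i : ℚ)) + C (s : ℚ)

lemma aeval_fpol {L : Type*} [Field L] [Algebra ℚ L] (z : L) :
    aeval z (fpol a c s) = c * ∏ i, (z - a i) + s := by
  unfold fpol
  rw [map_add, map_mul, map_prod, aeval_C, aeval_C]
  simp only [map_sub, aeval_X, map_intCast]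

variable {a c s} {r : ℝ} {ζ : ℂ} (H : ∀ j, Good (fun l => (a l : ℂ)) (c : ℂ) ζ r j)

include H in
lemma real_big (j : Fin (g + 1)) :
    (29 / 5 ≤ |c * ∏ l, ((a j : ℝ) + r - a l)|) ∧ (29 / 5 ≤ |c * ∏ l, ((a j : ℝ) - r - a l)|) := by
  have e0 : circleMap (a j : ℂ) r 0 = ((a j + r : ℝ) : ℂ) := by
    simp [circleMap]
  have e1 : circleMap (a j : ℂ) r Real.pi = ((a j - r : ℝ) : ℂ) := by
    simp [circleMap, Complex.exp_pi_mul_I]
    ring
  constructor
  · have h := (H j).big 0
    unfold cl at h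
    rw [e0] at h
    have e : (c : ℂ) * ∏ l, (((a j + r : ℝ) : ℂ) - a l) =
        ((c * ∏ l, ((a j : ℝ) + r - a l) : ℝ) : ℂ) := by push_cast; ring
    rw [e, Complex.norm_real, Real.norm_eq_abs] at h
    exact h
  · have h := (H j).big Real.pi
    unfold cl at h
    rw [e1] at h
    have e : (c : ℂ) * ∏ l, (((a j - r : ℝ) : ℂ) - a l) =
        ((c * ∏ l, ((a j : ℝ) - r - a l) : ℝ) : ℂ) := by push_cast; ring
    rw [e, Complex.norm_real, Real.norm_eq_abs] at h
    exact h

include H in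
lemma real_sign (j : Fin (g + 1)) :
    (c * ∏ l, ((a j : ℝ) + r - a l)) * (c * ∏ l, ((a j : ℝ) - r - a l)) < 0 := by
  have hr := (H j).hr
  have hc : (c : ℝ) ≠ 0 := by
    intro h
    apply (H j).hc
    have : c = 0 := by exact_mod_cast h
    rw [this]
    simp
  have e : (c * ∏ l, ((a j : ℝ) + r - a l)) * (c * ∏ l, ((a j : ℝ) - r - a l)) =
      (c : ℝ) ^ 2 * ∏ l, (((a j : ℝ) + r - a l) * ((a j : ℝ) - r - a l)) := by
    rw [Finset.prod_mul_distrib]
    ring
  rw [e, ← Finset.mul_prod_erase _ _ (Finset.mem_univ j)]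
  have h1 : 0 < ∏ l ∈ Finset.univ.erase j, (((a j : ℝ) + r - a l) * ((a j : ℝ) - r - a l)) := by
    refine Finset.prod_pos fun l hl => ?_
    have h2 := (H j).hout l (Finset.ne_of_mem_erase hl)
    have h3 : ‖(a j : ℂ) - (a l : ℂ)‖ = |(a j : ℝ) - a l| := by
      rw [norm_int_sub]
      push_cast
      rfl
    rw [h3] at h2
    have h4 : r ^ 2 < ((a j : ℝ) - a l) ^ 2 := by
      rw [← sq_abs ((a j : ℝ) - a l)]
      exact pow_lt_pow_left₀ h2 hr.le (by norm_num)
    nlinarith
  have h5 : ((a j : ℝ) + r - a j) * ((a j : ℝ) - r - a j) < 0 := by nlinarith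
  have h6 : 0 < (c : ℝ) ^ 2 := by positivity
  have h7 := mul_neg_of_neg_of_pos h5 h1
  exact mul_neg_of_pos_of_neg h6 h7

include H in
/-- `f` takes every value in `[-2, 2]` in the interval `(a_j - r, a_j + r)`. -/
lemma exists_value (hs : |s| ≤ 2) (j : Fin (g + 1)) (v : ℝ) (hv : |v| ≤ 2) :
    ∃ y : ℝ, |y - a j| < r ∧ (c * ∏ l, (y - a l) + s : ℝ) = v := by
  have hr := (H j).hr
  obtain ⟨h1, h2⟩ := real_big H j
  have h3 := real_sign H j
  set φ : ℝ → ℝ := fun y => c * ∏ l, (y - a l) with hφ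
  have hcont : Continuous φ := by
    rw [hφ]
    exact continuous_const.mul (continuous_finsetProd _ fun l _ => continuous_id.sub continuous_const)
  have hsr : |(s : ℝ)| ≤ 2 := by exact_mod_cast hs
  have hv' := abs_le.1 hv
  have hs' := abs_le.1 hsr
  have hφ1 : φ (a j + r) = c * ∏ l, ((a j : ℝ) + r - a l) := rfl
  have hφ2 : φ (a j - r) = c * ∏ l, ((a j : ℝ) - r - a l) := rfl
  rw [← hφ1] at h1 h3
  rw [← hφ2] at h2 h3
  have hmem : v - s ∈ Set.uIcc (φ (a j - r)) (φ (a j + r)) := by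
    rw [Set.mem_uIcc]
    rcases abs_cases (φ (a j + r)) with ⟨k1, k2⟩ | ⟨k1, k2⟩ <;>
    rcases abs_cases (φ (a j - r)) with ⟨k3, k4⟩ | ⟨k3, k4⟩
    · nlinarith
    · left
      constructor <;> linarith
    · right
      constructor <;> linarith
    · nlinarith
  obtain ⟨y, hy, hyv⟩ := intermediate_value_uIcc (hcont.continuousOn) hmem
  rw [Set.uIcc_of_le (by linarith)] at hy
  refine ⟨y, ?_, ?_⟩
  · rw [abs_lt]
    constructor
    · rcases eq_or_lt_of_le hy.1 with h | h
      · exfalso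
        rw [← h] at hyv
        rw [hyv] at h2
        have := abs_sub v (s : ℝ)
        rcases abs_cases (v - (s : ℝ)) with k | k <;> linarith
      · linarith
    · rcases eq_or_lt_of_le hy.2 with h | h
      · exfalso
        rw [h] at hyv
        rw [hyv] at h1
        rcases abs_cases (v - (s : ℝ)) with k | k <;> linarith
      · linarith
  · have : (c * ∏ l, (y - a l) : ℝ) = v - s := hyv
    rw [this]
    ring

include H in
lemma notSq_fpol (hs : |s| ≤ 2) : NotSq (fpol a c s) := by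
  obtain ⟨y₀, -, hy₀⟩ := exists_value H hs 0 0 (by norm_num)
  intro A B hAB
  have hcont : Continuous (fun y : ℝ => aeval y (fpol a c s)) :=
    Polynomial.continuous_aeval _
  have hnhds : {y : ℝ | |aeval y (fpol a c s)| < 2} ∈ nhds y₀ := by
    refine (isOpen_lt hcont.abs continuous_const).mem_nhds ?_
    show |aeval y₀ (fpol a c s)| < 2
    rw [aeval_fpol, hy₀]
    norm_num
  have hinf : {y : ℝ | |aeval y (fpol a c s)| < 2}.Infinite := infinite_of_mem_nhds y₀ hnhds
  have hboth : ∀ y ∈ {y : ℝ | |aeval y (fpol a c s)| < 2}, aeval y A = 0 ∧ aeval y B = 0 := by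
    intro y hy
    have h1 : aeval y (A ^ 2 + A * B * fpol a c s + B ^ 2) = 0 := by rw [hAB, map_zero]
    simp only [map_add, map_mul, map_pow] at h1
    have hy' := abs_lt.1 (show |aeval y (fpol a c s)| < 2 from hy)
    set u := aeval y A
    set v := aeval y B
    set w := aeval y (fpol a c s)
    have h2 : (u + v * w / 2) ^ 2 + v ^ 2 * (1 - w ^ 2 / 4) = 0 := by
      rw [← h1]
      ring
    have h3 : 0 < 1 - w ^ 2 / 4 := by nlinarith
    have h4 : v ^ 2 * (1 - w ^ 2 / 4) = 0 := by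
      have h5 : 0 ≤ v ^ 2 * (1 - w ^ 2 / 4) := by positivity
      nlinarith [sq_nonneg (u + v * w / 2)]
    have hv0 : v = 0 := by
      rcases mul_eq_zero.1 h4 with h6 | h6
      · exact pow_eq_zero_iff (by norm_num) |>.1 h6
      · exact absurd h6 h3.ne'
    rw [hv0] at h2
    have hu0 : u = 0 := by nlinarith
    exact ⟨hu0, hv0⟩
  have hzero : ∀ P : ℚ[X], (∀ y ∈ {y : ℝ | |aeval y (fpol a c s)| < 2}, aeval y P = 0) →
      P = 0 := by
    intro P hP
    have h1 : P.map (algebraMap ℚ ℝ) = 0 := by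
      refine Polynomial.eq_zero_of_infinite_isRoot _ (hinf.mono fun y hy => ?_)
      have := hP y hy
      rw [Set.mem_ofPred_eq, IsRoot.def, eval_map_algebraMap]
      exact this
    exact (Polynomial.map_eq_zero _).1 h1
  exact ⟨hzero A fun y hy => (hboth y hy).1, hzero B fun y hy => (hboth y hy).2⟩

lemma natDegree_fpol (hc : c ≠ 0) : (fpol a c s).natDegree = g + 1 := by
  unfold fpol
  rw [natDegree_add_C, natDegree_C_mul (by exact_mod_cast hc), natDegree_prod_of_monic]
  · rw [Finset.sum_congr rfl fun i _ => natDegree_X_sub_C _]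
    simp
  · intro i _
    exact monic_X_sub_C _

include H in
lemma squarefree_fpol (hs : |s| ≤ 2)
    (hsep : ∀ i j, i ≠ j → 2 * r ≤ |(a i : ℝ) - a j|) :
    Squarefree ((fpol a c s) ^ 2 - 4) := by
  classical
  have hc : c ≠ 0 := by
    intro h
    apply (H 0).hc
    rw [h]
    simp
  choose e1 he1 hv1 using fun j => exists_value H hs j 2 (by norm_num)
  choose e2 he2 hv2 using fun j => exists_value H hs j (-2) (by norm_num)
  have hdeg : ((fpol a c s) ^ 2 - 4 : ℚ[X]).natDegree = 2 * (g + 1) := by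
    have h4 : (4 : ℚ[X]) = C 4 := rfl
    rw [h4, natDegree_sub_C, natDegree_pow, natDegree_fpol hc]
  have hne : (fpol a c s) ^ 2 - 4 ≠ 0 := by
    intro h
    rw [h, natDegree_zero] at hdeg
    omega
  have hsep' : ∀ (y : ℝ) i j, |y - a i| < r → |y - a j| < r → i = j := by
    intro y i j hi hj
    by_contra hij
    have h1 := hsep i j hij
    have h2 := abs_lt.1 hi
    have h3 := abs_lt.1 hj
    rcases abs_cases ((a i : ℝ) - a j) with k | k <;> linarith
  have inj1 : Function.Injective e1 := fun i j hij =>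
    hsep' (e1 i) i j (he1 i) (by rw [hij]; exact he1 j)
  have inj2 : Function.Injective e2 := fun i j hij =>
    hsep' (e2 i) i j (he2 i) (by rw [hij]; exact he2 j)
  have hdisj : Disjoint (Finset.univ.image e1) (Finset.univ.image e2) := by
    rw [Finset.disjoint_left]
    intro y hy1 hy2
    rw [Finset.mem_image] at hy1 hy2
    obtain ⟨i, -, rfl⟩ := hy1
    obtain ⟨j, -, hj⟩ := hy2
    have h1 := hv1 i
    have h2 := hv2 j
    rw [hj, h1] at h2
    norm_num at h2
  refine squarefree_of_many_roots _ hne (Finset.univ.image e1 ∪ Finset.univ.image e2) ?_ ?_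
  · intro y hy
    have h4 : aeval y (4 : ℚ[X]) = 4 := by
      have h4 : (4 : ℚ[X]) = C 4 := rfl
      rw [h4, aeval_C]
      simp
    rw [map_sub, map_pow, aeval_fpol, h4]
    rw [Finset.mem_union, Finset.mem_image, Finset.mem_image] at hy
    rcases hy with ⟨i, -, rfl⟩ | ⟨i, -, rfl⟩
    · rw [hv1 i]
      norm_num
    · rw [hv2 i]
      norm_num
  · rw [hdeg, Finset.card_union_of_disjoint hdisj, Finset.card_image_of_injective _ inj1,
      Finset.card_image_of_injective _ inj2]
    simp only [Finset.card_univ, Fintype.card_fin]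
    omega

end

end Pool.Agent.Helper11
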