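import Mathlib
import Pool.Agent.Helper11.Main2

/-! Main theorem for the hyperelliptic family. -/

namespace Pool.Agent.Helper11

open Polynomial

section

variable {g : ℕ} {a : Fin (g + 1) → ℤ} {c s : ℤ}

/-- the numerical hypothesis on the parameters -/
def Hyp (a : Fin (g + 1) → ℤ) (c : ℤ) : Prop :=
  48 ≤ |c| ∨ ∃ G : ℤ, 2 ≤ G ∧ (∀ i j, i ≠ j → G ≤ |a i - a j|) ∧ 24 ≤ |c| * G ^ 2

/-- output of the choice of the radius -/
lemma exists_radius (hg : 1 ≤ g) (ha : Function.Injective a) (hc : Hyp a c) {ζ : ℂ}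
    (hζ : ‖ζ‖ = 1) :
    ∃ r : ℝ, Transcendental ℚ r ∧ (∀ j, Good (fun l => (a l : ℂ)) (c : ℂ) ζ r j) ∧
      (∀ i j, i ≠ j → 2 * r ≤ |(a i : ℝ) - a j|) ∧
      ((48 ≤ |c| ∧ r < 1 / 2) ∨
        (1 ≤ |c| ∧ ∀ i j, i ≠ j → 2 ≤ |a i - a j|)) := by
  rcases hc with hc | ⟨G, hG, hgap, hc⟩
  · obtain ⟨r, hr1, hr2, hr⟩ := exists_transcendental (show (42 / 100 : ℝ) < 1 / 2 by norm_num)
    refine ⟨r, hr, fun j => good1 ha hc hζ hr1 hr2 j, ?_, Or.inl ⟨hc, hr2⟩⟩
    intro i j hij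
    have h1 := one_le_abs ha (Ne.symm hij)
    have h2 : (1 : ℝ) ≤ |(a i : ℝ) - a j| := by exact_mod_cast h1
    linarith
  · have hG' : (2 : ℝ) ≤ G := by exact_mod_cast hG
    obtain ⟨r, hr1, hr2, hr⟩ := exists_transcendental
      (show (42 / 100 * (G : ℝ)) < 1 / 2 * G by nlinarith)
    refine ⟨r, hr, fun j => good2 hg hG hgap hc hζ hr1 hr2 j, ?_, Or.inr ⟨?_, ?_⟩⟩
    · intro i j hij
      have h2 : (G : ℝ) ≤ |(a i : ℝ) - a j| := by exact_mod_cast hgap i j hij
      linarith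
    · by_contra hcon
      have : |c| = 0 := by
        have := abs_nonneg c
        omega
      rw [this] at hc
      omega
    · intro i j hij
      exact hG.trans (hgap i j hij)

lemma dominance {ζ : ℂ} {r : ℝ} (ha : Function.Injective a)
    (H : ∀ j, Good (fun l => (a l : ℂ)) (c : ℂ) ζ r j)
    (hsep : ∀ i j, i ≠ j → 2 * r ≤ |(a i : ℝ) - a j|)
    (hcase : (48 ≤ |c| ∧ r < 1 / 2) ∨
        (1 ≤ |c| ∧ ∀ i j, i ≠ j → 2 ≤ |a i - a j|)) (j : Fin (g + 1)) :
    (∑ i ∈ Finset.univ.erase j, 2 * max (-(regInt (cl (a j : ℂ) r (a i : ℂ))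
        (wbr (Fl (fun l => (a l : ℂ)) (c : ℂ) ζ r j)) / (2 * Real.pi))) 0 <
      Real.log ‖(c : ℂ)‖) ∨
    (0 ≤ Real.log ‖(c : ℂ)‖ ∧ ∀ i, i ≠ j → 0 < regInt (cl (a j : ℂ) r (a i : ℂ))
        (wbr (Fl (fun l => (a l : ℂ)) (c : ℂ) ζ r j)) / (2 * Real.pi)) := by
  have hr := (H j).hr
  have hpi := Real.two_pi_pos
  have hoff : ∀ i, i ≠ j → Real.log ((|a j - a i| : ℤ) : ℝ) -
      24 / 35 * (r / (((|a j - a i| : ℤ) : ℝ) - r)) ≤
      regInt (cl (a j : ℂ) r (a i : ℂ))
        (wbr (Fl (fun l => (a l : ℂ)) (c : ℂ) ζ r j)) / (2 * Real.pi) := by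
    intro i hi
    have h := (H j).offdiag hi
    rw [norm_int_sub] at h
    rw [le_div_iff₀ hpi]
    linarith
  have hfrac : ∀ i, i ≠ j → r / (((|a j - a i| : ℤ) : ℝ) - r) ≤ 1 := by
    intro i hi
    have h1 := hsep j i (Ne.symm hi)
    have h2 : ((|a j - a i| : ℤ) : ℝ) = |(a j : ℝ) - a i| := by push_cast; rfl
    rw [h2, div_le_one (by linarith)]
    linarith
  have hlog2 : 24 / 35 < Real.log 2 := by
    have := Real.log_two_gt_d9
    linarith
  have hpos2 : ∀ i, i ≠ j → 2 ≤ |a j - a i| → 0 < regInt (cl (a j : ℂ) r (a i : ℂ))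
        (wbr (Fl (fun l => (a l : ℂ)) (c : ℂ) ζ r j)) / (2 * Real.pi) := by
    intro i hi h2
    have h2' : (2 : ℝ) ≤ ((|a j - a i| : ℤ) : ℝ) := by exact_mod_cast h2
    have h3 := Real.log_le_log (by norm_num) h2'
    have h4 := hoff i hi
    have h5 := hfrac i hi
    nlinarith
  rcases hcase with ⟨hc, hr2⟩ | ⟨hc, hgap⟩
  · left
    have hbound : ∀ i ∈ Finset.univ.erase j, 2 * max (-(regInt (cl (a j : ℂ) r (a i : ℂ))
        (wbr (Fl (fun l => (a l : ℂ)) (c : ℂ) ζ r j)) / (2 * Real.pi))) 0 ≤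
        if |a j - a i| = 1 then 48 / 35 else 0 := by
      intro i hi
      have hij := Finset.ne_of_mem_erase hi
      split_ifs with h1
      · have h4 := hoff i hij
        have h5 := hfrac i hij
        rw [h1] at h4 h5
        simp only [Int.cast_one, Real.log_one] at h4 h5
        have h6 : max (-(regInt (cl (a j : ℂ) r (a i : ℂ))
          (wbr (Fl (fun l => (a l : ℂ)) (c : ℂ) ζ r j)) / (2 * Real.pi))) 0 ≤ 24 / 35 := by
          refine max_le ?_ (by norm_num)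
          nlinarith
        linarith
      · have h2 := one_le_abs ha hij
        have h3 := hpos2 i hij (by omega)
        rw [max_eq_right (by linarith)]
        norm_num
    refine (Finset.sum_le_sum hbound).trans_lt ?_
    rw [← Finset.sum_filter, Finset.sum_const, nsmul_eq_mul]
    have h1 : (((Finset.univ.erase j).filter (fun l => |a j - a l| = 1)).card : ℝ) ≤ 2 := by
      exact_mod_cast card_adj ha j
    have h2 : (48 : ℝ) ≤ ‖(c : ℂ)‖ := by
      rw [Complex.norm_intCast]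
      exact_mod_cast hc
    have h3 : Real.log 32 ≤ Real.log ‖(c : ℂ)‖ := Real.log_le_log (by norm_num) (by linarith)
    have h4 : Real.log 32 = 5 * Real.log 2 := by
      rw [show (32 : ℝ) = 2 ^ 5 by norm_num, Real.log_pow]
      norm_num
    have := Real.log_two_gt_d9
    nlinarith
  · right
    refine ⟨?_, fun i hi => hpos2 i hi (hgap j i (Ne.symm hi))⟩
    refine Real.log_nonneg ?_
    rw [Complex.norm_intCast]
    exact_mod_cast hc

/-- **Main theorem.** -/
theorem hyper_main (hg : 1 ≤ g) (ha : Function.Injective a) (hs : |s| ≤ 2) (hc : Hyp a c)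
    {K : Type*} [Field K] [CharZero K] (x : K) (hx : Transcendental ℚ x)
    (U : Fin (g + 1) → Kˣ) (hU : ∀ k, (U k : K) = x - a k) (W : Kˣ)
    (hWx : (W : K) + (W : K)⁻¹ = c * ∏ k, (U k : K) + s)
    (hK : IntermediateField.adjoin ℚ {x, (W : K)} = ⊤) :
    Squarefree ((fpol a c s) ^ 2 - 4) ∧
    (∀ i : Fin g, sym (U i.succ / U 0) W ∈ integralPart K) ∧
    ∃ (γ : Fin (g + 1) → (K →+* LoopRing)) (R : Fin (g + 1) → (K2Q K →ₗ[ℚ] ℝ)),
      (∀ j (u v : Kˣ), R j (sym u v) =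
        regInt (γ j (u : K) : ℝ → ℂ) (γ j (v : K) : ℝ → ℂ)) ∧
      LinearIndependent ℝ
        (fun i : Fin g => fun j : Fin (g + 1) => R j (sym (U i.succ / U 0) W)) := by
  have hxa : ∀ k, x - (a k : K) ≠ 0 := fun k => by rw [← hU k]; exact (U k).ne_zero
  have hw0 : (W : K) ≠ 0 := W.ne_zero
  have hw : (W : K) + (W : K)⁻¹ = c * ∏ i, (x - a i) + s := by
    rw [hWx]
    congr 2
    exact Finset.prod_congr rfl fun k _ => hU k
  obtain ⟨ζ, hζ1, hζ2⟩ := exists_zeta s hs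
  obtain ⟨r, hrt, H, hsep, hcase⟩ := exists_radius hg ha hc hζ1
  refine ⟨squarefree_fpol H hs hsep, ?_⟩
  have hc0 : (c : ℤ) ≠ 0 := by
    intro h
    apply (H 0).hc
    rw [h]
    simp
  have hwf : (W : K) + (W : K)⁻¹ = aeval x (fpol a c s) := by rw [hw, aeval_fpol]
  -- the loops
  have hex : ∀ j : Fin (g + 1), ∃ γ : K →+* LoopRing,
      (γ x : ℝ → ℂ) = circleMap (a j : ℂ) r ∧
      (γ (W : K) : ℝ → ℂ) = wbr (Fl (fun l => (a l : ℂ)) (c : ℂ) ζ r j) := by
    intro j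
    have hWl := (H j).isLoop_W
    refine exists_hom (notSq_fpol H hs) hx hw0 hwf hK
      ⟨contDiff_circleMap _ _, periodic_circleMap _ _⟩ ⟨hWl.cd, hWl.per⟩
      (fun t => transcendental_circle hrt t) hWl.ne ?_
    intro t
    rw [wbr_add_inv (H j).two_lt t, aeval_fpol]
    unfold Fl cl
    rw [hζ2]
  choose γ hγx hγw using hex
  choose R hR using fun j => exists_reg (γ j)
  refine ⟨?_, γ, R, hR, ?_⟩
  · intro i
    refine sym_integral a c s hs hw0 hw i.succ 0 (hxa _) (hxa _) ?_ rfl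
    rw [Units.val_div_eq_div_val, hU, hU]
  · have hRU : ∀ j k, R j (sym (U k) W) = regInt (cl (a j : ℂ) r (a k : ℂ))
        (wbr (Fl (fun l => (a l : ℂ)) (c : ℂ) ζ r j)) := by
      intro j k
      rw [hR, hU, hγw, map_sub, map_intCast]
      congr 1
      funext t
      have := congrFun (hγx j) t
      rw [AddSubgroupClass.coe_sub, Pi.sub_apply, this, SubringClass.coe_intCast,
        Pi.intCast_apply]
      rfl
    rw [Fintype.linearIndependent_iff]
    intro n hn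
    have hpi : (2 * Real.pi) ≠ 0 := Real.two_pi_pos.ne'
    -- the extended vector
    set N : Fin (g + 1) → ℝ := Fin.cons (-∑ i, n i) n with hN
    have hsum : ∑ i, N i = 0 := by
      rw [Fin.sum_univ_succ, hN]
      simp
    have hrow : ∀ j, ∑ i, regInt (cl (a j : ℂ) r (a i : ℂ))
        (wbr (Fl (fun l => (a l : ℂ)) (c : ℂ) ζ r j)) / (2 * Real.pi) =
          -Real.log ‖(c : ℂ)‖ := by
      intro j
      rw [← Finset.sum_div, (H j).row_sum]
      field_simp
    have hzero : ∀ j, ∑ i, N i * (regInt (cl (a j : ℂ) r (a i : ℂ))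
        (wbr (Fl (fun l => (a l : ℂ)) (c : ℂ) ζ r j)) / (2 * Real.pi)) = 0 := by
      intro j
      have h1 := congrFun hn j
      simp only [div_eq_mul_inv (U _), Finset.sum_apply, Pi.smul_apply, Pi.zero_apply, smul_eq_mul, sym_mul_left,
        sym_inv_left, map_add, map_neg, hRU] at h1
      rw [Fin.sum_univ_succ, hN]
      simp only [Fin.cons_zero, Fin.cons_succ]
      have e : (-∑ i, n i) * (regInt (cl (a j : ℂ) r (a 0 : ℂ))
          (wbr (Fl (fun l => (a l : ℂ)) (c : ℂ) ζ r j)) / (2 * Real.pi)) +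
          ∑ i : Fin g, n i * (regInt (cl (a j : ℂ) r (a i.succ : ℂ))
          (wbr (Fl (fun l => (a l : ℂ)) (c : ℂ) ζ r j)) / (2 * Real.pi)) =
          (∑ i : Fin g, n i * (regInt (cl (a j : ℂ) r (a i.succ : ℂ))
          (wbr (Fl (fun l => (a l : ℂ)) (c : ℂ) ζ r j)) +
          -regInt (cl (a j : ℂ) r (a 0 : ℂ))
          (wbr (Fl (fun l => (a l : ℂ)) (c : ℂ) ζ r j)))) / (2 * Real.pi) := by
        rw [Finset.sum_div, neg_mul, Finset.sum_mul, ← Finset.sum_neg_distrib,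
          ← Finset.sum_add_distrib]
        refine Finset.sum_congr rfl fun i _ => ?_
        ring
      rw [e, h1, zero_div]
    have hfin := eq_zero_of_dominant
      (fun j i => regInt (cl (a j : ℂ) r (a i : ℂ))
        (wbr (Fl (fun l => (a l : ℂ)) (c : ℂ) ζ r j)) / (2 * Real.pi))
      (Real.log ‖(c : ℂ)‖) hrow (fun j => dominance ha H hsep hcase j) N hsum hzero
    intro i
    have := congrFun hfin i.succ
    rw [hN, Fin.cons_succ] at this
    exact this

end

end Pool.Agent.Helper11
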