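import Pool.Agent.Helper11.RecipSearch

/-!
# A table of odd primes: at most `1411` distinct odd primes have reciprocal sum less than `2`
-/

set_option autoImplicit false

namespace RecipLaw

open Finset

/-- the odd primes up to `107` -/
def smallP : List ℕ := [3, 5, 7, 11, 13, 17, 19, 23, 29, 31, 37, 41, 43, 47, 53, 59, 61, 67, 71, 73,
  79, 83, 89, 97, 101, 103, 107]

/-- their product -/
def PP : ℕ := smallP.prod

/-- test for odd primes below `11881` -/
def tst (p : ℕ) : Bool :=
  if p < 109 then smallP.contains p else (p % 2 == 1) && (Nat.gcd p PP == 1)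

theorem small_test : ∀ p < 109, p.Prime → p % 2 = 1 → smallP.contains p = true := by
  decide +kernel

theorem tst_prime {p : ℕ} (hp : p.Prime) (h2 : p % 2 = 1) : tst p = true := by
  unfold tst
  by_cases h : p < 109
  · rw [if_pos h]
    exact small_test p h hp h2
  · rw [if_neg h, Bool.and_eq_true]
    refine ⟨by simpa using h2, ?_⟩
    have h3 : Nat.Coprime p PP := by
      rw [Nat.Prime.coprime_iff_not_dvd hp]
      intro hd
      unfold PP at hd
      obtain ⟨q, hq, hpq⟩ := (Prime.dvd_prod_iff hp.prime).1 hd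
      have h4 : ∀ q ∈ smallP, 0 < q ∧ q < 109 := by decide
      have h5 := h4 q hq
      have h6 := Nat.le_of_dvd h5.1 hpq
      omega
    have h7 : Nat.gcd p PP = 1 := h3
    simpa using h7

/-- counting and summing: `c` counts the elements, `s` sums `⌊10^9/k⌋ + 1` -/
def cnt : ℕ → ℕ → ℕ → ℕ → ℕ × ℕ
  | 0, _, c, s => (c, s)
  | n + 1, k, c, s => if tst k then cnt n (k + 1) (c + 1) (s + (10 ^ 9 / k + 1)) else
      cnt n (k + 1) c s

theorem cnt_spec (n : ℕ) : ∀ k c s : ℕ,
    cnt n k c s = (c + ((Ico k (k + n)).filter fun p => tst p = true).card,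
      s + ∑ p ∈ (Ico k (k + n)).filter (fun p => tst p = true), (10 ^ 9 / p + 1)) := by
  induction n with
  | zero =>
    intro k c s
    simp [cnt]
  | succ n ih =>
    intro k c s
    have h1 : Ico k (k + (n + 1)) = insert k (Ico (k + 1) (k + 1 + n)) := by
      ext a
      rw [mem_insert, mem_Ico, mem_Ico]
      omega
    have h2 : k ∉ (Ico (k + 1) (k + 1 + n)).filter (fun p => tst p = true) := by
      rw [mem_filter, mem_Ico]
      omega
    unfold cnt
    by_cases h : tst k = true
    · rw [if_pos h, ih, h1, filter_insert, if_pos h, card_insert_of_notMem h2, sum_insert h2]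
      ext
      · show c + 1 + _ = c + (_ + 1)
        omega
      · show s + (10 ^ 9 / k + 1) + _ = s + (10 ^ 9 / k + 1 + _)
        omega
    · rw [if_neg h, ih, h1, filter_insert, if_neg h]

theorem cnt_spec0 (n k : ℕ) :
    cnt n k 0 0 = (((Ico k (k + n)).filter fun p => tst p = true).card,
      ∑ p ∈ (Ico k (k + n)).filter (fun p => tst p = true), (10 ^ 9 / p + 1)) := by
  rw [cnt_spec, zero_add, zero_add]

/-- the table -/
def FF : Finset ℕ := (Ico 2 (2 + 11782)).filter fun p => tst p = true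

theorem FF_count : cnt 11782 2 0 0 = (1411, 1999936577) := by decide +kernel

theorem FF_card : FF.card = 1411 := by
  have h := cnt_spec0 11782 2
  rw [FF_count] at h
  exact (congrArg Prod.fst h).symm

theorem FF_mem {p : ℕ} (hp : p.Prime) (h2 : p % 2 = 1) (h : p < 11784) : p ∈ FF := by
  unfold FF
  rw [mem_filter, mem_Ico]
  exact ⟨⟨hp.two_le, h⟩, tst_prime hp h2⟩

theorem FF_le : ∀ q ∈ FF, 0 < q ∧ q ≤ 11784 := by
  intro q hq
  unfold FF at hq
  rw [mem_filter, mem_Ico] at hq
  omega

theorem FF_sum : ∑ q ∈ FF, (1 : ℚ) / q < 2 := by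
  have h1 : ∀ q ∈ FF, (1 : ℚ) / q ≤ ((10 ^ 9 / q + 1 : ℕ) : ℚ) / 10 ^ 9 := by
    intro q hq
    have h2 := FF_le q hq
    have h3 : (0 : ℚ) < q := by exact_mod_cast h2.1
    rw [div_le_div_iff₀ h3 (by norm_num), one_mul]
    have h4 : 10 ^ 9 < q * (10 ^ 9 / q + 1) := Nat.lt_mul_div_succ _ h2.1
    have h5 : (10 ^ 9 : ℕ) ≤ (10 ^ 9 / q + 1) * q := by
      rw [mul_comm]
      exact h4.le
    exact_mod_cast h5
  refine (sum_le_sum h1).trans_lt ?_
  rw [← sum_div, ← Nat.cast_sum]
  have h := cnt_spec0 11782 2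
  rw [FF_count] at h
  have h7 : ∑ q ∈ FF, (10 ^ 9 / q + 1) = 1999936577 := (congrArg Prod.snd h).symm
  rw [h7, div_lt_iff₀ (by norm_num)]
  norm_num

/-- at most `1411` distinct odd primes have reciprocal sum less than `2` -/
theorem sum1411 {T : Finset ℕ} (hT : ∀ p ∈ T, p.Prime ∧ p % 2 = 1) (hc : T.card ≤ 1411) :
    ∑ p ∈ T, (1 : ℚ) / p < 2 := by
  refine (sum_inv_le 11784 (by norm_num) FF_le ?_ ?_).trans_lt FF_sum
  · intro p hp hpF
    by_contra h
    exact hpF (FF_mem (hT p hp).1 (hT p hp).2 (by omega))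
  · rw [FF_card]
    exact hc

/-- the odd primes below `2000` -/
def LL : List ℕ := (List.range 2000).filter tst

theorem srch_ten : srch 10 1 1 LL = true := by decide +kernel

theorem srch_two : srch 2 1 1 LL = true := by decide +kernel

theorem LL_pairwise : LL.Pairwise (· < ·) := List.pairwise_lt_range.filter _

theorem LL_bd : ∀ q ∈ LL, 1 < q ∧ q < 2000 := by
  have h : ∀ q < 2000, tst q = true → 1 < q := by decide +kernel
  intro q hq
  unfold LL at hq
  rw [List.mem_filter, List.mem_range] at hq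
  exact ⟨h q hq.1 hq.2, hq.1⟩

/-- there is no set of `2` or `10` odd primes with `∑ 1/p - 1/∏ p = 1` -/
theorem no_two_ten {S : Finset ℕ} (hS : ∀ p ∈ S, p.Prime ∧ p % 2 = 1)
    (hc : S.card = 2 ∨ S.card = 10) : cofs S ≠ (∏ i ∈ S, i) + 1 := by
  have h1 : ∀ q ∈ S, q ∈ LL ∨ 2000 ≤ q := by
    intro q hq
    by_cases h : q < 2000
    · left
      unfold LL
      rw [List.mem_filter, List.mem_range]
      exact ⟨h, tst_prime (hS q hq).1 (hS q hq).2⟩
    · right
      omega
  have h2 : ∀ q ∈ S, 1 < q := fun q hq => (hS q hq).1.one_lt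
  intro heq
  rcases hc with hc | hc
  · refine srch_sound 2000 LL 2 1 1 LL_pairwise LL_bd one_pos one_pos srch_two S hc h1 h2 ?_
    rw [one_mul, one_mul, heq]
  · refine srch_sound 2000 LL 10 1 1 LL_pairwise LL_bd one_pos one_pos srch_ten S hc h1 h2 ?_
    rw [one_mul, one_mul, heq]

end RecipLaw
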