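import Pool.Agent.Helper11.RecipOdd
import Pool.Agent.Helper11.RecipTab

/-!
# MP_b905d3_nt: odd Giuga numbers have at least `18` prime factors

More precisely their number is `k + 1` modulo `8` for `k = ∑ 1/p - 1/n`.
-/

set_option autoImplicit false

namespace Pool.Agent.Helper11.OddGiuga

open Finset RecipLaw

/-- **Odd Giuga numbers.** -/
theorem result (n : ℕ) (hodd : Odd n) (h1 : 1 < n) (hnp : ¬ n.Prime)
    (h : ∀ p : ℕ, p.Prime → p ∣ n → (p : ℤ) ∣ ((n / p : ℕ) : ℤ) - 1) :
    18 ≤ n.primeFactors.card ∧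
    ((n.primeFactors.filter fun p => p % 4 = 3).card % 4 = 0 ∨
      (n.primeFactors.filter fun p => p % 4 = 3).card % 4 = 1) ∧
    ∃ k : ℕ, (∑ p ∈ n.primeFactors, (1 : ℚ) / p) - 1 / n = k ∧
      n.primeFactors.card ≡ k + 1 [MOD 8] ∧ (n.primeFactors.card ≤ 1411 → k = 1) := by
  have hn0 : n ≠ 0 := by omega
  have hsq : Squarefree n := by
    rw [Nat.squarefree_iff_prime_squarefree]
    intro p hp hpp
    have h2 := h p hp ((dvd_mul_right p p).trans hpp)
    have h3 : p ∣ n / p := by
      obtain ⟨c, hc⟩ := hpp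
      refine ⟨c, ?_⟩
      rw [hc, mul_assoc]
      exact Nat.mul_div_cancel_left _ hp.pos
    have h4 : (p : ℤ) ∣ 1 := by
      have h5 := dvd_sub (Int.natCast_dvd_natCast.2 h3) h2
      rwa [sub_sub_cancel] at h5
    exact hp.one_lt.ne' (Nat.dvd_one.1 (by exact_mod_cast h4))
  have hprod : ∏ p ∈ n.primeFactors, p = n := Nat.prod_primeFactors_of_squarefree hsq
  have herase : ∀ j ∈ n.primeFactors, ∏ i ∈ n.primeFactors.erase j, i = n / j := by
    intro j hj
    have h2 := mul_prod_erase n.primeFactors (fun p => p) hj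
    rw [hprod] at h2
    have h3 := Nat.pos_of_mem_primeFactors hj
    exact (Nat.div_eq_of_eq_mul_right h3 h2.symm).symm
  have hx : ∀ i ∈ n.primeFactors, i % 2 = 1 := by
    intro i hi
    have h2 := Nat.dvd_of_mem_primeFactors hi
    exact Nat.odd_iff.1 (hodd.of_dvd_nat h2)
  have hs : ∀ j ∈ n.primeFactors,
      ((j : ℕ) : ℤ) ∣ 1 * ((∏ i ∈ n.primeFactors.erase j, i : ℕ) : ℤ) + -1 := by
    intro j hj
    rw [herase j hj, one_mul, ← sub_eq_add_neg]
    exact h j (Nat.prime_of_mem_primeFactors hj) (Nat.dvd_of_mem_primeFactors hj)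
  have hc := coprime_of_system (x := fun p : ℕ => p) 1 (-1) (Or.inr rfl) hs
  have hd := dvd_total (x := fun p : ℕ => p) 1 (-1) hc hs
  rw [hprod] at hd
  -- at least two primes
  have hcard2 : 2 ≤ n.primeFactors.card := by
    by_contra hcon
    have h2 : n.primeFactors.card = 0 ∨ n.primeFactors.card = 1 := by omega
    rcases h2 with h2 | h2
    · rw [card_eq_zero] at h2
      rw [h2, prod_empty] at hprod
      omega
    · obtain ⟨p, hp⟩ := card_eq_one.1 h2
      have h3 : p ∈ n.primeFactors := by rw [hp]; exact mem_singleton_self p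
      rw [hp, prod_singleton] at hprod
      rw [← hprod] at hnp
      exact hnp (Nat.prime_of_mem_primeFactors h3)
  have hN2 : 2 ≤ ∑ j ∈ n.primeFactors, ∏ i ∈ n.primeFactors.erase j, i := by
    have h2 : n.primeFactors.card • 1 ≤ ∑ j ∈ n.primeFactors, ∏ i ∈ n.primeFactors.erase j, i := by
      apply card_nsmul_le_sum
      intro j _
      show 0 < _
      apply prod_pos
      intro i hi
      exact Nat.pos_of_mem_primeFactors (mem_of_mem_erase hi)
    rw [smul_eq_mul, mul_one] at h2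
    omega
  obtain ⟨k, hk⟩ : ∃ k : ℕ, k * n + 1 = ∑ j ∈ n.primeFactors, ∏ i ∈ n.primeFactors.erase j, i := by
    have h2 : n ∣ (∑ j ∈ n.primeFactors, ∏ i ∈ n.primeFactors.erase j, i) - 1 := by
      apply Int.natCast_dvd_natCast.1
      rw [Nat.cast_sub (by omega), Nat.cast_one]
      rwa [one_mul, ← sub_eq_add_neg] at hd
    obtain ⟨k, hk⟩ := h2
    refine ⟨k, ?_⟩
    rw [mul_comm, ← hk]
    omega
  have hcast : (∑ p ∈ n.primeFactors, (1 : ℚ) / p) * n =
      ((∑ j ∈ n.primeFactors, ∏ i ∈ n.primeFactors.erase j, i : ℕ) : ℚ) := by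
    rw [sum_mul, Nat.cast_sum]
    refine sum_congr rfl fun j hj => ?_
    rw [herase j hj, Nat.cast_div (Nat.dvd_of_mem_primeFactors hj)
      (by exact_mod_cast (Nat.pos_of_mem_primeFactors hj).ne')]
    ring
  have hnQ : (0 : ℚ) < n := by exact_mod_cast (by omega : 0 < n)
  have hkQ : (∑ p ∈ n.primeFactors, (1 : ℚ) / p) - 1 / n = k := by
    rw [← hk] at hcast
    push_cast at hcast
    field_simp
    linarith
  have hmod : n.primeFactors.card ≡ k + 1 [MOD 8] := by
    refine card_neg_one (x := fun p : ℕ => p) hx hs ?_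
    rw [hprod]
    exact hk
  have hpr : ∀ p ∈ n.primeFactors, p.Prime ∧ p % 2 = 1 := fun p hp =>
    ⟨Nat.prime_of_mem_primeFactors hp, hx p hp⟩
  have hk1 : n.primeFactors.card ≤ 1411 → k = 1 := by
    intro hle
    have h2 := sum1411 hpr hle
    have h3 : (k : ℚ) < 2 := by
      have h4 : (0 : ℚ) < 1 / n := by positivity
      linarith
    have h5 : k < 2 := by exact_mod_cast h3
    have h6 : k ≠ 0 := by
      rintro rfl
      omega
    omega
  refine ⟨?_, neg_one_c3 (x := fun p : ℕ => p) hx hs, k, hkQ, hmod, hk1⟩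
  by_contra hlt
  have h2 := hk1 (by omega)
  rw [h2] at hmod hk
  unfold Nat.ModEq at hmod
  refine no_two_ten hpr (by omega) ?_
  unfold cofs
  rw [hprod, ← hk]
  ring

end Pool.Agent.Helper11.OddGiuga
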