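import Mathlib

/-!
# Bounds for sums of reciprocals of distinct odd primes
-/

set_option autoImplicit false

namespace RecipLaw

open Finset

/-- exchange: if all elements of `T` outside `F` are `≥ b` and `F ⊆ [1, b]`, `|T| ≤ |F|`, then the
sum of the reciprocals over `T` is at most the one over `F` -/
theorem sum_inv_le {T F : Finset ℕ} (b : ℕ) (hb : 0 < b) (hF : ∀ q ∈ F, 0 < q ∧ q ≤ b)
    (hT : ∀ p ∈ T, p ∉ F → b ≤ p) (hc : T.card ≤ F.card) :
    ∑ p ∈ T, (1 : ℚ) / p ≤ ∑ q ∈ F, (1 : ℚ) / q := by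
  have hb' : (0 : ℚ) < b := by exact_mod_cast hb
  have h1 : ∑ p ∈ T, (1 : ℚ) / p = ∑ p ∈ T ∩ F, (1 : ℚ) / p + ∑ p ∈ T \ F, (1 : ℚ) / p :=
    (sum_inter_add_sum_sdiff T F _).symm
  have h2 : ∑ p ∈ F, (1 : ℚ) / p = ∑ p ∈ T ∩ F, (1 : ℚ) / p + ∑ p ∈ F \ T, (1 : ℚ) / p := by
    rw [inter_comm]
    exact (sum_inter_add_sum_sdiff F T _).symm
  have h3 : ∑ p ∈ T \ F, (1 : ℚ) / p ≤ (T \ F).card * (1 / b) := by
    rw [← nsmul_eq_mul]
    apply sum_le_card_nsmul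
    intro p hp
    rw [mem_sdiff] at hp
    apply one_div_le_one_div_of_le hb'
    exact_mod_cast hT p hp.1 hp.2
  have h4 : ((F \ T).card : ℚ) * (1 / b) ≤ ∑ p ∈ F \ T, (1 : ℚ) / p := by
    rw [← nsmul_eq_mul]
    apply card_nsmul_le_sum
    intro p hp
    rw [mem_sdiff] at hp
    have := hF p hp.1
    apply one_div_le_one_div_of_le
    · exact_mod_cast this.1
    · exact_mod_cast this.2
  have h5 : (T \ F).card ≤ (F \ T).card := by
    have e1 := card_sdiff_add_card_inter T F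
    have e2 := card_sdiff_add_card_inter F T
    rw [inter_comm] at e2
    omega
  have h6 : ((T \ F).card : ℚ) * (1 / b) ≤ ((F \ T).card : ℚ) * (1 / b) := by
    apply mul_le_mul_of_nonneg_right
    · exact_mod_cast h5
    · positivity
  linarith

/-- the odd primes up to `271` -/
def F57 : Finset ℕ := {3, 5, 7, 11, 13, 17, 19, 23, 29, 31, 37, 41, 43, 47, 53, 59, 61, 67, 71, 73,
  79, 83, 89, 97, 101, 103, 107, 109, 113, 127, 131, 137, 139, 149, 151, 157, 163, 167, 173, 179,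
  181, 191, 193, 197, 199, 211, 223, 227, 229, 233, 239, 241, 251, 257, 263, 269, 271}

theorem F57_card : F57.card = 57 := by decide +kernel

theorem F57_mem : ∀ p < 272, p.Prime → p % 2 = 1 → p ∈ F57 := by decide +kernel

theorem F57_le : ∀ q ∈ F57, 0 < q ∧ q ≤ 271 := by decide +kernel

theorem F57_sum : ∑ q ∈ F57, (1 : ℚ) / q ≤ 14988 / 10000 := by
  have h1 : ∀ q ∈ F57, (1 : ℚ) / q ≤ ((10 ^ 8 / q + 1 : ℕ) : ℚ) / 10 ^ 8 := by
    intro q hq
    have h2 := F57_le q hq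
    have h3 : (0 : ℚ) < q := by exact_mod_cast h2.1
    rw [div_le_div_iff₀ h3 (by norm_num), one_mul]
    have h4 : 10 ^ 8 < q * (10 ^ 8 / q + 1) := Nat.lt_mul_div_succ _ h2.1
    have h5 : (10 ^ 8 : ℕ) ≤ (10 ^ 8 / q + 1) * q := by
      rw [mul_comm]
      exact h4.le
    exact_mod_cast h5
  refine (sum_le_sum h1).trans ?_
  rw [← sum_div, ← Nat.cast_sum]
  have h6 : ∑ q ∈ F57, (10 ^ 8 / q + 1) ≤ 149880000 := by decide +kernel
  have h7 : ((∑ q ∈ F57, (10 ^ 8 / q + 1) : ℕ) : ℚ) ≤ 149880000 := by exact_mod_cast h6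
  rw [div_le_div_iff₀ (by norm_num) (by norm_num)]
  linarith

/-- at most `57` distinct odd primes have reciprocal sum at most `1.4988` -/
theorem sum57 {T : Finset ℕ} (hT : ∀ p ∈ T, p.Prime ∧ p % 2 = 1) (hc : T.card ≤ 57) :
    ∑ p ∈ T, (1 : ℚ) / p ≤ 14988 / 10000 := by
  refine (sum_inv_le 271 (by norm_num) F57_le ?_ ?_).trans F57_sum
  · intro p hp hpF
    by_contra h
    exact hpF (F57_mem p (by omega) (hT p hp).1 (hT p hp).2)
  · rw [F57_card]
    exact hc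

/-- at most `5` distinct odd primes have reciprocal sum at most `17/15` -/
theorem sum5 {T : Finset ℕ} (hT : ∀ p ∈ T, p.Prime ∧ p % 2 = 1) (hc : T.card ≤ 5) :
    ∑ p ∈ T, (1 : ℚ) / p ≤ 9 / 10 := by
  have h1 : ∑ q ∈ ({3, 5, 7, 11, 13} : Finset ℕ), (1 : ℚ) / q ≤ 9 / 10 := by norm_num
  refine (sum_inv_le 13 (by norm_num) ?_ ?_ ?_).trans h1
  · decide
  · intro p hp hpF
    by_contra h
    have h2 := hT p hp
    have h3 : ∀ p < 13, p.Prime → p % 2 = 1 → p ∈ ({3, 5, 7, 11, 13} : Finset ℕ) := by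
      decide +kernel
    exact hpF (h3 p (by omega) h2.1 h2.2)
  · exact hc

/-- for at most `57` distinct odd primes, `2 ∑ 1/p + 1/∏ p < 3` -/
theorem lt_three {T : Finset ℕ} (hT : ∀ p ∈ T, p.Prime ∧ p % 2 = 1) (hc : T.card ≤ 57) :
    2 * ∑ p ∈ T, (1 : ℚ) / p + 1 / ((∏ p ∈ T, p : ℕ) : ℚ) < 3 := by
  have h3 : 3 ^ T.card ≤ ∏ p ∈ T, p := by
    rw [← prod_const]
    apply prod_le_prod'
    intro p hp
    have h1 := (hT p hp).1.two_le
    have h2 := (hT p hp).2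
    omega
  by_cases h5 : T.card ≤ 5
  · have h1 := sum5 hT h5
    have h2 : (1 : ℚ) / ((∏ p ∈ T, p : ℕ) : ℚ) ≤ 1 := by
      rw [div_le_one]
      · have : 0 < 3 ^ T.card := by positivity
        exact_mod_cast (by omega : 1 ≤ ∏ p ∈ T, p)
      · have : 0 < 3 ^ T.card := by positivity
        exact_mod_cast (by omega : 0 < ∏ p ∈ T, p)
    linarith
  · have h1 := sum57 hT hc
    have h4 : 3 ^ 6 ≤ 3 ^ T.card := Nat.pow_le_pow_right (by norm_num) (by omega)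
    have h6 : (729 : ℚ) ≤ ((∏ p ∈ T, p : ℕ) : ℚ) := by
      have : 729 ≤ ∏ p ∈ T, p := by
        norm_num at h4
        omega
      exact_mod_cast this
    have h2 : (1 : ℚ) / ((∏ p ∈ T, p : ℕ) : ℚ) ≤ 1 / 729 :=
      one_div_le_one_div_of_le (by norm_num) h6
    linarith

end RecipLaw
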