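import Mathlib

/-!
# A reciprocity law for finite families of odd pairwise coprime numbers

Used for the systems of congruences `x j ∣ a * ∏ i ≠ j, x i + b`.
-/

set_option autoImplicit false

namespace RecipLaw

open Finset
open scoped NumberTheorySymbols

variable {ι : Type*} [DecidableEq ι]

/-- the number of entries that are `3` modulo `4` -/
def c3 (s : Finset ι) (x : ι → ℕ) : ℕ := (s.filter fun i => x i % 4 = 3).card

/-- the number of entries that are `1` modulo `4` -/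
def c1 (s : Finset ι) (x : ι → ℕ) : ℕ := (s.filter fun i => x i % 4 = 1).card

theorem c3_insert {s : Finset ι} {x : ι → ℕ} {a : ι} (ha : a ∉ s) :
    c3 (insert a s) x = c3 s x + if x a % 4 = 3 then 1 else 0 := by
  unfold c3
  rw [filter_insert]
  by_cases h : x a % 4 = 3
  · rw [if_pos h, if_pos h, card_insert_of_notMem]
    intro hh
    exact ha (mem_filter.1 hh).1
  · rw [if_neg h, if_neg h, add_zero]

theorem c1_add_c3 {s : Finset ι} {x : ι → ℕ} (hx : ∀ i ∈ s, x i % 2 = 1) :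
    c1 s x + c3 s x = s.card := by
  induction s using Finset.induction_on with
  | empty => rfl
  | insert a s ha ih =>
    have h1 := ih fun i hi => hx i (mem_insert_of_mem hi)
    have h2 := hx a (mem_insert_self _ _)
    rw [c3_insert ha, card_insert_of_notMem ha]
    unfold c1 at h1 ⊢
    rw [filter_insert]
    by_cases h : x a % 4 = 1
    · rw [if_pos h, card_insert_of_notMem (fun hh => ha (mem_filter.1 hh).1), if_neg (by omega)]
      omega
    · rw [if_neg h, if_pos (by omega)]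
      omega

theorem prod_odd {s : Finset ι} {x : ι → ℕ} (hx : ∀ i ∈ s, x i % 2 = 1) :
    (∏ i ∈ s, x i) % 2 = 1 := by
  induction s using Finset.induction_on with
  | empty => rfl
  | insert a s ha ih =>
    rw [prod_insert ha, Nat.mul_mod, ih fun i hi => hx i (mem_insert_of_mem hi),
      hx a (mem_insert_self _ _)]

theorem prod_mod4 {s : Finset ι} {x : ι → ℕ} (hx : ∀ i ∈ s, x i % 2 = 1) :
    (∏ i ∈ s, x i) % 4 = (1 + 2 * c3 s x) % 4 := by
  induction s using Finset.induction_on with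
  | empty => rfl
  | insert a s ha ih =>
    have h1 := ih fun i hi => hx i (mem_insert_of_mem hi)
    have h2 := hx a (mem_insert_self _ _)
    have h3 : x a % 4 = 1 ∨ x a % 4 = 3 := by omega
    have h4 : c3 s x % 2 = 0 ∨ c3 s x % 2 = 1 := by omega
    rw [prod_insert ha, Nat.mul_mod, h1, c3_insert ha]
    rcases h3 with h3 | h3 <;> rcases h4 with h4 | h4
    · rw [h3, if_neg (by omega), show (1 + 2 * c3 s x) % 4 = 1 by omega]
      omega
    · rw [h3, if_neg (by omega), show (1 + 2 * c3 s x) % 4 = 3 by omega]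
      omega
    · rw [h3, if_pos rfl, show (1 + 2 * c3 s x) % 4 = 1 by omega]
      omega
    · rw [h3, if_pos rfl, show (1 + 2 * c3 s x) % 4 = 3 by omega]
      omega

theorem choose_two_mod (r : ℕ) : r.choose 2 % 2 = if r % 4 < 2 then 0 else 1 := by
  induction r with
  | zero => rfl
  | succ r ih =>
    rw [Nat.choose_succ_succ' r 1, Nat.choose_one_right, Nat.add_mod, ih]
    have h : r % 4 = 0 ∨ r % 4 = 1 ∨ r % 4 = 2 ∨ r % 4 = 3 := by omega
    rcases h with h | h | h | h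
    · rw [if_pos (by omega), if_pos (by omega)]; omega
    · rw [if_pos (by omega), if_neg (by omega)]; omega
    · rw [if_neg (by omega), if_neg (by omega)]; omega
    · rw [if_neg (by omega), if_pos (by omega)]; omega

theorem neg_one_pow_mod (a : ℕ) : (-1 : ℤ) ^ a = if a % 2 = 0 then 1 else -1 := by
  rcases Nat.even_or_odd a with h | h
  · rw [h.neg_one_pow, if_pos (Nat.even_iff.1 h)]
  · rw [h.neg_one_pow, if_neg]
    have := Nat.odd_iff.1 h
    omega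

theorem neg_one_pow_congr {a b : ℕ} (h : a % 2 = b % 2) : (-1 : ℤ) ^ a = (-1) ^ b := by
  rw [neg_one_pow_mod, neg_one_pow_mod, h]

theorem jac_prod_right (a : ℤ) {s : Finset ι} {x : ι → ℕ} (hx : ∀ i ∈ s, x i % 2 = 1) :
    J(a | ∏ i ∈ s, x i) = ∏ i ∈ s, J(a | x i) := by
  induction s using Finset.induction_on with
  | empty => simp
  | insert b s hb ih =>
    have h1 : ∀ i ∈ s, x i % 2 = 1 := fun i hi => hx i (mem_insert_of_mem hi)
    have h2 := hx b (mem_insert_self _ _)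
    have h3 := prod_odd h1
    rw [prod_insert hb, prod_insert hb, jacobiSym.mul_right' a (by omega) (by omega), ih h1]

/-- the product of all the symbols `(∏_{i ≠ j} x i | x j)` is `(-1)^(r choose 2)` -/
theorem qr_prod {s : Finset ι} {x : ι → ℕ} (hx : ∀ i ∈ s, x i % 2 = 1)
    (hc : ∀ i ∈ s, ∀ j ∈ s, i ≠ j → Nat.Coprime (x i) (x j)) :
    ∏ j ∈ s, J(((∏ i ∈ s.erase j, x i : ℕ) : ℤ) | x j) = (-1) ^ ((c3 s x).choose 2) := by
  induction s using Finset.induction_on with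
  | empty => simp [c3]
  | insert b s hb ih =>
    have h1 : ∀ i ∈ s, x i % 2 = 1 := fun i hi => hx i (mem_insert_of_mem hi)
    have h2 := hx b (mem_insert_self _ _)
    have h3 := prod_odd h1
    have h4 := prod_mod4 h1
    have hcs : ∀ i ∈ s, ∀ j ∈ s, i ≠ j → Nat.Coprime (x i) (x j) :=
      fun i hi j hj => hc i (mem_insert_of_mem hi) j (mem_insert_of_mem hj)
    have hcb : Nat.Coprime (∏ i ∈ s, x i) (x b) := by
      apply Nat.Coprime.prod_left
      intro i hi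
      refine hc i (mem_insert_of_mem hi) b (mem_insert_self _ _) ?_
      rintro rfl
      exact hb hi
    rw [prod_insert hb, erase_insert hb]
    have e1 : ∏ j ∈ s, J(((∏ i ∈ (insert b s).erase j, x i : ℕ) : ℤ) | x j) =
        ∏ j ∈ s, (J((x b : ℤ) | x j) * J(((∏ i ∈ s.erase j, x i : ℕ) : ℤ) | x j)) := by
      refine prod_congr rfl fun j hj => ?_
      have hjb : b ≠ j := by
        rintro rfl
        exact hb hj
      rw [erase_insert_of_ne hjb, prod_insert (fun h => hb (mem_of_mem_erase h)), Nat.cast_mul,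
        jacobiSym.mul_left]
    rw [e1, prod_mul_distrib, ih h1 hcs, ← jac_prod_right _ h1, c3_insert hb, ← mul_assoc]
    have e2 := jacobiSym.quadratic_reciprocity (a := ∏ i ∈ s, x i) (b := x b)
      (Nat.odd_iff.2 h3) (Nat.odd_iff.2 h2)
    have e3 : J((x b : ℤ) | ∏ i ∈ s, x i) ^ 2 = 1 := by
      apply jacobiSym.sq_one
      rw [Int.gcd_natCast_natCast]
      exact hcb.symm
    rw [e2, mul_assoc ((-1 : ℤ) ^ _), ← sq, e3, mul_one, ← pow_add]
    apply neg_one_pow_congr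
    by_cases h : x b % 4 = 3
    · rw [if_pos h, Nat.choose_succ_succ' (c3 s x) 1, Nat.choose_one_right]
      have h6 : x b / 2 % 2 = 1 := by omega
      have h7 : (∏ i ∈ s, x i) / 2 % 2 = c3 s x % 2 := by omega
      rw [Nat.add_mod, Nat.mul_mod, h6, h7, Nat.add_mod (c3 s x)]
      simp
    · rw [if_neg h, add_zero]
      have h6 : x b / 2 % 2 = 0 := by omega
      rw [Nat.add_mod, Nat.mul_mod, h6]
      simp

/-- the law for a system `x j ∣ a * ∏_{i ≠ j} x i + b` -/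
theorem law {s : Finset ι} {x : ι → ℕ} (a b : ℤ) (hx : ∀ i ∈ s, x i % 2 = 1)
    (hc : ∀ i ∈ s, ∀ j ∈ s, i ≠ j → Nat.Coprime (x i) (x j))
    (h : ∀ j ∈ s, (x j : ℤ) ∣ a * ((∏ i ∈ s.erase j, x i : ℕ) : ℤ) + b) :
    J(a | ∏ i ∈ s, x i) * (-1) ^ ((c3 s x).choose 2) = J(-b | ∏ i ∈ s, x i) := by
  rw [← qr_prod hx hc, jac_prod_right _ hx, jac_prod_right _ hx, ← prod_mul_distrib]
  refine prod_congr rfl fun j hj => ?_
  rw [← jacobiSym.mul_left]
  apply jacobiSym.mod_left'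
  apply Int.emod_emod_of_dvd _ (dvd_refl _) |>.symm.trans
  have h1 := h j hj
  rw [Int.emod_emod_of_dvd _ (dvd_refl _)]
  apply Int.emod_eq_emod_iff_emod_sub_eq_zero.2
  apply Int.emod_eq_zero_of_dvd
  rwa [sub_neg_eq_add]

/-- modulo `8` the sum of all cofactors is the product times the sum -/
theorem cofactor_sum {s : Finset ι} {x : ι → ℕ} (hx : ∀ i ∈ s, x i % 2 = 1) :
    (∑ j ∈ s, ∏ i ∈ s.erase j, x i) ≡ (∏ i ∈ s, x i) * ∑ j ∈ s, x j [MOD 8] := by
  rw [mul_sum]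
  apply Nat.ModEq.sum
  intro j hj
  have h1 := mul_prod_erase s x hj
  have h2 := hx j hj
  rw [← h1]
  have h3 : x j * x j ≡ 1 [MOD 8] := by
    unfold Nat.ModEq
    rw [Nat.mul_mod]
    have : x j % 8 = 1 ∨ x j % 8 = 3 ∨ x j % 8 = 5 ∨ x j % 8 = 7 := by omega
    rcases this with h | h | h | h <;> rw [h]
  have h4 := h3.mul_left (∏ i ∈ s.erase j, x i)
  rw [mul_one] at h4
  refine h4.symm.trans ?_
  rw [← mul_assoc, mul_comm (∏ i ∈ s.erase j, x i) (x j)]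

/-- for odd numbers, the product and the sum are related modulo `8` -/
theorem prod_sum8 {s : Finset ι} {x : ι → ℕ} (hx : ∀ i ∈ s, x i % 2 = 1) :
    (∏ i ∈ s, x i) + s.card ≡ (∑ i ∈ s, x i) + 1 + 4 * (c3 s x).choose 2 [MOD 8] := by
  induction s using Finset.induction_on with
  | empty => simp [c3, Nat.ModEq]
  | insert b s hb ih =>
    have h1 : ∀ i ∈ s, x i % 2 = 1 := fun i hi => hx i (mem_insert_of_mem hi)
    have h2 := hx b (mem_insert_self _ _)
    have h3 := prod_odd h1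
    have h4 := prod_mod4 h1
    have h5 := ih h1
    rw [prod_insert hb, sum_insert hb, card_insert_of_notMem hb, c3_insert hb]
    unfold Nat.ModEq at h5 ⊢
    have h6 : ((x b) * ∏ i ∈ s, x i) % 8 = ((x b) % 8 * ((∏ i ∈ s, x i) % 8)) % 8 := Nat.mul_mod _ _ _
    have h7 : x b % 8 = 1 ∨ x b % 8 = 3 ∨ x b % 8 = 5 ∨ x b % 8 = 7 := by omega
    have h8 : (∏ i ∈ s, x i) % 8 = 1 ∨ (∏ i ∈ s, x i) % 8 = 3 ∨ (∏ i ∈ s, x i) % 8 = 5 ∨
      (∏ i ∈ s, x i) % 8 = 7 := by omega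
    have h9 : (c3 s x + 1).choose 2 = c3 s x + (c3 s x).choose 2 := by
      rw [Nat.choose_succ_succ' (c3 s x) 1, Nat.choose_one_right]
    by_cases h : x b % 4 = 3
    · rw [if_pos h, h9]
      rcases h7 with h7 | h7 | h7 | h7 <;> rcases h8 with h8 | h8 | h8 | h8 <;>
        rw [h7, h8] at h6 <;> omega
    · rw [if_neg h, add_zero]
      rcases h7 with h7 | h7 | h7 | h7 <;> rcases h8 with h8 | h8 | h8 | h8 <;>
        rw [h7, h8] at h6 <;> omega

theorem two_choose (r : ℕ) : 2 * r.choose 2 + r = r * r := by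
  induction r with
  | zero => rfl
  | succ r ih =>
    rw [Nat.choose_succ_succ' r 1, Nat.choose_one_right]
    have : (r + 1) * (r + 1) = r * r + 2 * r + 1 := by ring
    rw [this, ← ih]
    ring

/-- the entries of a system `x j ∣ a * ∏_{i ≠ j} x i + b`, `b = ± 1`, are pairwise coprime -/
theorem coprime_of_system {s : Finset ι} {x : ι → ℕ} (a b : ℤ) (hb : b = 1 ∨ b = -1)
    (h : ∀ j ∈ s, (x j : ℤ) ∣ a * ((∏ i ∈ s.erase j, x i : ℕ) : ℤ) + b) :
    ∀ i ∈ s, ∀ j ∈ s, i ≠ j → Nat.Coprime (x i) (x j) := by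
  intro i hi j hj hij
  have h1 : x i ∣ ∏ l ∈ s.erase j, x l := dvd_prod_of_mem x (mem_erase.2 ⟨hij, hi⟩)
  have h2 : ((Nat.gcd (x i) (x j) : ℕ) : ℤ) ∣ b := by
    have h3 : ((Nat.gcd (x i) (x j) : ℕ) : ℤ) ∣ a * ((∏ i ∈ s.erase j, x i : ℕ) : ℤ) + b :=
      (Int.natCast_dvd_natCast.2 (Nat.gcd_dvd_right _ _)).trans (h j hj)
    have h4 : ((Nat.gcd (x i) (x j) : ℕ) : ℤ) ∣ a * ((∏ i ∈ s.erase j, x i : ℕ) : ℤ) :=
      Dvd.dvd.mul_left (Int.natCast_dvd_natCast.2 ((Nat.gcd_dvd_left _ _).trans h1)) _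
    exact (dvd_add_right h4).1 h3
  have h5 : ((Nat.gcd (x i) (x j) : ℕ) : ℤ) ∣ 1 := by
    rcases hb with hb | hb
    · rwa [hb] at h2
    · rw [hb] at h2
      exact (dvd_neg.1 h2)
  exact Nat.dvd_one.1 (by exact_mod_cast h5)

/-- the product divides `a * (sum of all cofactors) + b` -/
theorem dvd_total {s : Finset ι} {x : ι → ℕ} (a b : ℤ)
    (hc : ∀ i ∈ s, ∀ j ∈ s, i ≠ j → Nat.Coprime (x i) (x j))
    (h : ∀ j ∈ s, (x j : ℤ) ∣ a * ((∏ i ∈ s.erase j, x i : ℕ) : ℤ) + b) :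
    ((∏ i ∈ s, x i : ℕ) : ℤ) ∣ a * ((∑ j ∈ s, ∏ i ∈ s.erase j, x i : ℕ) : ℤ) + b := by
  rw [Nat.cast_prod]
  apply Finset.prod_dvd_of_coprime
  · intro i hi j hj hij
    exact Nat.Coprime.isCoprime (hc i hi j hj hij)
  · intro j hj
    have h1 : ((∑ j ∈ s, ∏ i ∈ s.erase j, x i : ℕ) : ℤ) =
        ((∏ i ∈ s.erase j, x i : ℕ) : ℤ) +
          ((∑ l ∈ s.erase j, ∏ i ∈ s.erase l, x i : ℕ) : ℤ) := by
      rw [← Nat.cast_add, ← add_sum_erase s _ hj]
    rw [h1, mul_add, add_right_comm]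
    apply dvd_add (h j hj)
    apply Dvd.dvd.mul_left
    apply Int.natCast_dvd_natCast.2
    apply dvd_sum
    intro l hl
    apply dvd_prod_of_mem x
    refine mem_erase.2 ⟨?_, hj⟩
    exact (ne_of_mem_erase hl).symm

/-! ### The system with `a = 2`, `b = 1` -/

section two_one

variable {s : Finset ι} {x : ι → ℕ}

theorem jac_neg_two (hx : ∀ i ∈ s, x i % 2 = 1)
    (hc : ∀ i ∈ s, ∀ j ∈ s, i ≠ j → Nat.Coprime (x i) (x j))
    (h : ∀ j ∈ s, (x j : ℤ) ∣ 2 * ((∏ i ∈ s.erase j, x i : ℕ) : ℤ) + 1) :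
    J(-2 | ∏ i ∈ s, x i) = (-1) ^ ((c3 s x).choose 2) := by
  have h1 := law 2 1 hx hc h
  have h2 : Odd (∏ i ∈ s, x i) := Nat.odd_iff.2 (prod_odd hx)
  have h3 : J(-1 | ∏ i ∈ s, x i) ^ 2 = 1 := by
    apply jacobiSym.sq_one
    simp
  have h4 : ((-1 : ℤ) ^ ((c3 s x).choose 2)) ^ 2 = 1 := by
    rw [← pow_mul, mul_comm, pow_mul]; simp
  rw [show (-2 : ℤ) = 2 * -1 by norm_num, jacobiSym.mul_left, ← h1]
  rw [← mul_assoc, ← sq]
  have h5 : J(2 | ∏ i ∈ s, x i) ^ 2 = 1 := by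
    apply jacobiSym.sq_one
    rw [show (2 : ℤ) = ((2 : ℕ) : ℤ) by rfl, Int.gcd_natCast_natCast]
    exact Nat.coprime_two_left.2 h2
  rw [h5, one_mul]

/-- `∏ x ≡ 2 r + 1 (mod 8)`, `r` the number of entries that are `3` modulo `4` -/
theorem two_one_mod8 (hx : ∀ i ∈ s, x i % 2 = 1)
    (h : ∀ j ∈ s, (x j : ℤ) ∣ 2 * ((∏ i ∈ s.erase j, x i : ℕ) : ℤ) + 1) :
    (∏ i ∈ s, x i) ≡ 2 * c3 s x + 1 [MOD 8] := by
  have hc := coprime_of_system 2 1 (Or.inl rfl) h
  have h1 := jac_neg_two hx hc h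
  have h2 := prod_odd hx
  have h3 := prod_mod4 hx
  rw [jacobiSym.at_neg_two (Nat.odd_iff.2 h2), ZMod.χ₈'_nat_eq_if_mod_eight, neg_one_pow_mod,
    choose_two_mod] at h1
  unfold Nat.ModEq
  rw [if_neg (by omega)] at h1
  have h4 : c3 s x % 4 = 0 ∨ c3 s x % 4 = 1 ∨ c3 s x % 4 = 2 ∨ c3 s x % 4 = 3 := by omega
  rcases h4 with h4 | h4 | h4 | h4 <;> rw [h4] at h1 <;> norm_num at h1 <;> omega

theorem two_one_sum8 (hx : ∀ i ∈ s, x i % 2 = 1)
    (h : ∀ j ∈ s, (x j : ℤ) ∣ 2 * ((∏ i ∈ s.erase j, x i : ℕ) : ℤ) + 1) :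
    (∑ i ∈ s, x i) ≡ s.card + 2 * (c3 s x * c3 s x) [MOD 8] := by
  have h1 := two_one_mod8 hx h
  have h2 := prod_sum8 hx
  have h3 := two_choose (c3 s x)
  unfold Nat.ModEq at h1 h2 ⊢
  rw [← h3]
  omega

theorem two_one_mod16 (hx : ∀ i ∈ s, x i % 2 = 1)
    (h : ∀ j ∈ s, (x j : ℤ) ∣ 2 * ((∏ i ∈ s.erase j, x i : ℕ) : ℤ) + 1) :
    2 * (∑ j ∈ s, ∏ i ∈ s.erase j, x i) + 1 ≡
      1 + 2 * (∏ i ∈ s, x i) * (s.card + 2 * (c3 s x * c3 s x)) [MOD 16] := by
  have h1 := cofactor_sum hx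
  have h2 := (two_one_sum8 hx h).mul_left (∏ i ∈ s, x i)
  have h3 := (h1.trans h2).mul_left' 2
  rw [add_comm, mul_assoc]
  exact h3.add_left 1

theorem two_one_k8 (hx : ∀ i ∈ s, x i % 2 = 1)
    (h : ∀ j ∈ s, (x j : ℤ) ∣ 2 * ((∏ i ∈ s.erase j, x i : ℕ) : ℤ) + 1) {k : ℕ}
    (hk : k * ∏ i ∈ s, x i = 2 * (∑ j ∈ s, ∏ i ∈ s.erase j, x i) + 1) :
    k ≡ 2 * c1 s x + 1 [MOD 8] := by
  have h1 := two_one_mod8 hx h
  have h2 := two_one_mod16 hx h
  have h3 := c1_add_c3 hx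
  rw [← hk] at h2
  have h4 : k * (∏ i ∈ s, x i) ≡
      1 + 2 * (∏ i ∈ s, x i) * (s.card + 2 * (c3 s x * c3 s x)) [MOD 8] :=
    h2.of_dvd (by norm_num)
  unfold Nat.ModEq at h1 h4 ⊢
  generalize (∏ i ∈ s, x i) = X at *
  generalize c3 s x = r at *
  generalize c1 s x = t at *
  generalize s.card = n at *
  have h5 : (k * X) % 8 = (k % 8 * (X % 8)) % 8 := Nat.mul_mod _ _ _
  have h6 : (1 + 2 * X * (n + 2 * (r * r))) % 8 =
      (1 + (2 * (X % 8)) * ((n + 2 * ((r % 4) * (r % 4))) % 8)) % 8 := by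
    have e1 : r * r % 4 = ((r % 4) * (r % 4)) % 4 := Nat.mul_mod _ _ _
    have e2 : n + 2 * (r * r) ≡ (n + 2 * ((r % 4) * (r % 4))) % 8 [MOD 8] := by
      unfold Nat.ModEq
      omega
    have e3 : 2 * X ≡ 2 * (X % 8) [MOD 8] := by
      unfold Nat.ModEq
      omega
    exact (Nat.ModEq.refl 1).add (e3.mul e2)
  rw [h5, h6, h1] at h4
  have h7 : r % 4 = 0 ∨ r % 4 = 1 ∨ r % 4 = 2 ∨ r % 4 = 3 := by omega
  rcases h7 with h7 | h7 | h7 | h7
  · rw [h7, show (2 * r + 1) % 8 = 1 by omega] at h4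
    omega
  · rw [h7, show (2 * r + 1) % 8 = 3 by omega] at h4
    omega
  · rw [h7, show (2 * r + 1) % 8 = 5 by omega] at h4
    omega
  · rw [h7, show (2 * r + 1) % 8 = 7 by omega] at h4
    omega

/-- the case `k = 1` -/
theorem two_one_k_one (hx : ∀ i ∈ s, x i % 2 = 1)
    (h : ∀ j ∈ s, (x j : ℤ) ∣ 2 * ((∏ i ∈ s.erase j, x i : ℕ) : ℤ) + 1)
    (hk : ∏ i ∈ s, x i = 2 * (∑ j ∈ s, ∏ i ∈ s.erase j, x i) + 1) :
    4 ∣ c1 s x ∧ c3 s x ≡ s.card [MOD 4] ∧ ∏ i ∈ s, x i ≡ 2 * s.card + 1 [MOD 16] := by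
  have h0 := two_one_k8 hx h (k := 1) (by rw [one_mul, hk])
  have h1 := two_one_mod8 hx h
  have h2 := two_one_mod16 hx h
  have h3 := c1_add_c3 hx
  rw [← hk] at h2
  unfold Nat.ModEq at h0 h1 h2 ⊢
  generalize (∏ i ∈ s, x i) = X at *
  generalize c3 s x = r at *
  generalize c1 s x = t at *
  generalize s.card = n at *
  have h5 : 4 ∣ t := by omega
  have h6 : r % 4 = n % 4 := by omega
  refine ⟨h5, h6, ?_⟩
  have e1 : r * r % 4 = ((n % 4) * (n % 4)) % 4 := by rw [Nat.mul_mod, h6]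
  have e2 : (n + 2 * (r * r)) % 8 = (n + 2 * ((n % 4) * (n % 4))) % 8 := by omega
  have e3 : X % 8 = (2 * n + 1) % 8 := by omega
  have e4 : (X * (n + 2 * (r * r))) % 8 =
      (((2 * n + 1) % 8) * ((n + 2 * ((n % 4) * (n % 4))) % 8)) % 8 := by
    rw [Nat.mul_mod, e2, e3]
  have h7 : n % 8 = 0 ∨ n % 8 = 1 ∨ n % 8 = 2 ∨ n % 8 = 3 ∨ n % 8 = 4 ∨ n % 8 = 5 ∨ n % 8 = 6 ∨
    n % 8 = 7 := by omega
  rw [mul_assoc] at h2
  rcases h7 with h7 | h7 | h7 | h7 | h7 | h7 | h7 | h7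
  · rw [show (2 * n + 1) % 8 = 1 by omega, show n % 4 = 0 by omega] at e4
    omega
  · rw [show (2 * n + 1) % 8 = 3 by omega, show n % 4 = 1 by omega] at e4
    omega
  · rw [show (2 * n + 1) % 8 = 5 by omega, show n % 4 = 2 by omega] at e4
    omega
  · rw [show (2 * n + 1) % 8 = 7 by omega, show n % 4 = 3 by omega] at e4
    omega
  · rw [show (2 * n + 1) % 8 = 1 by omega, show n % 4 = 0 by omega] at e4
    omega
  · rw [show (2 * n + 1) % 8 = 3 by omega, show n % 4 = 1 by omega] at e4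
    omega
  · rw [show (2 * n + 1) % 8 = 5 by omega, show n % 4 = 2 by omega] at e4
    omega
  · rw [show (2 * n + 1) % 8 = 7 by omega, show n % 4 = 3 by omega] at e4
    omega

end two_one

end RecipLaw
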