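import Pool.Agent.Helper11.RecipLaw

/-!
# The congruence modulo `8` for odd solutions of `∑ 1/x + b/∏ x = k`, `b = ± 1`
-/

set_option autoImplicit false

namespace RecipLaw

open Finset
open scoped NumberTheorySymbols

variable {ι : Type*} [DecidableEq ι] {s : Finset ι} {x : ι → ℕ}

/-- for `x j ∣ ∏_{i ≠ j} x i - 1`: the number of entries `3` modulo `4` is `0` or `1` modulo `4` -/
theorem neg_one_c3 (hx : ∀ i ∈ s, x i % 2 = 1)
    (h : ∀ j ∈ s, (x j : ℤ) ∣ 1 * ((∏ i ∈ s.erase j, x i : ℕ) : ℤ) + -1) :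
    c3 s x % 4 = 0 ∨ c3 s x % 4 = 1 := by
  have hc := coprime_of_system 1 (-1) (Or.inr rfl) h
  have h1 := law 1 (-1) hx hc h
  rw [neg_neg, jacobiSym.one_left, one_mul, neg_one_pow_mod, choose_two_mod] at h1
  have h4 : c3 s x % 4 = 0 ∨ c3 s x % 4 = 1 ∨ c3 s x % 4 = 2 ∨ c3 s x % 4 = 3 := by omega
  rcases h4 with h4 | h4 | h4 | h4
  · exact Or.inl h4
  · exact Or.inr h4
  · exfalso
    rw [h4] at h1
    norm_num at h1
  · exfalso
    rw [h4] at h1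
    norm_num at h1

/-- for `x j ∣ ∏_{i ≠ j} x i + 1`: the number of entries `3` modulo `4` is `0` or `3` modulo `4` -/
theorem one_c3 (hx : ∀ i ∈ s, x i % 2 = 1)
    (h : ∀ j ∈ s, (x j : ℤ) ∣ 1 * ((∏ i ∈ s.erase j, x i : ℕ) : ℤ) + 1) :
    c3 s x % 4 = 0 ∨ c3 s x % 4 = 3 := by
  have hc := coprime_of_system 1 1 (Or.inl rfl) h
  have h1 := law 1 1 hx hc h
  have h2 := prod_odd hx
  have h3 := prod_mod4 hx
  rw [jacobiSym.one_left, one_mul, jacobiSym.at_neg_one (Nat.odd_iff.2 h2),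
    ZMod.χ₄_nat_eq_if_mod_four, neg_one_pow_mod, choose_two_mod] at h1
  have h4 : c3 s x % 4 = 0 ∨ c3 s x % 4 = 1 ∨ c3 s x % 4 = 2 ∨ c3 s x % 4 = 3 := by omega
  rcases h4 with h4 | h4 | h4 | h4
  · exact Or.inl h4
  · exfalso
    rw [h4, h2, show (∏ i ∈ s, x i) % 4 = 3 by omega] at h1
    norm_num at h1
  · exfalso
    rw [h4, h2, show (∏ i ∈ s, x i) % 4 = 1 by omega] at h1
    norm_num at h1
  · exact Or.inr h4

/-- **odd law, sign `-1`**: if all `x i` are odd, `x j ∣ ∏_{i ≠ j} x i - 1` and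
`k ∏ x = ∑_j ∏_{i ≠ j} x i - 1`, then the number of the `x i` is `k + 1` modulo `8` -/
theorem card_neg_one (hx : ∀ i ∈ s, x i % 2 = 1)
    (h : ∀ j ∈ s, (x j : ℤ) ∣ 1 * ((∏ i ∈ s.erase j, x i : ℕ) : ℤ) + -1) {k : ℕ}
    (hk : k * ∏ i ∈ s, x i + 1 = ∑ j ∈ s, ∏ i ∈ s.erase j, x i) :
    s.card ≡ k + 1 [MOD 8] := by
  have h1 := cofactor_sum hx
  have h2 := prod_sum8 hx
  have h3 := prod_odd hx
  have h4 := neg_one_c3 hx h
  have h5 := choose_two_mod (c3 s x)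
  rw [if_pos (by omega)] at h5
  rw [← hk] at h1
  unfold Nat.ModEq at h1 h2 ⊢
  generalize (∏ i ∈ s, x i) = X at *
  generalize (∑ i ∈ s, x i) = T at *
  generalize (c3 s x).choose 2 = C at *
  generalize s.card = n at *
  have e1 : (k * X) % 8 = ((k % 8) * (X % 8)) % 8 := Nat.mul_mod _ _ _
  have e2 : (X * T) % 8 = ((X % 8) * (T % 8)) % 8 := Nat.mul_mod _ _ _
  have h7 : X % 8 = 1 ∨ X % 8 = 3 ∨ X % 8 = 5 ∨ X % 8 = 7 := by omega
  rcases h7 with h7 | h7 | h7 | h7 <;> rw [h7] at e1 e2 <;> omega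

/-- **odd law, sign `+1`** -/
theorem card_one (hx : ∀ i ∈ s, x i % 2 = 1)
    (h : ∀ j ∈ s, (x j : ℤ) ∣ 1 * ((∏ i ∈ s.erase j, x i : ℕ) : ℤ) + 1) {k : ℕ}
    (hk : k * ∏ i ∈ s, x i = (∑ j ∈ s, ∏ i ∈ s.erase j, x i) + 1) :
    s.card + 1 ≡ k [MOD 8] := by
  have h1 := cofactor_sum hx
  have h2 := prod_sum8 hx
  have h3 := prod_mod4 hx
  have h4 := one_c3 hx h
  have h5 := choose_two_mod (c3 s x)
  have h6 : (c3 s x).choose 2 % 2 = c3 s x % 2 := by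
    rcases h4 with h4 | h4
    · rw [if_pos (by omega)] at h5; omega
    · rw [if_neg (by omega)] at h5; omega
  have h1' := h1.add_right 1
  rw [← hk] at h1'
  unfold Nat.ModEq at h1' h2 ⊢
  generalize (∏ i ∈ s, x i) = X at *
  generalize (∑ i ∈ s, x i) = T at *
  generalize (c3 s x).choose 2 = C at *
  generalize c3 s x = r at *
  generalize s.card = n at *
  have e1 : (k * X) % 8 = ((k % 8) * (X % 8)) % 8 := Nat.mul_mod _ _ _
  have e2 : (X * T) % 8 = ((X % 8) * (T % 8)) % 8 := Nat.mul_mod _ _ _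
  have h7 : X % 8 = 1 ∨ X % 8 = 3 ∨ X % 8 = 5 ∨ X % 8 = 7 := by omega
  rcases h7 with h7 | h7 | h7 | h7 <;> rw [h7] at e1 e2 <;> omega

end RecipLaw
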