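import Pool.Agent.Helper11.RecipBound

/-!
# Search for odd solutions with few primes; bound for up to `1411` odd primes
-/

set_option autoImplicit false

namespace RecipLaw

open Finset

/-! ### The search -/

/-- sum of the cofactors -/
def cofs (S : Finset ℕ) : ℕ := ∑ j ∈ S, ∏ i ∈ S.erase j, i

theorem cofs_insert {S : Finset ℕ} {p : ℕ} (hp : p ∉ S) :
    cofs (insert p S) = ∏ i ∈ S, i + p * cofs S := by
  unfold cofs
  rw [sum_insert hp, erase_insert hp, mul_sum]
  congr 1
  refine sum_congr rfl fun j hj => ?_
  have hne : p ≠ j := by
    rintro rfl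
    exact hp hj
  rw [erase_insert_of_ne hne, prod_insert (fun h => hp (mem_of_mem_erase h))]

theorem cofs_le {S : Finset ℕ} {p : ℕ} (h : ∀ q ∈ S, p ≤ q) :
    p * cofs S ≤ S.card * ∏ i ∈ S, i := by
  unfold cofs
  rw [mul_sum, ← smul_eq_mul (S.card), ← sum_const]
  refine sum_le_sum fun j hj => ?_
  rw [← mul_prod_erase S _ hj]
  exact Nat.mul_le_mul_right _ (h j hj)

/-- returns `true` only if `D * cofs S = c * ∏ S + 1` has no solution with `m` elements from
the increasing list `l` and from the numbers `≥ B` -/
def srch : ℕ → ℕ → ℕ → List ℕ → Bool
  | 0, _, _, _ => true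
  | 1, c, D, _ => decide ((D - 1) % c ≠ 0)
  | _ + 2, _, _, [] => false
  | m + 2, c, D, p :: l =>
    if (m + 2) * D ≤ c * p then true
    else (if D < c * p then srch (m + 1) (c * p - D) (D * p) l else true) && srch (m + 2) c D l

theorem srch_sound (B : ℕ) (l : List ℕ) :
    ∀ (m c D : ℕ), l.Pairwise (· < ·) → (∀ q ∈ l, 1 < q ∧ q < B) → 0 < c → 0 < D →
      srch m c D l = true →
      ∀ S : Finset ℕ, S.card = m → (∀ q ∈ S, q ∈ l ∨ B ≤ q) → (∀ q ∈ S, 1 < q) →
        D * cofs S ≠ c * (∏ i ∈ S, i) + 1 := by
  induction l with
  | nil =>
    intro m c D _ _ hc hD hs S hS hSl hS1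
    match m with
    | 0 =>
      rw [card_eq_zero.1 hS]
      simp [cofs]
    | 1 =>
      obtain ⟨q, rfl⟩ := card_eq_one.1 hS
      intro heq
      unfold srch at hs
      have h1 := of_decide_eq_true hs
      apply h1
      have h2 : D - 1 = c * q := by
        simp [cofs] at heq
        omega
      rw [h2]
      exact Nat.mul_mod_right _ _
    | m + 2 =>
      unfold srch at hs
      exact absurd hs (by decide)
  | cons p l ih =>
    intro m c D hpw hlB hc hD hs S hS hSl hS1
    match m with
    | 0 =>
      rw [card_eq_zero.1 hS]
      simp [cofs]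
    | 1 =>
      obtain ⟨q, rfl⟩ := card_eq_one.1 hS
      intro heq
      unfold srch at hs
      have h1 := of_decide_eq_true hs
      apply h1
      have h2 : D - 1 = c * q := by
        simp [cofs] at heq
        omega
      rw [h2]
      exact Nat.mul_mod_right _ _
    | m + 2 =>
      intro heq
      unfold srch at hs
      have hp := hlB p (List.mem_cons_self ..)
      rw [List.pairwise_cons] at hpw
      have hge : ∀ q ∈ S, p ≤ q := by
        intro q hq
        rcases hSl q hq with h | h
        · rcases List.mem_cons.1 h with h | h
          · omega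
          · exact (hpw.1 q h).le
        · omega
      have hP : 0 < ∏ i ∈ S, i := prod_pos fun i hi => by have := hS1 i hi; omega
      by_cases hbig : (m + 2) * D ≤ c * p
      · have h1 := cofs_le hge
        rw [hS] at h1
        have h2 : D * (p * cofs S) ≤ D * ((m + 2) * ∏ i ∈ S, i) := Nat.mul_le_mul_left _ h1
        have h3 : D * (p * cofs S) = p * (c * (∏ i ∈ S, i) + 1) := by
          rw [← heq]; ring
        have h4 : ((m + 2) * D) * ∏ i ∈ S, i ≤ (c * p) * ∏ i ∈ S, i := Nat.mul_le_mul_right _ hbig
        have h5 : D * ((m + 2) * ∏ i ∈ S, i) = ((m + 2) * D) * ∏ i ∈ S, i := by ring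
        have h6 : p * (c * (∏ i ∈ S, i) + 1) = (c * p) * (∏ i ∈ S, i) + p := by ring
        omega
      · rw [if_neg hbig, Bool.and_eq_true] at hs
        have hl1 : ∀ q ∈ l, 1 < q ∧ q < B := fun q hq => hlB q (List.mem_cons_of_mem _ hq)
        by_cases hpS : p ∈ S
        · -- `p` is the smallest element
          obtain ⟨S', hpS', rfl⟩ : ∃ S', p ∉ S' ∧ insert p S' = S :=
            ⟨S.erase p, notMem_erase _ _, insert_erase hpS⟩
          rw [card_insert_of_notMem hpS'] at hS
          have hcard : S'.card = m + 1 := by omega
          rw [cofs_insert hpS', prod_insert hpS'] at heq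
          have hP' : 0 < ∏ i ∈ S', i :=
            prod_pos fun i hi => by have := hS1 i (mem_insert_of_mem hi); omega
          have hcp : D < c * p := by
            by_contra hcon
            have h1 : c * (p * ∏ i ∈ S', i) ≤ D * ∏ i ∈ S', i := by
              rw [← mul_assoc]
              exact Nat.mul_le_mul_right _ (by omega)
            have h2 : 0 < cofs S' := by
              unfold cofs
              apply sum_pos
              · intro j _
                apply prod_pos
                intro i hi
                have := hS1 i (mem_insert_of_mem (mem_of_mem_erase hi))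
                omega
              · rw [← card_pos]; omega
            have h3 : D * (∏ i ∈ S', i + p * cofs S') =
                D * (∏ i ∈ S', i) + D * p * cofs S' := by ring
            have h4 : 2 ≤ D * p * cofs S' := by
              have e1 : 1 * 2 ≤ D * p := Nat.mul_le_mul hD hp.1
              have e2 : 2 * 1 ≤ D * p * cofs S' := Nat.mul_le_mul (by omega) h2
              omega
            omega
          rw [if_pos hcp] at hs
          refine ih (m + 1) (c * p - D) (D * p) hpw.2 hl1 (by omega)
            (Nat.mul_pos hD (by omega)) hs.1 S' hcard ?_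
            (fun q hq => hS1 q (mem_insert_of_mem hq)) ?_
          · intro q hq
            rcases hSl q (mem_insert_of_mem hq) with h | h
            · rcases List.mem_cons.1 h with h | h
              · rw [h] at hq; exact absurd hq hpS'
              · exact Or.inl h
            · exact Or.inr h
          · have h5 : (c * p - D) * ∏ i ∈ S', i + D * ∏ i ∈ S', i = c * p * ∏ i ∈ S', i := by
              rw [← add_mul]
              congr 1
              omega
            have h6 : D * (∏ i ∈ S', i + p * cofs S') =
              D * (∏ i ∈ S', i) + D * p * cofs S' := by ring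
            have h7 : c * (p * ∏ i ∈ S', i) = c * p * ∏ i ∈ S', i := by ring
            omega
        · refine ih (m + 2) c D hpw.2 hl1 hc hD hs.2 S hS ?_ hS1 heq
          intro q hq
          rcases hSl q hq with h | h
          · rcases List.mem_cons.1 h with h | h
            · rw [h] at hq; exact absurd hq hpS
            · exact Or.inl h
          · exact Or.inr h

end RecipLaw
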